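import Pool.Agent.VB.A

/-!
# First-order sentences on the space of countable relational structures
-/

set_option autoImplicit false

namespace Pool.Agent.Helper6

open Set

namespace Str

variable {L : FirstOrder.Language.{0, 0}} {M N : Type} [∀ n, IsEmpty (L.Functions n)]

theorem realize_term_congr {α : Type} (S S' : L.Structure M) (w : α → M) (t : L.Term α) :
    @FirstOrder.Language.Term.realize L M S α w t =
      @FirstOrder.Language.Term.realize L M S' α w t := by
  cases t with
  | var a => rfl
  | func f ts => exact isEmptyElim f

theorem measurableSet_realize [∀ n, Countable (L.Relations n)] {α : Type} {n : ℕ}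
    (φ : L.BoundedFormula α n) (v : α → ℕ) (xs : Fin n → ℕ) :
    MeasurableSet {c : Code L |
      @FirstOrder.Language.BoundedFormula.Realize L ℕ (toStr c) α n φ v xs} := by
  induction φ with
  | falsum => exact MeasurableSet.const _
  | equal t₁ t₂ =>
    have : ∀ c : Code L, @FirstOrder.Language.BoundedFormula.Realize L ℕ (toStr c) α _
        (FirstOrder.Language.BoundedFormula.equal t₁ t₂) v xs ↔
        @FirstOrder.Language.BoundedFormula.Realize L ℕ (toStr fun _ => false) α _
        (FirstOrder.Language.BoundedFormula.equal t₁ t₂) v xs := by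
      intro c
      show @FirstOrder.Language.Term.realize L ℕ (toStr c) _ _ t₁ =
        @FirstOrder.Language.Term.realize L ℕ (toStr c) _ _ t₂ ↔ _
      rw [realize_term_congr (toStr c) (toStr fun _ => false),
        realize_term_congr (toStr c) (toStr fun _ => false)]
      exact Iff.rfl
    simp only [this]
    exact MeasurableSet.const _
  | @rel n l R ts =>
    let w : Fin l → ℕ := fun i =>
      @FirstOrder.Language.Term.realize L ℕ (toStr fun _ => false) _ (Sum.elim v xs) (ts i)
    have : {c : Code L | @FirstOrder.Language.BoundedFormula.Realize L ℕ (toStr c) α _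
        (FirstOrder.Language.BoundedFormula.rel R ts) v xs} = {c | (toStr c).RelMap R w} := by
      ext c
      show (toStr c).RelMap R (fun i => @FirstOrder.Language.Term.realize L ℕ (toStr c) _ _ (ts i))
        ↔ (toStr c).RelMap R w
      have : (fun i => @FirstOrder.Language.Term.realize L ℕ (toStr c) _ (Sum.elim v xs) (ts i)) =
          w := funext fun i => realize_term_congr _ _ _ _
      rw [this]
    rw [this]
    exact measurableSet_relMap R w
  | imp f₁ f₂ ih₁ ih₂ =>
    have h1 := ih₁ xs
    have h2 := ih₂ xs
    have : {c : Code L | @FirstOrder.Language.BoundedFormula.Realize L ℕ (toStr c) α _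
        (f₁.imp f₂) v xs} =
        {c : Code L | @FirstOrder.Language.BoundedFormula.Realize L ℕ (toStr c) α _ f₁ v xs}ᶜ ∪
        {c : Code L | @FirstOrder.Language.BoundedFormula.Realize L ℕ (toStr c) α _ f₂ v xs} := by
      ext c
      simp only [mem_ofPred_eq, mem_union, mem_compl_iff,
        FirstOrder.Language.BoundedFormula.realize_imp]
      tauto
    rw [this]
    exact h1.compl.union h2
  | all f ih =>
    have : {c : Code L | @FirstOrder.Language.BoundedFormula.Realize L ℕ (toStr c) α _
        f.all v xs} = ⋂ a : ℕ, {c : Code L |
        @FirstOrder.Language.BoundedFormula.Realize L ℕ (toStr c) α _ f v (Fin.snoc xs a)} := by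
      ext c
      simp only [mem_ofPred_eq, mem_iInter, FirstOrder.Language.BoundedFormula.realize_all]
    rw [this]
    exact MeasurableSet.iInter fun a => ih _

theorem measurableSet_sentence [∀ n, Countable (L.Relations n)] (σ : L.Sentence) :
    MeasurableSet {c : Code L | @FirstOrder.Language.Sentence.Realize L ℕ (toStr c) σ} :=
  measurableSet_realize σ _ _

theorem measurableSet_model (hc : Countable L.Symbols) (T : L.Theory) :
    MeasurableSet {c : Code L | @FirstOrder.Language.Theory.Model L ℕ (toStr c) T} := by
  have hcr : ∀ n, Countable (L.Relations n) := countable_relations hc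
  have hcs : Countable L.Sentence := inferInstanceAs (Countable (L.Formula Empty))
  have : {c : Code L | @FirstOrder.Language.Theory.Model L ℕ (toStr c) T} =
      ⋂ σ : T, {c : Code L | @FirstOrder.Language.Sentence.Realize L ℕ (toStr c) σ.1} := by
    ext c
    simp only [mem_ofPred_eq, mem_iInter]
    rw [@FirstOrder.Language.Theory.model_iff L ℕ (toStr c)]
    exact ⟨fun h σ => h σ.1 σ.2, fun h σ hσ => h ⟨σ, hσ⟩⟩
  rw [this]
  exact MeasurableSet.iInter fun σ => measurableSet_sentence σ.1

theorem model_iso {S S' : L.Structure ℕ} (h : Iso S S') {T : L.Theory}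
    (hT : @FirstOrder.Language.Theory.Model L ℕ S T) :
    @FirstOrder.Language.Theory.Model L ℕ S' T := by
  obtain ⟨e⟩ := (nonempty_equiv_iff S S').mpr h
  exact @FirstOrder.Language.StrongHomClass.theory_model L ℕ ℕ S S' T _ _ _ e hT

end Str

end Pool.Agent.Helper6
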