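import Pool.Agent.Helper6.IV2Arity

/-!
# The dichotomy for two-variable sentences of the infinitary logic
-/

set_option autoImplicit false

namespace Pool.Agent.Helper6

open Set Str

theorem nonempty_equiv_of_encard_eq' {s t : Set ℕ} (h : s.encard = t.encard) :
    Nonempty (s ≃ t) := by
  by_cases hs : s.Finite
  · have ht : t.Finite := by
      rw [← Set.encard_lt_top_iff, ← h, Set.encard_lt_top_iff]; exact hs
    have := hs.to_subtype
    have := ht.to_subtype
    have e : Nat.card s = Nat.card t := by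
      have h1 := hs.cast_ncard_eq
      have h2 := ht.cast_ncard_eq
      rw [h, ← h2] at h1
      have h3 : s.ncard = t.ncard := by exact_mod_cast h1
      simpa [Set.ncard] using h3
    exact ⟨(Finite.equivFinOfCardEq e).trans (Finite.equivFin t).symm⟩
  · have ht : ¬ t.Finite := by
      rw [← Set.encard_lt_top_iff, ← h, Set.encard_lt_top_iff]; exact hs
    have : Infinite s := (Set.not_finite.mp hs).to_subtype
    have : Infinite t := (Set.not_finite.mp ht).to_subtype
    obtain ⟨i⟩ := nonempty_denumerable s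
    obtain ⟨j⟩ := nonempty_denumerable t
    exact ⟨(Denumerable.eqv s).trans (Denumerable.eqv t).symm⟩

theorem enat_eq_of_forall {x y : ℕ∞} (h : ∀ m : ℕ, (m : ℕ∞) ≤ x ↔ (m : ℕ∞) ≤ y) : x = y := by
  apply le_antisymm
  · exact ENat.forall_natCast_le_iff_le.mp fun m hm => (h m).mp hm
  · exact ENat.forall_natCast_le_iff_le.mp fun m hm => (h m).mpr hm

namespace FormW

variable {L : FirstOrder.Language.{0, 0}}

/-- The set of subformulas. -/
def sub : FormW L → Set (FormW L)
  | rel R v => {rel R v}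
  | eq i j => {eq i j}
  | neg φ => insert (neg φ) (sub φ)
  | conj f => insert (conj f) (⋃ k, sub (f k))
  | ex i φ => insert (ex i φ) (sub φ)

theorem self_mem_sub (φ : FormW L) : φ ∈ sub φ := by
  cases φ <;> simp [sub]

theorem countable_sub (φ : FormW L) : (sub φ).Countable := by
  induction φ with
  | rel R v => exact countable_singleton _
  | eq i j => exact countable_singleton _
  | neg φ ih => exact ih.insert _
  | conj f ih => exact (countable_iUnion ih).insert _
  | ex i φ ih => exact ih.insert _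

theorem sub_closed (φ : FormW L) : ∀ ψ ∈ sub φ, (∀ χ, ψ = neg χ → χ ∈ sub φ) ∧
    (∀ f, ψ = conj f → ∀ k, f k ∈ sub φ) ∧ (∀ i χ, ψ = ex i χ → χ ∈ sub φ) := by
  induction φ with
  | rel R v =>
    intro ψ hψ
    simp only [sub, mem_singleton_iff] at hψ
    subst hψ
    refine ⟨?_, ?_, ?_⟩ <;> intros <;> contradiction
  | eq i j =>
    intro ψ hψ
    simp only [sub, mem_singleton_iff] at hψ
    subst hψ
    refine ⟨?_, ?_, ?_⟩ <;> intros <;> contradiction
  | neg φ ih =>
    intro ψ hψ
    rcases hψ with rfl | hψ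
    · refine ⟨fun χ h => ?_, ?_, ?_⟩
      · obtain rfl := neg.inj h
        exact Or.inr (self_mem_sub _)
      · intros; contradiction
      · intros; contradiction
    · obtain ⟨h1, h2, h3⟩ := ih ψ hψ
      exact ⟨fun χ h => Or.inr (h1 χ h), fun f h k => Or.inr (h2 f h k),
        fun i χ h => Or.inr (h3 i χ h)⟩
  | conj f ih =>
    intro ψ hψ
    rcases hψ with rfl | hψ
    · refine ⟨?_, fun g h k => ?_, ?_⟩
      · intros; contradiction
      · obtain rfl := conj.inj h
        exact Or.inr (mem_iUnion.mpr ⟨k, self_mem_sub _⟩)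
      · intros; contradiction
    · obtain ⟨k, hk⟩ := mem_iUnion.mp hψ
      obtain ⟨h1, h2, h3⟩ := ih k ψ hk
      exact ⟨fun χ h => Or.inr (mem_iUnion.mpr ⟨k, h1 χ h⟩),
        fun f h l => Or.inr (mem_iUnion.mpr ⟨k, h2 f h l⟩),
        fun i χ h => Or.inr (mem_iUnion.mpr ⟨k, h3 i χ h⟩)⟩
  | ex i φ ih =>
    intro ψ hψ
    rcases hψ with rfl | hψ
    · refine ⟨?_, ?_, fun j χ h => ?_⟩
      · intros; contradiction
      · intros; contradiction
      · obtain ⟨-, rfl⟩ := ex.inj h
        exact Or.inr (self_mem_sub _)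
    · obtain ⟨h1, h2, h3⟩ := ih ψ hψ
      exact ⟨fun χ h => Or.inr (h1 χ h), fun f h k => Or.inr (h2 f h k),
        fun i χ h => Or.inr (h3 i χ h)⟩

/-- The fragment of a formula. -/
def frag (φ : FormW L) : Set (FormW L) :=
  sub φ ∪ range fun R : (Σ n, L.Relations n) => rel R.2 (fun _ => false)

theorem countable_frag [∀ n, Countable (L.Relations n)] (φ : FormW L) : (frag φ).Countable :=
  (countable_sub φ).union (countable_range _)

theorem subCl_frag (φ : FormW L) : SubCl (frag φ) where
  neg := by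
    rintro χ (h | ⟨R, h⟩)
    · exact Or.inl ((sub_closed φ _ h).1 χ rfl)
    · contradiction
  conj := by
    rintro χ (h | ⟨R, h⟩) k
    · exact Or.inl ((sub_closed φ _ h).2.1 χ rfl k)
    · contradiction
  ex := by
    rintro i χ (h | ⟨R, h⟩)
    · exact Or.inl ((sub_closed φ _ h).2.2 i χ rfl)
    · contradiction
  rel := fun n R => Or.inr ⟨⟨n, R⟩, rfl⟩

variable {F : Set (FormW L)} {K : Set (L.Structure ℕ)}

/-- Configurations. -/
abbrev Cfg (L : FirstOrder.Language.{0, 0}) : Type :=
  Set (FormW L) × Set (FormW L) × (L.Relations 2 → Prop) × (L.Relations 2 → Prop)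

/-- The configuration of a pair. -/
def cfg (F : Set (FormW L)) (S : L.Structure ℕ) (a b : ℕ) : Cfg L :=
  (tp F S a, tp F S b, BM S a b, BM S b a)

/-- The realised configurations. -/
def CF (F : Set (FormW L)) (K : Set (L.Structure ℕ)) : Set (Cfg L) :=
  {κ | ∃ S ∈ K, ∃ a b : ℕ, a ≠ b ∧ cfg F S a b = κ}

/-- The realised types. -/
def TT (F : Set (FormW L)) (K : Set (L.Structure ℕ)) : Set (Set (FormW L)) :=
  {p | ∃ S ∈ K, ∃ a : ℕ, tp F S a = p}

theorem cfg_iso {S S' : L.Structure ℕ} {e : ℕ ≃ ℕ} (h : RelIso S S' e) (a b : ℕ) :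
    cfg F S' (e a) (e b) = cfg F S a b := by
  simp only [cfg, tp_iso h, BM_iso' h]

theorem countable_TT (h : (CF F K).Countable) : (TT F K).Countable := by
  refine (h.image Prod.fst).mono ?_
  rintro p ⟨S, hS, a, rfl⟩
  exact ⟨cfg F S a (a + 1), ⟨S, hS, a, a + 1, by omega, rfl⟩, rfl⟩

section meas

variable [∀ n, IsEmpty (L.Functions n)] [∀ n, Countable (L.Relations n)]

theorem mS_sat (φ : FormW L) (s : Bool → ℕ) : MeasurableSet {c : Code L | φ.Sat (toStr c) s} :=
  measurableSet_sat (fun _ R w => measurableSet_relMap R w) φ s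

theorem mS_holds (φ : FormW L) : MeasurableSet {c : Code L | φ.Holds (toStr c)} := by
  have : {c : Code L | φ.Holds (toStr c)} = ⋂ s : Bool → ℕ, {c | φ.Sat (toStr c) s} := by
    ext c; simp [Holds]
  rw [this]
  exact MeasurableSet.iInter fun s => mS_sat φ s

omit [∀ n, IsEmpty (L.Functions n)] [∀ n, Countable (L.Relations n)] in
theorem mS_iff {P Q : Code L → Prop} (hP : MeasurableSet {c | P c})
    (hQ : MeasurableSet {c | Q c}) : MeasurableSet {c | P c ↔ Q c} := by
  have : {c | P c ↔ Q c} = ({c | P c} ∩ {c | Q c}) ∪ ({c | P c}ᶜ ∩ {c | Q c}ᶜ) := by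
    ext c
    simp only [mem_ofPred_eq, mem_union, mem_inter_iff, mem_compl_iff]
    tauto
  rw [this]
  exact (hP.inter hQ).union (hP.compl.inter hQ.compl)

theorem mS_mem_tp (φ : FormW L) (a : ℕ) :
    MeasurableSet {c : Code L | φ ∈ tp F (toStr c) a} := by
  have : {c : Code L | φ ∈ tp F (toStr c) a} = {c | φ ∈ F} ∩ {c | φ.Sat (toStr c) fun _ => a} := by
    ext c; rfl
  rw [this]
  exact (MeasurableSet.const _).inter (mS_sat _ _)

theorem mS_tp_eq (hF : F.Countable) (a b : ℕ) :
    MeasurableSet {c : Code L | tp F (toStr c) a = tp F (toStr c) b} := by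
  have : Countable F := hF.to_subtype
  have : {c : Code L | tp F (toStr c) a = tp F (toStr c) b} =
      ⋂ φ : F, {c | φ.1 ∈ tp F (toStr c) a ↔ φ.1 ∈ tp F (toStr c) b} := by
    ext c
    simp only [mem_ofPred_eq, mem_iInter]
    constructor
    · intro h φ; rw [h]
    · intro h
      ext φ
      constructor
      · intro h'; exact (h ⟨φ, h'.1⟩).mp h'
      · intro h'; exact (h ⟨φ, h'.1⟩).mpr h'
  rw [this]
  exact MeasurableSet.iInter fun φ => mS_iff (mS_mem_tp _ _) (mS_mem_tp _ _)

theorem mS_tp (hF : F.Countable) (a : ℕ) (p : Set (FormW L)) :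
    MeasurableSet {c : Code L | tp F (toStr c) a = p} := by
  have : Countable F := hF.to_subtype
  have : {c : Code L | tp F (toStr c) a = p} =
      {c | p ⊆ F} ∩ ⋂ φ : F, {c | φ.1 ∈ tp F (toStr c) a ↔ φ.1 ∈ p} := by
    ext c
    simp only [mem_ofPred_eq, mem_iInter, mem_inter_iff]
    constructor
    · rintro rfl
      exact ⟨fun φ h => h.1, fun φ => Iff.rfl⟩
    · rintro ⟨h0, h⟩
      ext φ
      constructor
      · intro h'; exact (h ⟨φ, h'.1⟩).mp h'
      · intro h'; exact (h ⟨φ, h0 h'⟩).mpr h'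
  rw [this]
  exact (MeasurableSet.const _).inter
    (MeasurableSet.iInter fun φ => mS_iff (mS_mem_tp _ _) (MeasurableSet.const _))

theorem mS_BM (a b : ℕ) (t : L.Relations 2 → Prop) :
    MeasurableSet {c : Code L | BM (toStr c) a b = t} := by
  have : {c : Code L | BM (toStr c) a b = t} =
      ⋂ R : L.Relations 2, {c | BM (toStr c) a b R ↔ t R} := by
    ext c
    simp only [mem_ofPred_eq, mem_iInter]
    exact ⟨fun h R => by rw [h], fun h => funext fun R => propext (h R)⟩
  rw [this]
  exact MeasurableSet.iInter fun R => mS_iff (measurableSet_relMap R _) (MeasurableSet.const _)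

theorem mS_BM_eq (a b a' b' : ℕ) :
    MeasurableSet {c : Code L | BM (toStr c) a b = BM (toStr c) a' b'} := by
  have : {c : Code L | BM (toStr c) a b = BM (toStr c) a' b'} =
      ⋂ R : L.Relations 2, {c | BM (toStr c) a b R ↔ BM (toStr c) a' b' R} := by
    ext c
    simp only [mem_ofPred_eq, mem_iInter]
    exact ⟨fun h R => by rw [h], fun h => funext fun R => propext (h R)⟩
  rw [this]
  exact MeasurableSet.iInter fun R => mS_iff (measurableSet_relMap R _) (measurableSet_relMap R _)

theorem mS_cfg (hF : F.Countable) (a b : ℕ) (κ : Cfg L) :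
    MeasurableSet {c : Code L | cfg F (toStr c) a b = κ} := by
  have : {c : Code L | cfg F (toStr c) a b = κ} = {c | tp F (toStr c) a = κ.1} ∩
      ({c | tp F (toStr c) b = κ.2.1} ∩ ({c | BM (toStr c) a b = κ.2.2.1} ∩
        {c | BM (toStr c) b a = κ.2.2.2})) := by
    ext c
    simp only [cfg, mem_ofPred_eq, mem_inter_iff, Prod.ext_iff]
  rw [this]
  exact (mS_tp hF _ _).inter ((mS_tp hF _ _).inter ((mS_BM _ _ _).inter (mS_BM _ _ _)))

theorem mS_king (hF : F.Countable) (hT : (TT F K).Countable) (a : ℕ) :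
    MeasurableSet {c : Code L | King F K (toStr c) a} := by
  have : Countable (TT F K) := hT.to_subtype
  have : {c : Code L | King F K (toStr c) a} =
      (⋃ p : TT F K, ({c : Code L | tp F (toStr c) a = p.1} ∩
        {c | ∃ t t', Rz F K p.1 p.1 t t'}))ᶜ := by
    ext c
    simp only [King, mem_ofPred_eq, mem_compl_iff, mem_iUnion, mem_inter_iff, not_iff_not]
    constructor
    · rintro ⟨t, t', h⟩
      have h' := h
      obtain ⟨S, hS, a', b', h1, h2, h3, h4, h5⟩ := h'
      exact ⟨⟨tp F (toStr c) a, S, hS, a', h2⟩, rfl, t, t', h⟩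
    · rintro ⟨p, h1, h2⟩
      rw [h1]; exact h2
  rw [this]
  exact (MeasurableSet.iUnion fun p => (mS_tp hF _ _).inter (MeasurableSet.const _)).compl

omit [∀ n, IsEmpty (L.Functions n)] [∀ n, Countable (L.Relations n)] in
theorem mS_imp {P Q : Code L → Prop} (hP : MeasurableSet {c | P c})
    (hQ : MeasurableSet {c | Q c}) : MeasurableSet {c | P c → Q c} := by
  have : {c | P c → Q c} = {c | P c}ᶜ ∪ {c | Q c} := by
    ext c
    simp only [mem_ofPred_eq, mem_union, mem_compl_iff]
    tauto
  rw [this]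
  exact hP.compl.union hQ

theorem mS_tw (hF : F.Countable) (hT : (TT F K).Countable) (a b : ℕ) :
    MeasurableSet {c : Code L | Tw F K (toStr c) a b} := by
  have : {c : Code L | Tw F K (toStr c) a b} = {c | tp F (toStr c) a = tp F (toStr c) b} ∩
      ⋂ d : ℕ, {c | King F K (toStr c) d → c ∈ ({c | BM (toStr c) d a = BM (toStr c) d b} ∩
        {c | BM (toStr c) a d = BM (toStr c) b d} : Set (Code L))} := by
    ext c
    simp only [Tw, mem_ofPred_eq, mem_inter_iff, mem_iInter]
  rw [this]
  exact (mS_tp_eq hF _ _).inter (MeasurableSet.iInter fun d => mS_imp (mS_king hF hT d)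
    ((mS_BM_eq _ _ _ _).inter (mS_BM_eq _ _ _ _)))

end meas

end FormW

end Pool.Agent.Helper6
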