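import Pool.Agent.Helper6.GNDef
import Pool.Agent.Helper6.IV2Main

/-!
# Free duplication of points and guarded negation formulas
-/

set_option autoImplicit false

namespace Pool.Agent.Helper6

open Set Str

variable {L : FirstOrder.Language.{0, 0}} {M N β : Type}

section blow

variable [∀ n, IsEmpty (L.Functions n)]

/-- Free duplication of points along `π`. -/
@[reducible] def blow (S : L.Structure M) (π : N → M) : L.Structure N where
  funMap := fun f _ => isEmptyElim f
  RelMap := fun {_} R v => S.RelMap R (fun k => π (v k)) ∧ ∀ i j, π (v i) = π (v j) → v i = v j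

end blow

namespace FormG

theorem sat_congr {S : L.Structure M} (φ : FormG L) :
    ∀ s s' : ℕ → M, (∀ k ∈ φ.FV, s k = s' k) → (φ.Sat S s ↔ φ.Sat S s') := by
  induction φ with
  | rel R v =>
    intro s s' h
    have : (fun k => s (v k)) = fun k => s' (v k) := funext fun k => h _ ⟨k, rfl⟩
    simp only [Sat, this]
  | eq i j =>
    intro s s' h
    simp only [Sat, h i (by simp [FV]), h j (by simp [FV])]
  | conj f ih =>
    intro s s' h
    exact forall_congr' fun k => ih k s s' fun m hm => h m (mem_iUnion.mpr ⟨k, hm⟩)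
  | disj f ih =>
    intro s s' h
    exact exists_congr fun k => ih k s s' fun m hm => h m (mem_iUnion.mpr ⟨k, hm⟩)
  | ex i φ ih =>
    intro s s' h
    refine exists_congr fun a => ih _ _ fun m hm => ?_
    by_cases hmi : m = i
    · subst hmi; simp
    · rw [Function.update_of_ne hmi, Function.update_of_ne hmi]
      exact h m ⟨hm, hmi⟩
  | gneg R v φ ih =>
    intro s s' h
    have : (fun k => s (v k)) = fun k => s' (v k) := funext fun k => h _ (Or.inl ⟨k, rfl⟩)
    simp only [Sat, this, ih s s' fun m hm => h m (Or.inr hm)]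
  | uneg i φ ih =>
    intro s s' h
    simp only [Sat, ih s s' h]

theorem sat_iso {S : L.Structure M} {S' : L.Structure N} {e : M ≃ N} (h : RelIso S S' e)
    (φ : FormG L) : ∀ s : ℕ → M, φ.Sat S s ↔ φ.Sat S' (e ∘ s) := by
  induction φ with
  | rel R v => intro s; exact h _ R _
  | eq i j => intro s; simp [Sat]
  | conj f ih => intro s; exact forall_congr' fun k => ih k s
  | disj f ih => intro s; exact exists_congr fun k => ih k s
  | ex i φ ih =>
    intro s
    simp only [Sat]
    constructor
    · rintro ⟨a, ha⟩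
      refine ⟨e a, ?_⟩
      rw [← Function.comp_update]
      exact (ih _).mp ha
    · rintro ⟨b, hb⟩
      refine ⟨e.symm b, ?_⟩
      rw [ih, Function.comp_update]
      simpa using hb
  | gneg R v φ ih => intro s; exact and_congr (h _ R _) (not_congr (ih s))
  | uneg i φ ih => intro s; exact not_congr (ih s)

theorem holds_iso {S : L.Structure M} {S' : L.Structure N} {e : M ≃ N}
    (h : RelIso S S' e) {φ : FormG L} (hφ : φ.Holds S) : φ.Holds S' := by
  intro s
  have := (sat_iso h φ (e.symm ∘ s)).mp (hφ _)
  have e1 : e ∘ (e.symm ∘ s) = s := by ext k; simp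
  rwa [e1] at this

variable [∀ n, IsEmpty (L.Functions n)]

theorem sat_blow (S : L.Structure M) (π : N → M) (hπ : Function.Surjective π) (φ : FormG L) :
    φ.WF → (∀ s' : ℕ → N, φ.Sat (blow S π) s' → φ.Sat S (π ∘ s')) ∧
    (∀ c : M → N, (∀ b, π (c b) = b) → ∀ s : ℕ → M, φ.Sat S s → φ.Sat (blow S π) (c ∘ s)) := by
  classical
  have hsec : ∀ c : M → N, (∀ b, π (c b) = b) → ∀ s : ℕ → M, π ∘ (c ∘ s) = s := by
    intro c hc s; funext k; exact hc _
  induction φ with
  | rel R v =>
    intro _
    refine ⟨fun s' h => h.1, fun c hc s h => ⟨?_, fun i j hij => ?_⟩⟩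
    · show S.RelMap R (fun k => π (c (s (v k))))
      simp only [hc]
      exact h
    · have : s (v i) = s (v j) := by
        have h1 : π (c (s (v i))) = π (c (s (v j))) := hij
        rwa [hc, hc] at h1
      show c (s (v i)) = c (s (v j))
      rw [this]
  | eq i j =>
    intro _
    exact ⟨fun s' h => congrArg π h, fun c hc s h => congrArg c h⟩
  | conj f ih =>
    intro hw
    exact ⟨fun s' h k => (ih k (hw k)).1 s' (h k), fun c hc s h k => (ih k (hw k)).2 c hc s (h k)⟩
  | disj f ih =>
    intro hw
    refine ⟨?_, ?_⟩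
    · rintro s' ⟨k, h⟩
      exact ⟨k, (ih k (hw k)).1 s' h⟩
    · rintro c hc s ⟨k, h⟩
      exact ⟨k, (ih k (hw k)).2 c hc s h⟩
  | ex i φ ih =>
    intro hw
    refine ⟨?_, ?_⟩
    · rintro s' ⟨a, h⟩
      refine ⟨π a, ?_⟩
      rw [← Function.comp_update]
      exact (ih hw).1 _ h
    · rintro c hc s ⟨a, h⟩
      refine ⟨c a, ?_⟩
      rw [← Function.comp_update]
      exact (ih hw).2 c hc _ h
  | gneg R v φ ih =>
    rintro ⟨hw, hfv⟩
    refine ⟨?_, ?_⟩
    · rintro s' ⟨⟨h1, h2⟩, h3⟩
      refine ⟨h1, fun hcon => h3 ?_⟩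
      -- a section through the guard
      let c : M → N := fun b =>
        if h : ∃ k, π (s' (v k)) = b then s' (v h.choose) else (hπ b).choose
      have hc : ∀ b, π (c b) = b := by
        intro b
        by_cases h : ∃ k, π (s' (v k)) = b
        · simp only [c, dif_pos h]; exact h.choose_spec
        · simp only [c, dif_neg h]; exact (hπ b).choose_spec
      have h4 := (ih hw).2 c hc _ hcon
      refine (sat_congr φ _ _ fun m hm => ?_).mp h4
      obtain ⟨k, rfl⟩ := hfv hm
      have h5 : ∃ k', π (s' (v k')) = π (s' (v k)) := ⟨k, rfl⟩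
      show c (π (s' (v k))) = s' (v k)
      simp only [c, dif_pos h5]
      exact h2 _ _ h5.choose_spec
    · rintro c hc s ⟨h1, h2⟩
      refine ⟨⟨?_, fun i j hij => ?_⟩, fun hcon => h2 ?_⟩
      · show S.RelMap R (fun k => π (c (s (v k))))
        simp only [hc]
        exact h1
      · have : s (v i) = s (v j) := by
          have h1 : π (c (s (v i))) = π (c (s (v j))) := hij
          rwa [hc, hc] at h1
        show c (s (v i)) = c (s (v j))
        rw [this]
      · have := (ih hw).1 _ hcon
        rwa [hsec c hc] at this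
  | uneg i φ ih =>
    rintro ⟨hw, hfv⟩
    refine ⟨?_, ?_⟩
    · intro s' h3 hcon
      apply h3
      let c : M → N := fun b => if π (s' i) = b then s' i else (hπ b).choose
      have hc : ∀ b, π (c b) = b := by
        intro b
        by_cases h : π (s' i) = b
        · simp only [c, if_pos h]; exact h
        · simp only [c, if_neg h]; exact (hπ b).choose_spec
      have h4 := (ih hw).2 c hc _ hcon
      refine (sat_congr φ _ _ fun m hm => ?_).mp h4
      obtain rfl := hfv hm
      show c (π (s' m)) = s' m
      simp [c]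
    · intro c hc s h2 hcon
      apply h2
      have := (ih hw).1 _ hcon
      rwa [hsec c hc] at this

theorem holds_blow [Nonempty M] (S : L.Structure M) (π : N → M) (hπ : Function.Surjective π)
    {φ : FormG L} (hφ : φ.IsSentence) : φ.Holds (blow S π) ↔ φ.Holds S := by
  have hcongr : ∀ {P : Type} (S : L.Structure P) (s s' : ℕ → P), φ.Sat S s ↔ φ.Sat S s' := by
    intro P S s s'
    refine sat_congr φ s s' fun k hk => ?_
    rw [hφ.2] at hk
    exact absurd hk (notMem_empty k)
  obtain ⟨h1, h2⟩ := sat_blow S π hπ φ hφ.1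
  choose c hc using hπ
  constructor
  · intro h s
    have := h1 _ (h (c ∘ s))
    exact (hcongr S _ _).mp this
  · intro h s'
    have := h2 c hc (π ∘ s') (h _)
    exact (hcongr _ _ _).mp this

end FormG

/-! ### Twins -/

open Classical in
/-- The transposition of `a` and `b`. -/
noncomputable def sw (a b : N) : N → N := fun c => if c = a then b else if c = b then a else c

theorem sw_left (a b : N) : sw a b a = b := by simp [sw]

theorem sw_right (a b : N) : sw a b b = a := by
  by_cases h : b = a
  · simp [sw, h]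
  · simp [sw, h]

theorem sw_of_ne {a b c : N} (h1 : c ≠ a) (h2 : c ≠ b) : sw a b c = c := by simp [sw, h1, h2]

theorem sw_comm (a b : N) : sw a b = sw b a := by
  funext c
  by_cases h1 : c = a
  · rw [h1, sw_left, sw_right]
  · by_cases h2 : c = b
    · rw [h2, sw_left, sw_right]
    · rw [sw_of_ne h1 h2, sw_of_ne h2 h1]

theorem sw_sw (a b c : N) : sw a b (sw a b c) = c := by
  by_cases h1 : c = a
  · rw [h1, sw_left, sw_right]
  · by_cases h2 : c = b
    · rw [h2, sw_right, sw_left]
    · rw [sw_of_ne h1 h2, sw_of_ne h1 h2]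

/-- Free twins: equal, or never in a common tuple and interchangeable. -/
def TwG (S : L.Structure N) (a b : N) : Prop :=
  a = b ∨ ((∀ (n : ℕ) (R : L.Relations n) (v : Fin n → N), S.RelMap R v →
    ¬ (a ∈ range v ∧ b ∈ range v)) ∧
    ∀ (n : ℕ) (R : L.Relations n) (v : Fin n → N), S.RelMap R v ↔ S.RelMap R (sw a b ∘ v))

theorem TwG.refl {S : L.Structure N} (a : N) : TwG S a a := Or.inl rfl

theorem TwG.symm {S : L.Structure N} {a b : N} (h : TwG S a b) : TwG S b a := by
  rcases h with h | ⟨h1, h2⟩
  · exact Or.inl h.symm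
  · refine Or.inr ⟨fun n R v hv hab => h1 n R v hv ⟨hab.2, hab.1⟩, fun n R v => ?_⟩
    rw [sw_comm b a]
    exact h2 n R v

theorem TwG.eq_of_mem {S : L.Structure N} {a b : N} (h : TwG S a b) {n : ℕ} {R : L.Relations n}
    {v : Fin n → N} (hv : S.RelMap R v) (ha : a ∈ range v) (hb : b ∈ range v) : a = b := by
  rcases h with h | ⟨h1, _⟩
  · exact h
  · exact absurd ⟨ha, hb⟩ (h1 n R v hv)

theorem TwG.relMap {S : L.Structure N} {a b : N} (h : TwG S a b) {n : ℕ} {R : L.Relations n}
    {v : Fin n → N} (hv : S.RelMap R v) : S.RelMap R (sw a b ∘ v) := by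
  rcases h with h | ⟨_, h2⟩
  · subst h
    have : sw a a ∘ v = v := by
      funext k
      by_cases hk : v k = a
      · show sw a a (v k) = v k
        rw [hk, sw_left]
      · exact sw_of_ne hk hk
    rwa [this]
  · exact (h2 n R v).mp hv

theorem TwG.trans {S : L.Structure N} {a b c : N} (h : TwG S a b) (h' : TwG S b c) :
    TwG S a c := by
  by_cases hab : a = b
  · subst hab; exact h'
  by_cases hbc : b = c
  · subst hbc; exact h
  by_cases hac : a = c
  · exact Or.inl hac
  refine Or.inr ⟨?_, ?_⟩
  · rintro n R v hv ⟨ha, hc⟩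
    have h1 := h'.relMap hv
    apply hab
    refine h.eq_of_mem h1 ?_ ?_
    · obtain ⟨k, hk⟩ := ha
      refine ⟨k, ?_⟩
      show sw b c (v k) = a
      rw [hk, sw_of_ne hab hac]
    · obtain ⟨k, hk⟩ := hc
      refine ⟨k, ?_⟩
      show sw b c (v k) = b
      rw [hk, sw_right]
  · have key : ∀ x : N, sw a c x = sw a b (sw b c (sw a b x)) := by
      intro x
      by_cases hxa : x = a
      · rw [hxa, sw_left, sw_left, sw_left, sw_of_ne (Ne.symm hac) (Ne.symm hbc)]
      · by_cases hxb : x = b
        · rw [hxb, sw_right, sw_of_ne (Ne.symm hab) hbc, sw_of_ne hab hac, sw_left]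
        · by_cases hxc : x = c
          · rw [hxc, sw_right, sw_of_ne (Ne.symm hac) (Ne.symm hbc), sw_right, sw_right]
          · rw [sw_of_ne hxa hxc, sw_of_ne hxa hxb, sw_of_ne hxb hxc, sw_of_ne hxa hxb]
    have himp : ∀ (n : ℕ) (R : L.Relations n) (v : Fin n → N), S.RelMap R v →
        S.RelMap R (sw a c ∘ v) := by
      intro n R v hv
      have : sw a c ∘ v = sw a b ∘ sw b c ∘ sw a b ∘ v := by funext k; exact key _
      rw [this]
      exact h.relMap (h'.relMap (h.relMap hv))
    intro n R v
    refine ⟨himp n R v, fun hv => ?_⟩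
    have h1 := himp n R _ hv
    have : sw a c ∘ sw a c ∘ v = v := by funext k; exact sw_sw _ _ _
    rwa [this] at h1

theorem twG_iso {S : L.Structure M} {S' : L.Structure N} {e : M ≃ N} (h : RelIso S S' e)
    (a b : M) : TwG S' (e a) (e b) ↔ TwG S a b := by
  have hsw : ∀ x, e (sw a b x) = sw (e a) (e b) (e x) := by
    intro x
    by_cases h1 : x = a
    · rw [h1, sw_left, sw_left]
    · by_cases h2 : x = b
      · rw [h2, sw_right, sw_right]
      · rw [sw_of_ne h1 h2, sw_of_ne (fun h => h1 (e.injective h)) (fun h => h2 (e.injective h))]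
  have hsur : ∀ {n : ℕ} (v' : Fin n → N), ∃ v : Fin n → M, v' = e ∘ v := fun v' =>
    ⟨e.symm ∘ v', by funext k; simp⟩
  have hmem : ∀ {n : ℕ} (v : Fin n → M) (a : M), e a ∈ range (e ∘ v) ↔ a ∈ range v := by
    intro n v a
    constructor
    · rintro ⟨k, hk⟩; exact ⟨k, e.injective hk⟩
    · rintro ⟨k, hk⟩; exact ⟨k, congrArg e hk⟩
  rw [TwG, TwG, e.apply_eq_iff_eq]
  refine or_congr Iff.rfl (and_congr ?_ ?_)
  · refine forall_congr' fun n => forall_congr' fun R => ?_
    constructor
    · intro H v hv
      have := H (e ∘ v) ((h n R v).mp hv)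
      rwa [hmem, hmem] at this
    · intro H v' hv'
      obtain ⟨v, rfl⟩ := hsur v'
      rw [hmem, hmem]
      exact H v ((h n R v).mpr hv')
  · refine forall_congr' fun n => forall_congr' fun R => ?_
    have hc : ∀ v : Fin n → M, sw (e a) (e b) ∘ (e ∘ v) = e ∘ (sw a b ∘ v) := by
      intro v; funext k; exact (hsw _).symm
    constructor
    · intro H v
      have := H (e ∘ v)
      rwa [hc, ← h n R v, ← h n R (sw a b ∘ v)] at this
    · intro H v'
      obtain ⟨v, rfl⟩ := hsur v'
      rw [hc, ← h n R v, ← h n R (sw a b ∘ v)]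
      exact H v

/-- Replacing all entries of a tuple by twins. -/
theorem relMap_of_twins {S : L.Structure N} {n : ℕ} {R : L.Relations n} (w : Fin n → N)
    (hw : ∀ i j, TwG S (w i) (w j) → w i = w j) :
    ∀ (m : ℕ) (v : Fin n → N), {i | v i ≠ w i}.ncard = m → (∀ i, TwG S (v i) (w i)) →
      S.RelMap R v → S.RelMap R w := by
  intro m
  induction m using Nat.strong_induction_on with
  | _ m ih =>
    intro v hm htw hv
    by_cases hvw : ∀ i, v i = w i
    · have : v = w := funext hvw
      rwa [← this]
    · push Not at hvw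
      obtain ⟨i, hi⟩ := hvw
      set v' : Fin n → N := sw (v i) (w i) ∘ v with hv'
      have h1 : S.RelMap R v' := (htw i).relMap hv
      -- `w i` does not occur in `v`
      have h2 : ∀ j, v j ≠ w i := by
        intro j hj
        exact hi ((htw i).eq_of_mem hv ⟨i, rfl⟩ ⟨j, hj⟩)
      have h3 : ∀ j, v j = v i → v' j = w j := by
        intro j hj
        show sw (v i) (w i) (v j) = w j
        rw [hj, sw_left]
        apply hw
        exact (htw i).symm.trans (hj ▸ htw j)
      have h4 : ∀ j, v j ≠ v i → v' j = v j := by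
        intro j hj
        exact sw_of_ne hj (h2 j)
      refine ih _ ?_ v' rfl ?_ h1
      · rw [← hm]
        apply Set.ncard_lt_ncard
        · refine ⟨fun j hj => ?_, fun hsub => ?_⟩
          · by_cases hji : v j = v i
            · exact absurd (h3 j hji) hj
            · show v j ≠ w j
              rw [← h4 j hji]; exact hj
          · exact (hsub hi) (h3 i rfl)
        · exact Set.toFinite _
      · intro j
        by_cases hji : v j = v i
        · rw [h3 j hji]; exact TwG.refl _
        · rw [h4 j hji]; exact htw j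

/-- Tuples with pointwise twin entries, both consistent. -/
theorem relMap_iff_of_twins {S : L.Structure N} {n : ℕ} {R : L.Relations n} {v w : Fin n → N}
    (htw : ∀ i, TwG S (v i) (w i)) (hw : ∀ i j, TwG S (w i) (w j) → w i = w j)
    (hv : ∀ i j, TwG S (v i) (v j) → v i = v j) : S.RelMap R v ↔ S.RelMap R w :=
  ⟨relMap_of_twins w hw _ v rfl htw, relMap_of_twins v hv _ w rfl fun i => (htw i).symm⟩

end Pool.Agent.Helper6
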