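import Mathlib

/-!
# Guarded negation formulas of the infinitary logic with countable conjunctions

The guarded negation fragment (with equality) of `L_{omega_1, omega}` over a relational language
`L`: formulas are built from atoms by countable conjunctions and disjunctions, existential
quantification and guarded negation.  Variables are named by natural numbers.
-/

set_option autoImplicit false

namespace Pool.Agent.Helper6

/-- Raw guarded negation formulas of `L_{omega_1, omega}` over the relation symbols of `L`. -/
inductive FormG (L : FirstOrder.Language.{0, 0}) : Type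
  /-- an atomic formula `R(x_{v 0}, ..., x_{v (n-1)})` -/
  | rel {n : ℕ} (R : L.Relations n) (v : Fin n → ℕ) : FormG L
  /-- the equality `x_i = x_j` -/
  | eq (i j : ℕ) : FormG L
  /-- conjunction of a sequence of formulas -/
  | conj (f : ℕ → FormG L) : FormG L
  /-- disjunction of a sequence of formulas -/
  | disj (f : ℕ → FormG L) : FormG L
  /-- existential quantification of `x_i` -/
  | ex (i : ℕ) (φ : FormG L) : FormG L
  /-- the guarded negation `R(x_{v 0}, ..., x_{v (n-1)}) and not φ` -/
  | gneg {n : ℕ} (R : L.Relations n) (v : Fin n → ℕ) (φ : FormG L) : FormG L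
  /-- the negation of a formula with no free variable other than `x_i` -/
  | uneg (i : ℕ) (φ : FormG L) : FormG L

namespace FormG

variable {L : FirstOrder.Language.{0, 0}} {M : Type}

/-- The set of free variables. -/
def FV : FormG L → Set ℕ
  | rel _ v => Set.range v
  | eq i j => {i, j}
  | conj f => ⋃ k, FV (f k)
  | disj f => ⋃ k, FV (f k)
  | ex i φ => FV φ \ {i}
  | gneg _ v φ => Set.range v ∪ FV φ
  | uneg _ φ => FV φ

/-- All negations are guarded: the free variables of a formula negated by `gneg` occur in its
guard, and those of a formula negated by `uneg` are among the one indicated. -/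
def WF : FormG L → Prop
  | rel _ _ => True
  | eq _ _ => True
  | conj f => ∀ k, WF (f k)
  | disj f => ∀ k, WF (f k)
  | ex _ φ => WF φ
  | gneg _ v φ => WF φ ∧ FV φ ⊆ Set.range v
  | uneg i φ => WF φ ∧ FV φ ⊆ {i}

/-- Satisfaction in a structure `S` on `M` under an assignment of the variables. -/
def Sat (S : L.Structure M) : FormG L → (ℕ → M) → Prop
  | rel R v, s => S.RelMap R (fun k => s (v k))
  | eq i j, s => s i = s j
  | conj f, s => ∀ k : ℕ, Sat S (f k) s
  | disj f, s => ∃ k : ℕ, Sat S (f k) s
  | ex i φ, s => ∃ a : M, Sat S φ (Function.update s i a)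
  | gneg R v φ, s => S.RelMap R (fun k => s (v k)) ∧ ¬ Sat S φ s
  | uneg _ φ, s => ¬ Sat S φ s

/-- A guarded negation sentence: all negations are guarded and there are no free variables. -/
def IsSentence (φ : FormG L) : Prop := φ.WF ∧ φ.FV = ∅

/-- Truth of a formula under every assignment (for sentences, truth). -/
def Holds (S : L.Structure M) (φ : FormG L) : Prop := ∀ s : ℕ → M, φ.Sat S s

end FormG

end Pool.Agent.Helper6
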