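import Pool.Agent.Helper6.GNBlow

/-!
# The dichotomy for classes closed under free duplication of points
-/

set_option autoImplicit false

namespace Pool.Agent.Helper6

open Set Str

variable {L : FirstOrder.Language.{0, 0}} {M N β : Type} [∀ n, IsEmpty (L.Functions n)]

section twins

variable {S₀ : L.Structure M} {π : N → M}

theorem twG_fiber {u v : N} (h : π u = π v) : TwG (blow S₀ π) u v := by
  by_cases huv : u = v
  · exact Or.inl huv
  refine Or.inr ⟨?_, ?_⟩
  · rintro n R w ⟨_, hw⟩ ⟨⟨i, hi⟩, ⟨j, hj⟩⟩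
    apply huv
    rw [← hi, ← hj]
    apply hw
    rw [hi, hj, h]
  · have hπ : ∀ x, π (sw u v x) = π x := by
      intro x
      by_cases h1 : x = u
      · rw [h1, sw_left, h]
      · by_cases h2 : x = v
        · rw [h2, sw_right, h]
        · rw [sw_of_ne h1 h2]
    intro n R w
    show (S₀.RelMap R (fun k => π (w k)) ∧ ∀ i j, π (w i) = π (w j) → w i = w j) ↔
      (S₀.RelMap R (fun k => π (sw u v (w k))) ∧
        ∀ i j, π (sw u v (w i)) = π (sw u v (w j)) → sw u v (w i) = sw u v (w j))
    simp only [hπ]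
    refine and_congr_right fun _ => ?_
    constructor
    · intro H i j hij
      rw [H i j hij]
    · intro H i j hij
      have := congrArg (sw u v) (H i j hij)
      rwa [sw_sw, sw_sw] at this

theorem twG_lift {i j : M} (hij : i ≠ j) (h : TwG S₀ i j) {u u' : N} (hu : π u = i)
    (hu' : π u' = j) : TwG (blow S₀ π) u u' := by
  refine Or.inr ⟨?_, ?_⟩
  · rintro n R w ⟨hw1, hw2⟩ ⟨⟨k, hk⟩, ⟨l, hl⟩⟩
    apply hij
    refine h.eq_of_mem hw1 ⟨k, ?_⟩ ⟨l, ?_⟩
    · show π (w k) = i
      rw [hk, hu]
    · show π (w l) = j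
      rw [hl, hu']
  · have key : ∀ {i j : M}, i ≠ j → TwG S₀ i j → ∀ {u u' : N}, π u = i → π u' = j →
        ∀ (n : ℕ) (R : L.Relations n) (w : Fin n → N), u ∈ range w →
        (blow S₀ π).RelMap R w → (blow S₀ π).RelMap R (sw u u' ∘ w) := by
      intro i j hij h u u' hu hu' n R w hmem hw
      obtain ⟨hw1, hw2⟩ := hw
      obtain ⟨k₀, hk₀⟩ := hmem
      have h1 : ∀ k, π (w k) = i → w k = u := by
        intro k hk
        rw [← hk₀]
        apply hw2
        rw [hk, hk₀, hu]
      have h2 : ∀ k, π (w k) ≠ j := by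
        intro k hk
        apply hij
        refine h.eq_of_mem hw1 ⟨k₀, ?_⟩ ⟨k, hk⟩
        show π (w k₀) = i
        rw [hk₀, hu]
      have h3 : ∀ k, π (sw u u' (w k)) = sw i j (π (w k)) := by
        intro k
        by_cases hk : w k = u
        · rw [hk, sw_left, hu, sw_left, hu']
        · have e1 : π (w k) ≠ i := fun h => hk (h1 k h)
          have e2 : w k ≠ u' := fun h => h2 k (by rw [h, hu'])
          rw [sw_of_ne hk e2, sw_of_ne e1 (h2 k)]
      refine ⟨?_, ?_⟩
      · show S₀.RelMap R (fun k => π (sw u u' (w k)))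
        simp only [h3]
        exact h.relMap hw1
      · intro k l hkl
        have hkl' : π (sw u u' (w k)) = π (sw u u' (w l)) := hkl
        rw [h3, h3] at hkl'
        have := congrArg (sw i j) hkl'
        rw [sw_sw, sw_sw] at this
        show sw u u' (w k) = sw u u' (w l)
        rw [hw2 k l this]
    have himp : ∀ (n : ℕ) (R : L.Relations n) (w : Fin n → N),
        (blow S₀ π).RelMap R w → (blow S₀ π).RelMap R (sw u u' ∘ w) := by
      intro n R w hw
      by_cases h1 : u ∈ range w
      · exact key hij h hu hu' n R w h1 hw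
      · by_cases h2 : u' ∈ range w
        · rw [sw_comm]
          exact key (Ne.symm hij) h.symm hu' hu n R w h2 hw
        · have : sw u u' ∘ w = w := by
            funext k
            exact sw_of_ne (fun h => h1 ⟨k, h⟩) (fun h => h2 ⟨k, h⟩)
          rwa [this]
    intro n R w
    refine ⟨himp n R w, fun hw => ?_⟩
    have h1 := himp n R _ hw
    have : sw u u' ∘ sw u u' ∘ w = w := by funext k; exact sw_sw _ _ _
    rwa [this] at h1

theorem twG_proj (hπ : Function.Surjective π) {u v : N} (h : TwG (blow S₀ π) u v) :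
    TwG S₀ (π u) (π v) := by
  classical
  by_cases huv : π u = π v
  · exact Or.inl huv
  have huv' : u ≠ v := fun h => huv (by rw [h])
  -- a section through `u` and `v`
  choose c₀ hc₀ using hπ
  let c : M → N := fun b => if b = π u then u else if b = π v then v else c₀ b
  have hc : ∀ b, π (c b) = b := by
    intro b
    by_cases h1 : b = π u
    · simp [c, h1]
    · by_cases h2 : b = π v
      · simp only [c, h2, if_true]
        rw [if_neg (fun h => huv h.symm)]
      · simp only [c, h1, if_false, h2, hc₀]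
  have hcu : c (π u) = u := by simp [c]
  have hcv : c (π v) = v := by
    show (if π v = π u then u else if π v = π v then v else c₀ (π v)) = v
    rw [if_neg (fun h => huv h.symm), if_pos rfl]
  have hcinj : Function.Injective c := by
    intro a b hab
    rw [← hc a, ← hc b, hab]
  have hlift : ∀ {n : ℕ} {R : L.Relations n} {w : Fin n → M}, S₀.RelMap R w →
      (blow S₀ π).RelMap R (c ∘ w) := by
    intro n R w hw
    refine ⟨?_, fun i j hij => ?_⟩
    · show S₀.RelMap R (fun k => π (c (w k)))
      simp only [hc]; exact hw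
    · have : π (c (w i)) = π (c (w j)) := hij
      rw [hc, hc] at this
      show c (w i) = c (w j)
      rw [this]
  refine Or.inr ⟨?_, ?_⟩
  · rintro n R w hw ⟨⟨k, hk⟩, ⟨l, hl⟩⟩
    apply huv'
    refine h.eq_of_mem (hlift hw) ⟨k, ?_⟩ ⟨l, ?_⟩
    · show c (w k) = u
      rw [hk, hcu]
    · show c (w l) = v
      rw [hl, hcv]
  · have hsw : ∀ b, π (sw u v (c b)) = sw (π u) (π v) b := by
      intro b
      by_cases h1 : b = π u
      · rw [h1, hcu, sw_left, sw_left]
      · by_cases h2 : b = π v
        · rw [h2, hcv, sw_right, sw_right]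
        · have e1 : c b ≠ u := fun h => h1 (by rw [← hc b, h])
          have e2 : c b ≠ v := fun h => h2 (by rw [← hc b, h])
          rw [sw_of_ne e1 e2, hc, sw_of_ne h1 h2]
    have himp : ∀ (n : ℕ) (R : L.Relations n) (w : Fin n → M),
        S₀.RelMap R w → S₀.RelMap R (sw (π u) (π v) ∘ w) := by
      intro n R w hw
      have h1 := (h.relMap (hlift hw)).1
      have : (fun k => π ((sw u v ∘ (c ∘ w)) k)) = sw (π u) (π v) ∘ w := by
        funext k; exact hsw _
      rwa [this] at h1
    intro n R w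
    refine ⟨himp n R w, fun hw => ?_⟩
    have h1 := himp n R _ hw
    have : sw (π u) (π v) ∘ sw (π u) (π v) ∘ w = w := by funext k; exact sw_sw _ _ _
    rwa [this] at h1

theorem blow_iso {N' : Type} (S₀ : L.Structure M) (π : N → M) (e : N ≃ N') :
    RelIso (blow S₀ π) (blow S₀ (π ∘ e.symm)) e := by
  intro n R w
  show (S₀.RelMap R (fun k => π (w k)) ∧ ∀ i j, π (w i) = π (w j) → w i = w j) ↔
    (S₀.RelMap R (fun k => π (e.symm (e (w k)))) ∧
      ∀ i j, π (e.symm (e (w i))) = π (e.symm (e (w j))) → e (w i) = e (w j))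
  simp only [Equiv.symm_apply_apply, EmbeddingLike.apply_eq_iff_eq]

end twins

/-- Number of copies. -/
def kapG (x : ℕ → Bool) (i : ℕ) : ℕ := if x i then i + 3 else 2

theorem kapG_two_le (x : ℕ → Bool) (i : ℕ) : 2 ≤ kapG x i := by
  unfold kapG; split_ifs <;> omega

/-- The projections of the coding structures. -/
def prG (x : ℕ → Bool) : ℕ × ℕ → ℕ
  | (0, _) => 0
  | (i + 1, j) => if j < kapG x i then i + 1 else 0

theorem prG_succ {x : ℕ → Bool} {i j : ℕ} (hj : j < kapG x i) : prG x (i + 1, j) = i + 1 := by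
  simp only [prG, hj, if_true]

theorem prG_succ' {x : ℕ → Bool} {i j : ℕ} (hj : ¬ j < kapG x i) : prG x (i + 1, j) = 0 := by
  simp only [prG, hj, if_false]

theorem prG_surjective (x : ℕ → Bool) : Function.Surjective (prG x) := by
  intro i
  match i with
  | 0 => exact ⟨(0, 0), rfl⟩
  | i + 1 =>
    have := kapG_two_le x i
    exact ⟨(i + 1, 0), prG_succ (by omega)⟩

theorem continuous_prG (u : ℕ × ℕ) : Continuous fun x => prG x u := by
  rcases u with ⟨i, j⟩
  match i with
  | 0 => exact continuous_const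
  | i + 1 =>
    have : (fun x : ℕ → Bool => prG x (i + 1, j)) =
        (fun b : Bool => if j < (if b then i + 3 else 2) then i + 1 else 0) ∘
          (fun x : ℕ → Bool => x i) := rfl
    rw [this]
    exact continuous_of_discreteTopology.comp (continuous_apply i)

theorem ncard_prG (x : ℕ → Bool) (k : ℕ) : {v : ℕ × ℕ | prG x v = k + 1}.ncard = kapG x k := by
  have : {v : ℕ × ℕ | prG x v = k + 1} =
      (fun j : ℕ => (k + 1, j)) '' (Finset.range (kapG x k) : Set ℕ) := by
    ext v
    simp only [mem_ofPred_eq, mem_image, Finset.coe_range, mem_Iio]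
    constructor
    · intro h
      obtain ⟨i', j⟩ := v
      match i' with
      | 0 => simp [prG] at h
      | i' + 1 =>
        by_cases hj : j < kapG x i'
        · rw [prG_succ hj] at h
          obtain rfl : i' = k := by omega
          exact ⟨j, hj, rfl⟩
        · rw [prG_succ' hj] at h
          omega
    · rintro ⟨j, hj, rfl⟩
      exact prG_succ hj
  rw [this, Set.ncard_image_of_injective _ (by
    intro i j hij
    simpa using hij), Set.ncard_coe_finset, Finset.card_range]

theorem perfK_of_reduced {K : Set (L.Structure ℕ)}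
    (hK : ∀ S S' : L.Structure ℕ, Iso S S' → S ∈ K → S' ∈ K) {S₀ : L.Structure ℕ}
    (hblow : ∀ π : ℕ → ℕ, Function.Surjective π → blow S₀ π ∈ K)
    (hred : ∀ i j, TwG S₀ i j → i = j) : PerfK K := by
  let N : (ℕ → Bool) → L.Structure (ℕ × ℕ) := fun x => blow S₀ (prG x)
  have htw : ∀ x u v, TwG (N x) u v ↔ prG x u = prG x v := by
    intro x u v
    constructor
    · intro h
      exact hred _ _ (twG_proj (prG_surjective x) h)
    · intro h; exact twG_fiber h
  have hmod : ∀ x, ∀ S : L.Structure ℕ, Iso (N x) S → S ∈ K := by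
    intro x S hS
    let e : ℕ × ℕ ≃ ℕ := Denumerable.eqv (ℕ × ℕ)
    have h1 : Iso (N x) (blow S₀ (prG x ∘ e.symm)) := ⟨e, blow_iso S₀ (prG x) e⟩
    refine hK _ _ (h1.symm.trans hS) (hblow _ ?_)
    exact (prG_surjective x).comp e.symm.surjective
  have hcl : ∀ (n : ℕ) (R : L.Relations n) (w : Fin n → ℕ × ℕ),
      IsClopen {x | (N x).RelMap R w} := by
    intro n R w
    have hc : Continuous fun (x : ℕ → Bool) (k : Fin n) => prG x (w k) :=
      continuous_pi fun k => continuous_prG (w k)
    exact (isClopen_discrete {z : Fin n → ℕ | S₀.RelMap R z ∧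
      ∀ i j, z i = z j → w i = w j}).preimage hc
  have hdec : ∀ x i, x i = true ↔ ∃ u, {v | TwG (N x) v u}.ncard = i + 3 := by
    intro x i
    simp only [htw]
    constructor
    · intro hx
      have h0 : 0 < kapG x i := by have := kapG_two_le x i; omega
      refine ⟨(i + 1, 0), ?_⟩
      rw [prG_succ h0, ncard_prG, kapG, if_pos hx]
    · rintro ⟨u, hi⟩
      rcases hu : prG x u with _ | k
      · exfalso
        rw [hu] at hi
        have : {v : ℕ × ℕ | prG x v = 0}.ncard = 0 := by
          apply Set.Infinite.ncard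
          have h1 : (range fun j : ℕ => ((0 : ℕ), j)).Infinite := by
            apply Set.infinite_range_of_injective
            intro i j hij
            simpa using hij
          refine h1.mono ?_
          rintro _ ⟨j, rfl⟩
          rfl
        omega
      · rw [hu, ncard_prG, kapG] at hi
        by_cases hx : x k = true
        · rw [if_pos hx] at hi
          have : k = i := by omega
          rw [← this]; exact hx
        · rw [if_neg hx] at hi
          omega
  refine perfK_of_family N hmod hcl ?_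
  rintro x y ⟨e, he⟩
  have key : ∀ i, (∃ u, {v | TwG (N x) v u}.ncard = i + 3) ↔
      (∃ u, {v | TwG (N y) v u}.ncard = i + 3) := by
    intro i
    refine Iff.trans ?_ (e.exists_congr_right (q := fun u =>
      {v | TwG (N y) v u}.ncard = i + 3))
    refine exists_congr fun u => ?_
    have h1 : {v | TwG (N y) v (e u)} = e '' {v | TwG (N x) v u} := by
      ext v
      obtain ⟨v, rfl⟩ := e.surjective v
      simp only [mem_ofPred_eq, twG_iso he, mem_image, EmbeddingLike.apply_eq_iff_eq,
        exists_eq_right]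
    rw [h1, Set.ncard_image_of_injective _ e.injective]
  funext i
  have := key i
  rw [← hdec, ← hdec] at this
  exact Bool.eq_iff_iff.mpr this

/-- Infinitely many twin classes give perfectly many structures. -/
theorem perfK_of_infinite_twins {K : Set (L.Structure ℕ)}
    (hK : ∀ S S' : L.Structure ℕ, Iso S S' → S ∈ K → S' ∈ K)
    (hblow : ∀ (S : L.Structure ℕ) (π : ℕ → ℕ), Function.Surjective π →
      (blow S π ∈ K ↔ S ∈ K))
    {S : L.Structure ℕ} (hS : S ∈ K) (a : ℕ → ℕ) (hainj : ∀ i j, TwG S (a i) (a j) → i = j)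
    (haex : ∀ b, ∃ i, TwG S b (a i)) : PerfK K := by
  choose π hπ using haex
  have hπa : ∀ i, π (a i) = i := fun i => (hainj _ _ (hπ (a i))).symm
  have hπtw : ∀ b b', TwG S b b' ↔ π b = π b' := by
    intro b b'
    constructor
    · intro h
      exact hainj _ _ ((hπ b).symm.trans (h.trans (hπ b')))
    · intro h
      exact (hπ b).trans (h ▸ (hπ b').symm)
  have hsurj : Function.Surjective π := fun i => ⟨a i, hπa i⟩
  let S₀ : L.Structure ℕ :=
    { funMap := fun f _ => isEmptyElim f
      RelMap := fun {n} R v => S.RelMap R (fun k => a (v k)) }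
  have hSb : RelIso (blow S₀ π) S (Equiv.refl ℕ) := by
    intro n R v
    show (S.RelMap R (fun k => a (π (v k))) ∧ ∀ i j, π (v i) = π (v j) → v i = v j) ↔
      S.RelMap R (fun k => v k)
    constructor
    · rintro ⟨h1, h2⟩
      refine (relMap_iff_of_twins (S := S) (v := v) (w := fun k => a (π (v k))) (fun i => hπ _)
        ?_ ?_).mpr h1
      · intro i j hij
        rw [hainj _ _ hij]
      · intro i j hij
        exact h2 i j ((hπtw _ _).mp hij)
    · intro h
      refine ⟨?_, fun i j hij => ?_⟩
      · refine relMap_of_twins (S := S) (fun k => a (π (v k))) ?_ _ v rfl (fun i => hπ _) h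
        intro i j hij
        show a (π (v i)) = a (π (v j))
        rw [hainj _ _ hij]
      · exact ((hπtw _ _).mpr hij).eq_of_mem h ⟨i, rfl⟩ ⟨j, rfl⟩
  have hbK : blow S₀ π ∈ K := hK _ _ (Iso.symm ⟨_, hSb⟩) hS
  have hS₀ : S₀ ∈ K := (hblow S₀ π hsurj).mp hbK
  refine perfK_of_reduced hK (fun π' hπ' => (hblow S₀ π' hπ').mpr hS₀) fun i j hij => ?_
  by_contra hne
  have h1 := twG_lift (π := π) hne hij (hπa i) (hπa j)
  have h2 := (twG_iso hSb (a i) (a j)).mpr h1
  exact hne (hainj i j h2)

/-! ### Finitely many twin classes -/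

omit [∀ n, IsEmpty (L.Functions n)] in
/-- Index type of the invariants. -/
abbrev IdxG (L : FirstOrder.Language.{0, 0}) : Type :=
  ((k : ℕ) × (L.Relations k × (Fin k → ℕ))) ⊕ ((ℕ × ℕ) ⊕ ℕ)

/-- The invariants of a structure with representatives of the twin classes. -/
def PIG (w : (n : ℕ) × (Fin n → ℕ)) (S : L.Structure ℕ) : IdxG L → Prop
  | Sum.inl ⟨_, (R, v)⟩ => ∃ h : ∀ i, v i < w.1, S.RelMap R (fun i => w.2 ⟨v i, h i⟩)
  | Sum.inr (Sum.inl (i, m)) => ∃ h : i < w.1, (m : ℕ∞) ≤ {b | TwG S b (w.2 ⟨i, h⟩)}.encard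
  | Sum.inr (Sum.inr i) => i < w.1

/-- `w` lists representatives of the twin classes. -/
def RepsG (w : (n : ℕ) × (Fin n → ℕ)) (S : L.Structure ℕ) : Prop :=
  (∀ i j, TwG S (w.2 i) (w.2 j) → i = j) ∧ ∀ b, ∃ i, TwG S b (w.2 i)

omit [∀ n, IsEmpty (L.Functions n)] in
theorem piG_iso {S S' : L.Structure ℕ} {e : ℕ ≃ ℕ} (h : RelIso S S' e)
    (w : (n : ℕ) × (Fin n → ℕ)) (i : IdxG L) : PIG ⟨w.1, e ∘ w.2⟩ S' i ↔ PIG w S i := by
  rcases i with ⟨k, R, v⟩ | ⟨i, m⟩ | i
  · simp only [PIG]
    exact exists_congr fun hv => (h k R _).symm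
  · simp only [PIG, Function.comp]
    refine exists_congr fun h' => ?_
    have : {b | TwG S' b (e (w.2 ⟨i, h'⟩))} = e '' {b | TwG S b (w.2 ⟨i, h'⟩)} := by
      ext v
      obtain ⟨v, rfl⟩ := e.surjective v
      simp only [mem_ofPred_eq, twG_iso h, mem_image, EmbeddingLike.apply_eq_iff_eq,
        exists_eq_right]
    rw [this, e.injective.encard_image]
  · exact Iff.rfl

omit [∀ n, IsEmpty (L.Functions n)] in
theorem iso_of_piG {S S' : L.Structure ℕ} {n : ℕ} {w w' : Fin n → ℕ} (hw : RepsG ⟨n, w⟩ S)
    (hw' : RepsG ⟨n, w'⟩ S') (hpi : ∀ i, PIG ⟨n, w⟩ S i ↔ PIG ⟨n, w'⟩ S' i) : Iso S S' := by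
  choose ι hι using hw.2
  choose ι' hι' using hw'.2
  have hιtw : ∀ b i, ι b = i ↔ TwG S b (w i) := by
    intro b i
    constructor
    · rintro rfl; exact hι b
    · intro h; exact hw.1 _ _ ((hι b).symm.trans h)
  have hιtw' : ∀ b i, ι' b = i ↔ TwG S' b (w' i) := by
    intro b i
    constructor
    · rintro rfl; exact hι' b
    · intro h; exact hw'.1 _ _ ((hι' b).symm.trans h)
  have key : ∀ i : Fin n, Nonempty ({b | ι b = i} ≃ {b | ι' b = i}) := by
    intro i
    apply nonempty_equiv_of_encard_eq'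
    simp only [hιtw, hιtw']
    apply enat_eq_of_forall
    intro m
    have := hpi (Sum.inr (Sum.inl (i.1, m)))
    simpa only [PIG, i.2, exists_true_left] using this
  let e : ℕ ≃ ℕ := Equiv.ofFiberEquiv (f := ι) (g := ι') fun i => (key i).some
  have he : ∀ b, ι' (e b) = ι b := fun b => Equiv.ofFiberEquiv_map _ b
  refine ⟨e, fun k R v => ?_⟩
  have hrel : S.RelMap R (fun i => w (ι (v i))) ↔ S'.RelMap R (fun i => w' (ι (v i))) := by
    have := hpi (Sum.inl ⟨k, (R, fun i => (ι (v i)).1)⟩)
    simpa only [PIG, Fin.is_lt, implies_true, exists_true_left, Fin.eta] using this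
  have htw : ∀ b b', TwG S b b' ↔ ι b = ι b' := by
    intro b b'
    rw [hιtw]
    exact ⟨fun h => h.trans (hι b'), fun h => h.trans (hι b').symm⟩
  have htw' : ∀ b b', TwG S' b b' ↔ ι' b = ι' b' := by
    intro b b'
    rw [hιtw']
    exact ⟨fun h => h.trans (hι' b'), fun h => h.trans (hι' b').symm⟩
  by_cases hc : ∀ i j, ι (v i) = ι (v j) → v i = v j
  · have h1 : S.RelMap R v ↔ S.RelMap R (fun i => w (ι (v i))) := by
      refine relMap_iff_of_twins (fun i => hι _) (fun i j hij => ?_) (fun i j hij => ?_)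
      · rw [hw.1 _ _ hij]
      · exact hc i j ((htw _ _).mp hij)
    have h2 : S'.RelMap R (e ∘ v) ↔ S'.RelMap R (fun i => w' (ι (v i))) := by
      refine relMap_iff_of_twins (fun i => ?_) (fun i j hij => ?_) (fun i j hij => ?_)
      · rw [← hιtw']; exact he _
      · rw [hw'.1 _ _ hij]
      · have h3 := (htw' _ _).mp hij
        change ι' (e (v i)) = ι' (e (v j)) at h3
        rw [he, he] at h3
        show e (v i) = e (v j)
        rw [hc i j h3]
    rw [h1, h2]
    exact hrel
  · push Not at hc
    obtain ⟨i, j, hij, hne⟩ := hc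
    constructor
    · intro h
      exact absurd (((htw _ _).mpr hij).eq_of_mem h ⟨i, rfl⟩ ⟨j, rfl⟩) hne
    · intro h
      have h3 : TwG S' (e (v i)) (e (v j)) := by rw [htw', he, he, hij]
      exact absurd (e.injective (h3.eq_of_mem h ⟨i, rfl⟩ ⟨j, rfl⟩)) hne

section final

variable [∀ n, Countable (L.Relations n)]

theorem mS_twG (a b : ℕ) : MeasurableSet {c : Code L | TwG (toStr c) a b} := by
  have h0 : {c : Code L | TwG (toStr c) a b} = {c | a = b} ∪
      ((⋂ n : ℕ, ⋂ R : L.Relations n, ⋂ v : Fin n → ℕ, {c | (toStr c).RelMap R v →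
        ¬ (a ∈ range v ∧ b ∈ range v)}) ∩
      (⋂ n : ℕ, ⋂ R : L.Relations n, ⋂ v : Fin n → ℕ, {c | (toStr c).RelMap R v ↔
        (toStr c).RelMap R (sw a b ∘ v)})) := by
    ext c
    simp only [TwG, mem_ofPred_eq, mem_union, mem_inter_iff, mem_iInter]
  rw [h0]
  refine (MeasurableSet.const _).union (MeasurableSet.inter ?_ ?_)
  · exact MeasurableSet.iInter fun n => MeasurableSet.iInter fun R => MeasurableSet.iInter fun v =>
      FormW.mS_imp (measurableSet_relMap R v) (MeasurableSet.const _)
  · exact MeasurableSet.iInter fun n => MeasurableSet.iInter fun R => MeasurableSet.iInter fun v =>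
      FormW.mS_iff (measurableSet_relMap R v) (measurableSet_relMap R _)

omit [∀ n, IsEmpty (L.Functions n)] [∀ n, Countable (L.Relations n)] in
theorem mSG_ex {ι : Sort*} [Countable ι] {P : ι → Code L → Prop}
    (h : ∀ a, MeasurableSet {c | P a c}) : MeasurableSet {c | ∃ a, P a c} := by
  have : {c | ∃ a, P a c} = ⋃ a, {c | P a c} := by ext c; simp
  rw [this]
  exact MeasurableSet.iUnion h

omit [∀ n, IsEmpty (L.Functions n)] [∀ n, Countable (L.Relations n)] in
theorem mSG_all {ι : Sort*} [Countable ι] {P : ι → Code L → Prop}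
    (h : ∀ a, MeasurableSet {c | P a c}) : MeasurableSet {c | ∀ a, P a c} := by
  have : {c | ∀ a, P a c} = ⋂ a, {c | P a c} := by ext c; simp
  rw [this]
  exact MeasurableSet.iInter h

theorem mSG_pi (w : (n : ℕ) × (Fin n → ℕ)) (i : IdxG L) :
    MeasurableSet {c : Code L | PIG w (toStr c) i} := by
  rcases i with ⟨k, R, v⟩ | ⟨i, m⟩ | i
  · exact mSG_ex fun h : ∀ i, v i < w.1 => measurableSet_relMap R _
  · exact mSG_ex fun h : i < w.1 => FormW.measurableSet_le_encard
      (A := fun c : Code L => {b | TwG (toStr c) b (w.2 ⟨i, h⟩)})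
      (fun u => mS_twG u (w.2 ⟨i, h⟩)) m
  · exact MeasurableSet.const _

theorem mSG_reps (w : (n : ℕ) × (Fin n → ℕ)) :
    MeasurableSet {c : Code L | RepsG w (toStr c)} := by
  refine MeasurableSet.inter (mSG_all fun i => mSG_all fun j =>
    FormW.mS_imp (mS_twG (w.2 i) (w.2 j)) (MeasurableSet.const _)) (mSG_all fun b => ?_)
  exact mSG_ex fun i => mS_twG b (w.2 i)

/-- The dichotomy for Borel classes closed under free duplication of points and its inverse. -/
theorem dichotomy_of_blow {K : Set (L.Structure ℕ)}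
    (hKm : MeasurableSet {c : Code L | toStr c ∈ K})
    (hK : ∀ S S' : L.Structure ℕ, Iso S S' → S ∈ K → S' ∈ K)
    (hblow : ∀ (S : L.Structure ℕ) (π : ℕ → ℕ), Function.Surjective π →
      (blow S π ∈ K ↔ S ∈ K)) : CtblK K ∨ PerfK K := by
  classical
  by_cases hperf : PerfK K
  · exact Or.inr hperf
  have hreps : ∀ S ∈ K, ∃ w : (n : ℕ) × (Fin n → ℕ), RepsG w S := by
    intro S hS
    let st : Setoid ℕ :=
      { r := fun a b => TwG S a b
        iseqv := ⟨fun a => TwG.refl _, fun h => h.symm, fun h h' => h.trans h'⟩ }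
    by_cases hfin : Finite (Quotient st)
    · let ε := (Finite.equivFin (Quotient st)).symm
      refine ⟨⟨Nat.card (Quotient st), fun i => (ε i).out⟩, fun i j hij => ?_, fun b => ?_⟩
      · have h1 : (ε i).out ≈ (ε j).out := hij
        have h2 := Quotient.sound h1
        rw [Quotient.out_eq, Quotient.out_eq] at h2
        exact ε.injective h2
      · obtain ⟨i, hi⟩ := ε.surjective (Quotient.mk st b)
        refine ⟨i, ?_⟩
        have h1 : b ≈ (ε i).out := by
          apply Quotient.exact
          rw [Quotient.out_eq, hi]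
        exact h1
    · exfalso
      apply hperf
      have hinf : Infinite (Quotient st) := not_finite_iff_infinite.mp hfin
      obtain ⟨iQ⟩ := nonempty_denumerable (Quotient st)
      let ε : ℕ ≃ Quotient st := (Denumerable.eqv (Quotient st)).symm
      refine perfK_of_infinite_twins hK hblow hS (fun i => (ε i).out) (fun i j hij => ?_)
        fun b => ?_
      · have h1 : (ε i).out ≈ (ε j).out := hij
        have h2 := Quotient.sound h1
        rw [Quotient.out_eq, Quotient.out_eq] at h2
        exact ε.injective h2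
      · obtain ⟨i, hi⟩ := ε.surjective (Quotient.mk st b)
        refine ⟨i, ?_⟩
        have h1 : b ≈ (ε i).out := by
          apply Quotient.exact
          rw [Quotient.out_eq, hi]
        exact h1
  refine dichotomy_of_reals (J := (n : ℕ) × (Fin n → ℕ)) (Y := IdxG L → Bool)
    (B := fun w => {c | toStr c ∈ K} ∩ {c | RepsG w (toStr c)})
    (Z := fun w c i => decide (PIG w (toStr c) i)) ?_ ?_ ?_ ?_ ?_ ?_
  · exact fun w => hKm.inter (mSG_reps w)
  · exact fun w c hc => hc.1
  · intro c hc
    obtain ⟨w, hw⟩ := hreps _ hc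
    exact ⟨w, hc, hw⟩
  · intro w
    refine measurable_pi_iff.mpr fun i => measurable_to_bool ?_
    have : (fun c : Code L => decide (PIG w (toStr c) i)) ⁻¹' {true} =
        {c | PIG w (toStr c) i} := by
      ext c; simp
    rw [this]
    exact mSG_pi w i
  · rintro w k c hc d hd ⟨e, he⟩
    refine ⟨⟨w.1, e ∘ w.2⟩, ?_⟩
    funext i
    exact decide_eq_decide.mpr (piG_iso he w i).symm
  · rintro ⟨n, w⟩ ⟨n', w'⟩ c ⟨hc, hcw⟩ d ⟨hd, hdw⟩ hcd
    have hpi : ∀ i, PIG ⟨n, w⟩ (toStr c) i ↔ PIG ⟨n', w'⟩ (toStr d) i := fun i =>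
      decide_eq_decide.mp (congrFun hcd i)
    have hn : n = n' := by
      have : ∀ i, i < n ↔ i < n' := fun i => hpi (Sum.inr (Sum.inr i))
      rcases Nat.lt_trichotomy n n' with h | h | h
      · exact absurd ((this n).mpr h) (lt_irrefl _)
      · exact h
      · exact absurd ((this n').mp h) (lt_irrefl _)
    subst hn
    exact iso_of_piG hcw hdw hpi

theorem FormG.mS_sat (φ : FormG L) :
    ∀ s : ℕ → ℕ, MeasurableSet {c : Code L | φ.Sat (toStr c) s} := by
  induction φ with
  | rel R v => intro s; exact measurableSet_relMap R _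
  | eq i j => intro s; exact MeasurableSet.const _
  | conj f ih => intro s; exact mSG_all fun k => ih k s
  | disj f ih => intro s; exact mSG_ex fun k => ih k s
  | ex i φ ih => intro s; exact mSG_ex fun a => ih _
  | gneg R v φ ih => intro s; exact (measurableSet_relMap R _).inter (ih s).compl
  | uneg i φ ih => intro s; exact (ih s).compl

/-- The dichotomy for guarded negation sentences of `L_{omega_1, omega}`. -/
theorem FormG.dichotomy (φ : FormG L) (hφ : φ.IsSentence) {K : Set (L.Structure ℕ)}
    (hK : ∀ S, S ∈ K ↔ φ.Holds S) : CtblK K ∨ PerfK K := by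
  have hcongr : ∀ (S : L.Structure ℕ) (s s' : ℕ → ℕ), φ.Sat S s ↔ φ.Sat S s' := by
    intro S s s'
    refine FormG.sat_congr φ s s' fun k hk => ?_
    rw [hφ.2] at hk
    exact absurd hk (notMem_empty k)
  refine dichotomy_of_blow ?_ ?_ ?_
  · have : {c : Code L | toStr c ∈ K} = {c | φ.Sat (toStr c) fun _ => 0} := by
      ext c
      simp only [hK, mem_ofPred_eq]
      exact ⟨fun h => h _, fun h s => (hcongr _ _ _).mp h⟩
    rw [this]
    exact FormG.mS_sat φ _
  · rintro S S' ⟨e, he⟩ hS
    rw [hK] at hS ⊢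
    exact FormG.holds_iso he hS
  · intro S π hπ
    rw [hK, hK]
    exact FormG.holds_blow S π hπ hφ

end final

end Pool.Agent.Helper6
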