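import Pool.Agent.Helper6.GNMain
import Pool.Agent.Helper6.StructFO

/-!
# The perfect set form of Vaught's conjecture for guarded negation sentences

For every countable relational language, every first-order theory preserved under free duplication
of points and its inverse, and every sentence `φ` of the guarded negation fragment (with equality)
of `L_{omega_1, omega}`, the models of the theory and `φ` on `ℕ` fall into countably many
isomorphism types or there are perfectly many of them.
-/

set_option autoImplicit false

namespace Pool.Agent.Helper6.GNResult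

open Pool.Agent.Helper6 Pool.Agent.Helper6.Str

/-- `S'` arises from `S` by replacing every point `b` by the copies in the fibre of `π` over `b`:
a tuple is in a relation of `S'` iff its image is in that relation of `S` and no two different
copies of one point occur in the tuple. -/
def FreeCopies {L : FirstOrder.Language.{0, 0}} (S S' : L.Structure ℕ) (π : ℕ → ℕ) : Prop :=
  ∀ (n : ℕ) (R : L.Relations n) (v : Fin n → ℕ),
    S'.RelMap R v ↔ (S.RelMap R (fun k => π (v k)) ∧ ∀ i j, π (v i) = π (v j) → v i = v j)

/-- **Vaught's conjecture (perfect set form) for guarded negation sentences of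
`L_{omega_1, omega}` and for theories preserved under free duplication of points.** -/
theorem result (L : FirstOrder.Language.{0, 0}) (hc : Countable L.Symbols)
    (hrel : ∀ n, IsEmpty (L.Functions n)) (T : L.Theory)
    (hT : ∀ (S S' : L.Structure ℕ) (π : ℕ → ℕ), Function.Surjective π → FreeCopies S S' π →
      (@FirstOrder.Language.Theory.Model L ℕ S' T ↔ @FirstOrder.Language.Theory.Model L ℕ S T))
    (φ : FormG L) (hφ : φ.IsSentence) :
    (∃ g : ℕ → L.Structure ℕ, ∀ S : L.Structure ℕ,
        @FirstOrder.Language.Theory.Model L ℕ S T → φ.Holds S →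
          ∃ n : ℕ, Nonempty (@FirstOrder.Language.Equiv L ℕ ℕ S (g n))) ∨
    (∃ f : (ℕ → Bool) → L.Structure ℕ,
        (∀ x : ℕ → Bool, @FirstOrder.Language.Theory.Model L ℕ (f x) T ∧ φ.Holds (f x)) ∧
        (∀ x y : ℕ → Bool,
            Nonempty (@FirstOrder.Language.Equiv L ℕ ℕ (f x) (f y)) → x = y) ∧
        (∀ (n : ℕ) (R : L.Relations n) (a : Fin n → ℕ),
            IsClopen {x : ℕ → Bool | @FirstOrder.Language.Structure.RelMap L ℕ (f x) n R a})) := by
  have := hrel
  have hcr : ∀ n, Countable (L.Relations n) := countable_relations hc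
  let K : Set (L.Structure ℕ) :=
    {S | @FirstOrder.Language.Theory.Model L ℕ S T ∧ φ.Holds S}
  have hcongr : ∀ (S : L.Structure ℕ) (s s' : ℕ → ℕ), φ.Sat S s ↔ φ.Sat S s' := by
    intro S s s'
    refine FormG.sat_congr φ s s' fun k hk => ?_
    rw [hφ.2] at hk
    exact absurd hk (Set.notMem_empty k)
  have hm : MeasurableSet {c : Code L | toStr c ∈ K} := by
    have h1 : MeasurableSet {c : Code L | φ.Holds (toStr c)} := by
      have : {c : Code L | φ.Holds (toStr c)} = {c | φ.Sat (toStr c) fun _ => 0} := by
        ext c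
        exact ⟨fun h => h _, fun h s => (hcongr _ _ _).mp h⟩
      rw [this]
      exact FormG.mS_sat φ _
    exact (measurableSet_model hc T).inter h1
  have hiso : ∀ S S' : L.Structure ℕ, Iso S S' → S ∈ K → S' ∈ K := by
    rintro S S' hS ⟨h1, h2⟩
    obtain ⟨e, he⟩ := id hS
    exact ⟨model_iso hS h1, FormG.holds_iso he h2⟩
  have hbl : ∀ (S : L.Structure ℕ) (π : ℕ → ℕ), Function.Surjective π →
      (blow S π ∈ K ↔ S ∈ K) := by
    intro S π hπ
    have h1 := hT S (blow S π) π hπ fun n R v => Iff.rfl
    have h2 := FormG.holds_blow S π hπ hφ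
    exact and_congr h1 h2
  rcases dichotomy_of_blow hm hiso hbl with ⟨g, hg⟩ | ⟨f, hf1, hf2, hf3⟩
  · left
    refine ⟨g, fun S h1 h2 => ?_⟩
    obtain ⟨n, hn⟩ := hg S ⟨h1, h2⟩
    exact ⟨n, (nonempty_equiv_iff S (g n)).mpr hn⟩
  · right
    exact ⟨f, hf1, fun x y h => hf2 x y ((nonempty_equiv_iff _ _).mp h), hf3⟩

end Pool.Agent.Helper6.GNResult
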