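import Pool.Agent.Helper6.StructTools
import Mathlib.SetTheory.Cardinal.Regular

/-!
# Back and forth relations of ordinal level between relational structures

`BF S S' g P` says that the set of pairs `P` is a back and forth approximation of level `g`
between the structures `S` and `S'`.
-/

set_option autoImplicit false

namespace Pool.Agent.Helper6.HM

open Set Str

universe u v w

variable {L : FirstOrder.Language.{0, 0}} {M : Type u} {N : Type v} {O : Type w}

/-- The set of pairs `P` is the graph of a finite or infinite partial isomorphism. -/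
def AtEq (S : L.Structure M) (S' : L.Structure N) (P : Set (M × N)) : Prop :=
  (∀ p ∈ P, ∀ q ∈ P, (p.1 = q.1 ↔ p.2 = q.2)) ∧
  ∀ (n : ℕ) (R : L.Relations n) (v : Fin n → M × N), (∀ i, v i ∈ P) →
    (S.RelMap R (fun i => (v i).1) ↔ S'.RelMap R (fun i => (v i).2))

/-- The back and forth relation of level `g` between two structures, for a set of pairs. -/
def BF (S : L.Structure M) (S' : L.Structure N) (g : Ordinal.{0}) (P : Set (M × N)) : Prop :=
  AtEq S S' P ∧ ∀ b, (h : b < g) → (∀ x, ∃ y, BF S S' b (insert (x, y) P)) ∧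
    (∀ y, ∃ x, BF S S' b (insert (x, y) P))
termination_by g

theorem BF_iff (S : L.Structure M) (S' : L.Structure N) (g : Ordinal.{0}) (P : Set (M × N)) :
    BF S S' g P ↔ AtEq S S' P ∧ ∀ b < g, (∀ x, ∃ y, BF S S' b (insert (x, y) P)) ∧
      (∀ y, ∃ x, BF S S' b (insert (x, y) P)) := by
  rw [BF]

variable {S : L.Structure M} {S' : L.Structure N} {S'' : L.Structure O}

theorem AtEq.mono {P Q : Set (M × N)} (h : AtEq S S' P) (hQ : Q ⊆ P) : AtEq S S' Q :=
  ⟨fun p hp q hq => h.1 p (hQ hp) q (hQ hq), fun n R v hv => h.2 n R v fun i => hQ (hv i)⟩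

theorem AtEq.swap {P : Set (M × N)} (h : AtEq S S' P) : AtEq S' S (Prod.swap '' P) := by
  refine ⟨?_, ?_⟩
  · rintro _ ⟨p, hp, rfl⟩ _ ⟨q, hq, rfl⟩
    exact (h.1 p hp q hq).symm
  · intro n R v hv
    have := h.2 n R (fun i => (v i).swap) (fun i => by
      obtain ⟨p, hp, hpv⟩ := hv i
      rw [← hpv]
      simpa using hp)
    exact this.symm

/-- Composition of relations. -/
def comp (P : Set (M × N)) (Q : Set (N × O)) : Set (M × O) :=
  {p | ∃ y, (p.1, y) ∈ P ∧ (y, p.2) ∈ Q}

theorem AtEq.comp {P : Set (M × N)} {Q : Set (N × O)} (h : AtEq S S' P) (h' : AtEq S' S'' Q) :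
    AtEq S S'' (comp P Q) := by
  refine ⟨?_, ?_⟩
  · rintro p ⟨y, hy, hy'⟩ q ⟨z, hz, hz'⟩
    exact (h.1 _ hy _ hz).trans (h'.1 _ hy' _ hz')
  · intro n R v hv
    choose y hy hy' using hv
    exact (h.2 n R (fun i => ((v i).1, y i)) hy).trans (h'.2 n R (fun i => (y i, (v i).2)) hy')

theorem BF.atEq {g : Ordinal.{0}} {P : Set (M × N)} (h : BF S S' g P) : AtEq S S' P :=
  ((BF_iff S S' g P).mp h).1

theorem BF.forth {g b : Ordinal.{0}} {P : Set (M × N)} (h : BF S S' g P) (hb : b < g) (x : M) :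
    ∃ y, BF S S' b (insert (x, y) P) :=
  (((BF_iff S S' g P).mp h).2 b hb).1 x

theorem BF.back {g b : Ordinal.{0}} {P : Set (M × N)} (h : BF S S' g P) (hb : b < g) (y : N) :
    ∃ x, BF S S' b (insert (x, y) P) :=
  (((BF_iff S S' g P).mp h).2 b hb).2 y

theorem BF.level {g g' : Ordinal.{0}} {P : Set (M × N)} (h : BF S S' g P) (hg : g' ≤ g) :
    BF S S' g' P := by
  rw [BF_iff] at h ⊢
  exact ⟨h.1, fun b hb => h.2 b (lt_of_lt_of_le hb hg)⟩

theorem BF.mono {g : Ordinal.{0}} {P Q : Set (M × N)} (h : BF S S' g P) (hQ : Q ⊆ P) :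
    BF S S' g Q := by
  induction g using WellFoundedLT.induction generalizing P Q with
  | ind g ih =>
    rw [BF_iff] at h ⊢
    refine ⟨h.1.mono hQ, fun b hb => ⟨fun x => ?_, fun y => ?_⟩⟩
    · obtain ⟨y, hy⟩ := (h.2 b hb).1 x
      exact ⟨y, ih b hb hy (insert_subset_insert hQ)⟩
    · obtain ⟨x, hx⟩ := (h.2 b hb).2 y
      exact ⟨x, ih b hb hx (insert_subset_insert hQ)⟩

theorem BF.symm {g : Ordinal.{0}} {P : Set (M × N)} (h : BF S S' g P) :
    BF S' S g (Prod.swap '' P) := by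
  induction g using WellFoundedLT.induction generalizing P with
  | ind g ih =>
    rw [BF_iff] at h ⊢
    refine ⟨h.1.swap, fun b hb => ⟨fun x => ?_, fun y => ?_⟩⟩
    · obtain ⟨y, hy⟩ := (h.2 b hb).2 x
      refine ⟨y, ?_⟩
      have := ih b hb hy
      rwa [image_insert_eq] at this
    · obtain ⟨x, hx⟩ := (h.2 b hb).1 y
      refine ⟨x, ?_⟩
      have := ih b hb hx
      rwa [image_insert_eq] at this

theorem BF.comp {g : Ordinal.{0}} {P : Set (M × N)} {Q : Set (N × O)} (h : BF S S' g P)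
    (h' : BF S' S'' g Q) : BF S S'' g (comp P Q) := by
  induction g using WellFoundedLT.induction generalizing P Q with
  | ind g ih =>
    rw [BF_iff]
    have key : ∀ (x : M) (y : N) (z : O), insert (x, z) (HM.comp P Q) ⊆
        HM.comp (insert (x, y) P) (insert (y, z) Q) := by
      intro x y z p hp
      rcases hp with rfl | ⟨t, ht, ht'⟩
      · exact ⟨y, mem_insert _ _, mem_insert _ _⟩
      · exact ⟨t, mem_insert_of_mem _ ht, mem_insert_of_mem _ ht'⟩
    refine ⟨h.atEq.comp h'.atEq, fun b hb => ⟨fun x => ?_, fun z => ?_⟩⟩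
    · obtain ⟨y, hy⟩ := h.forth hb x
      obtain ⟨z, hz⟩ := h'.forth hb y
      exact ⟨z, (ih b hb hy hz).mono (key x y z)⟩
    · obtain ⟨y, hy⟩ := h'.back hb z
      obtain ⟨x, hx⟩ := h.back hb y
      exact ⟨x, (ih b hb hx hy).mono (key x y z)⟩

theorem AtEq.of_iso {e : M ≃ N}
    (he : ∀ (n : ℕ) (R : L.Relations n) (v : Fin n → M),
      S.RelMap R v ↔ S'.RelMap R (fun i => e (v i))) {P : Set (M × N)}
    (hP : ∀ p ∈ P, e p.1 = p.2) : AtEq S S' P := by
  refine ⟨fun p hp q hq => ?_, fun n R v hv => ?_⟩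
  · rw [← hP p hp, ← hP q hq, e.apply_eq_iff_eq]
  · rw [he n R]
    have : (fun i => e (v i).1) = fun i => (v i).2 := by
      funext i
      exact hP _ (hv i)
    rw [this]

theorem BF.of_iso {e : M ≃ N}
    (he : ∀ (n : ℕ) (R : L.Relations n) (v : Fin n → M),
      S.RelMap R v ↔ S'.RelMap R (fun i => e (v i))) (g : Ordinal.{0}) {P : Set (M × N)}
    (hP : ∀ p ∈ P, e p.1 = p.2) : BF S S' g P := by
  induction g using WellFoundedLT.induction generalizing P with
  | ind g ih =>
    rw [BF_iff]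
    refine ⟨AtEq.of_iso he hP, fun b hb => ⟨fun x => ⟨e x, ih b hb ?_⟩,
      fun y => ⟨e.symm y, ih b hb ?_⟩⟩⟩
    · rintro p (rfl | hp)
      · rfl
      · exact hP p hp
    · rintro p (rfl | hp)
      · simp
      · exact hP p hp

theorem BF.refl (S : L.Structure M) (g : Ordinal.{0}) {P : Set (M × M)}
    (hP : ∀ p ∈ P, p.1 = p.2) : BF S S g P :=
  BF.of_iso (e := Equiv.refl M) (fun _ _ _ => Iff.rfl) g (by simpa using hP)

end Pool.Agent.Helper6.HM
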