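import Pool.Agent.Helper6.StructTools
import Mathlib.MeasureTheory.Constructions.Polish.Basic

/-!
# The abstract branch lemma

If every uncountable subset of an index set can be split by two disjoint analytic sets of a given
family then there is a Cantor set of points separated by countably many members of the family.
-/

set_option autoImplicit false

namespace Pool.Agent.Helper6.HM

open Set Filter Topology MeasureTheory

section
variable {X : Type*} {W : Type*}

/-- A state of the construction. -/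
structure BSt (X : Type*) (W : Type*) where
  n : ℕ
  V : Set W
  f : ℕ → ((ℕ → ℕ) → X)
  y : ℕ → (ℕ → ℕ)

/-- Validity of a state. -/
def BSt.Ok [TopologicalSpace X] (s : W → X) (σ : BSt X W) : Prop :=
  ¬ σ.V.Countable ∧ (∀ i < σ.n, Continuous (σ.f i)) ∧
    ∀ i < σ.n, ∀ w ∈ σ.V, ∃ z : ℕ → ℕ, (∀ j < σ.n, z j = σ.y i j) ∧ σ.f i z = s w

theorem exists_fiber_uncountable {A B : Type*} [Countable B] {V : Set A} (hV : ¬ V.Countable)
    (c : A → B) : ∃ b, ¬ (V ∩ c ⁻¹' {b}).Countable := by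
  by_contra hcon
  push Not at hcon
  apply hV
  refine (countable_iUnion hcon).mono fun a ha => ?_
  exact mem_iUnion.mpr ⟨c a, ha, rfl⟩

theorem BSt.step [TopologicalSpace X] {s : W → X} {σ : BSt X W} (hσ : σ.Ok s) {D : Set X}
    (hD : AnalyticSet D) (hVD : ¬ (σ.V ∩ s ⁻¹' D).Countable) :
    ∃ σ' : BSt X W, σ'.Ok s ∧ σ'.n = σ.n + 1 ∧ (∀ i < σ.n, σ'.f i = σ.f i) ∧
      (∀ i < σ.n, ∀ j < σ.n, σ'.y i j = σ.y i j) ∧ range (σ'.f σ.n) = D := by
  classical
  obtain ⟨hV, hf, hy⟩ := hσ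
  have hDne : D.Nonempty := by
    by_contra hcon
    rw [not_nonempty_iff_eq_empty] at hcon
    apply hVD
    rw [hcon]
    simp
  obtain ⟨f0, hf0, hf0D⟩ : ∃ f : (ℕ → ℕ) → X, Continuous f ∧ range f = D := by
    rw [AnalyticSet] at hD
    exact hD.resolve_left hDne.ne_empty
  have hwit : ∀ w ∈ σ.V ∩ s ⁻¹' D, ∃ z : ℕ → ℕ → ℕ, (∀ i < σ.n, ∀ j < σ.n, z i j = σ.y i j) ∧
      (∀ i < σ.n, σ.f i (z i) = s w) ∧ f0 (z σ.n) = s w := by
    rintro w ⟨hw, hwD⟩
    have h1 : ∀ i, ∃ z : ℕ → ℕ, i < σ.n → (∀ j < σ.n, z j = σ.y i j) ∧ σ.f i z = s w := by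
      intro i
      by_cases hi : i < σ.n
      · obtain ⟨z, hz, hz'⟩ := hy i hi w hw
        exact ⟨z, fun _ => ⟨hz, hz'⟩⟩
      · exact ⟨fun _ => 0, fun h => absurd h hi⟩
    choose z hz using h1
    have h2 : s w ∈ range f0 := by rw [hf0D]; exact hwD
    obtain ⟨z0, hz0⟩ := h2
    refine ⟨Function.update z σ.n z0, fun i hi j hj => ?_, fun i hi => ?_, ?_⟩
    · rw [Function.update_of_ne (ne_of_lt hi)]
      exact (hz i hi).1 j hj
    · rw [Function.update_of_ne (ne_of_lt hi)]
      exact (hz i hi).2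
    · rw [Function.update_self]
      exact hz0
  choose! z hz1 hz2 hz3 using hwit
  obtain ⟨c, hc⟩ := exists_fiber_uncountable hVD
    (fun w => (fun (i : Fin (σ.n + 1)) (j : Fin (σ.n + 1)) => z w i j :
      Fin (σ.n + 1) → Fin (σ.n + 1) → ℕ))
  have hne : ((σ.V ∩ s ⁻¹' D) ∩ (fun w => (fun (i : Fin (σ.n + 1)) (j : Fin (σ.n + 1)) => z w i j :
      Fin (σ.n + 1) → Fin (σ.n + 1) → ℕ)) ⁻¹' {c}).Nonempty := by
    by_contra hcon
    rw [not_nonempty_iff_eq_empty] at hcon
    rw [hcon] at hc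
    exact hc countable_empty
  obtain ⟨w0, hw0, hw0c⟩ := hne
  have hagree : ∀ w ∈ ((σ.V ∩ s ⁻¹' D) ∩ (fun w => (fun (i : Fin (σ.n + 1))
      (j : Fin (σ.n + 1)) => z w i j : Fin (σ.n + 1) → Fin (σ.n + 1) → ℕ)) ⁻¹' {c}),
      ∀ i < σ.n + 1, ∀ j < σ.n + 1, z w i j = z w0 i j := by
    rintro w ⟨-, hw⟩ i hi j hj
    have h1 := congrFun (congrFun (show _ = c from hw) ⟨i, hi⟩) ⟨j, hj⟩
    have h2 := congrFun (congrFun (show _ = c from hw0c) ⟨i, hi⟩) ⟨j, hj⟩
    exact h1.trans h2.symm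
  refine ⟨⟨σ.n + 1, _, Function.update σ.f σ.n f0, z w0⟩, ⟨hc, ?_, ?_⟩, rfl, ?_, ?_, ?_⟩
  · intro i hi
    rcases Nat.lt_succ_iff_lt_or_eq.mp hi with h | rfl
    · simpa [Function.update_of_ne (ne_of_lt h)] using hf i h
    · simpa using hf0
  · intro i hi w hw
    refine ⟨z w i, fun j hj => hagree w hw i hi j hj, ?_⟩
    rcases Nat.lt_succ_iff_lt_or_eq.mp hi with h | rfl
    · simpa [Function.update_of_ne (ne_of_lt h)] using hz2 w hw.1 i h
    · simpa using hz3 w hw.1
  · intro i hi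
    simp [Function.update_of_ne (ne_of_lt hi)]
  · intro i hi j hj
    exact hz1 w0 hw0 i hi j hj
  · simpa using hf0D

/-- Initial segments of a branch, last digit first. -/
def pre (x : ℕ → Bool) : ℕ → List Bool
  | 0 => []
  | n + 1 => x n :: pre x n

theorem pre_congr {x y : ℕ → Bool} {n : ℕ} (h : ∀ i < n, x i = y i) : pre x n = pre y n := by
  induction n with
  | zero => rfl
  | succ n ih =>
    rw [pre, pre, h n (Nat.lt_succ_self n), ih fun i hi => h i (Nat.lt_succ_of_lt hi)]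

theorem branch_lemma [TopologicalSpace X] [T2Space X] (s : W → X)
    (𝒞 : Set (Set X)) (hA : ∀ C ∈ 𝒞, AnalyticSet C)
    (hW : ¬ (univ : Set W).Countable)
    (H : ∀ V : Set W, ¬ V.Countable → ∃ C ∈ 𝒞, ∃ C' ∈ 𝒞, Disjoint C C' ∧
      ¬ (V ∩ s ⁻¹' C).Countable ∧ ¬ (V ∩ s ⁻¹' C').Countable) :
    ∃ (D : Set (Set X)) (g : (ℕ → Bool) → X), D.Countable ∧ D ⊆ 𝒞 ∧
      ∀ x y, x ≠ y → ∃ C ∈ D, ∃ C' ∈ D, Disjoint C C' ∧ g x ∈ C ∧ g y ∈ C' := by
  classical
  -- splitting
  have Hs : ∀ σ : BSt X W, ∃ c : Bool → Set X, σ.Ok s → (∀ b, c b ∈ 𝒞) ∧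
      (∀ b b', b ≠ b' → Disjoint (c b) (c b')) ∧ ∀ b, ¬ (σ.V ∩ s ⁻¹' c b).Countable := by
    intro σ
    by_cases hσ : σ.Ok s
    · obtain ⟨C, hC, C', hC', hd, h1, h2⟩ := H σ.V hσ.1
      refine ⟨fun b => if b then C else C', fun _ => ⟨fun b => ?_, fun b b' hb => ?_, fun b => ?_⟩⟩
      · cases b <;> simp [hC, hC']
      · cases b <;> cases b' <;> simp_all [hd.symm]
      · cases b <;> simp [h1, h2]
    · exact ⟨fun _ => ∅, fun h => absurd h hσ⟩
  choose spl hspl using Hs
  have Hst : ∀ (σ : BSt X W) (b : Bool), ∃ σ' : BSt X W, σ.Ok s →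
      (σ'.Ok s ∧ σ'.n = σ.n + 1 ∧ (∀ i < σ.n, σ'.f i = σ.f i) ∧
      (∀ i < σ.n, ∀ j < σ.n, σ'.y i j = σ.y i j) ∧ range (σ'.f σ.n) = spl σ b) := by
    intro σ b
    by_cases hσ : σ.Ok s
    · obtain ⟨σ', h⟩ := BSt.step hσ (hA _ ((hspl σ hσ).1 b)) ((hspl σ hσ).2.2 b)
      exact ⟨σ', fun _ => h⟩
    · exact ⟨σ, fun h => absurd h hσ⟩
  choose nx hnx using Hst
  have hXne : Nonempty X := by
    by_contra hX
    rw [not_nonempty_iff] at hX
    have : IsEmpty W := ⟨fun w => hX.false (s w)⟩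
    exact hW (by simpa using (Set.countable_univ_iff.mpr inferInstance))
  obtain ⟨x0⟩ := hXne
  let st : List Bool → BSt X W := fun l => l.rec ⟨0, univ, fun _ _ => x0, fun _ _ => 0⟩
    (fun b _ σ => nx σ b)
  have st_nil : st [] = ⟨0, univ, fun _ _ => x0, fun _ _ => 0⟩ := rfl
  have st_cons : ∀ b l, st (b :: l) = nx (st l) b := fun _ _ => rfl
  have hok : ∀ l, (st l).Ok s := by
    intro l
    induction l with
    | nil =>
      rw [st_nil]
      exact ⟨hW, fun i hi => absurd hi (Nat.not_lt_zero _), fun i hi => absurd hi (Nat.not_lt_zero _)⟩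
    | cons b l ih =>
      rw [st_cons]
      exact (hnx _ b ih).1
  have hn : ∀ l, (st l).n = l.length := by
    intro l
    induction l with
    | nil => rfl
    | cons b l ih =>
      rw [st_cons, (hnx _ b (hok l)).2.1, ih, List.length_cons]
  have hpren : ∀ x n, (pre x n).length = n := by
    intro x n
    induction n with
    | zero => rfl
    | succ n ih => rw [pre, List.length_cons, ih]
  -- the branch
  have hstn : ∀ x n, (st (pre x n)).n = n := fun x n => by rw [hn, hpren]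
  have hf1 : ∀ x n, ∀ i < n, (st (pre x (n + 1))).f i = (st (pre x n)).f i := by
    intro x n i hi
    have := (hnx (st (pre x n)) (x n) (hok _)).2.2.1 i (by rw [hstn]; exact hi)
    exact this
  have hy1 : ∀ x n, ∀ i < n, ∀ j < n, (st (pre x (n + 1))).y i j = (st (pre x n)).y i j := by
    intro x n i hi j hj
    exact (hnx (st (pre x n)) (x n) (hok _)).2.2.2.1 i (by rw [hstn]; exact hi) j
      (by rw [hstn]; exact hj)
  have hr1 : ∀ x n, range ((st (pre x (n + 1))).f n) = spl (st (pre x n)) (x n) := by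
    intro x n
    have := (hnx (st (pre x n)) (x n) (hok _)).2.2.2.2
    rw [hstn] at this
    exact this
  have hf2 : ∀ x i n, i < n → (st (pre x n)).f i = (st (pre x (i + 1))).f i := by
    intro x i n hin
    induction n, hin using Nat.le_induction with
    | base => rfl
    | succ n hn ih => rw [hf1 x n i hn, ih]
  have hy2 : ∀ x i j n, i + 1 + j ≤ n → (st (pre x n)).y i j = (st (pre x (i + 1 + j))).y i j := by
    intro x i j n hin
    induction n, hin using Nat.le_induction with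
    | base => rfl
    | succ n hn ih => rw [hy1 x n i (by omega) j (by omega), ih]
  let Y : (ℕ → Bool) → ℕ → ℕ → ℕ := fun x i j => (st (pre x (i + 1 + j))).y i j
  have hlim : ∀ x, ∃ p, ∀ i, (st (pre x (i + 1))).f i (Y x i) = p := by
    intro x
    have hw : ∀ n, ∃ w, w ∈ (st (pre x n)).V := by
      intro n
      by_contra hcon
      push Not at hcon
      apply (hok (pre x n)).1
      rw [eq_empty_of_forall_notMem hcon]
      exact countable_empty
    choose w hw using hw
    have htend : ∀ i, Tendsto (fun n => s (w n)) atTop (𝓝 ((st (pre x (i + 1))).f i (Y x i))) := by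
      intro i
      have hz : ∀ n, ∃ z : ℕ → ℕ, i < n → (∀ j < n, z j = (st (pre x n)).y i j) ∧
          (st (pre x n)).f i z = s (w n) := by
        intro n
        by_cases hin : i < n
        · obtain ⟨z, hz, hz'⟩ := (hok (pre x n)).2.2 i (by rw [hstn]; exact hin) (w n) (hw n)
          rw [hstn] at hz
          exact ⟨z, fun _ => ⟨hz, hz'⟩⟩
        · exact ⟨fun _ => 0, fun h => absurd h hin⟩
      choose z hz using hz
      have hzt : Tendsto z atTop (𝓝 (Y x i)) := by
        rw [tendsto_pi_nhds]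
        intro j
        apply tendsto_const_nhds.congr'
        filter_upwards [eventually_ge_atTop (i + 1 + j)] with n hn
        rw [(hz n (by omega)).1 j (by omega), hy2 x i j n hn]
      have hcont : Continuous ((st (pre x (i + 1))).f i) :=
        (hok (pre x (i + 1))).2.1 i (by rw [hstn]; exact Nat.lt_succ_self i)
      refine ((hcont.tendsto _).comp hzt).congr' ?_
      filter_upwards [eventually_gt_atTop i] with n hn
      rw [Function.comp_apply, ← hf2 x i n hn]
      exact (hz n hn).2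
    exact ⟨(st (pre x (0 + 1))).f 0 (Y x 0), fun i => tendsto_nhds_unique (htend i) (htend 0)⟩
  choose g hg using hlim
  refine ⟨range (fun p : List Bool × Bool => spl (st p.1) p.2), g, countable_range _, ?_, ?_⟩
  · rintro _ ⟨p, rfl⟩
    exact (hspl _ (hok _)).1 _
  · intro x y hxy
    have hex : ∃ n, x n ≠ y n := by
      by_contra hcon
      push Not at hcon
      exact hxy (funext hcon)
    have hmin := Nat.find_spec hex
    have hlt : ∀ i < Nat.find hex, x i = y i := fun i hi => by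
      by_contra h
      exact Nat.find_min hex hi h
    set n := Nat.find hex
    have hpre : pre x n = pre y n := pre_congr hlt
    refine ⟨_, ⟨(pre x n, x n), rfl⟩, _, ⟨(pre x n, y n), rfl⟩,
      (hspl _ (hok _)).2.1 _ _ hmin, ?_, ?_⟩
    · change g x ∈ spl (st (pre x n)) (x n)
      rw [← hr1 x n, ← hg x n]
      exact mem_range_self _
    · change g y ∈ spl (st (pre x n)) (y n)
      rw [hpre, ← hr1 y n, ← hg y n]
      exact mem_range_self _

end

end Pool.Agent.Helper6.HM
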