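import Pool.Agent.Helper6.HM1Bf
import Pool.Agent.Helper6.HM2Branch

/-!
# Pointed models, countability of the classes of each level
-/

set_option autoImplicit false

namespace Pool.Agent.Helper6.HM

open Set Filter Topology MeasureTheory Str

universe u v w

variable {L : FirstOrder.Language.{0, 0}}

/-- The set of pairs of values on `F`. -/
def prs {ι : Type u} {M : Type v} {N : Type w} (F : Set ι) (f : ι → M) (g : ι → N) : Set (M × N) :=
  (fun i => (f i, g i)) '' F

theorem prs_mono {ι : Type u} {M : Type v} {N : Type w} {F G : Set ι} (h : F ⊆ G) (f : ι → M)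
    (g : ι → N) : prs F f g ⊆ prs G f g :=
  image_mono h

theorem prs_insert {ι : Type u} {M : Type v} {N : Type w} (F : Set ι) (i : ι) (f : ι → M)
    (g : ι → N) : prs (insert i F) f g = insert (f i, g i) (prs F f g) := by
  rw [prs, image_insert_eq]
  rfl

theorem prs_congr {ι : Type u} {M : Type v} {N : Type w} {F : Set ι} {f f' : ι → M} {g g' : ι → N}
    (hf : ∀ i ∈ F, f i = f' i) (hg : ∀ i ∈ F, g i = g' i) : prs F f g = prs F f' g' :=
  image_congr fun i hi => by rw [hf i hi, hg i hi]

/-- A pointed model: a structure on the natural numbers with a family of elements. -/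
abbrev PM (L : FirstOrder.Language.{0, 0}) (ι : Type u) := L.Structure ℕ × (ι → ℕ)

/-- Equivalence of level `g` of pointed models on the index set `F`. -/
def E {ι : Type u} (g : Ordinal.{0}) (F : Set ι) (p q : PM L ι) : Prop :=
  BF p.1 q.1 g (prs F p.2 q.2)

section E
variable {ι : Type u} {g g' : Ordinal.{0}} {F G : Set ι} {p q r : PM L ι}

theorem E.refl (g : Ordinal.{0}) (F : Set ι) (p : PM L ι) : E g F p p := by
  apply BF.refl
  rintro _ ⟨i, -, rfl⟩
  rfl

theorem E.symm (h : E g F p q) : E g F q p := by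
  have := BF.symm h
  refine this.mono ?_
  rintro _ ⟨i, hi, rfl⟩
  exact ⟨_, ⟨i, hi, rfl⟩, rfl⟩

theorem E.trans (h : E g F p q) (h' : E g F q r) : E g F p r := by
  refine (BF.comp h h').mono ?_
  rintro _ ⟨i, hi, rfl⟩
  exact ⟨q.2 i, ⟨i, hi, rfl⟩, ⟨i, hi, rfl⟩⟩

theorem E.level (h : E g F p q) (hg : g' ≤ g) : E g' F p q := BF.level h hg

theorem E.mono (h : E g F p q) (hG : G ⊆ F) : E g G p q := BF.mono h (prs_mono hG _ _)

theorem E.congr {p' q' : PM L ι} (h : E g F p q) (hp1 : p.1 = p'.1) (hq1 : q.1 = q'.1)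
    (hp : ∀ i ∈ F, p.2 i = p'.2 i) (hq : ∀ i ∈ F, q.2 i = q'.2 i) : E g F p' q' := by
  unfold E at *
  rwa [← hp1, ← hq1, ← prs_congr hp hq]

/-- Extension by one element. -/
theorem E.extend [DecidableEq ι] (h : E g F p q) (hg : g' < g) {i : ι} (hi : i ∉ F) (x : ℕ) (hx : p.2 i = x) :
    ∃ y, E g' (insert i F) p (q.1, Function.update q.2 i y) := by
  obtain ⟨y, hy⟩ := BF.forth h hg x
  refine ⟨y, ?_⟩
  unfold E
  rw [prs_insert]
  have h1 : prs F p.2 (Function.update q.2 i y) = prs F p.2 q.2 := by
    apply prs_congr (fun _ _ => rfl)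
    intro j hj
    rw [Function.update_of_ne]
    rintro rfl
    exact hi hj
  rw [h1, hx]
  simpa using hy

end E

/-! ### Countable ordinals -/

theorem countable_iio {g : Ordinal.{0}} (hg : g < Ordinal.omega 1) : Countable (Set.Iio g) := by
  rw [← Cardinal.mk_le_aleph0_iff, Cardinal.mk_Iio_ordinal, Cardinal.lift_le_aleph0]
  have h : g.card < Cardinal.aleph 1 := by
    rw [← Cardinal.lt_ord]
    simpa using hg
  rw [← Cardinal.succ_aleph0] at h
  exact Order.lt_succ_iff.mp h

theorem isSuccLimit_omega1 : Order.IsSuccLimit (Ordinal.omega 1 : Ordinal.{0}) := by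
  rw [← Cardinal.ord_aleph]
  exact Cardinal.isSuccLimit_ord (Cardinal.aleph0_le_aleph 1)

theorem succ_lt {g : Ordinal.{0}} (hg : g < Ordinal.omega 1) : g + 1 < Ordinal.omega 1 :=
  isSuccLimit_omega1.add_one_lt hg

theorem uncountable_iio : ¬ Countable (Set.Iio (Ordinal.omega 1 : Ordinal.{0})) := by
  intro h
  rw [← Cardinal.mk_le_aleph0_iff, Cardinal.mk_Iio_ordinal, Cardinal.lift_le_aleph0,
    ← Cardinal.ord_aleph, Cardinal.card_ord] at h
  exact absurd h (not_le.mpr (Cardinal.aleph0_lt_aleph_one))

theorem add_lt {g g' : Ordinal.{0}} (hg : g < Ordinal.omega 1) (hg' : g' < Ordinal.omega 1) :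
    g + g' < Ordinal.omega 1 := by
  have := Ordinal.isPrincipal_add_ord (Cardinal.aleph0_le_aleph 1)
  rw [Cardinal.ord_aleph] at this
  exact this hg hg'

/-! ### Measurability -/

section meas
variable [∀ n, IsEmpty (L.Functions n)] [∀ n, Countable (L.Relations n)]

theorem measurableSet_atEq (S' : L.Structure ℕ) (P : Set (ℕ × ℕ)) :
    MeasurableSet {c : Code L | AtEq (toStr c) S' P} := by
  by_cases h1 : ∀ p ∈ P, ∀ q ∈ P, (p.1 = q.1 ↔ p.2 = q.2)
  · have : {c : Code L | AtEq (toStr c) S' P} = ⋂ n : ℕ, ⋂ R : L.Relations n,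
        ⋂ v : {v : Fin n → ℕ × ℕ // ∀ i, v i ∈ P},
          {c : Code L | (toStr c).RelMap R (fun i => (v.1 i).1) ↔
            S'.RelMap R (fun i => (v.1 i).2)} := by
      ext c
      simp only [mem_setOf_eq, mem_iInter, Subtype.forall]
      constructor
      · intro h n R v hv
        exact h.2 n R v hv
      · intro h
        exact ⟨h1, h⟩
    rw [this]
    refine MeasurableSet.iInter fun n => MeasurableSet.iInter fun R => MeasurableSet.iInter
      fun v => ?_
    by_cases h : S'.RelMap R (fun i => (v.1 i).2)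
    · simp only [h, iff_true]
      exact measurableSet_relMap R _
    · simp only [h, iff_false]
      exact (measurableSet_relMap R _).compl
  · have : {c : Code L | AtEq (toStr c) S' P} = ∅ := by
      ext c
      simp only [mem_setOf_eq, mem_empty_iff_false, iff_false]
      exact fun h => h1 h.1
    rw [this]
    exact MeasurableSet.empty

theorem measurableSet_bf (S' : L.Structure ℕ) {g : Ordinal.{0}} (hg : g < Ordinal.omega 1)
    (P : Set (ℕ × ℕ)) : MeasurableSet {c : Code L | BF (toStr c) S' g P} := by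
  induction g using WellFoundedLT.induction generalizing P with
  | ind g ih =>
    have := countable_iio hg
    have h1 : {c : Code L | BF (toStr c) S' g P} = {c : Code L | AtEq (toStr c) S' P} ∩
        ⋂ b : Set.Iio g, ((⋂ x : ℕ, ⋃ y : ℕ, {c : Code L | BF (toStr c) S' b (insert (x, y) P)}) ∩
          (⋂ y : ℕ, ⋃ x : ℕ, {c : Code L | BF (toStr c) S' b (insert (x, y) P)})) := by
      ext c
      simp only [mem_setOf_eq, mem_inter_iff, mem_iInter, mem_iUnion, Subtype.forall, mem_Iio]
      rw [BF_iff]
    rw [h1]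
    refine (measurableSet_atEq S' P).inter (MeasurableSet.iInter fun b => ?_)
    have hb : (b : Ordinal.{0}) < Ordinal.omega 1 := b.2.trans hg
    exact (MeasurableSet.iInter fun x => MeasurableSet.iUnion fun y => ih b b.2 hb _).inter
      (MeasurableSet.iInter fun x => MeasurableSet.iUnion fun y => ih b b.2 hb _)

/-- There are countably many classes of level `g` of `n`-pointed models in `K`. -/
def CC (K : Set (L.Structure ℕ)) (g : Ordinal.{0}) (n : ℕ) : Prop :=
  ∃ p : ℕ → PM L (Fin n), ∀ q : PM L (Fin n), q.1 ∈ K → ∃ i, E g univ q (p i)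

theorem prs_cons {n : ℕ} (a b : Fin n → ℕ) (x y : ℕ) :
    prs univ (Fin.cons x a : Fin (n + 1) → ℕ) (Fin.cons y b : Fin (n + 1) → ℕ) =
      insert (x, y) (prs univ a b) := by
  ext p
  simp only [prs, image_univ, mem_range, mem_insert_iff]
  constructor
  · rintro ⟨i, rfl⟩
    refine Fin.cases ?_ (fun i => ?_) i
    · left; rfl
    · right; exact ⟨i, rfl⟩
  · rintro (rfl | ⟨i, rfl⟩)
    · exact ⟨0, rfl⟩
    · exact ⟨i.succ, rfl⟩

theorem exists_seq_of_countable_range {α β : Type*} [Nonempty α] (f : α → β)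
    (h : (range f).Countable) : ∃ p : ℕ → α, ∀ q, ∃ i, f q = f (p i) := by
  obtain ⟨e, he⟩ := h.exists_eq_range (range_nonempty f)
  have h1 : ∀ i, ∃ a, f a = e i := by
    intro i
    have : e i ∈ range f := by rw [he]; exact mem_range_self i
    exact this
  choose p hp using h1
  refine ⟨p, fun q => ?_⟩
  have : f q ∈ range e := by rw [← he]; exact mem_range_self q
  obtain ⟨i, hi⟩ := this
  exact ⟨i, by rw [hp, hi]⟩

theorem countably_many_classes {K : Set (L.Structure ℕ)}
    (hK : MeasurableSet {c : Code L | toStr c ∈ K}) (hP : ¬ PerfK K) {g : Ordinal.{0}}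
    (hg : g < Ordinal.omega 1) (n : ℕ) : CC K g n := by
  classical
  induction g using WellFoundedLT.induction generalizing n with
  | ind g ih =>
    have hcg := countable_iio hg
    have h1 : ∀ (b : Set.Iio g) (n : ℕ), ∃ p : ℕ → PM L (Fin n), ∀ q : PM L (Fin n), q.1 ∈ K →
        ∃ i, E b.1 univ q (p i) := fun b n => ih b.1 b.2 (b.2.trans hg) n
    choose p hp using h1
    let I : Type 1 := (Set.Iio g × ℕ) ⊕ (((k : ℕ) × (L.Relations k × (Fin k → Fin n))) ⊕
      (Fin n × Fin n))
    let Z : (Fin n → ℕ) → Code L → (I → Bool) := fun a c i => match i with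
      | Sum.inl (b, i) => decide (∃ x, E b.1 univ ((toStr c, Fin.cons x a) : PM L (Fin (n + 1)))
          (p b (n + 1) i))
      | Sum.inr (Sum.inl ⟨_, (R, v)⟩) => decide ((toStr c).RelMap R (a ∘ v))
      | Sum.inr (Sum.inr (i, j)) => decide (a i = a j)
    have hZ : ∀ a, Measurable (Z a) := by
      intro a
      refine measurable_pi_iff.mpr fun i => measurable_to_bool ?_
      rcases i with ⟨b, i⟩ | ⟨k, R, v⟩ | ⟨i, j⟩
      · have : (fun c => Z a c (Sum.inl (b, i))) ⁻¹' {true} =
            ⋃ x : ℕ, {c : Code L | E b.1 univ ((toStr c, Fin.cons x a) : PM L (Fin (n + 1)))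
              (p b (n + 1) i)} := by
          ext c
          simp [Z]
        rw [this]
        exact MeasurableSet.iUnion fun x => measurableSet_bf (p b (n + 1) i).1 (b.2.trans hg)
          (prs univ (Fin.cons x a : Fin (n + 1) → ℕ) (p b (n + 1) i).2)
      · have : (fun c => Z a c (Sum.inr (Sum.inl ⟨k, R, v⟩))) ⁻¹' {true} =
            {c : Code L | (toStr c).RelMap R (a ∘ v)} := by
          ext c
          simp [Z]
        rw [this]
        exact measurableSet_relMap R _
      · have : (fun c => Z a c (Sum.inr (Sum.inr (i, j)))) ⁻¹' {true} =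
            {c : Code L | a i = a j} := by
          ext c
          simp [Z]
        rw [this]
        exact MeasurableSet.const _
    have hinv : ∀ j k : Fin n → ℕ, ∀ c ∈ {c : Code L | toStr c ∈ K},
        ∀ d ∈ {c : Code L | toStr c ∈ K}, Iso (toStr c) (toStr d) → ∃ k', Z j c = Z k' d := by
      rintro a - c hc d hd ⟨e, he⟩
      refine ⟨e ∘ a, ?_⟩
      funext i
      rcases i with ⟨b, i⟩ | ⟨k, R, v⟩ | ⟨i, j⟩
      · have hE : ∀ x, E b.1 univ ((toStr c, Fin.cons x a) : PM L (Fin (n + 1)))
            ((toStr d, Fin.cons (e x) (e ∘ a)) : PM L (Fin (n + 1))) := by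
          intro x
          refine BF.of_iso (e := e) (fun n R v => he n R v) _ ?_
          rintro _ ⟨i, -, rfl⟩
          refine Fin.cases ?_ (fun i => ?_) i
          · rfl
          · rfl
        change decide _ = decide _
        rw [decide_eq_decide]
        constructor
        · rintro ⟨x, hx⟩
          exact ⟨e x, (hE x).symm.trans hx⟩
        · rintro ⟨x, hx⟩
          refine ⟨e.symm x, (hE _).trans ?_⟩
          rw [e.apply_symm_apply]
          exact hx
      · change decide _ = decide _
        rw [decide_eq_decide]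
        exact he k R (a ∘ v)
      · change decide _ = decide _
        rw [decide_eq_decide]
        exact e.apply_eq_iff_eq.symm
    have hct : (⋃ a, Z a '' {c : Code L | toStr c ∈ K}).Countable := by
      by_contra hcon
      exact hP (perfK_of_reals (B := fun _ : Fin n → ℕ => {c : Code L | toStr c ∈ K})
        (fun _ => hK) (fun _ c hc => hc) hZ hinv hcon)
    by_cases hKe : K.Nonempty
    · have hne : Nonempty {q : PM L (Fin n) // q.1 ∈ K} := by
        obtain ⟨S, hS⟩ := hKe
        exact ⟨⟨(S, fun _ => 0), hS⟩⟩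
      obtain ⟨r, hr⟩ := exists_seq_of_countable_range
        (fun q : {q : PM L (Fin n) // q.1 ∈ K} => Z q.1.2 (ofStr q.1.1)) (hct.mono (by
          rintro _ ⟨q, rfl⟩
          refine mem_iUnion.mpr ⟨q.1.2, _, ?_, rfl⟩
          change toStr (ofStr q.1.1) ∈ K
          rw [toStr_ofStr]
          exact q.2))
      refine ⟨fun i => (r i).1, fun q hq => ?_⟩
      obtain ⟨i, hi⟩ := hr ⟨q, hq⟩
      refine ⟨i, ?_⟩
      change E g univ q (r i).1
      have hi' : Z q.2 (ofStr q.1) = Z (r i).1.2 (ofStr (r i).1.1) := hi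
      have hri : (r i).1.1 ∈ K := (r i).2
      generalize (r i).1 = t at hi' hri
      obtain ⟨S, a⟩ := q
      obtain ⟨S', a'⟩ := t
      change Z a (ofStr S) = Z a' (ofStr S') at hi'
      unfold E
      rw [BF_iff]
      have hx : ∀ (b : Set.Iio g) (i : ℕ),
          (∃ x, E b.1 univ ((S, Fin.cons x a) : PM L (Fin (n + 1))) (p b (n + 1) i)) ↔
          (∃ x, E b.1 univ ((S', Fin.cons x a') : PM L (Fin (n + 1))) (p b (n + 1) i)) := by
        intro b i
        have := congrFun hi' (Sum.inl (b, i))
        change decide _ = decide _ at this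
        rw [decide_eq_decide, toStr_ofStr, toStr_ofStr] at this
        exact this
      refine ⟨⟨?_, ?_⟩, fun b hb => ⟨fun x => ?_, fun y => ?_⟩⟩
      · rintro _ ⟨i, -, rfl⟩ _ ⟨j, -, rfl⟩
        have := congrFun hi' (Sum.inr (Sum.inr (i, j)))
        change decide _ = decide _ at this
        rw [decide_eq_decide] at this
        exact this
      · intro k R v hv
        choose f hf hf' using hv
        have := congrFun hi' (Sum.inr (Sum.inl ⟨k, (R, f)⟩))
        change decide _ = decide _ at this
        rw [decide_eq_decide, toStr_ofStr, toStr_ofStr] at this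
        have h2 : v = fun i => (a (f i), a' (f i)) := by
          funext i
          exact (hf' i).symm
        rw [h2]
        exact this
      · obtain ⟨i, hi⟩ := hp ⟨b, hb⟩ (n + 1) (S, Fin.cons x a) hq
        obtain ⟨y, hy⟩ := (hx ⟨b, hb⟩ i).mp ⟨x, hi⟩
        refine ⟨y, ?_⟩
        have := hi.trans hy.symm
        unfold E at this
        rwa [prs_cons] at this
      · obtain ⟨i, hi⟩ := hp ⟨b, hb⟩ (n + 1) (S', Fin.cons y a') hri
        obtain ⟨x, hx'⟩ := (hx ⟨b, hb⟩ i).mpr ⟨y, hi⟩
        refine ⟨x, ?_⟩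
        have := hx'.trans hi.symm
        unfold E at this
        rwa [prs_cons] at this
    · refine ⟨fun _ => (toStr (fun _ => false), fun _ => 0), fun q hq => absurd ⟨_, hq⟩ hKe⟩

end meas

end Pool.Agent.Helper6.HM
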