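import Pool.Agent.Helper6.HM3Pm

/-!
# Threads

A thread on a finite index set is a coherent choice of classes of all countable levels.  Every
uncountable family of pointed models has a thread through it.
-/

set_option autoImplicit false

namespace Pool.Agent.Helper6.HM

open Set Filter Topology MeasureTheory Str

universe u v w

variable {L : FirstOrder.Language.{0, 0}}

/-- A coherent choice of pointed models of all countable levels. -/
def Thread {ι : Type u} (K : Set (L.Structure ℕ)) (F : Set ι) (r : Ordinal.{0} → PM L ι) : Prop :=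
  (∀ g < Ordinal.omega 1, (r g).1 ∈ K) ∧
    ∀ g g', g ≤ g' → g' < Ordinal.omega 1 → E g F (r g) (r g')

theorem not_countable_cantor : ¬ Countable (ℕ → Bool) := by
  intro h
  obtain ⟨f, hf⟩ := exists_surjective_nat (ℕ → Bool)
  obtain ⟨n, hn⟩ := hf fun i => ! (f i i)
  have := congrFun hn n
  simp at this

section
variable [∀ n, IsEmpty (L.Functions n)] [∀ n, Countable (L.Relations n)]

theorem exists_good {K : Set (L.Structure ℕ)}
    (hK : MeasurableSet {c : Code L | toStr c ∈ K}) (hP : ¬ PerfK K) {n : ℕ} (a : Fin n → ℕ)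
    {W : Type w} (hW : ¬ (univ : Set W).Countable) (s : W → Code L) (hs : ∀ w, toStr (s w) ∈ K) :
    ∃ V : Set W, ¬ V.Countable ∧ ∀ g < Ordinal.omega 1, ∃ w0 ∈ V,
      {w ∈ V | ¬ E g univ ((toStr (s w), a) : PM L (Fin n)) (toStr (s w0), a)}.Countable := by
  classical
  by_contra hcon
  push Not at hcon
  let R : Ordinal.{0} → Code L → Code L → Prop := fun g c d =>
    E g univ ((toStr c, a) : PM L (Fin n)) (toStr d, a)
  let cl : Ordinal.{0} → Code L → Set (Code L) := fun g d => {c | toStr c ∈ K ∧ R g c d}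
  obtain ⟨D, h, hDc, hD, hsep⟩ := branch_lemma s
    {C | ∃ g < Ordinal.omega 1, ∃ d, C = cl g d} (by
      rintro _ ⟨g, hg, d, rfl⟩
      have : MeasurableSet (cl g d) :=
        hK.inter (measurableSet_bf (toStr d) hg (prs univ a a))
      exact this.analyticSet) hW (by
      intro V hV
      obtain ⟨g, hg, hbad⟩ := hcon V hV
      obtain ⟨p, hp⟩ := countably_many_classes hK hP hg n
      have hcol : ∀ w, ∃ i, E g univ ((toStr (s w), a) : PM L (Fin n)) (p i) :=
        fun w => hp _ (hs w)
      choose col hcol using hcol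
      have hRcol : ∀ w w', col w = col w' → R g (s w) (s w') := by
        intro w w' hww
        have h1 := hcol w
        rw [hww] at h1
        exact h1.trans (hcol w').symm
      obtain ⟨i, hi⟩ := exists_fiber_uncountable hV col
      obtain ⟨w0, hw0V, hw0i⟩ : (V ∩ col ⁻¹' {i}).Nonempty := by
        by_contra hne
        rw [not_nonempty_iff_eq_empty] at hne
        rw [hne] at hi
        exact hi countable_empty
      obtain ⟨j, hj⟩ := exists_fiber_uncountable (hbad w0 hw0V) col
      obtain ⟨w1, hw1V, hw1j⟩ : ({w ∈ V | ¬ E g univ ((toStr (s w), a) : PM L (Fin n))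
          (toStr (s w0), a)} ∩ col ⁻¹' {j}).Nonempty := by
        by_contra hne
        rw [not_nonempty_iff_eq_empty] at hne
        rw [hne] at hj
        exact hj countable_empty
      refine ⟨cl g (s w0), ⟨g, hg, _, rfl⟩, cl g (s w1), ⟨g, hg, _, rfl⟩, ?_, ?_, ?_⟩
      · rw [Set.disjoint_left]
        rintro c ⟨-, h0⟩ ⟨-, h1⟩
        exact hw1V.2 (E.trans (E.symm h1) h0)
      · intro hc
        apply hi
        refine hc.mono ?_
        rintro w ⟨hwV, hwi⟩
        exact ⟨hwV, hs w, hRcol _ _ (hwi.trans hw0i.symm)⟩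
      · intro hc
        apply hj
        refine hc.mono ?_
        rintro w ⟨hwV, hwj⟩
        exact ⟨hwV.1, hs w, hRcol _ _ (hwj.trans hw1j.symm)⟩)
  have hlv : ∀ C : D, ∃ g < Ordinal.omega 1, ∃ d, C.1 = cl g d := fun C => hD C.2
  choose lv hlv1 hlv2 using hlv
  have : Countable D := hDc
  have hsup : (⨆ C : D, lv C) < Ordinal.omega 1 := Ordinal.iSup_lt_omega_one hlv1
  set g := ⨆ C : D, lv C with hgdef
  have hle : ∀ C : D, lv C ≤ g := fun C => Ordinal.le_iSup lv C
  obtain ⟨p, hp⟩ := countably_many_classes hK hP hsup n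
  have hhK : ∀ x, toStr (h x) ∈ K := by
    intro x
    obtain ⟨C, hC, C', hC', -, hx, -⟩ := hsep x (fun i => ! x i) (fun hxx => by
      have := congrFun hxx 0
      simp at this)
    obtain ⟨d, hd⟩ := hlv2 ⟨C, hC⟩
    have hd' : C = cl (lv ⟨C, hC⟩) d := hd
    rw [hd'] at hx
    exact hx.1
  have hcol : ∀ x, ∃ i, E g univ ((toStr (h x), a) : PM L (Fin n)) (p i) :=
    fun x => hp _ (hhK x)
  choose col hcol using hcol
  have hinj : Function.Injective col := by
    intro x y hxy
    by_contra hne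
    obtain ⟨C, hC, C', hC', hdis, hx, hy⟩ := hsep x y hne
    obtain ⟨d, hd⟩ := hlv2 ⟨C, hC⟩
    have hd' : C = cl (lv ⟨C, hC⟩) d := hd
    have h1 : E g univ ((toStr (h x), a) : PM L (Fin n)) (toStr (h y), a) := by
      have h1 := hcol x
      rw [hxy] at h1
      exact h1.trans (hcol y).symm
    have h2 : h y ∈ C := by
      rw [hd'] at hx ⊢
      exact ⟨hhK y, ((h1.level (hle _)).symm).trans hx.2⟩
    exact Set.disjoint_left.mp hdis h2 hy
  exact not_countable_cantor hinj.countable

theorem exists_thread {K : Set (L.Structure ℕ)}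
    (hK : MeasurableSet {c : Code L | toStr c ∈ K}) (hP : ¬ PerfK K) {ι : Type u} {F : Set ι}
    (hF : F.Finite) {W : Type w} {V : Set W} (hV : ¬ V.Countable) (s : W → PM L ι)
    (hs : ∀ w ∈ V, (s w).1 ∈ K) :
    ∃ r : Ordinal.{0} → PM L ι, Thread K F r ∧
      ∀ g < Ordinal.omega 1, ¬ {w ∈ V | E g F (s w) (r g)}.Countable := by
  classical
  have : Finite F := hF
  obtain ⟨n, ⟨e⟩⟩ := Finite.exists_equiv_fin F
  obtain ⟨a, ha⟩ := exists_fiber_uncountable hV (fun w => fun i => (s w).2 (e.symm i))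
  set V0 := V ∩ (fun w => fun i => (s w).2 (e.symm i)) ⁻¹' {a} with hV0
  have hpr : ∀ w ∈ V0, ∀ w' ∈ V0, ∀ g, E g univ ((toStr (ofStr (s w).1), a) : PM L (Fin n))
      (toStr (ofStr (s w').1), a) ↔ E g F (s w) (s w') := by
    intro w hw w' hw' g
    unfold E
    rw [toStr_ofStr, toStr_ofStr]
    have h1 : prs univ a a = prs F (s w).2 (s w').2 := by
      ext p
      simp only [prs, image_univ, mem_range, mem_image]
      constructor
      · rintro ⟨i, rfl⟩
        refine ⟨e.symm i, (e.symm i).2, ?_⟩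
        have h1 := congrFun (show _ = a from hw.2) i
        have h2 := congrFun (show _ = a from hw'.2) i
        exact Prod.ext h1 h2
      · rintro ⟨i, hi, rfl⟩
        refine ⟨e ⟨i, hi⟩, ?_⟩
        have h1 : (s w).2 (e.symm (e ⟨i, hi⟩)) = a (e ⟨i, hi⟩) :=
          congrFun (show _ = a from hw.2) (e ⟨i, hi⟩)
        have h2 : (s w').2 (e.symm (e ⟨i, hi⟩)) = a (e ⟨i, hi⟩) :=
          congrFun (show _ = a from hw'.2) (e ⟨i, hi⟩)
        rw [e.symm_apply_apply] at h1 h2
        exact Prod.ext h1.symm h2.symm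
    rw [h1]
  obtain ⟨V, hVc, hVg⟩ := exists_good hK hP a (W := V0) (by
    intro hc
    apply ha
    have : Countable V0 := Set.countable_univ_iff.mp hc
    exact this) (fun w => ofStr (s w.1).1) (fun w => by
      rw [toStr_ofStr]
      exact hs _ w.2.1)
  have hVg' : ∀ g : Ordinal.{0}, ∃ w0 : V0, g < Ordinal.omega 1 → w0 ∈ V ∧
      {w ∈ V | ¬ E g F (s w.1) (s w0.1)}.Countable := by
    intro g
    by_cases hg : g < Ordinal.omega 1
    · obtain ⟨w0, hw0, h⟩ := hVg g hg
      refine ⟨w0, fun _ => ⟨hw0, ?_⟩⟩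
      refine h.mono ?_
      rintro w ⟨hw, hw'⟩
      refine ⟨hw, fun h2 => hw' ?_⟩
      exact (hpr w.1 w.2 w0.1 w0.2 g).mp h2
    · have : Nonempty V0 := by
        by_contra hemp
        rw [not_nonempty_iff] at hemp
        exact hVc (Set.to_countable V)
      exact ⟨this.some, fun h => absurd h hg⟩
  choose f hf using hVg'
  have hex : ∀ A B : Set V0, A.Countable → B.Countable → ∃ w ∈ V, w ∉ A ∧ w ∉ B := by
    intro A B hA hB
    by_contra hcon
    push Not at hcon
    apply hVc
    refine (hA.union hB).mono fun w hw => ?_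
    by_cases hwA : w ∈ A
    · exact Or.inl hwA
    · exact Or.inr (hcon w hw hwA)
  refine ⟨fun g => s (f g).1, ⟨fun g hg => hs _ (f g).2.1, fun g g' hgg hg' => ?_⟩,
    fun g hg hc => ?_⟩
  · have hg := lt_of_le_of_lt hgg hg'
    obtain ⟨w, hw, hw1, hw2⟩ := hex _ _ (hf g hg).2 (hf g' hg').2
    have h1 : E g F (s w.1) (s (f g).1) := by
      by_contra h
      exact hw1 ⟨hw, h⟩
    have h2 : E g' F (s w.1) (s (f g').1) := by
      by_contra h
      exact hw2 ⟨hw, h⟩
    exact h1.symm.trans (h2.level hgg)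
  · have hinj : {w : V0 | w ∈ V ∧ E g F (s w.1) (s (f g).1)}.Countable := by
      refine (hc.preimage_of_injOn (f := fun w : V0 => w.1)
        (Subtype.val_injective.injOn)).mono ?_
      rintro w ⟨hw, hw'⟩
      exact ⟨w.2.1, hw'⟩
    obtain ⟨w, hw, hw1, hw2⟩ := hex _ _ (hf g hg).2 hinj
    apply hw2
    refine ⟨hw, ?_⟩
    by_contra h
    exact hw1 ⟨hw, h⟩

end

end Pool.Agent.Helper6.HM
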