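import Pool.Agent.Helper6.HM4Thread

/-!
# Extension and amalgamation of threads
-/

set_option autoImplicit false

namespace Pool.Agent.Helper6.HM

open Set Filter Topology MeasureTheory Str

universe u v w

variable {L : FirstOrder.Language.{0, 0}} {ι : Type u}

/-- Two families of pointed models agree on `F` at all countable levels. -/
def Sim (F : Set ι) (r q : Ordinal.{0} → PM L ι) : Prop :=
  ∀ g < Ordinal.omega 1, E g F (r g) (q g)

theorem Sim.symm {F : Set ι} {r q : Ordinal.{0} → PM L ι} (h : Sim F r q) : Sim F q r :=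
  fun g hg => (h g hg).symm

theorem Sim.trans {F : Set ι} {r q t : Ordinal.{0} → PM L ι} (h : Sim F r q) (h' : Sim F q t) :
    Sim F r t :=
  fun g hg => (h g hg).trans (h' g hg)

theorem Sim.mono {F G : Set ι} {r q : Ordinal.{0} → PM L ι} (h : Sim F r q) (hG : G ⊆ F) :
    Sim G r q :=
  fun g hg => (h g hg).mono hG

theorem Sim.refl (F : Set ι) (r : Ordinal.{0} → PM L ι) : Sim F r r :=
  fun _ _ => E.refl _ _ _

theorem Thread.mono {K : Set (L.Structure ℕ)} {F G : Set ι} {r : Ordinal.{0} → PM L ι}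
    (h : Thread K F r) (hG : G ⊆ F) : Thread K G r :=
  ⟨h.1, fun g g' hg hg' => (h.2 g g' hg hg').mono hG⟩

theorem not_countable_iio' : ¬ (Set.Iio (Ordinal.omega 1 : Ordinal.{0})).Countable :=
  fun h => uncountable_iio h

theorem exists_large {V : Set Ordinal.{0}} (hV : ¬ V.Countable) {g : Ordinal.{0}}
    (hg : g < Ordinal.omega 1) : ∃ w ∈ V, g ≤ w := by
  by_contra hcon
  push Not at hcon
  apply hV
  have : (Set.Iio g).Countable := countable_iio hg
  exact this.mono fun w hw => hcon w hw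

theorem E.update_notMem [DecidableEq ι] {F : Set ι} {p : PM L ι} {u : ι} (hu : u ∉ F) (y : ℕ)
    (g : Ordinal.{0}) : E g F ((p.1, Function.update p.2 u y) : PM L ι) p := by
  refine (E.refl g F p).congr rfl rfl ?_ fun _ _ => rfl
  intro i hi
  change p.2 i = Function.update p.2 u y i
  rw [Function.update_of_ne]
  rintro rfl
  exact hu hi

section
variable [∀ n, IsEmpty (L.Functions n)] [∀ n, Countable (L.Relations n)]

/-- Amalgamation of threads over a common part. -/
theorem amalg [DecidableEq ι] {K : Set (L.Structure ℕ)}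
    (hK : MeasurableSet {c : Code L | toStr c ∈ K}) (hP : ¬ PerfK K) {F F' : Set ι}
    (hF' : F'.Finite) (hFF : F ⊆ F') {u : ι} (hu : u ∉ F') {r q : Ordinal.{0} → PM L ι}
    (hr : Thread K (insert u F) r) (hq : Thread K F' q) (hrq : Sim F r q) :
    ∃ t, Thread K (insert u F') t ∧ Sim (insert u F) t r ∧ Sim F' t q := by
  have huF : u ∉ F := fun h => hu (hFF h)
  have h1 : ∀ g : Ordinal.{0}, ∃ y : ℕ, g < Ordinal.omega 1 →
      E g (insert u F) (r (g + 1)) ((q (g + 1)).1, Function.update (q (g + 1)).2 u y) := by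
    intro g
    by_cases hg : g < Ordinal.omega 1
    · obtain ⟨y, hy⟩ := (hrq (g + 1) (succ_lt hg)).extend (g' := g) (by
        exact lt_add_one g) huF _ rfl
      exact ⟨y, fun _ => hy⟩
    · exact ⟨0, fun h => absurd h hg⟩
  choose y hy using h1
  let s : Ordinal.{0} → PM L ι := fun g => ((q (g + 1)).1, Function.update (q (g + 1)).2 u (y g))
  obtain ⟨t, ht, ht2⟩ := exists_thread hK hP (hF'.insert u) not_countable_iio' s (by
    intro w hw
    exact hq.1 _ (succ_lt hw))
  refine ⟨t, ht, fun g hg => ?_, fun g hg => ?_⟩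
  · obtain ⟨w, ⟨hw, hwE⟩, hgw⟩ := exists_large (ht2 g hg) hg
    have h2 := (hy w hw).level hgw
    have h3 := hr.2 g (w + 1) (hgw.trans (lt_add_one w).le) (succ_lt hw)
    exact ((hwE.mono (insert_subset_insert hFF)).symm.trans h2.symm).trans h3.symm
  · obtain ⟨w, ⟨hw, hwE⟩, hgw⟩ := exists_large (ht2 g hg) hg
    have h3 := hq.2 g (w + 1) (hgw.trans (lt_add_one w).le) (succ_lt hw)
    exact ((hwE.mono (subset_insert _ _)).symm.trans (E.update_notMem hu _ _)).trans h3.symm

/-- Realisation of a class of a given level by a thread. -/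
theorem realize [DecidableEq ι] {K : Set (L.Structure ℕ)}
    (hK : MeasurableSet {c : Code L | toStr c ∈ K}) (hP : ¬ PerfK K) {F : Set ι}
    (hF : F.Finite) {u : ι} (hu : u ∉ F) {q : Ordinal.{0} → PM L ι} (hq : Thread K F q)
    {b : Ordinal.{0}} (hb : b < Ordinal.omega 1) (y : ℕ) :
    ∃ t, Thread K (insert u F) t ∧ Sim F t q ∧
      E b (insert u F) (t b) ((q (b + 1)).1, Function.update (q (b + 1)).2 u y) := by
  let p : PM L ι := ((q (b + 1)).1, Function.update (q (b + 1)).2 u y)
  have hm : ∀ w < (Ordinal.omega 1 : Ordinal.{0}), max (b + 1) w < Ordinal.omega 1 :=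
    fun w hw => max_lt (succ_lt hb) hw
  have h1 : ∀ w : Ordinal.{0}, ∃ z : ℕ, w < Ordinal.omega 1 →
      E b (insert u F) p ((q (max (b + 1) w)).1, Function.update (q (max (b + 1) w)).2 u z) := by
    intro w
    by_cases hw : w < Ordinal.omega 1
    · have h2 : E (b + 1) F p (q (max (b + 1) w)) :=
        (E.update_notMem hu _ _).trans (hq.2 _ _ (le_max_left _ _) (hm w hw))
      obtain ⟨z, hz⟩ := h2.extend (g' := b) (lt_add_one b) hu _ rfl
      exact ⟨z, fun _ => hz⟩
    · exact ⟨0, fun h => absurd h hw⟩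
  choose z hz using h1
  let s : Ordinal.{0} → PM L ι := fun w =>
    ((q (max (b + 1) w)).1, Function.update (q (max (b + 1) w)).2 u (z w))
  obtain ⟨t, ht, ht2⟩ := exists_thread hK hP (hF.insert u) not_countable_iio' s (by
    intro w hw
    exact hq.1 _ (hm w hw))
  refine ⟨t, ht, fun g hg => ?_, ?_⟩
  · obtain ⟨w, ⟨hw, hwE⟩, hgw⟩ := exists_large (ht2 g hg) hg
    have h3 := hq.2 g (max (b + 1) w) (hgw.trans (le_max_right _ _)) (hm w hw)
    exact ((hwE.mono (subset_insert _ _)).symm.trans (E.update_notMem hu _ _)).trans h3.symm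
  · obtain ⟨w, ⟨hw, hwE⟩, hgw⟩ := exists_large (ht2 b hb) hb
    exact hwE.symm.trans (hz w hw).symm

end

end Pool.Agent.Helper6.HM
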