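import Pool.Agent.Helper6.HM5Amalg

/-!
# The one point extension of a coherent system of threads
-/

set_option autoImplicit false

namespace Pool.Agent.Helper6.HM

open Set Filter Topology MeasureTheory Str

universe u v w

variable {L : FirstOrder.Language.{0, 0}} {ι : Type u}

/-- A coherent system of threads on the finite subsets of `D`. -/
def Coh (K : Set (L.Structure ℕ)) (A : Finset ι → Ordinal.{0} → PM L ι) (D : Set ι) : Prop :=
  (∀ F : Finset ι, (F : Set ι) ⊆ D → Thread K (F : Set ι) (A F)) ∧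
    ∀ F F' : Finset ι, F ⊆ F' → (F' : Set ι) ⊆ D → Sim (F : Set ι) (A F') (A F)

theorem Coh.mono {K : Set (L.Structure ℕ)} {A : Finset ι → Ordinal.{0} → PM L ι} {D D' : Set ι}
    (h : Coh K A D) (hD : D' ⊆ D) : Coh K A D' :=
  ⟨fun F hF => h.1 F (hF.trans hD), fun F F' hF hF' => h.2 F F' hF (hF'.trans hD)⟩

section
variable [∀ n, IsEmpty (L.Functions n)] [∀ n, Countable (L.Relations n)]

theorem step [DecidableEq ι] {K : Set (L.Structure ℕ)}
    (hK : MeasurableSet {c : Code L | toStr c ∈ K}) (hP : ¬ PerfK K) {D : Set ι}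
    (hD : D.Countable) {u : ι} (hu : u ∉ D) {A : Finset ι → Ordinal.{0} → PM L ι}
    (hA : Coh K A D) {F0 : Finset ι} (hF0 : (F0 : Set ι) ⊆ D) {b : Ordinal.{0}}
    (hb : b < Ordinal.omega 1) (y : ℕ) :
    ∃ B : Finset ι → Ordinal.{0} → PM L ι,
      Coh K (fun F => if u ∈ F then B F else A F) (insert u D) ∧
      E b (insert u (F0 : Set ι)) (B (insert u F0) b)
        ((A F0 (b + 1)).1, Function.update (A F0 (b + 1)).2 u y) := by
  classical
  -- the exhausting sequence of finite sets
  obtain ⟨f, hf⟩ := (Set.countable_iff_exists_injOn (s := D)).mp hD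
  have hfin : ∀ n : ℕ, {x ∈ D | f x < n}.Finite := by
    intro n
    refine Set.Finite.of_finite_image (f := f) ((Set.finite_lt_nat n).subset ?_)
      (hf.mono fun x hx => hx.1)
    rintro _ ⟨x, hx, rfl⟩
    exact hx.2
  let Fs : ℕ → Finset ι := fun n => F0 ∪ (hfin n).toFinset
  have hFs0 : Fs 0 = F0 := by
    ext x
    simp [Fs]
  have hFsD : ∀ n, (Fs n : Set ι) ⊆ D := by
    intro n x hx
    have hx' : x ∈ Fs n := hx
    rw [Finset.mem_union, Set.Finite.mem_toFinset] at hx'
    rcases hx' with h | h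
    · exact hF0 h
    · exact h.1
  have hFsm : ∀ n, Fs n ⊆ Fs (n + 1) := by
    intro n x hx
    rw [Finset.mem_union, Set.Finite.mem_toFinset] at hx ⊢
    rcases hx with h | h
    · exact Or.inl h
    · exact Or.inr ⟨h.1, Nat.lt_succ_of_lt h.2⟩
  have hFsm' : ∀ n m, n ≤ m → Fs n ⊆ Fs m := by
    intro n m hnm
    induction m, hnm using Nat.le_induction with
    | base => exact Finset.Subset.refl _
    | succ m _ ih => exact ih.trans (hFsm m)
  have hcov : ∀ F : Finset ι, (F : Set ι) ⊆ D → ∃ n, F ⊆ Fs n := by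
    intro F hF
    refine ⟨F.sup f + 1, fun x hx => ?_⟩
    rw [Finset.mem_union, Set.Finite.mem_toFinset]
    exact Or.inr ⟨hF hx, Nat.lt_succ_of_le (Finset.le_sup hx)⟩
  have huF : ∀ n, u ∉ (Fs n : Set ι) := fun n h => hu (hFsD n h)
  -- the sequence of threads
  obtain ⟨r0, hr0, hr0s, hr0E⟩ := realize hK hP F0.finite_toSet (fun h => hu (hF0 h))
    (hA.1 F0 hF0) hb y
  have hstep : ∀ (n : ℕ) (r : Ordinal.{0} → PM L ι), ∃ r' : Ordinal.{0} → PM L ι,
      Thread K (insert u (Fs n : Set ι)) r → Sim (Fs n : Set ι) r (A (Fs n)) →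
      (Thread K (insert u (Fs (n + 1) : Set ι)) r' ∧ Sim (insert u (Fs n : Set ι)) r' r ∧
        Sim (Fs (n + 1) : Set ι) r' (A (Fs (n + 1)))) := by
    intro n r
    by_cases h : Thread K (insert u (Fs n : Set ι)) r ∧ Sim (Fs n : Set ι) r (A (Fs n))
    · obtain ⟨t, ht⟩ := amalg hK hP (Fs (n + 1)).finite_toSet
        (Finset.coe_subset.mpr (hFsm n)) (huF (n + 1)) h.1 (hA.1 _ (hFsD (n + 1)))
        (h.2.trans (hA.2 _ _ (hFsm n) (hFsD (n + 1))).symm)
      exact ⟨t, fun _ _ => ht⟩
    · exact ⟨r, fun h1 h2 => absurd ⟨h1, h2⟩ h⟩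
  choose nx hnx using hstep
  let r : ℕ → Ordinal.{0} → PM L ι := fun n => n.rec r0 (fun n r => nx n r)
  have hr_zero : r 0 = r0 := rfl
  have hr_succ : ∀ n, r (n + 1) = nx n (r n) := fun _ => rfl
  have hr : ∀ n, Thread K (insert u (Fs n : Set ι)) (r n) ∧ Sim (Fs n : Set ι) (r n) (A (Fs n)) := by
    intro n
    induction n with
    | zero =>
      rw [hr_zero, hFs0]
      exact ⟨hr0, hr0s⟩
    | succ n ih =>
      rw [hr_succ]
      exact ⟨(hnx n (r n) ih.1 ih.2).1, (hnx n (r n) ih.1 ih.2).2.2⟩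
  have hrs : ∀ n, Sim (insert u (Fs n : Set ι)) (r (n + 1)) (r n) := by
    intro n
    rw [hr_succ]
    exact (hnx n (r n) (hr n).1 (hr n).2).2.1
  have hrs' : ∀ n m, n ≤ m → Sim (insert u (Fs n : Set ι)) (r m) (r n) := by
    intro n m hnm
    induction m, hnm using Nat.le_induction with
    | base => exact Sim.refl _ _
    | succ m hm ih =>
      exact ((hrs m).mono (insert_subset_insert (Finset.coe_subset.mpr (hFsm' n m hm)))).trans ih
  -- the index of a finite set
  have hidx : ∀ F : Finset ι, ∃ n, (F : Set ι) ⊆ insert u D → F.erase u ⊆ Fs n := by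
    intro F
    by_cases hF : (F : Set ι) ⊆ insert u D
    · obtain ⟨n, hn⟩ := hcov (F.erase u) (by
        intro x hx
        have hx' : x ∈ F.erase u := hx
        rw [Finset.mem_erase] at hx'
        exact (hF hx'.2).resolve_left hx'.1)
      exact ⟨n, fun _ => hn⟩
    · exact ⟨0, fun h => absurd h hF⟩
  let N : Finset ι → ℕ := fun F => Nat.find (hidx F)
  have hN : ∀ F : Finset ι, (F : Set ι) ⊆ insert u D → F.erase u ⊆ Fs (N F) :=
    fun F => Nat.find_spec (hidx F)
  have hNsub : ∀ F : Finset ι, (F : Set ι) ⊆ insert u D →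
      (F : Set ι) ⊆ insert u (Fs (N F) : Set ι) := by
    intro F hF x hx
    by_cases hxu : x = u
    · exact Or.inl hxu
    · exact Or.inr (hN F hF (Finset.mem_erase.mpr ⟨hxu, hx⟩))
  have hNmono : ∀ F F' : Finset ι, F ⊆ F' → (F' : Set ι) ⊆ insert u D → N F ≤ N F' := by
    intro F F' hF hF'
    refine Nat.find_min' (hidx F) fun _ => ?_
    exact (Finset.erase_subset_erase u hF).trans (hN F' hF')
  refine ⟨fun F => r (N F), ⟨fun F hF => ?_, fun F F' hF hF' => ?_⟩, ?_⟩
  · by_cases huF' : u ∈ F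
    · simp only [huF', if_true]
      exact (hr (N F)).1.mono (hNsub F hF)
    · simp only [huF', if_false]
      refine hA.1 F fun x hx => (hF hx).resolve_left ?_
      rintro rfl
      exact huF' hx
  · by_cases h1 : u ∈ F
    · have h2 : u ∈ F' := hF h1
      simp only [h1, h2, if_true]
      exact (hrs' _ _ (hNmono F F' hF hF')).mono
        (hNsub F ((Finset.coe_subset.mpr hF).trans hF'))
    · by_cases h2 : u ∈ F'
      · simp only [h1, h2, if_true, if_false]
        have h3 : F ⊆ Fs (N F') := by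
          intro x hx
          apply hN F' hF'
          rw [Finset.mem_erase]
          refine ⟨?_, hF hx⟩
          rintro rfl
          exact h1 hx
        exact ((hr (N F')).2.mono (Finset.coe_subset.mpr h3)).trans
          (hA.2 _ _ h3 (hFsD _))
      · simp only [h1, h2, if_false]
        refine hA.2 F F' hF fun x hx => (hF' hx).resolve_left ?_
        rintro rfl
        exact h2 hx
  · have hN0 : N (insert u F0) = 0 := by
      refine Nat.le_zero.mp (Nat.find_min' (hidx _) fun _ => ?_)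
      rw [hFs0]
      intro x hx
      rw [Finset.mem_erase, Finset.mem_insert] at hx
      exact hx.2.resolve_left hx.1
    simp only [hN0, hr_zero]
    exact hr0E

end

end Pool.Agent.Helper6.HM
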