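import Pool.Agent.Helper6.HM6Step
import Mathlib.SetTheory.Cardinal.Arithmetic

/-!
# The recursion of length omega one
-/

set_option autoImplicit false

namespace Pool.Agent.Helper6.HM

open Set Filter Topology MeasureTheory Str

universe u v w

variable {L : FirstOrder.Language.{0, 0}}

theorem exists_surj_tasks : ∃ e : Set.Iio (Ordinal.omega 1 : Ordinal.{0}) →
    (Finset (Set.Iio (Ordinal.omega 1 : Ordinal.{0})) × Set.Iio (Ordinal.omega 1 : Ordinal.{0}) × ℕ)
      × Set.Iio (Ordinal.omega 1 : Ordinal.{0}), Function.Surjective e := by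
  have hO : Cardinal.mk (Set.Iio (Ordinal.omega 1 : Ordinal.{0})) = Cardinal.aleph 1 := by
    rw [Cardinal.mk_Iio_ordinal, ← Cardinal.ord_aleph, Cardinal.card_ord]
    simp
  have hinf : Infinite (Set.Iio (Ordinal.omega 1 : Ordinal.{0})) := by
    rw [Cardinal.infinite_iff, hO]
    exact Cardinal.aleph0_le_aleph 1
  have hle : Cardinal.mk ((Finset (Set.Iio (Ordinal.omega 1 : Ordinal.{0})) ×
      Set.Iio (Ordinal.omega 1 : Ordinal.{0}) × ℕ) × Set.Iio (Ordinal.omega 1 : Ordinal.{0})) ≤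
      Cardinal.mk (Set.Iio (Ordinal.omega 1 : Ordinal.{0})) := by
    simp only [Cardinal.mk_prod, Cardinal.mk_finset_of_infinite, hO, Cardinal.lift_id,
      Cardinal.mk_nat, Cardinal.lift_aleph0, Cardinal.lift_aleph, Ordinal.lift_one]
    simp [Cardinal.aleph0_le_aleph, Cardinal.mul_eq_self]
  obtain ⟨g⟩ := Cardinal.le_def _ _ |>.mp hle
  have hne : Nonempty ((Finset (Set.Iio (Ordinal.omega 1 : Ordinal.{0})) ×
      Set.Iio (Ordinal.omega 1 : Ordinal.{0}) × ℕ) × Set.Iio (Ordinal.omega 1 : Ordinal.{0})) := by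
    obtain ⟨x⟩ : Nonempty (Set.Iio (Ordinal.omega 1 : Ordinal.{0})) := inferInstance
    exact ⟨((∅, x, 0), x)⟩
  exact ⟨Function.invFun g, Function.invFun_surjective g.injective⟩

theorem exists_bookkeeping : ∃ τ : Ordinal.{0} → Finset Ordinal.{0} × Ordinal.{0} × ℕ,
    ∀ F0 : Finset Ordinal.{0}, (F0 : Set Ordinal.{0}) ⊆ Set.Iio (Ordinal.omega 1) →
    ∀ b < Ordinal.omega 1, ∀ y, ∃ ξ < Ordinal.omega 1, (F0 : Set Ordinal.{0}) ⊆ Set.Iio ξ ∧
      τ ξ = (F0, b, y) := by
  classical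
  obtain ⟨e, he⟩ := exists_surj_tasks
  refine ⟨fun ξ => if h : ξ < Ordinal.omega 1 then
    ((e ⟨ξ, h⟩).1.1.map (Function.Embedding.subtype _), (e ⟨ξ, h⟩).1.2.1.1, (e ⟨ξ, h⟩).1.2.2)
    else (∅, 0, 0), ?_⟩
  intro F0 hF0 b hb y
  let F1 : Finset (Set.Iio (Ordinal.omega 1 : Ordinal.{0})) :=
    F0.subtype (fun x => x ∈ Set.Iio (Ordinal.omega 1 : Ordinal.{0}))
  have hF1 : F1.map (Function.Embedding.subtype _) = F0 := by
    rw [Finset.subtype_map_of_mem]
    intro x hx
    exact hF0 hx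
  let t : (Finset (Set.Iio (Ordinal.omega 1 : Ordinal.{0})) ×
      Set.Iio (Ordinal.omega 1 : Ordinal.{0}) × ℕ) := (F1, ⟨b, hb⟩, y)
  by_contra hcon
  push Not at hcon
  have hct : {ξ : Set.Iio (Ordinal.omega 1 : Ordinal.{0}) | (e ξ).1 = t}.Countable := by
    have h1 : (⋃ x ∈ F0, Set.Iic x).Countable := by
      refine (F0 : Set Ordinal.{0}).to_countable.biUnion fun x hx => ?_
      have := countable_iio (succ_lt (hF0 hx))
      refine Set.Countable.mono ?_ (Set.to_countable (Set.Iio (x + 1)))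
      intro z hz
      exact Order.lt_add_one_iff.mpr (Set.mem_Iic.mp hz)
    refine (h1.preimage_of_injOn (f := fun ξ : Set.Iio (Ordinal.omega 1 : Ordinal.{0}) => ξ.1)
      Subtype.val_injective.injOn).mono ?_
    intro ξ hξ
    have h2 := hcon ξ.1 ξ.2
    have h3 : ¬ (F0 : Set Ordinal.{0}) ⊆ Set.Iio ξ.1 := by
      intro hsub
      apply h2 hsub
      have hξ2 : ξ.1 < Ordinal.omega 1 := ξ.2
      have hξ' : e ⟨ξ.1, hξ2⟩ = e ξ := rfl
      have hξt : (e ξ).1 = t := hξ
      rw [dif_pos hξ2, hξ', hξt]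
      simp only [t, hF1]
    rw [Set.not_subset] at h3
    obtain ⟨x, hx, hxξ⟩ := h3
    simp only [mem_preimage, mem_iUnion, mem_Iic]
    exact ⟨x, hx, not_lt.mp hxξ⟩
  apply uncountable_iio
  have h4 : (univ : Set (Set.Iio (Ordinal.omega 1 : Ordinal.{0}))) ⊆
      (fun ξ => (e ξ).2) '' {ξ : Set.Iio (Ordinal.omega 1 : Ordinal.{0}) | (e ξ).1 = t} := by
    intro z _
    obtain ⟨ξ, hξ⟩ := he (t, z)
    exact ⟨ξ, by change (e ξ).1 = t; rw [hξ], by change (e ξ).2 = z; rw [hξ]⟩
  exact Set.countable_univ_iff.mp ((hct.image _).mono h4)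

/-- The system of threads defined by recursion from a step function. -/
noncomputable def sysG (t0 : Ordinal.{0} → PM L Ordinal.{0})
    (St : Ordinal.{0} → (Finset Ordinal.{0} → Ordinal.{0} → PM L Ordinal.{0}) →
      (Finset Ordinal.{0} → Ordinal.{0} → PM L Ordinal.{0})) (ξ : Ordinal.{0}) :
    Finset Ordinal.{0} → Ordinal.{0} → PM L Ordinal.{0} :=
  St ξ (fun F => if h : F.Nonempty then
    (if h2 : F.max' h < ξ then sysG t0 St (F.max' h) F else t0) else t0)
termination_by ξ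
decreasing_by exact h2

/-- The whole system. -/
noncomputable def sys (t0 : Ordinal.{0} → PM L Ordinal.{0})
    (St : Ordinal.{0} → (Finset Ordinal.{0} → Ordinal.{0} → PM L Ordinal.{0}) →
      (Finset Ordinal.{0} → Ordinal.{0} → PM L Ordinal.{0})) :
    Finset Ordinal.{0} → Ordinal.{0} → PM L Ordinal.{0} :=
  fun F => if h : F.Nonempty then sysG t0 St (F.max' h) F else t0

theorem Coh.congr {ι : Type u} {K : Set (L.Structure ℕ)}
    {A A' : Finset ι → Ordinal.{0} → PM L ι} {D : Set ι}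
    (h : Coh K A D) (hA : ∀ F : Finset ι, (F : Set ι) ⊆ D → A F = A' F) : Coh K A' D := by
  refine ⟨fun F hF => ?_, fun F F' hF hF' => ?_⟩
  · rw [← hA F hF]
    exact h.1 F hF
  · rw [← hA F' hF', ← hA F ((Finset.coe_subset.mpr hF).trans hF')]
    exact h.2 F F' hF hF'

section
variable [∀ n, IsEmpty (L.Functions n)] [∀ n, Countable (L.Relations n)]

theorem exists_system {K : Set (L.Structure ℕ)}
    (hK : MeasurableSet {c : Code L | toStr c ∈ K}) (hP : ¬ PerfK K)
    {t0 : Ordinal.{0} → PM L Ordinal.{0}} (ht0 : Thread K ∅ t0) :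
    ∃ th : Finset Ordinal.{0} → Ordinal.{0} → PM L Ordinal.{0},
      Coh K th (Set.Iio (Ordinal.omega 1)) ∧ th ∅ = t0 ∧
      ∀ F0 : Finset Ordinal.{0}, (F0 : Set Ordinal.{0}) ⊆ Set.Iio (Ordinal.omega 1) →
        ∀ b < Ordinal.omega 1, ∀ y, ∃ ξ < Ordinal.omega 1, ξ ∉ F0 ∧
          E b (insert ξ (F0 : Set Ordinal.{0})) (th (insert ξ F0) b)
            ((th F0 (b + 1)).1, Function.update (th F0 (b + 1)).2 ξ y) := by
  classical
  obtain ⟨τ, hτ⟩ := exists_bookkeeping
  have hSt : ∀ (ξ : Ordinal.{0}) (A : Finset Ordinal.{0} → Ordinal.{0} → PM L Ordinal.{0}),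
      ∃ B : Finset Ordinal.{0} → Ordinal.{0} → PM L Ordinal.{0},
        ξ < Ordinal.omega 1 → Coh K A (Set.Iio ξ) →
        (Coh K (fun F => if ξ ∈ F then B F else A F) (insert ξ (Set.Iio ξ)) ∧
          (((τ ξ).1 : Set Ordinal.{0}) ⊆ Set.Iio ξ → (τ ξ).2.1 < Ordinal.omega 1 →
          E (τ ξ).2.1 (insert ξ ((τ ξ).1 : Set Ordinal.{0})) (B (insert ξ (τ ξ).1) (τ ξ).2.1)
            ((A (τ ξ).1 ((τ ξ).2.1 + 1)).1,
              Function.update (A (τ ξ).1 ((τ ξ).2.1 + 1)).2 ξ (τ ξ).2.2))) := by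
    intro ξ A
    by_cases h : ξ < Ordinal.omega 1 ∧ Coh K A (Set.Iio ξ)
    · have hct : (Set.Iio ξ).Countable := countable_iio h.1
      by_cases h2 : ((τ ξ).1 : Set Ordinal.{0}) ⊆ Set.Iio ξ ∧ (τ ξ).2.1 < Ordinal.omega 1
      · obtain ⟨B, hB, hB'⟩ := step hK hP hct (u := ξ) (by simp) h.2 h2.1 h2.2 (τ ξ).2.2
        exact ⟨B, fun _ _ => ⟨hB, fun _ _ => hB'⟩⟩
      · obtain ⟨B, hB, hB'⟩ := step hK hP hct (u := ξ) (by simp) h.2 (F0 := ∅) (by simp)
          (b := 0) (Ordinal.omega_pos 1) 0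
        exact ⟨B, fun _ _ => ⟨hB, fun h3 h4 => absurd ⟨h3, h4⟩ h2⟩⟩
    · exact ⟨A, fun h1 h2 => absurd ⟨h1, h2⟩ h⟩
  choose St hSt using hSt
  have hcoh : ∀ ξ : Ordinal.{0}, ξ < Ordinal.omega 1 → Coh K (sys t0 St) (Set.Iic ξ) ∧
      (((τ ξ).1 : Set Ordinal.{0}) ⊆ Set.Iio ξ → (τ ξ).2.1 < Ordinal.omega 1 →
          E (τ ξ).2.1 (insert ξ ((τ ξ).1 : Set Ordinal.{0}))
            (sys t0 St (insert ξ (τ ξ).1) (τ ξ).2.1)
            ((sys t0 St (τ ξ).1 ((τ ξ).2.1 + 1)).1,
              Function.update (sys t0 St (τ ξ).1 ((τ ξ).2.1 + 1)).2 ξ (τ ξ).2.2)) := by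
    intro ξ
    induction ξ using WellFoundedLT.induction with
    | ind ξ ih =>
      intro hξ
      set A : Finset Ordinal.{0} → Ordinal.{0} → PM L Ordinal.{0} := fun F =>
        if h : F.Nonempty then
          (if h2 : F.max' h < ξ then sysG t0 St (F.max' h) F else t0) else t0 with hAdef
      have hG : sysG t0 St ξ = St ξ A := by
        rw [sysG]
      have hAeq : ∀ F : Finset Ordinal.{0}, (F : Set Ordinal.{0}) ⊆ Set.Iio ξ →
          A F = sys t0 St F := by
        intro F hF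
        by_cases h : F.Nonempty
        · have h2 : F.max' h < ξ := hF (F.max'_mem h)
          simp only [hAdef, sys, dif_pos h, dif_pos h2]
        · simp only [hAdef, sys, dif_neg h]
      have hcohA : Coh K (sys t0 St) (Set.Iio ξ) := by
        refine ⟨fun F hF => ?_, fun F F' hF hF' => ?_⟩
        · by_cases h : F.Nonempty
          · have h2 : F.max' h < ξ := hF (F.max'_mem h)
            exact (ih _ h2 (h2.trans hξ)).1.1 F fun x hx => F.le_max' x hx
          · rw [Finset.not_nonempty_iff_eq_empty] at h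
            subst h
            simpa [sys] using ht0
        · by_cases h : F'.Nonempty
          · have h2 : F'.max' h < ξ := hF' (F'.max'_mem h)
            exact (ih _ h2 (h2.trans hξ)).1.2 F F' hF fun x hx => F'.le_max' x hx
          · rw [Finset.not_nonempty_iff_eq_empty] at h
            subst h
            rw [Finset.subset_empty] at hF
            subst hF
            exact Sim.refl _ _
      have hcohA' : Coh K A (Set.Iio ξ) := hcohA.congr fun F hF => (hAeq F hF).symm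
      obtain ⟨h1, h2⟩ := hSt ξ A hξ hcohA'
      have hsysξ : ∀ F : Finset Ordinal.{0}, (F : Set Ordinal.{0}) ⊆ Set.Iic ξ → ξ ∈ F →
          sys t0 St F = St ξ A F := by
        intro F hF hξF
        have hne : F.Nonempty := ⟨ξ, hξF⟩
        have hmax : F.max' hne = ξ :=
          le_antisymm (hF (F.max'_mem hne)) (F.le_max' ξ hξF)
        simp only [sys, dif_pos hne, hmax, hG]
      refine ⟨?_, fun h3 h4 => ?_⟩
      · rw [show Set.Iic ξ = insert ξ (Set.Iio ξ) by
          rw [Set.Iio_insert]]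
        refine h1.congr fun F hF => ?_
        by_cases hξF : ξ ∈ F
        · simp only [hξF, if_true]
          rw [hsysξ F (by rwa [Set.Iio_insert] at hF) hξF]
        · simp only [hξF, if_false]
          refine hAeq F fun x hx => (hF hx).resolve_left ?_
          rintro rfl
          exact hξF hx
      · have h5 := h2 h3 h4
        rw [← hsysξ (insert ξ (τ ξ).1) (by
          intro x hx
          have hx' : x ∈ insert ξ (τ ξ).1 := hx
          rw [Finset.mem_insert] at hx'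
          rcases hx' with rfl | hx'
          · exact Set.mem_Iic.mpr le_rfl
          · exact Set.mem_Iic.mpr (Set.mem_Iio.mp (h3 hx')).le) (Finset.mem_insert_self _ _), hAeq _ h3] at h5
        exact h5
  refine ⟨sys t0 St, ⟨fun F hF => ?_, fun F F' hF hF' => ?_⟩, by simp [sys],
    fun F0 hF0 b hb y => ?_⟩
  · by_cases h : F.Nonempty
    · have h2 := hF (F.max'_mem h)
      exact (hcoh _ h2).1.1 F fun x hx => F.le_max' x hx
    · rw [Finset.not_nonempty_iff_eq_empty] at h
      subst h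
      simpa [sys] using ht0
  · by_cases h : F'.Nonempty
    · have h2 := hF' (F'.max'_mem h)
      exact (hcoh _ h2).1.2 F F' hF fun x hx => F'.le_max' x hx
    · rw [Finset.not_nonempty_iff_eq_empty] at h
      subst h
      rw [Finset.subset_empty] at hF
      subst hF
      exact Sim.refl _ _
  · obtain ⟨ξ, hξ, hξF, hτξ⟩ := hτ F0 hF0 b hb y
    have h1 := (hcoh ξ hξ).2
    rw [hτξ] at h1
    exact ⟨ξ, hξ, fun hmem => lt_irrefl _ (Set.mem_Iio.mp (hξF hmem)), h1 hξF hb⟩

end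

end Pool.Agent.Helper6.HM
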