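import Pool.Agent.Helper6.HM7Rec

/-!
# The model defined by a saturated system of threads
-/

set_option autoImplicit false

namespace Pool.Agent.Helper6.HM

open Set Filter Topology MeasureTheory Str

universe u v w

variable {L : FirstOrder.Language.{0, 0}}

/-- The index set of the construction. -/
abbrev Om : Type 1 := Set.Iio (Ordinal.omega 1 : Ordinal.{0})

section
variable {K : Set (L.Structure ℕ)} {th : Finset Ordinal.{0} → Ordinal.{0} → PM L Ordinal.{0}}

/-- Equality of two elements of the construction. -/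
def eqv (th : Finset Ordinal.{0} → Ordinal.{0} → PM L Ordinal.{0}) (u v : Om) : Prop :=
  (th {u.1, v.1} 0).2 u.1 = (th {u.1, v.1} 0).2 v.1

theorem E.eq_iff {ι : Type u} {g : Ordinal.{0}} {F : Set ι} {p q : PM L ι} (h : E g F p q)
    {i j : ι} (hi : i ∈ F) (hj : j ∈ F) : p.2 i = p.2 j ↔ q.2 i = q.2 j :=
  h.atEq.1 _ ⟨i, hi, rfl⟩ _ ⟨j, hj, rfl⟩

theorem E.rel_iff {ι : Type u} {g : Ordinal.{0}} {F : Set ι} {p q : PM L ι} (h : E g F p q)
    {n : ℕ} (R : L.Relations n) {f : Fin n → ι} (hf : ∀ i, f i ∈ F) :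
    p.1.RelMap R (fun i => p.2 (f i)) ↔ q.1.RelMap R (fun i => q.2 (f i)) :=
  h.atEq.2 n R (fun i => (p.2 (f i), q.2 (f i))) fun i => ⟨f i, hf i, rfl⟩

theorem thE (hth : Coh K th (Set.Iio (Ordinal.omega 1))) {F F' : Finset Ordinal.{0}}
    (hF : F ⊆ F') (hF' : (F' : Set Ordinal.{0}) ⊆ Set.Iio (Ordinal.omega 1)) {g g' g'' : Ordinal.{0}}
    (hg : g ≤ g') (hg' : g' < Ordinal.omega 1) (hgg : g ≤ g'') (hg'' : g'' < Ordinal.omega 1) :
    E g (F : Set Ordinal.{0}) (th F' g') (th F g'') := by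
  have h1 := (hth.1 F' hF').2 g g' hg hg'
  have h2 := (hth.1 F ((Finset.coe_subset.mpr hF).trans hF')).2 g g'' hgg hg''
  have h3 := hth.2 F F' hF hF' g (lt_of_le_of_lt hg hg')
  exact ((h1.mono (Finset.coe_subset.mpr hF)).symm.trans h3).trans h2

theorem eqv_iff (hth : Coh K th (Set.Iio (Ordinal.omega 1))) {F : Finset Ordinal.{0}}
    (hF : (F : Set Ordinal.{0}) ⊆ Set.Iio (Ordinal.omega 1)) {g : Ordinal.{0}}
    (hg : g < Ordinal.omega 1) {u v : Om} (hu : u.1 ∈ F) (hv : v.1 ∈ F) :
    eqv th u v ↔ (th F g).2 u.1 = (th F g).2 v.1 := by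
  have h1 : ({u.1, v.1} : Finset Ordinal.{0}) ⊆ F := by
    intro x hx
    rw [Finset.mem_insert, Finset.mem_singleton] at hx
    rcases hx with rfl | rfl
    · exact hu
    · exact hv
  have h2 := thE hth h1 hF (zero_le (a := g)) hg (le_refl 0) (lt_of_le_of_lt (zero_le (a := g)) hg)
  exact (h2.eq_iff (i := u.1) (j := v.1) (by simp) (by simp)).symm

theorem coe_subset_Om (F : Finset Om) :
    ((F.map (Function.Embedding.subtype _) : Finset Ordinal.{0}) : Set Ordinal.{0}) ⊆
      Set.Iio (Ordinal.omega 1) := by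
  intro x hx
  rw [Finset.mem_coe, Finset.mem_map] at hx
  obtain ⟨y, -, rfl⟩ := hx
  exact y.2

theorem exists_common (a : List Om) : ∃ F : Finset Ordinal.{0},
    (F : Set Ordinal.{0}) ⊆ Set.Iio (Ordinal.omega 1) ∧ ∀ u ∈ a, u.1 ∈ F := by
  classical
  refine ⟨a.toFinset.map (Function.Embedding.subtype _), coe_subset_Om _, fun u hu => ?_⟩
  rw [Finset.mem_map]
  exact ⟨u, List.mem_toFinset.mpr hu, rfl⟩

/-- The setoid of the construction. -/
def setd (hth : Coh K th (Set.Iio (Ordinal.omega 1))) : Setoid Om where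
  r := eqv th
  iseqv := by
    refine ⟨fun u => rfl, ?_, ?_⟩
    · intro u v huv
      obtain ⟨F, hF, hF2⟩ := exists_common [u, v]
      rw [eqv_iff hth hF (Ordinal.omega_pos 1) (hF2 u (by simp)) (hF2 v (by simp))] at huv
      rw [eqv_iff hth hF (Ordinal.omega_pos 1) (hF2 v (by simp)) (hF2 u (by simp))]
      exact huv.symm
    · intro u v w huv hvw
      obtain ⟨F, hF, hF2⟩ := exists_common [u, v, w]
      rw [eqv_iff hth hF (Ordinal.omega_pos 1) (hF2 u (by simp)) (hF2 v (by simp))] at huv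
      rw [eqv_iff hth hF (Ordinal.omega_pos 1) (hF2 v (by simp)) (hF2 w (by simp))] at hvw
      rw [eqv_iff hth hF (Ordinal.omega_pos 1) (hF2 u (by simp)) (hF2 w (by simp))]
      exact huv.trans hvw

/-- The finite set of indices of representatives of a tuple. -/
noncomputable def outs (hth : Coh K th (Set.Iio (Ordinal.omega 1))) {n : ℕ}
    (v : Fin n → Quotient (setd hth)) : Finset Ordinal.{0} :=
  (Finset.univ.image fun i => (v i).out).map (Function.Embedding.subtype _)

/-- The model. -/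
@[instance_reducible]
noncomputable def model [∀ n, IsEmpty (L.Functions n)]
    (hth : Coh K th (Set.Iio (Ordinal.omega 1))) : L.Structure (Quotient (setd hth)) where
  funMap := fun f _ => isEmptyElim f
  RelMap := fun {_} R v => (th (outs hth v) 0).1.RelMap R
    (fun i => (th (outs hth v) 0).2 (v i).out.1)

variable [∀ n, IsEmpty (L.Functions n)]

theorem model_rel (hth : Coh K th (Set.Iio (Ordinal.omega 1))) {F : Finset Ordinal.{0}}
    (hF : (F : Set Ordinal.{0}) ⊆ Set.Iio (Ordinal.omega 1)) {g : Ordinal.{0}}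
    (hg : g < Ordinal.omega 1) {n : ℕ} (R : L.Relations n) {w : Fin n → Om}
    (hw : ∀ i, (w i).1 ∈ F) :
    (model hth).RelMap R (fun i => Quotient.mk (setd hth) (w i)) ↔
      (th F g).1.RelMap R (fun i => (th F g).2 (w i).1) := by
  classical
  set v : Fin n → Quotient (setd hth) := fun i => Quotient.mk (setd hth) (w i) with hv
  change (th (outs hth v) 0).1.RelMap R (fun i => (th (outs hth v) 0).2 (v i).out.1) ↔ _
  set F' := F ∪ outs hth v with hF'def
  have hF' : (F' : Set Ordinal.{0}) ⊆ Set.Iio (Ordinal.omega 1) := by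
    intro x hx
    rw [Finset.mem_coe, Finset.mem_union] at hx
    rcases hx with hx | hx
    · exact hF hx
    · exact coe_subset_Om _ hx
  have hout : ∀ i, ((v i).out).1 ∈ outs hth v := by
    intro i
    rw [outs, Finset.mem_map]
    exact ⟨(v i).out, Finset.mem_image.mpr ⟨i, Finset.mem_univ _, rfl⟩, rfl⟩
  have h1 := thE hth (F := outs hth v) (F' := F') Finset.subset_union_right hF' (le_refl 0)
    (Ordinal.omega_pos 1) (le_refl 0) (Ordinal.omega_pos 1)
  have h2 := thE hth (F := F) (F' := F') Finset.subset_union_left hF' (le_refl 0)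
    (Ordinal.omega_pos 1) (zero_le (a := g)) hg
  rw [← h1.rel_iff R (f := fun i => ((v i).out).1) hout,
    ← h2.rel_iff R (f := fun i => (w i).1) hw]
  have h3 : ∀ i, (th F' 0).2 ((v i).out).1 = (th F' 0).2 (w i).1 := by
    intro i
    rw [← eqv_iff hth hF' (Ordinal.omega_pos 1) (Finset.mem_union_right _ (hout i))
      (Finset.mem_union_left _ (hw i))]
    exact Quotient.exact (Quotient.out_eq (v i))
  simp only [h3]

/-- The pairs given by the quotient map and a pointed model. -/
def qprs (hth : Coh K th (Set.Iio (Ordinal.omega 1))) (F : Set Ordinal.{0})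
    (p : PM L Ordinal.{0}) : Set (Quotient (setd hth) × ℕ) :=
  {x | ∃ u : Om, u.1 ∈ F ∧ x = (Quotient.mk (setd hth) u, p.2 u.1)}

theorem model_bf (hth : Coh K th (Set.Iio (Ordinal.omega 1)))
    (htask : ∀ F0 : Finset Ordinal.{0}, (F0 : Set Ordinal.{0}) ⊆ Set.Iio (Ordinal.omega 1) →
        ∀ b < Ordinal.omega 1, ∀ y, ∃ ξ < Ordinal.omega 1, ξ ∉ F0 ∧
          E b (insert ξ (F0 : Set Ordinal.{0})) (th (insert ξ F0) b)
            ((th F0 (b + 1)).1, Function.update (th F0 (b + 1)).2 ξ y))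
    {g : Ordinal.{0}} (hg : g < Ordinal.omega 1) {F : Finset Ordinal.{0}}
    (hF : (F : Set Ordinal.{0}) ⊆ Set.Iio (Ordinal.omega 1)) {g' : Ordinal.{0}} (hgg : g ≤ g')
    (hg' : g' < Ordinal.omega 1) :
    BF (model hth) (th F g').1 g (qprs hth F (th F g')) := by
  classical
  induction g using WellFoundedLT.induction generalizing F g' with
  | ind g ih =>
    rw [BF_iff]
    refine ⟨⟨?_, ?_⟩, fun b hb => ⟨fun x => ?_, fun y => ?_⟩⟩
    · rintro _ ⟨u, hu, rfl⟩ _ ⟨v, hv, rfl⟩
      rw [← eqv_iff hth hF hg' hu hv]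
      exact ⟨fun h => Quotient.exact h, fun h => Quotient.sound h⟩
    · intro n R v hv
      choose w hw hw' using hv
      have h1 : v = fun i => (Quotient.mk (setd hth) (w i), (th F g').2 (w i).1) := funext hw'
      rw [h1]
      exact model_rel hth hF hg' R hw
    · obtain ⟨u, rfl⟩ := Quotient.exists_rep x
      by_cases huF : u.1 ∈ F
      · refine ⟨(th F g').2 u.1, ?_⟩
        have h1 := ih b hb (hb.trans hg) hF (hb.le.trans hgg) hg'
        rwa [insert_eq_of_mem]
        exact ⟨u, huF, rfl⟩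
      · have hF' : ((insert u.1 F : Finset Ordinal.{0}) : Set Ordinal.{0}) ⊆
            Set.Iio (Ordinal.omega 1) := by
          rw [Finset.coe_insert]
          exact insert_subset u.2 hF
        have h1 := thE hth (F := F) (F' := insert u.1 F) (Finset.subset_insert _ _) hF' hgg hg'
          hgg hg'
        obtain ⟨z, hz⟩ := h1.extend hb (i := u.1) huF _ rfl
        refine ⟨z, ?_⟩
        have h2 := ih b hb (hb.trans hg) hF' (hb.le.trans hgg) hg'
        refine (h2.comp hz).mono ?_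
        rintro p (rfl | ⟨v, hv, rfl⟩)
        · refine ⟨(th (insert u.1 F) g').2 u.1, ⟨u, by simp, rfl⟩, ⟨u.1, mem_insert _ _, ?_⟩⟩
          simp
        · refine ⟨(th (insert u.1 F) g').2 v.1, ⟨v, by simp [Finset.mem_coe.mp hv], rfl⟩,
            ⟨v.1, mem_insert_of_mem _ hv, ?_⟩⟩
          simp only [Prod.mk.injEq, true_and]
          rw [Function.update_of_ne]
          intro heq
          exact huF (heq ▸ hv)
    · have hbω := hb.trans hg
      have h1 : E (b + 1) (F : Set Ordinal.{0}) (th F g') (th F (b + 1)) :=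
        thE hth (Finset.Subset.refl F) hF ((Order.add_one_le_of_lt hb).trans hgg) hg' le_rfl
          (succ_lt hbω)
      obtain ⟨z, hz⟩ := BF.forth h1 (lt_add_one b) y
      obtain ⟨ξ, hξ, hξF, hE⟩ := htask F hF b hbω z
      refine ⟨Quotient.mk (setd hth) ⟨ξ, hξ⟩, ?_⟩
      have hF' : ((insert ξ F : Finset Ordinal.{0}) : Set Ordinal.{0}) ⊆
          Set.Iio (Ordinal.omega 1) := by
        rw [Finset.coe_insert]
        exact insert_subset hξ hF
      have h2 := ih b hb hbω hF' (le_refl b) hbω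
      refine ((h2.comp hE).comp hz.symm).mono ?_
      rintro p (rfl | ⟨v, hv, rfl⟩)
      · refine ⟨z, ⟨(th (insert ξ F) b).2 ξ, ⟨⟨ξ, hξ⟩, by simp, rfl⟩, ⟨ξ, mem_insert _ _, ?_⟩⟩,
          ⟨(y, z), mem_insert _ _, rfl⟩⟩
        simp
      · refine ⟨(th F (b + 1)).2 v.1, ⟨(th (insert ξ F) b).2 v.1,
          ⟨v, by simp [Finset.mem_coe.mp hv], rfl⟩, ⟨v.1, mem_insert_of_mem _ hv, ?_⟩⟩,
          ⟨((th F g').2 v.1, (th F (b + 1)).2 v.1), mem_insert_of_mem _ ⟨v.1, hv, rfl⟩, rfl⟩⟩
        simp only [Prod.mk.injEq, true_and]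
        rw [Function.update_of_ne]
        intro heq
        exact hξF (heq ▸ hv)

end

end Pool.Agent.Helper6.HM
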