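import Pool.Agent.Helper6.IV2CodeC

/-!
# Relations of high arity
-/

set_option autoImplicit false

namespace Pool.Agent.Helper6

open Set Str

namespace FormW

variable {L : FirstOrder.Language.{0, 0}} [∀ n, IsEmpty (L.Functions n)]

/-- Evaluation of a tuple, padded by zeros. -/
def ev {n : ℕ} (w : Fin n → ℕ) (i : ℕ) : ℕ := if h : i < n then w ⟨i, h⟩ else 0

/-- The tuple is `(a, b, 0, 0, ...)` with `(a, b)` in the coding set. -/
def Cod (x : ℕ → Bool) {n : ℕ} (w : Fin n → ℕ) : Prop :=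
  (∀ i, 2 ≤ i → ev w i = 0) ∧
    (ev w 0 % 2 = 1 ∧ ev w 1 % 2 = 0 ∧ 2 ≤ ev w 1 ∧ ev w 1 ≤ ev w 0 + 1) ∧ x (ev w 0 / 2) = true

/-- The tuple takes at most two values. -/
def Few {n : ℕ} (w : Fin n → ℕ) : Prop := ∃ a b, ∀ k, w k = a ∨ w k = b

/-- Structures coding a real in a relation of arity at least three. -/
@[reducible] def arStr (S : L.Structure ℕ) (R₀ : Σ n, L.Relations n) (x : ℕ → Bool) :
    L.Structure ℕ where
  funMap := fun f _ => isEmptyElim f
  RelMap := fun {n} R w => (Few w ∧ S.RelMap R w) ∨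
    (¬ Few w ∧ (⟨n, R⟩ : Σ n, L.Relations n) = R₀ ∧ Cod x w)

theorem sat_arStr (S : L.Structure ℕ) (R₀ : Σ n, L.Relations n) (x : ℕ → Bool) (φ : FormW L) :
    ∀ s : Bool → ℕ, φ.Sat (arStr S R₀ x) s ↔ φ.Sat S s := by
  induction φ with
  | rel R v =>
    intro s
    have h : Few (fun k => s (v k)) := by
      refine ⟨s false, s true, fun k => ?_⟩
      show s (v k) = s false ∨ s (v k) = s true
      cases v k
      · exact Or.inl rfl
      · exact Or.inr rfl
    show (Few (fun k => s (v k)) ∧ S.RelMap R (fun k => s (v k))) ∨ _ ↔ _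
    constructor
    · rintro (h' | h')
      · exact h'.2
      · exact absurd h h'.1
    · intro h'; exact Or.inl ⟨h, h'⟩
  | eq i j => intro s; exact Iff.rfl
  | neg φ ih => intro s; exact not_congr (ih s)
  | conj f ih => intro s; exact forall_congr' fun k => ih k s
  | ex i φ ih => intro s; exact exists_congr fun a => ih _

/-- The tuple `(a, b, c, c, ...)`. -/
def tup (n a b c : ℕ) : Fin n → ℕ := fun k => if k.1 = 0 then a else if k.1 = 1 then b else c

theorem comp_tup (e : ℕ → ℕ) (n a b c : ℕ) : e ∘ tup n a b c = tup n (e a) (e b) (e c) := by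
  funext k
  simp only [tup, Function.comp]
  split_ifs <;> rfl

theorem not_few_tup {n a b c : ℕ} (hn : 3 ≤ n) (h1 : a ≠ b) (h2 : a ≠ c) (h3 : b ≠ c) :
    ¬ Few (tup n a b c) := by
  rintro ⟨p, q, h⟩
  have k0 := h ⟨0, by omega⟩
  have k1 := h ⟨1, by omega⟩
  have k2 := h ⟨2, by omega⟩
  simp only [tup] at k0 k1 k2
  simp at k0 k1 k2
  omega

theorem cod_tup {x : ℕ → Bool} {n a b c : ℕ} (hn : 3 ≤ n) :
    Cod x (tup n a b c) ↔ c = 0 ∧ (a % 2 = 1 ∧ b % 2 = 0 ∧ 2 ≤ b ∧ b ≤ a + 1) ∧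
      x (a / 2) = true := by
  have e0 : ev (tup n a b c) 0 = a := by
    have : 0 < n := by omega
    simp [ev, tup, this]
  have e1 : ev (tup n a b c) 1 = b := by
    have : 1 < n := by omega
    simp [ev, tup, this]
  have e2 : (∀ i, 2 ≤ i → ev (tup n a b c) i = 0) ↔ c = 0 := by
    constructor
    · intro h
      have := h 2 le_rfl
      have h2 : 2 < n := by omega
      simpa [ev, tup, h2] using this
    · rintro rfl i hi
      have h0 : i ≠ 0 := by omega
      have h1 : i ≠ 1 := by omega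
      simp [ev, tup, h0, h1]
  rw [Cod, e0, e1, e2]

theorem perfK_of_arity {K : Set (L.Structure ℕ)} {φ : FormW L}
    (hK : ∀ S, S ∈ K ↔ φ.Holds S) {S : L.Structure ℕ} (hS : S ∈ K)
    {n₀ : ℕ} (hn : 3 ≤ n₀) (R₀ : L.Relations n₀) : PerfK K := by
  let N : (ℕ → Bool) → L.Structure ℕ := fun x => arStr S ⟨n₀, R₀⟩ x
  have hmod : ∀ x, ∀ S' : L.Structure ℕ, Iso (N x) S' → S' ∈ K := by
    rintro x S' ⟨e, he⟩
    rw [hK]
    exact holds_iso he fun s => (sat_arStr S ⟨n₀, R₀⟩ x φ s).mpr ((hK S).mp hS s)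
  have hconst : ∀ P : Prop, IsClopen {x : ℕ → Bool | P} := by
    intro P
    by_cases h : P <;> simp [h, isClopen_univ, isClopen_empty]
  have hcl : ∀ (n : ℕ) (R : L.Relations n) (w : Fin n → ℕ), IsClopen {x | (N x).RelMap R w} := by
    intro n R w
    refine (hconst _).union ((hconst _).inter ((hconst _).inter ((hconst _).inter
      ((hconst _).inter ?_))))
    exact (isClopen_discrete {b : Bool | b = true}).preimage
      (continuous_apply (A := fun _ : ℕ => Bool) (ev w 0 / 2))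
  have hset : ∀ x a c, {b | (a ≠ b ∧ a ≠ c ∧ b ≠ c) ∧ (N x).RelMap R₀ (tup n₀ a b c)} =
      {b | c = 0 ∧ (a % 2 = 1 ∧ b % 2 = 0 ∧ 2 ≤ b ∧ b ≤ a + 1) ∧ x (a / 2) = true} := by
    intro x a c
    ext b
    simp only [mem_ofPred_eq]
    constructor
    · rintro ⟨⟨h1, h2, h3⟩, h | h⟩
      · exact absurd h.1 (not_few_tup hn h1 h2 h3)
      · exact (cod_tup hn).mp h.2.2
    · intro h
      have h' := h
      obtain ⟨rfl, ⟨h1, h2, h3, h4⟩, h5⟩ := h
      refine ⟨⟨by omega, by omega, by omega⟩, Or.inr ⟨?_, rfl, (cod_tup hn).mpr h'⟩⟩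
      exact not_few_tup hn (by omega) (by omega) (by omega)
  have hcard : ∀ m, {b | (2 * m + 1) % 2 = 1 ∧ b % 2 = 0 ∧ 2 ≤ b ∧ b ≤ 2 * m + 1 + 1}.ncard =
      m + 1 := by
    intro m
    have : {b | (2 * m + 1) % 2 = 1 ∧ b % 2 = 0 ∧ 2 ≤ b ∧ b ≤ 2 * m + 1 + 1} =
        (fun j => 2 * j + 2) '' (Finset.range (m + 1) : Set ℕ) := by
      ext b
      simp only [mem_ofPred_eq, Finset.coe_range, mem_image, mem_Iio]
      constructor
      · rintro ⟨_, h1, h2, h3⟩
        exact ⟨(b - 2) / 2, by omega, by omega⟩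
      · rintro ⟨j, hj, rfl⟩
        omega
    rw [this, Set.ncard_image_of_injective _ (by intro i j h; simp at h; omega),
      Set.ncard_coe_finset, Finset.card_range]
  have hdec : ∀ x m, x m = true ↔
      ∃ a c, {b | (a ≠ b ∧ a ≠ c ∧ b ≠ c) ∧ (N x).RelMap R₀ (tup n₀ a b c)}.ncard = m + 1 := by
    intro x m
    simp only [hset]
    constructor
    · intro hx
      refine ⟨2 * m + 1, 0, ?_⟩
      have e : (2 * m + 1) / 2 = m := by omega
      simp only [e, hx, and_true, true_and]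
      exact hcard m
    · rintro ⟨a, c, h⟩
      have hne : {b | c = 0 ∧ (a % 2 = 1 ∧ b % 2 = 0 ∧ 2 ≤ b ∧ b ≤ a + 1) ∧
          x (a / 2) = true}.Nonempty := by
        apply Set.nonempty_of_ncard_ne_zero
        omega
      obtain ⟨b, rfl, ⟨h1, h2, h3, h4⟩, h5⟩ := hne
      have ha : a = 2 * (a / 2) + 1 := by omega
      simp only [h5, and_true, true_and] at h
      rw [ha, hcard] at h
      have : a / 2 = m := by omega
      rw [← this]; exact h5
  refine perfK_of_family N hmod hcl ?_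
  rintro x y ⟨e, he⟩
  have key : ∀ m, (∃ a c, {b | (a ≠ b ∧ a ≠ c ∧ b ≠ c) ∧
      (N x).RelMap R₀ (tup n₀ a b c)}.ncard = m + 1) ↔
      (∃ a c, {b | (a ≠ b ∧ a ≠ c ∧ b ≠ c) ∧ (N y).RelMap R₀ (tup n₀ a b c)}.ncard = m + 1) := by
    intro m
    refine Iff.trans ?_ (e.exists_congr_right (q := fun a => ∃ c, {b | (a ≠ b ∧ a ≠ c ∧ b ≠ c) ∧
      (N y).RelMap R₀ (tup n₀ a b c)}.ncard = m + 1))
    refine exists_congr fun a => ?_
    refine Iff.trans ?_ (e.exists_congr_right (q := fun c => {b | (e a ≠ b ∧ e a ≠ c ∧ b ≠ c) ∧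
      (N y).RelMap R₀ (tup n₀ (e a) b c)}.ncard = m + 1))
    refine exists_congr fun c => ?_
    have h1 : {b | (e a ≠ b ∧ e a ≠ e c ∧ b ≠ e c) ∧ (N y).RelMap R₀ (tup n₀ (e a) b (e c))} =
        e '' {b | (a ≠ b ∧ a ≠ c ∧ b ≠ c) ∧ (N x).RelMap R₀ (tup n₀ a b c)} := by
      ext b
      obtain ⟨b, rfl⟩ := e.surjective b
      have h2 := he n₀ R₀ (tup n₀ a b c)
      rw [comp_tup] at h2
      simp only [mem_ofPred_eq, mem_image, EmbeddingLike.apply_eq_iff_eq, exists_eq_right, ne_eq,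
        ← h2]
    rw [h1, Set.ncard_image_of_injective _ e.injective]
  funext i
  have := key i
  rw [← hdec, ← hdec] at this
  exact Bool.eq_iff_iff.mpr this

end FormW

end Pool.Agent.Helper6
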