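import Pool.Agent.Helper6.IV2Def
import Pool.Agent.Helper6.StructTools

/-!
# Two-variable types and the covering lemma
-/

set_option autoImplicit false

namespace Pool.Agent.Helper6

open Set Str

namespace FormW

variable {L : FirstOrder.Language.{0, 0}} {M N β : Type}

/-- The two-variable 1-type of `a` with respect to the set of formulas `F`. -/
def tp (F : Set (FormW L)) (S : L.Structure M) (a : M) : Set (FormW L) :=
  {φ | φ ∈ F ∧ φ.Sat S (fun _ => a)}

theorem mem_tp {F : Set (FormW L)} {S : L.Structure M} {a : M} {φ : FormW L} :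
    φ ∈ tp F S a ↔ φ ∈ F ∧ φ.Sat S (fun _ => a) := Iff.rfl

theorem sat_iso {S : L.Structure M} {S' : L.Structure N} {e : M ≃ N} (h : RelIso S S' e)
    (φ : FormW L) : ∀ s : Bool → M, φ.Sat S s ↔ φ.Sat S' (e ∘ s) := by
  induction φ with
  | rel R v => intro s; exact h _ R _
  | eq i j => intro s; simp [Sat]
  | neg φ ih => intro s; simp only [Sat, ih s]
  | conj f ih => intro s; exact forall_congr' fun k => ih k s
  | ex i φ ih =>
    intro s
    simp only [Sat]
    constructor
    · rintro ⟨a, ha⟩
      refine ⟨e a, ?_⟩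
      rw [← Function.comp_update]
      exact (ih _).mp ha
    · rintro ⟨b, hb⟩
      refine ⟨e.symm b, ?_⟩
      rw [ih, Function.comp_update]
      simpa using hb

theorem holds_iso {S : L.Structure M} {S' : L.Structure N} {e : M ≃ N}
    (h : RelIso S S' e) {φ : FormW L} (hφ : φ.Holds S) : φ.Holds S' := by
  intro s
  have := (sat_iso h φ (e.symm ∘ s)).mp (hφ _)
  have e1 : e ∘ (e.symm ∘ s) = s := by ext k; simp
  rwa [e1] at this

theorem tp_iso {F : Set (FormW L)} {S : L.Structure M} {S' : L.Structure N} {e : M ≃ N}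
    (h : RelIso S S' e) (a : M) : tp F S' (e a) = tp F S a := by
  ext φ
  rw [mem_tp, mem_tp, sat_iso h]
  rfl

/-- Assignment with value `w` at `i` and `w'` at the other variable. -/
def asg (i : Bool) (w w' : M) : Bool → M := fun k => if k = i then w else w'

theorem update_eq_asg (s : Bool → M) (i : Bool) (w : M) :
    Function.update s i w = asg i w (s (!i)) := by
  funext k
  by_cases h : k = i
  · subst h; simp [asg]
  · have : k = !i := by cases k <;> cases i <;> simp_all
    subst this
    simp [asg]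

theorem asg_self (i : Bool) (w : M) : asg i w w = fun _ => w := by
  funext k; simp [asg]

theorem bool_eq_not {k i : Bool} (h : k ≠ i) : k = !i := by
  cases k <;> cases i <;> simp_all

theorem asg_ne {i : Bool} {w w' : M} (h : w ≠ w') : asg i w w' false ≠ asg i w w' true := by
  cases i
  · exact h
  · exact h.symm

@[simp] theorem asg_same (i : Bool) (w w' : M) : asg i w w' i = w := by simp [asg]

@[simp] theorem asg_not (i : Bool) (w w' : M) : asg i w w' (!i) = w' := by simp [asg]

theorem bool_cases' (k i : Bool) : k = i ∨ k = !i := by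
  by_cases hk : k = i
  · exact Or.inl hk
  · exact Or.inr (bool_eq_not hk)

theorem sat_ex {S : L.Structure M} {i : Bool} {φ : FormW L} {s : Bool → M} :
    (ex i φ).Sat S s ↔ ∃ a, φ.Sat S (asg i a (s (!i))) := by
  simp only [Sat, update_eq_asg]

/-- Truth of the binary relation symbols on an ordered pair. -/
def BM (S : L.Structure M) (a b : M) (R : L.Relations 2) : Prop := S.RelMap R ![a, b]

theorem BM_iso {S : L.Structure M} {S' : L.Structure N} {e : M ≃ N}
    (h : RelIso S S' e) (a b : M) (R : L.Relations 2) : BM S' (e a) (e b) R ↔ BM S a b R := by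
  rw [BM, BM, h 2 R]
  have : e ∘ ![a, b] = ![e a, e b] := by
    funext k; fin_cases k <;> rfl
  rw [this]

theorem BM_iso' {S : L.Structure M} {S' : L.Structure N} {e : M ≃ N}
    (h : RelIso S S' e) (a b : M) : BM S' (e a) (e b) = BM S a b := by
  funext R
  exact propext (BM_iso h a b R)

/-- `(t, t')` are the truth values of the binary relations on two distinct points of types `p`
and `q` in some member of `K`. -/
def Rz (F : Set (FormW L)) (K : Set (L.Structure ℕ)) (p q : Set (FormW L))
    (t t' : L.Relations 2 → Prop) : Prop :=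
  ∃ S ∈ K, ∃ a b : ℕ, a ≠ b ∧ tp F S a = p ∧ tp F S b = q ∧ BM S a b = t ∧ BM S b a = t'

theorem Rz.swap {F : Set (FormW L)} {K : Set (L.Structure ℕ)} {p q : Set (FormW L)}
    {t t' : L.Relations 2 → Prop} (h : Rz F K p q t t') : Rz F K q p t' t := by
  obtain ⟨S, hS, a, b, h1, h2, h3, h4, h5⟩ := h
  exact ⟨S, hS, b, a, h1.symm, h3, h2, h5, h4⟩

theorem rz_self {F : Set (FormW L)} {K : Set (L.Structure ℕ)} {S : L.Structure ℕ} (hS : S ∈ K)
    {a b : ℕ} (h : a ≠ b) : Rz F K (tp F S a) (tp F S b) (BM S a b) (BM S b a) :=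
  ⟨S, hS, a, b, h, rfl, rfl, rfl, rfl⟩

/-- Relations of the structure built over `M` along `π` with prescribed binary relations. -/
def buildRel (S : L.Structure M) (π : β → M) (B : β → β → L.Relations 2 → Prop) :
    (n : ℕ) → L.Relations n → (Fin n → β) → Prop
  | 2, R, w => (w 0 = w 1 ∧ S.RelMap R (π ∘ w)) ∨ (w 0 ≠ w 1 ∧ B (w 0) (w 1) R)
  | 0, R, w => S.RelMap R (π ∘ w)
  | 1, R, w => S.RelMap R (π ∘ w)
  | _ + 3, R, w => S.RelMap R (π ∘ w)

/-- The structure built over `M` along `π` with prescribed binary relations. -/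
@[reducible] def build [∀ n, IsEmpty (L.Functions n)] (S : L.Structure M) (π : β → M)
    (B : β → β → L.Relations 2 → Prop) : L.Structure β where
  funMap := fun f _ => isEmptyElim f
  RelMap := fun {n} R w => buildRel S π B n R w

theorem BM_build [∀ n, IsEmpty (L.Functions n)] {S : L.Structure M} {π : β → M}
    {B : β → β → L.Relations 2 → Prop} {u v : β} (h : u ≠ v) (R : L.Relations 2) :
    BM (build S π B) u v R ↔ B u v R := by
  show buildRel S π B 2 R ![u, v] ↔ _
  simp [buildRel, h]

/-- Closure of a set of formulas under subformulas, with the diagonal atomic formulas. -/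
structure SubCl (F : Set (FormW L)) : Prop where
  neg : ∀ φ, neg φ ∈ F → φ ∈ F
  conj : ∀ f, conj f ∈ F → ∀ k, f k ∈ F
  ex : ∀ i φ, ex i φ ∈ F → φ ∈ F
  rel : ∀ (n : ℕ) (R : L.Relations n), rel R (fun _ => false) ∈ F

theorem ex_mem_tp {F : Set (FormW L)} {S : L.Structure M} {i : Bool} {ψ : FormW L}
    (h : ex i ψ ∈ F) {c : M} : ex i ψ ∈ tp F S c ↔ ∃ a, ψ.Sat S (asg i a c) := by
  rw [mem_tp, sat_ex]
  exact ⟨fun h' => h'.2, fun h' => ⟨h, h'⟩⟩

theorem rel_mem_tp {F : Set (FormW L)} (hF : SubCl F) {S : L.Structure M} {n : ℕ}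
    {R : L.Relations n} {c : M} :
    rel R (fun _ => false) ∈ tp F S c ↔ S.RelMap R (fun _ => c) :=
  ⟨fun h => h.2, fun h => ⟨hF.rel n R, h⟩⟩

variable [∀ n, IsEmpty (L.Functions n)]

/-- The covering lemma. -/
theorem sat_build {F : Set (FormW L)} (hF : SubCl F) {K : Set (L.Structure ℕ)}
    (hL : ∀ n, 3 ≤ n → IsEmpty (L.Relations n)) (S : L.Structure ℕ) (π : β → ℕ)
    (B : β → β → L.Relations 2 → Prop)
    (back : ∀ (u : β) (b : ℕ), ∃ v : β, tp F S (π v) = tp F S b ∧ (v = u ↔ b = π u) ∧
      (v ≠ u → ∀ R, (B u v R ↔ BM S (π u) b R) ∧ (B v u R ↔ BM S b (π u) R)))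
    (forth : ∀ u v, u ≠ v → Rz F K (tp F S (π u)) (tp F S (π v)) (B u v) (B v u))
    (φ : FormW L) : φ ∈ F →
    (∀ u, φ.Sat (build S π B) (fun _ => u) ↔ φ.Sat S (fun _ => π u)) ∧
    ∀ (s : Bool → β) (S' : L.Structure ℕ) (s' : Bool → ℕ),
      s false ≠ s true → s' false ≠ s' true →
      (∀ k, tp F S (π (s k)) = tp F S' (s' k)) →
      (∀ k, ∀ R, (B (s k) (s !k) R ↔ BM S' (s' k) (s' !k) R)) →
      (φ.Sat (build S π B) s ↔ φ.Sat S' s') := by
  induction φ with
  | @rel n R v =>
    intro _
    match n, R, v with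
    | 0, R, v =>
      refine ⟨fun u => Iff.rfl, fun s S' s' _ _ h _ => ?_⟩
      have h1 : S.RelMap R (fun _ => π (s false)) ↔ S'.RelMap R (fun _ => s' false) := by
        rw [← rel_mem_tp hF, ← rel_mem_tp hF, h]
      show S.RelMap R (π ∘ fun k => s (v k)) ↔ S'.RelMap R (fun k => s' (v k))
      rw [Subsingleton.elim (π ∘ fun k => s (v k)) (fun _ => π (s false)),
        Subsingleton.elim (fun k => s' (v k)) (fun _ => s' false)]
      exact h1
    | 1, R, v =>
      refine ⟨fun u => Iff.rfl, fun s S' s' _ _ h _ => ?_⟩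
      have h1 : S.RelMap R (fun _ => π (s (v 0))) ↔ S'.RelMap R (fun _ => s' (v 0)) := by
        rw [← rel_mem_tp hF, ← rel_mem_tp hF, h]
      have e1 : (π ∘ fun k => s (v k)) = fun _ => π (s (v 0)) := by
        funext k; rw [Subsingleton.elim k 0]; rfl
      have e2 : (fun k => s' (v k)) = fun _ => s' (v 0) := by
        funext k; rw [Subsingleton.elim k 0]
      show S.RelMap R (π ∘ fun k => s (v k)) ↔ S'.RelMap R (fun k => s' (v k))
      rw [e1, e2]
      exact h1
    | 2, R, v =>
      refine ⟨fun u => ?_, fun s S' s' hs hs' h h' => ?_⟩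
      · show (u = u ∧ S.RelMap R (π ∘ fun k => u)) ∨ (u ≠ u ∧ B u u R) ↔ _
        simp only [true_and, ne_eq, not_true_eq_false, false_and, or_false]
        rfl
      · show (s (v 0) = s (v 1) ∧ S.RelMap R (π ∘ fun k => s (v k))) ∨
          (s (v 0) ≠ s (v 1) ∧ B (s (v 0)) (s (v 1)) R) ↔ S'.RelMap R (fun k => s' (v k))
        by_cases hv : v 0 = v 1
        · have h1 : S.RelMap R (fun _ => π (s (v 0))) ↔ S'.RelMap R (fun _ => s' (v 0)) := by
            rw [← rel_mem_tp hF, ← rel_mem_tp hF, h]
          have hvk : ∀ k, v k = v 0 := by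
            intro k; fin_cases k
            · rfl
            · exact hv.symm
          have e1 : (π ∘ fun k => s (v k)) = fun _ => π (s (v 0)) := by
            funext k; simp [hvk k]
          have e2 : (fun k => s' (v k)) = fun _ => s' (v 0) := by
            funext k; simp [hvk k]
          rw [e1, e2, h1, hv]
          simp
        · have hv1 : v 1 = !(v 0) := by
            cases h0 : v 0 <;> cases h1 : v 1 <;> simp_all
          have hsne : s (v 0) ≠ s (v 1) := by
            rw [hv1]
            cases v 0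
            · exact hs
            · exact hs.symm
          have h2 := h' (v 0) R
          have e2 : (fun k => s' (v k)) = ![s' (v 0), s' (!(v 0))] := by
            funext k; fin_cases k
            · rfl
            · show s' (v 1) = _
              rw [hv1]; rfl
          rw [e2, ← hv1] at *
          simp only [hsne, false_and, ne_eq, not_false_eq_true, true_and, false_or]
          exact h2
    | n + 3, R, v => exact (hL (n + 3) (by omega)).elim R
  | eq i j =>
    intro _
    refine ⟨fun u => by simp [Sat], fun s S' s' hs hs' _ _ => ?_⟩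
    simp only [Sat]
    cases i <;> cases j <;> simp_all [eq_comm]
  | neg φ ih =>
    intro hφ
    obtain ⟨h1, h2⟩ := ih (hF.neg _ hφ)
    exact ⟨fun u => not_congr (h1 u), fun s S' s' hs hs' h h' =>
      not_congr (h2 s S' s' hs hs' h h')⟩
  | conj f ih =>
    intro hφ
    have ih' := fun k => ih k (hF.conj _ hφ k)
    exact ⟨fun u => forall_congr' fun k => (ih' k).1 u, fun s S' s' hs hs' h h' =>
      forall_congr' fun k => (ih' k).2 s S' s' hs hs' h h'⟩
  | ex i ψ ih =>
    intro hφ
    obtain ⟨h1, h2⟩ := ih (hF.ex _ _ hφ)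
    have key : ∀ w₀ : β, (∃ w, ψ.Sat (build S π B) (asg i w w₀)) ↔
        ex i ψ ∈ tp F S (π w₀) := by
      intro w₀
      constructor
      · rintro ⟨w, hw⟩
        by_cases hww : w = w₀
        · subst hww
          rw [asg_self, h1] at hw
          rw [ex_mem_tp hφ]
          exact ⟨π w, by rwa [asg_self]⟩
        · obtain ⟨S', _, a, b, hab, ha, hb, hab1, hab2⟩ := forth w w₀ hww
          have hsat : ψ.Sat S' (asg i a b) := by
            refine (h2 (asg i w w₀) S' (asg i a b) (asg_ne hww) (asg_ne hab) ?_ ?_).mp hw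
            · intro k
              rcases bool_cases' k i with hk | hk
              · rw [hk, asg_same, asg_same]; exact ha.symm
              · rw [hk, asg_not, asg_not]; exact hb.symm
            · intro k R
              rcases bool_cases' k i with hk | hk
              · rw [hk, asg_same, asg_same, asg_not, asg_not, hab1]
              · rw [hk, Bool.not_not, asg_same, asg_same, asg_not, asg_not, hab2]
          rw [← hb, ex_mem_tp hφ]
          exact ⟨a, hsat⟩
      · intro hmem
        obtain ⟨a, ha⟩ := (ex_mem_tp hφ).mp hmem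
        obtain ⟨v, hv1, hv2, hv3⟩ := back w₀ a
        by_cases hvw : v = w₀
        · have := hv2.mp hvw
          subst this
          rw [asg_self, ← h1] at ha
          exact ⟨w₀, by rwa [asg_self]⟩
        · have hne : a ≠ π w₀ := fun h => hvw (hv2.mpr h)
          refine ⟨v, (h2 (asg i v w₀) S (asg i a (π w₀)) (asg_ne hvw) (asg_ne hne) ?_ ?_).mpr ha⟩
          · intro k
            rcases bool_cases' k i with hk | hk
            · rw [hk, asg_same, asg_same, hv1]
            · rw [hk, asg_not, asg_not]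
          · intro k R
            rcases bool_cases' k i with hk | hk
            · rw [hk, asg_same, asg_same, asg_not, asg_not]; exact (hv3 hvw R).2
            · rw [hk, Bool.not_not, asg_same, asg_same, asg_not, asg_not]; exact (hv3 hvw R).1
    refine ⟨fun u => ?_, fun s S' s' _ _ h _ => ?_⟩
    · rw [sat_ex, key, ex_mem_tp hφ, sat_ex]
    · rw [sat_ex, key, h (!i), ex_mem_tp hφ, sat_ex]

theorem tp_build {F : Set (FormW L)} (hF : SubCl F) {K : Set (L.Structure ℕ)}
    (hL : ∀ n, 3 ≤ n → IsEmpty (L.Relations n)) {S : L.Structure ℕ} {π : β → ℕ}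
    {B : β → β → L.Relations 2 → Prop}
    (back : ∀ (u : β) (b : ℕ), ∃ v : β, tp F S (π v) = tp F S b ∧ (v = u ↔ b = π u) ∧
      (v ≠ u → ∀ R, (B u v R ↔ BM S (π u) b R) ∧ (B v u R ↔ BM S b (π u) R)))
    (forth : ∀ u v, u ≠ v → Rz F K (tp F S (π u)) (tp F S (π v)) (B u v) (B v u)) (u : β) :
    tp F (build S π B) u = tp F S (π u) := by
  ext φ
  rw [mem_tp, mem_tp]
  exact and_congr_right fun hφ => (sat_build hF hL S π B back forth φ hφ).1 u

theorem holds_build {F : Set (FormW L)} (hF : SubCl F) {K : Set (L.Structure ℕ)}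
    (hL : ∀ n, 3 ≤ n → IsEmpty (L.Relations n)) {S : L.Structure ℕ} (hS : S ∈ K) {π : β → ℕ}
    {B : β → β → L.Relations 2 → Prop}
    (back : ∀ (u : β) (b : ℕ), ∃ v : β, tp F S (π v) = tp F S b ∧ (v = u ↔ b = π u) ∧
      (v ≠ u → ∀ R, (B u v R ↔ BM S (π u) b R) ∧ (B v u R ↔ BM S b (π u) R)))
    (forth : ∀ u v, u ≠ v → Rz F K (tp F S (π u)) (tp F S (π v)) (B u v) (B v u))
    {φ : FormW L} (hφ : φ ∈ F) (h : ∀ S ∈ K, φ.Holds S) : φ.Holds (build S π B) := by
  intro s
  obtain ⟨h1, h2⟩ := sat_build hF hL S π B back forth φ hφ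
  by_cases hs : s false = s true
  · have : s = fun _ => s true := by funext k; cases k <;> simp [hs]
    rw [this, h1]
    exact h S hS _
  · obtain ⟨S', hS', a, b, hab, ha, hb, hab1, hab2⟩ := forth _ _ hs
    refine (h2 s S' (asg false a b) hs (asg_ne hab) ?_ ?_).mpr (h S' hS' _)
    · intro k
      cases k
      · rw [asg_same]; exact ha.symm
      · exact hb.symm
    · intro k R
      cases k
      · show _ ↔ BM S' a b R
        rw [hab1]; rfl
      · show _ ↔ BM S' b a R
        rw [hab2]; rfl

/-- `F` is closed under subformulas and `K` is axiomatised by a formula of `F`. -/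
structure Good (F : Set (FormW L)) (K : Set (L.Structure ℕ)) : Prop where
  sub : SubCl F
  ax : ∃ φ ∈ F, ∀ S, S ∈ K ↔ φ.Holds S

theorem mem_of_build {F : Set (FormW L)} {K : Set (L.Structure ℕ)} (hG : Good F K)
    (hL : ∀ n, 3 ≤ n → IsEmpty (L.Relations n)) {S : L.Structure ℕ} (hS : S ∈ K) {π : β → ℕ}
    {B : β → β → L.Relations 2 → Prop}
    (back : ∀ (u : β) (b : ℕ), ∃ v : β, tp F S (π v) = tp F S b ∧ (v = u ↔ b = π u) ∧
      (v ≠ u → ∀ R, (B u v R ↔ BM S (π u) b R) ∧ (B v u R ↔ BM S b (π u) R)))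
    (forth : ∀ u v, u ≠ v → Rz F K (tp F S (π u)) (tp F S (π v)) (B u v) (B v u)) :
    ∀ S' : L.Structure ℕ, Iso (build S π B) S' → S' ∈ K := by
  obtain ⟨φ₀, h1, h2⟩ := hG.ax
  rintro S' ⟨e, he⟩
  rw [h2]
  exact holds_iso he (holds_build hG.sub hL hS back forth h1 fun S hS => (h2 S).mp hS)

end FormW

end Pool.Agent.Helper6
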