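import Pool.Agent.Helper6.IV2Basic

/-!
# Kings, measurability and decoding
-/

set_option autoImplicit false

namespace Pool.Agent.Helper6

open Set Str

namespace FormW

variable {L : FirstOrder.Language.{0, 0}} {M N β : Type}

section kings

variable {F : Set (FormW L)} {K : Set (L.Structure ℕ)}

/-- An element is a king if its type is not realised twice in a member of `K`. -/
def King (F : Set (FormW L)) (K : Set (L.Structure ℕ)) (S : L.Structure M) (a : M) : Prop :=
  ¬ ∃ t t', Rz F K (tp F S a) (tp F S a) t t'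

theorem king_congr {S : L.Structure M} {S' : L.Structure N} {a : M} {b : N}
    (h : tp F S a = tp F S' b) : King F K S a ↔ King F K S' b := by
  rw [King, King, h]

theorem king_of_tp_eq {S : L.Structure ℕ} (hS : S ∈ K) {a b : ℕ} (h : tp F S a = tp F S b)
    (ha : King F K S a) : b = a := by
  by_contra hne
  apply ha
  have := rz_self (F := F) hS (Ne.symm hne)
  rw [← h] at this
  exact ⟨_, _, this⟩

theorem exists_rz_self {S : L.Structure ℕ} {a : ℕ} (ha : ¬ King F K S a) :
    ∃ t t', Rz F K (tp F S a) (tp F S a) t t' := not_not.mp ha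

end kings

section measurable

variable {X : Type*} [MeasurableSpace X] [Countable β]

theorem measurableSet_sat {N : X → L.Structure β}
    (hN : ∀ (n : ℕ) (R : L.Relations n) (w : Fin n → β), MeasurableSet {x | (N x).RelMap R w})
    (φ : FormW L) : ∀ s : Bool → β, MeasurableSet {x | φ.Sat (N x) s} := by
  induction φ with
  | rel R v => intro s; exact hN _ R _
  | eq i j => intro s; exact MeasurableSet.const _
  | neg φ ih => intro s; exact (ih s).compl
  | conj f ih =>
    intro s
    have : {x | (conj f).Sat (N x) s} = ⋂ k, {x | (f k).Sat (N x) s} := by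
      ext x; simp [Sat]
    rw [this]
    exact MeasurableSet.iInter fun k => ih k s
  | ex i φ ih =>
    intro s
    have : {x | (ex i φ).Sat (N x) s} = ⋃ a : β, {x | φ.Sat (N x) (Function.update s i a)} := by
      ext x; simp [Sat]
    rw [this]
    exact MeasurableSet.iUnion fun a => ih _

theorem measurableSet_le_encard {A : X → Set β} (hA : ∀ u, MeasurableSet {x | u ∈ A x}) (m : ℕ) :
    MeasurableSet {x | (m : ℕ∞) ≤ (A x).encard} := by
  classical
  have : {x | (m : ℕ∞) ≤ (A x).encard} =
      ⋃ F : {F : Finset β // F.card = m}, ⋂ u ∈ F.1, {x | u ∈ A x} := by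
    ext x
    simp only [mem_ofPred_eq, mem_iUnion, mem_iInter]
    constructor
    · intro h
      obtain ⟨t, ht, htc⟩ := Set.exists_subset_encard_eq h
      have hfin : t.Finite := Set.finite_of_encard_eq_coe htc
      refine ⟨⟨hfin.toFinset, ?_⟩, fun u hu => ht (by simpa using hu)⟩
      have := hfin.encard_eq_coe_toFinset_card
      rw [htc] at this
      exact_mod_cast this.symm
    · rintro ⟨⟨F, hF⟩, h⟩
      have : (F : Set β).encard = m := by rw [Set.encard_coe_eq_coe_finsetCard, hF]
      rw [← this]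
      exact Set.encard_le_encard fun u hu => h u hu
  rw [this]
  exact MeasurableSet.iUnion fun F => Finset.measurableSet_biInter _ fun u _ => hA u

theorem measurableSet_ncard_eq {A : X → Set β} (hA : ∀ u, MeasurableSet {x | u ∈ A x}) (m : ℕ)
    (hm : 0 < m) : MeasurableSet {x | (A x).ncard = m} := by
  have : {x | (A x).ncard = m} =
      {x | (m : ℕ∞) ≤ (A x).encard} ∩ {x | ((m + 1 : ℕ) : ℕ∞) ≤ (A x).encard}ᶜ := by
    ext x
    simp only [mem_ofPred_eq, mem_inter_iff, mem_compl_iff, not_le]
    constructor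
    · intro h
      have hfin : (A x).Finite := Set.finite_of_ncard_pos (by omega)
      rw [← hfin.cast_ncard_eq, h]
      exact ⟨le_rfl, by exact_mod_cast Nat.lt_succ_self m⟩
    · rintro ⟨h1, h2⟩
      have hfin : (A x).Finite := by
        rw [← Set.encard_lt_top_iff]
        exact lt_of_lt_of_le h2 le_top
      rw [← hfin.cast_ncard_eq] at h1 h2
      have h1' : m ≤ (A x).ncard := by exact_mod_cast h1
      have h2' : (A x).ncard < m + 1 := by exact_mod_cast h2
      omega
  rw [this]
  exact (measurableSet_le_encard hA m).inter (measurableSet_le_encard hA (m + 1)).compl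

end measurable

/-! ### Decoding -/

/-- Spacing function. -/
def gg (n : ℕ) : ℕ := (n + 10) ^ 2

theorem gg_pos (n : ℕ) : 0 < gg n := by unfold gg; positivity

theorem gg_window {m n c : ℕ} (h1 : gg n ≤ c) (h2 : c ≤ gg n + (2 * n + 5)) (h3 : gg m ≤ c)
    (h4 : c ≤ gg m + (2 * m + 5)) : m = n := by
  unfold gg at *
  by_contra hne
  rcases Nat.lt_or_gt_of_ne hne with h | h
  · have : (m + 11) ^ 2 ≤ (n + 10) ^ 2 := Nat.pow_le_pow_left (by omega) 2
    nlinarith
  · have : (n + 11) ^ 2 ≤ (m + 10) ^ 2 := Nat.pow_le_pow_left (by omega) 2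
    nlinarith

section decode

variable {M N : Type} (F : Set (FormW L)) (S : L.Structure M) (p q : Set (FormW L))
  (R : L.Relations 2)

/-- The set defined from four parameters. -/
def UU (w : Fin 4 → M) : Set M :=
  {u | tp F S u = q ∧ (∀ i, u ≠ w i) ∧ BM S (w 0) u R ∧ ¬ BM S (w 1) u R ∧ BM S (w 2) u R ∧
    ¬ BM S (w 3) u R}

/-- The decoding predicate. -/
def Inv (w : Fin 4 → M) (n : ℕ) : Prop :=
  ∃ v, tp F S v = p ∧ v ∉ UU F S q R w ∧ ∃ m, gg n ≤ m ∧ m ≤ gg n + (2 * n + 5) ∧
    {u | u ∈ UU F S q R w ∧ BM S v u R}.ncard = m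

end decode

variable {F : Set (FormW L)}

theorem mem_UU_iso {M N : Type} {S : L.Structure M} {S' : L.Structure N} {e : M ≃ N}
    (h : RelIso S S' e) (q : Set (FormW L)) (R : L.Relations 2) (w : Fin 4 → M) (u : M) :
    e u ∈ UU F S' q R (e ∘ w) ↔ u ∈ UU F S q R w := by
  simp only [UU, mem_ofPred_eq, tp_iso h, Function.comp, BM_iso h, ne_eq,
    EmbeddingLike.apply_eq_iff_eq]

theorem inv_iso {M N : Type} {S : L.Structure M} {S' : L.Structure N} {e : M ≃ N}
    (h : RelIso S S' e) (p q : Set (FormW L)) (R : L.Relations 2) (w : Fin 4 → M) (n : ℕ) :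
    Inv F S' p q R (e ∘ w) n ↔ Inv F S p q R w n := by
  unfold Inv
  rw [← e.exists_congr_right]
  refine exists_congr fun v => ?_
  rw [tp_iso h, mem_UU_iso h]
  have : {u | u ∈ UU F S' q R (e ∘ w) ∧ BM S' (e v) u R} =
      e '' {u | u ∈ UU F S q R w ∧ BM S v u R} := by
    ext u
    obtain ⟨u, rfl⟩ := e.surjective u
    simp only [mem_ofPred_eq, mem_UU_iso h, BM_iso h, mem_image, EmbeddingLike.apply_eq_iff_eq,
      exists_eq_right]
  rw [this, Set.ncard_image_of_injective _ e.injective]

theorem measurableSet_inv {X : Type*} [MeasurableSpace X] [Countable β]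
    {N : X → L.Structure β} (τ : β → Set (FormW L)) (hτ : ∀ x u, tp F (N x) u = τ u)
    (hN : ∀ (n : ℕ) (R : L.Relations n) (w : Fin n → β), MeasurableSet {x | (N x).RelMap R w})
    (p q : Set (FormW L)) (R : L.Relations 2) (w : Fin 4 → β) (n : ℕ) :
    MeasurableSet {x | Inv F (N x) p q R w n} := by
  have hB : ∀ u v, MeasurableSet {x | BM (N x) u v R} := fun u v => hN 2 R _
  have hU : ∀ u, MeasurableSet {x | u ∈ UU F (N x) q R w} := by
    intro u
    simp only [UU, mem_ofPred_eq, hτ]
    exact (MeasurableSet.const _).inter ((MeasurableSet.const _).inter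
      ((hB _ _).inter ((hB _ _).compl.inter ((hB _ _).inter (hB _ _).compl))))
  have : {x | Inv F (N x) p q R w n} = ⋃ v : β, ({x | τ v = p} ∩ ({x | v ∈ UU F (N x) q R w}ᶜ ∩
      ⋃ m : ℕ, ({x | gg n ≤ m ∧ m ≤ gg n + (2 * n + 5)} ∩
        {x | {u | u ∈ UU F (N x) q R w ∧ BM (N x) v u R}.ncard = m}))) := by
    ext x
    simp only [Inv, mem_iUnion, mem_inter_iff, mem_ofPred_eq, mem_compl_iff, hτ]
    refine exists_congr fun v => and_congr_right fun _ => and_congr_right fun _ =>
      exists_congr fun m => ?_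
    tauto
  rw [this]
  refine MeasurableSet.iUnion fun v => (MeasurableSet.const _).inter ((hU v).compl.inter
    (MeasurableSet.iUnion fun m => ?_))
  by_cases hm : 0 < m
  · exact (MeasurableSet.const _).inter (measurableSet_ncard_eq (fun u => (hU u).inter (hB v u))
      m hm)
  · have : {x : X | gg n ≤ m ∧ m ≤ gg n + (2 * n + 5)} = ∅ := by
      ext x
      have := gg_pos n
      simp only [mem_ofPred_eq, mem_empty_iff_false, iff_false, not_and]
      intro h; omega
    rw [this, empty_inter]
    exact MeasurableSet.empty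

/-- The coding matrix. -/
def Gam (x : ℕ → Bool) (k l : ℕ) : Bool :=
  if k < 4 then decide (4 ≤ l) && decide (l % 2 = 0) && (decide (k = 0) || decide (k = 2))
  else decide (l % 2 = 0) &&
    (decide (k % 2 = 0) || !(x ((k - 5) / 2)) || decide (l < k + 2 * gg ((k - 5) / 2)))

theorem gam_small {x : ℕ → Bool} {k l : ℕ} (hk : k < 4) :
    Gam x k l = true ↔ (4 ≤ l ∧ l % 2 = 0 ∧ (k = 0 ∨ k = 2)) := by
  simp [Gam, hk, and_assoc]

theorem gam_big {x : ℕ → Bool} {k l : ℕ} (hk : 4 ≤ k) :
    Gam x k l = true ↔ (l % 2 = 0 ∧ (k % 2 = 0 ∨ x ((k - 5) / 2) = false ∨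
      l < k + 2 * gg ((k - 5) / 2))) := by
  have : ¬ k < 4 := by omega
  simp [Gam, this, or_assoc]

theorem continuous_gam (k l : ℕ) : Continuous fun x : ℕ → Bool => Gam x k l := by
  have h1 : Continuous fun x : ℕ → Bool => x ((k - 5) / 2) := continuous_apply _
  let F : Bool → Bool := fun b =>
    if k < 4 then decide (4 ≤ l) && decide (l % 2 = 0) && (decide (k = 0) || decide (k = 2))
    else decide (l % 2 = 0) &&
      (decide (k % 2 = 0) || !b || decide (l < k + 2 * gg ((k - 5) / 2)))
  have h2 : Continuous F := continuous_of_discreteTopology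
  exact h2.comp h1

end FormW

end Pool.Agent.Helper6
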