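import Pool.Agent.Helper6.IV2Code

/-!
# The coded clone
-/

set_option autoImplicit false

namespace Pool.Agent.Helper6

open Set Str

namespace FormW

variable {L : FirstOrder.Language.{0, 0}}

section

variable (F : Set (FormW L)) (K : Set (L.Structure ℕ)) (S : L.Structure ℕ)

/-- Universe of the cloned structure. -/
abbrev Cl : Type := {a : ℕ // King F K S a} ⊕ ({a : ℕ // ¬ King F K S a} × ℕ)

/-- Projection of the cloned structure. -/
def prj : Cl F K S → ℕ := Sum.elim (fun a => a.1) (fun a => a.1.1)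

open Classical in
/-- The binary relations of the coded clone. -/
noncomputable def codeB (d d' : ℕ → L.Relations 2 → Prop) (a₀ b₀ : ℕ)
    (t₁ t₁' t₂ t₂' : L.Relations 2 → Prop) (x : ℕ → Bool) :
    Cl F K S → Cl F K S → L.Relations 2 → Prop
  | Sum.inr (a, k), Sum.inr (b, l) =>
    if a.1 = a₀ ∧ b.1 = b₀ ∧ k < l then (if Gam x k l then t₁ else t₂)
    else if a.1 = b₀ ∧ b.1 = a₀ ∧ l < k then (if Gam x l k then t₁' else t₂')
    else if a.1 = b.1 then (if k < l then d a.1 else d' a.1)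
    else BM S a.1 b.1
  | Sum.inl a, Sum.inl b => BM S a.1 b.1
  | Sum.inl a, Sum.inr (b, _) => BM S a.1 b.1
  | Sum.inr (a, _), Sum.inl b => BM S a.1 b.1

variable {F} {K} {S} {d d' : ℕ → L.Relations 2 → Prop} {a₀ b₀ : ℕ}
    {t₁ t₁' t₂ t₂' : L.Relations 2 → Prop} {x : ℕ → Bool}

theorem codeB_code {a b : {a : ℕ // ¬ King F K S a}} {k l : ℕ} (h1 : a.1 = a₀) (h2 : b.1 = b₀)
    (h3 : k < l) (R : L.Relations 2) :
    codeB F K S d d' a₀ b₀ t₁ t₁' t₂ t₂' x (Sum.inr (a, k)) (Sum.inr (b, l)) R ↔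
      (Gam x k l = true ∧ t₁ R) ∨ (¬ Gam x k l = true ∧ t₂ R) := by
  simp only [codeB, h1, h2, h3, and_self, if_true]
  by_cases h : Gam x k l = true <;> simp [h]

theorem codeB_code' {a b : {a : ℕ // ¬ King F K S a}} {k l : ℕ} (h1 : a.1 = b₀) (h2 : b.1 = a₀)
    (h3 : l < k) (R : L.Relations 2) :
    codeB F K S d d' a₀ b₀ t₁ t₁' t₂ t₂' x (Sum.inr (a, k)) (Sum.inr (b, l)) R ↔
      (Gam x l k = true ∧ t₁' R) ∨ (¬ Gam x l k = true ∧ t₂' R) := by
  have h4 : ¬ k < l := by omega
  simp only [codeB, h1, h2, h3, h4, and_false, and_self, if_true, if_false]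
  by_cases h : Gam x l k = true <;> simp [h]

theorem codeB_diff {u v : Cl F K S} (h : prj F K S u ≠ prj F K S v)
    (h' : ∀ a b k l, u = Sum.inr (a, k) → v = Sum.inr (b, l) →
      ¬ (a.1 = a₀ ∧ b.1 = b₀ ∧ k < l) ∧ ¬ (a.1 = b₀ ∧ b.1 = a₀ ∧ l < k)) :
    codeB F K S d d' a₀ b₀ t₁ t₁' t₂ t₂' x u v = BM S (prj F K S u) (prj F K S v) := by
  rcases u with u | ⟨a, k⟩ <;> rcases v with v | ⟨b, l⟩
  · rfl
  · rfl
  · rfl
  · obtain ⟨h1, h2⟩ := h' a b k l rfl rfl
    have h3 : ¬ a.1 = b.1 := h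
    simp only [codeB, h1, h2, h3, if_false]
    rfl

theorem codeB_forth (hS : S ∈ K) (hd : ∀ a, ¬ King F K S a → Rz F K (tp F S a) (tp F S a) (d a) (d' a))
    (ht₁ : Rz F K (tp F S a₀) (tp F S b₀) t₁ t₁') (ht₂ : Rz F K (tp F S a₀) (tp F S b₀) t₂ t₂') (u v : Cl F K S) (huv : u ≠ v) :
    Rz F K (tp F S (prj F K S u)) (tp F S (prj F K S v)) (codeB F K S d d' a₀ b₀ t₁ t₁' t₂ t₂' x u v)
      (codeB F K S d d' a₀ b₀ t₁ t₁' t₂ t₂' x v u) := by
  have hfallback : prj F K S u ≠ prj F K S v →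
      (∀ a b k l, u = Sum.inr (a, k) → v = Sum.inr (b, l) →
        ¬ (a.1 = a₀ ∧ b.1 = b₀ ∧ k < l) ∧ ¬ (a.1 = b₀ ∧ b.1 = a₀ ∧ l < k)) →
      Rz F K (tp F S (prj F K S u)) (tp F S (prj F K S v)) (codeB F K S d d' a₀ b₀ t₁ t₁' t₂ t₂' x u v)
      (codeB F K S d d' a₀ b₀ t₁ t₁' t₂ t₂' x v u) := by
    intro h1 h2
    rw [codeB_diff h1 h2, codeB_diff h1.symm]
    · exact rz_self hS h1
    · intro b a l k hb ha
      obtain ⟨h3, h4⟩ := h2 a b k l ha hb
      exact ⟨fun h => h4 ⟨h.2.1, h.1, h.2.2⟩, fun h => h3 ⟨h.2.1, h.1, h.2.2⟩⟩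
  rcases u with u | ⟨a, k⟩ <;> rcases v with v | ⟨b, l⟩
  · exact hfallback (fun h => huv (congrArg Sum.inl (Subtype.ext h)))
      (fun a b k l h => by simp at h)
  · refine hfallback (fun h => ?_) (fun a b k l h => by simp at h)
    exact b.2 (show King F K S b.1 from (show u.1 = b.1 from h) ▸ u.2)
  · refine hfallback (fun h => ?_) (fun a b k l _ h => by simp at h)
    exact a.2 (show King F K S a.1 from (show a.1 = v.1 from h) ▸ v.2)
  · by_cases c1 : a.1 = a₀ ∧ b.1 = b₀ ∧ k < l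
    · obtain ⟨h1, h2, h3⟩ := c1
      have e1 : codeB F K S d d' a₀ b₀ t₁ t₁' t₂ t₂' x (Sum.inr (a, k)) (Sum.inr (b, l)) =
          (if Gam x k l then t₁ else t₂) := by
        funext R; apply propext; rw [codeB_code h1 h2 h3]
        by_cases h : Gam x k l = true <;> simp [h]
      have e2 : codeB F K S d d' a₀ b₀ t₁ t₁' t₂ t₂' x (Sum.inr (b, l)) (Sum.inr (a, k)) =
          (if Gam x k l then t₁' else t₂') := by
        funext R; apply propext; rw [codeB_code' h2 h1 h3]
        by_cases h : Gam x k l = true <;> simp [h]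
      rw [e1, e2]
      show Rz F K (tp F S a.1) (tp F S b.1) _ _
      rw [h1, h2]
      by_cases h : Gam x k l = true <;> simp [h, ht₁, ht₂]
    · by_cases c2 : a.1 = b₀ ∧ b.1 = a₀ ∧ l < k
      · obtain ⟨h1, h2, h3⟩ := c2
        have e1 : codeB F K S d d' a₀ b₀ t₁ t₁' t₂ t₂' x (Sum.inr (a, k)) (Sum.inr (b, l)) =
            (if Gam x l k then t₁' else t₂') := by
          funext R; apply propext; rw [codeB_code' h1 h2 h3]
          by_cases h : Gam x l k = true <;> simp [h]
        have e2 : codeB F K S d d' a₀ b₀ t₁ t₁' t₂ t₂' x (Sum.inr (b, l)) (Sum.inr (a, k)) =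
            (if Gam x l k then t₁ else t₂) := by
          funext R; apply propext; rw [codeB_code h2 h1 h3]
          by_cases h : Gam x l k = true <;> simp [h]
        rw [e1, e2]
        show Rz F K (tp F S a.1) (tp F S b.1) _ _
        rw [h1, h2]
        by_cases h : Gam x l k = true <;> simp [h, ht₁.swap, ht₂.swap]
      · by_cases hab : a.1 = b.1
        · have c3 : ¬ (b.1 = a₀ ∧ a.1 = b₀ ∧ l < k) := fun h => c2 ⟨h.2.1, h.1, h.2.2⟩
          have c4 : ¬ (b.1 = b₀ ∧ a.1 = a₀ ∧ k < l) := fun h => c1 ⟨h.2.1, h.1, h.2.2⟩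
          have hkl : k ≠ l := by
            rintro rfl
            exact huv (by rw [Subtype.ext hab])
          have e1 : codeB F K S d d' a₀ b₀ t₁ t₁' t₂ t₂' x (Sum.inr (a, k)) (Sum.inr (b, l)) =
              (if k < l then d a.1 else d' a.1) := by
            simp only [codeB]
            rw [if_neg c1, if_neg c2, if_pos hab]
          have e2 : codeB F K S d d' a₀ b₀ t₁ t₁' t₂ t₂' x (Sum.inr (b, l)) (Sum.inr (a, k)) =
              (if l < k then d b.1 else d' b.1) := by
            simp only [codeB]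
            rw [if_neg c3, if_neg c4, if_pos hab.symm]
          rw [e1, e2]
          show Rz F K (tp F S a.1) (tp F S b.1) _ _
          rw [← hab]
          rcases Nat.lt_or_gt_of_ne hkl with h | h
          · have h' : ¬ l < k := by omega
            simp only [h, h', if_true, if_false]
            exact hd a.1 a.2
          · have h' : ¬ k < l := by omega
            simp only [h, h', if_true, if_false]
            exact (hd a.1 a.2).swap
        · refine hfallback hab ?_
          intro a' b' k' l' ha hb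
          simp only [Sum.inr.injEq, Prod.mk.injEq] at ha hb
          obtain ⟨rfl, rfl⟩ := ha
          obtain ⟨rfl, rfl⟩ := hb
          exact ⟨c1, c2⟩

theorem codeB_back (u : Cl F K S) (b : ℕ) :
    ∃ v : Cl F K S, tp F S (prj F K S v) = tp F S b ∧ (v = u ↔ b = prj F K S u) ∧
      (v ≠ u → ∀ R, (codeB F K S d d' a₀ b₀ t₁ t₁' t₂ t₂' x u v R ↔ BM S (prj F K S u) b R) ∧
        (codeB F K S d d' a₀ b₀ t₁ t₁' t₂ t₂' x v u R ↔ BM S b (prj F K S u) R)) := by
  by_cases hb : King F K S b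
  · refine ⟨Sum.inl ⟨b, hb⟩, rfl, ?_, ?_⟩
    · rcases u with u | ⟨a, k⟩
      · constructor
        · intro h; exact congrArg Subtype.val (Sum.inl.inj h)
        · intro h; exact congrArg Sum.inl (Subtype.ext h)
      · constructor
        · intro h; simp at h
        · intro h; exact absurd hb ((show b = a.1 from h) ▸ a.2)
    · intro _ R
      rcases u with u | ⟨a, k⟩ <;> exact ⟨Iff.rfl, Iff.rfl⟩
  · rcases u with u | ⟨a, k⟩
    · refine ⟨Sum.inr (⟨b, hb⟩, 0), rfl, ?_, fun _ R => ⟨Iff.rfl, Iff.rfl⟩⟩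
      constructor
      · intro h; simp at h
      · intro h; exact absurd u.2 ((show b = u.1 from h) ▸ hb)
    · refine ⟨Sum.inr (⟨b, hb⟩, k), rfl, ?_, ?_⟩
      · constructor
        · intro h
          simp only [Sum.inr.injEq, Prod.mk.injEq] at h
          exact congrArg Subtype.val h.1
        · intro h
          have : (⟨b, hb⟩ : {a : ℕ // ¬ King F K S a}) = a := Subtype.ext h
          rw [this]
      · intro hne R
        have hba : b ≠ a.1 := by
          intro h
          apply hne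
          have : (⟨b, hb⟩ : {a : ℕ // ¬ King F K S a}) = a := Subtype.ext h
          rw [this]
        rw [codeB_diff (u := Sum.inr (a, k)) (v := Sum.inr (⟨b, hb⟩, k)) (fun h => hba h.symm),
          codeB_diff (v := Sum.inr (a, k)) (u := Sum.inr (⟨b, hb⟩, k)) hba]
        · exact ⟨Iff.rfl, Iff.rfl⟩
        · intro a' b' k' l' ha' hb'
          simp only [Sum.inr.injEq, Prod.mk.injEq] at ha' hb'
          obtain ⟨rfl, rfl⟩ := ha'
          obtain ⟨rfl, rfl⟩ := hb'
          exact ⟨fun h => lt_irrefl _ h.2.2, fun h => lt_irrefl _ h.2.2⟩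
        · intro a' b' k' l' ha' hb'
          simp only [Sum.inr.injEq, Prod.mk.injEq] at ha' hb'
          obtain ⟨rfl, rfl⟩ := ha'
          obtain ⟨rfl, rfl⟩ := hb'
          exact ⟨fun h => lt_irrefl _ h.2.2, fun h => lt_irrefl _ h.2.2⟩

end

end FormW

end Pool.Agent.Helper6
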