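import Pool.Agent.Helper6.IV2CodeA

/-!
# Two different two-types between non-king types give perfectly many models, continued
-/

set_option autoImplicit false

namespace Pool.Agent.Helper6

open Set Str

namespace FormW

variable {L : FirstOrder.Language.{0, 0}} [∀ n, IsEmpty (L.Functions n)]
  {F : Set (FormW L)} {K : Set (L.Structure ℕ)}

section clopen

omit [∀ n, IsEmpty (L.Functions n)] in
theorem isClopen_codeB {S : L.Structure ℕ} (d d' : ℕ → L.Relations 2 → Prop) (a₀ b₀ : ℕ)
    (t₁ t₁' t₂ t₂' : L.Relations 2 → Prop) (u v : Cl F K S) (R : L.Relations 2) :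
    IsClopen {x | codeB F K S d d' a₀ b₀ t₁ t₁' t₂ t₂' x u v R} := by
  have hconst : ∀ P : Prop, IsClopen {x : ℕ → Bool | P} := by
    intro P
    by_cases h : P <;> simp [h, isClopen_univ, isClopen_empty]
  have hG : ∀ (k l : ℕ) (P Q : Prop),
      IsClopen {x : ℕ → Bool | (Gam x k l = true ∧ P) ∨ (¬ Gam x k l = true ∧ Q)} := by
    intro k l P Q
    exact (isClopen_discrete {b : Bool | (b = true ∧ P) ∨ (¬ b = true ∧ Q)}).preimage
      (continuous_gam k l)
  rcases u with u | ⟨a, k⟩ <;> rcases v with v | ⟨b, l⟩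
  · exact hconst _
  · exact hconst _
  · exact hconst _
  · by_cases c1 : a.1 = a₀ ∧ b.1 = b₀ ∧ k < l
    · obtain ⟨h1, h2, h3⟩ := c1
      simp only [codeB_code h1 h2 h3]
      exact hG _ _ _ _
    · by_cases c2 : a.1 = b₀ ∧ b.1 = a₀ ∧ l < k
      · obtain ⟨h1, h2, h3⟩ := c2
        simp only [codeB_code' h1 h2 h3]
        exact hG _ _ _ _
      · simp only [codeB]
        simp only [if_neg c1, if_neg c2]
        exact hconst _

theorem isClopen_build {M β : Type} {S : L.Structure M} {π : β → M}
    {B : (ℕ → Bool) → β → β → L.Relations 2 → Prop}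
    (hB : ∀ u v R, IsClopen {x | B x u v R}) (n : ℕ) (R : L.Relations n) (w : Fin n → β) :
    IsClopen {x | (build S π (B x)).RelMap R w} := by
  have hconst : ∀ P : Prop, IsClopen {x : ℕ → Bool | P} := by
    intro P
    by_cases h : P <;> simp [h, isClopen_univ, isClopen_empty]
  match n, R, w with
  | 0, R, w => exact hconst _
  | 1, R, w => exact hconst _
  | 2, R, w => exact (hconst _).union ((hconst _).inter (hB _ _ _))
  | n + 3, R, w => exact hconst _

end clopen

theorem perfK_of_two (hG : Good F K) (hL : ∀ n, 3 ≤ n → IsEmpty (L.Relations n))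
    {S : L.Structure ℕ} (hS : S ∈ K) {a₀ b₀ : ℕ} (ha : ¬ King F K S a₀)
    (hb : ¬ King F K S b₀) (hab : tp F S a₀ ≠ tp F S b₀ ∨ a₀ = b₀)
    {t₁ t₁' t₂ t₂' : L.Relations 2 → Prop} (ht₁ : Rz F K (tp F S a₀) (tp F S b₀) t₁ t₁')
    (ht₂ : Rz F K (tp F S a₀) (tp F S b₀) t₂ t₂') {R : L.Relations 2} (hR1 : t₁ R) (hR2 : ¬ t₂ R) :
    PerfK K := by
  classical
  have hex : ∀ a, ∃ t t', ¬ King F K S a → Rz F K (tp F S a) (tp F S a) t t' := by
    intro a
    by_cases h : King F K S a
    · exact ⟨fun _ => False, fun _ => False, fun h' => absurd h h'⟩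
    · obtain ⟨t, t', ht⟩ := exists_rz_self h
      exact ⟨t, t', fun _ => ht⟩
  choose d d' hd using hex
  let B : (ℕ → Bool) → Cl F K S → Cl F K S → L.Relations 2 → Prop := fun x =>
    codeB F K S d d' a₀ b₀ t₁ t₁' t₂ t₂' x
  let N : (ℕ → Bool) → L.Structure (Cl F K S) := fun x => build S (prj F K S) (B x)
  have hback := fun x => codeB_back (F := F) (K := K) (S := S) (d := d) (d' := d') (a₀ := a₀) (b₀ := b₀)
    (t₁ := t₁) (t₁' := t₁') (t₂ := t₂) (t₂' := t₂') (x := x)
  have hforth := fun x => codeB_forth (F := F) (K := K) (S := S) (d := d) (d' := d') (a₀ := a₀) (b₀ := b₀)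
    (t₁ := t₁) (t₁' := t₁') (t₂ := t₂) (t₂' := t₂') (x := x) hS hd ht₁ ht₂
  have htp : ∀ x u, tp F (N x) u = tp F S (prj F K S u) := 
    fun x u => tp_build hG.sub hL (hback x) (hforth x) u
  have hmod : ∀ x, ∀ S' : L.Structure ℕ, Iso (N x) S' → S' ∈ K := fun x =>
    mem_of_build hG hL hS (hback x) (hforth x)
  have hcl : ∀ (n : ℕ) (R : L.Relations n) (w : Fin n → Cl F K S),
      IsClopen {x | (N x).RelMap R w} := fun n R w =>
    isClopen_build (fun u v R => isClopen_codeB d d' a₀ b₀ t₁ t₁' t₂ t₂' u v R) n R w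
  have : Infinite (Cl F K S) := by
    have : Nonempty {a : ℕ // ¬ King F K S a} := ⟨⟨a₀, ha⟩⟩
    infer_instance
  -- elements
  let A : ℕ → Cl F K S := fun k => Sum.inr (⟨a₀, ha⟩, k)
  let C : ℕ → Cl F K S := fun l => Sum.inr (⟨b₀, hb⟩, l)
  have hAC : ∀ k l, k ≠ l → A k ≠ C l := by
    intro k l hkl h
    simp only [A, C, Sum.inr.injEq, Prod.mk.injEq] at h
    exact hkl h.2
  have hCinj : Function.Injective C := by
    intro k l h
    simp only [C, Sum.inr.injEq, Prod.mk.injEq] at h
    exact h.2
  have chiAB : ∀ x k l, k < l → (BM (N x) (A k) (C l) R ↔ Gam x k l = true) := by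
    intro x k l hkl
    rw [BM_build (hAC k l hkl.ne)]
    have e := codeB_code (F := F) (K := K) (S := S) (d := d) (d' := d') (a₀ := a₀) (b₀ := b₀) (t₁ := t₁)
      (t₁' := t₁') (t₂ := t₂) (t₂' := t₂') (x := x) (a := ⟨a₀, ha⟩) (b := ⟨b₀, hb⟩) rfl rfl hkl R
    refine Iff.trans e ?_
    by_cases h : Gam x k l = true <;> simp [h, hR1, hR2]
  have chiLow : ∀ x k l, l ≤ k → a₀ ≠ b₀ → (BM (N x) (A k) (C l) R ↔ BM S a₀ b₀ R) := by
    intro x k l hkl hne
    have hACkl : A k ≠ C l := by
      intro h
      simp only [A, C, Sum.inr.injEq, Prod.mk.injEq, Subtype.mk.injEq] at h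
      exact hne h.1
    rw [BM_build hACkl]
    show codeB F K S d d' a₀ b₀ t₁ t₁' t₂ t₂' x (A k) (C l) R ↔ _
    rw [codeB_diff (show prj F K S (A k) ≠ prj F K S (C l) from hne)]
    · rfl
    · intro a b k' l' h1 h2
      simp only [A, C, Sum.inr.injEq, Prod.mk.injEq] at h1 h2
      obtain ⟨rfl, rfl⟩ := h1
      obtain ⟨rfl, rfl⟩ := h2
      exact ⟨fun h => by omega, fun h => hne h.1⟩
  have chiOther : ∀ x k u, tp F S (prj F K S u) = tp F S b₀ → prj F K S u ≠ b₀ →
      (BM (N x) (A k) u R ↔ BM S a₀ (prj F K S u) R) := by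
    intro x k u hu1 hu2
    have hua : prj F K S u ≠ a₀ := by
      intro h
      rcases hab with hab | hab
      · exact hab (by rw [← hu1, h])
      · exact hu2 (h.trans hab)
    have hAu : A k ≠ u := by
      intro h
      exact hua (by rw [← h]; rfl)
    rw [BM_build hAu]
    show codeB F K S d d' a₀ b₀ t₁ t₁' t₂ t₂' x (A k) u R ↔ _
    rw [codeB_diff (show prj F K S (A k) ≠ prj F K S u from fun h => hua h.symm)]
    · rfl
    · intro a b k' l' h1 h2
      subst h2
      exact ⟨fun h => hu2 h.2.1, fun h => hua h.2.1⟩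
  have chiOther' : ∀ x v l, tp F S (prj F K S v) = tp F S a₀ → prj F K S v ≠ a₀ →
      (BM (N x) v (C l) R ↔ BM S (prj F K S v) b₀ R) := by
    intro x v l hv1 hv2
    have hvb : prj F K S v ≠ b₀ := by
      intro h
      rcases hab with hab | hab
      · exact hab (by rw [← hv1, h])
      · exact hv2 (h.trans hab.symm)
    have hvC : v ≠ C l := by
      intro h
      exact hvb (by rw [h]; rfl)
    rw [BM_build hvC]
    show codeB F K S d d' a₀ b₀ t₁ t₁' t₂ t₂' x v (C l) R ↔ _
    rw [codeB_diff (show prj F K S v ≠ prj F K S (C l) from hvb)]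
    · rfl
    · intro a b k' l' h1 h2
      subst h1
      exact ⟨fun h => hv2 h.1, fun h => hvb h.1⟩
  let w : Fin 4 → Cl F K S := fun i => A i.1
  let p := tp F S a₀
  let q := tp F S b₀
  have hnk : ∀ u, tp F S (prj F K S u) = tp F S b₀ → ∃ b l, u = Sum.inr (b, l) := by
    intro u hu
    rcases u with c | ⟨b, l⟩
    · exact absurd c.2 (fun h => hb ((king_congr hu).mp h))
    · exact ⟨b, l, rfl⟩
  have hnk' : ∀ u, tp F S (prj F K S u) = tp F S a₀ → ∃ b l, u = Sum.inr (b, l) := by
    intro u hu
    rcases u with c | ⟨b, l⟩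
    · exact absurd c.2 (fun h => ha ((king_congr hu).mp h))
    · exact ⟨b, l, rfl⟩
  have hUU : ∀ x u, u ∈ UU F (N x) q R w ↔ ∃ l, u = C l ∧ 4 ≤ l ∧ l % 2 = 0 := by
    intro x u
    constructor
    · rintro ⟨h0, hne, h1, h2, h3, h4⟩
      rw [htp] at h0
      obtain ⟨b, l, rfl⟩ := hnk u h0
      by_cases hbb : b.1 = b₀
      · have hb' : b = ⟨b₀, hb⟩ := Subtype.ext hbb
        subst hb'
        change BM (N x) (A 0) (C l) R at h1
        change ¬ BM (N x) (A 1) (C l) R at h2
        refine ⟨l, rfl, ?_⟩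
        rcases Nat.eq_zero_or_pos l with hl | hl
        · exfalso
          subst hl
          by_cases hne' : a₀ = b₀
          · apply hne 0
            show C 0 = A 0
            simp only [A, C, hne']
          · rw [chiLow x 0 0 le_rfl hne'] at h1
            rw [chiLow x 1 0 (by omega) hne'] at h2
            exact h2 h1
        · rw [chiAB x 0 l hl, gam_small (by omega)] at h1
          exact ⟨h1.1, h1.2.1⟩
      · exfalso
        change BM (N x) (A 0) _ R at h1
        change ¬ BM (N x) (A 1) _ R at h2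
        rw [chiOther x 0 _ h0 hbb] at h1
        rw [chiOther x 1 _ h0 hbb] at h2
        exact h2 h1
    · rintro ⟨l, rfl, hl4, hl2⟩
      refine ⟨?_, ?_, ?_, ?_, ?_, ?_⟩
      · rw [htp]; rfl
      · intro i h
        exact hAC i.1 l (by omega) h.symm
      · show BM (N x) (A 0) (C l) R
        rw [chiAB x 0 l (by omega), gam_small (by omega)]
        exact ⟨hl4, hl2, Or.inl rfl⟩
      · show ¬ BM (N x) (A 1) (C l) R
        rw [chiAB x 1 l (by omega), gam_small (by omega)]
        omega
      · show BM (N x) (A 2) (C l) R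
        rw [chiAB x 2 l (by omega), gam_small (by omega)]
        exact ⟨hl4, hl2, Or.inr rfl⟩
      · show ¬ BM (N x) (A 3) (C l) R
        rw [chiAB x 3 l (by omega), gam_small (by omega)]
        omega
  have hinf : ∀ (P : ℕ → Prop) (k₀ : ℕ) (s : Set (Cl F K S)),
      (∀ l, 4 ≤ l → k₀ < l → l % 2 = 0 → C l ∈ s) → s.ncard = 0 := by
    intro P k₀ s hs
    apply Set.Infinite.ncard
    have h1 : (range fun j : ℕ => C (2 * (j + k₀ + 4))).Infinite := by
      apply Set.infinite_range_of_injective
      intro i j hij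
      have := hCinj hij
      omega
    refine h1.mono ?_
    rintro _ ⟨j, rfl⟩
    exact hs _ (by omega) (by omega) (by omega)
  have count_odd : ∀ x m, x m = true →
      gg m ≤ {u | u ∈ UU F (N x) q R w ∧ BM (N x) (A (2 * m + 5)) u R}.ncard ∧
      {u | u ∈ UU F (N x) q R w ∧ BM (N x) (A (2 * m + 5)) u R}.ncard ≤ gg m + (2 * m + 5) := by
    intro x m hx
    set s := {u | u ∈ UU F (N x) q R w ∧ BM (N x) (A (2 * m + 5)) u R} with hs
    have hgam : ∀ l, 2 * m + 5 < l → (Gam x (2 * m + 5) l = true ↔
        l % 2 = 0 ∧ l < 2 * m + 5 + 2 * gg m) := by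
      intro l hl
      rw [gam_big (by omega)]
      have e : (2 * m + 5 - 5) / 2 = m := by omega
      rw [e, hx]
      simp only [Bool.true_eq_false, false_or]
      constructor
      · rintro ⟨h1, h2 | h2⟩
        · omega
        · exact ⟨h1, h2⟩
      · rintro ⟨h1, h2⟩
        exact ⟨h1, Or.inr h2⟩
    have hsub1 : ((fun j => C (2 * m + 6 + 2 * j)) '' (Finset.range (gg m) : Set ℕ)) ⊆ s := by
      rintro _ ⟨j, hj, rfl⟩
      have hj' : j < gg m := by simpa using hj
      refine ⟨(hUU x _).mpr ⟨_, rfl, by omega, by omega⟩, ?_⟩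
      rw [chiAB x _ _ (by omega), hgam _ (by omega)]
      constructor
      · omega
      · omega
    have hsub2 : s ⊆ C '' ((Finset.range (2 * m + 5) ∪
        (Finset.range (gg m)).image (fun j => 2 * m + 6 + 2 * j) : Finset ℕ) : Set ℕ) := by
      rintro u ⟨hu, hchi⟩
      obtain ⟨l, rfl, hl4, hl2⟩ := (hUU x u).mp hu
      refine ⟨l, ?_, rfl⟩
      simp only [Finset.coe_union, Finset.coe_range, Finset.coe_image, mem_union, mem_Iio,
        mem_image]
      by_cases hlk : l < 2 * m + 5
      · exact Or.inl hlk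
      · right
        have hlt : 2 * m + 5 < l := by omega
        rw [chiAB x _ _ hlt, hgam l hlt] at hchi
        refine ⟨(l - (2 * m + 6)) / 2, ?_, ?_⟩ <;> omega
    have hfin : s.Finite := (Finset.finite_toSet _ |>.image C).subset hsub2
    constructor
    · have h1 := Set.ncard_le_ncard hsub1 hfin
      rw [Set.ncard_image_of_injective _ (by
        intro i j hij
        have := hCinj hij
        omega), Set.ncard_coe_finset, Finset.card_range] at h1
      exact h1
    · refine (Set.ncard_le_ncard hsub2 (Finset.finite_toSet _ |>.image C)).trans ?_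
      rw [Set.ncard_image_of_injective _ hCinj, Set.ncard_coe_finset]
      refine (Finset.card_union_le _ _).trans ?_
      rw [Finset.card_range]
      have := Finset.card_image_le (s := Finset.range (gg m)) (f := fun j => 2 * m + 6 + 2 * j)
      rw [Finset.card_range] at this
      omega
  have hInv : ∀ x n, Inv F (N x) p q R w n ↔ x n = true := by
    intro x n
    constructor
    · rintro ⟨v, hv1, hv2, m, hm1, hm2, hm3⟩
      have hgp := gg_pos n
      rw [htp] at hv1
      obtain ⟨a, k, rfl⟩ := hnk' v hv1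
      by_cases haa : a.1 = a₀
      · have ha' : a = ⟨a₀, ha⟩ := Subtype.ext haa
        subst ha'
        change {u | u ∈ UU F (N x) q R w ∧ BM (N x) (A k) u R}.ncard = m at hm3
        have hfinal : (∀ l, 4 ≤ l → k < l → l % 2 = 0 → Gam x k l = true) → False := by
          intro h
          have : {u | u ∈ UU F (N x) q R w ∧ BM (N x) (A k) u R}.ncard = 0 := by
            refine hinf (fun _ => True) k _ fun l hl4 hkl hl2 => ?_
            exact ⟨(hUU x _).mpr ⟨l, rfl, hl4, hl2⟩, (chiAB x k l hkl).mpr (h l hl4 hkl hl2)⟩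
          omega
        by_cases hk4 : k < 4
        · exfalso
          by_cases hk : k = 0 ∨ k = 2
          · exact hfinal fun l hl4 _ hl2 => (gam_small hk4).mpr ⟨hl4, hl2, hk⟩
          · have : {u | u ∈ UU F (N x) q R w ∧ BM (N x) (A k) u R} = ∅ := by
              ext u
              simp only [mem_ofPred_eq, mem_empty_iff_false, iff_false, not_and]
              intro hu hchi
              obtain ⟨l, rfl, hl4, hl2⟩ := (hUU x u).mp hu
              rw [chiAB x k l (by omega), gam_small hk4] at hchi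
              exact hk hchi.2.2
            rw [this, Set.ncard_empty] at hm3
            omega
        · by_cases hk2 : k % 2 = 0
          · exact (hfinal fun l _ _ hl2 => (gam_big (by omega)).mpr ⟨hl2, Or.inl hk2⟩).elim
          · have hk : k = 2 * ((k - 5) / 2) + 5 := by omega
            by_cases hxm : x ((k - 5) / 2) = true
            · obtain ⟨h1, h2⟩ := count_odd x _ hxm
              rw [← hk] at h1 h2
              rw [hm3] at h1 h2
              have := gg_window hm1 hm2 h1 (by omega)
              rw [← this]; exact hxm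
            · have hxf : x ((k - 5) / 2) = false := by simpa using hxm
              exact (hfinal fun l _ _ hl2 =>
                (gam_big (by omega)).mpr ⟨hl2, Or.inr (Or.inl hxf)⟩).elim
      · exfalso
        by_cases hc : BM S a.1 b₀ R
        · have : {u | u ∈ UU F (N x) q R w ∧ BM (N x) (Sum.inr (a, k)) u R}.ncard = 0 := by
            refine hinf (fun _ => True) 0 _ fun l hl4 _ hl2 => ?_
            exact ⟨(hUU x _).mpr ⟨l, rfl, hl4, hl2⟩, (chiOther' x _ l hv1 haa).mpr hc⟩
          omega
        · have : {u | u ∈ UU F (N x) q R w ∧ BM (N x) (Sum.inr (a, k)) u R} = ∅ := by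
            ext u
            simp only [mem_ofPred_eq, mem_empty_iff_false, iff_false, not_and]
            intro hu hchi
            obtain ⟨l, rfl, hl4, hl2⟩ := (hUU x u).mp hu
            exact hc ((chiOther' x _ l hv1 haa).mp hchi)
          rw [this, Set.ncard_empty] at hm3
          omega
    · intro hx
      refine ⟨A (2 * n + 5), ?_, ?_, _, (count_odd x n hx).1, (count_odd x n hx).2, rfl⟩
      · rw [htp]; rfl
      · intro h
        obtain ⟨l, hl, hl4, hl2⟩ := (hUU x _).mp h
        simp only [A, C, Sum.inr.injEq, Prod.mk.injEq] at hl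
        omega
  refine perfK_of_decode N hmod hcl (ι := Fin 4 → Cl F K S) (fun w n => {y | Inv F (N y) p q R w n})
    ?_ ?_
  · intro w n
    exact measurableSet_inv (fun u => tp F S (prj F K S u)) htp
      (fun n R w => (hcl n R w).2.measurableSet) p q R w n
  · rintro x y ⟨e, he⟩
    refine ⟨e ∘ w, fun n => ?_⟩
    rw [← hInv x n, mem_ofPred_eq, inv_iso he]

end FormW

end Pool.Agent.Helper6
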