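import Pool.Agent.Helper6.IV2CodeB

/-!
# Infinitely many twin classes give perfectly many models
-/

set_option autoImplicit false

namespace Pool.Agent.Helper6

open Set Str

namespace FormW

variable {L : FirstOrder.Language.{0, 0}} {F : Set (FormW L)} {K : Set (L.Structure ℕ)}

/-- Uniqueness of two-types between non-king types. -/
def Rig (F : Set (FormW L)) (K : Set (L.Structure ℕ)) (S : L.Structure ℕ) : Prop :=
  ∀ a b, ¬ King F K S a → ¬ King F K S b → ∀ t₁ t₁' t₂ t₂',
    Rz F K (tp F S a) (tp F S b) t₁ t₁' → Rz F K (tp F S a) (tp F S b) t₂ t₂' →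
    t₁ = t₂ ∧ t₁' = t₂'

theorem rig_of_not_perf [∀ n, IsEmpty (L.Functions n)] (hG : Good F K)
    (hL : ∀ n, 3 ≤ n → IsEmpty (L.Relations n)) {S : L.Structure ℕ}
    (hS : S ∈ K) (hperf : ¬ PerfK K) : Rig F K S := by
  have key0 : ∀ a b, ¬ King F K S a → ¬ King F K S b → (tp F S a ≠ tp F S b ∨ a = b) →
      ∀ t₁ t₁' t₂ t₂', Rz F K (tp F S a) (tp F S b) t₁ t₁' →
        Rz F K (tp F S a) (tp F S b) t₂ t₂' → t₁ = t₂ := by
    intro a b ha hb hab t₁ t₁' t₂ t₂' h1 h2
    funext R
    apply propext
    constructor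
    · intro hR
      by_contra hR'
      exact hperf (perfK_of_two hG hL hS ha hb hab h1 h2 hR hR')
    · intro hR
      by_contra hR'
      exact hperf (perfK_of_two hG hL hS ha hb hab h2 h1 hR hR')
  have key : ∀ a b, ¬ King F K S a → ¬ King F K S b →
      ∀ t₁ t₁' t₂ t₂', Rz F K (tp F S a) (tp F S b) t₁ t₁' →
        Rz F K (tp F S a) (tp F S b) t₂ t₂' → t₁ = t₂ := by
    intro a b ha hb t₁ t₁' t₂ t₂' h1 h2
    by_cases hab : tp F S a = tp F S b
    · rw [← hab] at h1 h2
      exact key0 a a ha ha (Or.inr rfl) t₁ t₁' t₂ t₂' h1 h2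
    · exact key0 a b ha hb (Or.inl hab) t₁ t₁' t₂ t₂' h1 h2
  intro a b ha hb t₁ t₁' t₂ t₂' h1 h2
  exact ⟨key a b ha hb _ _ _ _ h1 h2, key b a hb ha _ _ _ _ h1.swap h2.swap⟩

/-- Same type and same relations to the kings. -/
def Tw {M : Type} (F : Set (FormW L)) (K : Set (L.Structure ℕ)) (S : L.Structure M) (a b : M) :
    Prop :=
  tp F S a = tp F S b ∧ ∀ c, King F K S c → BM S c a = BM S c b ∧ BM S a c = BM S b c

theorem Tw.refl {M : Type} {S : L.Structure M} (a : M) : Tw F K S a a :=
  ⟨rfl, fun _ _ => ⟨rfl, rfl⟩⟩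

theorem Tw.symm {M : Type} {S : L.Structure M} {a b : M} (h : Tw F K S a b) : Tw F K S b a :=
  ⟨h.1.symm, fun c hc => ⟨(h.2 c hc).1.symm, (h.2 c hc).2.symm⟩⟩

theorem Tw.trans {M : Type} {S : L.Structure M} {a b c : M} (h : Tw F K S a b)
    (h' : Tw F K S b c) : Tw F K S a c :=
  ⟨h.1.trans h'.1, fun d hd => ⟨(h.2 d hd).1.trans (h'.2 d hd).1, (h.2 d hd).2.trans (h'.2 d hd).2⟩⟩

theorem king_iso {M N : Type} {S : L.Structure M} {S' : L.Structure N} {e : M ≃ N}
    (h : RelIso S S' e) (a : M) : King F K S' (e a) ↔ King F K S a :=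
  king_congr (tp_iso h a)

theorem tw_iso {M N : Type} {S : L.Structure M} {S' : L.Structure N} {e : M ≃ N}
    (h : RelIso S S' e) (a b : M) : Tw F K S' (e a) (e b) ↔ Tw F K S a b := by
  rw [Tw, Tw, tp_iso h, tp_iso h]
  refine and_congr_right fun _ => ?_
  rw [← e.forall_congr_right]
  refine forall_congr' fun c => ?_
  rw [king_iso h, BM_iso' h, BM_iso' h, BM_iso' h, BM_iso' h]

variable [∀ n, IsEmpty (L.Functions n)]

theorem isClopen_build' {β : Type} {S : L.Structure ℕ} {π : (ℕ → Bool) → β → ℕ}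
    (hπ : ∀ u, Continuous fun x => π x u)
    {B : (ℕ → Bool) → β → β → L.Relations 2 → Prop}
    (hB : ∀ u v R, IsClopen {x | B x u v R}) (n : ℕ) (R : L.Relations n) (w : Fin n → β) :
    IsClopen {x | (build S (π x) (B x)).RelMap R w} := by
  have hconst : ∀ P : Prop, IsClopen {x : ℕ → Bool | P} := by
    intro P
    by_cases h : P <;> simp [h, isClopen_univ, isClopen_empty]
  have hS : ∀ (n : ℕ) (R : L.Relations n) (w : Fin n → β),
      IsClopen {x | S.RelMap R (π x ∘ w)} := by
    intro n R w
    have : Continuous fun x => π x ∘ w := continuous_pi fun i => hπ (w i)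
    exact (isClopen_discrete {z : Fin n → ℕ | S.RelMap R z}).preimage this
  match n, R, w with
  | 0, R, w => exact hS _ R w
  | 1, R, w => exact hS _ R w
  | 2, R, w => exact ((hconst _).inter (hS _ R w)).union ((hconst _).inter (hB _ _ _))
  | n + 3, R, w => exact hS _ R w

/-- Universe of the structures with prescribed numbers of realisations. -/
abbrev Cl2 (F : Set (FormW L)) (K : Set (L.Structure ℕ)) (S : L.Structure ℕ) : Type :=
  {c : ℕ // King F K S c} ⊕ (ℕ × ℕ)

/-- Number of realisations. -/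
def kap (x : ℕ → Bool) (i : ℕ) : ℕ := if x i then i + 3 else 2

/-- Projection of the structures with prescribed numbers of realisations. -/
def pr2 (F : Set (FormW L)) (K : Set (L.Structure ℕ)) (S : L.Structure ℕ) (a : ℕ → ℕ)
    (x : ℕ → Bool) : Cl2 F K S → ℕ
  | Sum.inl c => c.1
  | Sum.inr (0, _) => a 0
  | Sum.inr (i + 1, j) => if j < kap x i then a (i + 1) else a 0

open Classical in
/-- Binary relations. -/
noncomputable def B2 (F : Set (FormW L)) (K : Set (L.Structure ℕ)) (S : L.Structure ℕ)
    (a : ℕ → ℕ) (d : ℕ → L.Relations 2 → Prop)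
    (x : ℕ → Bool) (u v : Cl2 F K S) : L.Relations 2 → Prop :=
  if pr2 F K S a x u = pr2 F K S a x v then d (pr2 F K S a x u)
  else BM S (pr2 F K S a x u) (pr2 F K S a x v)

omit [∀ n, IsEmpty (L.Functions n)] in
theorem B2_eq {S : L.Structure ℕ} {a : ℕ → ℕ} {d : ℕ → L.Relations 2 → Prop} {x : ℕ → Bool}
    {u v : Cl2 F K S} (h : pr2 F K S a x u = pr2 F K S a x v) :
    B2 F K S a d x u v = d (pr2 F K S a x u) := by
  rw [B2, if_pos h]

omit [∀ n, IsEmpty (L.Functions n)] in
theorem B2_ne {S : L.Structure ℕ} {a : ℕ → ℕ} {d : ℕ → L.Relations 2 → Prop} {x : ℕ → Bool}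
    {u v : Cl2 F K S} (h : pr2 F K S a x u ≠ pr2 F K S a x v) :
    B2 F K S a d x u v = BM S (pr2 F K S a x u) (pr2 F K S a x v) := by
  rw [B2, if_neg h]

theorem kap_two_le (x : ℕ → Bool) (i : ℕ) : 2 ≤ kap x i := by
  unfold kap; split_ifs <;> omega

section

variable {S : L.Structure ℕ} {a : ℕ → ℕ} (hak : ∀ i, ¬ King F K S (a i))

omit [∀ n, IsEmpty (L.Functions n)] in
include hak in
theorem pr2_not_king (x : ℕ → Bool) (i j : ℕ) : ¬ King F K S (pr2 F K S a x (Sum.inr (i, j))) := by
  match i with
  | 0 => exact hak 0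
  | i + 1 =>
    simp only [pr2]
    split_ifs
    · exact hak _
    · exact hak _

omit [∀ n, IsEmpty (L.Functions n)] in
include hak in
theorem pr2_inj_king {x : ℕ → Bool} {u v : Cl2 F K S}
    (h : pr2 F K S a x u = pr2 F K S a x v)
    (hk : King F K S (pr2 F K S a x u)) : u = v := by
  rcases u with c | ⟨i, j⟩
  · rcases v with c' | ⟨i', j'⟩
    · exact congrArg Sum.inl (Subtype.ext h)
    · exact absurd (h ▸ hk) (pr2_not_king hak x i' j')
  · exact absurd hk (pr2_not_king hak x i j)

omit [∀ n, IsEmpty (L.Functions n)] in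
theorem pr2_succ {x : ℕ → Bool} {i j : ℕ} (hj : j < kap x i) :
    pr2 F K S a x (Sum.inr (i + 1, j)) = a (i + 1) := by
  simp only [pr2, hj, if_true]

omit [∀ n, IsEmpty (L.Functions n)] in
theorem pr2_succ' {x : ℕ → Bool} {i j : ℕ} (hj : ¬ j < kap x i) :
    pr2 F K S a x (Sum.inr (i + 1, j)) = a 0 := by
  simp only [pr2, hj, if_false]

omit [∀ n, IsEmpty (L.Functions n)] in
theorem pr2_two (x : ℕ → Bool) (i : ℕ) (u : Cl2 F K S) :
    ∃ v : Cl2 F K S, v ≠ u ∧ pr2 F K S a x v = a i := by
  have : ∃ v v' : Cl2 F K S, v ≠ v' ∧ pr2 F K S a x v = a i ∧ pr2 F K S a x v' = a i := by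
    match i with
    | 0 => exact ⟨Sum.inr (0, 0), Sum.inr (0, 1), by simp, rfl, rfl⟩
    | i + 1 =>
      have := kap_two_le x i
      exact ⟨Sum.inr (i + 1, 0), Sum.inr (i + 1, 1), by simp, pr2_succ (by omega),
        pr2_succ (by omega)⟩
  obtain ⟨v, v', hvv, h1, h2⟩ := this
  by_cases h : v = u
  · exact ⟨v', fun h' => hvv (h.trans h'.symm), h2⟩
  · exact ⟨v, h, h1⟩

omit [∀ n, IsEmpty (L.Functions n)] in
include hak in
theorem B2_forth (hS : S ∈ K) {d : ℕ → L.Relations 2 → Prop}
    (hd : ∀ c, ¬ King F K S c → Rz F K (tp F S c) (tp F S c) (d c) (d c))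
    (x : ℕ → Bool) (u v : Cl2 F K S) (huv : u ≠ v) :
    Rz F K (tp F S (pr2 F K S a x u)) (tp F S (pr2 F K S a x v)) (B2 F K S a d x u v)
      (B2 F K S a d x v u) := by
  by_cases h : pr2 F K S a x u = pr2 F K S a x v
  · rw [B2_eq h, B2_eq h.symm, ← h]
    exact hd _ fun hk => huv (pr2_inj_king hak h hk)
  · rw [B2_ne h, B2_ne (Ne.symm h)]
    exact rz_self hS h

omit [∀ n, IsEmpty (L.Functions n)] in
include hak in
theorem B2_back (hS : S ∈ K) (hrig : Rig F K S) (haex : ∀ b, ¬ King F K S b → ∃ i, Tw F K S b (a i))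
    {d : ℕ → L.Relations 2 → Prop}
    (hd : ∀ c, ¬ King F K S c → Rz F K (tp F S c) (tp F S c) (d c) (d c))
    (x : ℕ → Bool) (u : Cl2 F K S) (b : ℕ) :
    ∃ v : Cl2 F K S, tp F S (pr2 F K S a x v) = tp F S b ∧ (v = u ↔ b = pr2 F K S a x u) ∧
      (v ≠ u → ∀ R, (B2 F K S a d x u v R ↔ BM S (pr2 F K S a x u) b R) ∧
        (B2 F K S a d x v u R ↔ BM S b (pr2 F K S a x u) R)) := by
  by_cases hb : King F K S b
  · have hπ : pr2 F K S a x (Sum.inl ⟨b, hb⟩) = b := rfl
    refine ⟨Sum.inl ⟨b, hb⟩, by rw [hπ], ?_, ?_⟩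
    · constructor
      · intro h; rw [← h]; rfl
      · intro h; exact pr2_inj_king hak (hπ.trans h) hb
    · intro hne R
      have h1 : pr2 F K S a x u ≠ pr2 F K S a x (Sum.inl ⟨b, hb⟩) := by
        intro h
        exact hne (pr2_inj_king hak h.symm hb)
      rw [B2_ne h1, B2_ne h1.symm, hπ]
      exact ⟨Iff.rfl, Iff.rfl⟩
  · by_cases hbu : b = pr2 F K S a x u
    · exact ⟨u, by rw [hbu], ⟨fun _ => hbu, fun _ => rfl⟩, fun h => absurd rfl h⟩
    · obtain ⟨i, hi⟩ := haex b hb
      obtain ⟨v, hvu, hv⟩ := pr2_two (F := F) (K := K) (S := S) (a := a) x i u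
      refine ⟨v, by rw [hv, hi.1], ⟨fun h => absurd h hvu, fun h => absurd h hbu⟩, fun _ R => ?_⟩
      by_cases hu : King F K S (pr2 F K S a x u)
      · have h1 : pr2 F K S a x u ≠ pr2 F K S a x v := fun h => hvu (pr2_inj_king hak h hu).symm
        rw [B2_ne h1, B2_ne h1.symm, hv, (hi.2 _ hu).1, (hi.2 _ hu).2]
        exact ⟨Iff.rfl, Iff.rfl⟩
      · have h1 := B2_forth hak hS hd x u v hvu.symm
        rw [show tp F S (pr2 F K S a x v) = tp F S b by rw [hv, hi.1]] at h1
        have h2 := rz_self (F := F) hS (fun h => hbu h.symm : pr2 F K S a x u ≠ b)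
        obtain ⟨e1, e2⟩ := hrig _ _ hu hb _ _ _ _ h1 h2
        rw [e1, e2]
        exact ⟨Iff.rfl, Iff.rfl⟩

omit [∀ n, IsEmpty (L.Functions n)] in
theorem continuous_pr2 (u : Cl2 F K S) : Continuous fun x => pr2 F K S a x u := by
  rcases u with c | ⟨i, j⟩
  · exact continuous_const
  · match i with
    | 0 => exact continuous_const
    | i + 1 =>
      have : (fun x : ℕ → Bool => pr2 F K S a x (Sum.inr (i + 1, j))) =
          (fun b : Bool => if j < (if b then i + 3 else 2) then a (i + 1) else a 0) ∘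
            (fun x : ℕ → Bool => x i) := rfl
      rw [this]
      exact continuous_of_discreteTopology.comp (continuous_apply i)

omit [∀ n, IsEmpty (L.Functions n)] in
include hak in
theorem class_succ (hainj : ∀ i j, Tw F K S (a i) (a j) → i = j) (x : ℕ → Bool) (k : ℕ) :
    {v : Cl2 F K S | Tw F K S (pr2 F K S a x v) (a (k + 1))}.ncard = kap x k := by
  have : {v : Cl2 F K S | Tw F K S (pr2 F K S a x v) (a (k + 1))} =
      (fun j : ℕ => (Sum.inr (k + 1, j) : Cl2 F K S)) '' (Finset.range (kap x k) : Set ℕ) := by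
    ext v
    simp only [mem_ofPred_eq, mem_image, Finset.coe_range, mem_Iio]
    constructor
    · intro h
      rcases v with c | ⟨i', j⟩
      · exact absurd c.2 (fun h' => hak _ ((king_congr h.1).mp h'))
      · match i' with
        | 0 =>
          have := hainj 0 (k + 1) h
          omega
        | i' + 1 =>
          by_cases hj : j < kap x i'
          · rw [pr2_succ hj] at h
            have h3 := hainj _ _ h
            have h4 : i' = k := by omega
            subst h4
            exact ⟨j, hj, rfl⟩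
          · rw [pr2_succ' hj] at h
            have := hainj 0 (k + 1) h
            omega
    · rintro ⟨j, hj, rfl⟩
      rw [pr2_succ hj]
      exact Tw.refl _
  rw [this, Set.ncard_image_of_injective _ (by
    intro i j hij
    simpa using hij), Set.ncard_coe_finset, Finset.card_range]

end

theorem perfK_of_infinite_classes (hG : Good F K) (hL : ∀ n, 3 ≤ n → IsEmpty (L.Relations n))
    {S : L.Structure ℕ} (hS : S ∈ K) (hrig : Rig F K S) (a : ℕ → ℕ)
    (hak : ∀ i, ¬ King F K S (a i)) (hainj : ∀ i j, Tw F K S (a i) (a j) → i = j)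
    (haex : ∀ b, ¬ King F K S b → ∃ i, Tw F K S b (a i)) : PerfK K := by
  classical
  have hex : ∀ c, ∃ t, ¬ King F K S c → Rz F K (tp F S c) (tp F S c) t t := by
    intro c
    by_cases h : King F K S c
    · exact ⟨fun _ => False, fun h' => absurd h h'⟩
    · obtain ⟨t, t', ht⟩ := exists_rz_self h
      have := (hrig c c h h _ _ _ _ ht ht.swap).1
      subst this
      exact ⟨t, fun _ => ht⟩
  choose d hd using hex
  let N : (ℕ → Bool) → L.Structure (Cl2 F K S) := fun x => build S (pr2 F K S a x) (B2 F K S a d x)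
  have hback := fun x => B2_back hak hS hrig haex hd x
  have hforth := fun x => B2_forth hak hS hd x
  have htp : ∀ x u, tp F (N x) u = tp F S (pr2 F K S a x u) :=
    fun x u => tp_build hG.sub hL (hback x) (hforth x) u
  have hmod : ∀ x, ∀ S' : L.Structure ℕ, Iso (N x) S' → S' ∈ K := fun x =>
    mem_of_build hG hL hS (hback x) (hforth x)
  have hBc : ∀ u v R, IsClopen {x | B2 F K S a d x u v R} := by
    intro u v R
    have h1 : Continuous fun x => (pr2 F K S a x u, pr2 F K S a x v) :=
      (continuous_pr2 u).prodMk (continuous_pr2 v)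
    exact (isClopen_discrete
      {z : ℕ × ℕ | (if z.1 = z.2 then d z.1 else BM S z.1 z.2) R}).preimage h1
  have hcl : ∀ (n : ℕ) (R : L.Relations n) (w : Fin n → Cl2 F K S),
      IsClopen {x | (N x).RelMap R w} :=
    fun n R w => isClopen_build' continuous_pr2 hBc n R w
  have hking : ∀ x u, King F K (N x) u ↔ King F K S (pr2 F K S a x u) := fun x u =>
    king_congr (htp x u)
  have hBM : ∀ x u v, u ≠ v → BM (N x) u v = B2 F K S a d x u v := by
    intro x u v huv
    funext R
    exact propext (BM_build huv R)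
  -- the twin relation of `N x`
  have htw : ∀ x u v, ¬ King F K S (pr2 F K S a x u) → ¬ King F K S (pr2 F K S a x v) →
      (Tw F K (N x) u v ↔ Tw F K S (pr2 F K S a x u) (pr2 F K S a x v)) := by
    intro x u v hu hv
    rw [Tw, Tw, htp, htp]
    refine and_congr_right fun _ => ?_
    have hc : ∀ c : Cl2 F K S, ∀ w, King F K S (pr2 F K S a x c) →
        ¬ King F K S (pr2 F K S a x w) →
        BM (N x) c w = BM S (pr2 F K S a x c) (pr2 F K S a x w) ∧
        BM (N x) w c = BM S (pr2 F K S a x w) (pr2 F K S a x c) := by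
      intro c w hck hwk
      have h0 : pr2 F K S a x c ≠ pr2 F K S a x w := fun h => hwk (h ▸ hck)
      have h1 : c ≠ w := fun h => h0 (by rw [h])
      rw [hBM x c w h1, hBM x w c h1.symm, B2_ne h0, B2_ne h0.symm]
      exact ⟨rfl, rfl⟩
    constructor
    · intro h c hck
      have h2 := h (Sum.inl ⟨c, hck⟩) ((hking _ _).mpr hck)
      rw [(hc (Sum.inl ⟨c, hck⟩) u hck hu).1, (hc (Sum.inl ⟨c, hck⟩) u hck hu).2,
        (hc (Sum.inl ⟨c, hck⟩) v hck hv).1, (hc (Sum.inl ⟨c, hck⟩) v hck hv).2] at h2
      exact h2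
    · intro h c hck
      have hck' := (hking x c).mp hck
      rw [(hc c u hck' hu).1, (hc c u hck' hu).2, (hc c v hck' hv).1, (hc c v hck' hv).2]
      exact h _ hck'
  have hdec : ∀ x i, x i = true ↔ ∃ u, {v | Tw F K (N x) v u}.ncard = i + 3 := by
    intro x i
    have hset : ∀ u, ¬ King F K S (pr2 F K S a x u) → {v | Tw F K (N x) v u} =
        {v | Tw F K S (pr2 F K S a x v) (pr2 F K S a x u)} := by
      intro u hu
      ext v
      simp only [mem_ofPred_eq]
      by_cases hv : King F K S (pr2 F K S a x v)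
      · constructor
        · intro h
          exact absurd ((king_congr h.1).mp ((hking x v).mpr hv)) (fun h' => hu ((hking x u).mp h'))
        · intro h
          exact absurd ((king_congr h.1).mp hv) hu
      · exact htw x v u hv hu
    constructor
    · intro hx
      have h0 : 0 < kap x i := by have := kap_two_le x i; omega
      refine ⟨Sum.inr (i + 1, 0), ?_⟩
      rw [hset _ (pr2_not_king hak x _ _), pr2_succ h0, class_succ hak hainj, kap, if_pos hx]
    · rintro ⟨u, hi⟩
      by_cases hk : King F K S (pr2 F K S a x u)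
      · exfalso
        have : {v | Tw F K (N x) v u} = {u} := by
          ext v
          simp only [mem_ofPred_eq, mem_singleton_iff]
          constructor
          · intro h
            have h1 := h.1
            rw [htp, htp] at h1
            have := king_of_tp_eq hS h1.symm hk
            exact (pr2_inj_king hak this.symm hk).symm
          · rintro rfl; exact Tw.refl _
        rw [this, Set.ncard_singleton] at hi
        omega
      · rw [hset u hk] at hi
        obtain ⟨k, hk'⟩ := haex _ hk
        have e1 : {v : Cl2 F K S | Tw F K S (pr2 F K S a x v) (pr2 F K S a x u)} =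
            {v : Cl2 F K S | Tw F K S (pr2 F K S a x v) (a k)} := by
          ext v
          exact ⟨fun h => h.trans hk', fun h => h.trans hk'.symm⟩
        rw [e1] at hi
        rcases k with _ | k
        · exfalso
          have : {v : Cl2 F K S | Tw F K S (pr2 F K S a x v) (a 0)}.ncard = 0 := by
            apply Set.Infinite.ncard
            have h1 : (range fun j : ℕ => (Sum.inr (0, j) : Cl2 F K S)).Infinite := by
              apply Set.infinite_range_of_injective
              intro i j hij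
              simpa using hij
            refine h1.mono ?_
            rintro _ ⟨j, rfl⟩
            exact Tw.refl _
          omega
        · rw [class_succ hak hainj, kap] at hi
          by_cases hx : x k = true
          · rw [if_pos hx] at hi
            have : k = i := by omega
            rw [← this]; exact hx
          · rw [if_neg hx] at hi
            omega
  have hinfC : Infinite (Cl2 F K S) := by infer_instance
  refine perfK_of_family N hmod hcl ?_
  rintro x y ⟨e, he⟩
  have key : ∀ i, (∃ u, {v | Tw F K (N x) v u}.ncard = i + 3) ↔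
      (∃ u, {v | Tw F K (N y) v u}.ncard = i + 3) := by
    intro i
    refine Iff.trans ?_ (e.exists_congr_right (q := fun u =>
      {v | Tw F K (N y) v u}.ncard = i + 3))
    refine exists_congr fun u => ?_
    have h1 : {v | Tw F K (N y) v (e u)} = e '' {v | Tw F K (N x) v u} := by
      ext v
      obtain ⟨v, rfl⟩ := e.surjective v
      simp only [mem_ofPred_eq, tw_iso he, mem_image, EmbeddingLike.apply_eq_iff_eq,
        exists_eq_right]
    rw [h1, Set.ncard_image_of_injective _ e.injective]
  funext i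
  have := key i
  rw [← hdec, ← hdec] at this
  exact Bool.eq_iff_iff.mpr this

end FormW

end Pool.Agent.Helper6
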