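import Mathlib

/-!
# Two-variable formulas of the infinitary logic with countable conjunctions

Syntax and semantics of the two-variable fragment (with equality) of the logic
`L_{omega_1, omega}` over a relational language `L`.  The two variables are named by `false`
(`x`) and `true` (`y`).
-/

set_option autoImplicit false

namespace Pool.Agent.Helper6

/-- Two-variable formulas of `L_{omega_1, omega}` over the relation symbols of `L`: the variables
are `false` and `true`, they may be requantified, and countable conjunctions are allowed. -/
inductive FormW (L : FirstOrder.Language.{0, 0}) : Type
  /-- an atomic formula `R(v_0, ..., v_{n-1})`, every `v_i` being one of the two variables -/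
  | rel {n : ℕ} (R : L.Relations n) (v : Fin n → Bool) : FormW L
  /-- equality of two variables -/
  | eq (i j : Bool) : FormW L
  /-- negation -/
  | neg (φ : FormW L) : FormW L
  /-- conjunction of a sequence of formulas -/
  | conj (f : ℕ → FormW L) : FormW L
  /-- existential quantification of the variable `i` -/
  | ex (i : Bool) (φ : FormW L) : FormW L

namespace FormW

variable {L : FirstOrder.Language.{0, 0}} {M : Type}

/-- Satisfaction of a two-variable formula in a structure `S` on `M` under an assignment of the
two variables. -/
def Sat (S : L.Structure M) : FormW L → (Bool → M) → Prop
  | rel R v, s => S.RelMap R (fun k => s (v k))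
  | eq i j, s => s i = s j
  | neg φ, s => ¬ Sat S φ s
  | conj f, s => ∀ k : ℕ, Sat S (f k) s
  | ex i φ, s => ∃ a : M, Sat S φ (Function.update s i a)

/-- A two-variable formula holds in a structure if it is satisfied under every assignment (that
is, if its universal closure, a two-variable sentence, is true). -/
def Holds (S : L.Structure M) (φ : FormW L) : Prop := ∀ s : Bool → M, φ.Sat S s

end FormW

end Pool.Agent.Helper6
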