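import Pool.Agent.Helper6.IV2Main

/-!
# The dichotomy for two-variable sentences of the infinitary logic, conclusion
-/

set_option autoImplicit false

namespace Pool.Agent.Helper6

open Set Str

namespace FormW

variable {L : FirstOrder.Language.{0, 0}} {F : Set (FormW L)} {K : Set (L.Structure ℕ)}

section

variable [∀ n, IsEmpty (L.Functions n)] [∀ n, Countable (L.Relations n)]

/-- Either countably many configurations are realised or there are perfectly many models. -/
theorem countable_CF (hF : F.Countable) (hK : MeasurableSet {c : Code L | toStr c ∈ K})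
    (hperf : ¬ PerfK K) : (CF F K).Countable := by
  classical
  by_contra hunc
  apply hperf
  have : Countable F := hF.to_subtype
  let Y : Type := (F ⊕ F) ⊕ (L.Relations 2 ⊕ L.Relations 2) → Bool
  let enc : Cfg L → Y := fun κ => Sum.elim
    (Sum.elim (fun φ => decide (φ.1 ∈ κ.1)) (fun φ => decide (φ.1 ∈ κ.2.1)))
    (Sum.elim (fun R => decide (κ.2.2.1 R)) (fun R => decide (κ.2.2.2 R)))
  have henc : ∀ κ κ' : Cfg L, κ.1 ⊆ F → κ.2.1 ⊆ F → κ'.1 ⊆ F → κ'.2.1 ⊆ F →
      enc κ = enc κ' → κ = κ' := by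
    intro κ κ' h1 h2 h3 h4 h
    have e1 : κ.1 = κ'.1 := by
      ext φ
      constructor
      · intro hφ
        have := congrFun h (Sum.inl (Sum.inl ⟨φ, h1 hφ⟩))
        simp only [enc, Sum.elim_inl, decide_eq_decide] at this
        exact this.mp hφ
      · intro hφ
        have := congrFun h (Sum.inl (Sum.inl ⟨φ, h3 hφ⟩))
        simp only [enc, Sum.elim_inl, decide_eq_decide] at this
        exact this.mpr hφ
    have e2 : κ.2.1 = κ'.2.1 := by
      ext φ
      constructor
      · intro hφ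
        have := congrFun h (Sum.inl (Sum.inr ⟨φ, h2 hφ⟩))
        simp only [enc, Sum.elim_inl, Sum.elim_inr, decide_eq_decide] at this
        exact this.mp hφ
      · intro hφ
        have := congrFun h (Sum.inl (Sum.inr ⟨φ, h4 hφ⟩))
        simp only [enc, Sum.elim_inl, Sum.elim_inr, decide_eq_decide] at this
        exact this.mpr hφ
    have e3 : κ.2.2.1 = κ'.2.2.1 := by
      funext R
      have := congrFun h (Sum.inr (Sum.inl R))
      simp only [enc, Sum.elim_inl, Sum.elim_inr, decide_eq_decide] at this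
      exact propext this
    have e4 : κ.2.2.2 = κ'.2.2.2 := by
      funext R
      have := congrFun h (Sum.inr (Sum.inr R))
      simp only [enc, Sum.elim_inr, decide_eq_decide] at this
      exact propext this
    exact Prod.ext e1 (Prod.ext e2 (Prod.ext e3 e4))
  have hsub : ∀ (S : L.Structure ℕ) (a : ℕ), tp F S a ⊆ F := fun S a φ h => h.1
  refine perfK_of_reals (J := ℕ × ℕ) (Y := Y)
    (B := fun j => {c | toStr c ∈ K} ∩ {c | j.1 ≠ j.2})
    (Z := fun j c => enc (cfg F (toStr c) j.1 j.2)) ?_ ?_ ?_ ?_ ?_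
  · exact fun j => hK.inter (MeasurableSet.const _)
  · exact fun j c hc => hc.1
  · rintro ⟨a, b⟩
    refine measurable_pi_iff.mpr fun i => measurable_to_bool ?_
    rcases i with (φ | φ) | (R | R)
    · have : (fun c : Code L => enc (cfg F (toStr c) a b) (Sum.inl (Sum.inl φ))) ⁻¹' {true} =
          {c | φ.1 ∈ tp F (toStr c) a} := by
        ext c; simp [enc, cfg]
      exact this ▸ mS_mem_tp _ _
    · have : (fun c : Code L => enc (cfg F (toStr c) a b) (Sum.inl (Sum.inr φ))) ⁻¹' {true} =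
          {c | φ.1 ∈ tp F (toStr c) b} := by
        ext c; simp [enc, cfg]
      exact this ▸ mS_mem_tp _ _
    · have : (fun c : Code L => enc (cfg F (toStr c) a b) (Sum.inr (Sum.inl R))) ⁻¹' {true} =
          {c | BM (toStr c) a b R} := by
        ext c; simp [enc, cfg]
      exact this ▸ measurableSet_relMap R _
    · have : (fun c : Code L => enc (cfg F (toStr c) a b) (Sum.inr (Sum.inr R))) ⁻¹' {true} =
          {c | BM (toStr c) b a R} := by
        ext c; simp [enc, cfg]
      exact this ▸ measurableSet_relMap R _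
  · rintro ⟨a, b⟩ k c hc d hd ⟨e, he⟩
    exact ⟨(e a, e b), by rw [cfg_iso he]⟩
  · intro hcount
    apply hunc
    have h1 : Set.InjOn enc (CF F K) := by
      rintro κ ⟨S, hS, a, b, hab, rfl⟩ κ' ⟨S', hS', a', b', hab', rfl⟩ h
      exact henc _ _ (hsub _ _) (hsub _ _) (hsub _ _) (hsub _ _) h
    refine countable_of_injective_of_countable_image h1 (hcount.mono ?_)
    rintro _ ⟨κ, ⟨S, hS, a, b, hab, rfl⟩, rfl⟩
    refine mem_iUnion.mpr ⟨(a, b), ofStr S, ⟨?_, hab⟩, ?_⟩
    · show toStr (ofStr S) ∈ K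
      rwa [toStr_ofStr]
    · show enc (cfg F (toStr (ofStr S)) a b) = _
      rw [toStr_ofStr]

end

/-- Index type of the invariants. -/
abbrev Idx (F : Set (FormW L)) (K : Set (L.Structure ℕ)) : Type :=
  (TT F K ⊕ CF F K) ⊕ ((ℕ × TT F K) ⊕ (ℕ × CF F K)) ⊕ ((ℕ × ℕ) ⊕ ℕ)

/-- The invariants of a structure with representatives of the twin classes. -/
def PI (F : Set (FormW L)) (K : Set (L.Structure ℕ)) (w : (n : ℕ) × (Fin n → ℕ))
    (S : L.Structure ℕ) : Idx F K → Prop
  | Sum.inl (Sum.inl p) => ∃ c, King F K S c ∧ tp F S c = p.1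
  | Sum.inl (Sum.inr κ) => ∃ c d, King F K S c ∧ King F K S d ∧ c ≠ d ∧ cfg F S c d = κ.1
  | Sum.inr (Sum.inl (Sum.inl (i, p))) => ∃ h : i < w.1, tp F S (w.2 ⟨i, h⟩) = p.1
  | Sum.inr (Sum.inl (Sum.inr (i, κ))) => ∃ h : i < w.1, ∃ c, King F K S c ∧
      cfg F S c (w.2 ⟨i, h⟩) = κ.1
  | Sum.inr (Sum.inr (Sum.inl (i, m))) => ∃ h : i < w.1,
      (m : ℕ∞) ≤ {b | Tw F K S b (w.2 ⟨i, h⟩)}.encard
  | Sum.inr (Sum.inr (Sum.inr i)) => i < w.1

/-- `w` lists representatives of the classes of non-kings. -/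
def Reps (F : Set (FormW L)) (K : Set (L.Structure ℕ)) (w : (n : ℕ) × (Fin n → ℕ))
    (S : L.Structure ℕ) : Prop :=
  (∀ i, ¬ King F K S (w.2 i)) ∧ (∀ i j, Tw F K S (w.2 i) (w.2 j) → i = j) ∧
    ∀ b, ¬ King F K S b → ∃ i, Tw F K S b (w.2 i)

theorem pi_iso {S S' : L.Structure ℕ} {e : ℕ ≃ ℕ} (h : RelIso S S' e)
    (w : (n : ℕ) × (Fin n → ℕ)) (i : Idx F K) :
    PI F K ⟨w.1, e ∘ w.2⟩ S' i ↔ PI F K w S i := by
  rcases i with (p | κ) | (⟨i, p⟩ | ⟨i, κ⟩) | ⟨i, m⟩ | i
  · simp only [PI]
    rw [← e.exists_congr_right]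
    exact exists_congr fun c => by rw [king_iso h, tp_iso h]
  · simp only [PI]
    rw [← e.exists_congr_right]
    refine exists_congr fun c => ?_
    rw [← e.exists_congr_right]
    refine exists_congr fun d => ?_
    rw [king_iso h, king_iso h, cfg_iso h]
    simp
  · simp only [PI, Function.comp]
    exact exists_congr fun h' => by rw [tp_iso h]
  · simp only [PI, Function.comp]
    refine exists_congr fun h' => ?_
    rw [← e.exists_congr_right]
    exact exists_congr fun c => by rw [king_iso h, cfg_iso h]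
  · simp only [PI, Function.comp]
    refine exists_congr fun h' => ?_
    have : {b | Tw F K S' b (e (w.2 ⟨i, h'⟩))} = e '' {b | Tw F K S b (w.2 ⟨i, h'⟩)} := by
      ext v
      obtain ⟨v, rfl⟩ := e.surjective v
      simp only [mem_ofPred_eq, tw_iso h, mem_image, EmbeddingLike.apply_eq_iff_eq,
        exists_eq_right]
    rw [this, e.injective.encard_image]
  · exact Iff.rfl

theorem reps_iso {S S' : L.Structure ℕ} {e : ℕ ≃ ℕ} (h : RelIso S S' e)
    {w : (n : ℕ) × (Fin n → ℕ)} (hw : Reps F K w S) : Reps F K ⟨w.1, e ∘ w.2⟩ S' := by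
  obtain ⟨h1, h2, h3⟩ := hw
  refine ⟨fun i => ?_, fun i j hij => ?_, fun b hb => ?_⟩
  · show ¬ King F K S' (e (w.2 i))
    rw [king_iso h]; exact h1 i
  · exact h2 i j ((tw_iso h _ _).mp hij)
  · obtain ⟨b, rfl⟩ := e.surjective b
    rw [king_iso h] at hb
    obtain ⟨i, hi⟩ := h3 b hb
    exact ⟨i, (tw_iso h _ _).mpr hi⟩

section classify

variable {S S' : L.Structure ℕ} {n : ℕ} {w w' : Fin n → ℕ}

open Classical in
/-- Label of an element. -/
noncomputable def lab (F : Set (FormW L)) (K : Set (L.Structure ℕ)) (S : L.Structure ℕ)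
    (w : Fin n → ℕ) (b : ℕ) : Set (FormW L) ⊕ Fin n ⊕ Unit :=
  if King F K S b then Sum.inl (tp F S b)
  else if h : ∃ i, Tw F K S b (w i) then Sum.inr (Sum.inl h.choose) else Sum.inr (Sum.inr ())

theorem lab_king {b : ℕ} (h : King F K S b) : lab F K S w b = Sum.inl (tp F S b) := by
  rw [lab, if_pos h]

theorem lab_not_king (hw : Reps F K ⟨n, w⟩ S) {b : ℕ} (h : ¬ King F K S b) :
    ∃ i, Tw F K S b (w i) ∧ lab F K S w b = Sum.inr (Sum.inl i) := by
  have h' := hw.2.2 b h
  refine ⟨h'.choose, h'.choose_spec, ?_⟩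
  rw [lab, if_neg h, dif_pos h']

theorem lab_eq_inl (hw : Reps F K ⟨n, w⟩ S) {b : ℕ} {p : Set (FormW L)} :
    lab F K S w b = Sum.inl p ↔ King F K S b ∧ tp F S b = p := by
  by_cases h : King F K S b
  · rw [lab_king h]
    simp [h]
  · obtain ⟨i, _, hi⟩ := lab_not_king hw h
    rw [hi]
    simp [h]

theorem lab_eq_inr (hw : Reps F K ⟨n, w⟩ S) {b : ℕ} {i : Fin n} :
    lab F K S w b = Sum.inr (Sum.inl i) ↔ Tw F K S b (w i) := by
  by_cases h : King F K S b
  · rw [lab_king h]
    simp only [reduceCtorEq, false_iff]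
    intro h'
    exact hw.1 i ((king_congr h'.1).mp h)
  · obtain ⟨j, hj, hj'⟩ := lab_not_king hw h
    rw [hj']
    simp only [Sum.inr.injEq, Sum.inl.injEq]
    constructor
    · rintro rfl; exact hj
    · intro h'; exact hw.2.1 _ _ (hj.symm.trans h')

theorem exists_bij (hS : S ∈ K) (hS' : S' ∈ K) (hw : Reps F K ⟨n, w⟩ S)
    (hw' : Reps F K ⟨n, w'⟩ S')
    (hpi : ∀ i, PI F K ⟨n, w⟩ S i ↔ PI F K ⟨n, w'⟩ S' i) :
    ∃ e : ℕ ≃ ℕ, ∀ b, lab F K S' w' (e b) = lab F K S w b := by
  have key : ∀ ℓ : Set (FormW L) ⊕ Fin n ⊕ Unit,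
      Nonempty ({b | lab F K S w b = ℓ} ≃ {b | lab F K S' w' b = ℓ}) := by
    intro ℓ
    apply nonempty_equiv_of_encard_eq'
    rcases ℓ with p | i | u
    · simp only [lab_eq_inl hw, lab_eq_inl hw']
      have huniq : ∀ {S₀ : L.Structure ℕ}, S₀ ∈ K → ∀ {c}, King F K S₀ c → tp F S₀ c = p →
          {b | King F K S₀ b ∧ tp F S₀ b = p} = {c} := by
        intro S₀ hS₀ c hc hcp
        ext b
        simp only [mem_ofPred_eq, mem_singleton_iff]
        constructor
        · rintro ⟨h1, h2⟩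
          exact king_of_tp_eq hS₀ (hcp.trans h2.symm) hc
        · rintro rfl; exact ⟨hc, hcp⟩
      by_cases h1 : ∃ c, King F K S c ∧ tp F S c = p
      · obtain ⟨c, hc, hcp⟩ := h1
        have hp : p ∈ TT F K := ⟨S, hS, c, hcp⟩
        obtain ⟨c', hc', hcp'⟩ := (hpi (Sum.inl (Sum.inl ⟨p, hp⟩))).mp ⟨c, hc, hcp⟩
        rw [huniq hS hc hcp, huniq hS' hc' hcp', encard_singleton, encard_singleton]
      · have h2 : ¬ ∃ c, King F K S' c ∧ tp F S' c = p := by
          rintro ⟨c, hc, hcp⟩
          have hp : p ∈ TT F K := ⟨S', hS', c, hcp⟩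
          exact h1 ((hpi (Sum.inl (Sum.inl ⟨p, hp⟩))).mpr ⟨c, hc, hcp⟩)
        have e1 : {b | King F K S b ∧ tp F S b = p} = ∅ := by
          ext b
          simp only [mem_ofPred_eq, mem_empty_iff_false, iff_false]
          exact fun h => h1 ⟨b, h⟩
        have e2 : {b | King F K S' b ∧ tp F S' b = p} = ∅ := by
          ext b
          simp only [mem_ofPred_eq, mem_empty_iff_false, iff_false]
          exact fun h => h2 ⟨b, h⟩
        rw [e1, e2]
    · simp only [lab_eq_inr hw, lab_eq_inr hw']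
      apply enat_eq_of_forall
      intro m
      have := hpi (Sum.inr (Sum.inr (Sum.inl (i.1, m))))
      simpa only [PI, i.2, exists_true_left] using this
    · have e1 : {b | lab F K S w b = Sum.inr (Sum.inr u)} = ∅ := by
        ext b
        simp only [mem_ofPred_eq, mem_empty_iff_false, iff_false]
        intro h
        by_cases hk : King F K S b
        · rw [lab_king hk] at h; simp at h
        · obtain ⟨i, _, hi⟩ := lab_not_king hw hk
          rw [hi] at h; simp at h
      have e2 : {b | lab F K S' w' b = Sum.inr (Sum.inr u)} = ∅ := by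
        ext b
        simp only [mem_ofPred_eq, mem_empty_iff_false, iff_false]
        intro h
        by_cases hk : King F K S' b
        · rw [lab_king hk] at h; simp at h
        · obtain ⟨i, _, hi⟩ := lab_not_king hw' hk
          rw [hi] at h; simp at h
      rw [e1, e2]
  let e : ℕ ≃ ℕ := Equiv.ofFiberEquiv (f := lab F K S w) (g := lab F K S' w')
    fun ℓ => (key ℓ).some
  exact ⟨e, fun a => Equiv.ofFiberEquiv_map _ a⟩

theorem iso_of_pi (hF : SubCl F) (hL : ∀ n, 3 ≤ n → IsEmpty (L.Relations n)) (hS : S ∈ K)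
    (hS' : S' ∈ K) (hrig : Rig F K S) (hw : Reps F K ⟨n, w⟩ S)
    (hw' : Reps F K ⟨n, w'⟩ S')
    (hpi : ∀ i, PI F K ⟨n, w⟩ S i ↔ PI F K ⟨n, w'⟩ S' i) : Iso S S' := by
  obtain ⟨e, he⟩ := exists_bij hS hS' hw hw' hpi
  refine ⟨e, ?_⟩
  have htw : ∀ i b, Tw F K S b (w i) ↔ Tw F K S' (e b) (w' i) := by
    intro i b
    rw [← lab_eq_inr hw, ← lab_eq_inr hw', he]
  have htpi : ∀ i, tp F S' (w' i) = tp F S (w i) := by
    intro i
    have hp : tp F S (w i) ∈ TT F K := ⟨S, hS, w i, rfl⟩
    obtain ⟨_, h⟩ := (hpi (Sum.inr (Sum.inl (Sum.inl (i.1, ⟨_, hp⟩))))).mp ⟨i.2, rfl⟩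
    exact h
  have hking : ∀ b, King F K S b → King F K S' (e b) ∧ tp F S' (e b) = tp F S b := by
    intro b hb
    rw [← lab_eq_inl hw', he, lab_king hb]
  have htp : ∀ b, tp F S' (e b) = tp F S b := by
    intro b
    by_cases hb : King F K S b
    · exact (hking b hb).2
    · obtain ⟨i, hi⟩ := hw.2.2 b hb
      exact ((htw i b).mp hi).1.trans ((htpi i).trans hi.1.symm)
  have hdiag : ∀ {n : ℕ} (R : L.Relations n) (b : ℕ),
      S.RelMap R (fun _ => b) ↔ S'.RelMap R (fun _ => e b) := by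
    intro n R b
    rw [← rel_mem_tp hF, ← rel_mem_tp hF, htp]
  -- binary relations
  have hbin : ∀ a b, a ≠ b → BM S' (e a) (e b) = BM S a b := by
    have hkk : ∀ a b, a ≠ b → King F K S a → King F K S b → BM S' (e a) (e b) = BM S a b := by
      intro a b hab ha hb
      have hκ : cfg F S a b ∈ CF F K := ⟨S, hS, a, b, hab, rfl⟩
      obtain ⟨c, d, hc, hd, _, hcd⟩ := (hpi (Sum.inl (Sum.inr ⟨_, hκ⟩))).mp ⟨a, b, ha, hb, hab, rfl⟩
      simp only [cfg, Prod.mk.injEq] at hcd
      obtain ⟨h1, h2, h3, h4⟩ := hcd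
      have e1 : e a = c := king_of_tp_eq hS' (h1.trans (htp a).symm) hc
      have e2 : e b = d := king_of_tp_eq hS' (h2.trans (htp b).symm) hd
      rw [e1, e2]; exact h3
    have hkn : ∀ a b, King F K S a → ¬ King F K S b → BM S' (e a) (e b) = BM S a b ∧
        BM S' (e b) (e a) = BM S b a := by
      intro a b ha hb
      obtain ⟨i, hi⟩ := hw.2.2 b hb
      have hne : a ≠ w i := fun h => hw.1 i (show King F K S (w i) from h ▸ ha)
      have hκ : cfg F S a (w i) ∈ CF F K := ⟨S, hS, a, w i, hne, rfl⟩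
      obtain ⟨_, c, hc, hcd⟩ := (hpi (Sum.inr (Sum.inl (Sum.inr (i.1, ⟨_, hκ⟩))))).mp
        ⟨i.2, a, ha, rfl⟩
      simp only [cfg, Prod.mk.injEq] at hcd
      obtain ⟨h1, h2, h3, h4⟩ := hcd
      have e1 : e a = c := king_of_tp_eq hS' (h1.trans (htp a).symm) hc
      have hi' := (htw i b).mp hi
      have hka := (hking a ha).1
      rw [(hi'.2 _ hka).1, (hi'.2 _ hka).2, (hi.2 _ ha).1, (hi.2 _ ha).2, e1]
      exact ⟨h3, h4⟩
    intro a b hab
    by_cases ha : King F K S a
    · by_cases hb : King F K S b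
      · exact hkk a b hab ha hb
      · exact (hkn a b ha hb).1
    · by_cases hb : King F K S b
      · exact (hkn b a hb ha).2
      · have hne : e a ≠ e b := fun h => hab (e.injective h)
        have h1 := rz_self (F := F) hS hab
        have h2 := rz_self (F := F) hS' hne
        rw [htp, htp] at h2
        exact (hrig a b ha hb _ _ _ _ h2 h1).1
  intro m R v
  match m, R, v with
  | 0, R, v =>
    have h1 := hdiag R 0
    rwa [Subsingleton.elim (fun _ : Fin 0 => (0 : ℕ)) v,
      Subsingleton.elim (fun _ : Fin 0 => e 0) (e ∘ v)] at h1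
  | 1, R, v =>
    have h1 := hdiag R (v 0)
    have e1 : (fun _ : Fin 1 => v 0) = v := by funext k; rw [Subsingleton.elim k 0]
    have e2 : (fun _ : Fin 1 => e (v 0)) = e ∘ v := by
      funext k; rw [Subsingleton.elim k 0]; rfl
    rwa [e1, e2] at h1
  | 2, R, v =>
    have hv : v = ![v 0, v 1] := by funext k; fin_cases k <;> rfl
    have hev : e ∘ v = ![e (v 0), e (v 1)] := by funext k; fin_cases k <;> rfl
    rw [hev, hv]
    show BM S (v 0) (v 1) R ↔ BM S' (e (v 0)) (e (v 1)) R
    generalize v 0 = a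
    generalize v 1 = b
    by_cases hab : a = b
    · subst hab
      have h1 := hdiag R a
      have e1 : (fun _ : Fin 2 => a) = ![a, a] := by funext k; fin_cases k <;> rfl
      have e2 : (fun _ : Fin 2 => e a) = ![e a, e a] := by funext k; fin_cases k <;> rfl
      rwa [e1, e2] at h1
    · rw [hbin a b hab]
  | m + 3, R, v => exact (hL (m + 3) (by omega)).elim R

end classify

section final

variable [∀ n, IsEmpty (L.Functions n)] [∀ n, Countable (L.Relations n)]

omit [∀ n, IsEmpty (L.Functions n)] [∀ n, Countable (L.Relations n)] in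
theorem mS_ex {ι : Sort*} [Countable ι] {P : ι → Code L → Prop}
    (h : ∀ a, MeasurableSet {c | P a c}) : MeasurableSet {c | ∃ a, P a c} := by
  have : {c | ∃ a, P a c} = ⋃ a, {c | P a c} := by ext c; simp
  rw [this]
  exact MeasurableSet.iUnion h

omit [∀ n, IsEmpty (L.Functions n)] [∀ n, Countable (L.Relations n)] in
theorem mS_all {ι : Sort*} [Countable ι] {P : ι → Code L → Prop}
    (h : ∀ a, MeasurableSet {c | P a c}) : MeasurableSet {c | ∀ a, P a c} := by
  have : {c | ∀ a, P a c} = ⋂ a, {c | P a c} := by ext c; simp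
  rw [this]
  exact MeasurableSet.iInter h

omit [∀ n, IsEmpty (L.Functions n)] [∀ n, Countable (L.Relations n)] in
theorem mS_and {P Q : Code L → Prop} (hP : MeasurableSet {c | P c})
    (hQ : MeasurableSet {c | Q c}) : MeasurableSet {c | P c ∧ Q c} := hP.inter hQ

theorem mS_pi (hF : F.Countable) (hT : (TT F K).Countable) (w : (n : ℕ) × (Fin n → ℕ))
    (i : Idx F K) : MeasurableSet {c : Code L | PI F K w (toStr c) i} := by
  rcases i with (p | κ) | (⟨i, p⟩ | ⟨i, κ⟩) | ⟨i, m⟩ | i
  · exact mS_ex fun c => mS_and (mS_king hF hT c) (mS_tp hF c p.1)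
  · exact mS_ex fun c => mS_ex fun d => mS_and (mS_king hF hT c) (mS_and (mS_king hF hT d)
      (mS_and (MeasurableSet.const _) (mS_cfg hF c d κ.1)))
  · exact mS_ex fun h : i < w.1 => mS_tp hF (w.2 ⟨i, h⟩) p.1
  · exact mS_ex fun h : i < w.1 => mS_ex fun c =>
      mS_and (mS_king hF hT c) (mS_cfg hF c (w.2 ⟨i, h⟩) κ.1)
  · exact mS_ex fun h : i < w.1 => measurableSet_le_encard
      (A := fun c : Code L => {b | Tw F K (toStr c) b (w.2 ⟨i, h⟩)})
      (fun u => mS_tw hF hT u (w.2 ⟨i, h⟩)) m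
  · exact MeasurableSet.const _

theorem mS_reps (hF : F.Countable) (hT : (TT F K).Countable) (w : (n : ℕ) × (Fin n → ℕ)) :
    MeasurableSet {c : Code L | Reps F K w (toStr c)} := by
  refine mS_and (mS_all fun i => (mS_king hF hT (w.2 i)).compl) (mS_and
    (mS_all fun i => mS_all fun j => mS_imp (mS_tw hF hT (w.2 i) (w.2 j))
      (MeasurableSet.const _)) (mS_all fun b =>
    mS_imp (mS_king hF hT b).compl (mS_ex fun i => mS_tw hF hT b (w.2 i))))

/-- **Main theorem**: the dichotomy for two-variable sentences of `L_{omega_1, omega}`. -/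
theorem dichotomy (φ : FormW L) {K : Set (L.Structure ℕ)} (hK : ∀ S, S ∈ K ↔ φ.Holds S) :
    CtblK K ∨ PerfK K := by
  classical
  by_cases hperf : PerfK K
  · exact Or.inr hperf
  by_cases hne : ∃ S, S ∈ K
  swap
  · left
    refine ⟨fun _ => toStr fun _ => false, fun S hS => ?_⟩
    exact absurd ⟨S, hS⟩ hne
  obtain ⟨S₀, hS₀⟩ := hne
  have hL : ∀ n, 3 ≤ n → IsEmpty (L.Relations n) := by
    intro n hn
    refine ⟨fun R => hperf (perfK_of_arity hK hS₀ hn R)⟩
  let F := frag φ
  have hFc : F.Countable := countable_frag φ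
  have hG : Good F K := ⟨subCl_frag φ, φ, Or.inl (self_mem_sub φ), hK⟩
  have hKm : MeasurableSet {c : Code L | toStr c ∈ K} := by
    simp only [hK]
    exact mS_holds φ
  have hCF : (CF F K).Countable := countable_CF hFc hKm hperf
  have hTT : (TT F K).Countable := countable_TT hCF
  have : Countable (CF F K) := hCF.to_subtype
  have : Countable (TT F K) := hTT.to_subtype
  have hrig : ∀ S ∈ K, Rig F K S := fun S hS => rig_of_not_perf hG hL hS hperf
  -- finitely many classes
  have hreps : ∀ S ∈ K, ∃ w : (n : ℕ) × (Fin n → ℕ), Reps F K w S := by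
    intro S hS
    let st : Setoid {b : ℕ // ¬ King F K S b} :=
      { r := fun a b => Tw F K S a.1 b.1
        iseqv := ⟨fun a => Tw.refl _, fun h => h.symm, fun h h' => h.trans h'⟩ }
    by_cases hfin : Finite (Quotient st)
    · let ε := (Finite.equivFin (Quotient st)).symm
      refine ⟨⟨Nat.card (Quotient st), fun i => (ε i).out.1⟩, fun i => (ε i).out.2,
        fun i j hij => ?_, fun b hb => ?_⟩
      · have h1 : (ε i).out ≈ (ε j).out := hij
        have h2 := Quotient.sound h1
        rw [Quotient.out_eq, Quotient.out_eq] at h2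
        exact ε.injective h2
      · obtain ⟨i, hi⟩ := ε.surjective (Quotient.mk st ⟨b, hb⟩)
        refine ⟨i, ?_⟩
        have h1 : (⟨b, hb⟩ : {b : ℕ // ¬ King F K S b}) ≈ (ε i).out := by
          apply Quotient.exact
          rw [Quotient.out_eq, hi]
        exact h1
    · exfalso
      apply hperf
      have hinf : Infinite (Quotient st) := not_finite_iff_infinite.mp hfin
      obtain ⟨iQ⟩ := nonempty_denumerable (Quotient st)
      let ε : ℕ ≃ Quotient st := (Denumerable.eqv (Quotient st)).symm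
      refine perfK_of_infinite_classes hG hL hS (hrig S hS) (fun i => (ε i).out.1)
        (fun i => (ε i).out.2) (fun i j hij => ?_) fun b hb => ?_
      · have h1 : (ε i).out ≈ (ε j).out := hij
        have h2 := Quotient.sound h1
        rw [Quotient.out_eq, Quotient.out_eq] at h2
        exact ε.injective h2
      · obtain ⟨i, hi⟩ := ε.surjective (Quotient.mk st ⟨b, hb⟩)
        refine ⟨i, ?_⟩
        have h1 : (⟨b, hb⟩ : {b : ℕ // ¬ King F K S b}) ≈ (ε i).out := by
          apply Quotient.exact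
          rw [Quotient.out_eq, hi]
        exact h1
  refine dichotomy_of_reals (J := (n : ℕ) × (Fin n → ℕ)) (Y := Idx F K → Bool)
    (B := fun w => {c | toStr c ∈ K} ∩ {c | Reps F K w (toStr c)})
    (Z := fun w c i => decide (PI F K w (toStr c) i)) ?_ ?_ ?_ ?_ ?_ ?_
  · exact fun w => hKm.inter (mS_reps hFc hTT w)
  · exact fun w c hc => hc.1
  · intro c hc
    obtain ⟨w, hw⟩ := hreps _ hc
    exact ⟨w, hc, hw⟩
  · intro w
    refine measurable_pi_iff.mpr fun i => measurable_to_bool ?_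
    have : (fun c : Code L => decide (PI F K w (toStr c) i)) ⁻¹' {true} =
        {c | PI F K w (toStr c) i} := by
      ext c; simp
    rw [this]
    exact mS_pi hFc hTT w i
  · rintro w k c hc d hd ⟨e, he⟩
    refine ⟨⟨w.1, e ∘ w.2⟩, ?_⟩
    funext i
    exact decide_eq_decide.mpr (pi_iso he w i).symm
  · rintro ⟨n, w⟩ ⟨n', w'⟩ c ⟨hc, hcw⟩ d ⟨hd, hdw⟩ hcd
    have hpi : ∀ i, PI F K ⟨n, w⟩ (toStr c) i ↔ PI F K ⟨n', w'⟩ (toStr d) i := fun i =>
      decide_eq_decide.mp (congrFun hcd i)
    have hn : n = n' := by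
      have : ∀ i, i < n ↔ i < n' := fun i => hpi (Sum.inr (Sum.inr (Sum.inr i)))
      rcases Nat.lt_trichotomy n n' with h | h | h
      · exact absurd ((this n).mpr h) (lt_irrefl _)
      · exact h
      · exact absurd ((this n').mp h) (lt_irrefl _)
    subst hn
    exact iso_of_pi hG.sub hL hc hd (hrig _ hc) hcw hdw hpi

end final

end FormW

end Pool.Agent.Helper6
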