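import Mathlib

/-!
# Local classes, `Σ₂` sentences of the infinitary logic, and the dichotomy
-/

set_option autoImplicit false

namespace Pool.Agent.Helper6

/-- The structures `S` and `S'` have the same restriction to the finite set `E`. -/
def AgreeOn {L : FirstOrder.Language.{0, 0}} (E : Finset ℕ) (S S' : L.Structure ℕ) : Prop :=
  ∀ (n : ℕ) (R : L.Relations n) (v : Fin n → ℕ), (∀ i, v i ∈ E) → (S.RelMap R v ↔ S'.RelMap R v)

/-- `A` is local: a structure on `ℕ` belongs to `A` as soon as for each finite set `E` it has the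
same restriction to `E` as some member of `A`. -/
def IsLocal {L : FirstOrder.Language.{0, 0}} (A : Set (L.Structure ℕ)) : Prop :=
  ∀ S : L.Structure ℕ, (∀ E : Finset ℕ, ∃ S' ∈ A, AgreeOn E S S') → S ∈ A

/-- `A` is a Borel set of structures on `ℕ`; a structure is identified with the family of the truth
values of its atomic facts. -/
def IsBorel {L : FirstOrder.Language.{0, 0}} (A : Set (L.Structure ℕ)) : Prop :=
  MeasurableSet {c : ((n : ℕ) × (L.Relations n × (Fin n → ℕ))) → Bool |
    ∃ S ∈ A, ∀ (n : ℕ) (R : L.Relations n) (v : Fin n → ℕ), S.RelMap R v ↔ c ⟨n, (R, v)⟩ = true}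

/-- Countably many isomorphism types of members of `K`, or a Cantor set of pairwise nonisomorphic
members of `K`. -/
def Dichotomy {L : FirstOrder.Language.{0, 0}} (K : Set (L.Structure ℕ)) : Prop :=
  (∃ g : ℕ → L.Structure ℕ, ∀ S ∈ K,
      ∃ n : ℕ, Nonempty (@FirstOrder.Language.Equiv L ℕ ℕ S (g n))) ∨
  (∃ f : (ℕ → Bool) → L.Structure ℕ,
      (∀ x : ℕ → Bool, f x ∈ K) ∧
      (∀ x y : ℕ → Bool, Nonempty (@FirstOrder.Language.Equiv L ℕ ℕ (f x) (f y)) → x = y) ∧
      (∀ (n : ℕ) (R : L.Relations n) (a : Fin n → ℕ),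
          IsClopen {x : ℕ → Bool | @FirstOrder.Language.Structure.RelMap L ℕ (f x) n R a}))

/-- Quantifier-free formulas of `L_{ω₁,ω}` with variables in `α`. -/
inductive QFree (L : FirstOrder.Language.{0, 0}) (α : Type) : Type
  /-- the equality of two variables -/
  | eq (i j : α) : QFree L α
  /-- an atomic formula -/
  | rel {n : ℕ} (R : L.Relations n) (v : Fin n → α) : QFree L α
  /-- negation -/
  | neg (θ : QFree L α) : QFree L α
  /-- conjunction of a sequence of formulas -/
  | conj (f : ℕ → QFree L α) : QFree L α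

/-- Satisfaction in a structure on `ℕ` under an assignment of the variables. -/
def QFree.Sat {L : FirstOrder.Language.{0, 0}} {α : Type} (S : L.Structure ℕ) (s : α → ℕ) :
    QFree L α → Prop
  | .eq i j => s i = s j
  | .rel R v => S.RelMap R (fun k => s (v k))
  | .neg θ => ¬ θ.Sat S s
  | .conj f => ∀ k : ℕ, (f k).Sat S s

/-- A `Σ₂` sentence `⋁_n ∃ x_1 … x_{k n} ⋀_m ∀ y_1 … y_{l n m} θ n m` of `L_{ω₁,ω}` with
quantifier-free formulas `θ n m` of `L_{ω₁,ω}`. -/
structure SigmaTwo (L : FirstOrder.Language.{0, 0}) where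
  /-- the number of existential variables of a disjunct -/
  k : ℕ → ℕ
  /-- the number of universal variables of a conjunct -/
  l : ℕ → ℕ → ℕ
  /-- the matrix -/
  θ : ∀ n m, QFree L (Fin (k n) ⊕ Fin (l n m))

/-- Truth of a `Σ₂` sentence of `L_{ω₁,ω}` in a structure on `ℕ`. -/
def SigmaTwo.Holds {L : FirstOrder.Language.{0, 0}} (φ : SigmaTwo L) (S : L.Structure ℕ) : Prop :=
  ∃ n : ℕ, ∃ a : Fin (φ.k n) → ℕ, ∀ m : ℕ, ∀ b : Fin (φ.l n m) → ℕ,
    (φ.θ n m).Sat S (Sum.elim a b)

end Pool.Agent.Helper6
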