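import Pool.Agent.Helper6.V10Ex

/-!
# All but finitely many elements are exchangeable with finitely many elements
-/

set_option autoImplicit false

namespace Pool.Agent.Helper6.VU

open Set Filter

variable {Y : Type} {ar : Y → ℕ} {D : Type}

section Petals

variable {K : HC ar} {M : St ar D} {G : Set Y} {V : Ultrafilter (ℕ → D)} {n : ℕ}

/-- Petals of infinite sunflowers of free tuples are free. -/
theorem petal_free (hC : Comm K) (hM : K.mem M) (hV : Disj V (Set.Iio n)) {x : D → ℕ → D}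
    {Y' : Set D} (hinf : Y'.Infinite) (hx : ∀ y ∈ Y', Free G M V (Set.Iio n) (x y)) {u : Set ℕ}
    (hu : u ⊆ Set.Iio n) (hroot : ∀ y ∈ Y', ∀ y' ∈ Y', ∀ k ∈ u, x y k = x y' k)
    (hpet : ∀ k, k < n → k ∉ u → ∀ d, {y ∈ Y' | x y k = d}.Finite) {y0 : D} (hy0 : y0 ∈ Y') :
    Free G M V (Set.Iio n \ u) (x y0) := by
  classical
  refine ⟨(hx y0 hy0).1.mono Set.sdiff_subset, fun s hs v hv hoff => ?_⟩
  -- the elements to be avoided
  let F : Set D := {d | ∃ c, v c = Sum.inl d} ∪ x y0 '' Set.Iio n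
  have hF : F.Finite := by
    refine Set.Finite.union ?_ ((Set.finite_Iio n).image _)
    have : {d | ∃ c, v c = Sum.inl d} ⊆ ⋃ c, {d | v c = Sum.inl d} := by
      rintro d ⟨c, hc⟩
      exact Set.mem_iUnion.mpr ⟨c, hc⟩
    refine (Set.finite_iUnion fun c => Set.Subsingleton.finite ?_).subset this
    intro d hd d' hd'
    simp only [Set.mem_ofPred_eq] at hd hd'
    rw [hd] at hd'
    simpa using hd'
  have hbad : (⋃ k ∈ Set.Iio n \ u, ⋃ d ∈ F, {y ∈ Y' | x y k = d}).Finite :=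
    ((Set.finite_Iio n).subset Set.sdiff_subset).biUnion fun k hk =>
      hF.biUnion fun d _ => hpet k hk.1 hk.2 d
  obtain ⟨y1, hy1, hy1b⟩ := (hinf.sdiff hbad).nonempty
  have hav : ∀ k, k < n → k ∉ u → x y1 k ∉ F := by
    intro k hk hku hkF
    apply hy1b
    simp only [Set.mem_iUnion]
    exact ⟨k, ⟨hk, hku⟩, x y1 k, hkF, hy1, rfl⟩
  -- name the elements of the root
  have hq : ∀ c, ∃ q : D ⊕ ℕ × ℕ, (∀ r k, q = Sum.inr (r, k) →
      (r = 0 ∧ k < n ∧ k ∉ u) ∨ (r = 1 ∧ k ∈ u)) ∧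
      (∀ d, q = Sum.inl d → d ∉ x y0 '' Set.Iio n ∧ d ∉ x y1 '' Set.Iio n) ∧
      ∀ z : ℕ → D, ev (fun r => if r = 0 then z else x y1) q = ev1 z (v c) := by
    intro c
    rcases hvc : v c with d | k
    · by_cases hd : ∃ k ∈ u, x y1 k = d
      · obtain ⟨k, hk, hkd⟩ := hd
        refine ⟨Sum.inr (1, k), ?_, ?_, ?_⟩
        · intro r k' h
          simp only [Sum.inr.injEq, Prod.mk.injEq] at h
          rw [← h.1, ← h.2]
          exact Or.inr ⟨rfl, hk⟩
        · intro d' h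
          simp at h
        · intro z
          simp [hkd, ev1]
      · refine ⟨Sum.inl d, ?_, ?_, fun z => rfl⟩
        · intro r k' h
          simp at h
        · intro d' h
          simp only [Sum.inl.injEq] at h
          rw [← h]
          constructor
          · rintro ⟨k, hk, hkd⟩
            by_cases hku : k ∈ u
            · exact hd ⟨k, hku, by rw [← hkd]; exact hroot _ hy1 _ hy0 k hku⟩
            · exact hoff c d hvc ⟨k, ⟨hk, hku⟩, hkd⟩
          · rintro ⟨k, hk, hkd⟩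
            by_cases hku : k ∈ u
            · exact hd ⟨k, hku, hkd⟩
            · exact hav k hk hku (Or.inl ⟨c, by rw [hkd]; exact hvc⟩)
    · refine ⟨Sum.inr (0, k), ?_, ?_, ?_⟩
      · intro r k' h
        simp only [Sum.inr.injEq, Prod.mk.injEq] at h
        rw [← h.1, ← h.2]
        exact Or.inl ⟨rfl, (hv c k hvc).1, (hv c k hvc).2⟩
      · intro d h
        simp at h
      · intro z
        simp [ev1]
  choose t ht1 ht2 ht3 using hq
  have hrow : ∀ c r k, t c = Sum.inr (r, k) → (r = 0 ∧ k < n ∧ k ∉ u) ∨ (r = 1 ∧ k ∈ u) :=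
    fun c r k h => ht1 c r k h
  have hevc : ∀ (g g' : ℕ → ℕ → D), g 0 = g' 0 → g 1 = g' 1 → ev g ∘ t = ev g' ∘ t := by
    intro g g' h0 h1
    funext c
    show ev g (t c) = ev g' (t c)
    rcases hc : t c with d | ⟨r, a⟩
    · rfl
    · rcases hrow c r a hc with h | h
      · rw [h.1]
        show g 0 a = g' 0 a
        rw [h0]
      · rw [h.1]
        show g 1 a = g' 1 a
        rw [h1]
  have htz : ∀ z : ℕ → D, ev (fun r => if r = 0 then z else x y1) ∘ t = ev1 z ∘ v :=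
    fun z => funext fun c => ht3 c z
  have hf0 := hx y0 hy0
  have hf1 := hx y1 hy1
  have hB := Set.finite_Iio n
  -- replace the root by a generic one
  have step : ∀ z : ℕ → D, (∀ k, k < n → k ∉ u → z k ∉ x y1 '' Set.Iio n) →
      (M s (ev1 z ∘ v) ↔ ∀ᶠ y in (V : Filter (ℕ → D)),
        M s (ev (fun r => if r = 0 then z else y) ∘ t)) := by
    intro z hz
    have e1 := hf1.row (fun r => if r = 0 then z else x y1) 1 hs t
      (fun c k hc => by
        rcases hrow c 1 k hc with h | h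
        · exact absurd h.1 (by simp)
        · exact hu h.2)
      (fun c d hc => (ht2 c d hc).2)
      (fun c r k hc hr => by
        rcases hrow c r k hc with h | h
        · simp only [h.1, if_true]
          exact hz k h.2.1 h.2.2
        · exact absurd h.1 hr)
    rw [hevc (upd (fun r => if r = 0 then z else x y1) 1 (x y1))
      (fun r => if r = 0 then z else x y1) (by rw [upd_ne _ _ (by simp)])
      (by rw [upd_same]; simp), htz z] at e1
    rw [e1]
    refine ev_congr fun y => ?_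
    rw [hevc (upd (fun r => if r = 0 then z else x y1) 1 y)
      (fun r => if r = 0 then z else y) (by rw [upd_ne _ _ (by simp)]; simp)
      (by rw [upd_same]; simp)]
  have hz0 : ∀ k, k < n → k ∉ u → x y0 k ∉ x y1 '' Set.Iio n := by
    rintro k hk hku ⟨k', hk', h⟩
    by_cases hku' : k' ∈ u
    · rw [hroot _ hy1 _ hy0 k' hku'] at h
      have := hf0.1 hk' hk h
      exact hku (this ▸ hku')
    · exact hav k' hk' hku' (Or.inr ⟨k, hk, h.symm⟩)
  rw [step (x y0) hz0]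
  -- replace the petal by a generic one
  have h5 : ∀ᶠ y in (V : Filter (ℕ → D)), ∀ a ∈ Set.Iio n, y a ∉ x y0 '' Set.Iio n :=
    hV.off_finite hB (hB.image _)
  have e2 : (∀ᶠ y in (V : Filter (ℕ → D)),
      M s (ev (fun r => if r = 0 then x y0 else y) ∘ t)) ↔
      ∀ᶠ y in (V : Filter (ℕ → D)), ∀ᶠ z in (V : Filter (ℕ → D)),
        M s (ev (fun r => if r = 0 then z else y) ∘ t) := by
    refine Filter.eventually_congr (h5.mono fun y hy => ?_)
    have e3 := hf0.row (fun r => if r = 0 then x y0 else y) 0 hs t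
      (fun c k hc => by
        rcases hrow c 0 k hc with h | h
        · exact h.2.1
        · exact absurd h.1 (by simp))
      (fun c d hc => (ht2 c d hc).1)
      (fun c r k hc hr => by
        rcases hrow c r k hc with h | h
        · exact absurd h.1 hr
        · simp only [h.1, one_ne_zero, if_false]
          exact hy k (hu h.2))
    rw [hevc (upd (fun r => if r = 0 then x y0 else y) 0 (x y0))
      (fun r => if r = 0 then x y0 else y) (by rw [upd_same]; simp)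
      (by rw [upd_ne _ _ (by simp)])] at e3
    rw [e3]
    refine ev_congr fun z => ?_
    rw [hevc (upd (fun r => if r = 0 then x y0 else y) 0 z)
      (fun r => if r = 0 then z else y) (by rw [upd_same]; simp)
      (by rw [upd_ne _ _ (by simp)]; simp)]
  rw [e2]
  -- exchange the two limits
  have e4 : (∀ᶠ y in (V : Filter (ℕ → D)), ∀ᶠ z in (V : Filter (ℕ → D)),
        M s (ev (fun r => if r = 0 then z else y) ∘ t)) ↔
      ∀ᶠ z in (V : Filter (ℕ → D)), ∀ᶠ y in (V : Filter (ℕ → D)),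
        M s (ev (fun r => if r = 0 then z else y) ∘ t) := by
    have h6 := NU_perm (U := fun _ : ℕ => V) (B := fun _ => Set.Iio n) (w := t) (K := K) hC hM
      (l := [1, 0]) (l' := [0, 1]) (List.Perm.swap 0 1 []) (by simp) (fun _ _ => hV)
      (fun c r k hc _ => by
        rcases hrow c r k hc with h | h
        · exact h.2.1
        · exact hu h.2) (fun _ => x y0)
    rw [NU_cons, NU_cons] at h6
    have e5 : ∀ y, (∀ᶠ g' in nf (fun _ => V) [0] (upd (fun _ => x y0) 1 y), M s (ev g' ∘ t)) ↔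
        ∀ᶠ z in (V : Filter (ℕ → D)), M s (ev (fun r => if r = 0 then z else y) ∘ t) := by
      intro y
      rw [NU_cons]
      refine ev_congr fun z => ?_
      rw [NU_nil, hevc _ (fun r => if r = 0 then z else y) (by rw [upd_same]; simp)
        (by rw [upd_ne _ _ (by simp), upd_same]; simp)]
    have e6 : ∀ z, (∀ᶠ g' in nf (fun _ => V) [1] (upd (fun _ => x y0) 0 z), M s (ev g' ∘ t)) ↔
        ∀ᶠ y in (V : Filter (ℕ → D)), M s (ev (fun r => if r = 0 then z else y) ∘ t) := by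
      intro z
      rw [NU_cons]
      refine ev_congr fun y => ?_
      rw [NU_nil, hevc _ (fun r => if r = 0 then z else y)
        (by rw [upd_ne _ _ (by simp), upd_same]; simp) (by rw [upd_same]; simp)]
    rw [ev_congr e5, ev_congr e6] at h6
    exact h6
  rw [e4]
  -- put the root back
  have h7 : ∀ᶠ z in (V : Filter (ℕ → D)), ∀ a ∈ Set.Iio n, z a ∉ x y1 '' Set.Iio n :=
    hV.off_finite hB (hB.image _)
  exact Filter.eventually_congr (h7.mono fun z hz => (step z fun k hk _ => hz k hk).symm)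

/-- An element meets only finitely many of the minimal free tuples of a class. -/
theorem class_finite_meet (hC : Comm K) (hM : K.mem M) (hV : Disj V (Set.Iio n))
    {x : D → ℕ → D} {Cl : Set D} {a : ℕ} (ha : a < n)
    (hx : ∀ y ∈ Cl, Free G M V (Set.Iio n) (x y)) (hxa : ∀ y ∈ Cl, x y a = y)
    (hmin : ∀ y ∈ Cl, ∀ B' : Set ℕ, B' ⊆ Set.Iio n → a ∈ B' → Free G M V B' (x y) →
      B' = Set.Iio n) (z : D) :
    {y ∈ Cl | z ∈ x y '' Set.Iio n}.Finite := by
  classical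
  by_contra hinf
  let PP : Finset ℕ → Prop := fun u => u.Nonempty ∧ ∃ Y' ⊆ Cl, Y'.Infinite ∧
    ∀ y ∈ Y', ∀ y' ∈ Y', ∀ k ∈ u, x y k = x y' k
  have h0 : ∃ k, k < n ∧ PP {k} := by
    have h1 : {y ∈ Cl | z ∈ x y '' Set.Iio n} = ⋃ k ∈ Set.Iio n, {y ∈ Cl | x y k = z} := by
      ext y
      simp only [Set.mem_ofPred_eq, Set.mem_image, Set.mem_iUnion]
      constructor
      · rintro ⟨h, k, hk, hkz⟩
        exact ⟨k, hk, h, hkz⟩
      · rintro ⟨k, hk, h, hkz⟩
        exact ⟨h, k, hk, hkz⟩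
    by_contra hcon
    push Not at hcon
    apply hinf
    rw [h1]
    refine (Set.finite_Iio n).biUnion fun k hk => ?_
    by_contra hk2
    refine hcon k hk ⟨Finset.singleton_nonempty k, {y ∈ Cl | x y k = z}, fun y hy => hy.1, hk2,
      fun y hy y' hy' k' hk' => ?_⟩
    rw [Finset.mem_singleton] at hk'
    rw [hk', hy.2, hy'.2]
  obtain ⟨k0, hk0, hP0⟩ := h0
  have hne : ((Finset.range n).powerset.filter PP).Nonempty :=
    ⟨{k0}, Finset.mem_filter.mpr ⟨by
      rw [Finset.mem_powerset]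
      intro k hk
      rw [Finset.mem_singleton] at hk
      rw [hk, Finset.mem_range]
      exact hk0, hP0⟩⟩
  obtain ⟨u, hu, hmax⟩ := Finset.exists_max_image _ Finset.card hne
  rw [Finset.mem_filter, Finset.mem_powerset] at hu
  obtain ⟨hun, hune, Y', hY', hYinf, hroot⟩ := hu
  have husub : (u : Set ℕ) ⊆ Set.Iio n := fun k hk => Finset.mem_range.mp (hun hk)
  have hpet : ∀ k, k < n → k ∉ (u : Set ℕ) → ∀ d, {y ∈ Y' | x y k = d}.Finite := by
    intro k hk hku d
    by_contra hcon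
    have h1 : insert k u ∈ (Finset.range n).powerset.filter PP := by
      rw [Finset.mem_filter, Finset.mem_powerset]
      refine ⟨Finset.insert_subset (Finset.mem_range.mpr hk) hun, Finset.insert_nonempty _ _,
        {y ∈ Y' | x y k = d}, fun y hy => hY' hy.1, hcon, fun y hy y' hy' k' hk' => ?_⟩
      rcases Finset.mem_insert.mp hk' with rfl | h
      · rw [hy.2, hy'.2]
      · exact hroot y hy.1 y' hy'.1 k' h
    have h2 := hmax _ h1
    rw [Finset.card_insert_of_notMem (fun h => hku h)] at h2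
    omega
  have hau : a ∉ (u : Set ℕ) := by
    intro h
    obtain ⟨y, hy, y', hy', hyy⟩ := hYinf.nontrivial
    have := hroot y hy y' hy' a h
    rw [hxa y (hY' hy), hxa y' (hY' hy')] at this
    exact hyy this
  obtain ⟨y0, hy0⟩ := hYinf.nonempty
  have hfree := petal_free hC hM hV hYinf (fun y hy => hx y (hY' hy)) husub
    (fun y hy y' hy' k hk => hroot y hy y' hy' k hk) hpet hy0
  have h3 := hmin y0 (hY' hy0) _ Set.sdiff_subset ⟨ha, hau⟩ hfree
  obtain ⟨k, hk⟩ := hune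
  have h4 : k ∈ Set.Iio n \ (u : Set ℕ) := by
    rw [h3]
    exact husub hk
  exact h4.2 hk

end Petals

/-- **All but finitely many elements are exchangeable with finitely many elements.** -/
theorem ex_cofinite [Countable Y] {K : HC ar} (hK : ¬ Wild {c : Sp ar | K.mem (toSt c)})
    (hC : Comm K) {M : St ar D} (hM : K.mem M) (G : Finset Y) :
    ∃ C : Finset D, ∀ y, y ∉ C → ∃ c ∈ C, Ex (G : Set Y) M y c := by
  classical
  obtain ⟨b, hb⟩ := indec_bounded hK hC hM G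
  have hY0 := free_cofinite hK hC hM G
  set Y0 : Set D := {d : D | ¬ ∃ (A : Type) (B : Set A) (V : Ultrafilter (A → D)) (x : A → D)
    (a : A), B.Finite ∧ Disj V B ∧ Indec (G : Set Y) M V B ∧ Free (G : Set Y) M V B x ∧ a ∈ B ∧
      x a = d} with hY0def
  have hreps : ∀ j : ℕ, ∃ (k : ℕ) (V : Fin k → Ultrafilter (ℕ → D)),
      (∀ i, Disj (V i) (Set.Iio j)) ∧ ∀ U : Ultrafilter (ℕ → D), Disj U (Set.Iio j) →
        ∃ i, SameT (G : Set Y) M (Set.Iio j) U (V i) :=
    fun j => exists_reps hK hC hM G (Set.finite_Iio j)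
  choose kk VV hVV1 hVV2 using hreps
  let Cls : (n : ℕ) → Fin (kk n) → ℕ → D → (ℕ → D) → Prop := fun n i a y x =>
    a < n ∧ Free (G : Set Y) M (VV n i) (Set.Iio n) x ∧ x a = y ∧
      ∀ B' : Set ℕ, B' ⊆ Set.Iio n → a ∈ B' → Free (G : Set Y) M (VV n i) B' x → B' = Set.Iio n
  have hcls : ∀ y, y ∉ Y0 → ∃ n, n ≤ b ∧ ∃ i a x, Cls n i a y x := by
    intro y hy
    have hy' : ∃ (A : Type) (B : Set A) (V : Ultrafilter (A → D)) (x : A → D)
      (a : A), B.Finite ∧ Disj V B ∧ Indec (G : Set Y) M V B ∧ Free (G : Set Y) M V B x ∧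
        a ∈ B ∧ x a = y := by
      by_contra h
      exact hy h
    have hex : ∃ n, ∃ (A : Type) (B : Set A) (V : Ultrafilter (A → D)) (x : A → D)
      (a : A), B.Finite ∧ Disj V B ∧ Free (G : Set Y) M V B x ∧ a ∈ B ∧ x a = y ∧
        B.ncard = n := by
      obtain ⟨A, B, V, x, a, h1, h2, h3, h4, h5, h6⟩ := hy'
      exact ⟨_, A, B, V, x, a, h1, h2, h4, h5, h6, rfl⟩
    have hfb : Nat.find hex ≤ b := by
      obtain ⟨A, B, V, x, a, h1, h2, h3, h4, h5, h6⟩ := hy'
      exact (Nat.find_min' hex ⟨A, B, V, x, a, h1, h2, h4, h5, h6, rfl⟩).trans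
        (hb A B V h1 h2 h3)
    obtain ⟨A, B, V, x, a, h1, h2, h3, h4, h5, h6⟩ := Nat.find_spec hex
    obtain ⟨V', x', a', h7, h8, h9, h10⟩ := h3.number h1 h2 h4
    rw [h6] at h7 h8 h9
    obtain ⟨i, hi⟩ := hVV2 _ V' h8
    refine ⟨Nat.find hex, hfb, i, a', x', h7, h9.sameT hi, by rw [h10, h5], ?_⟩
    intro B' hB' haB' hf
    by_contra hne
    have h11 := Set.ncard_lt_ncard (hB'.ssubset_of_ne hne) (Set.finite_Iio _)
    have h12 : (Set.Iio (Nat.find hex) : Set ℕ).ncard = Nat.find hex := by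
      rw [Set.ncard_eq_toFinset_card' (Set.Iio (Nat.find hex))]
      simp
    rw [h12] at h11
    exact Nat.find_min hex h11 ⟨ℕ, B', VV _ i, x', a', (Set.finite_Iio _).subset hB',
      (hVV1 _ i).mono hB', hf, haB', by rw [h10, h5], rfl⟩
  -- classes
  let I : Type := (n : Fin (b + 1)) × (Fin (kk n) × Fin (b + 1))
  let Cl : I → Set D := fun ι => {y | ∃ x, Cls ι.1 ι.2.1 ι.2.2 y x}
  let X : I → D → ℕ → D := fun ι y => if h : ∃ x, Cls ι.1 ι.2.1 ι.2.2 y x then h.choose else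
    fun _ => y
  have hX : ∀ ι, ∀ y ∈ Cl ι, Cls ι.1 ι.2.1 ι.2.2 y (X ι y) := by
    intro ι y hy
    have h : ∃ x, Cls ι.1 ι.2.1 ι.2.2 y x := hy
    simp only [X, dif_pos h]
    exact h.choose_spec
  have hmeet : ∀ ι z, {y ∈ Cl ι | z ∈ X ι y '' Set.Iio (ι.1 : ℕ)}.Finite := by
    intro ι z
    rcases (Cl ι).eq_empty_or_nonempty with h | ⟨y0, hy0⟩
    · refine Set.Finite.subset Set.finite_empty ?_
      rintro y ⟨hy, -⟩
      rw [h] at hy
      exact hy
    · exact class_finite_meet (a := (ι.2.2 : ℕ)) hC hM (hVV1 _ _) (hX ι y0 hy0).1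
        (fun y hy => (hX ι y hy).2.1) (fun y hy => (hX ι y hy).2.2.1)
        (fun y hy => (hX ι y hy).2.2.2) z
  have hmeetF : ∀ ι (F : Set D), F.Finite →
      {y ∈ Cl ι | ∃ z ∈ F, z ∈ X ι y '' Set.Iio (ι.1 : ℕ)}.Finite := by
    intro ι F hF
    refine (hF.biUnion fun z _ => hmeet ι z).subset ?_
    rintro y ⟨hy, z, hz, hzy⟩
    exact Set.mem_iUnion₂.mpr ⟨z, hz, hy, hzy⟩
  have hZ : ∀ ι, ∃ Z : Set D, Z.Finite ∧ ∀ y ∈ Cl ι, y ∉ Z → (Cl ι).Infinite ∧
      ∃ c ∈ Cl ι, c ∈ Z ∧ ∀ k, k < (ι.1 : ℕ) → ∀ k', k' < (ι.1 : ℕ) → X ι y k ≠ X ι c k' := by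
    intro ι
    by_cases hf : (Cl ι).Finite
    · exact ⟨Cl ι, hf, fun y hy hy' => absurd hy hy'⟩
    · have hinf : (Cl ι).Infinite := hf
      obtain ⟨c, hc⟩ := hinf.nonempty
      refine ⟨{c} ∪ {y ∈ Cl ι | ∃ z ∈ X ι c '' Set.Iio (ι.1 : ℕ), z ∈ X ι y '' Set.Iio (ι.1 : ℕ)},
        (Set.finite_singleton c).union (hmeetF ι _ ((Set.finite_Iio _).image _)), ?_⟩
      intro y hy hyZ
      refine ⟨hinf, c, hc, Or.inl rfl, fun k hk k' hk' h => hyZ (Or.inr ⟨hy, X ι c k', ?_, ?_⟩)⟩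
      · exact ⟨k', hk', rfl⟩
      · exact ⟨k, hk, h⟩
  choose Z hZf hZ2 using hZ
  have hCfin : (Y0 ∪ ⋃ ι, Z ι).Finite := hY0.union (Set.finite_iUnion hZf)
  refine ⟨hCfin.toFinset, fun y hy => ?_⟩
  rw [Set.Finite.mem_toFinset] at hy
  have hyY : y ∉ Y0 := fun h => hy (Or.inl h)
  obtain ⟨n, hn, i, a, x, hcl⟩ := hcls y hyY
  let ι : I := ⟨⟨n, Nat.lt_succ_of_le hn⟩, i, ⟨a, lt_of_lt_of_le hcl.1 (hn.trans (Nat.le_succ b))⟩⟩
  have hyι : y ∈ Cl ι := ⟨x, hcl⟩
  have hyZ : y ∉ Z ι := fun h => hy (Or.inr (Set.mem_iUnion.mpr ⟨ι, h⟩))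
  obtain ⟨hinf, c, hc, hcZ, hdis⟩ := hZ2 ι y hyι hyZ
  refine ⟨c, by
    rw [Set.Finite.mem_toFinset]
    exact Or.inr (Set.mem_iUnion.mpr ⟨ι, hcZ⟩), ?_⟩
  have hB : (Set.Iio n : Set ℕ).Finite := Set.finite_Iio n
  have hXy := hX ι y hyι
  have hexch : ∀ c' ∈ Cl ι, (∀ k, k < n → ∀ k', k' < n → X ι y k ≠ X ι c' k') →
      Auto (G : Set Y) M (exch (Set.Iio n) (X ι y) (X ι c')) ∧
        Disp (exch (Set.Iio n) (X ι y) (X ι c')) (X ι y '' Set.Iio n) := by
    intro c' hc' hd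
    have h1 := (hX ι c' hc').2.1
    exact ⟨exch_auto hB (hVV1 n i) hXy.2.1 h1 (fun k hk k' hk' => hd k hk k' hk'),
      exch_disp hXy.2.1.1 h1.1 (fun k hk k' hk' => hd k hk k' hk')⟩
  have hPf : (X ι y '' Set.Iio n).Finite := hB.image _
  have hswp : Swp (G : Set Y) M (X ι y '' Set.Iio n) := by
    intro F hF
    obtain ⟨c', hc', hc'b⟩ := (hinf.sdiff (hmeetF ι (F ∪ X ι y '' Set.Iio n)
      (hF.union hPf))).nonempty
    have hav : ∀ k, k < n → X ι c' k ∉ F ∪ X ι y '' Set.Iio n := fun k hk h =>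
      hc'b ⟨hc', X ι c' k, h, k, hk, rfl⟩
    obtain ⟨h1, h2⟩ := hexch c' hc' fun k hk k' hk' h => hav k' hk' (Or.inr ⟨k, hk, h⟩)
    refine ⟨_, h1, h2, ?_⟩
    rintro _ ⟨k, hk, rfl⟩ hkF
    rw [exch_left hXy.2.1.1 hk] at hkF
    exact hav k hk (Or.inl hkF)
  have hyP : y ∈ hPf.toFinset := by
    rw [Set.Finite.mem_toFinset]
    exact ⟨a, hcl.1, hXy.2.2.1⟩
  obtain ⟨P, hP, hPs⟩ := exists_isBlk (P := hPf.toFinset) hyP (by
    rw [Set.Finite.coe_toFinset]
    exact hswp)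
  obtain ⟨h1, h2⟩ := hexch c hc hdis
  have hPs' : (P : Set D) ⊆ X ι y '' Set.Iio n := by
    intro d hd
    have := hPs hd
    rwa [Set.Finite.mem_toFinset] at this
  refine ⟨P, hP, restr (exch (Set.Iio n) (X ι y) (X ι c)) (P : Set D),
    auto_restr hPf hPs' hP.2.1 hswp h1 h2, h2.restr hPs', ?_⟩
  rw [restr_of_mem hP.1]
  have h3 : exch (Set.Iio n) (X ι y) (X ι c) (X ι y a) = X ι c a := exch_left hXy.2.1.1 hcl.1
  rw [show X ι y a = y from hXy.2.2.1] at h3
  rw [h3]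
  exact (hX ι c hc).2.2.1

end Pool.Agent.Helper6.VU
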