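import Pool.Agent.Helper6.V9Free

/-!
# Exchangeable elements
-/

set_option autoImplicit false

namespace Pool.Agent.Helper6.VU

open Set Filter

variable {Y : Type} {ar : Y → ℕ} {D A : Type}

/-- The block of `y` can be exchanged with the block of `z`. -/
def Ex {E : Type} (G : Set Y) (N : St ar E) (y z : E) : Prop :=
  ∃ P : Finset E, IsBlk G N y P ∧ ∃ σ : E → E, Auto G N σ ∧ Disp σ (P : Set E) ∧ σ y = z

/-- Plug all rows but one. -/
noncomputable def plr (g : ℕ → A → D) (r : ℕ) {n : ℕ} (v : Fin n → D ⊕ ℕ × A) (c : Fin n) :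
    D ⊕ A :=
  Sum.elim Sum.inl (fun q => if q.1 = r then Sum.inr q.2 else Sum.inl (g q.1 q.2)) (v c)

theorem ev1_plr (g : ℕ → A → D) (r : ℕ) {n : ℕ} (v : Fin n → D ⊕ ℕ × A) (x : A → D) :
    ev1 x ∘ plr g r v = ev (upd g r x) ∘ v := by
  funext c
  show ev1 x (plr g r v c) = ev _ (v c)
  unfold plr
  rcases v c with d | ⟨r', a⟩
  · rfl
  · by_cases h : r' = r
    · subst h
      simp [ev1]
    · simp [h, ev1, upd_ne _ _ h]

theorem plr_inr {g : ℕ → A → D} {r : ℕ} {n : ℕ} {v : Fin n → D ⊕ ℕ × A} {c : Fin n} {a : A}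
    (h : plr g r v c = Sum.inr a) : v c = Sum.inr (r, a) := by
  unfold plr at h
  rcases hv : v c with d | ⟨r', a'⟩
  · simp [hv] at h
  · by_cases h1 : r' = r
    · simp only [hv, Sum.elim_inr, h1, if_true, Sum.inr.injEq] at h
      rw [h1, h]
    · simp [hv, h1] at h

theorem plr_inl {g : ℕ → A → D} {r : ℕ} {n : ℕ} {v : Fin n → D ⊕ ℕ × A} {c : Fin n} {d : D}
    (h : plr g r v c = Sum.inl d) : v c = Sum.inl d ∨ ∃ r' a, r' ≠ r ∧ v c = Sum.inr (r', a) ∧
      g r' a = d := by
  unfold plr at h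
  rcases hv : v c with d' | ⟨r', a'⟩
  · left
    simpa [hv] using h
  · by_cases h1 : r' = r
    · simp [hv, h1] at h
    · right
      refine ⟨r', a', h1, rfl, ?_⟩
      simpa [hv, h1] using h

variable {M : St ar D} {G : Set Y} {V : Ultrafilter (A → D)} {B : Set A}

/-- Using a free tuple in one row. -/
theorem Free.row {x : A → D} (hx : Free G M V B x) (g : ℕ → A → D) (r : ℕ) {s : Y} (hs : s ∈ G)
    (v : Fin (ar s) → D ⊕ ℕ × A) (h1 : ∀ c a, v c = Sum.inr (r, a) → a ∈ B)
    (h2 : ∀ c d, v c = Sum.inl d → d ∉ x '' B)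
    (h3 : ∀ c r' a, v c = Sum.inr (r', a) → r' ≠ r → g r' a ∉ x '' B) :
    M s (ev (upd g r x) ∘ v) ↔ ∀ᶠ y in (V : Filter (A → D)), M s (ev (upd g r y) ∘ v) := by
  have h4 := hx.2 s hs (plr g r v) (fun c a hc => h1 c a (plr_inr hc)) (fun c d hc => by
    rcases plr_inl hc with h | ⟨r', a, h5, h6, h7⟩
    · exact h2 c d h
    · rw [← h7]
      exact h3 c r' a h6 h5)
  simp only [ev1_plr] at h4
  exact h4

theorem Free.sameT {x : A → D} {V' : Ultrafilter (A → D)} (hx : Free G M V B x)
    (h : SameT G M B V V') : Free G M V' B x :=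
  ⟨hx.1, fun s hs v hv hv' => (hx.2 s hs v hv hv').trans (h s hs v hv)⟩

theorem Disj.off_finite {V : Ultrafilter (A → D)} {B : Set A} (hV : Disj V B) (hB : B.Finite)
    {F : Set D} (hF : F.Finite) : ∀ᶠ y in (V : Filter (A → D)), ∀ a ∈ B, y a ∉ F := by
  have h1 : ∀ᶠ y in (V : Filter (A → D)), ∀ a ∈ B, ∀ d ∈ F, y a ≠ d := by
    rw [Filter.eventually_all_finite hB]
    intro a ha
    rw [Filter.eventually_all_finite hF]
    intro d _
    exact hV.1 a ha d
  exact h1.mono fun y hy a ha h => hy a ha _ h rfl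

/-- The exchange of two tuples. -/
noncomputable def exch (B : Set A) (x x' : A → D) (d : D) : D :=
  open Classical in
  if h : ∃ a ∈ B, x a = d then x' h.choose else
    if h' : ∃ a ∈ B, x' a = d then x h'.choose else d

section exch

variable {x x' : A → D}

theorem exch_left (hx : Set.InjOn x B) {a : A} (ha : a ∈ B) : exch B x x' (x a) = x' a := by
  have h : ∃ a' ∈ B, x a' = x a := ⟨a, ha, rfl⟩
  unfold exch
  rw [dif_pos h]
  have := hx h.choose_spec.1 ha h.choose_spec.2
  rw [this]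

theorem exch_right (hx' : Set.InjOn x' B) (hd : ∀ a ∈ B, ∀ a' ∈ B, x a ≠ x' a') {a : A}
    (ha : a ∈ B) : exch B x x' (x' a) = x a := by
  have h : ¬ ∃ a' ∈ B, x a' = x' a := by
    rintro ⟨a', ha', h⟩
    exact hd a' ha' a ha h
  have h' : ∃ a' ∈ B, x' a' = x' a := ⟨a, ha, rfl⟩
  unfold exch
  rw [dif_neg h, dif_pos h']
  have := hx' h'.choose_spec.1 ha h'.choose_spec.2
  rw [this]

theorem exch_other {d : D} (h : d ∉ x '' B) (h' : d ∉ x' '' B) : exch B x x' d = d := by
  unfold exch
  rw [dif_neg (show ¬ ∃ a ∈ B, x a = d from h), dif_neg (show ¬ ∃ a ∈ B, x' a = d from h')]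

theorem exch_disp (hx : Set.InjOn x B) (hx' : Set.InjOn x' B)
    (hd : ∀ a ∈ B, ∀ a' ∈ B, x a ≠ x' a') : Disp (exch B x x') (x '' B) where
  inv d := by
    by_cases h : d ∈ x '' B
    · obtain ⟨a, ha, rfl⟩ := h
      rw [exch_left hx ha, exch_right hx' hd ha]
    · by_cases h' : d ∈ x' '' B
      · obtain ⟨a, ha, rfl⟩ := h'
        rw [exch_right hx' hd ha, exch_left hx ha]
      · rw [exch_other h h', exch_other h h']
  off := by
    rintro _ ⟨a, ha, rfl⟩
    rw [exch_left hx ha]
    rintro ⟨a', ha', h⟩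
    exact hd a' ha' a ha h
  fix := by
    intro d h h2
    by_cases h' : d ∈ x' '' B
    · obtain ⟨a, ha, rfl⟩ := h'
      exfalso
      apply h2
      rw [exch_right hx' hd ha]
      exact ⟨a, ha, rfl⟩
    · exact exch_other h h'

/-- Exchanging two disjoint free tuples with the same type. -/
theorem exch_auto (hB : B.Finite) (hV : Disj V B) (hx : Free G M V B x) (hx' : Free G M V B x')
    (hd : ∀ a ∈ B, ∀ a' ∈ B, x a ≠ x' a') : Auto G M (exch B x x') := by
  classical
  intro s hs w
  -- name the elements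
  have hv : ∀ c, ∃ q : D ⊕ ℕ × A, (∀ r a, q = Sum.inr (r, a) → (r = 0 ∨ r = 1) ∧ a ∈ B) ∧
      (∀ d, q = Sum.inl d → d ∉ x '' B ∧ d ∉ x' '' B) ∧
      ev (fun r => if r = 0 then x else x') q = w c ∧
      ev (fun r => if r = 0 then x' else x) q = exch B x x' (w c) := by
    intro c
    by_cases h : w c ∈ x '' B
    · obtain ⟨a, ha, hac⟩ := h
      refine ⟨Sum.inr (0, a), ?_, ?_, ?_, ?_⟩
      · intro r a' h
        simp only [Sum.inr.injEq, Prod.mk.injEq] at h
        rw [← h.1, ← h.2]
        exact ⟨Or.inl rfl, ha⟩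
      · intro d h
        simp at h
      · simp [hac]
      · rw [← hac, exch_left hx.1 ha]
        simp
    · by_cases h' : w c ∈ x' '' B
      · obtain ⟨a, ha, hac⟩ := h'
        refine ⟨Sum.inr (1, a), ?_, ?_, ?_, ?_⟩
        · intro r a' h
          simp only [Sum.inr.injEq, Prod.mk.injEq] at h
          rw [← h.1, ← h.2]
          exact ⟨Or.inr rfl, ha⟩
        · intro d h
          simp at h
        · simp [hac]
        · rw [← hac, exch_right hx'.1 hd ha]
          simp
      · refine ⟨Sum.inl (w c), ?_, ?_, rfl, (exch_other h h').symm⟩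
        · intro r a' h
          simp at h
        · intro d hd'
          simp only [Sum.inl.injEq] at hd'
          rw [← hd']
          exact ⟨h, h'⟩
  choose v hv1 hv2 hv3 hv4 using hv
  have hrow : ∀ c r a, v c = Sum.inr (r, a) → (r = 0 ∨ r = 1) ∧ a ∈ B := fun c r a h =>
    hv1 c r a h
  -- the generic value
  have key : ∀ (z z' : A → D), Free G M V B z → Free G M V B z' →
      (∀ a ∈ B, ∀ a' ∈ B, z a ≠ z' a') → (∀ d, d ∉ x '' B → d ∉ x' '' B → d ∉ z '' B ∧ d ∉ z' '' B) →
      (M s (ev (fun r => if r = 0 then z else z') ∘ v) ↔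
        ∀ᶠ y in (V : Filter (A → D)), ∀ᶠ y' in (V : Filter (A → D)),
          M s (ev (fun r => if r = 0 then y else y') ∘ v)) := by
    intro z z' hz hz' hzd hoff
    have hevc : ∀ (g g' : ℕ → A → D), g 0 = g' 0 → g 1 = g' 1 → ev g ∘ v = ev g' ∘ v := by
      intro g g' h0 h1
      funext c
      show ev g (v c) = ev g' (v c)
      rcases hc : v c with d | ⟨r, a⟩
      · rfl
      · rcases (hrow c r a hc).1 with h | h
        · rw [h]
          show g 0 a = g' 0 a
          rw [h0]
        · rw [h]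
          show g 1 a = g' 1 a
          rw [h1]
    have e1 := hz.row (fun r => if r = 0 then z else z') 0 hs v
      (fun c a hc => (hrow c 0 a hc).2)
      (fun c d hc => (hoff d (hv2 c d hc).1 (hv2 c d hc).2).1)
      (fun c r' a hc hr' => by
        have h1 : r' = 1 := by
          rcases (hrow c r' a hc).1 with h | h
          · exact absurd h hr'
          · exact h
        rintro ⟨a', ha', h2⟩
        simp only [h1, one_ne_zero, if_false] at h2
        exact hzd a' ha' a (hrow c r' a hc).2 h2)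
    rw [hevc (upd (fun r => if r = 0 then z else z') 0 z) (fun r => if r = 0 then z else z')
      (by simp) (by rw [upd_ne _ _ (by simp)])] at e1
    rw [e1]
    have h2 : ∀ᶠ y in (V : Filter (A → D)), ∀ a ∈ B, y a ∉ z' '' B :=
      hV.off_finite hB (hB.image _)
    refine Filter.eventually_congr (h2.mono fun y hy => ?_)
    have e2 := hz'.row (fun r => if r = 0 then y else z') 1 hs v
      (fun c a hc => (hrow c 1 a hc).2)
      (fun c d hc => (hoff d (hv2 c d hc).1 (hv2 c d hc).2).2)
      (fun c r' a hc hr' => by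
        have h1 : r' = 0 := by
          rcases (hrow c r' a hc).1 with h | h
          · exact h
          · exact absurd h hr'
        simp only [h1, if_true]
        exact hy a (hrow c r' a hc).2)
    rw [hevc (upd (fun r => if r = 0 then z else z') 0 y)
      (upd (fun r => if r = 0 then y else z') 1 z')
      (by rw [upd_same, upd_ne _ _ (by simp)]; simp)
      (by rw [upd_same, upd_ne _ _ (by simp)]; simp)]
    rw [e2]
    refine ev_congr fun y' => ?_
    rw [hevc (upd (fun r => if r = 0 then y else z') 1 y') (fun r => if r = 0 then y else y')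
      (by rw [upd_ne _ _ (by simp)]; simp) (by rw [upd_same]; simp)]
  have hw : ev (fun r => if r = 0 then x else x') ∘ v = w := funext hv3
  have hw' : ev (fun r => if r = 0 then x' else x) ∘ v = exch B x x' ∘ w := funext hv4
  rw [← hw', key x' x hx' hx (fun a ha a' ha' h => hd a' ha' a ha h.symm)
    (fun d h h' => ⟨h', h⟩), ← key x x' hx hx' hd (fun d h h' => ⟨h, h'⟩), hw]

end exch

/-- Free tuples with numbered coordinates. -/
theorem Free.number {x : A → D} (hB : B.Finite) (hV : Disj V B) (hx : Free G M V B x) {a : A}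
    (ha : a ∈ B) : ∃ (V' : Ultrafilter (ℕ → D)) (x' : ℕ → D) (a' : ℕ), a' < B.ncard ∧
      Disj V' (Set.Iio B.ncard) ∧ Free G M V' (Set.Iio B.ncard) x' ∧ x' a' = x a := by
  classical
  have hBf : Finite B := hB
  set n := B.ncard with hn
  have h1 : Nat.card B = n := Nat.card_coe_set_eq _
  let e : Fin n ≃ B := (Finite.equivFinOfCardEq h1).symm
  let pd : (A → D) → ℕ → D := fun y k => if h : k < n then y (e ⟨k, h⟩) else y a
  have hpd : ∀ y k (h : k < n), pd y k = y (e ⟨k, h⟩) := by
    intro y k h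
    simp only [pd, h, dif_pos]
  have hpd' : ∀ y (b : B), pd y (e.symm b : ℕ) = y b := by
    intro y b
    rw [hpd y _ (e.symm b).2]
    simp
  refine ⟨V.map pd, pd x, (e.symm ⟨a, ha⟩ : ℕ), (e.symm ⟨a, ha⟩).2, ⟨?_, ?_⟩, ⟨?_, ?_⟩, ?_⟩
  · intro k hk d
    show ∀ᶠ y in (V : Filter (A → D)), pd y k ≠ d
    refine (hV.1 _ (e ⟨k, hk⟩).2 d).mono fun y hy => ?_
    rw [hpd y k hk]
    exact hy
  · intro k hk k' hk' hne
    show ∀ᶠ y in (V : Filter (A → D)), pd y k ≠ pd y k'
    refine (hV.2 _ (e ⟨k, hk⟩).2 _ (e ⟨k', hk'⟩).2 fun h => hne ?_).mono fun y hy => ?_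
    · exact congrArg Fin.val (e.injective (Subtype.ext h))
    · rw [hpd y k hk, hpd y k' hk']
      exact hy
  · intro k hk k' hk' h
    rw [hpd x k hk, hpd x k' hk'] at h
    have := hx.1 (e ⟨k, hk⟩).2 (e ⟨k', hk'⟩).2 h
    exact congrArg Fin.val (e.injective (Subtype.ext this))
  · intro s hs v hv hv'
    have h2 : ∀ c, ∃ q : D ⊕ B, Sum.map id (fun b => (e.symm b : ℕ)) q = v c := by
      intro c
      rcases hvc : v c with d | k
      · exact ⟨Sum.inl d, rfl⟩
      · refine ⟨Sum.inr (e ⟨k, hv c k hvc⟩), ?_⟩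
        simp
    choose q hq using h2
    let v' : Fin (ar s) → D ⊕ A := fun c => Sum.map id Subtype.val (q c)
    have h3 : ∀ y : A → D, ev1 (pd y) ∘ v = ev1 y ∘ v' := by
      intro y
      funext c
      show ev1 (pd y) (v c) = ev1 y (Sum.map id Subtype.val (q c))
      rw [← hq c]
      rcases q c with d | b
      · rfl
      · exact hpd' y b
    have h4 := hx.2 s hs v' (by
      intro c a' hc
      rcases hqc : q c with d | b
      · simp [v', hqc] at hc
      · simp only [v', hqc, Sum.map_inr, Sum.inr.injEq] at hc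
        rw [← hc]
        exact b.2) (by
      rintro c d hc ⟨a', ha', hd⟩
      rcases hqc : q c with d' | b
      · have hvc : v c = Sum.inl d := by
          rw [← hq c, hqc]
          simpa [v', hqc] using hc
        refine hv' c d hvc ⟨(e.symm ⟨a', ha'⟩ : ℕ), (e.symm ⟨a', ha'⟩).2, ?_⟩
        rw [hpd' x ⟨a', ha'⟩]
        exact hd
      · simp [v', hqc] at hc)
    rw [← h3] at h4
    rw [h4]
    show _ ↔ ∀ᶠ y in (V : Filter (A → D)), M s (ev1 (pd y) ∘ v)
    exact ev_congr fun y => by rw [h3]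
  · rw [hpd' x ⟨a, ha⟩]

end Pool.Agent.Helper6.VU
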