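import Pool.Agent.Helper6.V10Cof

/-!
# Kinds of elements
-/

set_option autoImplicit false

namespace Pool.Agent.Helper6.VU

open Set Filter

variable {Y : Type} {ar : Y → ℕ} {E : Type} {G : Set Y} {N : St ar E}

/-- Automorphisms with finite support. -/
def FA (G : Set Y) (N : St ar E) (g : Equiv.Perm E) : Prop :=
  Auto G N g ∧ {x | g x ≠ x}.Finite

theorem Auto.perm_symm {g : Equiv.Perm E} (h : Auto G N g) : Auto G N g.symm := by
  intro s hs w
  rw [← h s hs (g.symm ∘ w)]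
  have : (g : E → E) ∘ (g.symm ∘ w) = w := by
    funext c
    exact g.apply_symm_apply _
  rw [this]

theorem Auto.perm_mul {g h : Equiv.Perm E} (hg : Auto G N g) (hh : Auto G N h) :
    Auto G N (h.trans g : Equiv.Perm E) := by
  have := hg.comp hh
  exact this

theorem FA.refl (G : Set Y) (N : St ar E) : FA G N (Equiv.refl E) :=
  ⟨Auto.id G N, by simp⟩

theorem FA.symm {g : Equiv.Perm E} (h : FA G N g) : FA G N g.symm := by
  refine ⟨h.1.perm_symm, h.2.subset ?_⟩
  intro x hx hgx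
  apply hx
  rw [Equiv.symm_apply_eq]
  exact hgx.symm

theorem FA.trans {g h : Equiv.Perm E} (hg : FA G N g) (hh : FA G N h) :
    FA G N (g.trans h : Equiv.Perm E) := by
  refine ⟨hh.1.perm_mul hg.1, (hg.2.union hh.2).subset ?_⟩
  intro x hx
  by_contra hcon
  simp only [Set.mem_union, Set.mem_ofPred_eq, not_or, not_not] at hcon
  apply hx
  show h (g x) = x
  rw [hcon.1, hcon.2]

theorem FA.mono {G' : Set Y} {g : Equiv.Perm E} (h : FA G N g) (hG : G' ⊆ G) : FA G' N g :=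
  ⟨h.1.mono hG, h.2⟩

/-- Conjugation. -/
theorem FA.conj {g h : Equiv.Perm E} (hg : FA G N g) (hh : Auto G N h) :
    FA G N ((h.symm.trans g).trans h : Equiv.Perm E) := by
  refine ⟨hh.perm_mul (hg.1.perm_mul hh.perm_symm), (hg.2.image h).subset ?_⟩
  intro x hx
  refine ⟨h.symm x, fun hgx => hx ?_, by simp⟩
  show h (g (h.symm x)) = x
  rw [hgx, Equiv.apply_symm_apply]

/-- The permutation of an involution. -/
def Disp.perm {σ : E → E} {P : Set E} (h : Disp σ P) : Equiv.Perm E := ⟨σ, σ, h.inv, h.inv⟩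

@[simp] theorem Disp.perm_apply {σ : E → E} {P : Set E} (h : Disp σ P) (x : E) :
    h.perm x = σ x := rfl

theorem Disp.fa {σ : E → E} {P : Set E} (h : Disp σ P) (hP : P.Finite) (hσ : Auto G N σ) :
    FA G N h.perm := by
  refine ⟨hσ, (hP.union (hP.image σ)).subset ?_⟩
  intro x hx
  by_contra hcon
  simp only [Set.mem_union, not_or] at hcon
  exact hx (h.fix' hcon.1 fun y hy hyx => hcon.2 ⟨y, hy, hyx⟩)

/-- The element is in some exchangeable finite set. -/
def Sw (G : Set Y) (N : St ar E) (y : E) : Prop := ∃ P, IsBlk G N y P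

theorem Sw.of_swp {y : E} {P : Set E} (hP : P.Finite) (h : Swp G N P) (hy : y ∈ P) :
    Sw G N y := by
  obtain ⟨P0, h1, -⟩ := exists_isBlk (P := hP.toFinset) (by rwa [Set.Finite.mem_toFinset])
    (by rwa [Set.Finite.coe_toFinset])
  exact ⟨P0, h1⟩

theorem IsBlk.map_auto {g : Equiv.Perm E} (hg : Auto G N g) {y : E} {P : Finset E}
    (hP : IsBlk G N y P) : IsBlk G N (g y) (P.map g.toEmbedding) :=
  hP.iso g fun s hs w => (hg s hs w).symm

theorem Sw.map_auto {g : Equiv.Perm E} (hg : Auto G N g) {y : E} (h : Sw G N y) :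
    Sw G N (g y) := by
  obtain ⟨P, hP⟩ := h
  exact ⟨_, hP.map_auto hg⟩

theorem Sw.mono {G' : Set Y} {y : E} (h : Sw G N y) (hG : G' ⊆ G) : Sw G' N y := by
  obtain ⟨P, hP⟩ := h
  exact Sw.of_swp P.finite_toSet (hP.2.1.mono hG) hP.1

theorem IsBlk.mono {G' : Set Y} {y : E} {P P' : Finset E} (h : IsBlk G N y P)
    (h' : IsBlk G' N y P') (hG : G' ⊆ G) : P' ⊆ P :=
  h'.2.2 P h.1 (h.2.1.mono hG)

/-- Elements of the same kind. -/
def Kd (G : Set Y) (N : St ar E) (y z : E) : Prop := Sw G N y ∧ ∃ g, FA G N g ∧ g y = z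

theorem Kd.refl {y : E} (h : Sw G N y) : Kd G N y y := ⟨h, _, FA.refl G N, rfl⟩

theorem Kd.right {y z : E} (h : Kd G N y z) : Sw G N z := by
  obtain ⟨h1, g, hg, rfl⟩ := h
  exact h1.map_auto hg.1

theorem Kd.symm {y z : E} (h : Kd G N y z) : Kd G N z y := by
  refine ⟨h.right, ?_⟩
  obtain ⟨-, g, hg, rfl⟩ := h
  exact ⟨_, hg.symm, by simp⟩

theorem Kd.trans {x y z : E} (h : Kd G N x y) (h' : Kd G N y z) : Kd G N x z := by
  obtain ⟨h1, g, hg, rfl⟩ := h
  obtain ⟨-, g', hg', rfl⟩ := h'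
  exact ⟨h1, _, hg.trans hg', rfl⟩

theorem Kd.mono {G' : Set Y} {y z : E} (h : Kd G N y z) (hG : G' ⊆ G) : Kd G' N y z := by
  obtain ⟨h1, g, hg, rfl⟩ := h
  exact ⟨h1.mono hG, g, hg.mono hG, rfl⟩

theorem Kd.map_auto {g : Equiv.Perm E} (hg : Auto G N g) {y z : E} (h : Kd G N y z) :
    Kd G N (g y) (g z) := by
  obtain ⟨h1, f, hf, rfl⟩ := h
  exact ⟨h1.map_auto hg, _, hf.conj hg, by simp⟩

theorem Ex.kd {y z : E} (h : Ex G N y z) : Kd G N y z := by
  obtain ⟨P, hP, σ, h1, h2, rfl⟩ := h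
  exact ⟨⟨P, hP⟩, h2.perm, h2.fa P.finite_toSet h1, rfl⟩

/-- Exchange with a far set. -/
theorem exists_far {y : E} {P : Finset E} (hP : IsBlk G N y P) {F : Set E} (hF : F.Finite) :
    ∃ σ : Equiv.Perm E, FA G N σ ∧ (∀ x, σ (σ x) = x) ∧ (∀ x ∈ P, σ x ∉ P) ∧
      (∀ x ∈ P, σ x ∉ F) ∧ ∀ x, x ∉ P → σ x ∉ P → σ x = x := by
  obtain ⟨σ, h1, h2, h3⟩ := hP.2.1 F hF
  exact ⟨h2.perm, h2.fa P.finite_toSet h1, h2.inv, h2.off, h3, h2.fix⟩

/-- Moving an element to an element of the same kind, fixing a finite set. -/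
theorem Kd.move {y z : E} (h : Kd G N y z) {P Q : Finset E} (hP : IsBlk G N y P)
    (hQ : IsBlk G N z Q) {F : Set E} (hF : F.Finite) (hFP : ∀ x ∈ P, x ∉ F)
    (hFQ : ∀ x ∈ Q, x ∉ F) :
    ∃ g, FA G N g ∧ g y = z ∧ (∀ f ∈ F, g f = f) ∧ ∀ x ∈ P, g x ∈ Q := by
  classical
  obtain ⟨-, g, hg, rfl⟩ := h
  have hQP : Q = P.map g.toEmbedding := hQ.unique (hP.map_auto hg.1)
  obtain ⟨σ, h1, h2, h3, h4, h5⟩ := exists_far hP
    (F := F ∪ {x | g x ≠ x} ∪ (P.map g.toEmbedding : Finset E))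
    ((hF.union hg.2).union (Finset.finite_toSet _))
  have h4F : ∀ x ∈ P, σ x ∉ F := fun x hx h => h4 x hx (Or.inl (Or.inl h))
  have h4g : ∀ x ∈ P, g (σ x) = σ x := fun x hx => by
    by_contra h
    exact h4 x hx (Or.inl (Or.inr h))
  have h4Q : ∀ x ∈ P, σ x ∉ Q := fun x hx h => h4 x hx (Or.inr (by rw [← hQP]; exact h))
  -- the conjugate exchange
  let τ : Equiv.Perm E := (g.symm.trans σ).trans g
  have hτ : FA G N τ := h1.conj hg.1
  refine ⟨σ.trans τ, h1.trans hτ, ?_, ?_, ?_⟩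
  · show g (σ (g.symm (σ y))) = g y
    have e1 : g.symm (σ y) = σ y := by
      rw [Equiv.symm_apply_eq]
      exact (h4g y hP.1).symm
    rw [e1, h2]
  · intro f hf
    have e1 : σ f = f := by
      refine h5 f (fun hfP => hFP f hfP hf) fun hσf => ?_
      have := h4F _ hσf
      rw [h2] at this
      exact this hf
    show g (σ (g.symm (σ f))) = f
    rw [e1]
    have e2 : σ (g.symm f) = g.symm f := by
      refine h5 _ (fun h => ?_) fun h => ?_
      · refine hFQ f ?_ hf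
        rw [hQP, Finset.mem_map]
        exact ⟨_, h, by simp⟩
      · have e3 := h4g _ h
        rw [h2] at e3
        have e4 : g (g.symm f) = f := by simp
        rw [e4] at e3
        have e5 : σ f ∈ P := by rw [e3]; exact h
        rw [e1] at e5
        exact hFP f e5 hf
    rw [e2]
    simp
  · intro x hx
    show g (σ (g.symm (σ x))) ∈ Q
    have e1 : g.symm (σ x) = σ x := by
      rw [Equiv.symm_apply_eq]
      exact (h4g x hx).symm
    rw [e1, h2, hQP, Finset.mem_map]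
    exact ⟨x, hx, rfl⟩

theorem exists_isBlk_of_sw {y : E} (h : Sw G N y) : ∃ P, IsBlk G N y P := h

/-- A kind is infinite. -/
theorem Kd.infinite {y : E} (h : Sw G N y) {F : Set E} (hF : F.Finite) :
    ∃ z, Kd G N y z ∧ ∃ Q, IsBlk G N z Q ∧ ∀ x ∈ Q, x ∉ F := by
  obtain ⟨P, hP⟩ := h
  obtain ⟨σ, h1, h2, h3, h4, h5⟩ := exists_far hP hF
  refine ⟨σ y, ⟨⟨P, hP⟩, σ, h1, rfl⟩, _, hP.map_auto h1.1, ?_⟩
  intro x hx
  rw [Finset.mem_map] at hx
  obtain ⟨x', hx', rfl⟩ := hx
  exact h4 x' hx'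

/-- Finitely many orbits of tuples. -/
theorem orbits_finite (hC : ∃ C : Finset E, ∀ y, y ∉ C → ∃ c ∈ C, Ex G N y c) (j : ℕ) :
    ∃ R : Set (List E), R.Finite ∧ ∀ l : List E, l.length = j → ∃ g, FA G N g ∧ l.map g ∈ R := by
  classical
  induction j with
  | zero =>
    refine ⟨{[]}, Set.finite_singleton _, fun l hl => ⟨Equiv.refl E, FA.refl G N, ?_⟩⟩
    rw [List.length_eq_zero_iff] at hl
    rw [hl]
    rfl
  | succ j ih =>
    obtain ⟨R, hR, hRl⟩ := ih
    obtain ⟨C, hC⟩ := hC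
    -- extensions of a tuple
    have hext : ∀ l : List E, ∃ Z : Set E, Z.Finite ∧ ∀ y, ∃ g, FA G N g ∧ l.map g = l ∧ g y ∈ Z := by
      intro l
      let far : E → Prop := fun y => ∃ P, IsBlk G N y P ∧ ∀ x ∈ P, x ∉ l
      -- representatives of the kinds of far elements
      have hrep : ∀ c : E, ∃ z : Option E, ∀ y, far y → Kd G N y c → ∃ z', z = some z' ∧ far z' ∧
          Kd G N z' c := by
        intro c
        by_cases h : ∃ z', far z' ∧ Kd G N z' c
        · obtain ⟨z', h1, h2⟩ := h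
          exact ⟨some z', fun y _ _ => ⟨z', rfl, h1, h2⟩⟩
        · exact ⟨none, fun y h1 h2 => absurd ⟨y, h1, h2⟩ h⟩
      choose rep hrep using hrep
      let bl : E → Set E := fun e => {x | ∃ P, IsBlk G N e P ∧ x ∈ P}
      have hbl : ∀ e, (bl e).Finite := by
        intro e
        by_cases h : ∃ P, IsBlk G N e P
        · obtain ⟨P, hP⟩ := h
          refine P.finite_toSet.subset ?_
          rintro x ⟨P', hP', hx⟩
          rw [hP.unique hP']
          exact hx
        · refine Set.Finite.subset Set.finite_empty ?_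
          rintro x ⟨P', hP', -⟩
          exact h ⟨P', hP'⟩
      refine ⟨(C : Set E) ∪ {e | e ∈ l} ∪ (⋃ e ∈ {e | e ∈ l}, bl e) ∪
        ⋃ c ∈ (C : Set E), {z | rep c = some z}, ?_, ?_⟩
      · refine (((C.finite_toSet).union (List.finite_toSet l)).union
          ((List.finite_toSet l).biUnion fun e _ => hbl e)).union
          (C.finite_toSet.biUnion fun c _ => Set.Subsingleton.finite ?_)
        intro z hz z' hz'
        simp only [Set.mem_ofPred_eq] at hz hz'
        rw [hz] at hz'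
        simpa using hz'
      · intro y
        by_cases hyC : y ∈ C
        · exact ⟨Equiv.refl E, FA.refl G N, by simp, Or.inl (Or.inl (Or.inl hyC))⟩
        · obtain ⟨c, hc, hex⟩ := hC y hyC
          obtain ⟨P, hP, -⟩ := id hex
          by_cases hfar : ∀ x ∈ P, x ∉ l
          · have hfy : far y := ⟨P, hP, hfar⟩
            obtain ⟨z', hz1, ⟨Q, hQ, hQl⟩, hz3⟩ := hrep c y hfy hex.kd
            obtain ⟨g, hg1, hg2, hg3, -⟩ := (hex.kd.trans hz3.symm).move hP hQ
              (F := {e | e ∈ l}) (List.finite_toSet l) hfar hQl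
            refine ⟨g, hg1, ?_, ?_⟩
            · conv_rhs => rw [← List.map_id l]
              exact List.map_congr_left fun e he => hg3 e he
            · rw [hg2]
              exact Or.inr (Set.mem_iUnion₂.mpr ⟨c, hc, hz1⟩)
          · push Not at hfar
            obtain ⟨x, hx, hxl⟩ := hfar
            refine ⟨Equiv.refl E, FA.refl G N, by simp, Or.inl (Or.inr ?_)⟩
            exact Set.mem_iUnion₂.mpr ⟨x, hxl, P, hP.of_mem hx, hP.1⟩
    choose Z hZf hZ using hext
    refine ⟨⋃ l ∈ R, (fun z => z :: l) '' Z l, hR.biUnion fun l _ => (hZf l).image _, ?_⟩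
    intro l hl
    rcases l with _ | ⟨y, l⟩
    · simp at hl
    · have hl' : l.length = j := by simpa using hl
      obtain ⟨g, hg, hgl⟩ := hRl l hl'
      obtain ⟨f, hf, hfl, hfy⟩ := hZ (l.map g) (g y)
      refine ⟨g.trans f, hg.trans hf, ?_⟩
      refine Set.mem_iUnion₂.mpr ⟨l.map g, hgl, f (g y), hfy, ?_⟩
      show _ = f (g y) :: l.map (g.trans f)
      have : l.map (g.trans f) = (l.map g).map f := by
        rw [List.map_map]
        rfl
      rw [this, hfl]

end Pool.Agent.Helper6.VU
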