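import Pool.Agent.Helper6.V11Kind

/-!
# Absorbing embeddings
-/

set_option autoImplicit false

namespace Pool.Agent.Helper6.VU

open Set Filter

variable {Y : Type} {ar : Y → ℕ} {E E' : Type}

/-- Finite sets can be moved into the substructure, fixing finite parts of it. -/
def AbsE (G : Set Y) (N' : St ar E') (ι : E → E') : Prop :=
  ∀ F : Set E, F.Finite → ∀ W : Set E', W.Finite → ∃ g : Equiv.Perm E', Auto G N' g ∧
    (∀ f ∈ F, g (ι f) = ι f) ∧ ∀ w ∈ W, g w ∈ range ι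

/-- Extending a permutation by the identity. -/
noncomputable def extP {ι : E → E'} (hι : Function.Injective ι) (g : Equiv.Perm E) :
    Equiv.Perm E' :=
  open Classical in g.viaEmbedding ⟨ι, hι⟩

theorem extP_apply {ι : E → E'} (hι : Function.Injective ι) (g : Equiv.Perm E) (x : E) :
    extP hι g (ι x) = ι (g x) := by
  classical
  exact Equiv.Perm.viaEmbedding_apply g ⟨ι, hι⟩ x

theorem extP_other {ι : E → E'} (hι : Function.Injective ι) (g : Equiv.Perm E) {x : E'}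
    (hx : x ∉ range ι) : extP hι g x = x := by
  classical
  exact Equiv.Perm.viaEmbedding_apply_of_notMem g ⟨ι, hι⟩ x hx

variable {G : Set Y} {N : St ar E} {N' : St ar E'} {ι : E → E'}

theorem FA.ext (hι : Function.Injective ι) (hN : ∀ s w, N s w ↔ N' s (ι ∘ w))
    (hA : AbsE G N' ι) {g : Equiv.Perm E} (hg : FA G N g) : FA G N' (extP hι g) := by
  classical
  have hsupp : {x | extP hι g x ≠ x} ⊆ ι '' {x | g x ≠ x} := by
    intro x hx
    by_cases h : x ∈ range ι
    · obtain ⟨e, rfl⟩ := h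
      refine ⟨e, fun h => hx ?_, rfl⟩
      rw [extP_apply, h]
    · exact absurd (extP_other hι g h) hx
  refine ⟨fun s hs w => ?_, (hg.2.image ι).subset hsupp⟩
  obtain ⟨h, h1, h2, h3⟩ := hA {x | g x ≠ x} hg.2 (range w) (Set.finite_range w)
  have h4 : ∀ c, h (extP hι g (w c)) = extP hι g (h (w c)) := by
    intro c
    by_cases hc : ∃ e, g e ≠ e ∧ ι e = w c
    · obtain ⟨e, he, hec⟩ := hc
      rw [← hec, h2 e he, extP_apply]
      refine h2 (g e) fun h => he ?_
      exact g.injective h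
    · have h5 : extP hι g (w c) = w c := by
        by_contra h5
        obtain ⟨e, he, hec⟩ := hsupp h5
        exact hc ⟨e, he, hec⟩
      rw [h5]
      by_contra h6
      obtain ⟨e, he, hec⟩ := hsupp (fun h => h6 h.symm)
      rw [← h2 e he] at hec
      exact hc ⟨e, he, h.injective hec⟩
  choose v hv using fun c => h3 (w c) ⟨c, rfl⟩
  have e1 : h ∘ w = ι ∘ v := funext fun c => (hv c).symm
  have e2 : h ∘ (extP hι g ∘ w) = ι ∘ (g ∘ v) := by
    funext c
    show h (extP hι g (w c)) = ι (g (v c))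
    rw [h4 c, ← extP_apply hι g, hv c]
  rw [← h1 s hs w, ← h1 s hs (extP hι g ∘ w), e1, e2, ← hN, ← hN]
  exact hg.1 s hs v

/-- Restricting a permutation. -/
theorem exists_restrP (hι : Function.Injective ι) (hN : ∀ s w, N s w ↔ N' s (ι ∘ w))
    {g : Equiv.Perm E'} (hg : FA G N' g) (hs : {x | g x ≠ x} ⊆ range ι) :
    ∃ f : Equiv.Perm E, FA G N f ∧ ∀ x, ι (f x) = g (ι x) := by
  classical
  have h1 : ∀ x, ∃ y, ι y = g (ι x) := by
    intro x
    by_cases h : g (ι x) = ι x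
    · exact ⟨x, h.symm⟩
    · have : g (ι x) ∈ {x | g x ≠ x} := fun h' => h (g.injective h')
      exact hs this
  have h2 : ∀ x, ∃ y, ι y = g.symm (ι x) := by
    intro x
    by_cases h : g.symm (ι x) = ι x
    · exact ⟨x, h.symm⟩
    · have : g.symm (ι x) ∈ {x | g x ≠ x} := by
        intro h'
        apply h
        rw [Equiv.apply_symm_apply] at h'
        exact h'.symm
      exact hs this
  choose f hf using h1
  choose f' hf' using h2
  refine ⟨⟨f, f', fun x => hι ?_, fun x => hι ?_⟩, ⟨?_, ?_⟩, hf⟩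
  · rw [hf', hf, Equiv.symm_apply_apply]
  · rw [hf, hf', Equiv.apply_symm_apply]
  · intro s hs w
    rw [hN, hN, ← hg.1 s hs (ι ∘ w)]
    have : ι ∘ (f ∘ w) = g ∘ (ι ∘ w) := funext fun c => hf (w c)
    exact iff_of_eq (congrArg _ this)
  · refine Set.Finite.subset (hg.2.preimage (f := ι) hι.injOn) ?_
    intro x hx h
    apply hx
    apply hι
    show ι (f x) = ι x
    rw [hf x]
    exact h

theorem swp_ext (hι : Function.Injective ι) (hN : ∀ s w, N s w ↔ N' s (ι ∘ w))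
    (hA : AbsE G N' ι) {P : Set E} (hPf : P.Finite) (hP : Swp G N P) : Swp G N' (ι '' P) := by
  classical
  intro F hF
  obtain ⟨σ, h1, h2, h3⟩ := hP (ι ⁻¹' F) (hF.preimage hι.injOn)
  have hfa := (h2.fa hPf h1).ext hι hN hA
  refine ⟨extP hι h2.perm, hfa.1, ⟨?_, ?_, ?_⟩, ?_⟩
  · intro x
    by_cases h : x ∈ range ι
    · obtain ⟨e, rfl⟩ := h
      rw [extP_apply, extP_apply]
      simp [h2.inv]
    · rw [extP_other hι _ h, extP_other hι _ h]
  · rintro _ ⟨e, he, rfl⟩ ⟨e', he', hee⟩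
    rw [extP_apply] at hee
    have := hι hee
    rw [this] at he'
    exact h2.off e he he'
  · intro x hx hx'
    by_cases h : x ∈ range ι
    · obtain ⟨e, rfl⟩ := h
      rw [extP_apply]
      rw [extP_apply] at hx'
      have := h2.fix e (fun h => hx ⟨e, h, rfl⟩) (fun h => hx' ⟨_, h, rfl⟩)
      simp [this]
    · exact extP_other hι _ h
  · rintro _ ⟨e, he, rfl⟩ hxF
    rw [extP_apply] at hxF
    exact h3 e he hxF

theorem swp_restr (hι : Function.Injective ι) (hN : ∀ s w, N s w ↔ N' s (ι ∘ w))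
    (hA : AbsE G N' ι) {P : Set E} (hPf : P.Finite) (hP : Swp G N' (ι '' P)) : Swp G N P := by
  classical
  intro F hF
  obtain ⟨σ, h1, h2, h3⟩ := hP (ι '' F) (hF.image ι)
  obtain ⟨h, g1, g2, g3⟩ := hA (P ∪ F) (hPf.union hF) (σ '' (ι '' P)) ((hPf.image ι).image σ)
  have hPh : ∀ e ∈ P, h (ι e) = ι e := fun e he => g2 e (Or.inl he)
  have hPh' : ∀ e ∈ P, h.symm (ι e) = ι e := fun e he => by
    rw [Equiv.symm_apply_eq, hPh e he]
  have hfa := (h2.fa (hPf.image ι) h1).conj g1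
  have happ : ∀ x, ((h.symm.trans h2.perm).trans h) x = h (σ (h.symm x)) := fun _ => rfl
  -- the support
  have hsupp : {x | ((h.symm.trans h2.perm).trans h) x ≠ x} ⊆ range ι := by
    intro x hx
    by_contra hxr
    apply hx
    rw [happ]
    have e1 : h.symm x ∉ ι '' P := by
      rintro ⟨e, he, hex⟩
      rw [Equiv.eq_symm_apply, hPh e he] at hex
      exact hxr ⟨e, hex⟩
    have e2 : σ (h.symm x) ∉ ι '' P := by
      intro hc
      apply hxr
      have := g3 (σ (σ (h.symm x))) ⟨_, hc, rfl⟩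
      rw [h2.inv, Equiv.apply_symm_apply] at this
      exact this
    rw [h2.fix _ e1 e2, Equiv.apply_symm_apply]
  obtain ⟨f, hf1, hf2⟩ := exists_restrP hι hN hfa hsupp
  have hf3 : ∀ x, ι (f x) = h (σ (h.symm (ι x))) := hf2
  refine ⟨f, hf1.1, ⟨?_, ?_, ?_⟩, ?_⟩
  · intro x
    apply hι
    rw [hf3, hf3]
    rw [Equiv.symm_apply_apply, h2.inv, Equiv.apply_symm_apply]
  · intro x hx hfx
    have e1 := hf3 x
    rw [hPh' x hx] at e1
    have e2 := hPh _ hfx
    rw [e1] at e2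
    have e3 : σ (ι x) = ι (f x) := by
      rw [e1]
      exact (h.injective e2).symm
    exact h2.off _ ⟨x, hx, rfl⟩ (e3 ▸ ⟨_, hfx, rfl⟩)
  · intro x hx hfx
    apply hι
    rw [hf3]
    have e1 : h.symm (ι x) ∉ ι '' P := by
      rintro ⟨e, he, hex⟩
      rw [Equiv.eq_symm_apply, hPh e he] at hex
      exact hx (hι hex ▸ he)
    have e2 : σ (h.symm (ι x)) ∉ ι '' P := by
      rintro ⟨e, he, hex⟩
      apply hfx
      have e3 := hf3 x
      rw [← hex, hPh e he] at e3
      rw [hι e3]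
      exact he
    rw [h2.fix _ e1 e2, Equiv.apply_symm_apply]
  · intro x hx hfx
    have e1 := hf3 x
    rw [hPh' x hx] at e1
    have e2 : h (ι (f x)) = ι (f x) := g2 _ (Or.inr hfx)
    rw [e1] at e2
    have e3 : σ (ι x) = ι (f x) := by
      rw [e1]
      exact (h.injective e2).symm
    exact h3 _ ⟨x, hx, rfl⟩ (e3 ▸ ⟨_, hfx, rfl⟩)

theorem swp_emb (hι : Function.Injective ι) (hN : ∀ s w, N s w ↔ N' s (ι ∘ w))
    (hA : AbsE G N' ι) {P : Set E} (hPf : P.Finite) : Swp G N P ↔ Swp G N' (ι '' P) :=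
  ⟨swp_ext hι hN hA hPf, swp_restr hι hN hA hPf⟩

/-- Blocks of elements of the substructure are in the substructure. -/
theorem blk_in (hA : AbsE G N' ι) {y : E} {Q : Finset E'} (hQ : IsBlk G N' (ι y) Q) :
    ∃ P : Finset E, ∀ x, x ∈ Q ↔ ∃ e ∈ P, ι e = x := by
  classical
  obtain ⟨h, h1, h2, h3⟩ := hA {y} (Set.finite_singleton y) (Q : Set E') Q.finite_toSet
  have h4 := hQ.map_auto h1
  rw [h2 y rfl] at h4
  have h5 := hQ.unique h4
  have h6 : ∀ x ∈ Q, ∃ e, ι e = x := by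
    intro x hx
    rw [h5, Finset.mem_map] at hx
    obtain ⟨x', hx', rfl⟩ := hx
    exact h3 x' hx'
  have : Nonempty E := ⟨y⟩
  choose! f hf using h6
  refine ⟨Q.image f, fun x => ⟨fun hx => ⟨f x, Finset.mem_image_of_mem f hx, hf x hx⟩, ?_⟩⟩
  rintro ⟨e, he, rfl⟩
  obtain ⟨x', hx', rfl⟩ := Finset.mem_image.mp he
  rw [hf x' hx']
  exact hx'

theorem isBlk_emb (hι : Function.Injective ι) (hN : ∀ s w, N s w ↔ N' s (ι ∘ w))
    (hA : AbsE G N' ι) {y : E} {P : Finset E} :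
    IsBlk G N y P ↔ IsBlk G N' (ι y) (P.map ⟨ι, hι⟩) := by
  classical
  have hcoe : ∀ Q : Finset E, ((Q.map ⟨ι, hι⟩ : Finset E') : Set E') = ι '' (Q : Set E) := by
    intro Q
    rw [Finset.coe_map]
    rfl
  have hswp : ∀ Q : Finset E, Swp G N (Q : Set E) ↔ Swp G N' ((Q.map ⟨ι, hι⟩ : Finset E') :
      Set E') := by
    intro Q
    rw [hcoe]
    exact swp_emb hι hN hA Q.finite_toSet
  have hmem : ∀ (x : E) (Q : Finset E), ι x ∈ Q.map ⟨ι, hι⟩ ↔ x ∈ Q := by
    intro x Q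
    exact Finset.mem_map' ⟨ι, hι⟩
  constructor
  · rintro ⟨h1, h2, h3⟩
    refine ⟨(hmem y P).mpr h1, (hswp P).mp h2, fun Q hyQ hQ => ?_⟩
    obtain ⟨Q0, hQ0, hQ0Q⟩ := exists_isBlk hyQ hQ
    obtain ⟨R, hR⟩ := blk_in hA hQ0
    have hQR : Q0 = R.map ⟨ι, hι⟩ := by
      ext x
      rw [hR x, Finset.mem_map]
      rfl
    rw [hQR] at hQ0
    have h4 := h3 R ((hmem y R).mp hQ0.1) ((hswp R).mpr hQ0.2.1)
    refine Finset.Subset.trans ?_ hQ0Q
    rw [hQR]
    exact Finset.map_subset_map.mpr h4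
  · rintro ⟨h1, h2, h3⟩
    refine ⟨(hmem y P).mp h1, (hswp P).mpr h2, fun Q hyQ hQ => ?_⟩
    have h4 := h3 (Q.map ⟨ι, hι⟩) ((hmem y Q).mpr hyQ) ((hswp Q).mp hQ)
    exact Finset.map_subset_map.mp h4

theorem isBlk_emb' (hι : Function.Injective ι) (hN : ∀ s w, N s w ↔ N' s (ι ∘ w))
    (hA : AbsE G N' ι) {y : E} {Q : Finset E'} (hQ : IsBlk G N' (ι y) Q) :
    ∃ P : Finset E, IsBlk G N y P ∧ Q = P.map ⟨ι, hι⟩ := by
  classical
  obtain ⟨R, hR⟩ := blk_in hA hQ
  have hQR : Q = R.map ⟨ι, hι⟩ := by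
    ext x
    rw [hR x, Finset.mem_map]
    rfl
  refine ⟨R, ?_, hQR⟩
  rw [isBlk_emb hι hN hA, ← hQR]
  exact hQ

theorem sw_emb (hι : Function.Injective ι) (hN : ∀ s w, N s w ↔ N' s (ι ∘ w))
    (hA : AbsE G N' ι) {y : E} : Sw G N y ↔ Sw G N' (ι y) := by
  constructor
  · rintro ⟨P, hP⟩
    exact ⟨_, (isBlk_emb hι hN hA).mp hP⟩
  · rintro ⟨Q, hQ⟩
    obtain ⟨P, hP, -⟩ := isBlk_emb' hι hN hA hQ
    exact ⟨P, hP⟩

theorem kd_emb (hι : Function.Injective ι) (hN : ∀ s w, N s w ↔ N' s (ι ∘ w))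
    (hA : AbsE G N' ι) {y z : E} : Kd G N y z ↔ Kd G N' (ι y) (ι z) := by
  classical
  constructor
  · rintro ⟨h1, g, hg, rfl⟩
    exact ⟨(sw_emb hι hN hA).mp h1, _, hg.ext hι hN hA, extP_apply hι g y⟩
  · intro hk
    obtain ⟨h0, g, hg, hgz⟩ := id hk
    refine ⟨(sw_emb hι hN hA).mpr h0, ?_⟩
    obtain ⟨Q, hQ⟩ := h0
    obtain ⟨P, hP, hQP⟩ := isBlk_emb' hι hN hA hQ
    have hQz : IsBlk G N' (ι z) (Q.map g.toEmbedding) := by
      rw [← hgz]; exact hQ.map_auto hg.1
    obtain ⟨P2, hP2, hQP2⟩ := isBlk_emb' hι hN hA hQz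
    -- a far exchange
    obtain ⟨σ, s1, s2, s3, s4, s5⟩ := exists_far hQ
      (F := {x | g x ≠ x} ∪ (Q.map g.toEmbedding : Finset E'))
      (hg.2.union (Finset.finite_toSet _))
    have s4g : ∀ x ∈ Q, g (σ x) = σ x := fun x hx => by
      by_contra h
      exact s4 x hx (Or.inl h)
    have s4Q : ∀ x ∈ Q, σ x ∉ Q.map g.toEmbedding := fun x hx h => s4 x hx (Or.inr h)
    obtain ⟨h, h1, h2, h3⟩ := hA ((P : Set E) ∪ P2) (P.finite_toSet.union P2.finite_toSet)
      (σ '' (Q : Set E')) (Q.finite_toSet.image _)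
    have hfixQ : ∀ x ∈ Q, h x = x := by
      intro x hx
      rw [hQP, Finset.mem_map] at hx
      obtain ⟨e, he, rfl⟩ := hx
      exact h2 e (Or.inl he)
    have hfixQ2 : ∀ x ∈ Q, h (g x) = g x := by
      intro x hx
      have h4 : g x ∈ Q.map g.toEmbedding := Finset.mem_map_of_mem _ hx
      rw [hQP2, Finset.mem_map] at h4
      obtain ⟨e, he, heq⟩ := h4
      have h5 : ι e = g x := heq
      rw [← h5]
      exact h2 e (Or.inr he)
    have hrange : ∀ x ∈ Q, x ∈ range ι := by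
      intro x hx
      rw [hQP, Finset.mem_map] at hx
      obtain ⟨e, he, rfl⟩ := hx
      exact ⟨e, rfl⟩
    have hrange2 : ∀ x ∈ Q, g x ∈ range ι := by
      intro x hx
      have h4 : g x ∈ Q.map g.toEmbedding := Finset.mem_map_of_mem _ hx
      rw [hQP2, Finset.mem_map] at h4
      obtain ⟨e, he, heq⟩ := h4
      exact ⟨e, heq⟩
    have hrange3 : ∀ x ∈ Q, h (σ x) ∈ range ι := fun x hx => h3 _ ⟨x, hx, rfl⟩
    -- the two exchanges
    let τ : Equiv.Perm E' := (g.symm.trans σ).trans g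
    have hτ : FA G N' τ := s1.conj hg.1
    let ρ : Equiv.Perm E' := σ.trans τ
    have hρ : FA G N' ρ := s1.trans hτ
    let ψ : Equiv.Perm E' := (h.symm.trans ρ).trans h
    have hψ : FA G N' ψ := hρ.conj h1
    have hψa : ∀ x, ψ x = h (g (σ (g.symm (σ (h.symm x))))) := fun _ => rfl
    have hy : ψ (ι y) = ι z := by
      rw [hψa]
      have e1 : h.symm (ι y) = ι y := by
        rw [Equiv.symm_apply_eq, hfixQ _ hQ.1]
      have e2 : g.symm (σ (ι y)) = σ (ι y) := by
        rw [Equiv.symm_apply_eq, s4g _ hQ.1]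
      rw [e1, e2, s2, hfixQ2 _ hQ.1, hgz]
    have hsupp : {x | ψ x ≠ x} ⊆ range ι := by
      intro x hx
      by_contra hxr
      apply hx
      rw [hψa]
      have e1 : h.symm x ∉ Q := by
        intro hc
        have := hfixQ _ hc
        rw [Equiv.apply_symm_apply] at this
        exact hxr (this ▸ hrange _ hc)
      have e2 : σ (h.symm x) ∉ Q := by
        intro hc
        have := hrange3 _ hc
        rw [s2, Equiv.apply_symm_apply] at this
        exact hxr this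
      have e3 : σ (h.symm x) = h.symm x := s5 _ e1 e2
      rw [e3]
      have e4 : g.symm (h.symm x) ∉ Q := by
        intro hc
        have := hfixQ2 _ hc
        rw [Equiv.apply_symm_apply, Equiv.apply_symm_apply] at this
        have h5 := hrange2 _ hc
        rw [Equiv.apply_symm_apply, ← this] at h5
        exact hxr h5
      have e5 : σ (g.symm (h.symm x)) ∉ Q := by
        intro hc
        have e6 := s4g _ hc
        rw [s2, Equiv.apply_symm_apply] at e6
        have e7 := hrange3 _ hc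
        rw [s2, ← e6, Equiv.apply_symm_apply] at e7
        exact hxr e7
      rw [s5 _ e4 e5, Equiv.apply_symm_apply, Equiv.apply_symm_apply]
    obtain ⟨f, hf1, hf2⟩ := exists_restrP hι hN hψ hsupp
    refine ⟨f, hf1, hι ?_⟩
    rw [hf2, hy]

end Pool.Agent.Helper6.VU
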