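import Pool.Agent.Helper6.V12Abs

/-!
# Levels
-/

set_option autoImplicit false

namespace Pool.Agent.Helper6.VU

open Set Filter

variable {Y : Type} {ar : Y → ℕ} {E : Type}

/-- An increasing sequence of sets of symbols. -/
structure Lv (G : ℕ → Set Y) : Prop where
  mono : ∀ m n, m ≤ n → G m ⊆ G n
  cover : ∀ s, ∃ n, s ∈ G n

variable {G : ℕ → Set Y} {N : St ar E}

/-- In an exchangeable set at each level. -/
def InfSw (G : ℕ → Set Y) (N : St ar E) (y : E) : Prop := ∀ n, Sw (G n) N y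

/-- Same kind at each level. -/
def Cl (G : ℕ → Set Y) (N : St ar E) (y z : E) : Prop := ∀ n, Kd (G n) N y z

/-- The component: union of the blocks. -/
def Cp (G : ℕ → Set Y) (N : St ar E) (y : E) : Set E := {z | ∃ n P, IsBlk (G n) N y P ∧ z ∈ P}

theorem Cl.left {y z : E} (h : Cl G N y z) : InfSw G N y := fun n => (h n).1

theorem Cl.right {y z : E} (h : Cl G N y z) : InfSw G N z := fun n => (h n).right

theorem Cl.refl {y : E} (h : InfSw G N y) : Cl G N y y := fun n => Kd.refl (h n)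

theorem Cl.symm {y z : E} (h : Cl G N y z) : Cl G N z y := fun n => (h n).symm

theorem Cl.trans {x y z : E} (h : Cl G N x y) (h' : Cl G N y z) : Cl G N x z :=
  fun n => (h n).trans (h' n)

theorem mem_Cp_self {y : E} (h : InfSw G N y) : y ∈ Cp G N y := by
  obtain ⟨P, hP⟩ := h 0
  exact ⟨0, P, hP, hP.1⟩

theorem Cp_level (hG : Lv G) {y z : E} (hy : InfSw G N y) (hz : z ∈ Cp G N y) (m : ℕ) :
    ∃ k, m ≤ k ∧ ∃ P, IsBlk (G k) N y P ∧ z ∈ P := by
  obtain ⟨n, P, hP, hzP⟩ := hz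
  obtain ⟨Q, hQ⟩ := hy (max m n)
  exact ⟨max m n, le_max_left _ _, Q, hQ,
    hQ.mono hP (hG.mono _ _ (le_max_right _ _)) hzP⟩

theorem InfSw.of_Cp (hG : Lv G) {y z : E} (hy : InfSw G N y) (hz : z ∈ Cp G N y) :
    InfSw G N z := by
  intro m
  obtain ⟨k, hk, P, hP, hzP⟩ := Cp_level hG hy hz m
  exact Sw.mono ⟨P, hP.of_mem hzP⟩ (hG.mono _ _ hk)

theorem Cp_symm (hG : Lv G) {y z : E} (hy : InfSw G N y) (hz : z ∈ Cp G N y) :
    y ∈ Cp G N z := by
  obtain ⟨k, -, P, hP, hzP⟩ := Cp_level hG hy hz 0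
  exact ⟨k, P, hP.of_mem hzP, hP.1⟩

theorem Cp_sub (hG : Lv G) {y z : E} (hy : InfSw G N y) (hz : z ∈ Cp G N y) :
    Cp G N z ⊆ Cp G N y := by
  rintro x ⟨n, Q, hQ, hxQ⟩
  obtain ⟨k, hk, P, hP, hzP⟩ := Cp_level hG hy hz n
  exact ⟨k, P, hP, (hP.of_mem hzP).mono hQ (hG.mono _ _ hk) hxQ⟩

theorem Cp_eq (hG : Lv G) {y z : E} (hy : InfSw G N y) (hz : z ∈ Cp G N y) :
    Cp G N z = Cp G N y :=
  Set.Subset.antisymm (Cp_sub hG hy hz)
    (Cp_sub hG (hy.of_Cp hG hz) (Cp_symm hG hy hz))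

/-- Rigid elements. -/
def Rig (G : ℕ → Set Y) (N : St ar E) (m : ℕ) (y : E) : Prop :=
  ∀ z z', Kd (G m) N y z → Kd (G m) N y z' → Cl G N z z' ∧
    (z' ∈ Cp G N z → ∀ P, IsBlk (G m) N z P → z' ∈ P)

/-- Flexible elements. -/
def Flex (G : ℕ → Set Y) (N : St ar E) (y : E) : Prop := ∀ m, ¬ Rig G N m y

theorem FA.kd {G : Set Y} {g : Equiv.Perm E} (hg : FA G N g) {y : E} (h : Sw G N y) :
    Kd G N y (g y) := ⟨h, g, hg, rfl⟩

theorem flex_cases (hG : Lv G) {x : E} (hf : Flex G N x) :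
    (∀ m, ∃ y', Kd (G m) N x y' ∧ ¬ Cl G N x y') ∨
      ∀ m, ∃ x' ∈ Cp G N x, (∀ P, IsBlk (G m) N x P → x' ∉ P) ∧ Kd (G m) N x x' := by
  by_cases hα : ∀ m, ∃ y', Kd (G m) N x y' ∧ ¬ Cl G N x y'
  · exact Or.inl hα
  · right
    push Not at hα
    obtain ⟨m0, hm0⟩ := hα
    intro m
    set m1 := max m m0 with hm1
    have h1 := hf m1
    unfold Rig at h1
    push Not at h1
    obtain ⟨z, z', hz, hz', hne⟩ := h1
    have hxz : Cl G N x z := hm0 z (hz.mono (hG.mono _ _ (le_max_right _ _)))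
    have hxz' : Cl G N x z' := hm0 z' (hz'.mono (hG.mono _ _ (le_max_right _ _)))
    obtain ⟨hcp, P1, hP1, hzP1⟩ := hne (hxz.symm.trans hxz')
    obtain ⟨k, hk, P, hP, hzP⟩ := Cp_level hG hxz.right hcp m1
    obtain ⟨-, g, hg, hgz⟩ := (hxz k).symm
    have hgP := hP.map_auto hg.1
    rw [hgz] at hgP
    have hsub : G m1 ⊆ G k := hG.mono _ _ hk
    have hgP1 := hP1.map_auto (hg.1.mono hsub)
    rw [hgz] at hgP1
    refine ⟨g z', ⟨k, _, hgP, Finset.mem_map_of_mem _ hzP⟩, ?_, ?_⟩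
    · intro Q hQ hzQ
      have h2 := hgP1.mono hQ (hG.mono _ _ (le_max_left _ _)) hzQ
      rw [Finset.mem_map] at h2
      obtain ⟨w, hw, hwz⟩ := h2
      have : w = z' := g.injective hwz
      exact hzP1 (this ▸ hw)
    · have h3 : Kd (G k) N z' (g z') := hg.kd ⟨P, hP.of_mem hzP⟩
      exact (hz'.mono (hG.mono _ _ (le_max_left _ _))).trans
        (h3.mono ((hG.mono _ _ (le_max_left _ _)).trans hsub))

/-- Components of the same type. -/
def CT (G : ℕ → Set Y) (N : St ar E) (y y' : E) : Prop := ∃ x ∈ Cp G N y, Cl G N x y'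

theorem exists_often {α : Type} {W : Set α} (hW : W.Finite) {f : ℕ → α} {m : ℕ}
    (hf : ∀ n, m ≤ n → f n ∈ W) : ∃ a ∈ W, ∀ n, ∃ k, n ≤ k ∧ f k = a := by
  by_contra hcon
  push Not at hcon
  choose! b hb using hcon
  obtain ⟨B, hB⟩ := (hW.image b).bddAbove
  have h1 := hf (max m B) (le_max_left _ _)
  refine hb _ h1 (max m B) ?_ rfl
  exact (hB ⟨_, h1, rfl⟩).trans (le_max_right _ _)

theorem CT.symm (hG : Lv G) {y y' : E} (hy : InfSw G N y) (h : CT G N y y') : CT G N y' y := by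
  obtain ⟨x, ⟨m, P, hP, hxP⟩, hxy⟩ := h
  have hPx := hP.of_mem hxP
  choose g hg hgx using fun n => (hxy n).2
  obtain ⟨P', hP'⟩ := hxy.right m
  have hW : ∀ n, m ≤ n → g n y ∈ (P' : Set E) := by
    intro n hn
    have h1 := hPx.map_auto ((hg n).1.mono (hG.mono _ _ hn))
    rw [hgx n] at h1
    rw [hP'.unique h1]
    exact Finset.mem_map_of_mem _ hP.1
  obtain ⟨x', hx', hoft⟩ := exists_often P'.finite_toSet hW
  refine ⟨x', ⟨m, P', hP', hx'⟩, ?_⟩
  have : Cl G N y x' := by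
    intro n
    obtain ⟨k, hk, hkx⟩ := hoft n
    exact Kd.mono ⟨hy k, g k, hg k, hkx⟩ (hG.mono _ _ hk)
  exact this.symm

theorem CT.trans (hG : Lv G) {x y z : E} (hx : InfSw G N x)
    (h : CT G N x y) (h' : CT G N y z) : CT G N x z := by
  obtain ⟨a, ha, hay⟩ := h
  obtain ⟨b, ⟨m, P, hP, hbP⟩, hbz⟩ := h'
  -- move `b` to the component of `x`
  choose g hg hga using fun n => (hay.symm n).2
  obtain ⟨Q, hQ⟩ := hay.left m
  have hW : ∀ n, m ≤ n → g n b ∈ (Q : Set E) := by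
    intro n hn
    have h1 := hP.map_auto ((hg n).1.mono (hG.mono _ _ hn))
    rw [hga n] at h1
    rw [hQ.unique h1]
    exact Finset.mem_map_of_mem _ hbP
  obtain ⟨b', hb', hoft⟩ := exists_often Q.finite_toSet hW
  refine ⟨b', ?_, ?_⟩
  · rw [← Cp_eq hG hx ha]
    exact ⟨m, Q, hQ, hb'⟩
  · have h1 : Cl G N b b' := by
      intro n
      obtain ⟨k, hk, hkx⟩ := hoft n
      exact Kd.mono ⟨(hbz.left) k, g k, hg k, hkx⟩ (hG.mono _ _ hk)
    exact h1.symm.trans hbz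

theorem CT.refl {y : E} (hy : InfSw G N y) : CT G N y y := ⟨y, mem_Cp_self hy, Cl.refl hy⟩

theorem CT.congr (hG : Lv G) {y z y' : E} (hy : InfSw G N y) (hz : z ∈ Cp G N y) :
    CT G N y y' ↔ CT G N z y' := by
  unfold CT
  rw [Cp_eq hG hy hz]

/-- Conjugate tuples at each level. -/
def Cj (G : ℕ → Set Y) (N : St ar E) (l l' : List E) : Prop :=
  ∀ n, ∃ g : Equiv.Perm E, Auto (G n) N g ∧ l.map g = l'

theorem Cj.symm {l l' : List E} (h : Cj G N l l') : Cj G N l' l := by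
  intro n
  obtain ⟨g, hg, rfl⟩ := h n
  refine ⟨g.symm, hg.perm_symm, ?_⟩
  rw [List.map_map]
  simp

theorem Cj.trans {l l' l'' : List E} (h : Cj G N l l') (h' : Cj G N l' l'') : Cj G N l l'' := by
  intro n
  obtain ⟨g, hg, rfl⟩ := h n
  obtain ⟨g', hg', rfl⟩ := h' n
  refine ⟨g.trans g', hg'.perm_mul hg, ?_⟩
  rw [List.map_map]
  rfl

theorem Cj.tail {x x' : E} {l l' : List E} (h : Cj G N (x :: l) (x' :: l')) : Cj G N l l' := by
  intro n
  obtain ⟨g, hg, h1⟩ := h n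
  rw [List.map_cons, List.cons.injEq] at h1
  exact ⟨g, hg, h1.2⟩

theorem Cj.drop2 {x x' y y' : E} {l l' : List E} (h : Cj G N (y :: x :: l) (y' :: x' :: l')) :
    Cj G N (y :: l) (y' :: l') := by
  intro n
  obtain ⟨g, hg, h1⟩ := h n
  rw [List.map_cons, List.map_cons, List.cons.injEq, List.cons.injEq] at h1
  exact ⟨g, hg, by rw [List.map_cons, h1.1, h1.2.2]⟩

theorem Cj.ext_finite (hG : Lv G) {l l' : List E} (h : Cj G N l l') {y : E} {W : Set E}
    (hW : W.Finite) {m : ℕ} (hy : ∀ n, m ≤ n → ∀ g : Equiv.Perm E, Auto (G n) N g →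
      l.map g = l' → g y ∈ W) : ∃ y', Cj G N (y :: l) (y' :: l') := by
  choose g hg hgl using h
  obtain ⟨y', -, hoft⟩ := exists_often hW (f := fun n => g n y) (m := m)
    (fun n hn => hy n hn (g n) (hg n) (hgl n))
  refine ⟨y', fun n => ?_⟩
  obtain ⟨k, hk, hky⟩ := hoft n
  exact ⟨g k, (hg k).mono (hG.mono _ _ hk), by rw [List.map_cons, hgl k, hky]⟩

theorem Cj.ext_Cp (hG : Lv G) {l l' : List E} (h : Cj G N l l') {y e : E} (he : e ∈ l)
    (hy : y ∈ Cp G N e) : ∃ y', Cj G N (y :: l) (y' :: l') := by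
  obtain ⟨m, P, hP, hyP⟩ := hy
  let bl : E → Set E := fun e => {x | ∃ P, IsBlk (G m) N e P ∧ x ∈ P}
  have hbl : ∀ e, (bl e).Finite := by
    intro e
    by_cases h : ∃ P, IsBlk (G m) N e P
    · obtain ⟨P, hP⟩ := h
      refine P.finite_toSet.subset ?_
      rintro x ⟨P', hP', hx⟩
      rw [hP.unique hP']
      exact hx
    · refine Set.Finite.subset Set.finite_empty ?_
      rintro x ⟨P', hP', -⟩
      exact h ⟨P', hP'⟩
  refine h.ext_finite hG (W := ⋃ e ∈ {e | e ∈ l'}, bl e)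
    ((List.finite_toSet l').biUnion fun e _ => hbl e) (m := m) fun n hn g hg hgl => ?_
  have h1 := hP.map_auto (hg.mono (hG.mono _ _ hn))
  refine Set.mem_iUnion₂.mpr ⟨g e, ?_, _, h1, Finset.mem_map_of_mem _ hyP⟩
  show g e ∈ l'
  rw [← hgl]
  exact List.mem_map_of_mem he

theorem Cj.ext_kd (hG : Lv G) {l l' : List E} {x z : E} (hx : InfSw G N x) (hz : InfSw G N z)
    (hxl : ∀ e ∈ l, e ∉ Cp G N x) (hzl : ∀ e ∈ l', e ∉ Cp G N z)
    (h : ∀ n, ∃ k, n ≤ k ∧ ∃ g : Equiv.Perm E, Auto (G k) N g ∧ l.map g = l' ∧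
      Kd (G k) N (g x) z) : Cj G N (x :: l) (z :: l') := by
  intro n
  obtain ⟨k, hk, g, hg, hgl, hkd⟩ := h n
  obtain ⟨P, hP⟩ := hx n
  obtain ⟨Q, hQ⟩ := hz n
  have hg' := hg.mono (hG.mono _ _ hk)
  have hP' := hP.map_auto hg'
  obtain ⟨f, hf1, hf2, hf3, -⟩ := (hkd.mono (hG.mono _ _ hk)).move hP' hQ (F := {e | e ∈ l'})
    (List.finite_toSet l') (by
      intro a ha hal
      rw [Finset.mem_map] at ha
      obtain ⟨b, hb, hba⟩ := ha
      have h1 : a ∈ l' := hal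
      rw [← hgl, List.mem_map] at h1
      obtain ⟨c, hc, hca⟩ := h1
      have : b = c := g.injective (by rw [hca]; exact hba)
      exact hxl c hc (this ▸ ⟨n, P, hP, hb⟩)) (by
      intro a ha hal
      exact hzl a hal ⟨n, Q, hQ, ha⟩)
  refine ⟨g.trans f, hf1.1.perm_mul hg', ?_⟩
  rw [List.map_cons]
  have h2 : l.map (g.trans f) = (l.map g).map f := by
    rw [List.map_map]; rfl
  have h3 : l'.map f = l' := by
    conv_rhs => rw [← List.map_id l']
    exact List.map_congr_left fun e he => hf3 e he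
  rw [h2, hgl, h3]
  show f (g x) :: l' = z :: l'
  rw [hf2]

/-- Infinitely many components of the type. -/
def InfTy (G : ℕ → Set Y) (N : St ar E) (e : E) : Prop :=
  ∀ F : Set E, F.Finite → ∃ z, Cl G N z e ∧ ∀ f ∈ F, f ∉ Cp G N z

/-- The flexible components are controlled by the tuple. -/
def Good (G : ℕ → Set Y) (N : St ar E) (a : List E) : Prop :=
  ∀ y, InfSw G N y → (∃ x ∈ Cp G N y, ∃ m, Rig G N m x) ∨ (∃ e ∈ a, e ∈ Cp G N y) ∨
    ∃ x ∈ Cp G N y, ∃ e ∈ a, Cl G N x e ∧ InfTy G N e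

/-- **One-point extensions.** -/
theorem one_point (hG : Lv G)
    (hcof : ∀ n, ∃ C : Finset E, ∀ y, y ∉ C → ∃ c ∈ C, Ex (G n) N y c) {a : List E}
    (ha : Good G N a) {b b' : List E} (hlen : b'.length = b.length)
    (h : Cj G N (b' ++ a) (b ++ a)) (y : E) :
    ∃ y', Cj G N (y :: (b' ++ a)) (y' :: (b ++ a)) := by
  classical
  -- finite sets
  have hfin : ∀ n, {z | ¬ Sw (G n) N z}.Finite := by
    intro n
    obtain ⟨C, hC⟩ := hcof n
    refine C.finite_toSet.subset fun z hz => ?_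
    by_contra hzC
    obtain ⟨c, -, P, hP, -⟩ := hC z hzC
    exact hz ⟨P, hP⟩
  by_cases hy : InfSw G N y
  swap
  · unfold InfSw at hy
    push Not at hy
    obtain ⟨m, hm⟩ := hy
    refine h.ext_finite hG (hfin m) (m := m) fun n hn g hg _ hsw => hm ?_
    have := hsw.map_auto (hg.mono (hG.mono _ _ hn)).perm_symm
    simpa using this
  by_cases hmeet : ∃ e ∈ b' ++ a, e ∈ Cp G N y
  · obtain ⟨e, he, hey⟩ := hmeet
    exact h.ext_Cp hG he (Cp_symm hG hy hey)
  push Not at hmeet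
  -- extend by an element of the component
  suffices hx : ∃ x ∈ Cp G N y, ∃ z, Cj G N (x :: (b' ++ a)) (z :: (b ++ a)) by
    obtain ⟨x, hxy, z, hxz⟩ := hx
    have hyx : y ∈ Cp G N x := Cp_symm hG hy hxy
    obtain ⟨y', hy'⟩ := hxz.ext_Cp hG (e := x) (by simp) hyx
    exact ⟨y', hy'.drop2⟩
  rcases ha y hy with ⟨x, hxy, m, hrig⟩ | ⟨e, he, hey⟩ | ⟨x, hxy, e, he, hxe, hinf⟩
  · -- rigid
    refine ⟨x, hxy, ?_⟩
    have hxs := hy.of_Cp hG hxy
    have hxl : ∀ e ∈ b' ++ a, e ∉ Cp G N x := by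
      intro e he
      rw [Cp_eq hG hy hxy]
      exact hmeet e he
    choose g hg hgl using h
    -- a constant kind at level `m`
    obtain ⟨C, hC⟩ := hcof m
    have hkd : ∀ n, m ≤ n → ∃ c ∈ C, Kd (G m) N (g n x) c := by
      intro n hn
      have h1 : Sw (G m) N (g n x) := (hxs m).map_auto ((hg n).mono (hG.mono _ _ hn))
      by_cases h2 : g n x ∈ C
      · exact ⟨_, h2, Kd.refl h1⟩
      · obtain ⟨c, hc, hex⟩ := hC _ h2
        exact ⟨c, hc, hex.kd⟩
    let f : ℕ → E := fun n => if hn : m ≤ n then (hkd n hn).choose else x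
    have hf : ∀ n, m ≤ n → f n ∈ C ∧ Kd (G m) N (g n x) (f n) := by
      intro n hn
      simp only [f, dif_pos hn]
      exact (hkd n hn).choose_spec
    obtain ⟨c, hcC, hoft⟩ := exists_often C.finite_toSet (f := f) (m := m)
      (fun n hn => (hf n hn).1)
    have hoft' : ∀ n, ∃ k, n ≤ k ∧ m ≤ k ∧ Kd (G m) N (g k x) c := by
      intro n
      obtain ⟨k, hk, hkc⟩ := hoft (max n m)
      have hmk := (le_max_right n m).trans hk
      exact ⟨k, (le_max_left n m).trans hk, hmk, hkc ▸ (hf k hmk).2⟩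
    -- elements of this kind
    have hback : ∀ z, Kd (G m) N c z → ∀ k, m ≤ k → Kd (G m) N (g k x) c →
        Kd (G m) N x ((g k).symm z) := by
      intro z hz k hk hkc
      have h1 := (hkc.trans hz).map_auto ((hg k).mono (hG.mono _ _ hk)).perm_symm
      simpa using h1
    have hzcl : ∀ z, Kd (G m) N c z → ∀ k, m ≤ k → Kd (G m) N (g k x) c →
        ∀ n, n ≤ k → Kd (G n) N (g k x) z := by
      intro z hz k hk hkc n hn
      have h1 := hrig x _ (Kd.refl (hxs m)) (hback z hz k hk hkc)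
      have h2 := (h1.1 n).map_auto ((hg k).mono (hG.mono _ _ hn))
      simpa using h2
    have hzinf : ∀ z, Kd (G m) N c z → InfSw G N z := by
      intro z hz n
      obtain ⟨k, hnk, hmk, hkc⟩ := hoft' n
      exact (hzcl z hz k hmk hkc n hnk).right
    have hzblk : ∀ z z', Kd (G m) N c z → Kd (G m) N c z' → z' ∈ Cp G N z →
        ∀ P, IsBlk (G m) N z P → z' ∈ P := by
      intro z z' hz hz' hzz P hP
      obtain ⟨k0, hk0, Q, hQ, hzQ⟩ := Cp_level hG (hzinf z hz) hzz m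
      obtain ⟨k, hnk, hmk, hkc⟩ := hoft' k0
      have h1 := hback z hz k hmk hkc
      have h2 := hback z' hz' k hmk hkc
      have hgs : Auto (G k0) N (g k).symm := ((hg k).mono (hG.mono _ _ hnk)).perm_symm
      have hgm : Auto (G m) N (g k).symm := ((hg k).mono (hG.mono _ _ hmk)).perm_symm
      have h3 : (g k).symm z' ∈ Cp G N ((g k).symm z) :=
        ⟨k0, _, hQ.map_auto hgs, Finset.mem_map_of_mem _ hzQ⟩
      have h4 := (hrig _ _ h1 h2).2 h3 _ (hP.map_auto hgm)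
      rw [Finset.mem_map] at h4
      obtain ⟨w, hw, hwz⟩ := h4
      have : w = z' := (g k).symm.injective hwz
      exact this ▸ hw
    -- a good element
    have hbadf : {z | Kd (G m) N c z ∧ ∃ e ∈ b ++ a, e ∈ Cp G N z}.Finite := by
      have h1 : ∀ e, {z | Kd (G m) N c z ∧ e ∈ Cp G N z}.Finite := by
        intro e
        by_cases h2 : ∃ z, Kd (G m) N c z ∧ e ∈ Cp G N z
        · obtain ⟨z, hz, hez⟩ := h2
          obtain ⟨P, hP⟩ := hz.right
          refine P.finite_toSet.subset ?_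
          rintro z' ⟨hz', hez'⟩
          have h3 : z' ∈ Cp G N z := by
            rw [← Cp_eq hG (hzinf z hz) hez]
            exact Cp_symm hG (hzinf z' hz') hez'
          exact hzblk z z' hz hz' h3 P hP
        · refine Set.Finite.subset Set.finite_empty ?_
          rintro z ⟨h3, h4⟩
          exact h2 ⟨z, h3, h4⟩
      refine ((List.finite_toSet (b ++ a)).biUnion fun e _ => h1 e).subset ?_
      rintro z ⟨h2, e, he, hez⟩
      exact Set.mem_iUnion₂.mpr ⟨e, he, h2, hez⟩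
    obtain ⟨k0, -, -, hkc0⟩ := hoft' 0
    obtain ⟨z, hz1, Q, hQ, hQF⟩ := Kd.infinite hkc0.right hbadf
    have hzl : ∀ e ∈ b ++ a, e ∉ Cp G N z := fun e he hez => hQF z hQ.1 ⟨hz1, e, he, hez⟩
    refine ⟨z, Cj.ext_kd hG hxs (hzinf z hz1) hxl hzl fun n => ?_⟩
    obtain ⟨k, hnk, hmk, hkc⟩ := hoft' n
    exact ⟨k, hnk, g k, hg k, hgl k, hzcl z hz1 k hmk hkc k le_rfl⟩
  · exact absurd hey (hmeet e (List.mem_append_right _ he))
  · -- clones of a marked element
    refine ⟨x, hxy, ?_⟩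
    have hxs := hy.of_Cp hG hxy
    have hxl : ∀ e ∈ b' ++ a, e ∉ Cp G N x := by
      intro e he
      rw [Cp_eq hG hy hxy]
      exact hmeet e he
    obtain ⟨z, hz1, hz2⟩ := hinf {e | e ∈ b ++ a} (List.finite_toSet _)
    refine ⟨z, Cj.ext_kd hG hxs hz1.left hxl (fun e he => hz2 e he) fun n => ?_⟩
    obtain ⟨g, hg, hgl⟩ := h n
    refine ⟨n, le_rfl, g, hg, hgl, ?_⟩
    have hge : g e = e := by
      rw [List.map_append] at hgl
      have h1 := (List.append_inj hgl (by rw [List.length_map, hlen])).2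
      have h2 : ∀ e ∈ a, g e = e := by
        intro e he
        obtain ⟨i, hi, rfl⟩ := List.getElem_of_mem he
        have h3 : (a.map g)[i]'(by simpa using hi) = a[i] := by
          simp only [h1]
        simpa using h3
      exact h2 e he
    have h4 := (hxe n).map_auto hg
    rw [hge] at h4
    exact h4.trans (hz1 n).symm

end Pool.Agent.Helper6.VU
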