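import Pool.Agent.Helper6.V13Lev

/-!
# Infinitely many copies of each component
-/

set_option autoImplicit false

namespace Pool.Agent.Helper6.VU

open Set Filter

variable {Y : Type} {ar : Y → ℕ} {D : Type}

theorem CT.infSw {G : ℕ → Set Y} {N : St ar D} (hG : Lv G) {y z : D} (h : CT G N y z) :
    InfSw G N y := by
  obtain ⟨x, ⟨n, P, hP, hxP⟩, hxz⟩ := h
  exact hxz.left.of_Cp hG ⟨n, P, hP.of_mem hxP, hP.1⟩

/-- If no finite tuple is good, there are infinitely many types of flexible components. -/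
theorem exists_seq {G : ℕ → Set Y} {N : St ar D} (hG : Lv G) (hno : ∀ a, ¬ Good G N a) :
    ∃ y : ℕ → D, (∀ i, InfSw G N (y i)) ∧ (∀ i, ∀ x ∈ Cp G N (y i), Flex G N x) ∧
      ∀ i j, i ≠ j → ¬ CT G N (y i) (y j) := by
  classical
  have h1 : ∀ a : List D, ∃ y, InfSw G N y ∧ (∀ x ∈ Cp G N y, Flex G N x) ∧
      (∀ e ∈ a, e ∉ Cp G N y) ∧ ∀ x ∈ Cp G N y, ∀ e ∈ a, Cl G N x e → ¬ InfTy G N e := by
    intro a
    have := hno a
    unfold Good at this
    push Not at this
    obtain ⟨y, hy, h1, h2, h3⟩ := this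
    exact ⟨y, hy, fun x hx m => h1 x hx m, h2, h3⟩
  choose nx n1 n2 n3 n4 using h1
  have h2 : ∀ e : D, ∃ l : List D, ¬ InfTy G N e → ∀ z, Cl G N z e → ∃ f ∈ l, f ∈ Cp G N z := by
    intro e
    by_cases he : InfTy G N e
    · exact ⟨[], fun h => absurd he h⟩
    · have := he
      unfold InfTy at this
      push Not at this
      obtain ⟨F, hF, hz⟩ := this
      refine ⟨hF.toFinset.toList, fun _ z hze => ?_⟩
      obtain ⟨f, hf, hfz⟩ := hz z hze
      exact ⟨f, by simpa using hf, hfz⟩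
  choose fl hfl using h2
  let L : ℕ → List D := fun k => Nat.rec [] (fun _ l => l ++ (nx l :: fl (nx l))) k
  have hL : ∀ k, L (k + 1) = L k ++ (nx (L k) :: fl (nx (L k))) := fun _ => rfl
  have hmono : ∀ k k', k ≤ k' → ∀ e ∈ L k, e ∈ L k' := by
    intro k k' h
    induction h with
    | refl => exact fun _ h => h
    | step _ ih =>
      intro e he
      rw [hL]
      exact List.mem_append_left _ (ih e he)
  have hlt : ∀ i k, i < k → ¬ CT G N (nx (L k)) (nx (L i)) := by
    intro i k hik hct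
    have hmem : nx (L i) ∈ L k := hmono (i + 1) k hik _ (by rw [hL]; simp)
    have hmem2 : ∀ f ∈ fl (nx (L i)), f ∈ L k := fun f hf =>
      hmono (i + 1) k hik _ (by rw [hL]; simp [hf])
    obtain ⟨x, hx, hxy⟩ := hct
    have h3 := n4 (L k) x hx _ hmem hxy
    obtain ⟨f, hf, hfx⟩ := hfl _ h3 x hxy
    rw [Cp_eq hG (n1 _) hx] at hfx
    exact n3 (L k) f (hmem2 f hf) hfx
  refine ⟨fun k => nx (L k), fun i => n1 _, fun i => n2 _, fun i j hij hct => ?_⟩
  rcases Nat.lt_or_gt_of_ne hij with h | h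
  · exact hlt i j h (hct.symm hG (n1 _))
  · exact hlt j i h hct

theorem AbsE.of_step {E E' : Type} {G : Set Y} {N' : St ar E'} {ι : E → E'}
    (h : ∀ F : Set E, F.Finite → ∀ W : Set E', W.Finite → ∀ w0 ∈ W, w0 ∉ range ι →
      ∃ g : Equiv.Perm E', Auto G N' g ∧ (∀ f ∈ F, g (ι f) = ι f) ∧
        (∀ w ∈ W, w ∈ range ι → g w ∈ range ι) ∧ g w0 ∈ range ι) : AbsE G N' ι := by
  classical
  intro F hF W hW
  have key : ∀ (n : ℕ) (W : Set E'), W.Finite → (W \ range ι).ncard = n →
      ∃ g : Equiv.Perm E', Auto G N' g ∧ (∀ f ∈ F, g (ι f) = ι f) ∧ ∀ w ∈ W, g w ∈ range ι := by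
    intro n
    induction n using Nat.strong_induction_on with
    | _ n ih =>
      intro W hW hn
      by_cases hne : (W \ range ι).Nonempty
      · obtain ⟨w0, hw0, hw0r⟩ := hne
        obtain ⟨g, g1, g2, g3, g4⟩ := h F hF W hW w0 hw0 hw0r
        have hlt : ((g '' W) \ range ι).ncard < n := by
          rw [← hn]
          have hsub : (g '' W) \ range ι ⊆ g '' ((W \ range ι) \ {w0}) := by
            rintro _ ⟨⟨w, hw, rfl⟩, hwr⟩
            refine ⟨w, ⟨⟨hw, fun hr => hwr (g3 w hw hr)⟩, ?_⟩, rfl⟩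
            rintro rfl
            exact hwr g4
          have hfin : ((W \ range ι) \ {w0}).Finite := (hW.subset Set.sdiff_subset).subset
            Set.sdiff_subset
          calc ((g '' W) \ range ι).ncard ≤ (g '' ((W \ range ι) \ {w0})).ncard :=
                Set.ncard_le_ncard hsub (hfin.image g)
            _ = ((W \ range ι) \ {w0}).ncard := Set.ncard_image_of_injective _ g.injective
            _ < (W \ range ι).ncard := Set.ncard_sdiff_singleton_lt_of_mem ⟨hw0, hw0r⟩
                (hW.subset Set.sdiff_subset)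
        obtain ⟨f, f1, f2, f3⟩ := ih _ hlt (g '' W) (hW.image g) rfl
        refine ⟨g.trans f, f1.perm_mul g1, fun e he => ?_, fun w hw => f3 _ ⟨w, hw, rfl⟩⟩
        show f (g (ι e)) = ι e
        rw [g2 e he, f2 e he]
      · refine ⟨Equiv.refl E', Auto.id G N', fun _ _ => rfl, fun w hw => ?_⟩
        by_contra hr
        exact hne ⟨w, hw, hr⟩
  exact key _ W hW rfl

section Om

variable {K : HC ar} {M : St ar D} {G : ℕ → Set Y}

/-- The block of an element, as a finite set. -/
noncomputable def bk (G : ℕ → Set Y) (M : St ar D) (n : ℕ) (y : D) : Finset D :=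
  open Classical in if h : Sw (G n) M y then h.choose else ∅

theorem bk_spec {n : ℕ} {y : D} (h : Sw (G n) M y) : IsBlk (G n) M y (bk G M n y) := by
  unfold bk
  rw [dif_pos h]
  exact h.choose_spec

/-- The exchange moving the block off `F`. -/
theorem exists_omS (y : D) (hy : InfSw G M y) (q : ℕ × Finset D) :
    ∃ σ : D → D, Auto (G q.1) M σ ∧ Disp σ (bk G M q.1 y : Set D) ∧
      ∀ x ∈ bk G M q.1 y, σ x ∉ q.2 := by
  obtain ⟨σ, h1, h2, h3⟩ := (bk_spec (hy q.1)).2.1 (q.2 : Set D) q.2.finite_toSet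
  exact ⟨σ, h1, h2, h3⟩

/-- The chosen exchanges. -/
noncomputable def omS (G : ℕ → Set Y) (M : St ar D) (y : D) (q : ℕ × Finset D) : D → D :=
  open Classical in if h : InfSw G M y then (exists_omS y h q).choose else id

theorem omS_spec {y : D} (hy : InfSw G M y) (q : ℕ × Finset D) :
    Auto (G q.1) M (omS G M y q) ∧ Disp (omS G M y q) (bk G M q.1 y : Set D) ∧
      ∀ x ∈ bk G M q.1 y, omS G M y q x ∉ q.2 := by
  unfold omS
  rw [dif_pos hy]
  exact (exists_omS y hy q).choose_spec

theorem neBot_idx (D : Type) : NeBot (Filter.atTop : Filter (ℕ × Finset D)) := by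
  classical
  infer_instance

/-- The index ultrafilter. -/
noncomputable def omI (D : Type) : Ultrafilter (ℕ × Finset D) :=
  haveI := neBot_idx D
  Ultrafilter.of (Filter.atTop : Filter (ℕ × Finset D))

theorem omI_ge (q : ℕ × Finset D) : ∀ᶠ p in (omI D : Filter (ℕ × Finset D)), q ≤ p := by
  have := neBot_idx D
  have h : (omI D : Filter (ℕ × Finset D)) ≤ Filter.atTop := Ultrafilter.of_le _
  exact h (Filter.eventually_ge_atTop q)

/-- The ultrafilter of a component. -/
noncomputable def omU (G : ℕ → Set Y) (M : St ar D) (y : D) : Ultrafilter (D → D) :=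
  (omI D).map (omS G M y)

/-- The coordinates of a component. -/
def omB (G : ℕ → Set Y) (M : St ar D) (y : D) : Set D := {z | InfSw G M y ∧ z ∈ Cp G M y}

theorem bk_mem (hG : Lv G) {y z : D} (hy : InfSw G M y) (hz : z ∈ Cp G M y) :
    ∃ m, ∀ n, m ≤ n → z ∈ bk G M n y := by
  obtain ⟨m, P, hP, hzP⟩ := hz
  exact ⟨m, fun n hn => (bk_spec (hy n)).mono hP (hG.mono _ _ hn) hzP⟩

theorem omU_disj (hG : Lv G) (y : D) : Disj (omU G M y) (omB G M y) := by
  constructor
  · rintro z ⟨hy, hz⟩ d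
    show ∀ᶠ q in (omI D : Filter _), omS G M y q z ≠ d
    obtain ⟨m, hm⟩ := bk_mem hG hy hz
    refine (omI_ge (m, {d})).mono fun q hq h => ?_
    refine (omS_spec hy q).2.2 z (hm q.1 hq.1) ?_
    rw [h]
    exact hq.2 (Finset.mem_singleton_self d)
  · rintro z ⟨hy, hz⟩ z' ⟨-, hz'⟩ hne
    show ∀ᶠ q in (omI D : Filter _), omS G M y q z ≠ omS G M y q z'
    exact Filter.Eventually.of_forall fun q h => hne ((omS_spec hy q).2.1.injective h)

/-- The blow-up. -/
noncomputable def omM (G : ℕ → Set Y) (M : St ar D) (d0 : D) :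
    St ar (cpX (univ : Set D) (univ : Set D) (omB G M)) :=
  cpN (omU G M) d0 M univ univ (omB G M)

/-- The old elements. -/
def omi (G : ℕ → Set Y) (M : St ar D) (d : D) : cpX (univ : Set D) (univ : Set D) (omB G M) :=
  ⟨Sum.inl d, Or.inl ⟨d, trivial, rfl⟩⟩

/-- The new elements. -/
def omr {y z : D} (hy : InfSw G M y) (j : ℕ) (hz : z ∈ Cp G M y) :
    cpX (univ : Set D) (univ : Set D) (omB G M) :=
  ⟨Sum.inr ((y, j), z), Or.inr ⟨y, j, z, trivial, ⟨hy, hz⟩, rfl⟩⟩

theorem om_cases (e : cpX (univ : Set D) (univ : Set D) (omB G M)) :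
    (∃ d, e = omi G M d) ∨ ∃ (y z : D) (j : ℕ) (hy : InfSw G M y) (hz : z ∈ Cp G M y),
      e = omr hy j hz := by
  rcases e with ⟨e, ⟨d, -, rfl⟩ | ⟨y, j, z, -, ⟨hy, hz⟩, rfl⟩⟩
  · exact Or.inl ⟨d, rfl⟩
  · exact Or.inr ⟨y, z, j, hy, hz, rfl⟩

theorem omi_injective : Function.Injective (omi G M) := by
  intro d d' h
  have := congrArg Subtype.val h
  simpa [omi] using this

theorem omM_mem (hG : Lv G) (hM : K.mem M) (d0 : D) : K.mem (omM G M d0) :=
  cpN_mem hM (omU_disj hG)

theorem omM_omi (d0 : D) (s : Y) (w : Fin (ar s) → D) :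
    M s w ↔ omM G M d0 s (omi G M ∘ w) :=
  (GC_inl (U := fun r : D × ℕ => omU G M r.1) (g₀ := fun _ _ => d0) w).symm

/-- The exchange of a block with its copy in the row `(y, j)`. -/
noncomputable def omT (y : D) (j : ℕ) (P : Finset D) :
    D ⊕ (D × ℕ) × D → D ⊕ (D × ℕ) × D :=
  open Classical in
  Sum.elim (fun d => if d ∈ P then Sum.inr ((y, j), d) else Sum.inl d)
    fun p => if p.1 = (y, j) ∧ p.2 ∈ P then Sum.inl p.2 else Sum.inr p

theorem omT_inl_mem {y : D} {j : ℕ} {P : Finset D} {d : D} (h : d ∈ P) :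
    omT y j P (Sum.inl d) = Sum.inr ((y, j), d) := by
  simp [omT, h]

theorem omT_inl_not {y : D} {j : ℕ} {P : Finset D} {d : D} (h : d ∉ P) :
    omT y j P (Sum.inl d) = Sum.inl d := by
  simp [omT, h]

theorem omT_inr_mem {y : D} {j : ℕ} {P : Finset D} {d : D} (h : d ∈ P) :
    omT y j P (Sum.inr ((y, j), d)) = Sum.inl d := by
  simp [omT, h]

theorem omT_inr_not {y : D} {j : ℕ} {P : Finset D} {r : D × ℕ} {d : D}
    (h : r ≠ (y, j) ∨ d ∉ P) : omT y j P (Sum.inr (r, d)) = Sum.inr (r, d) := by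
  have : ¬ (r = (y, j) ∧ d ∈ P) := by tauto
  simp only [omT, Sum.elim_inr, this, if_false]

theorem omT_inv (y : D) (j : ℕ) (P : Finset D) (e : D ⊕ (D × ℕ) × D) :
    omT y j P (omT y j P e) = e := by
  rcases e with d | ⟨r, d⟩
  · by_cases h : d ∈ P
    · rw [omT_inl_mem h, omT_inr_mem h]
    · rw [omT_inl_not h, omT_inl_not h]
  · by_cases h1 : r = (y, j)
    · subst h1
      by_cases h : d ∈ P
      · rw [omT_inr_mem h, omT_inl_mem h]
      · rw [omT_inr_not (Or.inr h), omT_inr_not (Or.inr h)]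
    · rw [omT_inr_not (Or.inl h1), omT_inr_not (Or.inl h1)]

theorem omT_cp {y : D} (hy : InfSw G M y) (j n : ℕ)
    (e : cpX (univ : Set D) (univ : Set D) (omB G M)) :
    omT y j (bk G M n y) e.1 ∈ cpX (univ : Set D) (univ : Set D) (omB G M) := by
  rcases e.2 with ⟨d, -, h⟩ | ⟨y', j', z, -, hz, h⟩
  · rw [h]
    by_cases hd : d ∈ bk G M n y
    · rw [omT_inl_mem hd]
      exact Or.inr ⟨y, j, d, trivial, ⟨hy, n, _, bk_spec (hy n), hd⟩, rfl⟩
    · rw [omT_inl_not hd]
      exact Or.inl ⟨d, trivial, rfl⟩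
  · rw [h]
    by_cases h1 : ((y', j') : D × ℕ) = (y, j)
    · rw [h1]
      by_cases hd : z ∈ bk G M n y
      · rw [omT_inr_mem hd]
        exact Or.inl ⟨z, trivial, rfl⟩
      · rw [omT_inr_not (Or.inr hd)]
        rw [Prod.mk.injEq] at h1
        rw [h1.1] at hz
        exact Or.inr ⟨y, j, z, trivial, hz, rfl⟩
    · rw [omT_inr_not (Or.inl h1)]
      exact Or.inr ⟨y', j', z, trivial, hz, rfl⟩

/-- The exchange as a permutation. -/
noncomputable def omP {y : D} (hy : InfSw G M y) (j n : ℕ) :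
    Equiv.Perm (cpX (univ : Set D) (univ : Set D) (omB G M)) where
  toFun e := ⟨omT y j (bk G M n y) e.1, omT_cp hy j n e⟩
  invFun e := ⟨omT y j (bk G M n y) e.1, omT_cp hy j n e⟩
  left_inv e := Subtype.ext (omT_inv y j _ e.1)
  right_inv e := Subtype.ext (omT_inv y j _ e.1)

theorem omP_fa (hC : Comm K) (hM : K.mem M) (hG : Lv G) (d0 : D) {y : D} (hy : InfSw G M y)
    (j n : ℕ) : FA (G n) (omM G M d0) (omP hy j n) := by
  classical
  constructor
  · intro s hs w
    set P := bk G M n y with hPdef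
    have hP : IsBlk (G n) M y P := bk_spec (hy n)
    let U : D × ℕ → Ultrafilter (D → D) := fun r => omU G M r.1
    let B : D × ℕ → Set D := fun r => omB G M r.1
    have hB : ∀ r, Disj (U r) (B r) := fun r => omU_disj hG r.1
    let w' : Fin (ar s) → D ⊕ (D × ℕ) × D := Subtype.val ∘ w
    let w2 : Fin (ar s) → D ⊕ (D × ℕ) × D := Subtype.val ∘ (omP hy j n ∘ w)
    have hw2 : ∀ c, w2 c = omT y j P (w' c) := fun _ => rfl
    have hlive : LiveT B w' := cp_liveT w
    have hlive2 : LiveT B w2 := cp_liveT (omP hy j n ∘ w)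
    let r0 : D × ℕ := (y, j)
    obtain ⟨l, hnd, hlm⟩ : ∃ l : List (D × ℕ), l.Nodup ∧ ∀ r, r ∈ l ↔ r ∈ rowsOf w' ∧ r ≠ r0 := by
      have hf : {r | r ∈ rowsOf w' ∧ r ≠ r0}.Finite := (finite_rowsOf w').subset fun x hx => hx.1
      exact ⟨hf.toFinset.toList, Finset.nodup_toList _, fun r => by simp⟩
    have hr0l : r0 ∉ l := fun h => ((hlm r0).mp h).2 rfl
    have hnd' : (r0 :: l).Nodup := List.nodup_cons.mpr ⟨hr0l, hnd⟩
    have hr1 : rowsOf w' ⊆ {x | x ∈ r0 :: l} := by
      intro x hx
      by_cases h : x = r0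
      · simp [h]
      · have := (hlm x).mpr ⟨hx, h⟩
        simp [this]
    have hr2 : rowsOf w2 ⊆ {x | x ∈ r0 :: l} := by
      rintro x ⟨c, q, hc⟩
      rw [hw2 c] at hc
      by_cases hx0 : x = r0
      · simp [hx0]
      · rcases hwc : w' c with d | ⟨r1, q1⟩
        · rw [hwc] at hc
          by_cases hd : d ∈ P
          · rw [omT_inl_mem hd] at hc
            simp only [Sum.inr.injEq, Prod.mk.injEq] at hc
            exact absurd hc.1.symm hx0
          · rw [omT_inl_not hd] at hc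
            simp at hc
        · rw [hwc] at hc
          by_cases hd : r1 = r0 ∧ q1 ∈ P
          · rw [hd.1, omT_inr_mem hd.2] at hc
            simp at hc
          · rw [omT_inr_not (by
              by_cases h : r1 = r0
              · exact Or.inr fun h' => hd ⟨h, h'⟩
              · exact Or.inl h)] at hc
            simp only [Sum.inr.injEq, Prod.mk.injEq] at hc
            rw [← hc.1]
            exact hr1 ⟨c, q1, hwc⟩
    show GC U (fun _ _ => d0) M s w2 ↔ GC U (fun _ _ => d0) M s w'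
    rw [GC_eval (B := B) hC hM hB hlive2 hnd' hr2 (fun _ _ => d0),
      GC_eval (B := B) hC hM hB hlive hnd' hr1 (fun _ _ => d0), NU_cons, NU_cons]
    -- the eventual properties of the exchanges
    have hm : ∃ m, n ≤ m ∧ ∀ c z, w' c = Sum.inr (r0, z) → ∀ k, m ≤ k → z ∈ bk G M k y := by
      have h1 : ∀ c, ∃ m, ∀ z, w' c = Sum.inr (r0, z) → ∀ k, m ≤ k → z ∈ bk G M k y := by
        intro c
        rcases hwc : w' c with d | ⟨r1, z⟩
        · exact ⟨0, fun z hz => by simp at hz⟩
        · by_cases h : r1 = r0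
          · subst h
            have hz : z ∈ Cp G M y := (hlive c r0 z hwc).2
            obtain ⟨m, hm⟩ := bk_mem hG hy hz
            refine ⟨m, fun z' hz' => ?_⟩
            simp only [Sum.inr.injEq, Prod.mk.injEq, true_and] at hz'
            rw [← hz']
            exact hm
          · refine ⟨0, fun z' hz' => ?_⟩
            simp only [Sum.inr.injEq, Prod.mk.injEq] at hz'
            exact absurd hz'.1 h
      choose m hm using h1
      refine ⟨max n (Finset.univ.sup m), le_max_left _ _, fun c z hc k hk => hm c z hc k ?_⟩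
      exact (Finset.le_sup (Finset.mem_univ c)).trans ((le_max_right _ _).trans hk)
    obtain ⟨m, hnm, hm⟩ := hm
    have hFfin : {d | ∃ c, w' c = Sum.inl d}.Finite := by
      have : {d | ∃ c, w' c = Sum.inl d} ⊆ ⋃ c, {d | w' c = Sum.inl d} := by
        rintro d ⟨c, hc⟩
        exact Set.mem_iUnion.mpr ⟨c, hc⟩
      refine (Set.finite_iUnion fun c => Set.Subsingleton.finite ?_).subset this
      intro d hd d' hd'
      simp only [Set.mem_ofPred_eq] at hd hd'
      rw [hd] at hd'
      simpa using hd'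
    show (∀ᶠ q in (omI D : Filter _), ∀ᶠ g' in nf U l (upd (fun _ _ => d0) r0 (omS G M y q)),
        M s (ev g' ∘ w2)) ↔
      ∀ᶠ q in (omI D : Filter _), ∀ᶠ g' in nf U l (upd (fun _ _ => d0) r0 (omS G M y q)),
        M s (ev g' ∘ w')
    refine Filter.eventually_congr ((omI_ge (m, hFfin.toFinset ∪ P)).mono fun q hq => ?_)
    obtain ⟨s1, s2, s3⟩ := omS_spec hy q
    set σ := omS G M y q with hσ
    have hmq : m ≤ q.1 := hq.1
    have hnq : n ≤ q.1 := hnm.trans hmq
    have hFq : ∀ c d, w' c = Sum.inl d → d ∈ q.2 := fun c d hc =>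
      hq.2 (Finset.mem_union_left _ (by rw [Set.Finite.mem_toFinset]; exact ⟨c, hc⟩))
    have hPq : ∀ d ∈ P, d ∈ q.2 := fun d hd => hq.2 (Finset.mem_union_right _ hd)
    have hQ : IsBlk (G q.1) M y (bk G M q.1 y) := bk_spec (hy q.1)
    have hPQ : P ⊆ bk G M q.1 y := hQ.mono hP (hG.mono _ _ hnq)
    let τ : D → D := restr σ (P : Set D)
    have hτ : Auto (G n) M τ :=
      auto_restr (Finset.finite_toSet _) (by exact_mod_cast hPQ) hP.2.1
        (hQ.2.1.mono (hG.mono _ _ hnq)) (s1.mono (hG.mono _ _ hnq)) s2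
    have hτfix : ∀ d, d ∉ P → (∀ p ∈ P, σ p ≠ d) → τ d = d := by
      intro d h1 h2
      refine restr_of_not h1 fun h3 => h2 _ h3 ?_
      exact s2.inv d
    have hfin : ((P : Set D) ∪ σ '' (P : Set D)).Finite :=
      P.finite_toSet.union (P.finite_toSet.image _)
    have hev : ∀ᶠ g' in nf U l (upd (fun _ _ => d0) r0 σ), ∀ c,
        ev g' (w2 c) = τ (ev g' (w' c)) := by
      refine Filter.eventually_all.mpr fun c => ?_
      rw [hw2 c]
      rcases hwc : w' c with d | ⟨r1, z⟩
      · refine (NU_off (U := U) hr0l (upd (fun _ _ => d0) r0 σ)).mono fun g' hg' => ?_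
        rw [upd_same] at hg'
        by_cases hd : d ∈ P
        · rw [omT_inl_mem hd, ev_inr, ev_inl, hg']
          exact (restr_of_mem hd).symm
        · rw [omT_inl_not hd, ev_inl]
          refine (hτfix d hd fun p hp h => ?_).symm
          exact s3 p (hPQ hp) (by rw [h]; exact hFq c d hwc)
      · by_cases h : r1 = r0
        · subst h
          refine (NU_off (U := U) hr0l (upd (fun _ _ => d0) r0 σ)).mono fun g' hg' => ?_
          rw [upd_same] at hg'
          by_cases hd : z ∈ P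
          · rw [omT_inr_mem hd, ev_inr, ev_inl, hg']
            show z = restr σ (P : Set D) (σ z)
            rw [restr_of_mem' (by rw [s2.inv]; exact hd), s2.inv]
          · rw [omT_inr_not (Or.inr hd), ev_inr, hg']
            refine (hτfix (σ z) (fun h1 => ?_) fun p hp h1 => ?_).symm
            · exact s3 z (hm c z hwc q.1 hmq) (hPq _ h1)
            · exact hd (s2.injective h1 ▸ hp)
        · rw [omT_inr_not (Or.inl h)]
          show ∀ᶠ g' in nf U l (upd (fun _ _ => d0) r0 σ), g' r1 z = τ (g' r1 z)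
          have hr1l : r1 ∈ l := (hlm r1).mpr ⟨⟨c, z, hwc⟩, h⟩
          have hz : z ∈ B r1 := hlive c r1 z hwc
          have h1 : ∀ᶠ g' in nf U l (upd (fun _ _ => d0) r0 σ), ∀ d ∈ hfin.toFinset,
              g' r1 z ≠ d := by
            rw [Filter.eventually_all_finset]
            intro d _
            exact NU_avoid (B := B) (fun r _ => hB r) hr1l hz d _
          refine h1.mono fun g' hg' => ?_
          refine (hτfix _ (fun h2 => ?_) fun p hp h2 => ?_).symm
          · exact hg' _ (by rw [Set.Finite.mem_toFinset]; exact Or.inl h2) rfl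
          · exact hg' _ (by rw [Set.Finite.mem_toFinset]; exact Or.inr ⟨p, hp, h2⟩) rfl
    refine Filter.eventually_congr (hev.mono fun g' hg' => ?_)
    have : ev g' ∘ w2 = τ ∘ (ev g' ∘ w') := funext hg'
    rw [this]
    exact hτ s hs _
  · -- finite support
    have h1 : ((Sum.inl '' (bk G M n y : Set D)) ∪
        ((fun z => (Sum.inr ((y, j), z) : D ⊕ (D × ℕ) × D)) '' (bk G M n y : Set D))).Finite :=
      ((Finset.finite_toSet _).image _).union ((Finset.finite_toSet _).image _)
    refine (h1.preimage (f := (Subtype.val : cpX (univ : Set D) (univ : Set D) (omB G M) → _))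
      Subtype.val_injective.injOn).subset ?_
    intro e he
    by_contra hcon
    apply he
    apply Subtype.ext
    show omT y j (bk G M n y) e.1 = e.1
    rcases hev : e.1 with d | ⟨r, z⟩
    · refine omT_inl_not fun h => hcon ?_
      rw [Set.mem_preimage, hev]
      exact Or.inl ⟨d, h, rfl⟩
    · by_cases h : r = (y, j)
      · refine omT_inr_not (Or.inr fun h' => hcon ?_)
        rw [Set.mem_preimage, hev, h]
        exact Or.inr ⟨z, h', rfl⟩
      · exact omT_inr_not (Or.inl h)

end Om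

end Pool.Agent.Helper6.VU
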