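import Pool.Agent.Helper6.V14Om

/-!
# Infinitely many types of flexible components give perfectly many structures
-/

set_option autoImplicit false

namespace Pool.Agent.Helper6.VU

open Set Filter

variable {Y : Type} {ar : Y → ℕ} {D : Type}

section Om

variable {K : HC ar} {M : St ar D} {G : ℕ → Set Y}

/-- The extension of a permutation of the old elements. -/
noncomputable def omE (G : ℕ → Set Y) (M : St ar D) (σ : Equiv.Perm D) :
    Equiv.Perm (cpX (univ : Set D) (univ : Set D) (omB G M)) where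
  toFun e := ⟨Sum.map σ id e.1, by
    rcases e.2 with ⟨d, -, h⟩ | ⟨y, j, z, -, hz, h⟩
    · rw [h]; exact Or.inl ⟨σ d, trivial, rfl⟩
    · rw [h]; exact Or.inr ⟨y, j, z, trivial, hz, rfl⟩⟩
  invFun e := ⟨Sum.map σ.symm id e.1, by
    rcases e.2 with ⟨d, -, h⟩ | ⟨y, j, z, -, hz, h⟩
    · rw [h]; exact Or.inl ⟨σ.symm d, trivial, rfl⟩
    · rw [h]; exact Or.inr ⟨y, j, z, trivial, hz, rfl⟩⟩
  left_inv e := by
    apply Subtype.ext
    show Sum.map σ.symm id (Sum.map σ id e.1) = e.1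
    rcases e.1 with d | p <;> simp
  right_inv e := by
    apply Subtype.ext
    show Sum.map σ id (Sum.map σ.symm id e.1) = e.1
    rcases e.1 with d | p <;> simp

theorem omE_auto (hC : Comm K) (hM : K.mem M) (hG : Lv G) (d0 : D) {n : ℕ} {σ : Equiv.Perm D}
    (hσ : FA (G n) M σ) : Auto (G n) (omM G M d0) (omE G M σ) := by
  intro s hs w
  exact GC_finauto (K := K) (U := fun r : D × ℕ => omU G M r.1)
    (B := fun r : D × ℕ => omB G M r.1) hC hM (fun r => omU_disj hG r.1)
    (g₀ := fun _ _ => d0) (w := Subtype.val ∘ w) (cp_liveT w) hσ.2 (fun v => hσ.1 s hs v)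

theorem omE_omi (σ : Equiv.Perm D) (d : D) : omE G M σ (omi G M d) = omi G M (σ d) := rfl

theorem omE_omr (σ : Equiv.Perm D) {y z : D} (hy : InfSw G M y) (j : ℕ) (hz : z ∈ Cp G M y) :
    omE G M σ (omr hy j hz) = omr hy j hz := rfl

theorem omP_omi_mem {y : D} (hy : InfSw G M y) (j n : ℕ) {z : D} (hz : z ∈ bk G M n y) :
    omP hy j n (omi G M z) = omr hy j ⟨n, _, bk_spec (hy n), hz⟩ := by
  apply Subtype.ext
  exact omT_inl_mem hz

theorem omP_omi_not {y : D} (hy : InfSw G M y) (j n : ℕ) {z : D} (hz : z ∉ bk G M n y) :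
    omP hy j n (omi G M z) = omi G M z := by
  apply Subtype.ext
  exact omT_inl_not hz

theorem omP_omr_mem {y : D} (hy : InfSw G M y) (j n : ℕ) {z : D} (hz : z ∈ bk G M n y)
    (hz' : z ∈ Cp G M y) : omP hy j n (omr hy j hz') = omi G M z := by
  apply Subtype.ext
  exact omT_inr_mem hz

/-- The old structure absorbs. -/
theorem om_abs (hC : Comm K) (hM : K.mem M) (hG : Lv G) (d0 : D) (n : ℕ) :
    AbsE (G n) (omM G M d0) (omi G M) := by
  classical
  refine AbsE.of_step fun F hF W hW w0 hw0 hw0r => ?_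
  rcases om_cases w0 with ⟨d, rfl⟩ | ⟨y, z, j, hy, hz, rfl⟩
  · exact absurd ⟨d, rfl⟩ hw0r
  obtain ⟨m0, hm0⟩ := bk_mem hG hy hz
  set m := max n m0 with hm
  have hnm : G n ⊆ G m := hG.mono _ _ (le_max_left _ _)
  have hzP : z ∈ bk G M m y := hm0 m (le_max_right _ _)
  have hP := bk_spec (hy m)
  have hWf : (F ∪ {d | omi G M d ∈ W}).Finite :=
    hF.union (hW.preimage omi_injective.injOn)
  obtain ⟨σ, s1, s2, s3, s4, s5⟩ := exists_far hP hWf
  have a1 : Auto (G n) (omM G M d0) (omE G M σ) := (omE_auto hC hM hG d0 s1).mono hnm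
  have a2 : Auto (G n) (omM G M d0) (omP hy j m) := (omP_fa hC hM hG d0 hy j m).1.mono hnm
  let g : Equiv.Perm (cpX (univ : Set D) (univ : Set D) (omB G M)) :=
    ((omE G M σ).trans (omP hy j m)).trans (omE G M σ)
  have hg : ∀ e, g e = omE G M σ (omP hy j m (omE G M σ e)) := fun _ => rfl
  have hfix : ∀ f, f ∈ F ∪ {d | omi G M d ∈ W} → g (omi G M f) = omi G M f := by
    intro f hf
    rw [hg, omE_omi]
    by_cases hfP : f ∈ bk G M m y
    · rw [omP_omi_not hy j m (s3 f hfP), omE_omi, s2]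
    · have h1 : σ f ∉ bk G M m y := by
        intro h
        refine s4 _ h ?_
        rw [s2]
        exact hf
      rw [s5 f hfP h1, omP_omi_not hy j m hfP, omE_omi, s5 f hfP h1]
  refine ⟨g, a1.perm_mul (a2.perm_mul a1), fun f hf => hfix f (Or.inl hf), ?_, ?_⟩
  · rintro w hw ⟨d, rfl⟩
    exact ⟨d, (hfix d (Or.inr hw)).symm⟩
  · rw [hg, omE_omr, omP_omr_mem hy j m hzP, omE_omi]
    exact ⟨_, rfl⟩

section facts

variable (hC : Comm K) (hM : K.mem M) (hG : Lv G) (d0 : D)

include hC hM hG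

theorem om_cl {y z : D} : Cl G M y z ↔ Cl G (omM G M d0) (omi G M y) (omi G M z) :=
  forall_congr' fun n => kd_emb omi_injective (omM_omi d0) (om_abs hC hM hG d0 n)

theorem om_infSw {y : D} : InfSw G M y ↔ InfSw G (omM G M d0) (omi G M y) :=
  forall_congr' fun n => sw_emb omi_injective (omM_omi d0) (om_abs hC hM hG d0 n)

theorem om_cl_row {y z : D} (hy : InfSw G M y) (j : ℕ) (hz : z ∈ Cp G M y) :
    Cl G (omM G M d0) (omi G M z) (omr hy j hz) := by
  intro n
  obtain ⟨m0, hm0⟩ := bk_mem hG hy hz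
  have hzs : InfSw G M z := hy.of_Cp hG hz
  have h1 := (om_infSw hC hM hG d0).mp hzs
  have h2 := omP_fa hC hM hG d0 hy j (max n m0)
  have h3 : Kd (G (max n m0)) (omM G M d0) (omi G M z) (omr hy j hz) :=
    ⟨h1 _, _, h2, omP_omi_mem hy j _ (hm0 _ (le_max_right _ _))⟩
  exact h3.mono (hG.mono _ _ (le_max_left _ _))

theorem om_row_blk {y z : D} (hy : InfSw G M y) (j : ℕ) (hz : z ∈ Cp G M y) {m : ℕ}
    (hzm : z ∈ bk G M m y) : ∃ Q, IsBlk (G m) (omM G M d0) (omr hy j hz) Q ∧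
      (∀ e ∈ Q, ∃ z' hz', e = omr (z := z') hy j hz') ∧
      ∀ z' (hz' : z' ∈ Cp G M y), z' ∈ bk G M m y → omr hy j hz' ∈ Q := by
  have h1 := (bk_spec (hy m)).of_mem hzm
  have h2 := (isBlk_emb omi_injective (omM_omi d0) (om_abs hC hM hG d0 m)).mp h1
  have h3 := h2.map_auto (omP_fa hC hM hG d0 hy j m).1
  have h4 : omP hy j m (omi G M z) = omr hy j hz := omP_omi_mem hy j m hzm
  rw [h4] at h3
  refine ⟨_, h3, ?_, ?_⟩
  · intro e he
    rw [Finset.mem_map] at he
    obtain ⟨e', he', rfl⟩ := he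
    rw [Finset.mem_map] at he'
    obtain ⟨z', hz', rfl⟩ := he'
    exact ⟨z', _, omP_omi_mem hy j m hz'⟩
  · intro z' hz' hz'm
    rw [Finset.mem_map]
    refine ⟨omi G M z', ?_, omP_omi_mem hy j m hz'm⟩
    rw [Finset.mem_map]
    exact ⟨z', hz'm, rfl⟩

theorem om_cp_row {y z : D} (hy : InfSw G M y) (j : ℕ) (hz : z ∈ Cp G M y)
    {e : cpX (univ : Set D) (univ : Set D) (omB G M)}
    (he : e ∈ Cp G (omM G M d0) (omr hy j hz)) : ∃ z' hz', e = omr (z := z') hy j hz' := by
  obtain ⟨m0, hm0⟩ := bk_mem hG hy hz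
  have hs : InfSw G (omM G M d0) (omr hy j hz) := (om_cl_row hC hM hG d0 hy j hz).right
  obtain ⟨k, hk, Q, hQ, heQ⟩ := Cp_level hG hs he m0
  obtain ⟨Q', hQ', h1, -⟩ := om_row_blk hC hM hG d0 hy j hz (hm0 k hk)
  rw [hQ.unique hQ'] at heQ
  exact h1 e heQ

theorem om_row_cp {y z z' : D} (hy : InfSw G M y) (j : ℕ) (hz : z ∈ Cp G M y)
    (hz' : z' ∈ Cp G M y) : omr hy j hz' ∈ Cp G (omM G M d0) (omr hy j hz) := by
  obtain ⟨m0, hm0⟩ := bk_mem hG hy hz
  obtain ⟨m1, hm1⟩ := bk_mem hG hy hz'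
  obtain ⟨Q, hQ, -, h2⟩ := om_row_blk hC hM hG d0 hy j hz (hm0 (max m0 m1) (le_max_left _ _))
  exact ⟨_, Q, hQ, h2 z' hz' (hm1 _ (le_max_right _ _))⟩

theorem om_cp_omi {d : D} {e : cpX (univ : Set D) (univ : Set D) (omB G M)}
    (he : e ∈ Cp G (omM G M d0) (omi G M d)) : ∃ d' ∈ Cp G M d, e = omi G M d' := by
  obtain ⟨n, Q, hQ, heQ⟩ := he
  obtain ⟨P, hP, hPQ⟩ := isBlk_emb' omi_injective (omM_omi d0) (om_abs hC hM hG d0 n) hQ
  rw [hPQ, Finset.mem_map] at heQ
  obtain ⟨d', hd', rfl⟩ := heQ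
  exact ⟨d', ⟨n, P, hP, hd'⟩, rfl⟩

end facts

/-- The base point. -/
def bs (e : cpX (univ : Set D) (univ : Set D) (omB G M)) : D :=
  Sum.elim id (fun p => p.2) e.1

/-- The retained elements. -/
def omX (G : ℕ → Set Y) (M : St ar D) (y : ℕ → D) (S : Set ℕ) :
    Set (cpX (univ : Set D) (univ : Set D) (omB G M)) :=
  {e | (∀ d, e.1 = Sum.inl d → ∀ i ∈ S, ¬ CT G M d (y i)) ∧
    ∀ y' j z, e.1 = Sum.inr ((y', j), z) → ∀ i ∈ S, CT G M y' (y i) → y' = y i ∧ j ≤ i}

theorem mem_omX_omi {y : ℕ → D} {S : Set ℕ} {d : D} :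
    omi G M d ∈ omX G M y S ↔ ∀ i ∈ S, ¬ CT G M d (y i) := by
  constructor
  · exact fun h => h.1 d rfl
  · intro h
    refine ⟨fun d' hd' => ?_, fun y' j z hz => ?_⟩
    · have : d = d' := Sum.inl_injective hd'
      rw [← this]; exact h
    · simp [omi] at hz

theorem mem_omX_omr {y : ℕ → D} {S : Set ℕ} {y' z : D} (hy' : InfSw G M y') {j : ℕ}
    (hz : z ∈ Cp G M y') :
    omr hy' j hz ∈ omX G M y S ↔ ∀ i ∈ S, CT G M y' (y i) → y' = y i ∧ j ≤ i := by
  constructor
  · exact fun h => h.2 y' j z rfl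
  · intro h
    refine ⟨fun d' hd' => ?_, fun y'' j' z' hz' => ?_⟩
    · simp [omr] at hd'
    · have h1 := Sum.inr_injective hz'
      rw [Prod.mk.injEq, Prod.mk.injEq] at h1
      rw [← h1.1.1, ← h1.1.2]
      exact h

theorem not_mem_omX (hG : Lv G) {y : ℕ → D} {S : Set ℕ}
    {e : cpX (univ : Set D) (univ : Set D) (omB G M)} (he : e ∉ omX G M y S) :
    ∃ i ∈ S, CT G M (bs e) (y i) := by
  rcases om_cases e with ⟨d, rfl⟩ | ⟨y', z, j, hy, hz, rfl⟩
  · rw [mem_omX_omi] at he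
    push Not at he
    exact he
  · rw [mem_omX_omr] at he
    push Not at he
    obtain ⟨i, hi, hct, -⟩ := he
    exact ⟨i, hi, (CT.congr hG hy hz).mp hct⟩

section NS

variable (hC : Comm K) (hM : K.mem M) (hG : Lv G) (d0 : D)

include hC hM hG

theorem cl_bs {e : cpX (univ : Set D) (univ : Set D) (omB G M)}
    (he : InfSw G (omM G M d0) e) : Cl G (omM G M d0) e (omi G M (bs e)) := by
  rcases om_cases e with ⟨d, rfl⟩ | ⟨y', z, j, hy, hz, rfl⟩
  · exact Cl.refl he
  · exact (om_cl_row hC hM hG d0 hy j hz).symm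

theorem infSw_of_bs {e : cpX (univ : Set D) (univ : Set D) (omB G M)}
    (he : InfSw G M (bs e)) : InfSw G (omM G M d0) e := by
  rcases om_cases e with ⟨d, rfl⟩ | ⟨y', z, j, hy, hz, rfl⟩
  · exact (om_infSw hC hM hG d0).mp he
  · exact (om_cl_row hC hM hG d0 hy j hz).right

/-- Removed elements: the whole component is removed. -/
theorem cp_removed {y : ℕ → D} {S : Set ℕ}
    {e e' : cpX (univ : Set D) (univ : Set D) (omB G M)} (he : e ∉ omX G M y S)
    (he' : e' ∈ Cp G (omM G M d0) e) : e' ∉ omX G M y S := by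
  rcases om_cases e with ⟨d, rfl⟩ | ⟨y', z, j, hy, hz, rfl⟩
  · obtain ⟨d', hd', rfl⟩ := om_cp_omi hC hM hG d0 he'
    rw [mem_omX_omi] at he ⊢
    push Not at he ⊢
    obtain ⟨i, hi, hct⟩ := he
    exact ⟨i, hi, (CT.congr hG (hct.infSw hG) hd').mp hct⟩
  · obtain ⟨z', hz', rfl⟩ := om_cp_row hC hM hG d0 hy j hz he'
    rw [mem_omX_omr] at he ⊢
    exact he

/-- The retained part absorbs. -/
theorem omX_abs {y : ℕ → D} (hy : ∀ i, InfSw G M (y i))
    (hflex : ∀ i, ∀ x ∈ Cp G M (y i), Flex G M x) (hct : ∀ i j, i ≠ j → ¬ CT G M (y i) (y j))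
    (S : Set ℕ) (n : ℕ) :
    AbsE (G n) (omM G M d0) (Subtype.val : omX G M y S → _) := by
  classical
  have hrange : ∀ e, e ∈ range (Subtype.val : omX G M y S → _) ↔ e ∈ omX G M y S := by
    intro e
    rw [Subtype.range_val]
  refine AbsE.of_step fun F hF W hW w0 hw0 hw0r => ?_
  rw [hrange] at hw0r
  obtain ⟨i, hi, hcti⟩ := not_mem_omX hG hw0r
  have hw0s : InfSw G (omM G M d0) w0 := infSw_of_bs hC hM hG d0 (hcti.infSw hG)
  obtain ⟨x, hx, hxz⟩ := hcti.symm hG (hcti.infSw hG)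
  -- kept elements of the same kind
  have hw0x : Cl G (omM G M d0) w0 (omi G M x) :=
    (cl_bs hC hM hG d0 hw0s).trans ((om_cl hC hM hG d0).mp hxz.symm)
  have hkeep : ∀ i', omr (hy i') 0 (mem_Cp_self (hy i')) ∈ omX G M y S := by
    intro i'
    rw [mem_omX_omr]
    intro k _ hk
    by_cases h : i' = k
    · rw [h]; exact ⟨rfl, Nat.zero_le _⟩
    · exact absurd hk (hct i' k h)
  have hkeep' : ∀ i' z (hz : z ∈ Cp G M (y i')), omr (hy i') 0 hz ∈ omX G M y S := by
    intro i' z hz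
    have := hkeep i'
    rw [mem_omX_omr] at this ⊢
    exact this
  have key : ∀ F' : Set (cpX (univ : Set D) (univ : Set D) (omB G M)), F'.Finite →
      ∃ x' ∈ omX G M y S, x' ∉ F' ∧ Kd (G n) (omM G M d0) w0 x' := by
    intro F' hF'
    rcases flex_cases hG (hflex i x hx) with hα | hβ
    · -- limit of elements which are not clones
      have hm : ∃ m, n ≤ m ∧ ∀ f ∈ F', Kd (G m) (omM G M d0) (omi G M x) f →
          Cl G (omM G M d0) (omi G M x) f := by
        have h1 : ∀ f : cpX (univ : Set D) (univ : Set D) (omB G M), ∃ m,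
            Kd (G m) (omM G M d0) (omi G M x) f → Cl G (omM G M d0) (omi G M x) f := by
          intro f
          by_cases h : Cl G (omM G M d0) (omi G M x) f
          · exact ⟨0, fun _ => h⟩
          · unfold Cl at h
            push Not at h
            obtain ⟨m, hm⟩ := h
            exact ⟨m, fun h => absurd h hm⟩
        choose mf hmf using h1
        refine ⟨max n (hF'.toFinset.sup mf), le_max_left _ _, fun f hf hk => hmf f ?_⟩
        refine hk.mono (hG.mono _ _ ((Finset.le_sup ?_).trans (le_max_right _ _)))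
        rw [Set.Finite.mem_toFinset]
        exact hf
      obtain ⟨m, hnm, hm⟩ := hm
      obtain ⟨y', hy1, hy2⟩ := hα m
      have hkdm : Kd (G m) (omM G M d0) (omi G M x) (omi G M y') :=
        (kd_emb omi_injective (omM_omi d0) (om_abs hC hM hG d0 m)).mp hy1
      have hncl : ¬ Cl G (omM G M d0) (omi G M x) (omi G M y') := fun h =>
        hy2 ((om_cl hC hM hG d0).mpr h)
      by_cases hrem : omi G M y' ∈ omX G M y S
      · refine ⟨_, hrem, fun hF => hncl (hm _ hF hkdm), ?_⟩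
        exact (hw0x n).trans (hkdm.mono (hG.mono _ _ hnm))
      · rw [mem_omX_omi] at hrem
        push Not at hrem
        obtain ⟨i', hi', hct'⟩ := hrem
        obtain ⟨z', hz', hzy⟩ := hct'.symm hG (hct'.infSw hG)
        have h1 : Cl G (omM G M d0) (omi G M y') (omr (hy i') 0 hz') :=
          ((om_cl hC hM hG d0).mp hzy.symm).trans (om_cl_row hC hM hG d0 (hy i') 0 hz')
        have h2 : Kd (G m) (omM G M d0) (omi G M x) (omr (hy i') 0 hz') := hkdm.trans (h1 m)
        refine ⟨_, hkeep' i' z' hz', fun hF => hncl ?_, ?_⟩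
        · exact (hm _ hF h2).trans h1.symm
        · exact (hw0x n).trans (h2.mono (hG.mono _ _ hnm))
    · -- many elements in the component
      have hfinz : {z | ∃ hz : z ∈ Cp G M (y i), omr (hy i) 0 hz ∈ F'}.Finite := by
        refine (hF'.image bs).subset ?_
        rintro z ⟨hz, hzF⟩
        exact ⟨_, hzF, rfl⟩
      have hxs : InfSw G M x := (hy i).of_Cp hG hx
      have hm : ∃ m, n ≤ m ∧ ∀ z, (∃ hz : z ∈ Cp G M (y i), omr (hy i) 0 hz ∈ F') →
          z ∈ bk G M m x := by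
        have h1 : ∀ z : D, ∃ m, z ∈ Cp G M x → ∀ k, m ≤ k → z ∈ bk G M k x := by
          intro z
          by_cases h : z ∈ Cp G M x
          · obtain ⟨m, hm⟩ := bk_mem hG hxs h
            exact ⟨m, fun _ => hm⟩
          · exact ⟨0, fun h' => absurd h' h⟩
        choose mf hmf using h1
        refine ⟨max n (hfinz.toFinset.sup mf), le_max_left _ _, fun z hz => hmf z ?_ _ ?_⟩
        · rw [Cp_eq hG (hy i) hx]
          exact hz.1
        · refine (Finset.le_sup ?_).trans (le_max_right _ _)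
          rw [Set.Finite.mem_toFinset]
          exact hz
      obtain ⟨m, hnm, hm⟩ := hm
      obtain ⟨x'', hx1, hx2, hx3⟩ := hβ m
      have hx4 : x'' ∈ Cp G M (y i) := by
        rw [← Cp_eq hG (hy i) hx]; exact hx1
      refine ⟨omr (hy i) 0 hx4, hkeep' i x'' hx4, fun hF => ?_, ?_⟩
      · exact hx2 _ (bk_spec (hxs m)) (hm x'' ⟨hx4, hF⟩)
      · have h1 : Kd (G m) (omM G M d0) (omi G M x) (omi G M x'') :=
          (kd_emb omi_injective (omM_omi d0) (om_abs hC hM hG d0 m)).mp hx3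
        exact (hw0x n).trans ((h1.mono (hG.mono _ _ hnm)).trans
          (om_cl_row hC hM hG d0 (hy i) 0 hx4 n))
  -- the set to be fixed
  let F2 : Set (cpX (univ : Set D) (univ : Set D) (omB G M)) :=
    Subtype.val '' F ∪ (W ∩ omX G M y S)
  have hF2 : F2.Finite := (hF.image _).union (hW.subset Set.inter_subset_left)
  have hF2X : ∀ f ∈ F2, f ∈ omX G M y S := by
    rintro f (⟨f', -, rfl⟩ | h)
    · exact f'.2
    · exact h.2
  let bl : cpX (univ : Set D) (univ : Set D) (omB G M) →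
      Set (cpX (univ : Set D) (univ : Set D) (omB G M)) :=
    fun e => {x | ∃ P, IsBlk (G n) (omM G M d0) e P ∧ x ∈ P}
  have hbl : ∀ e, (bl e).Finite := by
    intro e
    by_cases h : ∃ P, IsBlk (G n) (omM G M d0) e P
    · obtain ⟨P, hP⟩ := h
      refine P.finite_toSet.subset ?_
      rintro x ⟨P', hP', hx⟩
      rw [hP.unique hP']
      exact hx
    · refine Set.Finite.subset Set.finite_empty ?_
      rintro x ⟨P', hP', -⟩
      exact h ⟨P', hP'⟩
  obtain ⟨x', hx'X, hx'F, hx'k⟩ := key (⋃ f ∈ F2, bl f) (hF2.biUnion fun f _ => hbl f)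
  obtain ⟨P, hP⟩ := hw0s n
  obtain ⟨Q, hQ⟩ := hx'k.right
  obtain ⟨g, g1, g2, g3, -⟩ := hx'k.move hP hQ hF2 (by
      intro a ha haF
      exact cp_removed hC hM hG d0 hw0r ⟨n, P, hP, ha⟩ (hF2X a haF)) (by
      intro a ha haF
      exact hx'F (Set.mem_iUnion₂.mpr ⟨a, haF, Q, hQ.of_mem ha, hQ.1⟩))
  refine ⟨g, g1.1, fun f hf => g3 _ (Or.inl ⟨f, hf, rfl⟩), fun w hw hwr => ?_, ?_⟩
  · rw [hrange] at hwr ⊢
    rw [g3 w (Or.inr ⟨hw, hwr⟩)]
    exact hwr
  · rw [hrange, g2]
    exact hx'X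

end NS

/-- Exactly `t + 1` components contain clones of some element. -/
def PhiC {E : Type} (G : ℕ → Set Y) (N : St ar E) (t : ℕ) : Prop :=
  ∃ x : Fin (t + 1) → E, (∀ i, Cl G N (x 0) (x i)) ∧ (∀ i j, i ≠ j → x j ∉ Cp G N (x i)) ∧
    ∀ z, Cl G N (x 0) z → ∃ i, z ∈ Cp G N (x i)

theorem decode_NS (hC : Comm K) (hM : K.mem M) (hG : Lv G) (d0 : D) {y : ℕ → D}
    (hy : ∀ i, InfSw G M (y i)) (hflex : ∀ i, ∀ x ∈ Cp G M (y i), Flex G M x)
    (hct : ∀ i j, i ≠ j → ¬ CT G M (y i) (y j)) (S : Set ℕ) (t : ℕ) :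
    PhiC G (pull (Subtype.val : omX G M y S → _) (omM G M d0)) t ↔ t ∈ S := by
  classical
  set N := pull (Subtype.val : omX G M y S → _) (omM G M d0) with hNdef
  have hN : ∀ s w, N s w ↔ omM G M d0 s ((Subtype.val : omX G M y S → _) ∘ w) :=
    fun _ _ => Iff.rfl
  have habs := fun n => omX_abs hC hM hG d0 hy hflex hct S n
  have hι : Function.Injective (Subtype.val : omX G M y S → _) := Subtype.val_injective
  have hcl : ∀ e e' : omX G M y S, Cl G N e e' ↔ Cl G (omM G M d0) e.1 e'.1 := fun e e' =>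
    forall_congr' fun n => kd_emb hι hN (habs n)
  have hcp : ∀ e e' : omX G M y S, e' ∈ Cp G N e ↔ e'.1 ∈ Cp G (omM G M d0) e.1 := by
    intro e e'
    constructor
    · rintro ⟨n, P, hP, heP⟩
      exact ⟨n, _, (isBlk_emb hι hN (habs n)).mp hP, Finset.mem_map_of_mem _ heP⟩
    · rintro ⟨n, Q, hQ, heQ⟩
      obtain ⟨P, hP, hPQ⟩ := isBlk_emb' hι hN (habs n) hQ
      rw [hPQ, Finset.mem_map] at heQ
      obtain ⟨x, hx, hxe⟩ := heQ
      have : x = e' := Subtype.ext hxe
      exact ⟨n, P, hP, this ▸ hx⟩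
  -- base points of clones are clones
  have hbs : ∀ {e e' : cpX (univ : Set D) (univ : Set D) (omB G M)},
      Cl G (omM G M d0) e e' → Cl G M (bs e) (bs e') := by
    intro e e' h
    rw [om_cl hC hM hG d0]
    exact (cl_bs hC hM hG d0 h.left).symm.trans (h.trans (cl_bs hC hM hG d0 h.right))
  -- kept elements whose base point has a marked type
  have hmark : ∀ e ∈ omX G M y S, ∀ i ∈ S, CT G M (bs e) (y i) →
      ∃ (j : ℕ) (z : D) (hz : z ∈ Cp G M (y i)), j ≤ i ∧ e = omr (hy i) j hz := by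
    intro e he i hi hcte
    rcases om_cases e with ⟨d, rfl⟩ | ⟨y', z, j, hy', hz, rfl⟩
    · exact absurd hcte (mem_omX_omi.mp he i hi)
    · have h1 : CT G M y' (y i) := (CT.congr hG hy' hz).mpr hcte
      obtain ⟨h2, h3⟩ := (mem_omX_omr hy' hz).mp he i hi h1
      subst h2
      exact ⟨j, z, hz, h3, rfl⟩
  have hkeepr : ∀ i ∈ S, ∀ j, j ≤ i → ∀ z (hz : z ∈ Cp G M (y i)),
      omr (hy i) j hz ∈ omX G M y S := by
    intro i _ j hj z hz
    rw [mem_omX_omr]
    intro k _ hk
    by_cases h : i = k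
    · rw [← h]; exact ⟨rfl, hj⟩
    · exact absurd hk (hct i k h)
  constructor
  · rintro ⟨x, hx1, hx2, hx3⟩
    have hx1' : ∀ k, Cl G M (bs (x 0).1) (bs (x k).1) := fun k => hbs ((hcl _ _).mp (hx1 k))
    by_cases hex : ∃ i ∈ S, CT G M (bs (x 0).1) (y i)
    · obtain ⟨i, hi, hcti⟩ := hex
      have hctk : ∀ k, CT G M (bs (x k).1) (y i) := by
        intro k
        have h1 : CT G M (bs (x k).1) (bs (x 0).1) :=
          ⟨bs (x k).1, mem_Cp_self (hx1' k).right, (hx1' k).symm⟩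
        exact h1.trans hG (hx1' k).right hcti
      choose j z hz hj hjx using fun k => hmark (x k).1 (x k).2 i hi (hctk k)
      -- the rows are distinct
      have hinj : Function.Injective fun k => (⟨j k, Nat.lt_succ_of_le (hj k)⟩ : Fin (i + 1)) := by
        intro k k' h
        have h1 : j k = j k' := congrArg Fin.val h
        by_contra hne
        apply hx2 k k' hne
        rw [hcp, hjx k, hjx k', h1]
        exact om_row_cp hC hM hG d0 (hy i) (j k') (hz k) (hz k')
      have hle1 : t + 1 ≤ i + 1 := by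
        have := Fintype.card_le_of_injective _ hinj
        simpa using this
      have hsurj : ∀ j' : Fin (i + 1), ∃ k, j k = j' := by
        intro j'
        have h1 : omr (hy i) (j' : ℕ) (hz 0) ∈ omX G M y S :=
          hkeepr i hi j' (Nat.lt_succ_iff.mp j'.2) (z 0) (hz 0)
        have h2 : Cl G N (x 0) ⟨_, h1⟩ := by
          rw [hcl]
          show Cl G (omM G M d0) (x 0).1 (omr (hy i) (j' : ℕ) (hz 0))
          rw [hjx 0]
          exact (om_cl_row hC hM hG d0 (hy i) (j 0) (hz 0)).symm.trans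
            (om_cl_row hC hM hG d0 (hy i) j' (hz 0))
        obtain ⟨k, hk⟩ := hx3 _ h2
        rw [hcp, hjx k] at hk
        obtain ⟨z', hz', h3⟩ := om_cp_row hC hM hG d0 (hy i) (j k) (hz k) hk
        refine ⟨k, ?_⟩
        have h4 := congrArg Subtype.val h3
        simp only [omr, Sum.inr.injEq, Prod.mk.injEq, true_and] at h4
        exact h4.1.symm
      have hle2 : i + 1 ≤ t + 1 := by
        choose f hf using hsurj
        have hfinj : Function.Injective f := by
          intro a b h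
          apply Fin.ext
          rw [← hf a, ← hf b, h]
        have := Fintype.card_le_of_injective _ hfinj
        simpa using this
      have : t = i := by omega
      rw [this]
      exact hi
    · exfalso
      push Not at hex
      set z0 := bs (x 0).1 with hz0
      have hz0s : InfSw G M z0 := (hx1' 0).left
      have hmem : ∀ j, omr hz0s j (mem_Cp_self hz0s) ∈ omX G M y S := by
        intro j
        rw [mem_omX_omr]
        intro i hi h
        exact absurd h (hex i hi)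
      have hclz : ∀ j, Cl G N (x 0) ⟨_, hmem j⟩ := by
        intro j
        rw [hcl]
        exact (cl_bs hC hM hG d0 ((hcl _ _).mp (hx1 0)).left).trans
          (om_cl_row hC hM hG d0 hz0s j (mem_Cp_self hz0s))
      choose f hf using fun j => hx3 _ (hclz j)
      obtain ⟨j, j', hjj, hff⟩ := Finite.exists_ne_map_eq_of_infinite f
      have h1 := hf j
      have h2 := hf j'
      rw [hcp] at h1 h2
      rw [← hff] at h2
      have hxs : InfSw G (omM G M d0) (x (f j)).1 := ((hcl _ _).mp (hx1 (f j))).right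
      have h3 : omr hz0s j' (mem_Cp_self hz0s) ∈
          Cp G (omM G M d0) (omr hz0s j (mem_Cp_self hz0s)) := by
        rw [Cp_eq hG hxs h1]
        exact h2
      obtain ⟨z', hz', h4⟩ := om_cp_row hC hM hG d0 hz0s j (mem_Cp_self hz0s) h3
      have h5 := congrArg Subtype.val h4
      simp only [omr, Sum.inr.injEq, Prod.mk.injEq, true_and] at h5
      exact hjj h5.1.symm
  · intro ht
    let x : Fin (t + 1) → omX G M y S := fun j =>
      ⟨omr (hy t) (j : ℕ) (mem_Cp_self (hy t)), hkeepr t ht j (Nat.lt_succ_iff.mp j.2) _ _⟩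
    refine ⟨x, fun j => ?_, fun j j' hne hcon => ?_, fun z hz => ?_⟩
    · rw [hcl]
      exact (om_cl_row hC hM hG d0 (hy t) _ (mem_Cp_self (hy t))).symm.trans
        (om_cl_row hC hM hG d0 (hy t) _ (mem_Cp_self (hy t)))
    · rw [hcp] at hcon
      obtain ⟨z', hz', h4⟩ := om_cp_row hC hM hG d0 (hy t) _ (mem_Cp_self (hy t)) hcon
      have h5 := congrArg Subtype.val h4
      simp only [x, omr, Sum.inr.injEq, Prod.mk.injEq, true_and] at h5
      exact hne (Fin.ext h5.1.symm)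
    · have h1 := hbs ((hcl _ _).mp hz)
      have h2 : Cl G M (y t) (bs z.1) := h1
      have h3 : CT G M (bs z.1) (y t) := ⟨_, mem_Cp_self h2.right, h2.symm⟩
      obtain ⟨j, z', hz', hj, hjz⟩ := hmark z.1 z.2 t ht h3
      refine ⟨⟨j, Nat.lt_succ_of_le hj⟩, ?_⟩
      rw [hcp, hjz]
      exact om_row_cp hC hM hG d0 (hy t) j (mem_Cp_self (hy t)) hz'

end Om

end Pool.Agent.Helper6.VU
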