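import Pool.Agent.Helper6.V15Fin

/-!
# Measurability and invariance
-/

set_option autoImplicit false

namespace Pool.Agent.Helper6.VU

open Set Filter

variable {Y : Type} {ar : Y → ℕ} {E E' : Type}

theorem Sw.iso {G : Set Y} {N : St ar E} {N' : St ar E'} (e : E ≃ E')
    (h : ∀ s ∈ G, ∀ w, N s w ↔ N' s (e ∘ w)) {y : E} (hy : Sw G N y) : Sw G N' (e y) := by
  obtain ⟨P, hP⟩ := hy
  exact ⟨_, hP.iso e h⟩

theorem Kd.iso {G : Set Y} {N : St ar E} {N' : St ar E'} (e : E ≃ E')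
    (h : ∀ s ∈ G, ∀ w, N s w ↔ N' s (e ∘ w)) {y z : E} (hk : Kd G N y z) :
    Kd G N' (e y) (e z) := by
  obtain ⟨h1, g, hg, rfl⟩ := hk
  refine ⟨h1.iso e h, (e.symm.trans g).trans e, ⟨fun s hs w => ?_, ?_⟩, by simp⟩
  · have e1 : ((e.symm.trans g).trans e : E' → E') ∘ w = e ∘ (g ∘ (e.symm ∘ w)) := rfl
    have e2 : w = e ∘ (e.symm ∘ w) := by ext; simp
    rw [e1, ← h s hs, hg.1 s hs]
    conv_rhs => rw [e2]
    rw [← h s hs]
  · refine (hg.2.image e).subset ?_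
    intro x hx
    refine ⟨e.symm x, fun hgx => hx ?_, by simp⟩
    show e (g (e.symm x)) = x
    rw [hgx, Equiv.apply_symm_apply]

theorem Cl.iso {G : ℕ → Set Y} {N : St ar E} {N' : St ar E'} (e : E ≃ E')
    (h : ∀ s w, N s w ↔ N' s (e ∘ w)) {y z : E} (hk : Cl G N y z) : Cl G N' (e y) (e z) :=
  fun n => (hk n).iso e fun s _ w => h s w

theorem Cp.iso {G : ℕ → Set Y} {N : St ar E} {N' : St ar E'} (e : E ≃ E')
    (h : ∀ s w, N s w ↔ N' s (e ∘ w)) {y z : E} (hk : z ∈ Cp G N y) : e z ∈ Cp G N' (e y) := by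
  obtain ⟨n, P, hP, hz⟩ := hk
  exact ⟨n, _, hP.iso e (fun s _ w => h s w), Finset.mem_map_of_mem _ hz⟩

theorem iso_symm {N : St ar E} {N' : St ar E'} (e : E ≃ E')
    (h : ∀ s w, N s w ↔ N' s (e ∘ w)) (s : Y) (w : Fin (ar s) → E') :
    N' s w ↔ N s (e.symm ∘ w) := by
  rw [h]
  have : e ∘ e.symm ∘ w = w := by ext; simp
  rw [this]

theorem Cl.iso_iff {G : ℕ → Set Y} {N : St ar E} {N' : St ar E'} (e : E ≃ E')
    (h : ∀ s w, N s w ↔ N' s (e ∘ w)) {y z : E} : Cl G N' (e y) (e z) ↔ Cl G N y z := by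
  refine ⟨fun hk => ?_, Cl.iso e h⟩
  have := hk.iso e.symm (iso_symm e h)
  simpa using this

theorem Cp.iso_iff {G : ℕ → Set Y} {N : St ar E} {N' : St ar E'} (e : E ≃ E')
    (h : ∀ s w, N s w ↔ N' s (e ∘ w)) {y z : E} : e z ∈ Cp G N' (e y) ↔ z ∈ Cp G N y := by
  refine ⟨fun hk => ?_, Cp.iso e h⟩
  have := Cp.iso e.symm (iso_symm e h) hk
  simpa using this

theorem PhiC.iso {G : ℕ → Set Y} {N : St ar E} {N' : St ar E'} (e : E ≃ E')
    (h : ∀ s w, N s w ↔ N' s (e ∘ w)) {t : ℕ} (hΦ : PhiC G N t) : PhiC G N' t := by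
  obtain ⟨x, h1, h2, h3⟩ := hΦ
  refine ⟨e ∘ x, fun i => (h1 i).iso e h, fun i j hij hc => h2 i j hij ?_, fun z hz => ?_⟩
  · exact (Cp.iso_iff e h).mp hc
  · have h4 : Cl G N (x 0) (e.symm z) := by
      rw [← Cl.iso_iff e h]
      simpa using hz
    obtain ⟨i, hi⟩ := h3 _ h4
    refine ⟨i, ?_⟩
    have := Cp.iso e h hi
    simpa using this

/-- Permutations with finite support of the natural numbers form a countable set. -/
theorem countable_fs : Countable {g : Equiv.Perm ℕ // {x | g x ≠ x}.Finite} := by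
  classical
  let f : {g : Equiv.Perm ℕ // {x | g x ≠ x}.Finite} → (s : Finset ℕ) × (s → ℕ) :=
    fun g => ⟨g.2.toFinset, fun x => g.1 x⟩
  refine Function.Injective.countable (f := f) ?_
  intro g g' h
  apply Subtype.ext
  ext x
  have h1 : g.2.toFinset = g'.2.toFinset := congrArg Sigma.fst h
  by_cases hx : x ∈ g.2.toFinset
  · have hx' : x ∈ g'.2.toFinset := h1 ▸ hx
    have h2 : ∀ (a b : (s : Finset ℕ) × (s → ℕ)), a = b → ∀ x (ha : x ∈ a.1) (hb : x ∈ b.1),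
        a.2 ⟨x, ha⟩ = b.2 ⟨x, hb⟩ := by
      rintro a b rfl x ha hb
      rfl
    exact h2 _ _ h x hx hx'
  · have hx' : x ∉ g'.2.toFinset := h1 ▸ hx
    rw [Set.Finite.mem_toFinset] at hx hx'
    simp only [Set.mem_ofPred_eq, not_not] at hx hx'
    rw [hx, hx']

theorem mp_sw [Countable Y] (G : Set Y) (y : ℕ) : MP fun c : Sp ar => Sw G (toSt c) y :=
  MP.ex fun P => mp_isBlk G y P

theorem mp_kd [Countable Y] (G : Set Y) (y z : ℕ) : MP fun c : Sp ar => Kd G (toSt c) y z := by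
  have : MP fun c : Sp ar => Sw G (toSt c) y ∧
      ∃ g : {g : Equiv.Perm ℕ // {x | g x ≠ x}.Finite}, Auto G (toSt c) g.1 ∧ g.1 y = z := by
    have := countable_fs
    exact MP.and (mp_sw G y) (MP.ex fun g => MP.and (mp_auto G _) (MP.const _))
  refine this.congr fun c => ?_
  constructor
  · rintro ⟨h1, g, hg, hgy⟩
    exact ⟨h1, g.1, ⟨hg, g.2⟩, hgy⟩
  · rintro ⟨h1, g, hg, hgy⟩
    exact ⟨h1, ⟨g, hg.2⟩, hg.1, hgy⟩

theorem mp_cl [Countable Y] (G : ℕ → Set Y) (y z : ℕ) : MP fun c : Sp ar => Cl G (toSt c) y z :=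
  MP.all fun n => mp_kd (G n) y z

theorem mp_cp [Countable Y] (G : ℕ → Set Y) (y z : ℕ) :
    MP fun c : Sp ar => z ∈ Cp G (toSt c) y :=
  MP.ex fun n => MP.ex fun P => MP.and (mp_isBlk (G n) y P) (MP.const _)

theorem mp_phiC [Countable Y] (G : ℕ → Set Y) (t : ℕ) :
    MP fun c : Sp ar => PhiC G (toSt c) t :=
  MP.ex fun x => MP.and (MP.all fun i => mp_cl G _ _)
    (MP.and (MP.all fun i => MP.all fun j => MP.imp (MP.const _) (MP.not (mp_cp G _ _)))
      (MP.all fun z => MP.imp (mp_cl G _ _) (MP.ex fun i => mp_cp G _ _)))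

/-- Without a good tuple the class is wild. -/
theorem wild_of_not_good [Countable Y] {K : HC ar} (hC : Comm K) {D : Type} [Countable D]
    {M : St ar D} (hM : K.mem M) {G : ℕ → Set Y} (hG : Lv G) (hno : ∀ a, ¬ Good G M a) :
    Wild {c : Sp ar | K.mem (toSt c)} := by
  classical
  obtain ⟨y, hy, hflex, hct⟩ := exists_seq hG hno
  let d0 : D := y 0
  refine wild_of_decode K 0 (fun {E} N _ t => PhiC G N t) (fun e N N' h _ t hΦ => hΦ.iso e h)
    (fun _ t => mp_phiC G t) fun S _ => ?_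
  refine ⟨omX G M y S, ?_, ?_, pull Subtype.val (omM G M d0), Fin.elim0,
    K.mem_pull Subtype.val_injective (omM_mem hG hM d0), fun t =>
      decode_NS hC hM hG d0 hy hflex hct S t⟩
  · infer_instance
  · have hkeep : ∀ i', omr (hy i') 0 (mem_Cp_self (hy i')) ∈ omX G M y S := by
      intro i'
      rw [mem_omX_omr]
      intro k _ hk
      by_cases h : i' = k
      · rw [h]; exact ⟨rfl, Nat.zero_le _⟩
      · exact absurd hk (hct i' k h)
    refine Infinite.of_injective (fun i : ℕ => (⟨_, hkeep i⟩ : omX G M y S)) ?_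
    intro i j hij
    by_contra hne
    have h1 := congrArg (fun e : omX G M y S => e.1.1) hij
    simp only [omr, Sum.inr.injEq, Prod.mk.injEq] at h1
    apply hct i j hne
    rw [h1.2]
    exact CT.refl (hy j)

end Pool.Agent.Helper6.VU
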