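import Pool.Agent.Helper6.V16Wild

/-!
# Types of tuples
-/

set_option autoImplicit false

namespace Pool.Agent.Helper6.VU

open Set Filter

variable {Y : Type} {ar : Y → ℕ} {E E' : Type}

/-- Formulas of rank `k`. -/
def FF (ar : Y → ℕ) : ℕ → Type
  | 0 => (ℕ × ℕ) ⊕ ((s : Y) × (Fin (ar s) → ℕ))
  | k + 1 => FF ar k ⊕ ((FF ar k × FF ar k) ⊕ FF ar k)

theorem countable_FF [Countable Y] (k : ℕ) : Countable (FF ar k) := by
  induction k with
  | zero =>
    show Countable ((ℕ × ℕ) ⊕ ((s : Y) × (Fin (ar s) → ℕ)))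
    infer_instance
  | succ k ih =>
    show Countable (FF ar k ⊕ ((FF ar k × FF ar k) ⊕ FF ar k))
    infer_instance

/-- Environments. -/
abbrev Env (E : Type) : Type := ℕ → Option E

/-- Adding an element. -/
def Env.cons (x : E) (ρ : Env E) : Env E
  | 0 => some x
  | i + 1 => ρ i

/-- Satisfaction. -/
def Sat (N : St ar E) : (k : ℕ) → FF ar k → Env E → Prop
  | 0, Sum.inl p, ρ => ∃ x, ρ p.1 = some x ∧ ρ p.2 = some x
  | 0, Sum.inr q, ρ => ∃ w : Fin (ar q.1) → E, (∀ c, ρ (q.2 c) = some (w c)) ∧ N q.1 w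
  | k + 1, Sum.inl φ, ρ => Sat N k φ ρ
  | k + 1, Sum.inr (Sum.inl p), ρ => ¬ (Sat N k p.1 ρ ∧ Sat N k p.2 ρ)
  | k + 1, Sum.inr (Sum.inr φ), ρ => ∃ x, Sat N k φ (ρ.cons x)

/-- The symbols used are in `G`. -/
def InG (G : Set Y) : (k : ℕ) → FF ar k → Prop
  | 0, Sum.inl _ => True
  | 0, Sum.inr q => q.1 ∈ G
  | k + 1, Sum.inl φ => InG G k φ
  | k + 1, Sum.inr (Sum.inl p) => InG G k p.1 ∧ InG G k p.2
  | k + 1, Sum.inr (Sum.inr φ) => InG G k φ

theorem InG.mono {G G' : Set Y} (hG : G ⊆ G') : ∀ (k : ℕ) (φ : FF ar k), InG G k φ → InG G' k φ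
  | 0, Sum.inl _, _ => trivial
  | 0, Sum.inr _, h => hG h
  | k + 1, Sum.inl φ, h => InG.mono hG k φ h
  | k + 1, Sum.inr (Sum.inl p), h => ⟨InG.mono hG k p.1 h.1, InG.mono hG k p.2 h.2⟩
  | k + 1, Sum.inr (Sum.inr φ), h => InG.mono hG k φ h

theorem InG.exists_level {G : ℕ → Set Y} (hG : Lv G) : ∀ (k : ℕ) (φ : FF ar k),
    ∃ n, InG (G n) k φ
  | 0, Sum.inl _ => ⟨0, trivial⟩
  | 0, Sum.inr q => hG.cover q.1
  | k + 1, Sum.inl φ => InG.exists_level hG k φ
  | k + 1, Sum.inr (Sum.inl p) => by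
    obtain ⟨n, hn⟩ := InG.exists_level hG k p.1
    obtain ⟨m, hm⟩ := InG.exists_level hG k p.2
    exact ⟨max n m, InG.mono (hG.mono _ _ (le_max_left _ _)) k p.1 hn,
      InG.mono (hG.mono _ _ (le_max_right _ _)) k p.2 hm⟩
  | k + 1, Sum.inr (Sum.inr φ) => InG.exists_level hG k φ

/-- Mapping environments. -/
def Env.map (e : E → E') (ρ : Env E) : Env E' := fun i => (ρ i).map e

theorem Env.map_cons (e : E → E') (ρ : Env E) (x : E) :
    (ρ.cons x).map e = (ρ.map e).cons (e x) := by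
  funext i
  cases i <;> rfl

theorem Sat.iso {G : Set Y} {N : St ar E} {N' : St ar E'} (e : E ≃ E')
    (h : ∀ s ∈ G, ∀ w, N s w ↔ N' s (e ∘ w)) : ∀ (k : ℕ) (φ : FF ar k), InG G k φ →
    ∀ ρ : Env E, Sat N k φ ρ ↔ Sat N' k φ (ρ.map e)
  | 0, Sum.inl p, _, ρ => by
    constructor
    · rintro ⟨x, h1, h2⟩
      exact ⟨e x, by simp [Env.map, h1], by simp [Env.map, h2]⟩
    · rintro ⟨x, h1, h2⟩
      simp only [Env.map, Option.map_eq_some_iff] at h1 h2
      obtain ⟨y, hy, hyx⟩ := h1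
      obtain ⟨z, hz, hzx⟩ := h2
      have : y = z := e.injective (by rw [hyx, hzx])
      exact ⟨y, hy, this ▸ hz⟩
  | 0, Sum.inr q, hq, ρ => by
    constructor
    · rintro ⟨w, h1, h2⟩
      exact ⟨e ∘ w, fun c => by simp [Env.map, h1 c], (h q.1 hq w).mp h2⟩
    · rintro ⟨w, h1, h2⟩
      refine ⟨e.symm ∘ w, fun c => ?_, ?_⟩
      · have h3 := h1 c
        simp only [Env.map, Option.map_eq_some_iff] at h3
        obtain ⟨y, hy, hyw⟩ := h3
        rw [hy]
        show some y = some (e.symm (w c))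
        rw [← hyw]
        simp
      · rw [h q.1 hq]
        have : e ∘ e.symm ∘ w = w := by ext; simp
        rw [this]
        exact h2
  | k + 1, Sum.inl φ, hφ, ρ => Sat.iso e h k φ hφ ρ
  | k + 1, Sum.inr (Sum.inl p), hφ, ρ =>
    not_congr (and_congr (Sat.iso e h k p.1 hφ.1 ρ) (Sat.iso e h k p.2 hφ.2 ρ))
  | k + 1, Sum.inr (Sum.inr φ), hφ, ρ => by
    show (∃ x, Sat N k φ (ρ.cons x)) ↔ ∃ x, Sat N' k φ ((ρ.map e).cons x)
    constructor
    · rintro ⟨x, hx⟩
      refine ⟨e x, ?_⟩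
      rw [← Env.map_cons]
      exact (Sat.iso e h k φ hφ _).mp hx
    · rintro ⟨x, hx⟩
      refine ⟨e.symm x, ?_⟩
      rw [Sat.iso e h k φ hφ, Env.map_cons]
      simpa using hx

/-- Renaming of variables. -/
def ren : (k : ℕ) → (ℕ → ℕ) → FF ar k → FF ar k
  | 0, f, Sum.inl p => Sum.inl (f p.1, f p.2)
  | 0, f, Sum.inr q => Sum.inr ⟨q.1, fun c => f (q.2 c)⟩
  | k + 1, f, Sum.inl φ => Sum.inl (ren k f φ)
  | k + 1, f, Sum.inr (Sum.inl p) => Sum.inr (Sum.inl (ren k f p.1, ren k f p.2))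
  | k + 1, f, Sum.inr (Sum.inr φ) =>
    Sum.inr (Sum.inr (ren k (fun i => Nat.casesOn i 0 fun i => f i + 1) φ))

theorem InG.ren {G : Set Y} : ∀ (k : ℕ) (f : ℕ → ℕ) (φ : FF ar k), InG G k φ →
    InG G k (VU.ren k f φ)
  | 0, _, Sum.inl _, _ => trivial
  | 0, _, Sum.inr _, h => h
  | k + 1, f, Sum.inl φ, h => InG.ren k f φ h
  | k + 1, f, Sum.inr (Sum.inl p), h => ⟨InG.ren k f p.1 h.1, InG.ren k f p.2 h.2⟩
  | k + 1, _, Sum.inr (Sum.inr φ), h => InG.ren k _ φ h

theorem sat_ren {N : St ar E} : ∀ (k : ℕ) (f : ℕ → ℕ) (φ : FF ar k) (ρ : Env E),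
    Sat N k (ren k f φ) ρ ↔ Sat N k φ (fun i => ρ (f i))
  | 0, _, Sum.inl _, _ => Iff.rfl
  | 0, _, Sum.inr _, _ => Iff.rfl
  | k + 1, f, Sum.inl φ, ρ => sat_ren k f φ ρ
  | k + 1, f, Sum.inr (Sum.inl p), ρ =>
    not_congr (and_congr (sat_ren k f p.1 ρ) (sat_ren k f p.2 ρ))
  | k + 1, f, Sum.inr (Sum.inr φ), ρ => by
    show (∃ x, Sat N k (ren k _ φ) (ρ.cons x)) ↔ ∃ x, Sat N k φ (Env.cons x fun i => ρ (f i))
    refine exists_congr fun x => ?_
    rw [sat_ren k]
    have : (fun i => (ρ.cons x) (Nat.casesOn i 0 fun i => f i + 1)) =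
        Env.cons x fun i => ρ (f i) := by
      funext i
      cases i <;> rfl
    rw [this]

/-- The environment of a list. -/
def lenv (l : List E) : Env E := fun i => l[i]?

theorem lenv_cons (x : E) (l : List E) : lenv (x :: l) = (lenv l).cons x := by
  funext i
  cases i with
  | zero => rfl
  | succ i =>
    show (x :: l)[i + 1]? = l[i]?
    simp

theorem lenv_map (e : E → E') (l : List E) : lenv (l.map e) = (lenv l).map e := by
  funext i
  show (l.map e)[i]? = (l[i]?).map e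
  simp

/-- Same type, for the symbols in `G`. -/
def TE (G : Set Y) (N : St ar E) (l : List E) (N' : St ar E') (l' : List E') : Prop :=
  ∀ k (φ : FF ar k), InG G k φ → (Sat N k φ (lenv l) ↔ Sat N' k φ (lenv l'))

theorem TE.refl (G : Set Y) (N : St ar E) (l : List E) : TE G N l N l := fun _ _ _ => Iff.rfl

theorem TE.symm {G : Set Y} {N : St ar E} {l : List E} {N' : St ar E'} {l' : List E'}
    (h : TE G N l N' l') : TE G N' l' N l := fun k φ hφ => (h k φ hφ).symm

theorem TE.trans {E'' : Type} {G : Set Y} {N : St ar E} {l : List E} {N' : St ar E'}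
    {l' : List E'} {N'' : St ar E''} {l'' : List E''} (h : TE G N l N' l')
    (h' : TE G N' l' N'' l'') : TE G N l N'' l'' :=
  fun k φ hφ => (h k φ hφ).trans (h' k φ hφ)

theorem TE.mono {G G' : Set Y} (hG : G' ⊆ G) {N : St ar E} {l : List E} {N' : St ar E'}
    {l' : List E'} (h : TE G N l N' l') : TE G' N l N' l' :=
  fun k φ hφ => h k φ (InG.mono hG k φ hφ)

theorem TE.tail {G : Set Y} {N : St ar E} {l : List E} {N' : St ar E'} {l' : List E'} {x : E}
    {x' : E'} (h : TE G N (x :: l) N' (x' :: l')) : TE G N l N' l' := by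
  intro k φ hφ
  have h1 := h k (ren k Nat.succ φ) (InG.ren k _ φ hφ)
  rw [sat_ren, sat_ren] at h1
  have e1 : (fun i => lenv (x :: l) i.succ) = lenv l := by
    rw [lenv_cons]
    rfl
  have e2 : (fun i => lenv (x' :: l') i.succ) = lenv l' := by
    rw [lenv_cons]
    rfl
  rw [e1, e2] at h1
  exact h1

theorem TE.length {G : Set Y} {N : St ar E} {l : List E} {N' : St ar E'} {l' : List E'}
    (h : TE G N l N' l') : l.length = l'.length := by
  have h1 : ∀ i, i < l.length ↔ i < l'.length := by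
    intro i
    have h2 := h 0 (Sum.inl (i, i)) trivial
    have h3 : ∀ {X : Type} (N : St ar X) (l : List X),
        Sat N 0 (Sum.inl (i, i)) (lenv l) ↔ i < l.length := by
      intro X N l
      constructor
      · rintro ⟨x, hx, -⟩
        have hx' : l[i]? = some x := hx
        by_contra hcon
        rw [List.getElem?_eq_none (not_lt.mp hcon)] at hx'
        simp at hx'
      · intro hi
        exact ⟨l[i], by simp [lenv, hi], by simp [lenv, hi]⟩
    rw [h3 N l, h3 N' l'] at h2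
    exact h2
  apply le_antisymm
  · by_contra hcon
    push Not at hcon
    exact absurd ((h1 l'.length).mp hcon) (lt_irrefl _)
  · by_contra hcon
    push Not at hcon
    exact absurd ((h1 l.length).mpr hcon) (lt_irrefl _)

theorem TE.of_cj {G : ℕ → Set Y} (hG : Lv G) {N : St ar E} {l l' : List E} (h : Cj G N l l') :
    TE univ N l N l' := by
  intro k φ _
  obtain ⟨n, hn⟩ := InG.exists_level hG k φ
  obtain ⟨g, hg, rfl⟩ := h n
  rw [lenv_map]
  exact Sat.iso g (fun s hs w => (hg s hs w).symm) k φ hn _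

/-- **Back and forth.** -/
theorem back_forth {D D' : Type} [Countable D] [Countable D'] (R : List (D × D') → Prop)
    {l0 : List (D × D')} (h0 : R l0) (forth : ∀ l, R l → ∀ d, ∃ d', R ((d, d') :: l))
    (back : ∀ l, R l → ∀ d', ∃ d, R ((d, d') :: l))
    (hinj : ∀ l, R l → ∀ p ∈ l, ∀ q ∈ l, (p.1 = q.1 ↔ p.2 = q.2)) :
    ∃ e : D ≃ D', (∀ p ∈ l0, e p.1 = p.2) ∧ ∀ F : Finset D, ∃ l, R l ∧
      (∀ p ∈ l, e p.1 = p.2) ∧ ∀ d ∈ F, ∃ d', (d, d') ∈ l := by
  classical
  obtain ⟨encD⟩ := nonempty_encodable D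
  obtain ⟨encD'⟩ := nonempty_encodable D'
  choose ff hff using forth
  choose bb hbb using back
  let step1 : {l // R l} → Option D → {l // R l} := fun l o =>
    match o with
    | none => l
    | some d => ⟨_, hff l.1 l.2 d⟩
  let step2 : {l // R l} → Option D' → {l // R l} := fun l o =>
    match o with
    | none => l
    | some d => ⟨_, hbb l.1 l.2 d⟩
  let L : ℕ → {l // R l} := fun k => Nat.rec ⟨l0, h0⟩
    (fun k l => step2 (step1 l (Encodable.decode k)) (Encodable.decode k)) k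
  have hL : ∀ k, L (k + 1) = step2 (step1 (L k) (Encodable.decode k)) (Encodable.decode k) :=
    fun _ => rfl
  have hs1 : ∀ l o p, p ∈ l.1 → p ∈ (step1 l o).1 := by
    intro l o p hp
    rcases o with _ | d
    · exact hp
    · exact List.mem_cons_of_mem _ hp
  have hs2 : ∀ l o p, p ∈ l.1 → p ∈ (step2 l o).1 := by
    intro l o p hp
    rcases o with _ | d
    · exact hp
    · exact List.mem_cons_of_mem _ hp
  have hmono : ∀ k k', k ≤ k' → ∀ p, p ∈ (L k).1 → p ∈ (L k').1 := by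
    intro k k' h
    induction h with
    | refl => exact fun _ h => h
    | step _ ih =>
      intro p hp
      rw [hL]
      exact hs2 _ _ _ (hs1 _ _ _ (ih p hp))
  have hfun : ∀ k k' p q, p ∈ (L k).1 → q ∈ (L k').1 → (p.1 = q.1 ↔ p.2 = q.2) := by
    intro k k' p q hp hq
    exact hinj _ (L (max k k')).2 p (hmono _ _ (le_max_left _ _) _ hp) q
      (hmono _ _ (le_max_right _ _) _ hq)
  have htot : ∀ d : D, ∃ d', (d, d') ∈ (L (Encodable.encode d + 1)).1 := by
    intro d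
    rw [hL]
    have h1 : (Encodable.decode (Encodable.encode d) : Option D) = some d :=
      Encodable.encodek d
    rw [h1]
    refine ⟨ff (L (Encodable.encode d)).1 (L (Encodable.encode d)).2 d, hs2 _ _ _ ?_⟩
    exact List.mem_cons_self
  have hsur : ∀ d' : D', ∃ d, (d, d') ∈ (L (Encodable.encode d' + 1)).1 := by
    intro d'
    rw [hL]
    have h1 : (Encodable.decode (Encodable.encode d') : Option D') = some d' :=
      Encodable.encodek d'
    rw [h1]
    exact ⟨_, List.mem_cons_self⟩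
  choose f hf using htot
  choose g hg using hsur
  have hgf : ∀ d, g (f d) = d := fun d =>
    (hfun (Encodable.encode (f d) + 1) (Encodable.encode d + 1) (g (f d), f d) (d, f d)
      (hg (f d)) (hf d)).mpr rfl
  have hfg : ∀ d', f (g d') = d' := fun d' =>
    (hfun (Encodable.encode (g d') + 1) (Encodable.encode d' + 1) (g d', f (g d')) (g d', d')
      (hf (g d')) (hg d')).mp rfl
  let e : D ≃ D' := ⟨f, g, hgf, hfg⟩
  have he : ∀ k p, p ∈ (L k).1 → e p.1 = p.2 := by
    intro k p hp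
    exact (hfun (Encodable.encode p.1 + 1) k (p.1, f p.1) p (hf p.1) hp).mp rfl
  refine ⟨e, fun p hp => he 0 p hp, fun F => ?_⟩
  refine ⟨(L (F.sup fun d => Encodable.encode d + 1)).1, (L _).2, he _, fun d hd =>
    ⟨f d, hmono _ _ (Finset.le_sup (f := fun d => Encodable.encode d + 1) hd) _ (hf d)⟩⟩

/-- Isomorphisms by back and forth between types. -/
theorem iso_of_bf {D D' : Type} [Countable D] [Countable D'] {G : Set Y} {N : St ar D}
    {N' : St ar D'} (R : List (D × D') → Prop)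
    {l0 : List (D × D')} (h0 : R l0) (forth : ∀ l, R l → ∀ d, ∃ d', R ((d, d') :: l))
    (back : ∀ l, R l → ∀ d', ∃ d, R ((d, d') :: l)) {a : List D} {a' : List D'}
    (hR : ∀ l, R l → TE G N (l.map Prod.fst ++ a) N' (l.map Prod.snd ++ a')) :
    ∃ e : D ≃ D', (∀ p ∈ l0, e p.1 = p.2) ∧ ∀ s ∈ G, ∀ w, N s w ↔ N' s (e ∘ w) := by
  classical
  have hget : ∀ (l : List (D × D')) (p : D × D'), p ∈ l → ∃ i : ℕ,
      lenv (l.map Prod.fst ++ a) i = some p.1 ∧ lenv (l.map Prod.snd ++ a') i = some p.2 := by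
    intro l p hp
    obtain ⟨i, hi, rfl⟩ := List.getElem_of_mem hp
    refine ⟨i, ?_, ?_⟩
    · show (l.map Prod.fst ++ a)[i]? = _
      rw [List.getElem?_append_left (by simpa using hi)]
      simp [hi]
    · show (l.map Prod.snd ++ a')[i]? = _
      rw [List.getElem?_append_left (by simpa using hi)]
      simp [hi]
  obtain ⟨e, he1, he2⟩ := back_forth R h0 forth back fun l hl p hp q hq => by
    obtain ⟨i, hi1, hi2⟩ := hget l p hp
    obtain ⟨j, hj1, hj2⟩ := hget l q hq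
    have h := hR l hl 0 (Sum.inl (i, j)) trivial
    constructor
    · intro hpq
      obtain ⟨x, hx1, hx2⟩ := h.mp ⟨p.1, hi1, by rw [hpq]; exact hj1⟩
      have h1 : lenv (l.map Prod.snd ++ a') i = some x := hx1
      have h2 : lenv (l.map Prod.snd ++ a') j = some x := hx2
      rw [hi2] at h1
      rw [hj2] at h2
      simp only [Option.some.injEq] at h1 h2
      rw [h1, h2]
    · intro hpq
      obtain ⟨x, hx1, hx2⟩ := h.mpr ⟨p.2, hi2, by rw [hpq]; exact hj2⟩
      have h1 : lenv (l.map Prod.fst ++ a) i = some x := hx1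
      have h2 : lenv (l.map Prod.fst ++ a) j = some x := hx2
      rw [hi1] at h1
      rw [hj1] at h2
      simp only [Option.some.injEq] at h1 h2
      rw [h1, h2]
  refine ⟨e, he1, fun s hs w => ?_⟩
  obtain ⟨l, hl1, hl2, hl3⟩ := he2 (Finset.univ.image w)
  have h1 : ∀ c, ∃ i : ℕ, lenv (l.map Prod.fst ++ a) i = some (w c) ∧
      lenv (l.map Prod.snd ++ a') i = some (e (w c)) := by
    intro c
    obtain ⟨d', hd'⟩ := hl3 (w c) (Finset.mem_image_of_mem w (Finset.mem_univ c))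
    obtain ⟨i, hi1, hi2⟩ := hget l _ hd'
    have := hl2 _ hd'
    exact ⟨i, hi1, by rw [hi2]; exact congrArg some this.symm⟩
  choose t ht1 ht2 using h1
  have h2 := hR l hl1 0 (Sum.inr ⟨s, t⟩) hs
  constructor
  · intro hw
    obtain ⟨w', hw1, hw2⟩ := h2.mp ⟨w, ht1, hw⟩
    have : w' = e ∘ w := by
      funext c
      have h3 : lenv (l.map Prod.snd ++ a') (t c) = some (w' c) := hw1 c
      rw [ht2 c] at h3
      exact (Option.some.inj h3).symm
    rw [← this]
    exact hw2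
  · intro hw
    obtain ⟨w', hw1, hw2⟩ := h2.mpr ⟨e ∘ w, ht2, hw⟩
    have : w' = w := by
      funext c
      have h3 : lenv (l.map Prod.fst ++ a) (t c) = some (w' c) := hw1 c
      rw [ht1 c] at h3
      exact (Option.some.inj h3).symm
    rw [← this]
    exact hw2

/-- Definable properties of tuples. -/
def Df (G : Set Y) (N : St ar E) (P : List E → Prop) : Prop :=
  ∃ k, ∃ φ : FF ar k, InG G k φ ∧ ∀ l, Sat N k φ (lenv l) ↔ P l

theorem Df.lift {G : Set Y} {N : St ar E} {k : ℕ} {φ : FF ar k} (hφ : InG G k φ) (j : ℕ) :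
    ∃ ψ : FF ar (k + j), InG G (k + j) ψ ∧ ∀ ρ, Sat N (k + j) ψ ρ ↔ Sat N k φ ρ := by
  induction j with
  | zero => exact ⟨φ, hφ, fun _ => Iff.rfl⟩
  | succ j ih =>
    obtain ⟨ψ, h1, h2⟩ := ih
    exact ⟨Sum.inl ψ, h1, h2⟩

theorem Df.not {G : Set Y} {N : St ar E} {P : List E → Prop} (h : Df G N P) :
    Df G N fun l => ¬ P l := by
  obtain ⟨k, φ, h1, h2⟩ := h
  refine ⟨k + 1, Sum.inr (Sum.inl (φ, φ)), ⟨h1, h1⟩, fun l => ?_⟩
  show ¬ (Sat N k φ (lenv l) ∧ Sat N k φ (lenv l)) ↔ ¬ P l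
  rw [and_self, h2]

theorem Df.and {G : Set Y} {N : St ar E} {P Q : List E → Prop} (h : Df G N P)
    (h' : Df G N Q) : Df G N fun l => P l ∧ Q l := by
  obtain ⟨k, φ, h1, h2⟩ := h
  obtain ⟨k', φ', h1', h2'⟩ := h'
  obtain ⟨ψ, h3, h4⟩ := Df.lift (N := N) h1 k'
  obtain ⟨ψ', h3', h4'⟩ := Df.lift (N := N) h1' k
  have hk : k' + k = k + k' := Nat.add_comm _ _
  have : ∃ χ : FF ar (k + k'), InG G (k + k') χ ∧ ∀ ρ, Sat N (k + k') χ ρ ↔ Sat N k' φ' ρ :=
    hk ▸ ⟨ψ', h3', h4'⟩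
  obtain ⟨χ, h5, h6⟩ := this
  have h7 : Df G N fun l => ¬ (P l ∧ Q l) := by
    refine ⟨k + k' + 1, Sum.inr (Sum.inl (ψ, χ)), ⟨h3, h5⟩, fun l => ?_⟩
    show ¬ (Sat N (k + k') ψ (lenv l) ∧ Sat N (k + k') χ (lenv l)) ↔ ¬ (P l ∧ Q l)
    rw [h4, h6, h2, h2']
  have h8 := h7.not
  obtain ⟨k, φ, h9, h10⟩ := h8
  exact ⟨k, φ, h9, fun l => (h10 l).trans not_not⟩

theorem Df.ex {G : Set Y} {N : St ar E} {P : List E → Prop} (h : Df G N P) :
    Df G N fun l => ∃ x, P (x :: l) := by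
  obtain ⟨k, φ, h1, h2⟩ := h
  refine ⟨k + 1, Sum.inr (Sum.inr φ), h1, fun l => ?_⟩
  show (∃ x, Sat N k φ ((lenv l).cons x)) ↔ _
  refine exists_congr fun x => ?_
  rw [← lenv_cons, h2]

theorem Df.true {G : Set Y} {N : St ar E} : Df G N fun _ => True := by
  have h1 : Df G N fun l => Sat N 0 (Sum.inl (0, 0)) (lenv l) :=
    ⟨0, Sum.inl (0, 0), trivial, fun _ => Iff.rfl⟩
  have h2 := (h1.and h1.not).not
  obtain ⟨k, φ, h3, h4⟩ := h2
  exact ⟨k, φ, h3, fun l => (h4 l).trans (by tauto)⟩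

/-- Tuples of the same type at a level are conjugate. -/
theorem conj_of_TE [Countable E] {G : Set Y} {N : St ar E}
    (hC : ∃ C : Finset E, ∀ y, y ∉ C → ∃ c ∈ C, Ex G N y c) {l l' : List E}
    (h : TE G N l N l') : ∃ g : Equiv.Perm E, Auto G N g ∧ l.map g = l' := by
  classical
  have hconj : ∀ (l : List E) (g : Equiv.Perm E), Auto G N g → TE G N l N (l.map g) := by
    intro l g hg k φ hφ
    rw [lenv_map]
    exact Sat.iso g (fun s hs w => (hg s hs w).symm) k φ hφ _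
  -- one-point extensions
  have ext : ∀ a b : List E, TE G N a N b → ∀ d, ∃ d', TE G N (d :: a) N (d' :: b) := by
    intro a b hab d
    by_contra hcon
    push Not at hcon
    obtain ⟨R, hR, hRl⟩ := orbits_finite hC (b.length + 1)
    -- a formula separating `d :: a` from all inequivalent representatives
    have hsep : ∀ T : Set (List E), T.Finite → ∃ P : List E → Prop, Df G N P ∧ P (d :: a) ∧
        ∀ r ∈ T, ¬ TE G N (d :: a) N r → ¬ P r := by
      intro T hT
      refine Set.Finite.induction_on _ hT ?_ ?_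
      · exact ⟨fun _ => True, Df.true, trivial, fun r hr => absurd hr (Set.notMem_empty r)⟩
      · intro r T _ _ ih
        obtain ⟨P, hP1, hP2, hP3⟩ := ih
        by_cases hr : TE G N (d :: a) N r
        · refine ⟨P, hP1, hP2, fun r' hr' hne => ?_⟩
          rcases hr' with rfl | hr'
          · exact absurd hr hne
          · exact hP3 r' hr' hne
        · have hr2 := hr
          unfold TE at hr2
          push Not at hr2
          obtain ⟨k, φ, hφ, hne⟩ := hr2
          have hQ : ∃ Q : List E → Prop, Df G N Q ∧ Q (d :: a) ∧ ¬ Q r := by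
            have hD : Df G N fun l => Sat N k φ (lenv l) := ⟨k, φ, hφ, fun _ => Iff.rfl⟩
            by_cases h1 : Sat N k φ (lenv (d :: a))
            · exact ⟨_, hD, h1, fun h2 => by tauto⟩
            · exact ⟨_, hD.not, h1, fun h2 => by tauto⟩
          obtain ⟨Q, hQ1, hQ2, hQ3⟩ := hQ
          refine ⟨_, hP1.and hQ1, ⟨hP2, hQ2⟩, fun r' hr' hne' => ?_⟩
          rcases hr' with rfl | hr'
          · exact fun h => hQ3 h.2
          · exact fun h => hP3 r' hr' hne' h.1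
    obtain ⟨P, hP1, hP2, hP3⟩ := hsep R hR
    obtain ⟨k, φ, hφ, hφP⟩ := hP1.ex
    have h1 := (hφP a).mpr ⟨d, hP2⟩
    rw [hab k φ hφ, hφP b] at h1
    obtain ⟨d', hd'⟩ := h1
    obtain ⟨g, hg, hgR⟩ := hRl (d' :: b) (by simp)
    have h2 : TE G N (d' :: b) N ((d' :: b).map g) := hconj _ g hg.1
    refine hP3 _ hgR (fun h3 => hcon d' (h3.trans h2.symm)) ?_
    obtain ⟨k, φ, hφ, hφP⟩ := hP1
    rw [← hφP, ← h2 k φ hφ, hφP]
    exact hd'
  have hlen := h.length
  have hz1 : (l.zip l').map Prod.fst = l := by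
    rw [List.map_fst_zip]
    exact hlen.le
  have hz2 : (l.zip l').map Prod.snd = l' := by
    rw [List.map_snd_zip]
    exact hlen.ge
  obtain ⟨e, he1, he2⟩ := iso_of_bf (G := G) (N := N) (N' := N)
    (fun p : List (E × E) => TE G N (p.map Prod.fst) N (p.map Prod.snd)) (l0 := l.zip l')
    (by rw [hz1, hz2]; exact h) (fun p hp d => ext _ _ hp d) (fun p hp d' => by
      obtain ⟨d, hd⟩ := ext _ _ hp.symm d'
      exact ⟨d, hd.symm⟩) (a := []) (a' := []) (fun p hp => by simpa using hp)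
  refine ⟨e, fun s hs w => (he2 s hs w).symm, ?_⟩
  have h3 : (l.zip l').map (fun p => e p.1) = (l.zip l').map Prod.snd :=
    List.map_congr_left fun p hp => he1 p hp
  rw [hz2] at h3
  rw [← h3]
  conv_lhs => rw [← hz1]
  rw [List.map_map]
  rfl

end Pool.Agent.Helper6.VU
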