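import Pool.Agent.Helper6.V17Fm

/-!
# The dichotomy for closed hereditary classes
-/

set_option autoImplicit false

namespace Pool.Agent.Helper6.VU

open Set Filter

variable {Y : Type} {ar : Y → ℕ}

theorem mp_sat [Countable Y] : ∀ (k : ℕ) (φ : FF ar k) (ρ : Env ℕ),
    MP fun c : Sp ar => Sat (toSt c) k φ ρ
  | 0, Sum.inl p, ρ => (MP.const (∃ x, ρ p.1 = some x ∧ ρ p.2 = some x)).congr fun _ => Iff.rfl
  | 0, Sum.inr q, ρ => by
    have : MP fun c : Sp ar => ∃ w : Fin (ar q.1) → ℕ, (∀ c, ρ (q.2 c) = some (w c)) ∧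
        toSt c q.1 w := MP.ex fun w => MP.and (MP.const _) (MP.atom _ _)
    exact this.congr fun _ => Iff.rfl
  | k + 1, Sum.inl φ, ρ => mp_sat k φ ρ
  | k + 1, Sum.inr (Sum.inl p), ρ => MP.not (MP.and (mp_sat k p.1 ρ) (mp_sat k p.2 ρ))
  | k + 1, Sum.inr (Sum.inr φ), ρ => by
    have : MP fun c : Sp ar => ∃ x, Sat (toSt c) k φ (ρ.cons x) := MP.ex fun x => mp_sat k φ _
    exact this.congr fun _ => Iff.rfl

/-- **Dichotomy for closed hereditary classes.** -/
theorem hc_dichotomy [Countable Y] (K : HC ar) :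
    Wild {c : Sp ar | K.mem (toSt c)} ∨ ∃ S : Set (Sp ar), S.Countable ∧
      (∀ c ∈ S, K.mem (toSt c)) ∧ ∀ c, K.mem (toSt c) → ∃ d ∈ S, SIso (toSt c) (toSt d) := by
  classical
  by_cases hK : Wild {c : Sp ar | K.mem (toSt c)}
  · exact Or.inl hK
  right
  have hC : Comm K := commLt_of_not_wild K hK
  -- levels
  obtain ⟨encY⟩ := nonempty_encodable Y
  have hfin : ∀ n, {s : Y | Encodable.encode s < n}.Finite := fun n =>
    (Set.finite_Iio n).preimage (f := Encodable.encode) Encodable.encode_injective.injOn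
  let Gf : ℕ → Finset Y := fun n => (hfin n).toFinset
  let G : ℕ → Set Y := fun n => (Gf n : Set Y)
  have hmemG : ∀ n s, s ∈ G n ↔ Encodable.encode s < n := by
    intro n s
    show s ∈ (hfin n).toFinset ↔ _
    rw [Set.Finite.mem_toFinset]
    exact Iff.rfl
  have hG : Lv G := by
    refine ⟨fun m n hmn s hs => ?_, fun s => ⟨Encodable.encode s + 1, ?_⟩⟩
    · rw [hmemG] at hs ⊢
      omega
    · rw [hmemG]
      omega
  have hcof : ∀ c, K.mem (toSt c) → ∀ n, ∃ C : Finset ℕ, ∀ y, y ∉ C →
      ∃ d ∈ C, Ex (G n) (toSt c : St ar ℕ) y d :=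
    fun c hc n => ex_cofinite hK hC hc (Gf n)
  have hgood : ∀ c, K.mem (toSt c) → ∃ a, Good G (toSt c : St ar ℕ) a := by
    intro c hc
    by_contra hcon
    push Not at hcon
    exact hK (wild_of_not_good hC hc hG hcon)
  -- an enumeration of the formulas
  have hcF : Countable ((k : ℕ) × FF ar k) := by
    have := fun k => countable_FF (ar := ar) k
    infer_instance
  have hne : Nonempty ((k : ℕ) × FF ar k) := ⟨⟨0, Sum.inl (0, 0)⟩⟩
  obtain ⟨q, hq⟩ := exists_surjective_nat ((k : ℕ) × FF ar k)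
  let code : List ℕ → Sp ar → (ℕ → Bool) := fun l c t =>
    decide (Sat (toSt c) (q t).1 (q t).2 (lenv l))
  have hcode : ∀ c c' l l', code l c = code l' c' ↔
      TE univ (toSt c : St ar ℕ) l (toSt c' : St ar ℕ) l' := by
    intro c c' l l'
    constructor
    · intro h k φ _
      obtain ⟨t, ht⟩ := hq ⟨k, φ⟩
      have h1 := congrFun h t
      simp only [code, decide_eq_decide] at h1
      rw [ht] at h1
      exact h1
    · intro h
      funext t
      simp only [code, decide_eq_decide]
      exact h _ _ (by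
        have : ∀ k (φ : FF ar k), InG univ k φ := by
          intro k φ
          obtain ⟨n, hn⟩ := InG.exists_level hG k φ
          exact InG.mono (Set.subset_univ _) k φ hn
        exact this _ _)
  have hcodem : ∀ l, Measurable (code l) := fun l =>
    measurable_digits (fun c t => Sat (toSt c) (q t).1 (q t).2 (lenv l)) fun t => mp_sat _ _ _
  have hiso : ∀ c d (e : ℕ ≃ ℕ), (∀ s w, toSt c s w ↔ (toSt d : St ar ℕ) s (e ∘ w)) → ∀ l,
      code l c = code (l.map e) d := by
    intro c d e he l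
    rw [hcode]
    intro k φ hφ
    rw [lenv_map]
    exact Sat.iso e (fun s _ w => he s w) k φ hφ _
  -- countably many types
  have hT1 : (⋃ l, code l '' {c : Sp ar | K.mem (toSt c)}).Countable := by
    by_contra hcon
    refine hK ⟨List ℕ, inferInstance, code, hcodem, ?_, hcon⟩
    rintro c d - - ⟨e, he⟩ l
    exact ⟨l.map e, hiso c d e he l⟩
  obtain ⟨τ, hτ⟩ : ∃ τ : ℕ → (ℕ → Bool), ∀ l c, K.mem (toSt c) → ∃ t, code l c = τ t := by
    have h1 : ((⋃ l, code l '' {c : Sp ar | K.mem (toSt c)}) ∪ {fun _ => false}).Countable :=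
      hT1.union (Set.countable_singleton _)
    obtain ⟨τ, hτ⟩ := h1.exists_eq_range ⟨_, Or.inr rfl⟩
    refine ⟨τ, fun l c hc => ?_⟩
    have h2 : code l c ∈ range τ := by
      rw [← hτ]
      exact Or.inl (Set.mem_iUnion.mpr ⟨l, c, hc, rfl⟩)
    obtain ⟨t, ht⟩ := h2
    exact ⟨t, ht.symm⟩
  -- the set of realised types
  let Z2 : List ℕ → Sp ar → (ℕ → Bool) := fun l c t =>
    decide (∃ b : List ℕ, code (b ++ l) c = τ t)
  have hZ2m : ∀ l, Measurable (Z2 l) := by
    intro l
    refine measurable_digits (fun c t => ∃ b : List ℕ, code (b ++ l) c = τ t) fun t => ?_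
    refine MP.ex fun b => ?_
    have : MP fun c : Sp ar => ∀ i, (Sat (toSt c) (q i).1 (q i).2 (lenv (b ++ l)) ↔
        τ t i = true) := MP.all fun i => MP.iff (mp_sat _ _ _) (MP.const _)
    refine this.congr fun c => ?_
    constructor
    · intro h
      funext i
      have h1 := h i
      simp only [code]
      by_cases h2 : τ t i = true
      · rw [h2]
        simpa using h1.mpr h2
      · have h3 : ¬ Sat (toSt c) (q i).1 (q i).2 (lenv (b ++ l)) := fun h => h2 (h1.mp h)
        rw [Bool.eq_false_of_not_eq_true h2]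
        simpa using h3
    · intro h i
      have h1 := congrFun h i
      simp only [code] at h1
      rw [← h1]
      simp
  have hT2 : (⋃ l, Z2 l '' {c : Sp ar | K.mem (toSt c)}).Countable := by
    by_contra hcon
    refine hK ⟨List ℕ, inferInstance, Z2, hZ2m, ?_, hcon⟩
    rintro c d - - ⟨e, he⟩ l
    refine ⟨l.map e, ?_⟩
    funext t
    simp only [Z2, decide_eq_decide]
    constructor
    · rintro ⟨b, hb⟩
      refine ⟨b.map e, ?_⟩
      rw [← List.map_append, ← hiso c d e he]
      exact hb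
    · rintro ⟨b, hb⟩
      refine ⟨b.map e.symm, ?_⟩
      rw [hiso c d e he, List.map_append, List.map_map]
      simpa using hb
  -- the extension property
  have forth : ∀ c c' l l', K.mem (toSt c) → K.mem (toSt c') → Good G (toSt c' : St ar ℕ) l' →
      Z2 l c = Z2 l' c' → ∀ a b : List ℕ,
      TE univ (toSt c : St ar ℕ) (a ++ l) (toSt c' : St ar ℕ) (b ++ l') → ∀ x, ∃ x',
      TE univ (toSt c : St ar ℕ) (x :: (a ++ l)) (toSt c' : St ar ℕ) (x' :: (b ++ l')) := by
    intro c c' l l' hc hc' hg hz a b hab x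
    obtain ⟨t, ht⟩ := hτ (x :: (a ++ l)) c hc
    have h1 : Z2 l c t = true := by
      simp only [Z2, decide_eq_true_eq]
      exact ⟨x :: a, ht⟩
    rw [hz] at h1
    simp only [Z2, decide_eq_true_eq] at h1
    obtain ⟨b', hb'⟩ := h1
    have h2 : TE univ (toSt c : St ar ℕ) (x :: (a ++ l)) (toSt c' : St ar ℕ) (b' ++ l') := by
      rw [← hcode, ht, hb']
    have hl1 := hab.length
    have hl2 := h2.length
    rw [List.length_append, List.length_append] at hl1
    rw [List.length_cons, List.length_append, List.length_append] at hl2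
    have hll : l.length = l'.length → True := fun _ => trivial
    rcases b' with _ | ⟨x'', b3⟩
    · exfalso
      simp only [List.length_nil] at hl2
      omega
    · have h3 : TE univ (toSt c : St ar ℕ) (a ++ l) (toSt c' : St ar ℕ) (b3 ++ l') := h2.tail
      have h4 : TE univ (toSt c' : St ar ℕ) (b3 ++ l') (toSt c' : St ar ℕ) (b ++ l') :=
        h3.symm.trans hab
      have h5 : Cj G (toSt c' : St ar ℕ) (b3 ++ l') (b ++ l') := fun n =>
        conj_of_TE (hcof c' hc' n) (h4.mono (Set.subset_univ _))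
      have hl3 : b3.length = b.length := by
        have := h4.length
        rw [List.length_append, List.length_append] at this
        omega
      obtain ⟨y', hy'⟩ := one_point hG (hcof c' hc') hg hl3 h5 x''
      exact ⟨y', h2.trans (TE.of_cj hG hy')⟩
  -- the isomorphism
  have main : ∀ c c' l l', K.mem (toSt c) → K.mem (toSt c') → Good G (toSt c : St ar ℕ) l →
      Good G (toSt c' : St ar ℕ) l' → l.length = l'.length → Z2 l c = Z2 l' c' →
      SIso (toSt c : St ar ℕ) (toSt c' : St ar ℕ) := by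
    intro c c' l l' hc hc' hg hg' hlen hz
    have h0 : TE univ (toSt c : St ar ℕ) l (toSt c' : St ar ℕ) l' := by
      obtain ⟨t, ht⟩ := hτ l c hc
      have h1 : Z2 l c t = true := by
        simp only [Z2, decide_eq_true_eq]
        exact ⟨[], ht⟩
      rw [hz] at h1
      simp only [Z2, decide_eq_true_eq] at h1
      obtain ⟨b', hb'⟩ := h1
      have h2 : TE univ (toSt c : St ar ℕ) l (toSt c' : St ar ℕ) (b' ++ l') := by
        rw [← hcode, ht, hb']
      have h3 := h2.length
      rw [List.length_append] at h3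
      have h4 : b' = [] := by
        rw [← List.length_eq_zero_iff]
        omega
      rw [h4] at h2
      exact h2
    obtain ⟨e, -, he⟩ := iso_of_bf (G := univ) (N := (toSt c : St ar ℕ))
      (N' := (toSt c' : St ar ℕ))
      (fun p : List (ℕ × ℕ) => TE univ (toSt c : St ar ℕ) (p.map Prod.fst ++ l)
        (toSt c' : St ar ℕ) (p.map Prod.snd ++ l')) (l0 := []) h0
      (fun p hp d => forth c c' l l' hc hc' hg' hz _ _ hp d) (fun p hp d' => by
        obtain ⟨d, hd⟩ := forth c' c l' l hc' hc hg hz.symm _ _ hp.symm d'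
        exact ⟨d, hd.symm⟩) (fun p hp => hp)
    exact ⟨e, fun s w => he s trivial w⟩
  -- representatives
  let Rp : ℕ × (ℕ → Bool) → Sp ar → Prop := fun z c => K.mem (toSt c) ∧ ∃ l, l.length = z.1 ∧
    Good G (toSt c : St ar ℕ) l ∧ Z2 l c = z.2
  let rep : ℕ × (ℕ → Bool) → Sp ar := fun z => if h : ∃ c, Rp z c then h.choose else
    fun _ => false
  have hrep : ∀ z c, Rp z c → Rp z (rep z) := by
    intro z c h
    have h' : ∃ c, Rp z c := ⟨c, h⟩
    simp only [rep, dif_pos h']
    exact h'.choose_spec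
  let T2 := ⋃ l, Z2 l '' {c : Sp ar | K.mem (toSt c)}
  refine ⟨rep '' {z | z ∈ (univ : Set ℕ) ×ˢ T2 ∧ ∃ c, Rp z c}, ?_, ?_, ?_⟩
  · refine Set.Countable.image ?_ _
    refine ((Set.countable_univ).prod hT2).mono ?_
    rintro z ⟨hz, -⟩
    exact hz
  · rintro _ ⟨z, ⟨-, c, hc⟩, rfl⟩
    exact (hrep z c hc).1
  · intro c hc
    obtain ⟨l, hl⟩ := hgood c hc
    have hR : Rp (l.length, Z2 l c) c := ⟨hc, l, rfl, hl, rfl⟩
    obtain ⟨h1, l', hl', hg', hz'⟩ := hrep _ c hR
    refine ⟨_, ⟨(l.length, Z2 l c), ⟨⟨trivial, ?_⟩, c, hR⟩, rfl⟩, ?_⟩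
    · exact Set.mem_iUnion.mpr ⟨l, c, hc, rfl⟩
    · exact main c _ l l' hc h1 hl hg' hl'.symm hz'.symm

end Pool.Agent.Helper6.VU
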