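import Pool.Agent.Helper6.V18Dich

/-!
# Adding finitely many constants: closed sets of codes invariant under a stabilizer
-/

set_option autoImplicit false

namespace Pool.Agent.Helper6.VU

open Set Filter Topology

variable {Y : Type} {ar : Y → ℕ}

/-- The action of permutations on codes. -/
def act (g : ℕ → ℕ) (c : Sp ar) : Sp ar := fun p => c ⟨p.1, g ∘ p.2⟩

theorem act_act (f g : ℕ → ℕ) (c : Sp ar) : act g (act f c) = act (f ∘ g) c := rfl

theorem act_id (c : Sp ar) : act id c = c := rfl

theorem siso_act (g : Equiv.Perm ℕ) (c : Sp ar) : SIso (toSt (act g c)) (toSt c) :=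
  ⟨g, fun _ _ => Iff.rfl⟩

theorem continuous_act (g : ℕ → ℕ) : Continuous (act g : Sp ar → Sp ar) :=
  continuous_pi fun _ => continuous_apply _

/-- The symbols of the expanded language. -/
abbrev Yk (Y : Type) (ar : Y → ℕ) (k : ℕ) : Type := (s : Y) × (Fin (ar s) → Option (Fin k))

/-- Arities of the expanded language. -/
abbrev ark (ar : Y → ℕ) (k : ℕ) : Yk Y ar k → ℕ := fun s => ar s.1

/-- Filling in the constants. -/
def fill {k n : ℕ} (g : Fin n → Option (Fin k)) (w : Fin n → ℕ) : Fin n → ℕ :=
  fun j => (g j).elim (k + w j) (fun i => (i : ℕ))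

/-- The code of the structure on the complement of `{0, …, k-1}`. -/
def res (k : ℕ) (c : Sp ar) : Sp (ark ar k) := fun p => c ⟨p.1.1, fill p.1.2 p.2⟩

theorem continuous_res (k : ℕ) : Continuous (res k : Sp ar → Sp (ark ar k)) :=
  continuous_pi fun _ => continuous_apply _

/-- The pattern of a tuple. -/
def patt (k : ℕ) {n : ℕ} (w : Fin n → ℕ) : Fin n → Option (Fin k) :=
  fun j => if h : w j < k then some ⟨w j, h⟩ else none

theorem fill_patt (k : ℕ) {n : ℕ} (w : Fin n → ℕ) : fill (patt k w) (fun j => w j - k) = w := by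
  funext j
  unfold fill patt
  by_cases h : w j < k
  · simp [h]
  · simp only [h, dite_false, Option.elim_none]
    omega

theorem patt_fill {k n : ℕ} (g : Fin n → Option (Fin k)) (w : Fin n → ℕ) :
    patt k (fill g w) = g := by
  funext j
  show (if h : (g j).elim (k + w j) (fun i => (i : ℕ)) < k then
    some ⟨(g j).elim (k + w j) (fun i => (i : ℕ)), h⟩ else none) = g j
  rcases g j with _ | i
  · simp
  · simp

/-- Extending a finite partial injection fixing the constants. -/
theorem exists_perm_shift (k : ℕ) (F : Finset ℕ) (f : ℕ → ℕ) (hf : Set.InjOn f F) :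
    ∃ h : Equiv.Perm ℕ, (∀ i < k, h i = i) ∧ ∀ x ∈ F, h (k + x) = k + f x := by
  classical
  let s : Set ℕ := {i | i < k} ∪ (fun x => k + x) '' (F : Set ℕ)
  have hs : s.Finite := (Set.finite_lt_nat k).union (F.finite_toSet.image _)
  let φ : ℕ → ℕ := fun n => if n < k then n else k + f (n - k)
  have hφ : Set.InjOn φ s := by
    rintro a ha b hb hab
    simp only [φ] at hab
    by_cases h1 : a < k <;> by_cases h2 : b < k
    · simpa [h1, h2] using hab
    · simp only [h1, h2, if_true, if_false] at hab
      omega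
    · simp only [h1, h2, if_true, if_false] at hab
      omega
    · simp only [h1, h2, if_false] at hab
      have ha' : a - k ∈ (F : Set ℕ) := by
        rcases ha with ha | ⟨x, hx, rfl⟩
        · exact absurd ha h1
        · simpa using hx
      have hb' : b - k ∈ (F : Set ℕ) := by
        rcases hb with hb | ⟨x, hx, rfl⟩
        · exact absurd hb h2
        · simpa using hx
      have := hf ha' hb' (by omega)
      omega
  let e : s ↪ ℕ := ⟨fun x => φ x, fun x y hxy => Subtype.ext (hφ x.2 y.2 hxy)⟩
  have hinf1 : Infinite (sᶜ : Set ℕ) := hs.infinite_compl.to_subtype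
  have hr : (range e).Finite := by
    have := hs.to_subtype
    exact Set.finite_range e
  have hinf2 : Infinite ((range e)ᶜ : Set ℕ) := hr.infinite_compl.to_subtype
  have hne : Nonempty ((sᶜ : Set ℕ) ≃ ((range e)ᶜ : Set ℕ)) := by
    obtain ⟨d1⟩ := nonempty_denumerable (sᶜ : Set ℕ)
    obtain ⟨d2⟩ := nonempty_denumerable ((range e)ᶜ : Set ℕ)
    exact ⟨(Denumerable.eqv _).trans (Denumerable.eqv _).symm⟩
  obtain ⟨g, hg⟩ := Cardinal.extend_function e hne
  refine ⟨g, fun i hi => ?_, fun x hx => ?_⟩
  · have := hg ⟨i, Or.inl hi⟩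
    rw [this]
    show φ i = i
    simp [φ, hi]
  · have := hg ⟨k + x, Or.inr ⟨x, hx, rfl⟩⟩
    rw [this]
    show φ (k + x) = k + f x
    simp [φ]

/-- The class of structures in the expanded language generated by a set of codes. -/
def KC (k : ℕ) (C : Set (Sp ar)) : HC (ark ar k) where
  mem := fun {D} N => ∀ (F : Finset D) (G : Finset (Yk Y ar k)), ∃ c ∈ C, ∃ f : D → ℕ,
    Set.InjOn f F ∧ ∀ s ∈ G, ∀ w : Fin (ark ar k s) → D, (∀ i, w i ∈ F) →
      (N s w ↔ toSt (res k c) s (f ∘ w))
  closed := by
    classical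
    intro D N h F G
    obtain ⟨D', N', f, hN', hf, hfN⟩ := h F G
    obtain ⟨c, hc, f', hf', hf'N⟩ := hN' (F.image f) G
    refine ⟨c, hc, f' ∘ f, ?_, fun s hs w hw => ?_⟩
    · intro x hx y hy hxy
      exact hf hx hy (hf' (Finset.mem_coe.mpr (Finset.mem_image_of_mem f hx))
        (Finset.mem_coe.mpr (Finset.mem_image_of_mem f hy)) hxy)
    · rw [hfN s hs w hw, hf'N s hs (f ∘ w) fun i => Finset.mem_image_of_mem f (hw i)]
      exact Iff.rfl

theorem KC_res {k : ℕ} {C : Set (Sp ar)} {c : Sp ar} (hc : c ∈ C) :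
    (KC k C).mem (toSt (res k c)) :=
  fun _ _ => ⟨c, hc, id, Function.injective_id.injOn, fun _ _ _ _ => Iff.rfl⟩

/-- Codes of members of `KC k C` come from members of `C`. -/
theorem exists_of_KC {k : ℕ} {C : Set (Sp ar)} (hC : IsClosed C)
    (hinv : ∀ c ∈ C, ∀ h : Equiv.Perm ℕ, (∀ i < k, h i = i) → act h c ∈ C)
    {d : Sp (ark ar k)} (hd : (KC k C).mem (toSt d)) : ∃ c ∈ C, res k c = d := by
  classical
  let M : Sp ar := fun p => d ⟨⟨p.1, patt k p.2⟩, fun j => p.2 j - k⟩
  refine ⟨M, ?_, ?_⟩
  · -- closedness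
    rw [← hC.closure_eq, mem_closure_iff_nhds]
    intro t ht
    rw [nhds_pi, Filter.mem_pi'] at ht
    obtain ⟨I, t', ht', hsub⟩ := ht
    let F : Finset ℕ := I.biUnion fun p => Finset.univ.image fun j => p.2 j - k
    let G : Finset (Yk Y ar k) := I.image fun p => ⟨p.1, patt k p.2⟩
    obtain ⟨c, hc, f, hf, hfc⟩ := hd F G
    obtain ⟨h, hh1, hh2⟩ := exists_perm_shift k F f hf
    refine ⟨act h c, hsub ?_, hinv c hc h hh1⟩
    intro p hp
    have hval : act h c p = M p := by
      have h1 := hfc ⟨p.1, patt k p.2⟩ (Finset.mem_image.mpr ⟨p, hp, rfl⟩)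
        (fun j => p.2 j - k) fun j =>
          Finset.mem_biUnion.mpr ⟨p, hp, Finset.mem_image.mpr ⟨j, Finset.mem_univ j, rfl⟩⟩
      have h2 : fill (patt k p.2) (f ∘ fun j => p.2 j - k) = h ∘ p.2 := by
        funext j
        unfold fill patt
        by_cases hj : p.2 j < k
        · simp only [hj, dite_true, Option.elim_some, Function.comp_apply]
          exact (hh1 _ hj).symm
        · simp only [hj, dite_false, Option.elim_none, Function.comp_apply]
          have h3 : p.2 j = k + (p.2 j - k) := by omega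
          have h4 := hh2 (p.2 j - k) (Finset.mem_biUnion.mpr
            ⟨p, hp, Finset.mem_image.mpr ⟨j, Finset.mem_univ j, rfl⟩⟩)
          rw [← h3] at h4
          exact h4.symm
      have h3 : (M p = true) ↔ (act h c p = true) := by
        have h4 : toSt (res k c) ⟨p.1, patt k p.2⟩ (f ∘ fun j => p.2 j - k) ↔
            act h c p = true := by
          show c ⟨p.1, fill (patt k p.2) (f ∘ fun j => p.2 j - k)⟩ = true ↔
            c ⟨p.1, h ∘ p.2⟩ = true
          rw [h2]
        exact h1.trans h4
      exact (Bool.eq_iff_iff.mpr h3).symm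
    rw [hval]
    exact mem_of_mem_nhds (ht' p)
  · funext p
    have h0 : res k M p = d ⟨p.1, fun j => fill p.1.2 p.2 j - k⟩ := by
      show d ⟨⟨p.1.1, patt k (fill p.1.2 p.2)⟩, fun j => fill p.1.2 p.2 j - k⟩ = _
      rw [patt_fill]
    rw [h0]
    let F : Finset ℕ := (Finset.univ.image fun j => fill p.1.2 p.2 j - k) ∪
      Finset.univ.image p.2
    obtain ⟨c, hc, f, hf, hfc⟩ := hd F {p.1}
    have h1 := hfc p.1 (Finset.mem_singleton_self _) (fun j => fill p.1.2 p.2 j - k) fun j =>
      Finset.mem_union_left _ (Finset.mem_image.mpr ⟨j, Finset.mem_univ j, rfl⟩)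
    have h2 := hfc p.1 (Finset.mem_singleton_self _) p.2 fun j =>
      Finset.mem_union_right _ (Finset.mem_image.mpr ⟨j, Finset.mem_univ j, rfl⟩)
    have h3 : fill p.1.2 (f ∘ fun j => fill p.1.2 p.2 j - k) = fill p.1.2 (f ∘ p.2) := by
      funext j
      unfold fill
      rcases hg : p.1.2 j with _ | i
      · simp [hg]
      · simp
    have h4 : toSt (res k c) p.1 (f ∘ fun j => fill p.1.2 p.2 j - k) ↔
        toSt (res k c) p.1 (f ∘ p.2) := by
      show c ⟨p.1.1, fill p.1.2 (f ∘ fun j => fill p.1.2 p.2 j - k)⟩ = true ↔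
        c ⟨p.1.1, fill p.1.2 (f ∘ p.2)⟩ = true
      rw [h3]
    exact Bool.eq_iff_iff.mpr (h1.trans (h4.trans h2.symm))

/-- Isomorphic expansions have isomorphic reducts. -/
theorem siso_of_res {k : ℕ} {c d : Sp ar} (h : SIso (toSt (res k c)) (toSt (res k d))) :
    SIso (toSt c) (toSt d) := by
  obtain ⟨e, he⟩ := h
  let e' : ℕ ≃ ℕ :=
    { toFun := fun n => if n < k then n else k + e (n - k)
      invFun := fun n => if n < k then n else k + e.symm (n - k)
      left_inv := fun n => by
        by_cases h : n < k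
        · simp [h]
        · simp only [h, if_false]
          have : ¬ (k + e (n - k) < k) := by omega
          simp only [this, if_false, Nat.add_sub_cancel_left, Equiv.symm_apply_apply]
          omega
      right_inv := fun n => by
        by_cases h : n < k
        · simp [h]
        · simp only [h, if_false]
          have : ¬ (k + e.symm (n - k) < k) := by omega
          simp only [this, if_false, Nat.add_sub_cancel_left, Equiv.apply_symm_apply]
          omega }
  refine ⟨e', fun s w => ?_⟩
  have h1 := he ⟨s, patt k w⟩ (fun j => w j - k)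
  have h2 : toSt (res k c) ⟨s, patt k w⟩ (fun j => w j - k) ↔ toSt c s w := by
    show c ⟨s, fill (patt k w) (fun j => w j - k)⟩ = true ↔ c ⟨s, w⟩ = true
    rw [fill_patt]
  have h3 : fill (patt k w) (e ∘ fun j => w j - k) = e' ∘ w := by
    funext j
    show (patt k w j).elim (k + e (w j - k)) (fun i => (i : ℕ)) =
      if w j < k then w j else k + e (w j - k)
    unfold patt
    by_cases h : w j < k
    · simp [h]
    · simp [h]
  have h4 : toSt (res k d) ⟨s, patt k w⟩ (e ∘ fun j => w j - k) ↔ toSt d s (e' ∘ w) := by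
    show d ⟨s, fill (patt k w) (e ∘ fun j => w j - k)⟩ = true ↔ d ⟨s, e' ∘ w⟩ = true
    rw [h3]
  exact h2.symm.trans (h1.trans h4)

/-- Isomorphisms fixing the constants are isomorphisms of the expansions. -/
theorem res_siso {k : ℕ} {c d : Sp ar} (h : Equiv.Perm ℕ) (hk : ∀ i < k, h i = i)
    (hcd : c = act h d) : SIso (toSt (res k c)) (toSt (res k d)) := by
  have hk' : ∀ i < k, h.symm i = i := fun i hi => by
    rw [Equiv.symm_apply_eq]
    exact (hk i hi).symm
  have hge : ∀ i, k ≤ i → k ≤ h i := by
    intro i hi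
    by_contra hcon
    have h1 := hk' (h i) (by omega)
    rw [Equiv.symm_apply_apply] at h1
    omega
  have hge' : ∀ i, k ≤ i → k ≤ h.symm i := by
    intro i hi
    by_contra hcon
    have h1 := hk (h.symm i) (by omega)
    rw [Equiv.apply_symm_apply] at h1
    omega
  let e : ℕ ≃ ℕ :=
    { toFun := fun n => h (k + n) - k
      invFun := fun n => h.symm (k + n) - k
      left_inv := fun n => by
        have h1 := hge (k + n) (by omega)
        have h2 : k + (h (k + n) - k) = h (k + n) := by omega
        show h.symm (k + (h (k + n) - k)) - k = n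
        rw [h2, Equiv.symm_apply_apply]
        omega
      right_inv := fun n => by
        have h1 := hge' (k + n) (by omega)
        have h2 : k + (h.symm (k + n) - k) = h.symm (k + n) := by omega
        show h (k + (h.symm (k + n) - k)) - k = n
        rw [h2, Equiv.apply_symm_apply]
        omega }
  refine ⟨e, fun s w => ?_⟩
  have h3 : fill s.2 (e ∘ w) = h ∘ fill s.2 w := by
    funext j
    show (s.2 j).elim (k + (h (k + w j) - k)) (fun i => (i : ℕ)) =
      h ((s.2 j).elim (k + w j) (fun i => (i : ℕ)))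
    rcases s.2 j with _ | i
    · show k + (h (k + w j) - k) = h (k + w j)
      have h1 := hge (k + w j) (by omega)
      omega
    · show (i : ℕ) = h i
      exact (hk i i.2).symm
  show c ⟨s.1, fill s.2 w⟩ = true ↔ d ⟨s.1, fill s.2 (e ∘ w)⟩ = true
  rw [h3, hcd]
  exact Iff.rfl

end Pool.Agent.Helper6.VU
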