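import Pool.Agent.VB.A

/-!
# Closed hereditary classes of relational structures
-/

set_option autoImplicit false

namespace Pool.Agent.Helper6.VU

open Set Filter Topology

variable {Y : Type} {ar : Y → ℕ}

/-- Relational structures with universe `D`; `ar s` is the arity of the symbol `s`. -/
abbrev St (ar : Y → ℕ) (D : Type) : Type := ∀ s : Y, (Fin (ar s) → D) → Prop

/-- A class of structures containing each structure all of whose finite pieces (in finitely many
symbols) embed in members of the class. -/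
structure HC (ar : Y → ℕ) where
  mem : ∀ {D : Type}, St ar D → Prop
  closed : ∀ {D : Type} (N : St ar D),
    (∀ (F : Finset D) (G : Finset Y), ∃ (D' : Type) (N' : St ar D') (f : D → D'),
      mem N' ∧ Set.InjOn f F ∧
      ∀ s ∈ G, ∀ w : Fin (ar s) → D, (∀ i, w i ∈ F) → (N s w ↔ N' s (f ∘ w))) → mem N

/-- Pulling back a structure. -/
def pull {X D : Type} (f : X → D) (M : St ar D) : St ar X := fun s w => M s (f ∘ w)

theorem HC.mem_pull (K : HC ar) {X D : Type} {f : X → D} (hf : Function.Injective f) {M : St ar D}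
    (hM : K.mem M) : K.mem (pull f M) :=
  K.closed _ fun _ _ => ⟨D, M, f, hM, hf.injOn, fun _ _ _ _ => Iff.rfl⟩

/-- Isomorphism. -/
def SIso {D E : Type} (M : St ar D) (N : St ar E) : Prop :=
  ∃ e : D ≃ E, ∀ s w, M s w ↔ N s (e ∘ w)

theorem SIso.refl {D : Type} (M : St ar D) : SIso M M := ⟨Equiv.refl _, fun _ _ => Iff.rfl⟩

theorem SIso.symm {D E : Type} {M : St ar D} {N : St ar E} (h : SIso M N) : SIso N M := by
  obtain ⟨e, he⟩ := h
  refine ⟨e.symm, fun s w => ?_⟩
  rw [he]
  have : e ∘ e.symm ∘ w = w := by ext; simp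
  rw [this]

theorem SIso.trans {D E F : Type} {M : St ar D} {N : St ar E} {P : St ar F} (h : SIso M N)
    (h' : SIso N P) : SIso M P := by
  obtain ⟨e, he⟩ := h
  obtain ⟨e', he'⟩ := h'
  exact ⟨e.trans e', fun s w => by rw [he, he']; exact Iff.rfl⟩

theorem HC.mem_iso (K : HC ar) {D E : Type} {M : St ar D} {N : St ar E} (h : SIso M N)
    (hM : K.mem M) : K.mem N := by
  obtain ⟨e, he⟩ := h
  have : N = pull e.symm M := by
    funext s w
    apply propext
    show N s w ↔ M s (e.symm ∘ w)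
    rw [he]
    have : e ∘ e.symm ∘ w = w := by ext; simp
    rw [this]
  rw [this]
  exact K.mem_pull e.symm.injective hM

/-- The limit of a structure along an ultrafilter on maps. -/
def ulim {X D : Type} (U : Ultrafilter (X → D)) (M : St ar D) : St ar X :=
  fun s w => ∀ᶠ h in (U : Filter (X → D)), M s (h ∘ w)

theorem HC.mem_ulim (K : HC ar) {X D : Type} (U : Ultrafilter (X → D)) {M : St ar D}
    (hM : K.mem M) (hU : ∀ x y, x ≠ y → ∀ᶠ h in (U : Filter (X → D)), h x ≠ h y) :
    K.mem (ulim U M) := by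
  classical
  refine K.closed _ fun F G => ?_
  have h1 : ∀ᶠ h in (U : Filter (X → D)), ∀ x ∈ F, ∀ y ∈ F, x ≠ y → h x ≠ h y := by
    rw [Filter.eventually_all_finset]
    intro x _
    rw [Filter.eventually_all_finset]
    intro y _
    by_cases hxy : x = y
    · exact Filter.Eventually.of_forall fun h hne => absurd hxy hne
    · exact (hU x y hxy).mono fun h hh _ => hh
  have h2 : ∀ᶠ h in (U : Filter (X → D)), ∀ s ∈ G, ∀ w : Fin (ar s) → F,
      (ulim U M s (fun i => (w i : X)) ↔ M s (h ∘ fun i => (w i : X))) := by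
    rw [Filter.eventually_all_finset]
    intro s _
    rw [Filter.eventually_all]
    intro w
    by_cases hv : ∀ᶠ h in (U : Filter (X → D)), M s (h ∘ fun i => (w i : X))
    · exact hv.mono fun h hh => ⟨fun _ => hh, fun _ => hv⟩
    · exact (Ultrafilter.eventually_not.mpr hv).mono fun h hh =>
        ⟨fun h' => absurd h' hv, fun h' => absurd h' hh⟩
  obtain ⟨h, hh1, hh2⟩ := (h1.and h2).exists
  refine ⟨D, M, h, hM, ?_, ?_⟩
  · intro x hx y hy hxy
    by_contra hne
    exact hh1 x hx y hy hne hxy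
  · intro s hs w hw
    exact hh2 s hs fun i => ⟨w i, hw i⟩

/-- Codes of structures on `ℕ`. -/
abbrev Sp (ar : Y → ℕ) : Type := ((s : Y) × (Fin (ar s) → ℕ)) → Bool

/-- The structure of a code. -/
def toSt (c : Sp ar) : St ar ℕ := fun s w => c ⟨s, w⟩ = true

/-- The code of a structure. -/
noncomputable def ofSt (M : St ar ℕ) : Sp ar := open Classical in fun p => decide (M p.1 p.2)

theorem toSt_ofSt (M : St ar ℕ) : toSt (ofSt M) = M := by
  funext s w
  apply propext
  simp [toSt, ofSt]

theorem isClopen_toSt (s : Y) (w : Fin (ar s) → ℕ) : IsClopen {c : Sp ar | toSt c s w} := by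
  have : {c : Sp ar | toSt c s w} = (fun c : Sp ar => c ⟨s, w⟩) ⁻¹' {true} := by
    ext c
    exact Iff.rfl
  rw [this]
  exact (isClopen_discrete _).preimage (continuous_apply _)

instance polishSp [Countable Y] : PolishSpace (Sp ar) :=
  { toSecondCountableTopology := inferInstance
    toIsCompletelyMetrizableSpace := inferInstance }

theorem measurableSet_toSt [Countable Y] (s : Y) (w : Fin (ar s) → ℕ) :
    MeasurableSet {c : Sp ar | toSt c s w} :=
  (isClopen_toSt s w).2.measurableSet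

theorem HC.isClosed (K : HC ar) : IsClosed {c : Sp ar | K.mem (toSt c)} := by
  classical
  rw [← isOpen_compl_iff, isOpen_iff_mem_nhds]
  intro c hc
  by_contra hcon
  apply hc
  show K.mem (toSt c)
  refine K.closed _ fun F G => ?_
  -- a neighbourhood fixing finitely many values
  let O : Set (Sp ar) := ⋂ s ∈ G, ⋂ w : Fin (ar s) → F,
    {d | d ⟨s, fun i => (w i : ℕ)⟩ = c ⟨s, fun i => (w i : ℕ)⟩}
  have hO : O ∈ 𝓝 c := by
    refine (Filter.biInter_finset_mem G).mpr fun s _ => Filter.iInter_mem.mpr fun w => ?_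
    have : IsOpen {d : Sp ar | d ⟨s, fun i => (w i : ℕ)⟩ = c ⟨s, fun i => (w i : ℕ)⟩} :=
      (isOpen_discrete {c ⟨s, fun i => (w i : ℕ)⟩}).preimage
        (continuous_apply (A := fun _ : (s : Y) × (Fin (ar s) → ℕ) => Bool) _)
    exact this.mem_nhds rfl
  have : ∃ d ∈ O, K.mem (toSt d) := by
    by_contra hcon2
    push Not at hcon2
    exact hcon (Filter.mem_of_superset hO fun d hd => hcon2 d hd)
  obtain ⟨d, hdO, hd⟩ := this
  refine ⟨ℕ, toSt d, id, hd, Function.injective_id.injOn, fun s hs w hw => ?_⟩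
  have := Set.mem_iInter.mp (Set.mem_iInter₂.mp hdO s hs) (fun i => ⟨w i, hw i⟩)
  show c ⟨s, w⟩ = true ↔ d ⟨s, w⟩ = true
  have h2 : d ⟨s, w⟩ = c ⟨s, w⟩ := this
  rw [h2]

/-- There is a perfect set of pairwise nonisomorphic elements of `K` among structures on `ℕ`. -/
def PerfS (K : Set (Sp ar)) : Prop :=
  ∃ f : (ℕ → Bool) → Sp ar, Continuous f ∧ (∀ x, f x ∈ K) ∧
    ∀ x y, SIso (toSt (f x)) (toSt (f y)) → x = y

/-- Countably many Borel invariants take uncountably many values on `K`. -/
def Wild (K : Set (Sp ar)) : Prop :=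
  ∃ (J : Type) (_ : Countable J) (Z : J → Sp ar → (ℕ → Bool)), (∀ j, Measurable (Z j)) ∧
    (∀ c d, c ∈ K → d ∈ K → SIso (toSt c) (toSt d) → ∀ j, ∃ k, Z j c = Z k d) ∧
    ¬ (⋃ j, Z j '' K).Countable

/-- Measurable properties of codes. -/
def MP (Φ : Sp ar → Prop) : Prop := MeasurableSet {c | Φ c}

theorem MP.atom [Countable Y] (s : Y) (w : Fin (ar s) → ℕ) : MP fun c : Sp ar => toSt c s w :=
  measurableSet_toSt s w

theorem MP.const (p : Prop) : MP fun _ : Sp ar => p := MeasurableSet.const _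

theorem MP.and {Φ Ψ : Sp ar → Prop} (h : MP Φ) (h' : MP Ψ) : MP fun c => Φ c ∧ Ψ c :=
  MeasurableSet.inter h h'

theorem MP.or {Φ Ψ : Sp ar → Prop} (h : MP Φ) (h' : MP Ψ) : MP fun c => Φ c ∨ Ψ c :=
  MeasurableSet.union h h'

theorem MP.not {Φ : Sp ar → Prop} (h : MP Φ) : MP fun c => ¬ Φ c := MeasurableSet.compl h

theorem MP.imp {Φ Ψ : Sp ar → Prop} (h : MP Φ) (h' : MP Ψ) : MP fun c => (Φ c → Ψ c) := by
  have := h.not.or h'
  unfold MP at *
  convert this using 1
  ext c
  simp only [mem_ofPred_eq]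
  tauto

theorem MP.iff {Φ Ψ : Sp ar → Prop} (h : MP Φ) (h' : MP Ψ) : MP fun c => (Φ c ↔ Ψ c) := by
  have := (h.imp h').and (h'.imp h)
  unfold MP at *
  convert this using 1
  ext c
  simp only [mem_ofPred_eq]
  tauto

theorem MP.all {ι : Sort*} [Countable ι] {Φ : ι → Sp ar → Prop} (h : ∀ i, MP (Φ i)) :
    MP fun c => ∀ i, Φ i c := by
  have := MeasurableSet.iInter h
  unfold MP at *
  convert this using 1
  ext c
  simp

theorem MP.ex {ι : Sort*} [Countable ι] {Φ : ι → Sp ar → Prop} (h : ∀ i, MP (Φ i)) :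
    MP fun c => ∃ i, Φ i c := by
  have := MeasurableSet.iUnion h
  unfold MP at *
  convert this using 1
  ext c
  simp

theorem MP.congr {Φ Ψ : Sp ar → Prop} (h : MP Φ) (h' : ∀ c, Φ c ↔ Ψ c) : MP Ψ := by
  have : Ψ = Φ := by funext c; exact propext (h' c).symm
  rw [this]
  exact h

/-- A map to the Cantor space given by measurable digits is measurable. -/
theorem measurable_digits (Φ : Sp ar → ℕ → Prop) (h : ∀ t, MP fun c => Φ c t) :
    Measurable (fun c : Sp ar => fun t => (open Classical in decide (Φ c t) : Bool)) := by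
  refine measurable_pi_iff.mpr fun t => ?_
  refine measurable_to_countable' fun b => ?_
  cases b
  · have := (h t).not
    unfold MP at this
    convert this using 1
    ext c
    simp
  · have := h t
    unfold MP at this
    convert this using 1
    ext c
    simp

theorem uncountable_zero_mem : ¬ ({x : ℕ → Bool | x 0 = true}).Countable := by
  intro h
  have h2 : ((fun y : ℕ → Bool => fun n => y (n + 1)) '' {x : ℕ → Bool | x 0 = true}).Countable :=
    h.image _
  have h3 : (fun y : ℕ → Bool => fun n => y (n + 1)) '' {x : ℕ → Bool | x 0 = true} = univ := by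
    ext x
    simp only [mem_image, mem_ofPred_eq, mem_univ, iff_true]
    exact ⟨fun n => Nat.casesOn n true x, rfl, rfl⟩
  rw [h3] at h2
  have h4 : Countable (ℕ → Bool) := Set.countable_univ_iff.mp h2
  obtain ⟨f, hf⟩ := exists_surjective_nat (ℕ → Bool)
  obtain ⟨n, hn⟩ := hf fun n => !(f n n)
  have := congrFun hn n
  simp at this

/-- **Decoding tool.** -/
theorem wild_of_decode (K : HC ar) (r : ℕ)
    (Φ : ∀ {E : Type}, St ar E → (Fin r → E) → ℕ → Prop)
    (hinv : ∀ {E E' : Type} (e : E ≃ E') (N : St ar E) (N' : St ar E'),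
      (∀ s w, N s w ↔ N' s (e ∘ w)) → ∀ a t, Φ N a t → Φ N' (e ∘ a) t)
    (hmeas : ∀ (a : Fin r → ℕ) t, MP fun c : Sp ar => Φ (toSt c) a t)
    (hfam : ∀ S : Set ℕ, 0 ∈ S → ∃ (E : Type) (_ : Countable E) (_ : Infinite E) (N : St ar E)
      (a : Fin r → E), K.mem N ∧ ∀ t, Φ N a t ↔ t ∈ S) :
    Wild {c : Sp ar | K.mem (toSt c)} := by
  classical
  have hinv' : ∀ {E E' : Type} (e : E ≃ E') (N : St ar E) (N' : St ar E'),
      (∀ s w, N s w ↔ N' s (e ∘ w)) → ∀ a t, Φ N a t ↔ Φ N' (e ∘ a) t := by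
    intro E E' e N N' h a t
    refine ⟨hinv e N N' h a t, fun h' => ?_⟩
    have := hinv e.symm N' N (fun s w => by
      rw [h]
      have : e ∘ e.symm ∘ w = w := by ext; simp
      rw [this]) (e ∘ a) t h'
    have h2 : e.symm ∘ e ∘ a = a := by ext; simp
    rwa [h2] at this
  refine ⟨Fin r → ℕ, inferInstance, fun a c t => decide (Φ (toSt c) a t), fun a => ?_, ?_, ?_⟩
  · exact measurable_digits (fun c t => Φ (toSt c) a t) (hmeas a)
  · rintro c d hc hd ⟨e, he⟩ a
    refine ⟨e ∘ a, ?_⟩
    funext t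
    simp only [decide_eq_decide]
    exact hinv' e _ _ he a t
  · intro hcount
    refine uncountable_zero_mem (hcount.mono fun x hx => ?_)
    obtain ⟨E, hE1, hE2, N, a, hN, hNt⟩ := hfam {t | x t = true} hx
    obtain ⟨hden⟩ := nonempty_denumerable E
    let e : E ≃ ℕ := Denumerable.eqv E
    let c : Sp ar := ofSt (pull e.symm N)
    have hiso : ∀ s w, N s w ↔ toSt c s (e ∘ w) := by
      intro s w
      rw [toSt_ofSt]
      show N s w ↔ N s (e.symm ∘ e ∘ w)
      have : e.symm ∘ e ∘ w = w := by ext; simp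
      rw [this]
    have hcK : K.mem (toSt c) := K.mem_iso ⟨e, hiso⟩ hN
    refine mem_iUnion.mpr ⟨e ∘ a, c, hcK, ?_⟩
    funext t
    have h1 := hinv' e N (toSt c) hiso a t
    rw [hNt t] at h1
    by_cases hxt : x t = true
    · rw [hxt]
      simp only [decide_eq_true_eq]
      exact h1.mp hxt
    · have : ¬ Φ (toSt c) (e ∘ a) t := fun h => hxt (h1.mpr h)
      simp only [this, decide_false]
      simpa using (Bool.eq_false_of_not_eq_true hxt).symm

end Pool.Agent.Helper6.VU
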