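import Pool.Agent.Helper6.V19Res
import Pool.Agent.VB.A

/-!
# Invariant countable unions of closed sets
-/

set_option autoImplicit false

namespace Pool.Agent.Helper6.VU

open Set Filter Topology

variable {Y : Type} {ar : Y → ℕ}

/-- Codes whose images under the stabilizer of `0, …, k-1` remain in `F`. -/
def stab (k : ℕ) (F : Set (Sp ar)) : Set (Sp ar) :=
  {c | ∀ h : Equiv.Perm ℕ, (∀ i < k, h i = i) → act h c ∈ F}

theorem stab_isClosed (k : ℕ) {F : Set (Sp ar)} (hF : IsClosed F) : IsClosed (stab k F) := by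
  have : stab k F = ⋂ (h : Equiv.Perm ℕ) (_ : ∀ i < k, h i = i), act h ⁻¹' F := by
    ext c
    simp [stab]
  rw [this]
  exact isClosed_iInter fun h => isClosed_iInter fun _ => hF.preimage (continuous_act h)

theorem stab_sub (k : ℕ) {F : Set (Sp ar)} : stab k F ⊆ F := fun c hc => by
  have := hc 1 fun _ _ => rfl
  exact this

theorem stab_inv (k : ℕ) {F : Set (Sp ar)} :
    ∀ c ∈ stab k F, ∀ h : Equiv.Perm ℕ, (∀ i < k, h i = i) → act h c ∈ stab k F := by
  intro c hc h hh h' hh'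
  have := hc (h * h') fun i hi => by
    show h (h' i) = i
    rw [hh' i hi, hh i hi]
  exact this

/-- The space of permutations together with their inverses. -/
abbrev PS : Set ((ℕ → ℕ) × (ℕ → ℕ)) := {q | (∀ i, q.1 (q.2 i) = i) ∧ ∀ i, q.2 (q.1 i) = i}

theorem isClosed_PS : IsClosed PS := by
  have h1 : ∀ i : ℕ, IsClosed {q : (ℕ → ℕ) × (ℕ → ℕ) | q.1 (q.2 i) = i} := by
    intro i
    have hc : Continuous fun q : (ℕ → ℕ) × (ℕ → ℕ) => q.1 (q.2 i) := by
      rw [continuous_discrete_rng]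
      intro b
      have : (fun q : (ℕ → ℕ) × (ℕ → ℕ) => q.1 (q.2 i)) ⁻¹' {b} =
          ⋃ a : ℕ, {q | q.2 i = a} ∩ {q | q.1 a = b} := by
        ext q
        simp
      rw [this]
      refine isOpen_iUnion fun a => IsOpen.inter ?_ ?_
      · exact (isOpen_discrete {a}).preimage
          ((continuous_apply i).comp (continuous_snd : Continuous (Prod.snd :
            (ℕ → ℕ) × (ℕ → ℕ) → (ℕ → ℕ))))
      · exact (isOpen_discrete {b}).preimage
          ((continuous_apply a).comp (continuous_fst : Continuous (Prod.fst :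
            (ℕ → ℕ) × (ℕ → ℕ) → (ℕ → ℕ))))
    exact isClosed_eq hc continuous_const
  have h2 : ∀ i : ℕ, IsClosed {q : (ℕ → ℕ) × (ℕ → ℕ) | q.2 (q.1 i) = i} := by
    intro i
    exact (h1 i).preimage (continuous_swap : Continuous (Prod.swap :
      (ℕ → ℕ) × (ℕ → ℕ) → (ℕ → ℕ) × (ℕ → ℕ)))
  have : PS = (⋂ i, {q : (ℕ → ℕ) × (ℕ → ℕ) | q.1 (q.2 i) = i}) ∩
      ⋂ i, {q : (ℕ → ℕ) × (ℕ → ℕ) | q.2 (q.1 i) = i} := by
    ext q
    simp
  rw [this]
  exact (isClosed_iInter h1).inter (isClosed_iInter h2)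

/-- **Baire category step.** -/
theorem exists_stab {F : ℕ → Set (Sp ar)} (hF : ∀ n, IsClosed (F n)) {c : Sp ar}
    (hc : ∀ g : Equiv.Perm ℕ, act g c ∈ ⋃ n, F n) :
    ∃ n k, ∃ g : Equiv.Perm ℕ, act g c ∈ stab k (F n) := by
  classical
  have hP : PolishSpace PS := isClosed_PS.polishSpace
  have hB : BaireSpace PS := by
    let _ := TopologicalSpace.upgradeIsCompletelyMetrizable PS
    infer_instance
  have hne : Nonempty PS := ⟨⟨(id, id), fun _ => rfl, fun _ => rfl⟩⟩
  have hcont : Continuous fun q : PS => act q.1.1 c := by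
    refine continuous_pi fun p => ?_
    have h1 : Continuous fun q : PS => (fun j => q.1.1 (p.2 j) : Fin (ar p.1) → ℕ) :=
      continuous_pi fun j => (continuous_apply (p.2 j)).comp
        (continuous_fst.comp continuous_subtype_val)
    exact (continuous_of_discreteTopology (f := fun w : Fin (ar p.1) → ℕ => c ⟨p.1, w⟩)).comp h1
  obtain ⟨n, hn⟩ := nonempty_interior_of_iUnion_of_closed
    (f := fun n => {q : PS | act q.1.1 c ∈ F n}) (fun n => (hF n).preimage hcont) (by
      ext q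
      simp only [mem_iUnion, mem_univ, iff_true]
      let g : Equiv.Perm ℕ := ⟨q.1.1, q.1.2, q.2.2, q.2.1⟩
      obtain ⟨n, hn⟩ := mem_iUnion.mp (hc g)
      exact ⟨n, hn⟩)
  obtain ⟨q0, hq0⟩ := hn
  have hopen : IsOpen (interior {q : PS | act q.1.1 c ∈ F n}) := isOpen_interior
  rw [isOpen_induced_iff] at hopen
  obtain ⟨O, hO, hOe⟩ := hopen
  have hq0O : q0.1 ∈ O := by
    have : q0 ∈ Subtype.val ⁻¹' O := by rw [hOe]; exact hq0
    exact this
  obtain ⟨A, B, hA, hB', hqA, hqB, hAB⟩ := isOpen_prod_iff.mp hO q0.1.1 q0.1.2 hq0O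
  have hcyl : ∀ {A : Set (ℕ → ℕ)} {x : ℕ → ℕ}, IsOpen A → x ∈ A → ∃ m, PiNat.cylinder x m ⊆ A := by
    intro A x hA hx
    obtain ⟨v, ⟨y, m, rfl⟩, hx1, hx2⟩ :=
      (PiNat.isTopologicalBasis_cylinders (fun _ : ℕ => ℕ)).mem_nhds_iff.mp (hA.mem_nhds hx)
    exact ⟨m, by rwa [PiNat.mem_cylinder_iff_eq.mp hx1]⟩
  obtain ⟨m1, hm1⟩ := hcyl hA hqA
  obtain ⟨m2, hm2⟩ := hcyl hB' hqB
  let g : Equiv.Perm ℕ := ⟨q0.1.1, q0.1.2, q0.2.2, q0.2.1⟩
  let k : ℕ := m1 + (Finset.range m2).sup fun i => q0.1.2 i + 1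
  refine ⟨n, k, g, fun h hh => ?_⟩
  have hh' : ∀ i < k, h.symm i = i := fun i hi => by
    rw [Equiv.symm_apply_eq]
    exact (hh i hi).symm
  let gh : PS := ⟨((g ∘ h : ℕ → ℕ), (h.symm ∘ g.symm : ℕ → ℕ)), fun i => by simp, fun i => by
    simp⟩
  have hgh : gh ∈ interior {q : PS | act q.1.1 c ∈ F n} := by
    rw [← hOe]
    show gh.1 ∈ O
    apply hAB
    refine ⟨hm1 ?_, hm2 ?_⟩
    · rw [PiNat.mem_cylinder_iff]
      intro i hi
      show q0.1.1 (h i) = q0.1.1 i
      rw [hh i (by omega)]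
    · rw [PiNat.mem_cylinder_iff]
      intro i hi
      show h.symm (q0.1.2 i) = q0.1.2 i
      apply hh'
      have : q0.1.2 i + 1 ≤ (Finset.range m2).sup fun i => q0.1.2 i + 1 :=
        Finset.le_sup (f := fun i => q0.1.2 i + 1) (Finset.mem_range.mpr hi)
      omega
  have := interior_subset hgh
  exact this

/-- An injective tuple extends to a permutation. -/
theorem exists_perm_tuple {k : ℕ} (a : Fin k → ℕ) (ha : Function.Injective a) :
    ∃ g : Equiv.Perm ℕ, ∀ i : Fin k, g i = a i := by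
  classical
  let s : Set ℕ := {i | i < k}
  have hs : s.Finite := Set.finite_lt_nat k
  let e : s ↪ ℕ := ⟨fun x => a ⟨x.1, x.2⟩, fun x y hxy => by
    have := ha hxy
    simp only [Fin.mk.injEq] at this
    exact Subtype.ext this⟩
  have hinf1 : Infinite (sᶜ : Set ℕ) := hs.infinite_compl.to_subtype
  have hr : (range e).Finite := by
    have := hs.to_subtype
    exact Set.finite_range e
  have hinf2 : Infinite ((range e)ᶜ : Set ℕ) := hr.infinite_compl.to_subtype
  have hne : Nonempty ((sᶜ : Set ℕ) ≃ ((range e)ᶜ : Set ℕ)) := by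
    obtain ⟨d1⟩ := nonempty_denumerable (sᶜ : Set ℕ)
    obtain ⟨d2⟩ := nonempty_denumerable ((range e)ᶜ : Set ℕ)
    exact ⟨(Denumerable.eqv _).trans (Denumerable.eqv _).symm⟩
  obtain ⟨g, hg⟩ := Cardinal.extend_function e hne
  exact ⟨g, fun i => hg ⟨i, i.2⟩⟩

/-- Transfer of invariants from the expanded language. -/
theorem wild_of_res [Countable Y] {A : Set (Sp ar)} {k : ℕ} {C : Set (Sp ar)}
    (hC : IsClosed C) (hCA : C ⊆ A)
    (hinv : ∀ c ∈ C, ∀ h : Equiv.Perm ℕ, (∀ i < k, h i = i) → act h c ∈ C)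
    (hW : Wild {c : Sp (ark ar k) | (KC k C).mem (toSt c)}) : Wild A := by
  classical
  obtain ⟨J, hJ, Z, hZ, hE, hunc⟩ := hW
  have hsel : ∀ a : {a : Fin k → ℕ // Function.Injective a}, ∃ g : Equiv.Perm ℕ,
      ∀ i : Fin k, g i = a.1 i := fun a => exists_perm_tuple a.1 a.2
  choose g hg using hsel
  let Z' : J × {a : Fin k → ℕ // Function.Injective a} → Sp ar → (ℕ → Bool) := fun j c =>
    if act (g j.2) c ∈ C then Z j.1 (res k (act (g j.2) c)) else fun _ => false
  refine ⟨J × {a : Fin k → ℕ // Function.Injective a}, inferInstance, Z', ?_, ?_, ?_⟩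
  · rintro ⟨j, a⟩
    refine Measurable.ite ?_ ?_ measurable_const
    · exact (continuous_act (g a)).measurable hC.measurableSet
    · exact (hZ j).comp ((continuous_res k).measurable.comp (continuous_act (g a)).measurable)
  · rintro c d hc hd ⟨e, he⟩ ⟨j, a⟩
    let a' : {a : Fin k → ℕ // Function.Injective a} := ⟨e ∘ a.1, e.injective.comp a.2⟩
    let h : Equiv.Perm ℕ := (g a).trans (e.trans (g a').symm)
    have hh : ∀ i < k, h i = i := by
      intro i hi
      show (g a').symm (e (g a i)) = i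
      rw [Equiv.symm_apply_eq, hg a ⟨i, hi⟩, hg a' ⟨i, hi⟩]
      rfl
    have hh' : ∀ i < k, h.symm i = i := fun i hi => by
      rw [Equiv.symm_apply_eq]
      exact (hh i hi).symm
    have h1 : act (g a) c = act h (act (g a') d) := by
      funext p
      have h2 := he p.1 (g a ∘ p.2)
      have h3 : (g a' ∘ h ∘ p.2 : Fin (ar p.1) → ℕ) = e ∘ (g a) ∘ p.2 := by
        funext j
        show g a' ((g a').symm (e (g a (p.2 j)))) = e (g a (p.2 j))
        rw [Equiv.apply_symm_apply]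
      show c ⟨p.1, g a ∘ p.2⟩ = d ⟨p.1, g a' ∘ h ∘ p.2⟩
      rw [h3]
      exact Bool.eq_iff_iff.mpr h2
    have h4 : act (g a') d = act h.symm (act (g a) c) := by
      rw [h1]
      funext p
      show act (g a') d p = act (g a') d ⟨p.1, h ∘ h.symm ∘ p.2⟩
      have : (h ∘ h.symm ∘ p.2 : Fin (ar p.1) → ℕ) = p.2 := by
        funext j
        simp
      rw [this]
    by_cases hcase : act (g a) c ∈ C
    · have hcase' : act (g a') d ∈ C := by
        rw [h4]
        exact hinv _ hcase _ hh'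
      obtain ⟨j', hj'⟩ := hE (res k (act (g a) c)) (res k (act (g a') d)) (KC_res hcase)
        (KC_res hcase') (res_siso h hh h1) j
      refine ⟨⟨j', a'⟩, ?_⟩
      show (if act (g a) c ∈ C then Z j (res k (act (g a) c)) else fun _ => false) =
        if act (g a') d ∈ C then Z j' (res k (act (g a') d)) else fun _ => false
      rw [if_pos hcase, if_pos hcase', hj']
    · have hcase' : act (g a') d ∉ C := by
        intro h5
        apply hcase
        rw [h1]
        exact hinv _ h5 _ hh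
      refine ⟨⟨j, a'⟩, ?_⟩
      show (if act (g a) c ∈ C then Z j (res k (act (g a) c)) else fun _ => false) =
        if act (g a') d ∈ C then Z j (res k (act (g a') d)) else fun _ => false
      rw [if_neg hcase, if_neg hcase']
  · intro hcount
    apply hunc
    refine hcount.mono ?_
    intro z hz
    obtain ⟨j, c', hc', rfl⟩ := mem_iUnion.mp hz
    obtain ⟨c, hc, rfl⟩ := exists_of_KC hC hinv hc'
    let a : {a : Fin k → ℕ // Function.Injective a} := ⟨fun i => i, Fin.val_injective⟩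
    have hga : ∀ i < k, (g a).symm i = i := fun i hi => by
      rw [Equiv.symm_apply_eq]
      exact (hg a ⟨i, hi⟩).symm
    have h1 : act (g a) (act (g a).symm c) = c := by
      funext p
      show c ⟨p.1, (g a).symm ∘ g a ∘ p.2⟩ = c p
      have : ((g a).symm ∘ g a ∘ p.2 : Fin (ar p.1) → ℕ) = p.2 := by
        funext j
        simp
      rw [this]
    refine mem_iUnion.mpr ⟨⟨j, a⟩, act (g a).symm c, hCA (hinv c hc _ hga), ?_⟩
    show (if act (g a) (act (g a).symm c) ∈ C then Z j (res k (act (g a) (act (g a).symm c)))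
      else fun _ => false) = Z j (res k c)
    rw [h1, if_pos hc]

/-- **Dichotomy for invariant countable unions of closed sets.** -/
theorem fs_dichotomy [Countable Y] (A : Set (Sp ar)) (F : ℕ → Set (Sp ar))
    (hF : ∀ n, IsClosed (F n)) (hA : A = ⋃ n, F n)
    (hinv : ∀ c d, c ∈ A → SIso (toSt c) (toSt d) → d ∈ A) :
    Wild A ∨ ∃ S : Set (Sp ar), S.Countable ∧ ∀ c ∈ A, ∃ d ∈ S, SIso (toSt c) (toSt d) := by
  classical
  by_cases hW : Wild A
  · exact Or.inl hW
  right
  have hdich : ∀ n k, ∃ S : Set (Sp ar), S.Countable ∧ ∀ c ∈ stab k (F n), ∃ d ∈ S,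
      SIso (toSt c) (toSt d) := by
    intro n k
    have hcl := stab_isClosed k (hF n)
    have hst := stab_inv k (F := F n)
    rcases hc_dichotomy (KC k (stab k (F n))) with hwild | ⟨S, hS, hSK, hSiso⟩
    · exact absurd (wild_of_res hcl ((stab_sub k).trans (by rw [hA]; exact subset_iUnion F n))
        hst hwild) hW
    · have hex : ∀ c' : S, ∃ c ∈ stab k (F n), res k c = c'.1 := fun c' =>
        exists_of_KC hcl hst (hSK c'.1 c'.2)
      choose r hr1 hr2 using hex
      have hSc : Countable S := hS.to_subtype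
      refine ⟨range r, countable_range r, fun c hc => ?_⟩
      obtain ⟨d, hd, hcd⟩ := hSiso (res k c) (KC_res hc)
      refine ⟨r ⟨d, hd⟩, ⟨_, rfl⟩, siso_of_res (k := k) ?_⟩
      rw [hr2]
      exact hcd
  choose S hS1 hS2 using hdich
  refine ⟨⋃ n, ⋃ k, S n k, countable_iUnion fun n => countable_iUnion fun k => hS1 n k, ?_⟩
  intro c hc
  have hcA : ∀ g : Equiv.Perm ℕ, act g c ∈ ⋃ n, F n := by
    intro g
    rw [← hA]
    exact hinv c _ hc (siso_act g c).symm
  obtain ⟨n, k, g, hg⟩ := exists_stab hF hcA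
  obtain ⟨d, hd, hcd⟩ := hS2 n k (act g c) hg
  exact ⟨d, mem_iUnion.mpr ⟨n, mem_iUnion.mpr ⟨k, hd⟩⟩, (siso_act g c).symm.trans hcd⟩

/-- **Perfect set theorem for invariant countable unions of closed sets.** -/
theorem fs_perfect [Countable Y] (A : Set (Sp ar)) (F : ℕ → Set (Sp ar))
    (hF : ∀ n, IsClosed (F n)) (hA : A = ⋃ n, F n)
    (hinv : ∀ c d, c ∈ A → SIso (toSt c) (toSt d) → d ∈ A) :
    PerfS A ∨ ∃ S : Set (Sp ar), S.Countable ∧ ∀ c ∈ A, ∃ d ∈ S, SIso (toSt c) (toSt d) := by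
  rcases fs_dichotomy A F hF hA hinv with ⟨J, hJ, Z, hZ, hE, hunc⟩ | h
  · left
    have hAm : MeasurableSet A := by
      rw [hA]
      exact MeasurableSet.iUnion fun n => (hF n).measurableSet
    obtain ⟨j, f, hf, hfA, hfi⟩ := exists_cantor_of_reals hZ (B := fun _ => A) (fun _ => hAm)
      (fun c d => SIso (toSt c) (toSt d))
      (fun j k x hx y hy hxy => hE x y hx hy hxy j) hunc
    refine ⟨f, hf, hfA, fun x y hxy => ?_⟩
    by_contra hne
    exact hfi x y hne hxy
  · exact Or.inr h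

end Pool.Agent.Helper6.VU
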