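import Pool.Agent.Helper6.V1Base
import Pool.Agent.Helper6.StructFO

/-!
# First-order structures and codes
-/

set_option autoImplicit false

namespace Pool.Agent.Helper6.VU

open Set Filter Topology

variable {L : FirstOrder.Language.{0, 0}}

/-- The symbols. -/
abbrev YL (L : FirstOrder.Language.{0, 0}) : Type := (n : ℕ) × L.Relations n

/-- The arities. -/
abbrev arL (L : FirstOrder.Language.{0, 0}) : YL L → ℕ := Sigma.fst

/-- The first-order structure of a code. -/
@[instance_reducible]
def toL [∀ n, IsEmpty (L.Functions n)] (c : Sp (arL L)) : L.Structure ℕ :=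
  { funMap := fun f _ => isEmptyElim f
    RelMap := fun {n} R v => c ⟨⟨n, R⟩, v⟩ = true }

/-- The code of a first-order structure. -/
noncomputable def ofL (S : L.Structure ℕ) : Sp (arL L) :=
  open Classical in fun p => decide (S.RelMap p.1.2 p.2)

theorem toL_ofL [∀ n, IsEmpty (L.Functions n)] (S : L.Structure ℕ) : toL (ofL S) = S := by
  apply FirstOrder.Language.Structure.ext
  · funext n f
    exact isEmptyElim f
  · funext n R v
    apply propext
    change (ofL S ⟨⟨n, R⟩, v⟩ = true) ↔ _
    simp [ofL]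

theorem siso_iff [∀ n, IsEmpty (L.Functions n)] (c d : Sp (arL L)) :
    SIso (toSt c) (toSt d) ↔ Nonempty (@FirstOrder.Language.Equiv L ℕ ℕ (toL c) (toL d)) := by
  rw [Str.nonempty_equiv_iff]
  constructor
  · rintro ⟨e, he⟩
    exact ⟨e, fun n R v => he ⟨n, R⟩ v⟩
  · rintro ⟨e, he⟩
    exact ⟨e, fun s w => he s.1 s.2 w⟩

/-- Quantifier-free formulas depend on finitely many atomic facts. -/
theorem qf_support [∀ n, IsEmpty (L.Functions n)] {α : Type} {n : ℕ} {φ : L.BoundedFormula α n}
    (h : φ.IsQF) (v : α → ℕ) (xs : Fin n → ℕ) :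
    ∃ G : Finset ((n : ℕ) × (L.Relations n × (Fin n → ℕ))), ∀ S S' : L.Structure ℕ,
      (∀ p ∈ G, (S.RelMap p.2.1 p.2.2 ↔ S'.RelMap p.2.1 p.2.2)) →
      (@FirstOrder.Language.BoundedFormula.Realize L ℕ S α n φ v xs ↔
        @FirstOrder.Language.BoundedFormula.Realize L ℕ S' α n φ v xs) := by
  classical
  induction h with
  | falsum => exact ⟨∅, fun S S' _ => Iff.rfl⟩
  | of_isAtomic h =>
    cases h with
    | equal t₁ t₂ =>
      refine ⟨∅, fun S S' _ => ?_⟩
      show @FirstOrder.Language.Term.realize L ℕ S _ _ t₁ =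
        @FirstOrder.Language.Term.realize L ℕ S _ _ t₂ ↔
        @FirstOrder.Language.Term.realize L ℕ S' _ _ t₁ =
        @FirstOrder.Language.Term.realize L ℕ S' _ _ t₂
      rw [Str.realize_term_congr S S', Str.realize_term_congr S S']
    | @rel l R ts =>
      refine ⟨{⟨l, R, fun i => @FirstOrder.Language.Term.realize L ℕ (toL fun _ => false) _
        (Sum.elim v xs) (ts i)⟩}, fun S S' hG => ?_⟩
      have h1 := hG _ (Finset.mem_singleton_self _)
      have h2 : ∀ S : L.Structure ℕ, (fun i => @FirstOrder.Language.Term.realize L ℕ S _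
          (Sum.elim v xs) (ts i)) = fun i =>
          @FirstOrder.Language.Term.realize L ℕ (toL fun _ => false) _ (Sum.elim v xs) (ts i) :=
        fun S => funext fun i => Str.realize_term_congr _ _ _ _
      show S.RelMap R (fun i => @FirstOrder.Language.Term.realize L ℕ S _ _ (ts i)) ↔
        S'.RelMap R (fun i => @FirstOrder.Language.Term.realize L ℕ S' _ _ (ts i))
      rw [h2 S, h2 S']
      exact h1
  | imp h₁ h₂ ih₁ ih₂ =>
    obtain ⟨G₁, hG₁⟩ := ih₁
    obtain ⟨G₂, hG₂⟩ := ih₂
    refine ⟨G₁ ∪ G₂, fun S S' hG => ?_⟩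
    have h1 := hG₁ S S' fun p hp => hG p (Finset.mem_union_left _ hp)
    have h2 := hG₂ S S' fun p hp => hG p (Finset.mem_union_right _ hp)
    simp only [FirstOrder.Language.BoundedFormula.realize_imp]
    rw [h1, h2]

/-- Universal formulas fail for reasons given by finitely many atomic facts. -/
theorem univ_support [∀ n, IsEmpty (L.Functions n)] {α : Type} {n : ℕ} {φ : L.BoundedFormula α n}
    (h : φ.IsUniversal) (v : α → ℕ) (xs : Fin n → ℕ) (S : L.Structure ℕ)
    (hS : ¬ @FirstOrder.Language.BoundedFormula.Realize L ℕ S α n φ v xs) :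
    ∃ G : Finset ((n : ℕ) × (L.Relations n × (Fin n → ℕ))), ∀ S' : L.Structure ℕ,
      (∀ p ∈ G, (S.RelMap p.2.1 p.2.2 ↔ S'.RelMap p.2.1 p.2.2)) →
      ¬ @FirstOrder.Language.BoundedFormula.Realize L ℕ S' α n φ v xs := by
  induction h with
  | of_isQF h =>
    obtain ⟨G, hG⟩ := qf_support h v xs
    exact ⟨G, fun S' h' => by rwa [← hG S S' h']⟩
  | all h ih =>
    rw [FirstOrder.Language.BoundedFormula.realize_all] at hS
    push Not at hS
    obtain ⟨a, ha⟩ := hS
    obtain ⟨G, hG⟩ := ih (Fin.snoc xs a) ha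
    refine ⟨G, fun S' h' h'' => hG S' h' ?_⟩
    rw [FirstOrder.Language.BoundedFormula.realize_all] at h''
    exact h'' a

end Pool.Agent.Helper6.VU
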