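import Pool.Agent.Helper6.V18Dich

/-!
# Locally closed classes: free sets and types
-/

set_option autoImplicit false

namespace Pool.Agent.Helper6.VU

open Set Filter Topology

variable {Y : Type} {ar : Y → ℕ}

/-- A class of structures containing each structure all of whose finite restrictions embed in
members of the class. -/
structure LC (ar : Y → ℕ) where
  mem : ∀ {D : Type}, St ar D → Prop
  closed : ∀ {D : Type} (N : St ar D),
    (∀ F : Finset D, ∃ (D' : Type) (N' : St ar D') (f : D → D'),
      mem N' ∧ Set.InjOn f F ∧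
      ∀ (s : Y) (w : Fin (ar s) → D), (∀ i, w i ∈ F) → (N s w ↔ N' s (f ∘ w))) → mem N

theorem LC.mem_pull (K : LC ar) {X D : Type} {f : X → D} (hf : Function.Injective f) {M : St ar D}
    (hM : K.mem M) : K.mem (pull f M) :=
  K.closed _ fun _ => ⟨D, M, f, hM, hf.injOn, fun _ _ _ => Iff.rfl⟩

theorem LC.mem_iso (K : LC ar) {D E : Type} {M : St ar D} {N : St ar E} (h : SIso M N)
    (hM : K.mem M) : K.mem N := by
  obtain ⟨e, he⟩ := h
  have : N = pull e.symm M := by
    funext s w
    apply propext
    show N s w ↔ M s (e.symm ∘ w)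
    rw [he]
    have : e ∘ e.symm ∘ w = w := by ext; simp
    rw [this]
  rw [this]
  exact K.mem_pull e.symm.injective hM

/-! ### A free set theorem -/

/-- **Free set theorem**: for a map `J` from finite sets of indices to sets of at most `b` indices
there is an infinite set `H` such that `J I` meets `H` only in points of `I`, for all `I ⊆ H` with
at most `n` elements. -/
theorem exists_free (n b : ℕ) (J : Finset ℕ → Finset ℕ) (hJ : ∀ I, (J I).card ≤ b) :
    ∃ H : Set ℕ, H.Infinite ∧ ∀ I : Finset ℕ, (I : Set ℕ) ⊆ H → I.card ≤ n →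
      ∀ j ∈ J I, j ∈ H → j ∈ I := by
  classical
  let U : Ultrafilter ℕ := hyperfilter ℕ
  -- iterated limits
  let L : ℕ → (Finset ℕ → Set ℕ) := fun k => Nat.rec (fun I => {j | j ∈ J I})
    (fun _ R I => {j | ∀ᶠ h in (U : Filter ℕ), j ∈ R (insert h I)}) k
  have hL0 : ∀ I, L 0 I = {j | j ∈ J I} := fun _ => rfl
  have hLs : ∀ k I, L (k + 1) I = {j | ∀ᶠ h in (U : Filter ℕ), j ∈ L k (insert h I)} :=
    fun _ _ => rfl
  have hLc : ∀ k I, ∀ T : Finset ℕ, (T : Set ℕ) ⊆ L k I → T.card ≤ b := by
    intro k
    induction k with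
    | zero =>
      intro I T hT
      rw [hL0] at hT
      exact (Finset.card_le_card fun x hx => hT hx).trans (hJ I)
    | succ k ih =>
      intro I T hT
      rw [hLs] at hT
      have h1 : ∀ᶠ h in (U : Filter ℕ), ∀ j ∈ T, j ∈ L k (insert h I) := by
        rw [Filter.eventually_all_finset]
        exact fun j hj => hT hj
      obtain ⟨h, hh⟩ := h1.exists
      exact ih _ T fun j hj => hh j hj
  have hLf : ∀ k I, (L k I).Finite := by
    intro k I
    by_contra hcon
    obtain ⟨T, hT, hTc⟩ := (show (L k I).Infinite from hcon).exists_subset_card_eq (b + 1)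
    have := hLc k I T hT
    omega
  -- good finite sets
  let Gd : Finset ℕ → Prop := fun H => ∀ I ⊆ H, ∀ k, I.card + k ≤ n → ∀ j ∈ H, j ∉ I → j ∉ L k I
  have hstep : ∀ H : Finset ℕ, Gd H → ∀ m : ℕ, ∃ h, m < h ∧ h ∉ H ∧ Gd (insert h H) := by
    intro H hH m
    have h1 : ∀ᶠ h in (U : Filter ℕ), m < h ∧ h ∉ H := by
      refine Filter.Eventually.and ?_ ?_
      · have h0 : (U : Filter ℕ) ≤ atTop :=
          Filter.hyperfilter_le_cofinite.trans Nat.cofinite_eq_atTop.le
        exact h0 (Filter.eventually_gt_atTop m)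
      · have : (H : Set ℕ)ᶜ ∈ (U : Filter ℕ) :=
          H.finite_toSet.compl_mem_hyperfilter
        exact this
    have h2 : ∀ᶠ h in (U : Filter ℕ), ∀ I ∈ H.powerset, ∀ k ∈ Finset.range (n + 1),
        h ∉ L k I := by
      rw [Filter.eventually_all_finset]
      intro I _
      rw [Filter.eventually_all_finset]
      intro k _
      exact (hLf k I).compl_mem_hyperfilter
    have h3 : ∀ᶠ h in (U : Filter ℕ), ∀ I ∈ H.powerset, ∀ k ∈ Finset.range (n + 1),
        ∀ j ∈ H, (j ∉ L (k + 1) I → j ∉ L k (insert h I)) := by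
      rw [Filter.eventually_all_finset]
      intro I _
      rw [Filter.eventually_all_finset]
      intro k _
      rw [Filter.eventually_all_finset]
      intro j _
      by_cases hj : j ∈ L (k + 1) I
      · exact Filter.Eventually.of_forall fun h h' => absurd hj h'
      · have : ¬ ∀ᶠ h in (U : Filter ℕ), j ∈ L k (insert h I) := by
          rw [hLs] at hj
          exact hj
        exact (Ultrafilter.eventually_not.mpr this).mono fun h hh _ => hh
    obtain ⟨h, ⟨⟨hm, hhH⟩, hh2⟩, hh3⟩ := ((h1.and h2).and h3).exists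
    refine ⟨h, hm, hhH, ?_⟩
    intro I hI k hk j hj hjI
    by_cases hhI : h ∈ I
    · -- `I = insert h I'`
      let I' := I.erase h
      have hI' : I' ⊆ H := by
        intro x hx
        have h4 := Finset.mem_erase.mp hx
        rcases Finset.mem_insert.mp (hI h4.2) with h5 | h5
        · exact absurd h5 h4.1
        · exact h5
      have hII : insert h I' = I := Finset.insert_erase hhI
      have hcard : I'.card + 1 = I.card := Finset.card_erase_add_one hhI
      have hjH : j ∈ H := by
        rcases Finset.mem_insert.mp hj with h5 | h5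
        · exact absurd (h5 ▸ hhI) hjI
        · exact h5
      have hjI' : j ∉ I' := fun h' => hjI (Finset.mem_of_mem_erase h')
      have h6 := hH I' hI' (k + 1) (by omega) j hjH hjI'
      have h7 := hh3 I' (Finset.mem_powerset.mpr hI') k (Finset.mem_range.mpr (by omega)) j hjH h6
      rwa [hII] at h7
    · have hI' : I ⊆ H := by
        intro x hx
        rcases Finset.mem_insert.mp (hI hx) with h5 | h5
        · exact absurd (h5 ▸ hx) hhI
        · exact h5
      rcases Finset.mem_insert.mp hj with h5 | h5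
      · rw [h5]
        exact hh2 I (Finset.mem_powerset.mpr hI') k (Finset.mem_range.mpr (by omega))
      · exact hH I hI' k hk j h5 hjI
  -- the chain
  choose! nx hnx using hstep
  let ch : ℕ → Finset ℕ := fun i => Nat.rec ∅ (fun i H => insert (nx H i) H) i
  have hch0 : ch 0 = ∅ := rfl
  have hchs : ∀ i, ch (i + 1) = insert (nx (ch i) i) (ch i) := fun _ => rfl
  have hgd : ∀ i, Gd (ch i) := by
    intro i
    induction i with
    | zero =>
      intro I _ k _ j hj
      rw [hch0] at hj
      exact absurd hj (Finset.notMem_empty j)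
    | succ i ih =>
      rw [hchs]
      exact (hnx (ch i) ih i).2.2
  have hmono : ∀ i j, i ≤ j → ch i ⊆ ch j := by
    intro i j hij
    induction hij with
    | refl => exact subset_rfl
    | step _ ih => exact ih.trans (by rw [hchs]; exact Finset.subset_insert _ _)
  let H : Set ℕ := {x | ∃ i, x ∈ ch i}
  have hfin : ∀ I : Finset ℕ, (I : Set ℕ) ⊆ H → ∃ i, I ⊆ ch i := by
    intro I hI
    have h1 : ∀ x : ℕ, ∃ i, x ∈ I → x ∈ ch i := by
      intro x
      by_cases hx : x ∈ I
      · obtain ⟨i, hi⟩ := hI hx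
        exact ⟨i, fun _ => hi⟩
      · exact ⟨0, fun h => absurd h hx⟩
    choose i hi using h1
    exact ⟨I.sup i, fun x hx => hmono _ _ (Finset.le_sup (f := i) hx) (hi x hx)⟩
  refine ⟨H, ?_, ?_⟩
  · refine Set.infinite_of_not_bddAbove ?_
    rintro ⟨m, hm⟩
    have h1 : nx (ch m) m ∈ H := ⟨m + 1, by rw [hchs]; exact Finset.mem_insert_self _ _⟩
    have h2 := hm h1
    have h3 := (hnx (ch m) (hgd m) m).1
    omega
  · intro I hI hIn j hj hjH
    by_contra hjI
    obtain ⟨i, hi⟩ := hfin (insert j I) (by
      rw [Finset.coe_insert]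
      exact Set.insert_subset hjH hI)
    exact hgd i I ((Finset.subset_insert _ _).trans hi) 0 (by omega) j
      (hi (Finset.mem_insert_self _ _)) hjI (by rw [hL0]; exact hj)

/-! ### Types -/

/-- Indices of atomic facts about an `n`-tuple. -/
abbrev Ix (ar : Y → ℕ) (n : ℕ) : Type := (Fin n × Fin n) ⊕ ((s : Y) × (Fin (ar s) → Fin n))

/-- The quantifier-free type of a tuple. -/
def qt {D : Type} (M : St ar D) {n : ℕ} (a : Fin n → D) : Set (Ix ar n) :=
  {i | Sum.elim (fun p => a p.1 = a p.2) (fun q => M q.1 (a ∘ q.2)) i}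

theorem qt_inj {D E : Type} {M : St ar D} {N : St ar E} {f : D → E} (hf : Function.Injective f)
    (h : ∀ s w, M s w ↔ N s (f ∘ w)) {n : ℕ} (a : Fin n → D) : qt N (f ∘ a) = qt M a := by
  ext i
  rcases i with p | q
  · exact ⟨fun h => hf h, fun h => congrArg f h⟩
  · exact (h q.1 (a ∘ q.2)).symm

theorem qt_pull {D E : Type} (N : St ar E) {f : D → E} (hf : Function.Injective f) {n : ℕ}
    (a : Fin n → D) : qt (pull f N) a = qt N (f ∘ a) :=
  (qt_inj hf (fun _ _ => Iff.rfl) a).symm

theorem mp_qt [Countable Y] {n : ℕ} (p : Set (Ix ar n)) (a : Fin n → ℕ) :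
    MP fun c : Sp ar => qt (toSt c) a = p := by
  have : MP fun c : Sp ar => ∀ i : Ix ar n, i ∈ qt (toSt c) a ↔ i ∈ p := by
    refine MP.all fun i => MP.iff ?_ (MP.const _)
    rcases i with p | q
    · exact MP.const _
    · exact MP.atom _ _
  exact this.congr fun c => Set.ext_iff.symm

theorem mp_mem_qt [Countable Y] {n : ℕ} (i : Ix ar n) (a : Fin n → ℕ) :
    MP fun c : Sp ar => i ∈ qt (toSt c) a := by
  rcases i with p | q
  · exact MP.const _
  · exact MP.atom _ _

/-- Invariants on a smaller measurable class. -/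
theorem Wild.mono {A B : Set (Sp ar)} (hA : Wild A) (hAB : A ⊆ B) (hm : MeasurableSet A)
    (hinv : ∀ c d, c ∈ A → SIso (toSt c) (toSt d) → d ∈ A) : Wild B := by
  classical
  obtain ⟨J, hJ, Z, hZ, hE, hunc⟩ := hA
  refine ⟨J, hJ, fun j c => if c ∈ A then Z j c else fun _ => false, fun j =>
    Measurable.ite hm (hZ j) measurable_const, ?_, ?_⟩
  · intro c d hc hd hcd j
    by_cases hcA : c ∈ A
    · have hdA := hinv c d hcA hcd
      obtain ⟨k, hk⟩ := hE c d hcA hdA hcd j
      refine ⟨k, ?_⟩
      simp only [if_pos hcA, if_pos hdA]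
      exact hk
    · have hdA : d ∉ A := fun h => hcA (hinv d c h hcd.symm)
      refine ⟨j, ?_⟩
      simp only [if_neg hcA, if_neg hdA]
  · intro hcount
    refine hunc (hcount.mono ?_)
    intro z hz
    obtain ⟨j, c, hc, rfl⟩ := mem_iUnion.mp hz
    refine mem_iUnion.mpr ⟨j, c, hAB hc, ?_⟩
    simp only [if_pos hc]

end Pool.Agent.Helper6.VU
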