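import Pool.Agent.Helper6.V22Loc

/-!
# Dichotomy for locally closed classes
-/

set_option autoImplicit false

namespace Pool.Agent.Helper6.VU

open Set Filter Topology

variable {Y : Type} {ar : Y → ℕ}

/-- Only countably many types are realised. -/
theorem lc_types_countable [Countable Y] (K : LC ar) (hK : ¬ Wild {c : Sp ar | K.mem (toSt c)})
    (n : ℕ) : {p : Set (Ix ar (n + 1)) | ∃ c : Sp ar, K.mem (toSt c) ∧
      ∃ a : Fin (n + 1) → ℕ, qt (toSt c) a = p}.Countable := by
  classical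
  by_contra hcon
  apply hK
  have hne : Nonempty (Ix ar (n + 1)) := ⟨Sum.inl (0, 0)⟩
  obtain ⟨q, hq⟩ := exists_surjective_nat (Ix ar (n + 1))
  let co : Set (Ix ar (n + 1)) → (ℕ → Bool) := fun p t => decide (q t ∈ p)
  have hco : Function.Injective co := by
    intro p p' h
    ext i
    obtain ⟨t, rfl⟩ := hq i
    have := congrFun h t
    simp only [co, decide_eq_decide] at this
    exact this
  refine ⟨Fin (n + 1) → ℕ, inferInstance, fun a c => co (qt (toSt c) a), fun a =>
    measurable_digits (fun c t => q t ∈ qt (toSt c) a) (fun t => mp_mem_qt (q t) a), ?_, ?_⟩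
  · rintro c d - - ⟨e, he⟩ a
    refine ⟨e ∘ a, ?_⟩
    show co (qt (toSt c) a) = co (qt (toSt d) (e ∘ a))
    rw [qt_inj e.injective he]
  · intro hcount
    apply hcon
    refine Set.countable_of_injective_of_countable_image (f := co) hco.injOn (hcount.mono ?_)
    rintro _ ⟨p, ⟨c, hc, a, rfl⟩, rfl⟩
    exact mem_iUnion.mpr ⟨a, c, hc, rfl⟩

/-- Each member realises finitely many types of tuples of a given length. -/
theorem lc_types_finite [Countable Y] (K : LC ar) (hK : ¬ Wild {c : Sp ar | K.mem (toSt c)})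
    {c : Sp ar} (hc : K.mem (toSt c)) (n : ℕ) :
    {p : Set (Ix ar n) | ∃ a : Fin n → ℕ, qt (toSt c) a = p}.Finite := by
  classical
  by_contra hcon
  apply hK
  have hinf : {p : Set (Ix ar n) | ∃ a : Fin n → ℕ, qt (toSt c) a = p}.Infinite := hcon
  let p : ℕ ↪ {p : Set (Ix ar n) | ∃ a : Fin n → ℕ, qt (toSt c) a = p} := hinf.natEmbedding _
  have hp : Function.Injective fun j => (p j).1 := fun j k h => p.injective (Subtype.ext h)
  choose a ha using fun j => (p j).2
  -- the set mapping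
  let S : Finset ℕ → Finset ℕ := fun I => I.biUnion fun i => Finset.univ.image (a i)
  let g : (Fin n → ℕ) → ℕ := fun b => if h : ∃ j, (p j).1 = qt (toSt c) b then h.choose else 0
  have hg : ∀ b j, qt (toSt c) b = (p j).1 → g b = j := by
    intro b j h
    have h1 : ∃ j, (p j).1 = qt (toSt c) b := ⟨j, h.symm⟩
    have h2 : g b = h1.choose := dif_pos h1
    rw [h2]
    exact hp (h1.choose_spec.trans h)
  let J : Finset ℕ → Finset ℕ := fun I =>
    if I.card ≤ n then (Fintype.piFinset fun _ : Fin n => S I).image g else ∅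
  have hJ : ∀ I, (J I).card ≤ (n * n) ^ n := by
    intro I
    by_cases hI : I.card ≤ n
    · have h0 : J I = (Fintype.piFinset fun _ : Fin n => S I).image g := if_pos hI
      rw [h0]
      refine Finset.card_image_le.trans ?_
      rw [Fintype.card_piFinset]
      simp only [Finset.prod_const, Finset.card_univ, Fintype.card_fin]
      refine Nat.pow_le_pow_left ?_ n
      have h1 : (S I).card ≤ I.card * n := by
        refine Finset.card_biUnion_le_card_mul _ _ _ fun i _ => ?_
        exact Finset.card_image_le.trans (by simp)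
      exact h1.trans (Nat.mul_le_mul_right n hI)
    · have h0 : J I = ∅ := if_neg hI
      rw [h0]
      simp
  obtain ⟨H, hH, hHJ⟩ := exists_free n _ J hJ
  have hHi : Infinite H := hH.to_subtype
  let h : ℕ ≃o H := Nat.Subtype.orderIsoOfNat H
  have hhinj : Function.Injective fun i => (h i : ℕ) :=
    fun i j hij => h.injective (Subtype.ext hij)
  -- the substructures
  let Sx : (ℕ → Bool) → Set ℕ := fun x => {j | ∃ m, j = h (2 * m)} ∪
    {j | ∃ m, x m = true ∧ j = h (2 * m + 1)}
  have hSxH : ∀ x, Sx x ⊆ H := by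
    rintro x j (⟨m, rfl⟩ | ⟨m, -, rfl⟩)
    · exact (h _).2
    · exact (h _).2
  let X : (ℕ → Bool) → Set ℕ := fun x => {y | ∃ j ∈ Sx x, y ∈ range (a j)}
  have hX : ∀ x, (X x).Infinite := by
    intro x hfin
    have h1 : {b : Fin n → ℕ | ∀ i, b i ∈ X x}.Finite := by
      have := Set.Finite.pi' (fun _ : Fin n => hfin)
      exact this
    have h2 : (range fun m => a (h (2 * m))).Infinite := by
      refine Set.infinite_range_of_injective fun m m' hm => ?_
      have hm' : a (h (2 * m)) = a (h (2 * m')) := hm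
      have h3 : (p (h (2 * m))).1 = (p (h (2 * m'))).1 := by
        rw [← ha, ← ha, hm']
      have := hhinj (hp h3)
      omega
    refine h2 (h1.subset ?_)
    rintro _ ⟨m, rfl⟩ i
    exact ⟨h (2 * m), Or.inl ⟨m, rfl⟩, i, rfl⟩
  have hXi : ∀ x, Infinite (X x) := fun x => (hX x).to_subtype
  let f : (ℕ → Bool) → ℕ → ℕ := fun x i => (Nat.Subtype.orderIsoOfNat (X x) i : ℕ)
  have hf : ∀ x, Function.Injective (f x) := fun x i j hij =>
    (Nat.Subtype.orderIsoOfNat (X x)).injective (Subtype.ext hij)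
  have hfr : ∀ x y, y ∈ X x → ∃ i, f x i = y := by
    intro x y hy
    obtain ⟨i, hi⟩ := (Nat.Subtype.orderIsoOfNat (X x)).surjective ⟨y, hy⟩
    exact ⟨i, congrArg Subtype.val hi⟩
  have hfX : ∀ x i, f x i ∈ X x := fun x i => (Nat.Subtype.orderIsoOfNat (X x) i).2
  let d : (ℕ → Bool) → Sp ar := fun x => ofSt (pull (f x) (toSt c))
  have hd : ∀ x, toSt (d x) = pull (f x) (toSt c) := fun x => toSt_ofSt _
  have hdK : ∀ x, K.mem (toSt (d x)) := by
    intro x
    rw [hd]
    exact K.mem_pull (hf x) hc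
  let Z : Unit → Sp ar → (ℕ → Bool) := fun _ c' t =>
    decide (∃ b : Fin n → ℕ, qt (toSt c') b = (p (h (2 * t + 1))).1)
  have hZd : ∀ x, Z () (d x) = x := by
    intro x
    funext t
    have key : (∃ b : Fin n → ℕ, qt (toSt (d x)) b = (p (h (2 * t + 1))).1) ↔ x t = true := by
      rw [hd]
      constructor
      · rintro ⟨b, hb⟩
        rw [qt_pull _ (hf x)] at hb
        -- the indices used
        choose i hiS hi using fun k : Fin n => hfX x (b k)
        let I : Finset ℕ := Finset.univ.image i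
        have hIc : I.card ≤ n := Finset.card_image_le.trans (by simp)
        have hIH : (I : Set ℕ) ⊆ H := by
          intro j hj
          obtain ⟨k, -, rfl⟩ := Finset.mem_image.mp (Finset.mem_coe.mp hj)
          exact hSxH x (hiS k)
        have hjJ : (h (2 * t + 1) : ℕ) ∈ J I := by
          have h0 : J I = (Fintype.piFinset fun _ : Fin n => S I).image g := if_pos hIc
          rw [h0]
          refine Finset.mem_image.mpr ⟨f x ∘ b, ?_, hg _ _ hb⟩
          rw [Fintype.mem_piFinset]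
          intro k
          obtain ⟨l, hl⟩ := hi k
          exact Finset.mem_biUnion.mpr ⟨i k, Finset.mem_image.mpr ⟨k, Finset.mem_univ k, rfl⟩,
            Finset.mem_image.mpr ⟨l, Finset.mem_univ l, hl⟩⟩
        have h3 := hHJ I hIH hIc _ hjJ (h _).2
        obtain ⟨k, -, hk⟩ := Finset.mem_image.mp h3
        have h4 := hiS k
        rw [hk] at h4
        rcases h4 with ⟨m, hm⟩ | ⟨m, hxm, hm⟩
        · have := hhinj hm
          omega
        · have := hhinj hm
          have h5 : t = m := by omega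
          rw [h5]
          exact hxm
      · intro hxt
        have hmem : (h (2 * t + 1) : ℕ) ∈ Sx x := Or.inr ⟨t, hxt, rfl⟩
        choose b hb using fun k : Fin n => hfr x (a (h (2 * t + 1)) k) ⟨_, hmem, k, rfl⟩
        refine ⟨b, ?_⟩
        rw [qt_pull _ (hf x)]
        have : f x ∘ b = a (h (2 * t + 1)) := funext hb
        rw [this]
        exact ha _
    have h1 : Z () (d x) t = decide (∃ b : Fin n → ℕ, qt (toSt (d x)) b =
      (p (h (2 * t + 1))).1) := rfl
    rw [h1]
    by_cases hx : x t = true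
    · rw [hx]
      exact decide_eq_true (key.mpr hx)
    · have h2 : ¬ (∃ b : Fin n → ℕ, qt (toSt (d x)) b = (p (h (2 * t + 1))).1) :=
        fun h' => hx (key.mp h')
      rw [decide_eq_false h2]
      simpa using (Bool.eq_false_of_not_eq_true hx).symm
  refine ⟨Unit, inferInstance, Z, fun _ => measurable_digits
    (fun c' t => ∃ b : Fin n → ℕ, qt (toSt c') b = (p (h (2 * t + 1))).1)
    (fun t => MP.ex fun b => mp_qt _ b), ?_, ?_⟩
  · rintro c₁ c₂ - - ⟨e, he⟩ _
    refine ⟨(), ?_⟩
    funext t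
    simp only [Z, decide_eq_decide]
    constructor
    · rintro ⟨b, hb⟩
      exact ⟨e ∘ b, by rw [qt_inj e.injective he]; exact hb⟩
    · rintro ⟨b, hb⟩
      refine ⟨e.symm ∘ b, ?_⟩
      rw [← qt_inj e.injective he]
      have : e ∘ e.symm ∘ b = b := by ext; simp
      rw [this]
      exact hb
  · intro hcount
    refine uncountable_zero_mem (hcount.mono fun x _ => ?_)
    exact mem_iUnion.mpr ⟨(), d x, hdK x, hZd x⟩

/-- The closed hereditary class generated by a structure. -/
def hull (c : Sp ar) : HC ar where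
  mem := fun {D} N => ∀ (F : Finset D) (G : Finset Y), ∃ f : D → ℕ,
    Set.InjOn f F ∧ ∀ s ∈ G, ∀ w : Fin (ar s) → D, (∀ i, w i ∈ F) → (N s w ↔ toSt c s (f ∘ w))
  closed := by
    classical
    intro D N h F G
    obtain ⟨D', N', f, hN', hf, hfN⟩ := h F G
    obtain ⟨f', hf', hf'N⟩ := hN' (F.image f) G
    refine ⟨f' ∘ f, ?_, fun s hs w hw => ?_⟩
    · intro x hx y hy hxy
      exact hf hx hy (hf' (Finset.mem_coe.mpr (Finset.mem_image_of_mem f hx))
        (Finset.mem_coe.mpr (Finset.mem_image_of_mem f hy)) hxy)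
    · rw [hfN s hs w hw, hf'N s hs (f ∘ w) fun i => Finset.mem_image_of_mem f (hw i)]
      exact Iff.rfl

/-- If there are finitely many types of tuples, members of the hull are locally embeddable. -/
theorem hull_full {c : Sp ar}
    (hfin : ∀ n, {p : Set (Ix ar n) | ∃ a : Fin n → ℕ, qt (toSt c) a = p}.Finite)
    {D : Type} {N : St ar D} (hN : (hull c).mem N) (F : Finset D) :
    ∃ f : D → ℕ, Set.InjOn f F ∧ ∀ (s : Y) (w : Fin (ar s) → D), (∀ i, w i ∈ F) →
      (N s w ↔ toSt c s (f ∘ w)) := by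
  classical
  let n := F.card
  let a : Fin n → D := fun i => (F.equivFin.symm i : D)
  have hac : ∀ x ∈ F, ∃ i, a i = x := by
    intro x hx
    exact ⟨F.equivFin ⟨x, hx⟩, by simp [a]⟩
  have haF : ∀ i, a i ∈ F := fun i => (F.equivFin.symm i).2
  -- distinguishing symbols
  let T : Finset (Set (Ix ar n)) := (hfin n).toFinset
  let dis : Set (Ix ar n) → Set (Ix ar n) → Finset Y := fun p p' =>
    if h : ∃ q : (s : Y) × (Fin (ar s) → Fin n), ¬ ((Sum.inr q : Ix ar n) ∈ p ↔
      (Sum.inr q : Ix ar n) ∈ p') then {h.choose.1} else ∅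
  let G₀ : Finset Y := T.biUnion fun p => T.biUnion fun p' => dis p p'
  have hkey : ∀ G G' : Finset Y, G₀ ⊆ G → G₀ ⊆ G' → ∀ f f' : D → ℕ,
      Set.InjOn f F → Set.InjOn f' F →
      (∀ s ∈ G, ∀ w : Fin (ar s) → D, (∀ i, w i ∈ F) → (N s w ↔ toSt c s (f ∘ w))) →
      (∀ s ∈ G', ∀ w : Fin (ar s) → D, (∀ i, w i ∈ F) → (N s w ↔ toSt c s (f' ∘ w))) →
      qt (toSt c) (f ∘ a) = qt (toSt c) (f' ∘ a) := by
    intro G G' hG hG' f f' hf hf' hN hN'
    have hpT : qt (toSt c) (f ∘ a) ∈ T := (hfin n).mem_toFinset.mpr ⟨_, rfl⟩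
    have hpT' : qt (toSt c) (f' ∘ a) ∈ T := (hfin n).mem_toFinset.mpr ⟨_, rfl⟩
    have hrel : ∀ q : (s : Y) × (Fin (ar s) → Fin n),
        ((Sum.inr q : Ix ar n) ∈ qt (toSt c) (f ∘ a) ↔
          (Sum.inr q : Ix ar n) ∈ qt (toSt c) (f' ∘ a)) := by
      by_contra hcon
      have hcon' : ∃ q : (s : Y) × (Fin (ar s) → Fin n),
          ¬ ((Sum.inr q : Ix ar n) ∈ qt (toSt c) (f ∘ a) ↔
          (Sum.inr q : Ix ar n) ∈ qt (toSt c) (f' ∘ a)) := by
        push Not at hcon
        exact hcon.imp fun q hq => by tauto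
      have h1 : hcon'.choose.1 ∈ G₀ := by
        refine Finset.mem_biUnion.mpr ⟨_, hpT, Finset.mem_biUnion.mpr ⟨_, hpT', ?_⟩⟩
        show hcon'.choose.1 ∈ dis (qt (toSt c) (f ∘ a)) (qt (toSt c) (f' ∘ a))
        have : dis (qt (toSt c) (f ∘ a)) (qt (toSt c) (f' ∘ a)) = {hcon'.choose.1} :=
          dif_pos hcon'
        rw [this]
        exact Finset.mem_singleton_self _
      apply hcon'.choose_spec
      have h2 := hN _ (hG h1) (a ∘ hcon'.choose.2) fun i => haF _
      have h3 := hN' _ (hG' h1) (a ∘ hcon'.choose.2) fun i => haF _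
      exact h2.symm.trans h3
    ext i
    rcases i with p | q
    · show f (a p.1) = f (a p.2) ↔ f' (a p.1) = f' (a p.2)
      constructor
      · intro h
        rw [hf (haF _) (haF _) h]
      · intro h
        rw [hf' (haF _) (haF _) h]
    · exact hrel q
  obtain ⟨f, hf, hfN⟩ := hN F G₀
  refine ⟨f, hf, fun s w hw => ?_⟩
  obtain ⟨f', hf', hfN'⟩ := hN F (insert s G₀)
  have h1 := hkey G₀ (insert s G₀) subset_rfl (Finset.subset_insert _ _) f f' hf hf' hfN hfN'
  choose w' hw' using fun i => hac (w i) (hw i)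
  have hww : w = a ∘ w' := funext fun i => (hw' i).symm
  have h2 := hfN' s (Finset.mem_insert_self _ _) w hw
  rw [h2, hww]
  have h3 : (Sum.inr ⟨s, w'⟩ : Ix ar n) ∈ qt (toSt c) (f' ∘ a) ↔
      (Sum.inr ⟨s, w'⟩ : Ix ar n) ∈ qt (toSt c) (f ∘ a) := by rw [h1]
  exact h3

/-- **Dichotomy for locally closed classes.** -/
theorem lc_dichotomy [Countable Y] (K : LC ar) :
    Wild {c : Sp ar | K.mem (toSt c)} ∨ ∃ S : Set (Sp ar), S.Countable ∧
      (∀ c ∈ S, K.mem (toSt c)) ∧ ∀ c, K.mem (toSt c) → ∃ d ∈ S, SIso (toSt c) (toSt d) := by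
  classical
  by_cases hK : Wild {c : Sp ar | K.mem (toSt c)}
  · exact Or.inl hK
  right
  have hfin := fun {c : Sp ar} (hc : K.mem (toSt c)) n => lc_types_finite K hK hc n
  have hsub : ∀ c, K.mem (toSt c) → ∀ {D : Type} (N : St ar D), (hull c).mem N → K.mem N := by
    intro c hc D N hN
    refine K.closed N fun F => ?_
    obtain ⟨f, hf, hfN⟩ := hull_full (hfin hc) hN F
    exact ⟨ℕ, toSt c, f, hc, hf, hfN⟩
  have hrep : ∀ c, K.mem (toSt c) → ∃ S : Set (Sp ar), S.Countable ∧
      (∀ d ∈ S, (hull c).mem (toSt d)) ∧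
      ∀ d, (hull c).mem (toSt d) → ∃ d' ∈ S, SIso (toSt d) (toSt d') := by
    intro c hc
    rcases hc_dichotomy (hull c) with h | h
    · exact absurd (h.mono (fun d hd => hsub c hc _ hd) (hull c).isClosed.measurableSet
        (fun d d' hd hdd' => (hull c).mem_iso hdd' hd)) hK
    · exact h
  -- ages
  let R : Set ((n : ℕ) × Set (Ix ar (n + 1))) := {x | ∃ c : Sp ar, K.mem (toSt c) ∧
    ∃ a : Fin (x.1 + 1) → ℕ, qt (toSt c) a = x.2}
  have hR : R.Countable := by
    have : R = ⋃ n, Sigma.mk n '' {p : Set (Ix ar (n + 1)) | ∃ c : Sp ar, K.mem (toSt c) ∧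
        ∃ a : Fin (n + 1) → ℕ, qt (toSt c) a = p} := by
      ext ⟨n, p⟩
      simp only [R, mem_iUnion]
      constructor
      · intro h
        exact ⟨n, p, h, rfl⟩
      · rintro ⟨n', p', h, heq⟩
        cases heq
        exact h
    rw [this]
    exact countable_iUnion fun n => (lc_types_countable K hK n).image _
  by_cases hne : ∃ c : Sp ar, K.mem (toSt c)
  swap
  · exact ⟨∅, countable_empty, fun c hc => absurd hc (notMem_empty c),
      fun c hc => absurd ⟨c, hc⟩ hne⟩
  have hRne : R.Nonempty := by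
    obtain ⟨c, hc⟩ := hne
    exact ⟨⟨0, qt (toSt c) (fun _ => 0)⟩, c, hc, fun _ => 0, rfl⟩
  obtain ⟨e, he⟩ := hR.exists_eq_range hRne
  let Z : Unit → Sp ar → (ℕ → Bool) := fun _ c t =>
    decide (∃ b : Fin ((e t).1 + 1) → ℕ, qt (toSt c) b = (e t).2)
  have hZ : ((Z ()) '' {c : Sp ar | K.mem (toSt c)}).Countable := by
    by_contra hcon
    apply hK
    refine ⟨Unit, inferInstance, Z, fun _ => measurable_digits
      (fun c t => ∃ b : Fin ((e t).1 + 1) → ℕ, qt (toSt c) b = (e t).2)
      (fun t => MP.ex fun b => mp_qt _ b), ?_, ?_⟩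
    · rintro c₁ c₂ - - ⟨e', he'⟩ _
      refine ⟨(), ?_⟩
      funext t
      simp only [Z, decide_eq_decide]
      constructor
      · rintro ⟨b, hb⟩
        exact ⟨e' ∘ b, by rw [qt_inj e'.injective he']; exact hb⟩
      · rintro ⟨b, hb⟩
        refine ⟨e'.symm ∘ b, ?_⟩
        rw [← qt_inj e'.injective he']
        have : e' ∘ e'.symm ∘ b = b := by ext; simp
        rw [this]
        exact hb
    · intro h
      exact hcon (h.mono fun z hz => mem_iUnion.mpr ⟨(), hz⟩)
  -- equality of ages gives membership in the hull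
  have hage : ∀ c c' : Sp ar, K.mem (toSt c) → K.mem (toSt c') → Z () c = Z () c' →
      (hull c').mem (toSt c) := by
    intro c c' hc hc' hcc F G
    let F' : Finset ℕ := insert 0 F
    have hF' : F'.card = (F'.card - 1) + 1 := by
      have : 0 < F'.card := Finset.card_pos.mpr ⟨0, Finset.mem_insert_self _ _⟩
      omega
    let E := F'.equivFinOfCardEq hF'
    let a : Fin ((F'.card - 1) + 1) → ℕ := fun i => (E.symm i : ℕ)
    have ha : Function.Injective a := fun i j hij => E.symm.injective (Subtype.ext hij)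
    have hmem : (⟨F'.card - 1, qt (toSt c) a⟩ : (n : ℕ) × Set (Ix ar (n + 1))) ∈ R :=
      ⟨c, hc, a, rfl⟩
    rw [he] at hmem
    obtain ⟨t, ht⟩ := hmem
    have h1 := congrFun hcc t
    simp only [Z, decide_eq_decide] at h1
    rw [ht] at h1
    obtain ⟨b, hb⟩ := h1.mp ⟨a, rfl⟩
    have hbinj : Function.Injective b := by
      intro i j hij
      have h2 : (Sum.inl (i, j) : Ix ar ((F'.card - 1) + 1)) ∈ qt (toSt c') b := hij
      rw [hb] at h2
      exact ha h2
    let f : ℕ → ℕ := fun x => if h : x ∈ F' then b (E ⟨x, h⟩) else 0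
    have hfF : ∀ x (h : x ∈ F'), f x = b (E ⟨x, h⟩) := fun x h => dif_pos h
    refine ⟨f, ?_, fun s _ w hw => ?_⟩
    · intro x hx y hy hxy
      have hx' : x ∈ F' := Finset.mem_insert_of_mem hx
      have hy' : y ∈ F' := Finset.mem_insert_of_mem hy
      rw [hfF x hx', hfF y hy'] at hxy
      have := E.injective (hbinj hxy)
      exact congrArg Subtype.val this
    · have hw' : ∀ i, w i ∈ F' := fun i => Finset.mem_insert_of_mem (hw i)
      let w' : Fin (ar s) → Fin ((F'.card - 1) + 1) := fun i => E ⟨w i, hw' i⟩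
      have h2 : a ∘ w' = w := by
        funext i
        simp [a, w']
      have h3 : b ∘ w' = f ∘ w := by
        funext i
        exact (hfF (w i) (hw' i)).symm
      have h4 : (Sum.inr ⟨s, w'⟩ : Ix ar ((F'.card - 1) + 1)) ∈ qt (toSt c') b ↔
          (Sum.inr ⟨s, w'⟩ : Ix ar ((F'.card - 1) + 1)) ∈ qt (toSt c) a := by rw [hb]
      have h5 : toSt c' s (b ∘ w') ↔ toSt c s (a ∘ w') := h4
      rw [h2, h3] at h5
      exact h5.symm
  -- choose representatives
  have hsel : ∀ z : (Z ()) '' {c : Sp ar | K.mem (toSt c)}, ∃ S : Set (Sp ar), S.Countable ∧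
      (∀ d ∈ S, K.mem (toSt d)) ∧ ∀ c, K.mem (toSt c) → Z () c = z.1 →
        ∃ d' ∈ S, SIso (toSt c) (toSt d') := by
    rintro ⟨z, c', hc', rfl⟩
    obtain ⟨S, hS1, hS2, hS3⟩ := hrep c' hc'
    exact ⟨S, hS1, fun d hd => hsub c' hc' _ (hS2 d hd),
      fun c hc hcz => hS3 c (hage c c' hc hc' hcz)⟩
  choose S hS1 hS2 hS3 using hsel
  have hZc : Countable ((Z ()) '' {c : Sp ar | K.mem (toSt c)}) := hZ.to_subtype
  refine ⟨⋃ z, S z, countable_iUnion hS1, ?_, ?_⟩
  · intro c hc
    obtain ⟨z, hz⟩ := mem_iUnion.mp hc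
    exact hS2 z c hz
  · intro c hc
    obtain ⟨d, hd, hcd⟩ := hS3 ⟨Z () c, c, hc, rfl⟩ c hc rfl
    exact ⟨d, mem_iUnion.mpr ⟨_, hd⟩, hcd⟩

end Pool.Agent.Helper6.VU
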