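import Pool.Agent.Helper6.V23Loc
import Pool.Agent.Helper6.V20Fs

/-!
# Invariant countable unions of locally closed Borel sets
-/

set_option autoImplicit false

namespace Pool.Agent.Helper6.VU

open Set Filter Topology

variable {Y : Type} {ar : Y → ℕ}

/-- The codes agree on the finite set `E`. -/
def Agree (E : Finset ℕ) (c d : Sp ar) : Prop :=
  ∀ (s : Y) (w : Fin (ar s) → ℕ), (∀ i, w i ∈ E) → c ⟨s, w⟩ = d ⟨s, w⟩

/-- Closed for convergence of all finite restrictions. -/
def LocClosed (F : Set (Sp ar)) : Prop :=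
  ∀ c : Sp ar, (∀ E : Finset ℕ, ∃ d ∈ F, Agree E c d) → c ∈ F

theorem Agree.act {E : Finset ℕ} {c d : Sp ar} {h : ℕ → ℕ}
    (hcd : Agree (E.image h) c d) : Agree E (VU.act h c) (VU.act h d) :=
  fun s w hw => hcd s (h ∘ w) fun i => Finset.mem_image_of_mem h (hw i)

theorem stab_locClosed (k : ℕ) {F : Set (Sp ar)} (hF : LocClosed F) : LocClosed (stab k F) := by
  classical
  intro c hc h hh
  refine hF _ fun E => ?_
  obtain ⟨d, hd, hcd⟩ := hc (E.image h)
  exact ⟨act h d, hd h hh, hcd.act⟩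

theorem stab_measurable [Countable Y] (k : ℕ) {F : Set (Sp ar)} (hF : LocClosed F) (hm : MeasurableSet F) :
    MeasurableSet (stab k F) := by
  classical
  let hl : List (ℕ × ℕ) → Equiv.Perm ℕ := fun l =>
    if h : ∃ g : Equiv.Perm ℕ, (∀ i < k, g i = i) ∧ ∀ p ∈ l, g p.1 = p.2 then h.choose else 1
  have hl1 : ∀ l, ∀ i < k, hl l i = i := by
    intro l i hi
    by_cases h : ∃ g : Equiv.Perm ℕ, (∀ i < k, g i = i) ∧ ∀ p ∈ l, g p.1 = p.2
    · have : hl l = h.choose := dif_pos h
      rw [this]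
      exact h.choose_spec.1 i hi
    · have : hl l = 1 := dif_neg h
      rw [this]
      rfl
  have : stab k F = ⋂ l : List (ℕ × ℕ), act (hl l) ⁻¹' F := by
    ext c
    simp only [mem_iInter, mem_preimage]
    constructor
    · intro hc l
      exact hc (hl l) (hl1 l)
    · intro hc h hh
      refine hF _ fun E => ?_
      let l : List (ℕ × ℕ) := E.toList.map fun x => (x, h x)
      have hex : ∃ g : Equiv.Perm ℕ, (∀ i < k, g i = i) ∧ ∀ p ∈ l, g p.1 = p.2 := by
        refine ⟨h, hh, fun p hp => ?_⟩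
        obtain ⟨x, -, rfl⟩ := List.mem_map.mp hp
        rfl
      have h1 : hl l = hex.choose := dif_pos hex
      refine ⟨act (hl l) c, hc l, fun s w hw => ?_⟩
      have h2 : (h ∘ w : Fin (ar s) → ℕ) = hl l ∘ w := by
        funext i
        have h3 := hex.choose_spec.2 (w i, h (w i))
          (List.mem_map.mpr ⟨w i, Finset.mem_toList.mpr (hw i), rfl⟩)
        show h (w i) = hl l (w i)
        rw [h1]
        exact h3.symm
      show c ⟨s, h ∘ w⟩ = c ⟨s, hl l ∘ w⟩
      rw [h2]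
  rw [this]
  exact MeasurableSet.iInter fun l => (continuous_act (hl l)).measurable hm

/-- **Baire category step.** -/
theorem exists_stab_loc {F : ℕ → Set (Sp ar)} (hF : ∀ n, LocClosed (F n)) {c : Sp ar}
    (hc : ∀ g : Equiv.Perm ℕ, act g c ∈ ⋃ n, F n) :
    ∃ n k, ∃ g : Equiv.Perm ℕ, act g c ∈ stab k (F n) := by
  classical
  have hP : PolishSpace PS := isClosed_PS.polishSpace
  have hB : BaireSpace PS := by
    let _ := TopologicalSpace.upgradeIsCompletelyMetrizable PS
    infer_instance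
  have hne : Nonempty PS := ⟨⟨(id, id), fun _ => rfl, fun _ => rfl⟩⟩
  have hcl : ∀ n, IsClosed {q : PS | act q.1.1 c ∈ F n} := by
    intro n
    rw [← isOpen_compl_iff, isOpen_iff_mem_nhds]
    intro q hq
    have hq' : act q.1.1 c ∉ F n := hq
    have h1 : ∃ E : Finset ℕ, ∀ d ∈ F n, ¬ Agree E (act q.1.1 c) d := by
      by_contra hcon
      push Not at hcon
      exact hq' (hF n _ hcon)
    obtain ⟨E, hE⟩ := h1
    have h2 : {q' : PS | ∀ x ∈ E, q'.1.1 x = q.1.1 x} ∈ 𝓝 q := by
      have : {q' : PS | ∀ x ∈ E, q'.1.1 x = q.1.1 x} = ⋂ x ∈ E, {q' : PS | q'.1.1 x = q.1.1 x} := by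
        ext q'
        simp
      rw [this]
      refine (Filter.biInter_finset_mem E).mpr fun x _ => ?_
      have hc1 : Continuous fun q' : PS => q'.1.1 x :=
        (continuous_apply x).comp (continuous_fst.comp continuous_subtype_val)
      exact ((isOpen_discrete {q.1.1 x}).preimage hc1).mem_nhds rfl
    refine Filter.mem_of_superset h2 fun q' hq1 hq2 => ?_
    refine hE _ hq2 fun s w hw => ?_
    show c ⟨s, q.1.1 ∘ w⟩ = c ⟨s, q'.1.1 ∘ w⟩
    have : q'.1.1 ∘ w = q.1.1 ∘ w := funext fun i => hq1 _ (hw i)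
    rw [this]
  obtain ⟨n, hn⟩ := nonempty_interior_of_iUnion_of_closed
    (f := fun n => {q : PS | act q.1.1 c ∈ F n}) hcl (by
      ext q
      simp only [mem_iUnion, mem_univ, iff_true]
      let g : Equiv.Perm ℕ := ⟨q.1.1, q.1.2, q.2.2, q.2.1⟩
      obtain ⟨n, hn⟩ := mem_iUnion.mp (hc g)
      exact ⟨n, hn⟩)
  obtain ⟨q0, hq0⟩ := hn
  have hopen : IsOpen (interior {q : PS | act q.1.1 c ∈ F n}) := isOpen_interior
  rw [isOpen_induced_iff] at hopen
  obtain ⟨O, hO, hOe⟩ := hopen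
  have hq0O : q0.1 ∈ O := by
    have : q0 ∈ Subtype.val ⁻¹' O := by rw [hOe]; exact hq0
    exact this
  obtain ⟨A, B, hA, hB', hqA, hqB, hAB⟩ := isOpen_prod_iff.mp hO q0.1.1 q0.1.2 hq0O
  have hcyl : ∀ {A : Set (ℕ → ℕ)} {x : ℕ → ℕ}, IsOpen A → x ∈ A → ∃ m, PiNat.cylinder x m ⊆ A := by
    intro A x hA hx
    obtain ⟨v, ⟨y, m, rfl⟩, hx1, hx2⟩ :=
      (PiNat.isTopologicalBasis_cylinders (fun _ : ℕ => ℕ)).mem_nhds_iff.mp (hA.mem_nhds hx)
    exact ⟨m, by rwa [PiNat.mem_cylinder_iff_eq.mp hx1]⟩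
  obtain ⟨m1, hm1⟩ := hcyl hA hqA
  obtain ⟨m2, hm2⟩ := hcyl hB' hqB
  let g : Equiv.Perm ℕ := ⟨q0.1.1, q0.1.2, q0.2.2, q0.2.1⟩
  let k : ℕ := m1 + (Finset.range m2).sup fun i => q0.1.2 i + 1
  refine ⟨n, k, g, fun h hh => ?_⟩
  have hh' : ∀ i < k, h.symm i = i := fun i hi => by
    rw [Equiv.symm_apply_eq]
    exact (hh i hi).symm
  let gh : PS := ⟨((g ∘ h : ℕ → ℕ), (h.symm ∘ g.symm : ℕ → ℕ)), fun i => by simp, fun i => by
    simp⟩
  have hgh : gh ∈ interior {q : PS | act q.1.1 c ∈ F n} := by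
    rw [← hOe]
    show gh.1 ∈ O
    apply hAB
    refine ⟨hm1 ?_, hm2 ?_⟩
    · rw [PiNat.mem_cylinder_iff]
      intro i hi
      show q0.1.1 (h i) = q0.1.1 i
      rw [hh i (by omega)]
    · rw [PiNat.mem_cylinder_iff]
      intro i hi
      show h.symm (q0.1.2 i) = q0.1.2 i
      apply hh'
      have : q0.1.2 i + 1 ≤ (Finset.range m2).sup fun i => q0.1.2 i + 1 :=
        Finset.le_sup (f := fun i => q0.1.2 i + 1) (Finset.mem_range.mpr hi)
      omega
  have := interior_subset hgh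
  exact this

/-- The locally closed class of structures in the expanded language generated by a set of codes. -/
def KL (k : ℕ) (C : Set (Sp ar)) : LC (ark ar k) where
  mem := fun {D} N => ∀ F : Finset D, ∃ c ∈ C, ∃ f : D → ℕ,
    Set.InjOn f F ∧ ∀ (s : Yk Y ar k) (w : Fin (ark ar k s) → D), (∀ i, w i ∈ F) →
      (N s w ↔ toSt (res k c) s (f ∘ w))
  closed := by
    classical
    intro D N h F
    obtain ⟨D', N', f, hN', hf, hfN⟩ := h F
    obtain ⟨c, hc, f', hf', hf'N⟩ := hN' (F.image f)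
    refine ⟨c, hc, f' ∘ f, ?_, fun s w hw => ?_⟩
    · intro x hx y hy hxy
      exact hf hx hy (hf' (Finset.mem_coe.mpr (Finset.mem_image_of_mem f hx))
        (Finset.mem_coe.mpr (Finset.mem_image_of_mem f hy)) hxy)
    · rw [hfN s w hw, hf'N s (f ∘ w) fun i => Finset.mem_image_of_mem f (hw i)]
      exact Iff.rfl

theorem KL_res {k : ℕ} {C : Set (Sp ar)} {c : Sp ar} (hc : c ∈ C) :
    (KL k C).mem (toSt (res k c)) :=
  fun _ => ⟨c, hc, id, Function.injective_id.injOn, fun _ _ _ => Iff.rfl⟩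

/-- Codes of members of `KL k C` come from members of `C`. -/
theorem exists_of_KL {k : ℕ} {C : Set (Sp ar)} (hC : LocClosed C)
    (hinv : ∀ c ∈ C, ∀ h : Equiv.Perm ℕ, (∀ i < k, h i = i) → act h c ∈ C)
    {d : Sp (ark ar k)} (hd : (KL k C).mem (toSt d)) : ∃ c ∈ C, res k c = d := by
  classical
  let M : Sp ar := fun p => d ⟨⟨p.1, patt k p.2⟩, fun j => p.2 j - k⟩
  refine ⟨M, ?_, ?_⟩
  · refine hC M fun E => ?_
    obtain ⟨c, hc, f, hf, hfc⟩ := hd (E.image fun x => x - k)
    obtain ⟨h, hh1, hh2⟩ := exists_perm_shift k (E.image fun x => x - k) f hf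
    refine ⟨act h c, hinv c hc h hh1, fun s w hw => ?_⟩
    have hwE : ∀ j, w j - k ∈ E.image fun x => x - k := fun j =>
      Finset.mem_image.mpr ⟨w j, hw j, rfl⟩
    have h1 := hfc ⟨s, patt k w⟩ (fun j => w j - k) hwE
    have h2 : fill (patt k w) (f ∘ fun j => w j - k) = h ∘ w := by
      funext j
      unfold fill patt
      by_cases hj : w j < k
      · simp only [hj, dite_true, Option.elim_some, Function.comp_apply]
        exact (hh1 _ hj).symm
      · simp only [hj, dite_false, Option.elim_none, Function.comp_apply]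
        have h3 : w j = k + (w j - k) := by omega
        have h4 := hh2 (w j - k) (hwE j)
        rw [← h3] at h4
        exact h4.symm
    have h4 : toSt (res k c) ⟨s, patt k w⟩ (f ∘ fun j => w j - k) ↔
        act h c ⟨s, w⟩ = true := by
      show c ⟨s, fill (patt k w) (f ∘ fun j => w j - k)⟩ = true ↔ c ⟨s, h ∘ w⟩ = true
      rw [h2]
    exact Bool.eq_iff_iff.mpr (h1.trans h4)
  · funext p
    have h0 : res k M p = d ⟨p.1, fun j => fill p.1.2 p.2 j - k⟩ := by
      show d ⟨⟨p.1.1, patt k (fill p.1.2 p.2)⟩, fun j => fill p.1.2 p.2 j - k⟩ = _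
      rw [patt_fill]
    rw [h0]
    let F : Finset ℕ := (Finset.univ.image fun j => fill p.1.2 p.2 j - k) ∪
      Finset.univ.image p.2
    obtain ⟨c, hc, f, hf, hfc⟩ := hd F
    have h1 := hfc p.1 (fun j => fill p.1.2 p.2 j - k) fun j =>
      Finset.mem_union_left _ (Finset.mem_image.mpr ⟨j, Finset.mem_univ j, rfl⟩)
    have h2 := hfc p.1 p.2 fun j =>
      Finset.mem_union_right _ (Finset.mem_image.mpr ⟨j, Finset.mem_univ j, rfl⟩)
    have h3 : fill p.1.2 (f ∘ fun j => fill p.1.2 p.2 j - k) = fill p.1.2 (f ∘ p.2) := by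
      funext j
      unfold fill
      rcases hg : p.1.2 j with _ | i
      · simp [hg]
      · simp
    have h4 : toSt (res k c) p.1 (f ∘ fun j => fill p.1.2 p.2 j - k) ↔
        toSt (res k c) p.1 (f ∘ p.2) := by
      show c ⟨p.1.1, fill p.1.2 (f ∘ fun j => fill p.1.2 p.2 j - k)⟩ = true ↔
        c ⟨p.1.1, fill p.1.2 (f ∘ p.2)⟩ = true
      rw [h3]
    exact Bool.eq_iff_iff.mpr (h1.trans (h4.trans h2.symm))

/-- Transfer of invariants from the expanded language. -/
theorem wild_of_res_gen [Countable Y] {A : Set (Sp ar)} {k : ℕ} {C : Set (Sp ar)}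
    (hC : MeasurableSet C) (hCA : C ⊆ A)
    (hinv : ∀ c ∈ C, ∀ h : Equiv.Perm ℕ, (∀ i < k, h i = i) → act h c ∈ C)
    {B : Set (Sp (ark ar k))} (hCB : ∀ c ∈ C, res k c ∈ B) (hBC : ∀ d ∈ B, ∃ c ∈ C, res k c = d)
    (hW : Wild B) : Wild A := by
  classical
  obtain ⟨J, hJ, Z, hZ, hE, hunc⟩ := hW
  have hsel : ∀ a : {a : Fin k → ℕ // Function.Injective a}, ∃ g : Equiv.Perm ℕ,
      ∀ i : Fin k, g i = a.1 i := fun a => exists_perm_tuple a.1 a.2
  choose g hg using hsel
  let Z' : J × {a : Fin k → ℕ // Function.Injective a} → Sp ar → (ℕ → Bool) := fun j c =>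
    if act (g j.2) c ∈ C then Z j.1 (res k (act (g j.2) c)) else fun _ => false
  refine ⟨J × {a : Fin k → ℕ // Function.Injective a}, inferInstance, Z', ?_, ?_, ?_⟩
  · rintro ⟨j, a⟩
    refine Measurable.ite ?_ ?_ measurable_const
    · exact (continuous_act (g a)).measurable hC
    · exact (hZ j).comp ((continuous_res k).measurable.comp (continuous_act (g a)).measurable)
  · rintro c d hc hd ⟨e, he⟩ ⟨j, a⟩
    let a' : {a : Fin k → ℕ // Function.Injective a} := ⟨e ∘ a.1, e.injective.comp a.2⟩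
    let h : Equiv.Perm ℕ := (g a).trans (e.trans (g a').symm)
    have hh : ∀ i < k, h i = i := by
      intro i hi
      show (g a').symm (e (g a i)) = i
      rw [Equiv.symm_apply_eq, hg a ⟨i, hi⟩, hg a' ⟨i, hi⟩]
      rfl
    have hh' : ∀ i < k, h.symm i = i := fun i hi => by
      rw [Equiv.symm_apply_eq]
      exact (hh i hi).symm
    have h1 : act (g a) c = act h (act (g a') d) := by
      funext p
      have h2 := he p.1 (g a ∘ p.2)
      have h3 : (g a' ∘ h ∘ p.2 : Fin (ar p.1) → ℕ) = e ∘ (g a) ∘ p.2 := by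
        funext j
        show g a' ((g a').symm (e (g a (p.2 j)))) = e (g a (p.2 j))
        rw [Equiv.apply_symm_apply]
      show c ⟨p.1, g a ∘ p.2⟩ = d ⟨p.1, g a' ∘ h ∘ p.2⟩
      rw [h3]
      exact Bool.eq_iff_iff.mpr h2
    have h4 : act (g a') d = act h.symm (act (g a) c) := by
      rw [h1]
      funext p
      show act (g a') d p = act (g a') d ⟨p.1, h ∘ h.symm ∘ p.2⟩
      have : (h ∘ h.symm ∘ p.2 : Fin (ar p.1) → ℕ) = p.2 := by
        funext j
        simp
      rw [this]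
    by_cases hcase : act (g a) c ∈ C
    · have hcase' : act (g a') d ∈ C := by
        rw [h4]
        exact hinv _ hcase _ hh'
      obtain ⟨j', hj'⟩ := hE (res k (act (g a) c)) (res k (act (g a') d)) (hCB _ hcase)
        (hCB _ hcase') (res_siso h hh h1) j
      refine ⟨⟨j', a'⟩, ?_⟩
      show (if act (g a) c ∈ C then Z j (res k (act (g a) c)) else fun _ => false) =
        if act (g a') d ∈ C then Z j' (res k (act (g a') d)) else fun _ => false
      rw [if_pos hcase, if_pos hcase', hj']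
    · have hcase' : act (g a') d ∉ C := by
        intro h5
        apply hcase
        rw [h1]
        exact hinv _ h5 _ hh
      refine ⟨⟨j, a'⟩, ?_⟩
      show (if act (g a) c ∈ C then Z j (res k (act (g a) c)) else fun _ => false) =
        if act (g a') d ∈ C then Z j (res k (act (g a') d)) else fun _ => false
      rw [if_neg hcase, if_neg hcase']
  · intro hcount
    apply hunc
    refine hcount.mono ?_
    intro z hz
    obtain ⟨j, c', hc', rfl⟩ := mem_iUnion.mp hz
    obtain ⟨c, hc, rfl⟩ := hBC c' hc'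
    let a : {a : Fin k → ℕ // Function.Injective a} := ⟨fun i => i, Fin.val_injective⟩
    have hga : ∀ i < k, (g a).symm i = i := fun i hi => by
      rw [Equiv.symm_apply_eq]
      exact (hg a ⟨i, hi⟩).symm
    have h1 : act (g a) (act (g a).symm c) = c := by
      funext p
      show c ⟨p.1, (g a).symm ∘ g a ∘ p.2⟩ = c p
      have : ((g a).symm ∘ g a ∘ p.2 : Fin (ar p.1) → ℕ) = p.2 := by
        funext j
        simp
      rw [this]
    refine mem_iUnion.mpr ⟨⟨j, a⟩, act (g a).symm c, hCA (hinv c hc _ hga), ?_⟩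
    show (if act (g a) (act (g a).symm c) ∈ C then Z j (res k (act (g a) (act (g a).symm c)))
      else fun _ => false) = Z j (res k c)
    rw [h1, if_pos hc]

/-- **Dichotomy for invariant countable unions of locally closed Borel sets.** -/
theorem ls_dichotomy [Countable Y] (A : Set (Sp ar)) (F : ℕ → Set (Sp ar))
    (hF : ∀ n, LocClosed (F n)) (hFm : ∀ n, MeasurableSet (F n)) (hA : A = ⋃ n, F n)
    (hinv : ∀ c d, c ∈ A → SIso (toSt c) (toSt d) → d ∈ A) :
    Wild A ∨ ∃ S : Set (Sp ar), S.Countable ∧ ∀ c ∈ A, ∃ d ∈ S, SIso (toSt c) (toSt d) := by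
  classical
  by_cases hW : Wild A
  · exact Or.inl hW
  right
  have hdich : ∀ n k, ∃ S : Set (Sp ar), S.Countable ∧ ∀ c ∈ stab k (F n), ∃ d ∈ S,
      SIso (toSt c) (toSt d) := by
    intro n k
    have hcl := stab_locClosed k (hF n)
    have hst := stab_inv k (F := F n)
    rcases lc_dichotomy (KL k (stab k (F n))) with hwild | ⟨S, hS, hSK, hSiso⟩
    · exact absurd (wild_of_res_gen (stab_measurable k (hF n) (hFm n))
        ((stab_sub k).trans (by rw [hA]; exact subset_iUnion F n)) hst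
        (fun c hc => KL_res hc) (fun d hd => exists_of_KL hcl hst hd) hwild) hW
    · have hex : ∀ c' : S, ∃ c ∈ stab k (F n), res k c = c'.1 := fun c' =>
        exists_of_KL hcl hst (hSK c'.1 c'.2)
      choose r hr1 hr2 using hex
      have hSc : Countable S := hS.to_subtype
      refine ⟨range r, countable_range r, fun c hc => ?_⟩
      obtain ⟨d, hd, hcd⟩ := hSiso (res k c) (KL_res hc)
      refine ⟨r ⟨d, hd⟩, ⟨_, rfl⟩, siso_of_res (k := k) ?_⟩
      rw [hr2]
      exact hcd
  choose S hS1 hS2 using hdich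
  refine ⟨⋃ n, ⋃ k, S n k, countable_iUnion fun n => countable_iUnion fun k => hS1 n k, ?_⟩
  intro c hc
  have hcA : ∀ g : Equiv.Perm ℕ, act g c ∈ ⋃ n, F n := by
    intro g
    rw [← hA]
    exact hinv c _ hc (siso_act g c).symm
  obtain ⟨n, k, g, hg⟩ := exists_stab_loc hF hcA
  obtain ⟨d, hd, hcd⟩ := hS2 n k (act g c) hg
  exact ⟨d, mem_iUnion.mpr ⟨n, mem_iUnion.mpr ⟨k, hd⟩⟩, (siso_act g c).symm.trans hcd⟩

/-- **Perfect set theorem for invariant countable unions of locally closed Borel sets.** -/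
theorem ls_perfect [Countable Y] (A : Set (Sp ar)) (F : ℕ → Set (Sp ar))
    (hF : ∀ n, LocClosed (F n)) (hFm : ∀ n, MeasurableSet (F n)) (hA : A = ⋃ n, F n)
    (hinv : ∀ c d, c ∈ A → SIso (toSt c) (toSt d) → d ∈ A) :
    PerfS A ∨ ∃ S : Set (Sp ar), S.Countable ∧ ∀ c ∈ A, ∃ d ∈ S, SIso (toSt c) (toSt d) := by
  rcases ls_dichotomy A F hF hFm hA hinv with ⟨J, hJ, Z, hZ, hE, hunc⟩ | h
  · left
    have hAm : MeasurableSet A := by
      rw [hA]
      exact MeasurableSet.iUnion hFm
    obtain ⟨j, f, hf, hfA, hfi⟩ := exists_cantor_of_reals hZ (B := fun _ => A) (fun _ => hAm)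
      (fun c d => SIso (toSt c) (toSt d))
      (fun j k x hx y hy hxy => hE x y hx hy hxy j) hunc
    refine ⟨f, hf, hfA, fun x y hxy => ?_⟩
    by_contra hne
    exact hfi x y hne hxy
  · exact Or.inr h

end Pool.Agent.Helper6.VU
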