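import Pool.Agent.Helper6.V24Fs
import Pool.Agent.Helper6.V21Fin
import Pool.Agent.Helper6.SigmaTwoDef

/-!
# The dichotomy for local classes, universal theories and `Σ₂` sentences
-/

set_option autoImplicit false

namespace Pool.Agent.Helper6

open Set

variable {L : FirstOrder.Language.{0, 0}}

theorem QFree.sat_agree {α : Type} {S S' : L.Structure ℕ} {E : Finset ℕ} (h : AgreeOn E S S')
    {s : α → ℕ} (hs : ∀ i, s i ∈ E) (θ : QFree L α) : θ.Sat S s ↔ θ.Sat S' s := by
  induction θ with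
  | eq i j => exact Iff.rfl
  | rel R v => exact h _ R _ fun i => hs _
  | neg θ ih => exact not_congr ih
  | conj f ih => exact forall_congr' ih

theorem QFree.sat_iso {α : Type} {S S' : L.Structure ℕ} {e : ℕ ≃ ℕ} (h : Str.RelIso S S' e)
    (s : α → ℕ) (θ : QFree L α) : θ.Sat S s ↔ θ.Sat S' (e ∘ s) := by
  induction θ with
  | eq i j => exact ⟨fun h => congrArg e h, fun h => e.injective h⟩
  | rel R v => exact h _ R _
  | neg θ ih => exact not_congr ih
  | conj f ih => exact forall_congr' ih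

namespace VU

theorem measurableSet_sat [∀ n, IsEmpty (L.Functions n)] [Countable (YL L)] {α : Type}
    (s : α → ℕ) (θ : QFree L α) : MeasurableSet {c : Sp (arL L) | θ.Sat (toL c) s} := by
  induction θ with
  | eq i j => exact MeasurableSet.const _
  | @rel n R v => exact measurableSet_toSt (ar := arL L) ⟨n, R⟩ (fun k => s (v k))
  | neg θ ih => exact ih.compl
  | conj f ih =>
    have : {c : Sp (arL L) | (QFree.conj f).Sat (toL c) s} =
        ⋂ k, {c | (f k).Sat (toL c) s} := by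
      ext c
      simp [QFree.Sat]
    rw [this]
    exact MeasurableSet.iInter ih

/-- Change of the index set of the codes. -/
def toCode (c : Sp (arL L)) : Str.Code L := fun p => c ⟨⟨p.1, p.2.1⟩, p.2.2⟩

theorem measurable_toCode : Measurable (toCode : Sp (arL L) → Str.Code L) :=
  measurable_pi_iff.mpr fun _ => measurable_pi_apply _

theorem toStr_toCode [∀ n, IsEmpty (L.Functions n)] (c : Sp (arL L)) :
    Str.toStr (toCode c) = toL c := rfl

theorem measurableSet_of_isBorel [∀ n, IsEmpty (L.Functions n)] {A : Set (L.Structure ℕ)}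
    (h : IsBorel A) : MeasurableSet {c : Sp (arL L) | toL c ∈ A} := by
  have h1 := measurable_toCode h
  have h2 : {c : Sp (arL L) | toL c ∈ A} = toCode ⁻¹' {c : ((n : ℕ) × (L.Relations n ×
      (Fin n → ℕ))) → Bool | ∃ S ∈ A, ∀ (n : ℕ) (R : L.Relations n) (v : Fin n → ℕ),
      S.RelMap R v ↔ c ⟨n, (R, v)⟩ = true} := by
    ext c
    constructor
    · intro hc
      exact ⟨toL c, hc, fun n R v => Iff.rfl⟩
    · rintro ⟨S, hS, hSc⟩
      have : S = toL c := by
        apply FirstOrder.Language.Structure.ext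
        · funext n f
          exact isEmptyElim f
        · funext n R v
          exact propext (hSc n R v)
      show toL c ∈ A
      rw [← this]
      exact hS
  rw [h2]
  exact h1

/-- **Local classes, universal theories and `Σ₂` sentences.** -/
theorem dichotomy_local (hc : Countable L.Symbols) (hrel : ∀ n, IsEmpty (L.Functions n))
    (K : Set (L.Structure ℕ))
    (hK : ∀ S S' : L.Structure ℕ, Nonempty (@FirstOrder.Language.Equiv L ℕ ℕ S S') →
      S ∈ K → S' ∈ K)
    (A : ℕ → Set (L.Structure ℕ)) (hA : ∀ n, IsLocal (A n)) (hAB : ∀ n, IsBorel (A n))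
    (hKA : K = ⋃ n, A n) (T : L.Theory) (hT : T.IsUniversal) (φ : SigmaTwo L) :
    Dichotomy {S : L.Structure ℕ | S ∈ K ∧ @FirstOrder.Language.Theory.Model L ℕ S T ∧
      φ.Holds S} := by
  classical
  have := hrel
  have hcr : ∀ n, Countable (L.Relations n) := Str.countable_relations hc
  have hY : Countable (YL L) := inferInstance
  let I : Type := ℕ × (n : ℕ) × (Fin (φ.k n) → ℕ)
  have hne : Nonempty I := ⟨⟨0, 0, fun _ => 0⟩⟩
  obtain ⟨q, hq⟩ := exists_surjective_nat I
  let K' : Set (L.Structure ℕ) :=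
    {S | S ∈ K ∧ @FirstOrder.Language.Theory.Model L ℕ S T ∧ φ.Holds S}
  let B : Set (Sp (arL L)) := {c | toL c ∈ K'}
  let F : ℕ → Set (Sp (arL L)) := fun t => {c | toL c ∈ A (q t).1 ∧
    @FirstOrder.Language.Theory.Model L ℕ (toL c) T ∧ ∀ m : ℕ, ∀ b : Fin (φ.l (q t).2.1 m) → ℕ,
    (φ.θ (q t).2.1 m).Sat (toL c) (Sum.elim (q t).2.2 b)}
  have hF : ∀ t, LocClosed (F t) := by
    intro t c hc
    have hagr : ∀ E : Finset ℕ, ∃ d ∈ F t, AgreeOn E (toL c) (toL d) := by
      intro E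
      obtain ⟨d, hd, hcd⟩ := hc E
      refine ⟨d, hd, fun n R v hv => ?_⟩
      have := hcd ⟨n, R⟩ v hv
      show c ⟨⟨n, R⟩, v⟩ = true ↔ d ⟨⟨n, R⟩, v⟩ = true
      rw [this]
    refine ⟨?_, ?_, ?_⟩
    · refine hA _ _ fun E => ?_
      obtain ⟨d, hd, hcd⟩ := hagr E
      exact ⟨toL d, hd.1, hcd⟩
    · rw [@FirstOrder.Language.Theory.model_iff L ℕ (toL c)]
      intro σ hσ
      by_contra hcon
      obtain ⟨G, hG⟩ := univ_support (hT.isUniversal_of_mem hσ) _ _ (toL c) hcon
      obtain ⟨d, hd, hcd⟩ := hagr (G.biUnion fun p => Finset.univ.image p.2.2)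
      have h1 := hd.2.1
      rw [@FirstOrder.Language.Theory.model_iff L ℕ (toL d)] at h1
      refine hG (toL d) (fun p hp => hcd _ _ _ fun i => ?_) (h1 σ hσ)
      exact Finset.mem_biUnion.mpr ⟨p, hp, Finset.mem_image.mpr ⟨i, Finset.mem_univ i, rfl⟩⟩
    · intro m b
      obtain ⟨d, hd, hcd⟩ := hagr (Finset.univ.image (Sum.elim (q t).2.2 b))
      exact (QFree.sat_agree hcd (fun i => Finset.mem_image.mpr ⟨i, Finset.mem_univ i, rfl⟩)
        _).mpr (hd.2.2 m b)
  have hFm : ∀ t, MeasurableSet (F t) := by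
    intro t
    have h1 : MeasurableSet {c : Sp (arL L) | toL c ∈ A (q t).1} :=
      measurableSet_of_isBorel (hAB _)
    have h2 : MeasurableSet {c : Sp (arL L) |
        @FirstOrder.Language.Theory.Model L ℕ (toL c) T} :=
      measurable_toCode (Str.measurableSet_model hc T)
    have h3 : MeasurableSet (⋂ m : ℕ, ⋂ b : Fin (φ.l (q t).2.1 m) → ℕ, {c : Sp (arL L) |
        (φ.θ (q t).2.1 m).Sat (toL c) (Sum.elim (q t).2.2 b)}) :=
      MeasurableSet.iInter fun m => MeasurableSet.iInter fun b => measurableSet_sat _ _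
    have h4 : F t = {c : Sp (arL L) | toL c ∈ A (q t).1} ∩ ({c : Sp (arL L) |
        @FirstOrder.Language.Theory.Model L ℕ (toL c) T} ∩
        ⋂ m : ℕ, ⋂ b : Fin (φ.l (q t).2.1 m) → ℕ, {c : Sp (arL L) |
        (φ.θ (q t).2.1 m).Sat (toL c) (Sum.elim (q t).2.2 b)}) := by
      ext c
      simp only [F, mem_inter_iff, mem_iInter, mem_ofPred_eq]
    rw [h4]
    exact h1.inter (h2.inter h3)
  have hB : B = ⋃ t, F t := by
    ext c
    constructor
    · rintro ⟨h0, h1, n, a, ha⟩
      rw [hKA] at h0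
      obtain ⟨i, hi⟩ := mem_iUnion.mp h0
      obtain ⟨t, ht⟩ := hq ⟨i, n, a⟩
      refine mem_iUnion.mpr ⟨t, ?_, h1, ?_⟩
      · rw [ht]
        exact hi
      · rw [ht]
        exact ha
    · intro h
      obtain ⟨t, h0, h1, h2⟩ := mem_iUnion.mp h
      refine ⟨?_, h1, (q t).2.1, (q t).2.2, h2⟩
      rw [hKA]
      exact mem_iUnion.mpr ⟨_, h0⟩
  have hK' : ∀ S S' : L.Structure ℕ, Str.Iso S S' → S ∈ K' → S' ∈ K' := by
    rintro S S' h ⟨h0, h1, n, a, ha⟩
    refine ⟨hK S S' ((Str.nonempty_equiv_iff S S').mpr h) h0, Str.model_iso h h1, ?_⟩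
    obtain ⟨e, he⟩ := h
    refine ⟨n, e ∘ a, fun m b => ?_⟩
    have h2 := (QFree.sat_iso he _ _).mp (ha m (e.symm ∘ b))
    have h3 : (e ∘ Sum.elim a (e.symm ∘ b) : _ → ℕ) = Sum.elim (e ∘ a) b := by
      funext i
      cases i with
      | inl i => rfl
      | inr i => simp
    rwa [h3] at h2
  have hinv : ∀ c d, c ∈ B → SIso (toSt c) (toSt d) → d ∈ B := fun c d h1 h2 =>
    hK' _ _ ((Str.nonempty_equiv_iff _ _).mp ((siso_iff c d).mp h2)) h1
  rcases ls_perfect B F hF hFm hB hinv with ⟨f, hf, hfB, hfi⟩ | ⟨S, hS, hSc⟩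
  · right
    refine ⟨fun x => toL (f x), hfB, fun x y h => hfi x y ((siso_iff _ _).mpr h),
      fun n R a => ?_⟩
    exact (isClopen_toSt (ar := arL L) ⟨n, R⟩ a).preimage hf
  · left
    have hS' : (insert (fun _ => false) S : Set (Sp (arL L))).Countable := hS.insert _
    obtain ⟨g, hg⟩ := hS'.exists_eq_range ⟨_, mem_insert _ _⟩
    refine ⟨fun n => toL (g n), fun M hM => ?_⟩
    have hTB : ofL M ∈ B := by
      show toL (ofL M) ∈ K'
      rw [toL_ofL]
      exact hM
    obtain ⟨d, hd, hTd⟩ := hSc (ofL M) hTB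
    have : d ∈ range g := by
      rw [← hg]
      exact mem_insert_of_mem _ hd
    obtain ⟨n, rfl⟩ := this
    refine ⟨n, ?_⟩
    have h1 := (siso_iff _ _).mp hTd
    rwa [toL_ofL] at h1

end VU

end Pool.Agent.Helper6
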