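import Pool.Agent.Helper6.V1Base

/-!
# Iterated ultrafilter limits
-/

set_option autoImplicit false

namespace Pool.Agent.Helper6.VU

open Set Filter

variable {Y : Type} {ar : Y → ℕ} {D A ρ ρ' : Type}

/-- Updating an assignment. -/
noncomputable def upd (g : ρ → A → D) (r : ρ) (x : A → D) : ρ → A → D :=
  open Classical in fun r' => if r' = r then x else g r'

@[simp] theorem upd_same (g : ρ → A → D) (r : ρ) (x : A → D) : upd g r x r = x := by
  simp [upd]

theorem upd_ne (g : ρ → A → D) {r r' : ρ} (x : A → D) (h : r' ≠ r) : upd g r x r' = g r' := by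
  simp [upd, h]

theorem upd_comm (g : ρ → A → D) {r r' : ρ} (x x' : A → D) (h : r ≠ r') :
    upd (upd g r x) r' x' = upd (upd g r' x') r x := by
  funext s
  by_cases h1 : s = r'
  · subst h1
    rw [upd_same, upd_ne _ _ (Ne.symm h), upd_same]
  · rw [upd_ne _ _ h1]
    by_cases h2 : s = r
    · subst h2
      rw [upd_same, upd_same]
    · rw [upd_ne _ _ h2, upd_ne _ _ h2, upd_ne _ _ h1]

/-- The iterated ultrafilter along a list of rows; the head is outermost. -/
noncomputable def NU (U : ρ → Ultrafilter (A → D)) :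
    List ρ → (ρ → A → D) → Ultrafilter (ρ → A → D)
  | [], g => pure g
  | r :: l, g => (U r).bind fun x => NU U l (upd g r x)

/-- The filter of `NU`. -/
noncomputable abbrev nf (U : ρ → Ultrafilter (A → D)) (l : List ρ) (g : ρ → A → D) :
    Filter (ρ → A → D) := (NU U l g : Filter (ρ → A → D))

/-- `P` depends only on the rows in `S`. -/
def DepOn (S : Set ρ) (P : (ρ → A → D) → Prop) : Prop :=
  ∀ g g', (∀ r ∈ S, g r = g' r) → (P g ↔ P g')

variable {U U' : ρ → Ultrafilter (A → D)}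

theorem NU_nil (g : ρ → A → D) (P : (ρ → A → D) → Prop) :
    (∀ᶠ g' in nf U [] g, P g') ↔ P g := by
  show (∀ᶠ g' in (pure g : Filter _), P g') ↔ P g
  simp

theorem ev_bind {α β : Type} (F : Ultrafilter α) (m : α → Ultrafilter β) (P : β → Prop) :
    (∀ᶠ b in (F.bind m : Filter β), P b) ↔
      ∀ᶠ a in (F : Filter α), ∀ᶠ b in (m a : Filter β), P b :=
  Iff.rfl

theorem ev_map {α β : Type} (F : Ultrafilter α) (m : α → β) (P : β → Prop) :
    (∀ᶠ b in (F.map m : Filter β), P b) ↔ ∀ᶠ a in (F : Filter α), P (m a) :=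
  Iff.rfl

theorem NU_cons (r : ρ) (l : List ρ) (g : ρ → A → D) (P : (ρ → A → D) → Prop) :
    (∀ᶠ g' in nf U (r :: l) g, P g') ↔
      ∀ᶠ x in (U r : Filter _), ∀ᶠ g' in nf U l (upd g r x), P g' :=
  Iff.rfl

theorem ev_congr {α : Type} {F : Filter α} {P Q : α → Prop} (h : ∀ a, P a ↔ Q a) :
    (∀ᶠ a in F, P a) ↔ ∀ᶠ a in F, Q a :=
  Filter.eventually_congr (Filter.Eventually.of_forall h)

theorem ev_const {α : Type} (F : Ultrafilter α) (p : Prop) :
    (∀ᶠ _ in (F : Filter α), p) ↔ p := by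
  simp

theorem NU_append (l l' : List ρ) (g : ρ → A → D) (P : (ρ → A → D) → Prop) :
    (∀ᶠ g' in nf U (l ++ l') g, P g') ↔
      ∀ᶠ g₁ in nf U l g, ∀ᶠ g' in nf U l' g₁, P g' := by
  induction l generalizing g with
  | nil => rw [NU_nil]; exact Iff.rfl
  | cons r l ih =>
    rw [List.cons_append, NU_cons, NU_cons]
    exact ev_congr fun x => ih _

theorem NU_upd {r : ρ} {l : List ρ} (h : r ∉ l) (g : ρ → A → D) (x : A → D)
    (P : (ρ → A → D) → Prop) :
    (∀ᶠ g' in nf U l (upd g r x), P g') ↔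
      ∀ᶠ g' in nf U l g, P (upd g' r x) := by
  induction l generalizing g with
  | nil => rw [NU_nil, NU_nil]
  | cons r' l ih =>
    rw [NU_cons, NU_cons]
    refine ev_congr fun x' => ?_
    have h1 : r ≠ r' := fun h' => h (by simp [h'])
    have h2 : r ∉ l := fun h' => h (by simp [h'])
    rw [upd_comm _ _ _ h1, ih h2]

theorem NU_off {r : ρ} {l : List ρ} (h : r ∉ l) (g : ρ → A → D) :
    ∀ᶠ g' in nf U l g, g' r = g r := by
  induction l generalizing g with
  | nil => rw [NU_nil]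
  | cons r' l ih =>
    rw [NU_cons]
    have h1 : r ≠ r' := fun h' => h (by simp [h'])
    have h2 : r ∉ l := fun h' => h (by simp [h'])
    refine Filter.Eventually.of_forall fun x => ?_
    have := ih h2 (upd g r' x)
    rwa [upd_ne _ _ h1] at this

theorem NU_base {S : Set ρ} {P : (ρ → A → D) → Prop} (hP : DepOn S P) (l : List ρ)
    (g g₂ : ρ → A → D) (h : ∀ r ∈ S, r ∉ l → g r = g₂ r) :
    (∀ᶠ g' in nf U l g, P g') ↔ ∀ᶠ g' in nf U l g₂, P g' := by
  induction l generalizing g g₂ with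
  | nil =>
    rw [NU_nil, NU_nil]
    exact hP g g₂ fun r hr => h r hr (by simp)
  | cons r l ih =>
    rw [NU_cons, NU_cons]
    refine ev_congr fun x => ih _ _ fun r' hr' hl => ?_
    by_cases h1 : r' = r
    · subst h1; rw [upd_same, upd_same]
    · rw [upd_ne _ _ h1, upd_ne _ _ h1]
      exact h r' hr' (by simp [h1, hl])

theorem NU_filter {S : Set ρ} {P : (ρ → A → D) → Prop} (hP : DepOn S P) (p : ρ → Bool)
    (hp : ∀ r, p r = true ↔ r ∈ S) (l : List ρ) (g : ρ → A → D) :
    (∀ᶠ g' in nf U l g, P g') ↔ ∀ᶠ g' in nf U (l.filter p) g, P g' := by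
  induction l generalizing g with
  | nil => exact Iff.rfl
  | cons r l ih =>
    by_cases hr : r ∈ S
    · rw [List.filter_cons_of_pos ((hp r).mpr hr), NU_cons, NU_cons]
      exact ev_congr fun x => ih _
    · rw [List.filter_cons_of_neg (fun h => hr ((hp r).mp h)), NU_cons]
      have : ∀ x, (∀ᶠ g' in nf U l (upd g r x), P g') ↔
          ∀ᶠ g' in nf U (l.filter p) g, P g' := by
        intro x
        rw [ih]
        refine NU_base hP _ _ _ fun r' hr' _ => ?_
        have : r' ≠ r := fun h => hr (h ▸ hr')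
        rw [upd_ne _ _ this]
      rw [ev_congr this, ev_const]

/-- Relabelling of rows. -/
theorem NU_relabel {V : ρ' → Ultrafilter (A → D)} (σ : ρ' → ρ) {S : Set ρ'}
    (hσ : Set.InjOn σ S) {P : (ρ' → A → D) → Prop} (hP : DepOn S P) (l : List ρ')
    (hl : ∀ r ∈ l, r ∈ S) (hV : ∀ r ∈ l, V r = U (σ r)) (g : ρ → A → D) (g₂ : ρ' → A → D)
    (hg : ∀ r ∈ S, g₂ r = g (σ r)) :
    (∀ᶠ g' in nf U (l.map σ) g, P fun r => g' (σ r)) ↔
      ∀ᶠ g' in nf V l g₂, P g' := by
  induction l generalizing g g₂ with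
  | nil =>
    rw [List.map_nil, NU_nil, NU_nil]
    exact hP _ _ fun r hr => (hg r hr).symm
  | cons r l ih =>
    rw [List.map_cons, NU_cons, NU_cons, hV r (by simp)]
    refine ev_congr fun x => ih (fun r' hr' => hl r' (by simp [hr']))
      (fun r' hr' => hV r' (by simp [hr'])) _ _ fun r' hr' => ?_
    by_cases h1 : r' = r
    · subst h1; rw [upd_same, upd_same]
    · have h2 : σ r' ≠ σ r := fun h => h1 (hσ hr' (hl r (by simp)) h)
      rw [upd_ne _ _ h1, upd_ne _ _ h2, hg r' hr']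

/-- Nonprincipality of a row ultrafilter on the coordinates in `B`. -/
def Disj (U : Ultrafilter (A → D)) (B : Set A) : Prop :=
  (∀ a ∈ B, ∀ d, ∀ᶠ x in (U : Filter (A → D)), x a ≠ d) ∧
  (∀ a ∈ B, ∀ a' ∈ B, a ≠ a' → ∀ᶠ x in (U : Filter (A → D)), x a ≠ x a')

theorem Disj.mono {V : Ultrafilter (A → D)} {B B' : Set A} (h : Disj V B) (hB : B' ⊆ B) :
    Disj V B' :=
  ⟨fun a ha => h.1 a (hB ha), fun a ha a' ha' => h.2 a (hB ha) a' (hB ha')⟩

theorem NU_avoid {B : ρ → Set A} {l : List ρ} (hB : ∀ r ∈ l, Disj (U r) (B r)) {r : ρ}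
    (hr : r ∈ l) {a : A} (ha : a ∈ B r) (d : D) (g : ρ → A → D) :
    ∀ᶠ g' in nf U l g, g' r a ≠ d := by
  induction l generalizing g with
  | nil => simp at hr
  | cons s l ih =>
    rw [NU_cons]
    by_cases hl : r ∈ l
    · exact Filter.Eventually.of_forall fun x => ih (fun r hr => hB r (by simp [hr])) hl _
    · have hrs : r = s := by simpa [hl] using hr
      subst hrs
      refine ((hB r (by simp)).1 a ha d).mono fun x hx => ?_
      have := NU_off (U := U) hl (upd g r x)
      refine this.mono fun g' hg' => ?_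
      rw [hg', upd_same]
      exact hx

theorem NU_inj {B : ρ → Set A} {l : List ρ} (hB : ∀ r ∈ l, Disj (U r) (B r)) {r r' : ρ}
    (hr : r ∈ l) (hr' : r' ∈ l) {a a' : A} (ha : a ∈ B r) (ha' : a' ∈ B r')
    (hne : r ≠ r' ∨ a ≠ a') (g : ρ → A → D) :
    ∀ᶠ g' in nf U l g, g' r a ≠ g' r' a' := by
  induction l generalizing g with
  | nil => simp at hr
  | cons s l ih =>
    rw [NU_cons]
    have hB' : ∀ r ∈ l, Disj (U r) (B r) := fun r hr => hB r (by simp [hr])
    by_cases hl : r ∈ l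
    · by_cases hl' : r' ∈ l
      · exact Filter.Eventually.of_forall fun x => ih hB' hl hl' _
      · refine Filter.Eventually.of_forall fun x => ?_
        have h1 := NU_avoid (U := U) hB' hl ha (upd g s x r' a') (upd g s x)
        have h2 := NU_off (U := U) hl' (upd g s x)
        filter_upwards [h1, h2] with g' h1 h2
        rw [h2]
        exact h1
    · have hrs : r = s := by simpa [hl] using hr
      subst hrs
      by_cases hl' : r' ∈ l
      · refine Filter.Eventually.of_forall fun x => ?_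
        have h1 := NU_avoid (U := U) hB' hl' ha' (upd g r x r a) (upd g r x)
        have h2 := NU_off (U := U) hl (upd g r x)
        filter_upwards [h1, h2] with g' h1 h2
        rw [h2]
        exact h1.symm
      · have hrs' : r' = r := by simpa [hl'] using hr'
        subst hrs'
        have hne' : a ≠ a' := by
          rcases hne with h | h
          · exact absurd rfl h
          · exact h
        refine ((hB r' (by simp)).2 a ha a' ha' hne').mono fun x hx => ?_
        have h2 := NU_off (U := U) hl (upd g r' x)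
        filter_upwards [h2] with g' h2
        rw [h2, upd_same]
        exact hx

/-- Evaluation of old and new elements. -/
def ev (g : ρ → A → D) : D ⊕ ρ × A → D := Sum.elim id fun p => g p.1 p.2

@[simp] theorem ev_inl (g : ρ → A → D) (d : D) : ev g (Sum.inl d) = d := rfl

@[simp] theorem ev_inr (g : ρ → A → D) (p : ρ × A) : ev g (Sum.inr p) = g p.1 p.2 := rfl

/-- The rows met by a tuple. -/
def rowsOf {κ : Type} (w : κ → D ⊕ ρ × A) : Set ρ := {r | ∃ i a, w i = Sum.inr (r, a)}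

theorem depOn_ev (M : St ar D) (s : Y) (w : Fin (ar s) → D ⊕ ρ × A) {S : Set ρ}
    (hS : rowsOf w ⊆ S) : DepOn S fun g : ρ → A → D => M s (ev g ∘ w) := by
  intro g g' h
  show M s (ev g ∘ w) ↔ M s (ev g' ∘ w)
  have : ev g ∘ w = ev g' ∘ w := by
    funext i
    show ev g (w i) = ev g' (w i)
    rcases hw : w i with d | ⟨r, a⟩
    · rfl
    · show g r a = g' r a
      rw [h r (hS ⟨i, a, hw⟩)]
  rw [this]

theorem finite_rowsOf {κ : Type} [Finite κ] (w : κ → D ⊕ ρ × A) : (rowsOf w).Finite := by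
  have : rowsOf w = ⋃ i, {r | ∃ a, w i = Sum.inr (r, a)} := by
    ext r; simp [rowsOf]
  rw [this]
  refine Set.finite_iUnion fun i => Set.Subsingleton.finite ?_
  rintro r ⟨a, ha⟩ r' ⟨a', ha'⟩
  rw [ha] at ha'
  simp only [Sum.inr.injEq, Prod.mk.injEq] at ha'
  exact ha'.1

/-- Relabelling of the rows of elements. -/
def rmap (σ : ρ → ρ') : D ⊕ ρ × A → D ⊕ ρ' × A := Sum.map id (Prod.map σ id)

theorem ev_rmap (σ : ρ → ρ') (g : ρ' → A → D) (e : D ⊕ ρ × A) :
    ev g (rmap σ e) = ev (fun r => g (σ r)) e := by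
  rcases e with d | ⟨r, a⟩ <;> rfl

theorem rowsOf_rmap {κ : Type} (σ : ρ → ρ') (w : κ → D ⊕ ρ × A) :
    rowsOf (rmap σ ∘ w) = σ '' rowsOf w := by
  ext r'
  constructor
  · rintro ⟨i, a, hia⟩
    rcases hw : w i with d | ⟨r, a'⟩
    · simp [rmap, hw] at hia
    · simp only [Function.comp, rmap, hw, Sum.map_inr, Prod.map_apply, id_eq, Sum.inr.injEq,
        Prod.mk.injEq] at hia
      exact ⟨r, ⟨i, a', hw⟩, hia.1⟩
  · rintro ⟨r, ⟨i, a, hia⟩, rfl⟩
    exact ⟨i, a, by simp [rmap, hia]⟩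

section Gen

variable [LinearOrder ρ]

/-- The ultrafilter on assignments, with all rows generic, in increasing order. -/
noncomputable def genU (U : ρ → Ultrafilter (A → D)) (g₀ : ρ → A → D) :
    Ultrafilter (ρ → A → D) :=
  (Ultrafilter.of (Filter.atTop : Filter (Finset ρ))).bind fun S => NU U S.sort g₀

theorem genU_eval {g₀ : ρ → A → D} {l : List ρ} (hl : l.Pairwise (· < ·))
    {P : (ρ → A → D) → Prop} (hP : DepOn {r | r ∈ l} P) (g : ρ → A → D) :
    (∀ᶠ g' in (genU U g₀ : Filter (ρ → A → D)), P g') ↔ ∀ᶠ g' in nf U l g, P g' := by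
  classical
  have key : ∀ S : Finset ρ, l.toFinset ≤ S →
      ((∀ᶠ g' in nf U S.sort g₀, P g') ↔ ∀ᶠ g' in nf U l g, P g') := by
    intro S hS
    rw [NU_filter hP (fun r => decide (r ∈ l)) (fun r => by simp)]
    have h1 : (S.sort.filter fun r => decide (r ∈ l)) = l := by
      refine List.Perm.eq_of_pairwise' (r := (· ≤ ·)) ?_ (hl.imp fun h => le_of_lt h) ?_
      · exact (Finset.pairwise_sort S (· ≤ ·)).filter _
      · rw [List.perm_ext_iff_of_nodup ((Finset.sort_nodup S _).filter _)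
          (hl.imp fun h => ne_of_lt h)]
        intro r
        simp only [List.mem_filter, Finset.mem_sort, decide_eq_true_eq]
        exact ⟨fun h => h.2, fun h => ⟨hS (by simpa using h), h⟩⟩
    rw [h1]
    exact NU_base hP _ _ _ fun r hr hr' => absurd hr hr'
  show (∀ᶠ S in ((Ultrafilter.of (Filter.atTop : Filter (Finset ρ)) : Ultrafilter (Finset ρ)) :
    Filter (Finset ρ)), ∀ᶠ g' in nf U S.sort g₀, P g') ↔ _
  have h2 : ∀ᶠ S in ((Ultrafilter.of (Filter.atTop : Filter (Finset ρ)) : Ultrafilter (Finset ρ)) :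
    Filter (Finset ρ)), ((∀ᶠ g' in nf U S.sort g₀, P g') ↔ ∀ᶠ g' in nf U l g, P g') := by
    have h3 : ∀ᶠ S in (Filter.atTop : Filter (Finset ρ)), l.toFinset ≤ S :=
      Filter.eventually_ge_atTop _
    have h4 : ∀ᶠ S in ((Ultrafilter.of (Filter.atTop : Filter (Finset ρ)) :
      Ultrafilter (Finset ρ)) : Filter (Finset ρ)), l.toFinset ≤ S := Ultrafilter.of_le _ h3
    exact h4.mono fun S hS => key S hS
  rw [Filter.eventually_congr h2, ev_const]

theorem sorted_list_of_finite {S : Set ρ} (hS : S.Finite) :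
    ∃ l : List ρ, l.Pairwise (· < ·) ∧ ∀ r, r ∈ l ↔ r ∈ S := by
  classical
  refine ⟨hS.toFinset.sort, ?_, fun r => by simp⟩
  exact (Finset.sortedLT_sort _).pairwise

/-- The structure obtained from `M` by adding generic rows. -/
def GU (U : ρ → Ultrafilter (A → D)) (g₀ : ρ → A → D) (M : St ar D) : St ar (D ⊕ ρ × A) :=
  fun s w => ∀ᶠ g in (genU U g₀ : Filter (ρ → A → D)), M s (ev g ∘ w)

theorem GU_eval {g₀ : ρ → A → D} {M : St ar D} {s : Y} {w : Fin (ar s) → D ⊕ ρ × A} {l : List ρ}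
    (hl : l.Pairwise (· < ·)) (hw : rowsOf w ⊆ {r | r ∈ l}) (g : ρ → A → D) :
    GU U g₀ M s w ↔ ∀ᶠ g' in nf U l g, M s (ev g' ∘ w) :=
  genU_eval hl (depOn_ev M s w hw) g

theorem GU_inl {g₀ : ρ → A → D} {M : St ar D} {s : Y} (w : Fin (ar s) → D) :
    GU U g₀ M s (Sum.inl ∘ w) ↔ M s w := by
  have : GU U g₀ M s (Sum.inl ∘ w) ↔ ∀ᶠ g' in nf U [] g₀, M s (ev g' ∘ Sum.inl ∘ w) :=
    GU_eval (by simp) (by rintro r ⟨i, a, h⟩; simp at h) g₀
  rw [this, NU_nil]
  exact Iff.rfl

/-- The elements of generic rows with coordinates in `B`, together with the old elements. -/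
def live (B : ρ → Set A) : Set (D ⊕ ρ × A) := {e | ∀ r a, e = Sum.inr (r, a) → a ∈ B r}

theorem genU_inj {g₀ : ρ → A → D} {B : ρ → Set A} (hB : ∀ r, Disj (U r) (B r))
    {x y : D ⊕ ρ × A} (hx : x ∈ live B) (hy : y ∈ live B) (hxy : x ≠ y) :
    ∀ᶠ g in (genU U g₀ : Filter (ρ → A → D)), ev g x ≠ ev g y := by
  classical
  obtain ⟨l, hl, hlm⟩ := sorted_list_of_finite (S := ({r | ∃ a, x = Sum.inr (r, a)} ∪
    {r | ∃ a, y = Sum.inr (r, a)} : Set ρ)) (by
      refine Set.Finite.union (Set.Subsingleton.finite ?_) (Set.Subsingleton.finite ?_)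
      · rintro r ⟨a, ha⟩ r' ⟨a', ha'⟩
        rw [ha] at ha'
        simp only [Sum.inr.injEq, Prod.mk.injEq] at ha'
        exact ha'.1
      · rintro r ⟨a, ha⟩ r' ⟨a', ha'⟩
        rw [ha] at ha'
        simp only [Sum.inr.injEq, Prod.mk.injEq] at ha'
        exact ha'.1)
  have hdep : DepOn {r | r ∈ l} fun g : ρ → A → D => ev g x ≠ ev g y := by
    intro g g' h
    have h1 : ev g x = ev g' x := by
      rcases x with d | ⟨r, a⟩
      · rfl
      · have : r ∈ l := (hlm r).mpr (Or.inl ⟨a, rfl⟩)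
        show g r a = g' r a
        rw [h r this]
    have h2 : ev g y = ev g' y := by
      rcases y with d | ⟨r, a⟩
      · rfl
      · have : r ∈ l := (hlm r).mpr (Or.inr ⟨a, rfl⟩)
        show g r a = g' r a
        rw [h r this]
    show ev g x ≠ ev g y ↔ ev g' x ≠ ev g' y
    rw [h1, h2]
  rw [genU_eval hl hdep g₀]
  rcases x with d | ⟨r, a⟩
  · rcases y with d' | ⟨r', a'⟩
    · exact Filter.Eventually.of_forall fun g h => hxy (by simpa using h)
    · have := NU_avoid (U := U) (l := l) (fun r _ => hB r)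
        (show r' ∈ l from (hlm r').mpr (Or.inr ⟨a', rfl⟩)) (hy r' a' rfl) d g₀
      exact this.mono fun g h => by simpa using h.symm
  · rcases y with d' | ⟨r', a'⟩
    · have := NU_avoid (U := U) (l := l) (fun r _ => hB r)
        (show r ∈ l from (hlm r).mpr (Or.inl ⟨a, rfl⟩)) (hx r a rfl) d' g₀
      exact this.mono fun g h => by simpa using h
    · have := NU_inj (U := U) (l := l) (fun r _ => hB r)
        (show r ∈ l from (hlm r).mpr (Or.inl ⟨a, rfl⟩))
        (show r' ∈ l from (hlm r').mpr (Or.inr ⟨a', rfl⟩)) (hx r a rfl) (hy r' a' rfl)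
        (by
          by_contra hcon
          push Not at hcon
          exact hxy (by rw [hcon.1, hcon.2])) g₀
      exact this.mono fun g h => by simpa using h

theorem GU_mem (K : HC ar) {g₀ : ρ → A → D} {B : ρ → Set A} (hB : ∀ r, Disj (U r) (B r))
    {M : St ar D} (hM : K.mem M) {X : Set (D ⊕ ρ × A)} (hX : X ⊆ live B) :
    K.mem (pull (Subtype.val : X → D ⊕ ρ × A) (GU U g₀ M)) := by
  have h := K.mem_ulim ((genU U g₀).map fun g (x : X) => ev g x.1) hM (by
    intro x y hxy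
    rw [ev_map]
    exact genU_inj hB (hX x.2) (hX y.2) fun h => hxy (Subtype.ext h))
  exact h

/-- Order preserving relabelling of the rows does not change the structure. -/
theorem GU_rmap {g₀ : ρ → A → D} {M : St ar D} {s : Y} {w : Fin (ar s) → D ⊕ ρ × A} {σ : ρ → ρ}
    (hσ : StrictMonoOn σ (rowsOf w)) (hU : ∀ r ∈ rowsOf w, U (σ r) = U r) :
    GU U g₀ M s (rmap σ ∘ w) ↔ GU U g₀ M s w := by
  obtain ⟨l, hl, hlm⟩ := sorted_list_of_finite (finite_rowsOf w)
  have hlS : {r | r ∈ l} = rowsOf w := by ext r; exact hlm r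
  have hl2 : (l.map σ).Pairwise (· < ·) := by
    rw [List.pairwise_map]
    refine hl.imp_of_mem fun {a b} ha hb hab => ?_
    exact hσ ((hlm a).mp ha) ((hlm b).mp hb) hab
  have e1 : GU U g₀ M s w ↔ ∀ᶠ g' in nf U l fun r => g₀ (σ r), M s (ev g' ∘ w) :=
    GU_eval hl (by rw [hlS]) _
  have e2 : GU U g₀ M s (rmap σ ∘ w) ↔ ∀ᶠ g' in nf U (l.map σ) g₀, M s (ev g' ∘ rmap σ ∘ w) := by
    refine GU_eval hl2 ?_ g₀
    rw [rowsOf_rmap]
    rintro _ ⟨r, hr, rfl⟩
    exact List.mem_map.mpr ⟨r, (hlm r).mpr hr, rfl⟩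
  rw [e1, e2]
  have := NU_relabel (U := U) (V := U) σ (S := rowsOf w) hσ.injOn
    (depOn_ev M s w (le_refl _)) l (fun r hr => (hlm r).mp hr)
    (fun r hr => (hU r ((hlm r).mp hr)).symm) g₀ (fun r => g₀ (σ r)) (fun _ _ => rfl)
  rw [← this]
  refine ev_congr fun g' => ?_
  have h2 : ev g' ∘ rmap σ ∘ w = ev (fun r => g' (σ r)) ∘ w := by
    funext i
    exact ev_rmap σ g' (w i)
  rw [h2]

end Gen

end Pool.Agent.Helper6.VU
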