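import Pool.Agent.Helper6.V2Nest

/-!
# Exchanging adjacent limits
-/

set_option autoImplicit false

namespace Pool.Agent.Helper6.VU

open Set Filter

variable {Y : Type} {ar : Y → ℕ} {D A ρ : Type}

/-- Evaluation with two rows. -/
def ev2 {A A' : Type} (x : A → D) (y : A' → D) : D ⊕ (A ⊕ A') → D := Sum.elim id (Sum.elim x y)

/-- Two limits commute when fewer than `p` coordinates of the first row are used. -/
def CommLt (K : HC ar) (p : ℕ) : Prop :=
  ∀ (D A A' : Type) (M : St ar D) (U : Ultrafilter (A → D)) (V : Ultrafilter (A' → D))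
    (B : Set A) (B' : Set A') (s : Y) (w : Fin (ar s) → D ⊕ (A ⊕ A')),
    K.mem M → Disj U B → Disj V B' → (∀ k a, w k = Sum.inr (Sum.inl a) → a ∈ B) →
    (∀ k a, w k = Sum.inr (Sum.inr a) → a ∈ B') →
    {a | ∃ k, w k = Sum.inr (Sum.inl a)}.ncard < p →
    ((∀ᶠ x in (U : Filter (A → D)), ∀ᶠ y in (V : Filter (A' → D)), M s (ev2 x y ∘ w)) ↔
      ∀ᶠ y in (V : Filter (A' → D)), ∀ᶠ x in (U : Filter (A → D)), M s (ev2 x y ∘ w))

theorem Disj.map_inj {E : Type} {V : Ultrafilter (A → D)} {B : Set A} (h : Disj V B) {f : D → E}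
    (hf : Function.Injective f) : Disj (V.map fun x a => f (x a)) B := by
  constructor
  · intro a ha e
    rw [ev_map]
    by_cases he : ∃ d, f d = e
    · obtain ⟨d, rfl⟩ := he
      exact (h.1 a ha d).mono fun x hx hxe => hx (hf hxe)
    · exact Filter.Eventually.of_forall fun x hx => he ⟨_, hx⟩
  · intro a ha a' ha' hne
    rw [ev_map]
    exact (h.2 a ha a' ha' hne).mono fun x hx hxe => hx (hf hxe)

variable {U : ρ → Ultrafilter (A → D)} {B : ρ → Set A}

theorem swap_head {K : HC ar} {p : ℕ} (hC : CommLt K p) {M : St ar D} (hM : K.mem M) {i j : ρ}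
    {l : List ρ} (hij : i ≠ j) (hi : i ∉ l) (hj : j ∉ l)
    (hB : ∀ r ∈ i :: j :: l, Disj (U r) (B r)) {s : Y} {w : Fin (ar s) → D ⊕ ρ × A}
    (hw : ∀ k r a, w k = Sum.inr (r, a) → r ∈ i :: j :: l → a ∈ B r)
    (hcard : {a | ∃ k, w k = Sum.inr (i, a)}.ncard < p) (g : ρ → A → D) :
    (∀ᶠ g' in nf U (i :: j :: l) g, M s (ev g' ∘ w)) ↔
      ∀ᶠ g' in nf U (j :: i :: l) g, M s (ev g' ∘ w) := by
  classical
  let XX : Set (D ⊕ ρ × A) := {e | ∀ r a, e = Sum.inr (r, a) → r ∈ l ∧ a ∈ B r}
  let emb : D → XX := fun d => ⟨Sum.inl d, fun r a h => by simp at h⟩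
  have hemb : Function.Injective emb := by
    intro d d' h
    have := congrArg Subtype.val h
    simpa [emb] using this
  let M' : St ar XX := ulim ((NU U l g).map fun g' (x : XX) => ev g' x.1) M
  have hM' : K.mem M' := by
    refine K.mem_ulim _ hM fun x y hxy => ?_
    rw [ev_map]
    obtain ⟨x, hx⟩ := x
    obtain ⟨y, hy⟩ := y
    have hxy' : x ≠ y := fun h => hxy (Subtype.ext h)
    have hBl : ∀ r ∈ l, Disj (U r) (B r) := fun r hr => hB r (by simp [hr])
    rcases x with d | ⟨r, a⟩
    · rcases y with d' | ⟨r', a'⟩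
      · exact Filter.Eventually.of_forall fun g h => hxy' (by simpa using h)
      · have := NU_avoid (U := U) hBl (hy r' a' rfl).1 (hy r' a' rfl).2 d g
        exact this.mono fun g h => by simpa using h.symm
    · rcases y with d' | ⟨r', a'⟩
      · have := NU_avoid (U := U) hBl (hx r a rfl).1 (hx r a rfl).2 d' g
        exact this.mono fun g h => by simpa using h
      · have := NU_inj (U := U) hBl (hx r a rfl).1 (hy r' a' rfl).1 (hx r a rfl).2
          (hy r' a' rfl).2 (by
          by_contra hcon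
          push Not at hcon
          exact hxy' (by rw [hcon.1, hcon.2])) g
        exact this.mono fun g h => by simpa using h
  -- the new tuple
  have hw'' : ∀ k, ∃ e : XX ⊕ (A ⊕ A), (∀ a, w k = Sum.inr (i, a) ↔ e = Sum.inr (Sum.inl a)) ∧
      (∀ a, w k = Sum.inr (j, a) ↔ e = Sum.inr (Sum.inr a)) ∧
      ∀ (x y : A → D), ∀ᶠ g' in nf U l g,
        ev (upd (upd g' i x) j y) (w k) =
          ev g' (ev2 (fun a => emb (x a)) (fun a => emb (y a)) e).1 := by
    intro k
    rcases hk : w k with d | ⟨r, a⟩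
    · refine ⟨Sum.inl (emb d), fun a => by simp, fun a => by simp, fun x y => ?_⟩
      exact Filter.Eventually.of_forall fun g' => rfl
    · by_cases hri : r = i
      · subst hri
        refine ⟨Sum.inr (Sum.inl a), fun a' => by simp, fun a' => by simp [hij], fun x y => ?_⟩
        refine Filter.Eventually.of_forall fun g' => ?_
        show upd (upd g' r x) j y r a = x a
        rw [upd_ne _ _ hij, upd_same]
      · by_cases hrj : r = j
        · subst hrj
          refine ⟨Sum.inr (Sum.inr a), fun a' => by simp [hri], fun a' => by simp,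
            fun x y => ?_⟩
          refine Filter.Eventually.of_forall fun g' => ?_
          show upd (upd g' i x) r y r a = y a
          rw [upd_same]
        · by_cases hrl : r ∈ l
          · have haB := hw k r a hk (by simp [hrl])
            refine ⟨Sum.inl ⟨Sum.inr (r, a), ?_⟩, fun a' => by simp [hri],
              fun a' => by simp [hrj], fun x y => ?_⟩
            · rintro r' a' h
              simp only [Sum.inr.injEq, Prod.mk.injEq] at h
              obtain ⟨rfl, rfl⟩ := h
              exact ⟨hrl, haB⟩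
            · refine Filter.Eventually.of_forall fun g' => ?_
              show upd (upd g' i x) j y r a = g' r a
              rw [upd_ne _ _ hrj, upd_ne _ _ hri]
          · refine ⟨Sum.inl (emb (g r a)), fun a' => by simp [hri],
              fun a' => by simp [hrj], fun x y => ?_⟩
            refine (NU_off (U := U) hrl g).mono fun g' hg' => ?_
            show upd (upd g' i x) j y r a = g r a
            rw [upd_ne _ _ hrj, upd_ne _ _ hri, hg']
  choose w'' h1 h2 h3 using hw''
  have hkey : ∀ x y : A → D, (∀ᶠ g' in nf U l (upd (upd g i x) j y), M s (ev g' ∘ w)) ↔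
      M' s (ev2 (fun a => emb (x a)) (fun a => emb (y a)) ∘ w'') := by
    intro x y
    rw [NU_upd hj, NU_upd hi]
    show _ ↔ ∀ᶠ g' in nf U l g, M s ((fun x : XX => ev g' x.1) ∘
      (ev2 (fun a => emb (x a)) (fun a => emb (y a)) ∘ w''))
    have h4 : ∀ᶠ g' in nf U l g, ∀ k, ev (upd (upd g' i x) j y) (w k) =
        ev g' (ev2 (fun a => emb (x a)) (fun a => emb (y a)) (w'' k)).1 :=
      Filter.eventually_all.mpr fun k => h3 k x y
    refine Filter.eventually_congr (h4.mono fun g' hg' => ?_)
    have : ev (upd (upd g' i x) j y) ∘ w = (fun x : XX => ev g' x.1) ∘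
        (ev2 (fun a => emb (x a)) (fun a => emb (y a)) ∘ w'') := funext hg'
    rw [this]
  have hcomm := hC XX A A M' ((U i).map fun x a => emb (x a)) ((U j).map fun x a => emb (x a))
    (B i) (B j) s w'' hM' ((hB i (by simp)).map_inj hemb) ((hB j (by simp)).map_inj hemb)
    (fun k a hk => hw k i a ((h1 k a).mpr hk) (by simp))
    (fun k a hk => hw k j a ((h2 k a).mpr hk) (by simp))
    (by
      have : {a | ∃ k, w'' k = Sum.inr (Sum.inl a)} = {a | ∃ k, w k = Sum.inr (i, a)} := by
        ext a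
        constructor
        · rintro ⟨k, hk⟩; exact ⟨k, (h1 k a).mpr hk⟩
        · rintro ⟨k, hk⟩; exact ⟨k, (h1 k a).mp hk⟩
      rw [this]; exact hcard)
  rw [NU_cons, NU_cons]
  have e1 : (∀ᶠ x in (U i : Filter (A → D)), ∀ᶠ g' in nf U (j :: l) (upd g i x),
      M s (ev g' ∘ w)) ↔ ∀ᶠ x in (U i : Filter (A → D)), ∀ᶠ y in (U j : Filter (A → D)),
      M' s (ev2 (fun a => emb (x a)) (fun a => emb (y a)) ∘ w'') :=
    ev_congr fun x => by rw [NU_cons]; exact ev_congr fun y => hkey x y
  have e2 : (∀ᶠ y in (U j : Filter (A → D)), ∀ᶠ g' in nf U (i :: l) (upd g j y),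
      M s (ev g' ∘ w)) ↔ ∀ᶠ y in (U j : Filter (A → D)), ∀ᶠ x in (U i : Filter (A → D)),
      M' s (ev2 (fun a => emb (x a)) (fun a => emb (y a)) ∘ w'') :=
    ev_congr fun y => by
      rw [NU_cons]
      refine ev_congr fun x => ?_
      rw [← upd_comm _ _ _ hij]
      exact hkey x y
  rw [e1, e2]
  exact hcomm

theorem adj_swap {K : HC ar} {p : ℕ} (hC : CommLt K p) {M : St ar D} (hM : K.mem M) {i j : ρ}
    {l : List ρ} (hij : i ≠ j) (hi : i ∉ l) (hj : j ∉ l)
    (hB : ∀ r ∈ i :: j :: l, Disj (U r) (B r)) {s : Y} {w : Fin (ar s) → D ⊕ ρ × A}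
    (hw : ∀ k r a, w k = Sum.inr (r, a) → r ∈ i :: j :: l → a ∈ B r)
    (hcard : {a | ∃ k, w k = Sum.inr (i, a)}.ncard < p) (l' : List ρ) (g : ρ → A → D) :
    (∀ᶠ g' in nf U (l' ++ i :: j :: l) g, M s (ev g' ∘ w)) ↔
      ∀ᶠ g' in nf U (l' ++ j :: i :: l) g, M s (ev g' ∘ w) := by
  rw [NU_append, NU_append]
  exact ev_congr fun g₁ => swap_head hC hM hij hi hj hB hw hcard g₁

/-- Moving a row `j` over a list of rows few of whose coordinates are used. -/
theorem bubble {K : HC ar} {p : ℕ} (hC : CommLt K p) {M : St ar D} (hM : K.mem M) {j : ρ}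
    (l₁ l₂ l : List ρ) (hnd : (j :: (l ++ l₂)).Nodup)
    (hB : ∀ r ∈ j :: (l ++ l₂), Disj (U r) (B r)) {s : Y} {w : Fin (ar s) → D ⊕ ρ × A}
    (hw : ∀ k r a, w k = Sum.inr (r, a) → r ∈ j :: (l ++ l₂) → a ∈ B r)
    (hcard : ∀ i ∈ l, {a | ∃ k, w k = Sum.inr (i, a)}.ncard < p) (g : ρ → A → D) :
    (∀ᶠ g' in nf U (l₁ ++ j :: (l ++ l₂)) g, M s (ev g' ∘ w)) ↔
      ∀ᶠ g' in nf U (l₁ ++ (l ++ j :: l₂)) g, M s (ev g' ∘ w) := by
  induction l generalizing l₁ with
  | nil => exact Iff.rfl
  | cons i l ih =>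
    have h1 := ih (l₁ ++ [i]) (by
        simp only [List.cons_append, List.nodup_cons, List.mem_cons, not_or] at hnd ⊢
        exact ⟨hnd.1.2, hnd.2.2⟩)
      (fun r hr => hB r (by
        simp only [List.cons_append, List.mem_cons] at hr ⊢
        tauto))
      (fun k r a hk hr => hw k r a hk (by
        simp only [List.cons_append, List.mem_cons] at hr ⊢
        tauto))
      (fun i' hi' => hcard i' (by simp [hi']))
    have h2 := adj_swap hC hM (i := i) (j := j) (l := l ++ l₂)
      (by
        simp only [List.cons_append, List.nodup_cons, List.mem_cons, not_or] at hnd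
        exact fun h => hnd.1.1 h.symm)
      (by
        simp only [List.cons_append, List.nodup_cons, List.mem_cons, not_or] at hnd
        exact hnd.2.1)
      (by
        simp only [List.cons_append, List.nodup_cons, List.mem_cons, not_or] at hnd
        exact hnd.1.2)
      (fun r hr => hB r (by
        simp only [List.cons_append, List.mem_cons] at hr ⊢
        tauto))
      (fun k r a hk hr => hw k r a hk (by
        simp only [List.cons_append, List.mem_cons] at hr ⊢
        tauto)) (hcard i (by simp)) l₁ g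
    simp only [List.append_assoc, List.cons_append, List.nil_append] at h1
    show (∀ᶠ g' in nf U (l₁ ++ j :: (i :: (l ++ l₂))) g, M s (ev g' ∘ w)) ↔
      ∀ᶠ g' in nf U (l₁ ++ (i :: (l ++ j :: l₂))) g, M s (ev g' ∘ w)
    rw [← h1, ← h2]

end Pool.Agent.Helper6.VU
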