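import Pool.Agent.Helper6.V3Comm

/-!
# Decoding from an order: the invariant
-/

set_option autoImplicit false

namespace Pool.Agent.Helper6.VU

open Set Filter

variable {Y : Type} {ar : Y → ℕ} {n : ℕ} {P Q E E' : Type}

/-- Filling in a pattern. -/
def mk3 (pt : Fin n → Option (P ⊕ Q)) (a : Fin n → E) (x : P → E) (z : Q → E) : Fin n → E :=
  fun k => match pt k with
    | none => a k
    | some (Sum.inl u) => x u
    | some (Sum.inr v) => z v

theorem mk3_none {pt : Fin n → Option (P ⊕ Q)} {a : Fin n → E} {x : P → E} {z : Q → E} {k : Fin n}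
    (h : pt k = none) : mk3 pt a x z k = a k := by simp [mk3, h]

theorem mk3_inl {pt : Fin n → Option (P ⊕ Q)} {a : Fin n → E} {x : P → E} {z : Q → E} {k : Fin n}
    {u : P} (h : pt k = some (Sum.inl u)) : mk3 pt a x z k = x u := by simp [mk3, h]

theorem mk3_inr {pt : Fin n → Option (P ⊕ Q)} {a : Fin n → E} {x : P → E} {z : Q → E} {k : Fin n}
    {v : Q} (h : pt k = some (Sum.inr v)) : mk3 pt a x z k = z v := by simp [mk3, h]

theorem comp_mk3 (f : E → E') (pt : Fin n → Option (P ⊕ Q)) (a : Fin n → E) (x : P → E)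
    (z : Q → E) : f ∘ mk3 pt a x z = mk3 pt (f ∘ a) (f ∘ x) (f ∘ z) := by
  funext k
  rcases h : pt k with _ | u | v
  · simp [mk3, h]
  · simp [mk3, h]
  · simp [mk3, h]

/-- The two tuples behave in the same way with respect to all tuples outside a finite set. -/
def Eqv (s : Y) (pt : Fin (ar s) → Option (P ⊕ Q)) (N : St ar E) (a : Fin (ar s) → E)
    (x x' : P → E) : Prop :=
  ∃ F : Finset E, ∀ z : Q → E, (∀ q, z q ∉ F) → (N s (mk3 pt a x z) ↔ N s (mk3 pt a x' z))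

variable {s : Y} {pt : Fin (ar s) → Option (P ⊕ Q)}

theorem Eqv.refl (N : St ar E) (a : Fin (ar s) → E) (x : P → E) : Eqv s pt N a x x :=
  ⟨∅, fun _ _ => Iff.rfl⟩

theorem Eqv.symm {N : St ar E} {a : Fin (ar s) → E} {x x' : P → E} (h : Eqv s pt N a x x') :
    Eqv s pt N a x' x := by
  obtain ⟨F, hF⟩ := h
  exact ⟨F, fun z hz => (hF z hz).symm⟩

theorem Eqv.trans {N : St ar E} {a : Fin (ar s) → E} {x x' x'' : P → E}
    (h : Eqv s pt N a x x') (h' : Eqv s pt N a x' x'') : Eqv s pt N a x x'' := by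
  classical
  obtain ⟨F, hF⟩ := h
  obtain ⟨F', hF'⟩ := h'
  exact ⟨F ∪ F', fun z hz => (hF z fun q hq => hz q (by simp [hq])).trans
    (hF' z fun q hq => hz q (by simp [hq]))⟩

/-- `F` is the set of elements of the tuples equivalent to `x`. -/
def HasSupp (s : Y) (pt : Fin (ar s) → Option (P ⊕ Q)) (N : St ar E) (a : Fin (ar s) → E)
    (x : P → E) (F : Finset E) : Prop :=
  (∀ x', Eqv s pt N a x x' → ∀ u, x' u ∈ F) ∧ ∀ e ∈ F, ∃ x', Eqv s pt N a x x' ∧ ∃ u, x' u = e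

/-- The decoding property. -/
def PhiO (s : Y) (pt : Fin (ar s) → Option (P ⊕ Q)) (lo hi : ℕ → ℕ) (N : St ar E)
    (a : Fin (ar s) → E) (t : ℕ) : Prop :=
  ∃ (x : P → E) (F : Finset E), HasSupp s pt N a x F ∧ lo t ≤ F.card ∧ F.card ≤ hi t

theorem Eqv.iso {N : St ar E} {N' : St ar E'} (e : E ≃ E') (h : ∀ s w, N s w ↔ N' s (e ∘ w))
    {a : Fin (ar s) → E} {x x' : P → E} (hx : Eqv s pt N a x x') :
    Eqv s pt N' (e ∘ a) (e ∘ x) (e ∘ x') := by
  obtain ⟨F, hF⟩ := hx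
  refine ⟨F.map e.toEmbedding, fun z hz => ?_⟩
  have h1 : z = e ∘ e.symm ∘ z := by ext; simp
  have h2 : ∀ q, (e.symm ∘ z) q ∉ F := by
    intro q hq
    apply hz q
    rw [Finset.mem_map]
    exact ⟨_, hq, by simp⟩
  rw [h1, ← comp_mk3, ← comp_mk3, ← h, ← h]
  exact hF _ h2

theorem PhiO.iso {lo hi : ℕ → ℕ} {N : St ar E} {N' : St ar E'} (e : E ≃ E')
    (h : ∀ s w, N s w ↔ N' s (e ∘ w)) {a : Fin (ar s) → E} {t : ℕ}
    (hx : PhiO s pt lo hi N a t) : PhiO s pt lo hi N' (e ∘ a) t := by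
  have h' : ∀ s w, N' s w ↔ N s (e.symm ∘ w) := by
    intro s w
    rw [h]
    have : e ∘ e.symm ∘ w = w := by ext; simp
    rw [this]
  obtain ⟨x, F, ⟨h1, h2⟩, h3, h4⟩ := hx
  refine ⟨e ∘ x, F.map e.toEmbedding, ⟨?_, ?_⟩, ?_, ?_⟩
  · intro x' hx' u
    have := hx'.iso e.symm h'
    have e1 : e.symm ∘ e ∘ a = a := by ext; simp
    have e2 : e.symm ∘ e ∘ x = x := by ext; simp
    rw [e1, e2] at this
    have h5 := h1 _ this u
    rw [Finset.mem_map]
    exact ⟨_, h5, by simp⟩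
  · intro e' he'
    rw [Finset.mem_map] at he'
    obtain ⟨b, hb, rfl⟩ := he'
    obtain ⟨x', hx', u, hu⟩ := h2 b hb
    exact ⟨e ∘ x', hx'.iso e h, u, by simp [← hu]⟩
  · rw [Finset.card_map]; exact h3
  · rw [Finset.card_map]; exact h4

theorem mp_eqv [Countable Y] [Finite P] [Finite Q] (a : Fin (ar s) → ℕ) (x x' : P → ℕ) :
    MP fun c : Sp ar => Eqv s pt (toSt c) a x x' :=
  MP.ex fun _ => MP.all fun _ => MP.imp (MP.const _) (MP.iff (MP.atom s _) (MP.atom s _))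

theorem mp_phiO [Countable Y] [Finite P] [Finite Q] (lo hi : ℕ → ℕ) (a : Fin (ar s) → ℕ) (t : ℕ) :
    MP fun c : Sp ar => PhiO s pt lo hi (toSt c) a t :=
  MP.ex fun _ => MP.ex fun _ => MP.and (MP.and
    (MP.all fun _ => MP.imp (mp_eqv a _ _) (MP.const _))
    (MP.all fun _ => MP.imp (MP.const _) (MP.ex fun _ => MP.and (mp_eqv a _ _) (MP.const _))))
    (MP.and (MP.const _) (MP.const _))

/-- Rows for the order theorem. -/
abbrev Rw : Type := ℕ ×ₗ (Bool ×ₗ ℤ)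

/-- A row. -/
def mkR (t : ℕ) (b : Bool) (z : ℤ) : Rw := toLex (t, toLex (b, z))

theorem mkR_lt (t t' : ℕ) (b b' : Bool) (z z' : ℤ) :
    mkR t b z < mkR t' b' z' ↔ t < t' ∨ (t = t' ∧ (b < b' ∨ (b = b' ∧ z < z'))) := by
  unfold mkR
  rw [Prod.Lex.toLex_lt_toLex, Prod.Lex.toLex_lt_toLex]

theorem mkR_inj {t t' : ℕ} {b b' : Bool} {z z' : ℤ} :
    mkR t b z = mkR t' b' z' ↔ t = t' ∧ b = b' ∧ z = z' := by
  unfold mkR
  constructor
  · intro h
    have h1 := congrArg ofLex h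
    simp only [ofLex_toLex, Prod.mk.injEq] at h1
    have h2 := congrArg ofLex h1.2
    simp only [ofLex_toLex, Prod.mk.injEq] at h2
    exact ⟨h1.1, h2.1, h2.2⟩
  · rintro ⟨rfl, rfl, rfl⟩; rfl

theorem exists_mkR (r : Rw) : ∃ t b z, r = mkR t b z := by
  refine ⟨(ofLex r).1, (ofLex (ofLex r).2).1, (ofLex (ofLex r).2).2, ?_⟩
  rfl

/-- Kind of a row. -/
def kd (r : Rw) : Bool := (ofLex (ofLex r).2).1

@[simp] theorem kd_mkR (t : ℕ) (b : Bool) (z : ℤ) : kd (mkR t b z) = b := rfl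

end Pool.Agent.Helper6.VU
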