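import Pool.Agent.Helper6.V3Dec

/-!
# Noncommuting limits give perfectly many structures
-/

set_option autoImplicit false

namespace Pool.Agent.Helper6.VU

open Set Filter

/-- Rank in a finite set of integers. -/
def rk (T : Finset ℤ) (z : ℤ) : ℕ := (T.filter (· < z)).card

theorem rk_lt {T : Finset ℤ} {z z' : ℤ} (hz : z ∈ T) (h : z < z') : rk T z < rk T z' := by
  refine Finset.card_lt_card ?_
  rw [Finset.ssubset_iff_of_subset]
  · exact ⟨z, by simp [hz, h], by simp⟩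
  · intro y hy
    simp only [Finset.mem_filter] at hy ⊢
    exact ⟨hy.1, hy.2.trans h⟩

theorem rk_lt_card {T : Finset ℤ} {z : ℤ} (hz : z ∈ T) : rk T z < T.card := by
  refine Finset.card_lt_card ?_
  rw [Finset.ssubset_iff_of_subset (Finset.filter_subset _ _)]
  exact ⟨z, hz, by simp⟩

variable {Y : Type} {ar : Y → ℕ} {D P Q : Type}

section Ctx

variable (U : Ultrafilter (P → D)) (V : Ultrafilter (Q → D)) (d0 : D) (M : St ar D) (s : Y)
  (w : Fin (ar s) → D ⊕ (P ⊕ Q))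

/-- The ultrafilters of the rows. -/
noncomputable def oU (r : Rw) : Ultrafilter (P ⊕ Q → D) :=
  if kd r = false then U.map (fun x => Sum.elim x fun _ => d0)
  else V.map (fun y => Sum.elim (fun _ => d0) y)

/-- The coordinates of the rows. -/
def oB (r : Rw) : Set (P ⊕ Q) := if kd r = false then range Sum.inl else range Sum.inr

/-- The big structure. -/
def oG : St ar (D ⊕ Rw × (P ⊕ Q)) := GU (oU U V d0) (fun _ _ => d0) M

/-- The pattern. -/
def oPt : Fin (ar s) → Option (P ⊕ Q) := fun k => Sum.elim (fun _ => none) some (w k)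

/-- The parameters. -/
def oA : Fin (ar s) → D ⊕ Rw × (P ⊕ Q) := fun k => Sum.inl (Sum.elim id (fun _ => d0) (w k))

/-- The elements used for `S`. -/
def oX (NN : ℕ → ℕ) (S : Set ℕ) : Set (D ⊕ Rw × (P ⊕ Q)) :=
  {e | (∃ k d, w k = Sum.inl d ∧ e = Sum.inl d) ∨
    (∃ t ∈ S, ∃ z : ℤ, 0 ≤ z ∧ z < NN t ∧ ∃ a : P, e = Sum.inr (mkR (t + 1) false z, Sum.inl a)) ∨
    (∃ t z, ∃ b : Q, e = Sum.inr (mkR t true z, Sum.inr b))}

end Ctx

variable {U : Ultrafilter (P → D)} {V : Ultrafilter (Q → D)} {d0 : D} {M : St ar D} {s : Y}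
  {w : Fin (ar s) → D ⊕ (P ⊕ Q)} {NN : ℕ → ℕ} {S : Set ℕ}

theorem oB_disj (hU : Disj U univ) (hV : Disj V univ) (r : Rw) : Disj (oU U V d0 r) (oB r) := by
  unfold oU oB
  by_cases h : kd r = false
  · simp only [h, if_true]
    constructor
    · rintro _ ⟨a, rfl⟩ d
      exact hU.1 a trivial d
    · rintro _ ⟨a, rfl⟩ _ ⟨a', rfl⟩ hne
      exact hU.2 a trivial a' trivial fun h => hne (by rw [h])
  · simp only [h]
    constructor
    · rintro _ ⟨a, rfl⟩ d
      exact hV.1 a trivial d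
    · rintro _ ⟨a, rfl⟩ _ ⟨a', rfl⟩ hne
      exact hV.2 a trivial a' trivial fun h => hne (by rw [h])

theorem oX_live : oX s w NN S ⊆ live (oB (P := P) (Q := Q)) := by
  rintro e (⟨k, d, -, rfl⟩ | ⟨t, -, z, -, -, a, rfl⟩ | ⟨t, z, b, rfl⟩) r c h
  · simp at h
  · simp only [Sum.inr.injEq, Prod.mk.injEq] at h
    rw [← h.1, ← h.2]
    simp [oB]
  · simp only [Sum.inr.injEq, Prod.mk.injEq] at h
    rw [← h.1, ← h.2]
    simp [oB]

/-- The value of the pattern on a pair of rows. -/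
theorem oG_pair {i j : Rw} (hi : kd i = false) (hj : kd j = true) :
    (i < j → (oG U V d0 M s (mk3 (oPt s w) (oA d0 s w) (fun u => Sum.inr (i, Sum.inl u))
      (fun v => Sum.inr (j, Sum.inr v))) ↔
      ∀ᶠ x in (U : Filter (P → D)), ∀ᶠ y in (V : Filter (Q → D)), M s (ev2 x y ∘ w))) ∧
    (j < i → (oG U V d0 M s (mk3 (oPt s w) (oA d0 s w) (fun u => Sum.inr (i, Sum.inl u))
      (fun v => Sum.inr (j, Sum.inr v))) ↔
      ∀ᶠ y in (V : Filter (Q → D)), ∀ᶠ x in (U : Filter (P → D)), M s (ev2 x y ∘ w))) := by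
  have hij : i ≠ j := by
    rintro rfl
    rw [hi] at hj
    exact absurd hj (by simp)
  have hrows : rowsOf (mk3 (oPt s w) (oA d0 s w) (fun u => (Sum.inr (i, Sum.inl u) :
      D ⊕ Rw × (P ⊕ Q))) (fun v => Sum.inr (j, Sum.inr v))) ⊆ {i, j} := by
    rintro r ⟨k, a, hk⟩
    rcases hwk : w k with d | u | v
    · rw [mk3_none (by simp [oPt, hwk])] at hk
      simp [oA] at hk
    · rw [mk3_inl (u := u) (by simp [oPt, hwk])] at hk
      simp only [Sum.inr.injEq, Prod.mk.injEq] at hk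
      simp [hk.1]
    · rw [mk3_inr (v := v) (by simp [oPt, hwk])] at hk
      simp only [Sum.inr.injEq, Prod.mk.injEq] at hk
      simp [hk.1]
  have hcomp : ∀ (x : P → D) (y : Q → D) (g : Rw → (P ⊕ Q) → D),
      (∀ u, g i (Sum.inl u) = x u) → (∀ v, g j (Sum.inr v) = y v) →
      ev g ∘ mk3 (oPt s w) (oA d0 s w) (fun u => Sum.inr (i, Sum.inl u))
        (fun v => Sum.inr (j, Sum.inr v)) = ev2 x y ∘ w := by
    intro x y g h1 h2
    funext k
    show ev g (mk3 (oPt s w) (oA d0 s w) _ _ k) = ev2 x y (w k)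
    rcases hwk : w k with d | u | v
    · rw [mk3_none (by simp [oPt, hwk])]
      simp [oA, ev2, hwk]
    · rw [mk3_inl (u := u) (by simp [oPt, hwk])]
      simp [ev2, h1]
    · rw [mk3_inr (v := v) (by simp [oPt, hwk])]
      simp [ev2, h2]
  have hUi : oU U V d0 i = U.map (fun x => Sum.elim x fun _ => d0) := by simp [oU, hi]
  have hUj : oU U V d0 j = V.map (fun y => Sum.elim (fun _ => d0) y) := by simp [oU, hj]
  constructor
  · intro hlt
    rw [oG, GU_eval (l := [i, j]) (by simp [hlt]) (by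
      refine hrows.trans ?_
      intro r hr
      simpa using hr) (fun _ _ => d0), NU_cons, hUi, ev_map]
    refine ev_congr fun x => ?_
    rw [NU_cons, hUj, ev_map]
    refine ev_congr fun y => ?_
    rw [NU_nil, hcomp x y]
    · intro u; rw [upd_ne _ _ hij, upd_same]; rfl
    · intro v; rw [upd_same]; rfl
  · intro hlt
    rw [oG, GU_eval (l := [j, i]) (by simp [hlt]) (by
      refine hrows.trans ?_
      intro r hr
      simpa [or_comm] using hr) (fun _ _ => d0), NU_cons, hUj, ev_map]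
    refine ev_congr fun y => ?_
    rw [NU_cons, hUi, ev_map]
    refine ev_congr fun x => ?_
    rw [NU_nil, hcomp x y]
    · intro u; rw [upd_same]; rfl
    · intro v; rw [upd_ne _ _ hij.symm, upd_same]; rfl

/-- Moving the used rows of one segment. -/
noncomputable def mvR {κ : Type} (x : κ → D ⊕ Rw × (P ⊕ Q)) (t : ℕ) (b : Bool) (f : ℤ → ℤ)
    (r : Rw) : Rw :=
  open Classical in
  if r ∈ rowsOf x ∧ ∃ z, r = mkR t b z then mkR t b (f (ofLex (ofLex r).2).2) else r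

theorem mvR_mkR {κ : Type} {x : κ → D ⊕ Rw × (P ⊕ Q)} {t : ℕ} {b : Bool} {f : ℤ → ℤ} {z : ℤ}
    (h : mkR t b z ∈ rowsOf x) : mvR x t b f (mkR t b z) = mkR t b (f z) := by
  unfold mvR
  rw [if_pos ⟨h, z, rfl⟩]
  rfl

theorem mvR_other {κ : Type} {x : κ → D ⊕ Rw × (P ⊕ Q)} {t : ℕ} {b : Bool} {f : ℤ → ℤ} {r : Rw}
    (h : ¬ (r ∈ rowsOf x ∧ ∃ z, r = mkR t b z)) : mvR x t b f r = r := by
  unfold mvR
  rw [if_neg h]

theorem rmap_fix {κ : Type} {σ : Rw → Rw} {z : κ → D ⊕ Rw × (P ⊕ Q)}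
    (h : ∀ r ∈ rowsOf z, σ r = r) : rmap σ ∘ z = z := by
  funext k
  rcases hz : z k with d | ⟨r, a⟩
  · simp [rmap, hz]
  · simp [rmap, hz, h r ⟨k, a, hz⟩]

theorem rowsOf_mk3 {x : P → D ⊕ Rw × (P ⊕ Q)} {z : Q → D ⊕ Rw × (P ⊕ Q)} :
    rowsOf (mk3 (oPt s w) (oA d0 s w) x z) ⊆ rowsOf x ∪ rowsOf z := by
  rintro r ⟨k, a, hk⟩
  rcases hwk : w k with d | u | v
  · rw [mk3_none (by simp [oPt, hwk])] at hk
    simp [oA] at hk
  · rw [mk3_inl (u := u) (by simp [oPt, hwk])] at hk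
    exact Or.inl ⟨u, a, hk⟩
  · rw [mk3_inr (v := v) (by simp [oPt, hwk])] at hk
    exact Or.inr ⟨v, a, hk⟩

theorem oG_shift {x : P → D ⊕ Rw × (P ⊕ Q)} {z : Q → D ⊕ Rw × (P ⊕ Q)} {t : ℕ} {b : Bool}
    {f : ℤ → ℤ} {lo hi : ℤ}
    (h1 : ∀ z', mkR t b z' ∈ rowsOf x → lo ≤ z' ∧ z' ≤ hi ∧ lo ≤ f z' ∧ f z' ≤ hi)
    (hf : ∀ z' z'', mkR t b z' ∈ rowsOf x → mkR t b z'' ∈ rowsOf x → z' < z'' → f z' < f z'')
    (h2 : ∀ z', mkR t b z' ∈ rowsOf z → z' < lo ∨ hi < z') :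
    oG U V d0 M s (mk3 (oPt s w) (oA d0 s w) (rmap (mvR x t b f) ∘ x) z) ↔
      oG U V d0 M s (mk3 (oPt s w) (oA d0 s w) x z) := by
  have hz : rmap (mvR x t b f) ∘ z = z := by
    refine rmap_fix fun r hr => mvR_other ?_
    rintro ⟨hrx, z', rfl⟩
    have := h1 z' hrx
    rcases h2 z' hr with h | h <;> omega
  have ha : rmap (mvR x t b f) ∘ (oA d0 s w : Fin (ar s) → D ⊕ Rw × (P ⊕ Q)) = oA d0 s w := by
    funext k
    rfl
  have e1 : mk3 (oPt s w) (oA d0 s w) (rmap (mvR x t b f) ∘ x) z =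
      rmap (mvR x t b f) ∘ mk3 (oPt s w) (oA d0 s w) x z := by
    rw [comp_mk3, ha, hz]
  rw [e1]
  refine GU_rmap ?_ ?_
  · intro r hr r' hr' hlt
    obtain ⟨t1, b1, z1, rfl⟩ := exists_mkR r
    obtain ⟨t2, b2, z2, rfl⟩ := exists_mkR r'
    by_cases c1 : mkR t1 b1 z1 ∈ rowsOf x ∧ ∃ z, mkR t1 b1 z1 = mkR t b z
    · obtain ⟨hx1, z3, hz3⟩ := c1
      obtain ⟨rfl, rfl, rfl⟩ := mkR_inj.mp hz3
      rw [mvR_mkR hx1]
      have b1' := h1 _ hx1
      by_cases c2 : mkR t2 b2 z2 ∈ rowsOf x ∧ ∃ z, mkR t2 b2 z2 = mkR t1 b1 z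
      · obtain ⟨hx2, z4, hz4⟩ := c2
        obtain ⟨rfl, rfl, rfl⟩ := mkR_inj.mp hz4
        rw [mvR_mkR hx2]
        rw [mkR_lt] at hlt ⊢
        rcases hlt with h | ⟨-, h | ⟨-, h⟩⟩
        · exact absurd h (lt_irrefl _)
        · exact absurd h (lt_irrefl _)
        · exact Or.inr ⟨rfl, Or.inr ⟨rfl, hf _ _ hx1 hx2 h⟩⟩
      · rw [mvR_other c2]
        rw [mkR_lt] at hlt ⊢
        rcases hlt with h | ⟨h, h' | ⟨h', h''⟩⟩
        · exact Or.inl h
        · exact Or.inr ⟨h, Or.inl h'⟩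
        · subst h; subst h'
          rcases rowsOf_mk3 hr' with h3 | h3
          · exact absurd ⟨h3, z2, rfl⟩ c2
          · rcases h2 _ h3 with h4 | h4
            · omega
            · exact Or.inr ⟨rfl, Or.inr ⟨rfl, by omega⟩⟩
    · rw [mvR_other c1]
      by_cases c2 : mkR t2 b2 z2 ∈ rowsOf x ∧ ∃ z, mkR t2 b2 z2 = mkR t b z
      · obtain ⟨hx2, z4, hz4⟩ := c2
        obtain ⟨rfl, rfl, rfl⟩ := mkR_inj.mp hz4
        rw [mvR_mkR hx2]
        have b2' := h1 _ hx2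
        rw [mkR_lt] at hlt ⊢
        rcases hlt with h | ⟨h, h' | ⟨h', h''⟩⟩
        · exact Or.inl h
        · exact Or.inr ⟨h, Or.inl h'⟩
        · subst h; subst h'
          rcases rowsOf_mk3 hr with h3 | h3
          · exact absurd ⟨h3, z1, rfl⟩ c1
          · rcases h2 _ h3 with h4 | h4
            · exact Or.inr ⟨rfl, Or.inr ⟨rfl, by omega⟩⟩
            · omega
      · rw [mvR_other c2]
        exact hlt
  · intro r hr
    have : kd (mvR x t b f r) = kd r := by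
      by_cases c1 : r ∈ rowsOf x ∧ ∃ z, r = mkR t b z
      · obtain ⟨hx1, z3, rfl⟩ := c1
        rw [mvR_mkR hx1]
        rfl
      · rw [mvR_other c1]
    unfold oU
    rw [this]

/-- The structure for `S`. -/
def oN (U : Ultrafilter (P → D)) (V : Ultrafilter (Q → D)) (d0 : D) (M : St ar D) (s : Y)
    (w : Fin (ar s) → D ⊕ (P ⊕ Q)) (NN : ℕ → ℕ) (S : Set ℕ) : St ar (oX s w NN S) :=
  pull Subtype.val (oG U V d0 M)

/-- The parameters in the structure for `S`. -/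
def oAS (s : Y) (w : Fin (ar s) → D ⊕ (P ⊕ Q)) (NN : ℕ → ℕ) (S : Set ℕ) (q0 : Q) :
    Fin (ar s) → oX s w NN S := fun k =>
  match h : w k with
  | Sum.inl d => ⟨Sum.inl d, Or.inl ⟨k, d, h, rfl⟩⟩
  | Sum.inr _ => ⟨Sum.inr (mkR 0 true 0, Sum.inr q0), Or.inr (Or.inr ⟨0, 0, q0, rfl⟩)⟩

theorem oAS_inl {q0 : Q} {k : Fin (ar s)} {d : D} (h : w k = Sum.inl d) :
    (oAS s w NN S q0 k).1 = Sum.inl d := by
  unfold oAS
  split
  · rename_i d' h'
    rw [h] at h'
    simpa using h'.symm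
  · rename_i c h'
    rw [h] at h'
    simp at h'

theorem val_mk3 {q0 : Q} (x : P → oX s w NN S) (z : Q → oX s w NN S) :
    Subtype.val ∘ mk3 (oPt s w) (oAS s w NN S q0) x z =
      mk3 (oPt s w) (oA d0 s w) (Subtype.val ∘ x) (Subtype.val ∘ z) := by
  rw [comp_mk3]
  funext k
  rcases hwk : w k with d | u | v
  · rw [mk3_none (by simp [oPt, hwk]), mk3_none (by simp [oPt, hwk])]
    show (oAS s w NN S q0 k).1 = _
    rw [oAS_inl hwk]
    simp [oA, hwk]
  · rw [mk3_inl (u := u) (by simp [oPt, hwk]), mk3_inl (u := u) (by simp [oPt, hwk])]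
  · rw [mk3_inr (v := v) (by simp [oPt, hwk]), mk3_inr (v := v) (by simp [oPt, hwk])]

theorem oN_iff {q0 : Q} (x : P → oX s w NN S) (z : Q → oX s w NN S) :
    oN U V d0 M s w NN S s (mk3 (oPt s w) (oAS s w NN S q0) x z) ↔
      oG U V d0 M s (mk3 (oPt s w) (oA d0 s w) (Subtype.val ∘ x) (Subtype.val ∘ z)) := by
  show oG U V d0 M s (Subtype.val ∘ mk3 (oPt s w) (oAS s w NN S q0) x z) ↔ _
  rw [val_mk3 (d0 := d0)]

theorem mem_oX_move {κ : Type} {x : κ → D ⊕ Rw × (P ⊕ Q)} {t : ℕ} {b : Bool} {f : ℤ → ℤ}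
    (hb : b = false → ∀ t1, t = t1 + 1 → ∀ z', mkR t b z' ∈ rowsOf x → 0 ≤ f z' ∧ f z' < NN t1)
    {e : D ⊕ Rw × (P ⊕ Q)} (he : e ∈ oX s w NN S) : rmap (mvR x t b f) e ∈ oX s w NN S := by
  rcases he with ⟨k, d, hk, rfl⟩ | ⟨t1, ht1, z, hz1, hz2, a, rfl⟩ | ⟨t1, z, c, rfl⟩
  · exact Or.inl ⟨k, d, hk, rfl⟩
  · right; left
    by_cases c1 : mkR (t1 + 1) false z ∈ rowsOf x ∧ ∃ z', mkR (t1 + 1) false z = mkR t b z'
    · obtain ⟨hx1, z3, hz3⟩ := c1
      obtain ⟨rfl, rfl, rfl⟩ := mkR_inj.mp hz3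
      have := hb rfl t1 rfl z hx1
      refine ⟨t1, ht1, f z, this.1, this.2, a, ?_⟩
      simp [rmap, mvR_mkR hx1]
    · exact ⟨t1, ht1, z, hz1, hz2, a, by simp [rmap, mvR_other c1]⟩
  · right; right
    by_cases c1 : mkR t1 true z ∈ rowsOf x ∧ ∃ z', mkR t1 true z = mkR t b z'
    · obtain ⟨hx1, z3, hz3⟩ := c1
      obtain ⟨rfl, rfl, rfl⟩ := mkR_inj.mp hz3
      exact ⟨t1, f z, c, by simp [rmap, mvR_mkR hx1]⟩
    · exact ⟨t1, z, c, by simp [rmap, mvR_other c1]⟩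

theorem used_finite [Finite P] (x : P → D ⊕ Rw × (P ⊕ Q)) (t : ℕ) (b : Bool) :
    {z | mkR t b z ∈ rowsOf x}.Finite :=
  (finite_rowsOf x).preimage fun _ _ _ _ h => (mkR_inj.mp h).2.2

/-- The used rows of a segment. -/
noncomputable def usd [Finite P] (x : P → D ⊕ Rw × (P ⊕ Q)) (t : ℕ) (b : Bool) : Finset ℤ :=
  (used_finite x t b).toFinset

theorem mem_usd [Finite P] {x : P → D ⊕ Rw × (P ⊕ Q)} {t : ℕ} {b : Bool} {z : ℤ} :
    z ∈ usd x t b ↔ mkR t b z ∈ rowsOf x := by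
  simp [usd]

theorem card_usd [Fintype P] (x : P → D ⊕ Rw × (P ⊕ Q)) (t : ℕ) (b : Bool) :
    (usd x t b).card ≤ Fintype.card P := by
  classical
  have h1 : usd x t b ⊆ Finset.univ.image fun u : P =>
      Sum.elim (fun _ => (0 : ℤ)) (fun p => (ofLex (ofLex p.1).2).2) (x u) := by
    intro z hz
    rw [mem_usd] at hz
    obtain ⟨u, c, hu⟩ := hz
    rw [Finset.mem_image]
    refine ⟨u, Finset.mem_univ _, ?_⟩
    rw [hu]
    rfl
  exact (Finset.card_le_card h1).trans (Finset.card_image_le.trans (by simp))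

/-- The shift of the used rows of a segment gives an equivalent tuple. -/
theorem exists_shift [Fintype P] [Finite Q] {q0 : Q} (x : P → oX s w NN S) (t : ℕ) (b : Bool)
    (c : ℤ)
    (hb : b = false → ∀ t1, t = t1 + 1 → 0 ≤ c ∧
      c + (usd (Subtype.val ∘ x) t b).card ≤ NN t1) :
    ∃ x' : P → oX s w NN S, Eqv s (oPt s w) (oN U V d0 M s w NN S) (oAS s w NN S q0) x x' ∧
      ∀ u, (x' u).1 = rmap (mvR (Subtype.val ∘ x) t b
        fun z => c + rk (usd (Subtype.val ∘ x) t b) z) (x u).1 := by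
  classical
  let T := usd (Subtype.val ∘ x) t b
  let f : ℤ → ℤ := fun z => c + rk T z
  have hT : ∀ z, mkR t b z ∈ rowsOf (Subtype.val ∘ x) → z ∈ T := fun z hz => mem_usd.mpr hz
  let x' : P → oX s w NN S := fun u => ⟨rmap (mvR (Subtype.val ∘ x) t b f) (x u).1,
    mem_oX_move (by
      intro hb1 t1 ht1 z' hz'
      have h1 := hb hb1 t1 ht1
      have h2 : rk T z' < T.card := rk_lt_card (hT _ hz')
      have h3 : (T.card : ℤ) = (usd (Subtype.val ∘ x) t b).card := rfl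
      constructor
      · show 0 ≤ c + (rk T z' : ℤ)
        omega
      · show c + (rk T z' : ℤ) < NN t1
        omega) (x u).2⟩
  refine ⟨x', ?_, fun u => rfl⟩
  let Bd : ℤ := ∑ z ∈ T, (|z| + |f z|)
  have hBd : ∀ z ∈ T, |z| + |f z| ≤ Bd := fun z hz =>
    Finset.single_le_sum (f := fun z => |z| + |f z|) (fun i _ => by positivity) hz
  -- the hitting set
  have hfinF : {e : oX s w NN S | ∃ z', -Bd ≤ z' ∧ z' ≤ Bd ∧ ∃ a, e.1 =
      Sum.inr (mkR t b z', a)}.Finite := by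
    have h1 : ((fun q : ℤ × (P ⊕ Q) => (Sum.inr (mkR t b q.1, q.2) : D ⊕ Rw × (P ⊕ Q))) ''
        ((Set.Icc (-Bd) Bd) ×ˢ (Set.univ : Set (P ⊕ Q)))).Finite :=
      ((Set.finite_Icc _ _).prod Set.finite_univ).image _
    refine (h1.preimage (f := (Subtype.val : oX s w NN S → D ⊕ Rw × (P ⊕ Q)))
      Subtype.val_injective.injOn).subset ?_
    rintro e ⟨z', h2, h3, a, h4⟩
    exact ⟨(z', a), ⟨⟨h2, h3⟩, trivial⟩, h4.symm⟩
  refine ⟨hfinF.toFinset, fun z hz => ?_⟩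
  have hx' : Subtype.val ∘ x' = rmap (mvR (Subtype.val ∘ x) t b f) ∘ (Subtype.val ∘ x) := rfl
  rw [oN_iff (d0 := d0), oN_iff (d0 := d0), hx']
  refine (oG_shift (lo := -Bd) (hi := Bd) ?_ ?_ ?_).symm
  · intro z' hz'
    have h1 := hBd z' (hT _ hz')
    have h2 := abs_le.mp (show |z'| ≤ Bd by have := abs_nonneg (f z'); linarith)
    have h3 := abs_le.mp (show |f z'| ≤ Bd by have := abs_nonneg z'; linarith)
    exact ⟨h2.1, h2.2, h3.1, h3.2⟩
  · intro z' z'' hz' _ hlt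
    have := rk_lt (hT _ hz') hlt
    show c + (rk T z' : ℤ) < c + (rk T z'' : ℤ)
    omega
  · rintro z' ⟨q, a, hq⟩
    by_contra hcon
    push Not at hcon
    refine hz q ?_
    rw [Set.Finite.mem_toFinset]
    exact ⟨z', hcon.1, hcon.2, a, hq⟩

/-- Tuples using a row of the second kind have infinite support. -/
theorem supp_no_right [Fintype P] [Finite Q] {q0 : Q} {x x' : P → oX s w NN S}
    {F : Finset (oX s w NN S)}
    (hF : HasSupp s (oPt s w) (oN U V d0 M s w NN S) (oAS s w NN S q0) x F)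
    (hx : Eqv s (oPt s w) (oN U V d0 M s w NN S) (oAS s w NN S q0) x x') (u : P) (t : ℕ) (z : ℤ)
    (a : P ⊕ Q) : (x' u).1 ≠ Sum.inr (mkR t true z, a) := by
  intro hu
  have hz : mkR t true z ∈ rowsOf (Subtype.val ∘ x') := ⟨u, a, hu⟩
  have h1 : ∀ c : ℤ, ∃ e ∈ F, e.1 = Sum.inr (mkR t true
      (c + rk (usd (Subtype.val ∘ x') t true) z), a) := by
    intro c
    obtain ⟨x'', h2, h3⟩ := exists_shift (U := U) (V := V) (d0 := d0) (M := M) (q0 := q0) x' t
      true c (by simp)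
    refine ⟨x'' u, hF.1 x'' (hx.trans h2) u, ?_⟩
    rw [h3, hu]
    simp [rmap, mvR_mkR hz]
  choose e he1 he2 using h1
  have hinj : Function.Injective e := by
    intro c c' h
    have h4 := he2 c
    rw [h, he2 c'] at h4
    simp only [Sum.inr.injEq, Prod.mk.injEq, and_true] at h4
    have := (mkR_inj.mp h4).2.2
    omega
  have : Set.Infinite (F : Set (oX s w NN S)) :=
    Set.infinite_of_injective_forall_mem hinj he1
  exact this F.finite_toSet

/-- Tuples using a row of a block have large support. -/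
theorem supp_block [Fintype P] [Finite Q] {q0 : Q} {x x' : P → oX s w NN S}
    {F : Finset (oX s w NN S)}
    (hF : HasSupp s (oPt s w) (oN U V d0 M s w NN S) (oAS s w NN S q0) x F)
    (hx : Eqv s (oPt s w) (oN U V d0 M s w NN S) (oAS s w NN S q0) x x') {u : P} {t : ℕ} {z : ℤ}
    {a : P ⊕ Q} (hu : (x' u).1 = Sum.inr (mkR (t + 1) false z, a)) :
    NN t + 1 ≤ F.card + Fintype.card P := by
  classical
  have hz : mkR (t + 1) false z ∈ rowsOf (Subtype.val ∘ x') := ⟨u, a, hu⟩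
  have hcard := card_usd (Subtype.val ∘ x' : P → D ⊕ Rw × (P ⊕ Q)) (t + 1) false
  by_cases hlarge : NN t + 1 ≤ Fintype.card P
  · omega
  have h1 : ∀ c : Fin (NN t + 1 - Fintype.card P), ∃ e ∈ F, e.1 =
      Sum.inr (mkR (t + 1) false ((c : ℕ) + rk (usd (Subtype.val ∘ x') (t + 1) false) z), a) := by
    intro c
    have hc := c.2
    obtain ⟨x'', h2, h3⟩ := exists_shift (U := U) (V := V) (d0 := d0) (M := M) (q0 := q0) x'
      (t + 1) false (c : ℕ) (by
        intro _ t1 ht1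
        have : t = t1 := by omega
        subst this
        constructor
        · positivity
        · have : ((c : ℕ) : ℤ) + ((usd (Subtype.val ∘ x') (t + 1) false).card : ℤ) ≤ NN t := by
            omega
          exact this)
    refine ⟨x'' u, hF.1 x'' (hx.trans h2) u, ?_⟩
    rw [h3, hu]
    simp [rmap, mvR_mkR hz]
  choose e he1 he2 using h1
  have hinj : Function.Injective e := by
    intro c c' h
    have h4 := he2 c
    rw [h, he2 c'] at h4
    simp only [Sum.inr.injEq, Prod.mk.injEq, and_true] at h4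
    have := (mkR_inj.mp h4).2.2
    ext
    omega
  have h5 : (Finset.univ.image e).card ≤ F.card :=
    Finset.card_le_card fun y hy => by
      rw [Finset.mem_image] at hy
      obtain ⟨c, -, rfl⟩ := hy
      exact he1 c
  rw [Finset.card_image_of_injective _ hinj, Finset.card_univ, Fintype.card_fin] at h5
  omega

end Pool.Agent.Helper6.VU
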