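import Pool.Agent.Helper6.V3Order

/-!
# Noncommuting limits give perfectly many structures, end of the proof
-/

set_option autoImplicit false

namespace Pool.Agent.Helper6.VU

open Set Filter

variable {Y : Type} {ar : Y → ℕ} {D P Q : Type}
variable {U : Ultrafilter (P → D)} {V : Ultrafilter (Q → D)} {d0 : D} {M : St ar D} {s : Y}
  {w : Fin (ar s) → D ⊕ (P ⊕ Q)} {NN : ℕ → ℕ} {S : Set ℕ}

/-- Exchanging a row of the second kind with a block few of whose coordinates are used. -/
theorem oG_jump {K : HC ar} [Fintype P] [Fintype Q] (hM : K.mem M) (hU : Disj U univ)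
    (hV : Disj V univ) (hC : CommLt K (Fintype.card P)) {x : P → oX s w NN S} {t : ℕ} {z1 z2 : ℤ}
    (h1 : ∀ z, mkR t true z ∈ rowsOf (Subtype.val ∘ x) → z < z1)
    (h2 : ∀ z, mkR (t + 1) true z ∈ rowsOf (Subtype.val ∘ x) → z2 < z) {u0 : P}
    (hu0 : ∀ z a, (x u0).1 ≠ Sum.inr (mkR (t + 1) false z, a)) :
    oG U V d0 M s (mk3 (oPt s w) (oA d0 s w) (Subtype.val ∘ x)
      (fun v => Sum.inr (mkR t true z1, Sum.inr v))) ↔
    oG U V d0 M s (mk3 (oPt s w) (oA d0 s w) (Subtype.val ∘ x)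
      (fun v => Sum.inr (mkR (t + 1) true z2, Sum.inr v))) := by
  classical
  set j1 := mkR t true z1 with hj1
  set j2 := mkR (t + 1) true z2 with hj2
  have hj12 : j1 < j2 := by rw [hj1, hj2, mkR_lt]; left; omega
  let R0 : Set Rw := rowsOf (Subtype.val ∘ x : P → D ⊕ Rw × (P ⊕ Q))
  have hR0 : R0.Finite := finite_rowsOf _
  have hR0cl : ∀ r ∈ R0, r < j1 ∨ (∃ z, r = mkR (t + 1) false z) ∨ j2 < r := by
    intro r hr
    obtain ⟨t', b', z', rfl⟩ := exists_mkR r
    rw [hj1, hj2, mkR_lt, mkR_lt]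
    rcases lt_trichotomy t' t with h | h | h
    · left; left; exact h
    · subst h
      cases b'
      · left; right; exact ⟨rfl, Or.inl (by simp)⟩
      · left; right; exact ⟨rfl, Or.inr ⟨rfl, h1 _ hr⟩⟩
    · rcases Nat.lt_or_ge (t + 1) t' with h3 | h3
      · right; right; left; exact h3
      · have h4 : t' = t + 1 := by omega
        subst h4
        cases b'
        · right; left; exact ⟨z', rfl⟩
        · right; right; right; exact ⟨rfl, Or.inr ⟨rfl, h2 _ hr⟩⟩
  have hblk : ∀ z, j1 < mkR (t + 1) false z ∧ mkR (t + 1) false z < j2 := by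
    intro z
    rw [hj1, hj2, mkR_lt, mkR_lt]
    exact ⟨Or.inl (by omega), Or.inr ⟨rfl, Or.inl (by simp)⟩⟩
  obtain ⟨L1, hL1, hL1m⟩ := sorted_list_of_finite (hR0.subset (fun r (hr : r ∈ R0 ∧ r < j1) =>
    hr.1) : ({r | r ∈ R0 ∧ r < j1} : Set Rw).Finite)
  obtain ⟨Lb, hLb, hLbm⟩ := sorted_list_of_finite (hR0.subset (fun r
    (hr : r ∈ R0 ∧ ∃ z, r = mkR (t + 1) false z) => hr.1) :
    ({r | r ∈ R0 ∧ ∃ z, r = mkR (t + 1) false z} : Set Rw).Finite)
  obtain ⟨L2, hL2, hL2m⟩ := sorted_list_of_finite (hR0.subset (fun r (hr : r ∈ R0 ∧ j2 < r) =>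
    hr.1) : ({r | r ∈ R0 ∧ j2 < r} : Set Rw).Finite)
  have m1 : ∀ r ∈ L1, r ∈ R0 ∧ r < j1 := fun r hr => (hL1m r).mp hr
  have mb : ∀ r ∈ Lb, r ∈ R0 ∧ ∃ z, r = mkR (t + 1) false z := fun r hr => (hLbm r).mp hr
  have m2 : ∀ r ∈ L2, r ∈ R0 ∧ j2 < r := fun r hr => (hL2m r).mp hr
  have mb' : ∀ r ∈ Lb, j1 < r ∧ r < j2 := by
    intro r hr
    obtain ⟨-, z, rfl⟩ := mb r hr
    exact hblk z
  have hl1 : (L1 ++ j1 :: (Lb ++ L2)).Pairwise (· < ·) := by
    rw [List.pairwise_append, List.pairwise_cons, List.pairwise_append]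
    refine ⟨hL1, ⟨?_, hLb, hL2, ?_⟩, ?_⟩
    · intro r hr
      rcases List.mem_append.mp hr with h | h
      · exact (mb' r h).1
      · exact hj12.trans (m2 r h).2
    · intro r hr r' hr'
      exact (mb' r hr).2.trans (m2 r' hr').2
    · intro r hr r' hr'
      rcases List.mem_cons.mp hr' with rfl | h
      · exact (m1 r hr).2
      · rcases List.mem_append.mp h with h | h
        · exact (m1 r hr).2.trans (mb' r' h).1
        · exact (m1 r hr).2.trans (hj12.trans (m2 r' h).2)
  have hl2 : (L1 ++ (Lb ++ j2 :: L2)).Pairwise (· < ·) := by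
    rw [List.pairwise_append, List.pairwise_append, List.pairwise_cons]
    refine ⟨hL1, ⟨hLb, ⟨fun r hr => (m2 r hr).2, hL2⟩, ?_⟩, ?_⟩
    · intro r hr r' hr'
      rcases List.mem_cons.mp hr' with rfl | h
      · exact (mb' r hr).2
      · exact (mb' r hr).2.trans (m2 r' h).2
    · intro r hr r' hr'
      rcases List.mem_append.mp hr' with h | h
      · exact (m1 r hr).2.trans (mb' r' h).1
      · rcases List.mem_cons.mp h with rfl | h
        · exact (m1 r hr).2.trans hj12
        · exact (m1 r hr).2.trans (hj12.trans (m2 r' h).2)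
  have hj1R : j1 ∉ R0 := by
    intro h
    have := h1 z1 h
    omega
  have hj2R : j2 ∉ R0 := by
    intro h
    have := h2 z2 h
    omega
  set wx := mk3 (oPt s w) (oA d0 s w) (Subtype.val ∘ x)
    (fun v => (Sum.inr (j1, Sum.inr v) : D ⊕ Rw × (P ⊕ Q))) with hwx
  let σ : Rw → Rw := fun r => if r = j1 then j2 else r
  have hσ1 : σ j1 = j2 := by simp [σ]
  have hσ2 : ∀ r ∈ R0, σ r = r := by
    intro r hr
    have : r ≠ j1 := fun h => hj1R (h ▸ hr)
    simp [σ, this]
  have hwx2 : mk3 (oPt s w) (oA d0 s w) (Subtype.val ∘ x)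
      (fun v => (Sum.inr (j2, Sum.inr v) : D ⊕ Rw × (P ⊕ Q))) = rmap σ ∘ wx := by
    rw [hwx, comp_mk3]
    have e1 : rmap σ ∘ (oA d0 s w : Fin (ar s) → D ⊕ Rw × (P ⊕ Q)) = oA d0 s w := rfl
    have e2 : rmap σ ∘ (Subtype.val ∘ x) = (Subtype.val ∘ x : P → D ⊕ Rw × (P ⊕ Q)) :=
      rmap_fix hσ2
    rw [e1, e2]
    congr 1
    funext v
    simp [rmap, hσ1]
  have hrx : rowsOf wx ⊆ R0 ∪ {j1} := by
    refine rowsOf_mk3.trans (Set.union_subset_union_right _ ?_)
    rintro r ⟨v, a, hv⟩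
    simp only [Sum.inr.injEq, Prod.mk.injEq] at hv
    exact hv.1.symm
  have hcov : ∀ r ∈ R0, r ∈ L1 ∨ r ∈ Lb ∨ r ∈ L2 := by
    intro r hr
    rcases hR0cl r hr with h | h | h
    · exact Or.inl ((hL1m r).mpr ⟨hr, h⟩)
    · exact Or.inr (Or.inl ((hLbm r).mpr ⟨hr, h⟩))
    · exact Or.inr (Or.inr ((hL2m r).mpr ⟨hr, h⟩))
  rw [hwx2]
  have v1 : oG U V d0 M s wx ↔ ∀ᶠ g' in nf (oU U V d0) (L1 ++ j1 :: (Lb ++ L2))
      (fun _ _ => d0), M s (ev g' ∘ wx) := by
    refine GU_eval hl1 (hrx.trans ?_) _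
    rintro r (hr | hr)
    · have := hcov r hr
      simp only [Set.mem_ofPred_eq, List.mem_append, List.mem_cons]
      tauto
    · have : r = j1 := hr
      simp [this]
  have v2 : oG U V d0 M s (rmap σ ∘ wx) ↔ ∀ᶠ g' in nf (oU U V d0) (L1 ++ (Lb ++ j2 :: L2))
      (fun _ _ => d0), M s (ev g' ∘ (rmap σ ∘ wx)) := by
    refine GU_eval hl2 ?_ _
    rw [rowsOf_rmap]
    rintro _ ⟨r, hr, rfl⟩
    rcases hrx hr with hr | hr
    · rw [hσ2 r hr]
      have := hcov r hr
      simp only [Set.mem_ofPred_eq, List.mem_append, List.mem_cons]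
      tauto
    · have : r = j1 := hr
      rw [this, hσ1]
      simp
  rw [v1, v2]
  have hlive : ∀ k r a, wx k = Sum.inr (r, a) → a ∈ oB (P := P) (Q := Q) r := by
    intro k r a hk
    rcases hwk : w k with d | u | v
    · rw [hwx, mk3_none (by simp [oPt, hwk])] at hk
      simp [oA] at hk
    · rw [hwx, mk3_inl (u := u) (by simp [oPt, hwk])] at hk
      exact oX_live (x u).2 r a hk
    · rw [hwx, mk3_inr (v := v) (by simp [oPt, hwk])] at hk
      simp only [Sum.inr.injEq, Prod.mk.injEq] at hk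
      rw [← hk.1, ← hk.2]
      simp [oB, hj1]
  have hb := bubble (U := oU U V d0) (B := oB (P := P) (Q := Q)) hC hM (j := j1) L1 L2 Lb
    (by
      have := (List.pairwise_append.mp hl1).2.1
      exact this.imp fun h => ne_of_lt h)
    (fun r _ => oB_disj hU hV r) (w := wx) (fun k r a hk _ => hlive k r a hk)
    (by
      intro i hi
      obtain ⟨-, zi, rfl⟩ := mb i hi
      have hsub : {a | ∃ k, wx k = Sum.inr (mkR (t + 1) false zi, a)} ⊆
          (((Finset.univ.erase u0).image fun u : P => Sum.elim (fun _ => Sum.inl u0)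
            (fun p => p.2) (x u).1 : Finset (P ⊕ Q)) : Set (P ⊕ Q)) := by
        rintro a ⟨k, hk⟩
        rcases hwk : w k with d | u | v
        · rw [hwx, mk3_none (by simp [oPt, hwk])] at hk
          simp [oA] at hk
        · rw [hwx, mk3_inl (u := u) (by simp [oPt, hwk])] at hk
          have hk' : (x u).1 = Sum.inr (mkR (t + 1) false zi, a) := hk
          have hne : u ≠ u0 := by
            rintro rfl
            exact hu0 _ _ hk'
          simp only [Finset.coe_image, Set.mem_image, Finset.mem_coe, Finset.mem_erase,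
            Finset.mem_univ, and_true]
          exact ⟨u, hne, by rw [hk']; rfl⟩
        · rw [hwx, mk3_inr (v := v) (by simp [oPt, hwk])] at hk
          simp only [Sum.inr.injEq, Prod.mk.injEq, hj1] at hk
          have := (mkR_inj.mp hk.1).2.1
          simp at this
      have h3 := Set.ncard_le_ncard hsub (Finset.finite_toSet _)
      rw [Set.ncard_coe_finset] at h3
      have h4 := Finset.card_image_le (s := Finset.univ.erase u0) (f := fun u : P =>
        (Sum.elim (fun _ => Sum.inl u0) (fun p => p.2) (x u).1 : P ⊕ Q))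
      have h5 : (Finset.univ.erase u0).card < Fintype.card P := by
        rw [Finset.card_erase_of_mem (Finset.mem_univ _), Finset.card_univ]
        have : 0 < Fintype.card P := Fintype.card_pos_iff.mpr ⟨u0⟩
        omega
      omega) (fun _ _ => d0)
  rw [hb]
  have hmap : (L1 ++ (Lb ++ j1 :: L2)).map σ = L1 ++ (Lb ++ j2 :: L2) := by
    have e1 : ∀ l : List Rw, (∀ r ∈ l, r ∈ R0) → l.map σ = l := by
      intro l hl
      conv_rhs => rw [← List.map_id l]
      exact List.map_congr_left fun r hr => hσ2 r (hl r hr)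
    rw [List.map_append, List.map_append, List.map_cons, hσ1, e1 L1 fun r hr => (m1 r hr).1,
      e1 Lb fun r hr => (mb r hr).1, e1 L2 fun r hr => (m2 r hr).1]
  have hr := NU_relabel (U := oU U V d0) (V := oU U V d0) σ (S := R0 ∪ {j1})
    (by
      rintro r (hr | hr) r' (hr' | hr') heq
      · rwa [hσ2 r hr, hσ2 r' hr'] at heq
      · have : r' = j1 := hr'
        rw [this, hσ2 r hr, hσ1] at heq
        exact absurd (heq ▸ hr) hj2R
      · have : r = j1 := hr
        rw [this, hσ2 r' hr', hσ1] at heq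
        exact absurd (heq ▸ hr') hj2R
      · have e1 : r = j1 := hr
        have e2 : r' = j1 := hr'
        rw [e1, e2])
    (depOn_ev M s wx hrx) (L1 ++ (Lb ++ j1 :: L2))
    (by
      intro r hr
      simp only [List.mem_append, List.mem_cons] at hr
      rcases hr with h | h | h | h
      · exact Or.inl (m1 r h).1
      · exact Or.inl (mb r h).1
      · exact Or.inr h
      · exact Or.inl (m2 r h).1)
    (by
      intro r hr
      have : kd (σ r) = kd r := by
        by_cases h : r = j1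
        · rw [h, hσ1]; rfl
        · simp [σ, h]
      unfold oU
      rw [this]) (fun _ _ => d0) (fun _ _ => d0) (fun _ _ => rfl)
  rw [hmap] at hr
  rw [← hr]
  refine ev_congr fun g' => ?_
  have h2 : ev g' ∘ rmap σ ∘ wx = ev (fun r => g' (σ r)) ∘ wx := by
    funext i
    exact ev_rmap σ g' (wx i)
  rw [h2]

/-- A tuple equivalent to a row of a block lies in the block. -/
theorem inside_block {K : HC ar} [Fintype P] [Fintype Q] (hM : K.mem M) (hU : Disj U univ)
    (hV : Disj V univ) (hC : CommLt K (Fintype.card P)) {q0 : Q}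
    (hne : ¬ ((∀ᶠ x in (U : Filter (P → D)), ∀ᶠ y in (V : Filter (Q → D)), M s (ev2 x y ∘ w)) ↔
      ∀ᶠ y in (V : Filter (Q → D)), ∀ᶠ x in (U : Filter (P → D)), M s (ev2 x y ∘ w)))
    {a x : P → oX s w NN S} {t : ℕ}
    (ha : ∀ u, (a u).1 = Sum.inr (mkR (t + 1) false 0, Sum.inl u))
    (hx : Eqv s (oPt s w) (oN U V d0 M s w NN S) (oAS s w NN S q0) a x) (u0 : P) :
    ∃ z c, (x u0).1 = Sum.inr (mkR (t + 1) false z, c) := by
  classical
  by_contra hcon
  push Not at hcon
  obtain ⟨F, hF⟩ := hx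
  let pz : D ⊕ Rw × (P ⊕ Q) → ℤ := Sum.elim (fun _ => (0 : ℤ)) fun p => (ofLex (ofLex p.1).2).2
  obtain ⟨z1, hz1⟩ := Finset.exists_le (usd (Subtype.val ∘ x) t true ∪
    F.image fun e => pz e.1)
  obtain ⟨z2, hz2⟩ := Finset.exists_le ((usd (Subtype.val ∘ x) (t + 1) true ∪
    F.image fun e => pz e.1).image fun z => -z)
  have hz2' : ∀ z ∈ usd (Subtype.val ∘ x) (t + 1) true ∪ F.image (fun e => pz e.1), -z2 ≤ z := by
    intro z hz
    have := hz2 (-z) (Finset.mem_image_of_mem _ hz)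
    omega
  let b1 : Q → oX s w NN S := fun v => ⟨Sum.inr (mkR t true (z1 + 1), Sum.inr v),
    Or.inr (Or.inr ⟨t, z1 + 1, v, rfl⟩)⟩
  let b2 : Q → oX s w NN S := fun v => ⟨Sum.inr (mkR (t + 1) true (-z2 - 1), Sum.inr v),
    Or.inr (Or.inr ⟨t + 1, -z2 - 1, v, rfl⟩)⟩
  have h1 := hF b1 (by
    intro v hv
    have := hz1 (z1 + 1) (by
      rw [Finset.mem_union]
      right
      exact Finset.mem_image.mpr ⟨b1 v, hv, rfl⟩)
    omega)
  have h2 := hF b2 (by
    intro v hv
    have := hz2' (-z2 - 1) (by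
      rw [Finset.mem_union]
      right
      exact Finset.mem_image.mpr ⟨b2 v, hv, rfl⟩)
    omega)
  rw [oN_iff (d0 := d0), oN_iff (d0 := d0)] at h1 h2
  have hj := oG_jump (t := t) (z1 := z1 + 1) (z2 := -z2 - 1) hM hU hV hC (d0 := d0) (x := x)
    (fun z hz => by
      have := hz1 z (Finset.mem_union_left _ (mem_usd.mpr hz))
      omega)
    (fun z hz => by
      have := hz2' z (Finset.mem_union_left _ (mem_usd.mpr hz))
      omega) (u0 := u0) hcon
  have ea : (Subtype.val ∘ a : P → D ⊕ Rw × (P ⊕ Q)) =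
      fun u => Sum.inr (mkR (t + 1) false 0, Sum.inl u) := funext ha
  rw [ea] at h1 h2
  have p1 := (oG_pair (U := U) (V := V) (d0 := d0) (M := M) (s := s) (w := w)
    (i := mkR (t + 1) false 0) (j := mkR t true (z1 + 1)) rfl rfl).2 (by
      rw [mkR_lt]; left; omega)
  have p2 := (oG_pair (U := U) (V := V) (d0 := d0) (M := M) (s := s) (w := w)
    (i := mkR (t + 1) false 0) (j := mkR (t + 1) true (-z2 - 1)) rfl rfl).1 (by
      rw [mkR_lt]; right; exact ⟨rfl, Or.inl (by simp)⟩)
  apply hne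
  rw [← p1, ← p2]
  exact (h2.trans (hj.symm.trans h1.symm))

theorem mem_supp_cases [Fintype P] [Finite Q] {q0 : Q} {x : P → oX s w NN S}
    {F : Finset (oX s w NN S)}
    (hF : HasSupp s (oPt s w) (oN U V d0 M s w NN S) (oAS s w NN S q0) x F) {e : oX s w NN S}
    (he : e ∈ F) : (∃ k, e.1 = oA d0 s w k) ∨ ∃ t ∈ S, ∃ z : ℤ, 0 ≤ z ∧ z < NN t ∧
      (∃ a : P, e.1 = Sum.inr (mkR (t + 1) false z, Sum.inl a)) ∧
      NN t + 1 ≤ F.card + Fintype.card P := by
  obtain ⟨x', hx', u, hu⟩ := hF.2 e he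
  rcases e.2 with ⟨k, d, hk, hd⟩ | ⟨t, ht, z, hz1, hz2, a, ha⟩ | ⟨t, z, b, hb⟩
  · left
    exact ⟨k, by rw [hd]; simp [oA, hk]⟩
  · right
    refine ⟨t, ht, z, hz1, hz2, ⟨a, ha⟩, ?_⟩
    rw [← hu] at ha
    exact supp_block hF hx' ha
  · exfalso
    rw [← hu] at hb
    exact supp_no_right hF hx' u t z _ hb

/-- The sizes of the blocks. -/
def oNN (n p : ℕ) (t : ℕ) : ℕ := (n + p + 1) ^ (t + 1)

theorem oNN_sum (n p t : ℕ) :
    n + p * ∑ i ∈ Finset.range (t + 1), oNN n p i + p ≤ oNN n p (t + 1) := by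
  induction t with
  | zero =>
    simp only [oNN, zero_add, Finset.range_one, Finset.sum_singleton, pow_one]
    have : (n + p + 1) ^ (1 + 1) = (n + 1) * (n + p + 1) + p * (n + p + 1) := by ring
    rw [this]
    nlinarith [Nat.zero_le (n * (n + p + 1))]
  | succ t ih =>
    rw [Finset.sum_range_succ, Nat.mul_add]
    have h1 : oNN n p (t + 1 + 1) = (n + p + 1) * oNN n p (t + 1) := by
      unfold oNN; ring
    rw [h1]
    nlinarith [Nat.zero_le (n * oNN n p (t + 1))]

theorem oNN_pos (n p t : ℕ) : 0 < oNN n p t := by unfold oNN; positivity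

theorem oNN_ge (n p t : ℕ) : n + p + 1 ≤ oNN n p t := by
  unfold oNN
  calc n + p + 1 = (n + p + 1) ^ 1 := (pow_one _).symm
    _ ≤ (n + p + 1) ^ (t + 1) := Nat.pow_le_pow_right (by omega) (by omega)

theorem oNN_mono (n p : ℕ) {t t' : ℕ} (h : t ≤ t') : oNN n p t ≤ oNN n p t' := by
  unfold oNN
  exact Nat.pow_le_pow_right (by omega) (by omega)

theorem phi_imp_mem [Fintype P] [Finite Q] [Nonempty P] {q0 : Q} {t0 n p : ℕ} (hn : ar s = n)
    (hp : Fintype.card P = p)
    (h : PhiO s (oPt s w) (fun t => oNN n p t + 1 - p)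
      (fun t => n + p * ∑ i ∈ Finset.range (t + 1), oNN n p i)
      (oN U V d0 M s w (oNN n p) S) (oAS s w (oNN n p) S q0) t0) : t0 ∈ S := by
  classical
  obtain ⟨x, F, hF, hlo, hhi⟩ := h
  beta_reduce at hlo hhi
  have hp1 : 1 ≤ p := hp ▸ Fintype.card_pos
  let T : Set ℕ := {t | t ∈ S ∧ ∃ e ∈ F, ∃ (z : ℤ) (a : P), e.1 =
    Sum.inr (mkR (t + 1) false z, Sum.inl a)}
  have hT : ∀ t ∈ T, oNN n p t + 1 ≤ F.card + p := by
    rintro t ⟨ht, e, he, z, a, ha⟩
    rcases mem_supp_cases hF he with ⟨k, hk⟩ | ⟨t', ht', z', -, -, ⟨a', ha'⟩, h'⟩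
    · rw [hk] at ha; simp [oA] at ha
    · rw [ha'] at ha
      simp only [Sum.inr.injEq, Prod.mk.injEq] at ha
      have := (mkR_inj.mp ha.1).1
      have : t' = t := by omega
      rw [← this]
      omega
  have hTle : ∀ t ∈ T, t < F.card + p := by
    intro t ht
    have h1 := hT t ht
    have h2 : t < oNN n p t := by
      unfold oNN
      calc t < t + 1 := by omega
        _ ≤ 2 ^ (t + 1) := Nat.lt_two_pow_self.le
        _ ≤ (n + p + 1) ^ (t + 1) := Nat.pow_le_pow_left (by omega) _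
    omega
  have hTfin : T.Finite := (Set.finite_Iio (F.card + p)).subset hTle
  -- the bound on `F`
  have hbound : ∀ m, (∀ t ∈ T, t < m) → F.card ≤ n + p * ∑ i ∈ Finset.range m, oNN n p i := by
    intro m hm
    let G : Finset (D ⊕ Rw × (P ⊕ Q)) := Finset.univ.image (oA d0 s w) ∪
      (Finset.range m).biUnion fun t => (Finset.univ : Finset (Fin (oNN n p t) × P)).image
        fun q => Sum.inr (mkR (t + 1) false ((q.1 : ℕ) : ℤ), Sum.inl q.2)
    have hFG : F.map ⟨Subtype.val, Subtype.val_injective⟩ ⊆ G := by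
      intro e he
      rw [Finset.mem_map] at he
      obtain ⟨e, he, rfl⟩ := he
      rcases mem_supp_cases hF he with ⟨k, hk⟩ | ⟨t, ht, z, hz1, hz2, ⟨a, ha⟩, h'⟩
      · refine Finset.mem_union_left _ (Finset.mem_image.mpr ⟨k, Finset.mem_univ _, hk.symm⟩)
      · refine Finset.mem_union_right _ (Finset.mem_biUnion.mpr ⟨t, ?_, ?_⟩)
        · exact Finset.mem_range.mpr (hm t ⟨ht, e, he, z, a, ha⟩)
        · have hzn : z.toNat < oNN n p t := by omega
          refine Finset.mem_image.mpr ⟨(⟨z.toNat, hzn⟩, a), Finset.mem_univ _, ?_⟩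
          show Sum.inr (mkR (t + 1) false ((z.toNat : ℕ) : ℤ), Sum.inl a) = e.1
          rw [ha, Int.toNat_of_nonneg hz1]
    have h1 := Finset.card_le_card hFG
    rw [Finset.card_map] at h1
    refine h1.trans ((Finset.card_union_le _ _).trans (Nat.add_le_add ?_ ?_))
    · exact Finset.card_image_le.trans (by simp [hn])
    · refine Finset.card_biUnion_le.trans ?_
      rw [Finset.mul_sum]
      refine Finset.sum_le_sum fun i _ => Finset.card_image_le.trans ?_
      rw [Finset.card_univ, Fintype.card_prod, Fintype.card_fin, mul_comm, hp]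
  have hge0 := oNN_ge n p t0
  rcases T.eq_empty_or_nonempty with hE | hne
  · exfalso
    have := hbound 0 (by rw [hE]; simp)
    simp only [Finset.range_zero, Finset.sum_empty, mul_zero, add_zero] at this
    omega
  · obtain ⟨tm, htm, hmax⟩ := hTfin.exists_maximal hne
    have hmax' : ∀ t ∈ T, t ≤ tm := fun t ht => by
      by_contra hcon
      push Not at hcon
      have := hmax ht hcon.le
      omega
    have hb := hbound (tm + 1) fun t ht => Nat.lt_succ_of_le (hmax' t ht)
    have hl := hT tm htm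
    have htt : t0 = tm := by
      rcases lt_trichotomy t0 tm with h | h | h
      · exfalso
        have h1 := oNN_sum n p t0
        have h2 := oNN_mono n p (show t0 + 1 ≤ tm from h)
        omega
      · exact h
      · exfalso
        have h1 := oNN_sum n p tm
        have h2 := oNN_mono n p (show tm + 1 ≤ t0 from h)
        omega
    rw [htt]
    exact htm.1

theorem phi_of_mem {K : HC ar} [Fintype P] [Fintype Q] [Nonempty P] (hM : K.mem M)
    (hU : Disj U univ) (hV : Disj V univ) (hC : CommLt K (Fintype.card P)) {q0 : Q} {n p : ℕ}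
    (hp : Fintype.card P = p)
    (hne : ¬ ((∀ᶠ x in (U : Filter (P → D)), ∀ᶠ y in (V : Filter (Q → D)), M s (ev2 x y ∘ w)) ↔
      ∀ᶠ y in (V : Filter (Q → D)), ∀ᶠ x in (U : Filter (P → D)), M s (ev2 x y ∘ w)))
    {t0 : ℕ} (ht0 : t0 ∈ S) :
    PhiO s (oPt s w) (fun t => oNN n p t + 1 - p)
      (fun t => n + p * ∑ i ∈ Finset.range (t + 1), oNN n p i)
      (oN U V d0 M s w (oNN n p) S) (oAS s w (oNN n p) S q0) t0 := by
  classical
  have hp1 : 1 ≤ p := hp ▸ Fintype.card_pos
  have hpos := oNN_pos n p t0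
  let el : Fin (oNN n p t0) × P → oX s w (oNN n p) S := fun q =>
    ⟨Sum.inr (mkR (t0 + 1) false ((q.1 : ℕ) : ℤ), Sum.inl q.2),
      Or.inr (Or.inl ⟨t0, ht0, ((q.1 : ℕ) : ℤ), by positivity, by exact_mod_cast q.1.2, q.2, rfl⟩)⟩
  have hel : Function.Injective el := by
    rintro ⟨i, u⟩ ⟨i', u'⟩ h
    have := congrArg Subtype.val h
    simp only [el, Sum.inr.injEq, Prod.mk.injEq, Sum.inl.injEq] at this
    have h2 := (mkR_inj.mp this.1).2.2
    have h3 : (i : ℕ) = i' := by exact_mod_cast h2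
    rw [Prod.mk.injEq]
    exact ⟨Fin.ext h3, this.2⟩
  let a : P → oX s w (oNN n p) S := fun u => el (⟨0, hpos⟩, u)
  have ha : ∀ u, (a u).1 = Sum.inr (mkR (t0 + 1) false 0, Sum.inl u) := fun u => rfl
  refine ⟨a, Finset.univ.image el, ⟨?_, ?_⟩, ?_, ?_⟩
  · intro x' hx' u
    obtain ⟨z, c, hzc⟩ := inside_block hM hU hV hC hne ha hx' u
    rcases (x' u).2 with ⟨k, d, -, hd⟩ | ⟨t, ht, z', hz1, hz2, b, hb⟩ | ⟨t, z', b, hb⟩
    · rw [hzc] at hd; simp at hd
    · have hb' := hb
      rw [hzc] at hb'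
      simp only [Sum.inr.injEq, Prod.mk.injEq] at hb'
      obtain ⟨e1, -, e2⟩ := mkR_inj.mp hb'.1
      have e3 : t0 = t := by omega
      subst e3
      have hzn : z'.toNat < oNN n p t0 := by omega
      refine Finset.mem_image.mpr ⟨(⟨z'.toNat, hzn⟩, b), Finset.mem_univ _, Subtype.ext ?_⟩
      show Sum.inr (mkR (t0 + 1) false ((z'.toNat : ℕ) : ℤ), Sum.inl b) = (x' u).1
      rw [hb, Int.toNat_of_nonneg hz1]
    · rw [hzc] at hb
      simp only [Sum.inr.injEq, Prod.mk.injEq] at hb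
      have := (mkR_inj.mp hb.1).2.1
      simp at this
  · intro e he
    rw [Finset.mem_image] at he
    obtain ⟨⟨i, u⟩, -, rfl⟩ := he
    have husd : usd (Subtype.val ∘ a) (t0 + 1) false = {0} := by
      ext z
      rw [mem_usd, Finset.mem_singleton]
      constructor
      · rintro ⟨v, c, hv⟩
        have hv' : (a v).1 = Sum.inr (mkR (t0 + 1) false z, c) := hv
        rw [ha v] at hv'
        simp only [Sum.inr.injEq, Prod.mk.injEq] at hv'
        exact ((mkR_inj.mp hv'.1).2.2).symm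
      · rintro rfl
        exact ⟨u, Sum.inl u, ha u⟩
    obtain ⟨x', hx', hxv⟩ := exists_shift (U := U) (V := V) (d0 := d0) (M := M) (q0 := q0) a
      (t0 + 1) false (((i : ℕ) : ℤ)) (by
        intro _ t1 ht1
        have : t0 = t1 := by omega
        subst this
        rw [husd]
        refine ⟨by positivity, ?_⟩
        have := i.2
        simp only [Finset.card_singleton]
        omega)
    refine ⟨x', hx', u, Subtype.ext ?_⟩
    rw [hxv, ha u, husd]
    have hmem : mkR (t0 + 1) false 0 ∈ rowsOf (Subtype.val ∘ a) := ⟨u, Sum.inl u, ha u⟩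
    have hrk : rk {0} 0 = 0 := by
      unfold rk
      simp
    simp [rmap, mvR_mkR hmem, hrk, el]
  · rw [Finset.card_image_of_injective _ hel, Finset.card_univ, Fintype.card_prod,
      Fintype.card_fin, hp]
    have : oNN n p t0 * 1 ≤ oNN n p t0 * p := Nat.mul_le_mul_left _ hp1
    beta_reduce
    omega
  · rw [Finset.card_image_of_injective _ hel, Finset.card_univ, Fintype.card_prod,
      Fintype.card_fin, hp, mul_comm]
    have h1 : oNN n p t0 ≤ ∑ i ∈ Finset.range (t0 + 1), oNN n p i :=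
      Finset.single_le_sum (f := fun i => oNN n p i) (fun i _ => Nat.zero_le _)
        (Finset.mem_range.mpr (by omega))
    have h2 := Nat.mul_le_mul_left p h1
    beta_reduce
    omega

/-- **The order theorem**, for one pair of rows. -/
theorem order_wild [Countable Y] (K : HC ar) [Fintype P] [Fintype Q] (hM : K.mem M)
    (hU : Disj U univ) (hV : Disj V univ) (hC : CommLt K (Fintype.card P))
    (hne : ¬ ((∀ᶠ x in (U : Filter (P → D)), ∀ᶠ y in (V : Filter (Q → D)), M s (ev2 x y ∘ w)) ↔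
      ∀ᶠ y in (V : Filter (Q → D)), ∀ᶠ x in (U : Filter (P → D)), M s (ev2 x y ∘ w))) :
    Wild {c : Sp ar | K.mem (toSt c)} := by
  classical
  have hP : Nonempty P := by
    by_contra hcon
    rw [not_nonempty_iff] at hcon
    apply hne
    have e1 : ∀ (x x' : P → D) (y : Q → D), ev2 x y ∘ w = ev2 x' y ∘ w := by
      intro x x' y
      rw [Subsingleton.elim x x']
    obtain ⟨x0, -⟩ := U.nonempty_of_mem Filter.univ_mem
    have e2 : (∀ᶠ x in (U : Filter (P → D)), ∀ᶠ y in (V : Filter (Q → D)),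
        M s (ev2 x y ∘ w)) ↔ ∀ᶠ y in (V : Filter (Q → D)), M s (ev2 x0 y ∘ w) := by
      rw [← ev_const U (∀ᶠ y in (V : Filter (Q → D)), M s (ev2 x0 y ∘ w))]
      exact ev_congr fun x => by rw [Subsingleton.elim x x0]
    rw [e2]
    refine ev_congr fun y => ?_
    rw [← ev_const U (M s (ev2 x0 y ∘ w))]
    exact ev_congr fun x => by rw [Subsingleton.elim x x0]
  have hQ : Nonempty Q := by
    by_contra hcon
    rw [not_nonempty_iff] at hcon
    apply hne
    obtain ⟨y0, -⟩ := V.nonempty_of_mem Filter.univ_mem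
    have e2 : (∀ᶠ y in (V : Filter (Q → D)), ∀ᶠ x in (U : Filter (P → D)),
        M s (ev2 x y ∘ w)) ↔ ∀ᶠ x in (U : Filter (P → D)), M s (ev2 x y0 ∘ w) := by
      rw [← ev_const V (∀ᶠ x in (U : Filter (P → D)), M s (ev2 x y0 ∘ w))]
      exact ev_congr fun y => by rw [Subsingleton.elim y y0]
    rw [e2]
    refine ev_congr fun x => ?_
    rw [← ev_const V (M s (ev2 x y0 ∘ w))]
    exact ev_congr fun y => by rw [Subsingleton.elim y y0]
  obtain ⟨q0⟩ := hQ
  obtain ⟨p0⟩ := hP
  obtain ⟨x0, -⟩ := U.nonempty_of_mem Filter.univ_mem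
  let d0 : D := x0 p0
  have : Nonempty P := ⟨p0⟩
  obtain ⟨n, hn⟩ : ∃ n, ar s = n := ⟨_, rfl⟩
  obtain ⟨p, hp⟩ : ∃ p, Fintype.card P = p := ⟨_, rfl⟩
  refine wild_of_decode K (ar s) (fun {E} N a t => PhiO s (oPt s w)
    (fun t => oNN n p t + 1 - p) (fun t => n + p * ∑ i ∈ Finset.range (t + 1), oNN n p i) N a t)
    (fun e N N' h a t hΦ => PhiO.iso e h hΦ) (fun a t => mp_phiO _ _ a t) ?_
  intro S hS
  refine ⟨oX s w (oNN n p) S, ?_, ?_, oN U V d0 M s w (oNN n p) S, oAS s w (oNN n p) S q0, ?_,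
    fun t => ⟨fun h => phi_imp_mem hn hp h, fun h => phi_of_mem hM hU hV hC hp hne h⟩⟩
  · -- countable
    have : oX s w (oNN n p) S ⊆ (range fun k => (oA d0 s w k : D ⊕ Rw × (P ⊕ Q))) ∪
        range (fun q : Rw × (P ⊕ Q) => (Sum.inr q : D ⊕ Rw × (P ⊕ Q))) := by
      rintro e (⟨k, d, hk, rfl⟩ | ⟨t, -, z, -, -, a, rfl⟩ | ⟨t, z, b, rfl⟩)
      · exact Or.inl ⟨k, by simp [oA, hk]⟩
      · exact Or.inr ⟨_, rfl⟩
      · exact Or.inr ⟨_, rfl⟩
    have hct : Countable Rw := inferInstanceAs (Countable (ℕ × (Bool × ℤ)))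
    exact (((Set.countable_range _).union (Set.countable_range _)).mono this).to_subtype
  · -- infinite
    refine Infinite.of_injective (fun z : ℤ => (⟨Sum.inr (mkR 0 true z, Sum.inr q0),
      Or.inr (Or.inr ⟨0, z, q0, rfl⟩)⟩ : oX s w (oNN n p) S)) ?_
    intro z z' h
    have := congrArg Subtype.val h
    simp only [Sum.inr.injEq, Prod.mk.injEq, and_true] at this
    exact (mkR_inj.mp this).2.2
  · exact GU_mem K (oB_disj hU hV) hM oX_live

/-- **The order theorem.**  If limits do not commute, the class is wild. -/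
theorem commLt_of_not_wild [Countable Y] (K : HC ar) (hK : ¬ Wild {c : Sp ar | K.mem (toSt c)}) :
    ∀ p, CommLt K p := by
  classical
  intro p
  induction p with
  | zero => intro D A A' M U V B B' s w _ _ _ _ _ h; simp at h
  | succ p ih =>
    intro D A A' M U V B B' s w hM hU hV h1 h2 hcard
    by_contra hne
    -- restrict to the used coordinates
    let PA : Set A := {a | ∃ k, w k = Sum.inr (Sum.inl a)}
    let QA : Set A' := {a | ∃ k, w k = Sum.inr (Sum.inr a)}
    have hPA : PA.Finite := by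
      have : PA = ⋃ k, {a | w k = Sum.inr (Sum.inl a)} := by ext a; simp [PA]
      rw [this]
      refine Set.finite_iUnion fun k => Set.Subsingleton.finite ?_
      intro a ha a' ha'
      have ha1 : w k = _ := ha
      have ha2 : w k = _ := ha'
      rw [ha1] at ha2
      simpa using ha2
    have hQA : QA.Finite := by
      have : QA = ⋃ k, {a | w k = Sum.inr (Sum.inr a)} := by ext a; simp [QA]
      rw [this]
      refine Set.finite_iUnion fun k => Set.Subsingleton.finite ?_
      intro a ha a' ha'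
      have ha1 : w k = _ := ha
      have ha2 : w k = _ := ha'
      rw [ha1] at ha2
      simpa using ha2
    have iP : Fintype PA := hPA.fintype
    have iQ : Fintype QA := hQA.fintype
    let U' : Ultrafilter (PA → D) := U.map fun x (a : PA) => x a.1
    let V' : Ultrafilter (QA → D) := V.map fun y (a : QA) => y a.1
    have hU' : Disj U' univ := by
      constructor
      · rintro ⟨a, k, hk⟩ - d
        exact hU.1 a (h1 k a hk) d
      · rintro ⟨a, k, hk⟩ - ⟨a', k', hk'⟩ - hne'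
        exact hU.2 a (h1 k a hk) a' (h1 k' a' hk') fun h => hne' (Subtype.ext h)
    have hV' : Disj V' univ := by
      constructor
      · rintro ⟨a, k, hk⟩ - d
        exact hV.1 a (h2 k a hk) d
      · rintro ⟨a, k, hk⟩ - ⟨a', k', hk'⟩ - hne'
        exact hV.2 a (h2 k a hk) a' (h2 k' a' hk') fun h => hne' (Subtype.ext h)
    have hw' : ∀ k, ∃ c : D ⊕ (PA ⊕ QA), ∀ (x : A → D) (y : A' → D), ev2 x y (w k) =
        ev2 (fun a : PA => x a.1) (fun a : QA => y a.1) c := by
      intro k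
      rcases hk : w k with d | a | a
      · exact ⟨Sum.inl d, fun x y => rfl⟩
      · exact ⟨Sum.inr (Sum.inl ⟨a, k, hk⟩), fun x y => rfl⟩
      · exact ⟨Sum.inr (Sum.inr ⟨a, k, hk⟩), fun x y => rfl⟩
    choose w' hw' using hw'
    have hcw : ∀ (x : A → D) (y : A' → D), ev2 x y ∘ w =
        ev2 (fun a : PA => x a.1) (fun a : QA => y a.1) ∘ w' := fun x y =>
      funext fun k => hw' k x y
    have hcard' : Fintype.card PA < p + 1 := by
      have : Fintype.card PA = PA.ncard := by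
        rw [← Nat.card_eq_fintype_card, Nat.card_coe_set_eq]
      rw [this]
      exact hcard
    apply hK
    refine order_wild (U := U') (V := V') (w := w') K hM hU' hV' ?_ ?_
    · intro D₁ A₁ A₁' M₁ U₁ V₁ B₁ B₁' s₁ w₁ k1 k2 k3 k4 k5 k6
      exact ih D₁ A₁ A₁' M₁ U₁ V₁ B₁ B₁' s₁ w₁ k1 k2 k3 k4 k5 (by omega)
    · intro hiff
      apply hne
      have e1 : (∀ᶠ x in (U : Filter (A → D)), ∀ᶠ y in (V : Filter (A' → D)),
          M s (ev2 x y ∘ w)) ↔ ∀ᶠ x in (U' : Filter (PA → D)),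
          ∀ᶠ y in (V' : Filter (QA → D)), M s (ev2 x y ∘ w') := by
        refine ev_congr fun x => ev_congr fun y => ?_
        rw [hcw]
        exact Iff.rfl
      have e2 : (∀ᶠ y in (V : Filter (A' → D)), ∀ᶠ x in (U : Filter (A → D)),
          M s (ev2 x y ∘ w)) ↔ ∀ᶠ y in (V' : Filter (QA → D)),
          ∀ᶠ x in (U' : Filter (PA → D)), M s (ev2 x y ∘ w') := by
        refine ev_congr fun y => ev_congr fun x => ?_
        rw [hcw]
        exact Iff.rfl
      rw [e1, e2]
      exact hiff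

end Pool.Agent.Helper6.VU
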