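import Pool.Agent.Helper6.V3Wild

/-!
# Commuting limits: adding generic rows in any order
-/

set_option autoImplicit false

namespace Pool.Agent.Helper6.VU

open Set Filter

variable {Y : Type} {ar : Y → ℕ} {D A ρ : Type}

/-- All limits commute. -/
def Comm (K : HC ar) : Prop := ∀ p, CommLt K p

/-- The tuple only uses coordinates in `B`. -/
def LiveT (B : ρ → Set A) {κ : Type} (w : κ → D ⊕ ρ × A) : Prop :=
  ∀ k r a, w k = Sum.inr (r, a) → a ∈ B r

variable {U : ρ → Ultrafilter (A → D)} {B : ρ → Set A} {K : HC ar} {M : St ar D}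

theorem NU_perm (hC : Comm K) (hM : K.mem M) {s : Y} {w : Fin (ar s) → D ⊕ ρ × A} {l l' : List ρ}
    (h : l.Perm l') (hnd : l.Nodup) (hB : ∀ r ∈ l, Disj (U r) (B r))
    (hw : ∀ k r a, w k = Sum.inr (r, a) → r ∈ l → a ∈ B r) (g : ρ → A → D) :
    (∀ᶠ g' in nf U l g, M s (ev g' ∘ w)) ↔ ∀ᶠ g' in nf U l' g, M s (ev g' ∘ w) := by
  induction h generalizing g with
  | nil => exact Iff.rfl
  | @cons x l₁ l₂ h ih =>
    rw [NU_cons, NU_cons]
    refine ev_congr fun y => ih (List.nodup_cons.mp hnd).2 (fun r hr => hB r (by simp [hr]))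
      (fun k r a hk hr => hw k r a hk (by simp [hr])) _
  | swap x y l =>
    have h1 : y ≠ x := fun h => by
      rw [List.nodup_cons] at hnd
      exact hnd.1 (by simp [h])
    have h2 : y ∉ l := fun h => by
      rw [List.nodup_cons] at hnd
      exact hnd.1 (by simp [h])
    have h3 : x ∉ l := by
      rw [List.nodup_cons, List.nodup_cons] at hnd
      exact hnd.2.1
    exact swap_head (hC _) hM h1 h2 h3 hB hw (Nat.lt_succ_self _) g
  | @trans l₁ l₂ l₃ h₁ h₂ ih₁ ih₂ =>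
    rw [ih₁ hnd hB hw g]
    exact ih₂ (h₁.nodup_iff.mp hnd) (fun r hr => hB r (h₁.mem_iff.mpr hr))
      (fun k r a hk hr => hw k r a hk (h₁.mem_iff.mpr hr)) g

theorem NU_congr_U {U' : ρ → Ultrafilter (A → D)} {l : List ρ} (h : ∀ r ∈ l, U r = U' r)
    (g : ρ → A → D) : NU U l g = NU U' l g := by
  induction l generalizing g with
  | nil => rfl
  | cons r l ih =>
    show (U r).bind _ = (U' r).bind _
    rw [h r (by simp)]
    congr 1
    funext x
    exact ih (fun r hr => h r (by simp [hr])) _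

/-- Evaluation with one row. -/
def ev1 (x : A → D) : D ⊕ A → D := Sum.elim id x

/-- Two row ultrafilters have the same type over `M`, for the symbols in `G` and the coordinates
in `B`. -/
def SameT (G : Set Y) (M : St ar D) (B : Set A) (U V : Ultrafilter (A → D)) : Prop :=
  ∀ s ∈ G, ∀ v : Fin (ar s) → D ⊕ A, (∀ k a, v k = Sum.inr a → a ∈ B) →
    ((∀ᶠ x in (U : Filter (A → D)), M s (ev1 x ∘ v)) ↔
      ∀ᶠ x in (V : Filter (A → D)), M s (ev1 x ∘ v))

theorem NU_type_congr (hC : Comm K) (hM : K.mem M) {G : Set Y} {s : Y} (hs : s ∈ G)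
    {w : Fin (ar s) → D ⊕ ρ × A} {U' : ρ → Ultrafilter (A → D)} {l : List ρ} (hnd : l.Nodup)
    (hB : ∀ r ∈ l, Disj (U r) (B r)) (hB' : ∀ r ∈ l, Disj (U' r) (B r))
    (hT : ∀ r ∈ l, SameT G M (B r) (U r) (U' r))
    (hw : ∀ k r a, w k = Sum.inr (r, a) → r ∈ l → a ∈ B r) (g : ρ → A → D) :
    (∀ᶠ g' in nf U l g, M s (ev g' ∘ w)) ↔ ∀ᶠ g' in nf U' l g, M s (ev g' ∘ w) := by
  classical
  induction l generalizing g with
  | nil => rw [NU_nil, NU_nil]
  | cons r l ih =>
    have hrl : r ∉ l := (List.nodup_cons.mp hnd).1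
    have hndl : l.Nodup := (List.nodup_cons.mp hnd).2
    let W : ρ → Ultrafilter (A → D) := fun r' => if r' = r then U r else U' r'
    have hWr : W r = U r := by simp [W]
    have hWl : ∀ r' ∈ l, W r' = U' r' := by
      intro r' hr'
      have : r' ≠ r := fun h => hrl (h ▸ hr')
      simp [W, this]
    have hWB : ∀ r' ∈ r :: l, Disj (W r') (B r') := by
      intro r' hr'
      rcases List.mem_cons.mp hr' with rfl | h
      · rw [hWr]; exact hB r' (by simp)
      · rw [hWl r' h]; exact hB' r' (by simp [h])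
    have hWU : ∀ g, nf W l g = nf U' l g := fun g =>
      congrArg (fun F : Ultrafilter (ρ → A → D) => (F : Filter (ρ → A → D))) (NU_congr_U hWl g)
    have step1 : (∀ᶠ g' in nf U (r :: l) g, M s (ev g' ∘ w)) ↔
        ∀ᶠ g' in nf W (r :: l) g, M s (ev g' ∘ w) := by
      rw [NU_cons, NU_cons, hWr]
      refine ev_congr fun x => ?_
      rw [ih hndl (fun r hr => hB r (by simp [hr])) (fun r hr => hB' r (by simp [hr]))
        (fun r hr => hT r (by simp [hr])) (fun k r a hk hr => hw k r a hk (by simp [hr]))]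
      rw [hWU]
    have hperm : (r :: l).Perm (l ++ [r]) := by
      have := (List.perm_append_singleton r l).symm
      exact this
    rw [step1, NU_perm hC hM hperm hnd hWB hw g, NU_perm hC hM hperm hnd hB' hw g,
      NU_append, NU_append]
    rw [hWU]
    refine ev_congr fun g₁ => ?_
    rw [NU_cons, NU_cons, hWr]
    have key : ∀ x : A → D, (∀ᶠ g' in nf W [] (upd g₁ r x), M s (ev g' ∘ w)) ↔
        M s (ev1 x ∘ fun k => match w k with
          | Sum.inl d => Sum.inl d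
          | Sum.inr (r', a) => if r' = r then Sum.inr a else Sum.inl (g₁ r' a)) := by
      intro x
      rw [NU_nil]
      have : ev (upd g₁ r x) ∘ w = ev1 x ∘ fun k => match w k with
          | Sum.inl d => Sum.inl d
          | Sum.inr (r', a) => if r' = r then Sum.inr a else Sum.inl (g₁ r' a) := by
        funext k
        show ev (upd g₁ r x) (w k) = _
        rcases hk : w k with d | ⟨r', a⟩
        · simp [ev1, hk]
        · by_cases hr : r' = r
          · subst hr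
            simp [ev1, hk]
          · simp [ev1, hk, hr, upd_ne _ _ hr]
      rw [this]
    have key' : ∀ x : A → D, (∀ᶠ g' in nf U' [] (upd g₁ r x), M s (ev g' ∘ w)) ↔
        M s (ev1 x ∘ fun k => match w k with
          | Sum.inl d => Sum.inl d
          | Sum.inr (r', a) => if r' = r then Sum.inr a else Sum.inl (g₁ r' a)) := by
      intro x
      rw [← key x, NU_nil, NU_nil]
    rw [ev_congr key, ev_congr key']
    refine hT r (by simp) s hs _ ?_
    intro k a hk
    rcases hwk : w k with d | ⟨r', a'⟩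
    · simp [hwk] at hk
    · by_cases hr : r' = r
      · subst hr
        simp only [hwk, if_true, Sum.inr.injEq] at hk
        subst hk
        exact hw k _ _ hwk (by simp)
      · simp [hwk, hr] at hk

/-- Relabelling of rows and coordinates. -/
theorem NU_relabel2 {ρ' A' : Type} {V : ρ' → Ultrafilter (A' → D)} (σ : ρ' → ρ)
    (θ : ρ' → A' → A) {S : Set ρ'} (hσ : Set.InjOn σ S) {P : (ρ' → A' → D) → Prop}
    (hP : DepOn S P) (l : List ρ') (hl : ∀ r ∈ l, r ∈ S)
    (hV : ∀ r ∈ l, V r = (U (σ r)).map fun x a => x (θ r a)) (g : ρ → A → D)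
    (g₂ : ρ' → A' → D) (hg : ∀ r ∈ S, g₂ r = fun a => g (σ r) (θ r a)) :
    (∀ᶠ g' in nf U (l.map σ) g, P fun r a => g' (σ r) (θ r a)) ↔
      ∀ᶠ g' in nf V l g₂, P g' := by
  induction l generalizing g g₂ with
  | nil =>
    rw [List.map_nil, NU_nil, NU_nil]
    exact hP _ _ fun r hr => (hg r hr).symm
  | cons r l ih =>
    rw [List.map_cons, NU_cons, NU_cons, hV r (by simp), ev_map]
    refine ev_congr fun x => ih (fun r' hr' => hl r' (by simp [hr']))
      (fun r' hr' => hV r' (by simp [hr'])) _ _ fun r' hr' => ?_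
    by_cases h1 : r' = r
    · subst h1; rw [upd_same, upd_same]
    · have h2 : σ r' ≠ σ r := fun h => h1 (hσ hr' (hl r (by simp)) h)
      rw [upd_ne _ _ h1, upd_ne _ _ h2, hg r' hr']

/-- The structure with generic rows added (the order of the rows does not matter). -/
noncomputable def GC (U : ρ → Ultrafilter (A → D)) (g₀ : ρ → A → D) (M : St ar D) :
    St ar (D ⊕ ρ × A) :=
  letI : LinearOrder ρ := IsWellOrder.linearOrder WellOrderingRel
  GU U g₀ M

theorem GC_mem (K : HC ar) {g₀ : ρ → A → D} {B : ρ → Set A} (hB : ∀ r, Disj (U r) (B r))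
    {M : St ar D} (hM : K.mem M) {X : Set (D ⊕ ρ × A)} (hX : X ⊆ live B) :
    K.mem (pull (Subtype.val : X → D ⊕ ρ × A) (GC U g₀ M)) := by
  let _ : LinearOrder ρ := IsWellOrder.linearOrder WellOrderingRel
  exact GU_mem K hB hM hX

theorem GC_inl {g₀ : ρ → A → D} {s : Y} (w : Fin (ar s) → D) :
    GC U g₀ M s (Sum.inl ∘ w) ↔ M s w := by
  let _ : LinearOrder ρ := IsWellOrder.linearOrder WellOrderingRel
  exact GU_inl w

theorem GC_eval (hC : Comm K) (hM : K.mem M) (hB : ∀ r, Disj (U r) (B r)) {g₀ : ρ → A → D}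
    {s : Y} {w : Fin (ar s) → D ⊕ ρ × A} (hw : LiveT B w) {l : List ρ} (hnd : l.Nodup)
    (hl : rowsOf w ⊆ {r | r ∈ l}) (g : ρ → A → D) :
    GC U g₀ M s w ↔ ∀ᶠ g' in nf U l g, M s (ev g' ∘ w) := by
  classical
  let _ : LinearOrder ρ := IsWellOrder.linearOrder WellOrderingRel
  obtain ⟨l', hl', hlm⟩ := sorted_list_of_finite (l.finite_toSet : {r | r ∈ l}.Finite)
  have hperm : l'.Perm l := by
    rw [List.perm_ext_iff_of_nodup (hl'.imp fun h => ne_of_lt h) hnd]
    intro r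
    exact hlm r
  have h1 : GC U g₀ M s w ↔ ∀ᶠ g' in nf U l' g, M s (ev g' ∘ w) := by
    refine GU_eval hl' (hl.trans ?_) g
    intro r hr
    exact (hlm r).mpr hr
  rw [h1]
  exact NU_perm hC hM hperm (hl'.imp fun h => ne_of_lt h) (fun r _ => hB r)
    (fun k r a hk _ => hw k r a hk) g

/-- Changing the rows to rows with the same types, with a relabelling. -/
theorem GC_transfer (hC : Comm K) (hM : K.mem M) (hB : ∀ r, Disj (U r) (B r)) {ρ' A' : Type}
    {V : ρ' → Ultrafilter (A' → D)} {B' : ρ' → Set A'} (hB' : ∀ r, Disj (V r) (B' r))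
    {g₀ : ρ → A → D} {g₁ : ρ' → A' → D} {G : Set Y} {s : Y} (hs : s ∈ G)
    {w : Fin (ar s) → D ⊕ ρ × A} (hw : LiveT B w) {w' : Fin (ar s) → D ⊕ ρ' × A'}
    (σ : ρ → ρ') (θ : ρ → A → A') (C : ρ → Set A) (hCB : ∀ r, C r ⊆ B r)
    (hwC : ∀ k r a, w k = Sum.inr (r, a) → a ∈ C r)
    (hσ : Set.InjOn σ (rowsOf w)) (hθ : ∀ r ∈ rowsOf w, Set.InjOn (θ r) (C r))
    (hθB : ∀ r ∈ rowsOf w, ∀ a ∈ C r, θ r a ∈ B' (σ r))
    (hw1 : ∀ k d, w k = Sum.inl d → w' k = Sum.inl d)
    (hw2 : ∀ k r a, w k = Sum.inr (r, a) → w' k = Sum.inr (σ r, θ r a))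
    (hT : ∀ r ∈ rowsOf w, SameT G M (C r) (U r) ((V (σ r)).map fun x a => x (θ r a))) :
    GC U g₀ M s w ↔ GC V g₁ M s w' := by
  classical
  obtain ⟨l, hnd, hlm⟩ : ∃ l : List ρ, l.Nodup ∧ ∀ r, r ∈ l ↔ r ∈ rowsOf w := by
    refine ⟨(finite_rowsOf w).toFinset.toList, Finset.nodup_toList _, fun r => by simp⟩
  have hlive' : LiveT B' w' := by
    intro k r' a' hk
    rcases hwk : w k with d | ⟨r, a⟩
    · rw [hw1 k d hwk] at hk; simp at hk
    · rw [hw2 k r a hwk] at hk
      simp only [Sum.inr.injEq, Prod.mk.injEq] at hk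
      rw [← hk.1, ← hk.2]
      exact hθB r ⟨k, a, hwk⟩ a (hwC k r a hwk)
  have hrows' : rowsOf w' ⊆ {r | r ∈ l.map σ} := by
    rintro r' ⟨k, a', hk⟩
    rcases hwk : w k with d | ⟨r, a⟩
    · rw [hw1 k d hwk] at hk; simp at hk
    · rw [hw2 k r a hwk] at hk
      simp only [Sum.inr.injEq, Prod.mk.injEq] at hk
      rw [← hk.1]
      exact List.mem_map.mpr ⟨r, (hlm r).mpr ⟨k, a, hwk⟩, rfl⟩
  have hnd' : (l.map σ).Nodup :=
    List.Nodup.map_on (fun r hr r' hr' h => hσ ((hlm r).mp hr) ((hlm r').mp hr') h) hnd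
  rw [GC_eval hC hM hB hw hnd (fun r hr => (hlm r).mpr hr) (fun r a => g₁ (σ r) (θ r a)),
    GC_eval hC hM hB' hlive' hnd' hrows' g₁]
  let U'' : ρ → Ultrafilter (A → D) := fun r => (V (σ r)).map fun x a => x (θ r a)
  have hU'' : ∀ r ∈ l, Disj (U'' r) (C r) := by
    intro r hr
    have hr' := (hlm r).mp hr
    constructor
    · intro a ha d
      exact (hB' (σ r)).1 (θ r a) (hθB r hr' a ha) d
    · intro a ha a' ha' hne
      exact (hB' (σ r)).2 (θ r a) (hθB r hr' a ha) (θ r a') (hθB r hr' a' ha')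
        fun h => hne (hθ r hr' ha ha' h)
  rw [NU_type_congr (B := C) hC hM hs hnd (fun r _ => (hB r).mono (hCB r)) hU''
    (fun r hr => hT r ((hlm r).mp hr)) (fun k r a hk _ => hwC k r a hk)]
  have := NU_relabel2 (U := V) (V := U'') σ θ (S := rowsOf w) hσ
    (depOn_ev M s w (le_refl _)) l (fun r hr => (hlm r).mp hr) (fun r _ => rfl) g₁
    (fun r a => g₁ (σ r) (θ r a)) (fun _ _ => rfl)
  rw [← this]
  refine ev_congr fun g' => ?_
  have h2 : ev g' ∘ w' = ev (fun r a => g' (σ r) (θ r a)) ∘ w := by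
    funext k
    show ev g' (w' k) = ev (fun r a => g' (σ r) (θ r a)) (w k)
    rcases hwk : w k with d | ⟨r, a⟩
    · rw [hw1 k d hwk]; rfl
    · rw [hw2 k r a hwk]; rfl
  rw [h2]

/-- Relabelling the rows. -/
theorem GC_rmap (hC : Comm K) (hM : K.mem M) (hB : ∀ r, Disj (U r) (B r)) {g₀ : ρ → A → D}
    {s : Y} {w : Fin (ar s) → D ⊕ ρ × A} (hw : LiveT B w) {σ : ρ → ρ}
    (hσ : Set.InjOn σ (rowsOf w)) (hU : ∀ r ∈ rowsOf w, U (σ r) = U r)
    (hBσ : ∀ r ∈ rowsOf w, B (σ r) = B r) :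
    GC U g₀ M s (rmap σ ∘ w) ↔ GC U g₀ M s w := by
  refine (GC_transfer hC hM hB hB (G := {s}) rfl hw (w' := rmap σ ∘ w) σ (fun _ a => a) B
    (fun _ => le_refl _) hw hσ (fun r _ => Set.injOn_id _) (fun r hr a ha => ?_)
    (fun k d hk => by simp [rmap, hk]) (fun k r a hk => by simp [rmap, hk])
    (fun r hr s' _ v _ => ?_)).symm
  · rw [hBσ r hr]; exact ha
  · rw [hU r hr]
    exact Iff.rfl

/-- Finitely supported automorphisms of `M` extend. -/
theorem GC_finauto (hC : Comm K) (hM : K.mem M) (hB : ∀ r, Disj (U r) (B r)) {g₀ : ρ → A → D}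
    {s : Y} {w : Fin (ar s) → D ⊕ ρ × A} (hw : LiveT B w) {σ : D → D}
    (hσ : {d | σ d ≠ d}.Finite) (hauto : ∀ v, M s (σ ∘ v) ↔ M s v) :
    GC U g₀ M s (Sum.map σ id ∘ w) ↔ GC U g₀ M s w := by
  classical
  obtain ⟨l, hnd, hlm⟩ : ∃ l : List ρ, l.Nodup ∧ ∀ r, r ∈ l ↔ r ∈ rowsOf w := by
    refine ⟨(finite_rowsOf w).toFinset.toList, Finset.nodup_toList _, fun r => by simp⟩
  have hrow : ∀ k r a, (Sum.map σ id ∘ w) k = Sum.inr (r, a) ↔ w k = Sum.inr (r, a) := by
    intro k r a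
    show Sum.map σ id (w k) = _ ↔ _
    rcases w k with d | q
    · simp
    · simp
  have hw' : LiveT B (Sum.map σ id ∘ w) := fun k r a hk => hw k r a ((hrow k r a).mp hk)
  have hrw : rowsOf (Sum.map σ id ∘ w) ⊆ {r | r ∈ l} := by
    rintro r ⟨k, a, hk⟩
    exact (hlm r).mpr ⟨k, a, (hrow k r a).mp hk⟩
  rw [GC_eval hC hM hB hw' hnd hrw g₀, GC_eval hC hM hB hw hnd (fun r hr => (hlm r).mpr hr) g₀]
  have h1 : ∀ᶠ g' in nf U l g₀, ∀ k, ev g' (Sum.map σ id (w k)) = σ (ev g' (w k)) := by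
    refine Filter.eventually_all.mpr fun k => ?_
    rcases hk : w k with d | ⟨r, a⟩
    · exact Filter.Eventually.of_forall fun g' => rfl
    · have h2 : ∀ᶠ g' in nf U l g₀, ∀ d ∈ hσ.toFinset, g' r a ≠ d := by
        rw [Filter.eventually_all_finset]
        intro d _
        exact NU_avoid (fun r _ => hB r) ((hlm r).mpr ⟨k, a, hk⟩) (hw k r a hk) d g₀
      refine h2.mono fun g' hg' => ?_
      show g' r a = σ (g' r a)
      by_contra hcon
      exact hg' (g' r a) (by
        rw [Set.Finite.mem_toFinset]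
        exact fun h => hcon h.symm) rfl
  refine Filter.eventually_congr (h1.mono fun g' hg' => ?_)
  have : ev g' ∘ (Sum.map σ id ∘ w) = σ ∘ (ev g' ∘ w) := funext hg'
  rw [this]
  exact hauto _

end Pool.Agent.Helper6.VU
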