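import Pool.Agent.Helper6.V4Sym

/-!
# Exchangeable finite sets
-/

set_option autoImplicit false

namespace Pool.Agent.Helper6.VU

open Set Filter

variable {Y : Type} {ar : Y → ℕ} {E E' : Type}

/-- Automorphisms for the symbols in `G` (no bijectivity is required here). -/
def Auto (G : Set Y) (N : St ar E) (σ : E → E) : Prop :=
  ∀ s ∈ G, ∀ w : Fin (ar s) → E, N s (σ ∘ w) ↔ N s w

theorem Auto.comp {G : Set Y} {N : St ar E} {σ τ : E → E} (h : Auto G N σ) (h' : Auto G N τ) :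
    Auto G N (σ ∘ τ) := fun s hs w => (h s hs (τ ∘ w)).trans (h' s hs w)

theorem Auto.id (G : Set Y) (N : St ar E) : Auto G N id := fun _ _ _ => Iff.rfl

theorem Auto.mono {G G' : Set Y} {N : St ar E} {σ : E → E} (h : Auto G N σ) (hG : G' ⊆ G) :
    Auto G' N σ := fun s hs w => h s (hG hs) w

/-- The involution `σ` exchanges `P` with a disjoint set and fixes everything else. -/
structure Disp (σ : E → E) (P : Set E) : Prop where
  inv : ∀ x, σ (σ x) = x
  off : ∀ x ∈ P, σ x ∉ P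
  fix : ∀ x, x ∉ P → σ x ∉ P → σ x = x

theorem Disp.fix' {σ : E → E} {P : Set E} (h : Disp σ P) {x : E} (hx : x ∉ P)
    (hx' : ∀ y ∈ P, σ y ≠ x) : σ x = x :=
  h.fix x hx fun h' => hx' _ h' (h.inv x)

theorem Disp.injective {σ : E → E} {P : Set E} (h : Disp σ P) : Function.Injective σ :=
  fun x y hxy => by rw [← h.inv x, hxy, h.inv]

/-- The finite set `P` can be exchanged with disjoint sets off every finite set. -/
def Swp (G : Set Y) (N : St ar E) (P : Set E) : Prop :=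
  ∀ F : Set E, F.Finite → ∃ σ, Auto G N σ ∧ Disp σ P ∧ ∀ x ∈ P, σ x ∉ F

theorem Swp.mono {G G' : Set Y} {N : St ar E} {P : Set E} (h : Swp G N P) (hG : G' ⊆ G) :
    Swp G' N P := fun F hF => by
  obtain ⟨σ, h1, h2, h3⟩ := h F hF
  exact ⟨σ, h1.mono hG, h2, h3⟩

theorem swp_empty (G : Set Y) (N : St ar E) : Swp G N ∅ := fun _ _ =>
  ⟨id, Auto.id G N, ⟨fun _ => rfl, fun _ h => absurd h (Set.notMem_empty _), fun _ _ _ => rfl⟩,
    fun _ h => absurd h (Set.notMem_empty _)⟩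

/-- The restriction of an involution. -/
noncomputable def restr (τ : E → E) (u : Set E) (x : E) : E :=
  open Classical in if x ∈ u ∨ τ x ∈ u then τ x else x

theorem restr_of_mem {τ : E → E} {u : Set E} {x : E} (h : x ∈ u) : restr τ u x = τ x := by
  unfold restr; rw [if_pos (Or.inl h)]

theorem restr_of_mem' {τ : E → E} {u : Set E} {x : E} (h : τ x ∈ u) : restr τ u x = τ x := by
  unfold restr; rw [if_pos (Or.inr h)]

theorem restr_of_not {τ : E → E} {u : Set E} {x : E} (h : x ∉ u) (h' : τ x ∉ u) :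
    restr τ u x = x := by
  unfold restr; rw [if_neg (by tauto)]

theorem Disp.restr {τ : E → E} {B u : Set E} (h : Disp τ B) (hu : u ⊆ B) :
    Disp (restr τ u) u where
  inv x := by
    by_cases h1 : x ∈ u
    · rw [restr_of_mem h1, restr_of_mem' (by rw [h.inv]; exact h1), h.inv]
    · by_cases h2 : τ x ∈ u
      · rw [restr_of_mem' h2, restr_of_mem h2, h.inv]
      · rw [restr_of_not h1 h2, restr_of_not h1 h2]
  off x hx := by
    rw [restr_of_mem hx]
    exact fun h' => h.off x (hu hx) (hu h')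
  fix x hx hx' := by
    by_cases h2 : τ x ∈ u
    · rw [restr_of_mem' h2] at hx'
      exact absurd h2 hx'
    · exact restr_of_not hx h2

/-- The intersection lemma. -/
theorem auto_restr_inter {G : Set Y} {N : St ar E} {P B : Set E} (hPf : P.Finite) (hBf : B.Finite)
    (hP : Swp G N P) (hB : Swp G N B) {τ : E → E} (hτ : Auto G N τ) (hτB : Disp τ B)
    (hτP : ∀ x ∈ B, τ x ∉ P) : Auto G N (restr τ (P ∩ B)) := by
  intro s hs w
  have hwf : (range w).Finite := Set.finite_range w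
  obtain ⟨σ, hσ, hσP, hσa⟩ := hP (range w ∪ B ∪ τ '' B) ((hwf.union hBf).union (hBf.image _))
  obtain ⟨τ', hτ', hτB', hτa⟩ := hB (range w ∪ P ∪ σ '' P ∪ τ '' B)
    (((hwf.union hPf).union (hPf.image _)).union (hBf.image _))
  -- basic facts
  have a1 : ∀ x ∈ P, σ x ∉ B := fun x hx h => hσa x hx (Or.inl (Or.inr h))
  have a2 : ∀ x ∈ P, ∀ y ∈ B, σ x ≠ τ y := fun x hx y hy h =>
    hσa x hx (Or.inr ⟨y, hy, h.symm⟩)
  have a3 : ∀ x ∈ P, ∀ k, σ x ≠ w k := fun x hx k h =>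
    hσa x hx (Or.inl (Or.inl ⟨k, h.symm⟩))
  have b1 : ∀ x ∈ B, τ' x ∉ P := fun x hx h => hτa x hx (Or.inl (Or.inl (Or.inr h)))
  have b2 : ∀ x ∈ B, ∀ y ∈ P, τ' x ≠ σ y := fun x hx y hy h =>
    hτa x hx (Or.inl (Or.inr ⟨y, hy, h.symm⟩))
  have b3 : ∀ x ∈ B, ∀ y ∈ B, τ' x ≠ τ y := fun x hx y hy h =>
    hτa x hx (Or.inr ⟨y, hy, h.symm⟩)
  have b4 : ∀ x ∈ B, ∀ k, τ' x ≠ w k := fun x hx k h =>
    hτa x hx (Or.inl (Or.inl (Or.inl ⟨k, h.symm⟩)))
  have hσfix : ∀ x, x ∉ P → (∀ y ∈ P, σ y ≠ x) → σ x = x := fun x h1 h2 => hσP.fix' h1 h2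
  have hτfix : ∀ x, x ∉ B → (∀ y ∈ B, τ y ≠ x) → τ x = x := fun x h1 h2 => hτB.fix' h1 h2
  have hτ'fix : ∀ x, x ∉ B → (∀ y ∈ B, τ' y ≠ x) → τ' x = x := fun x h1 h2 => hτB'.fix' h1 h2
  -- values
  have c1 : ∀ x ∈ P, τ (σ x) = σ x := fun x hx =>
    hτfix _ (a1 x hx) fun y hy h => a2 x hx y hy h.symm
  have c2 : ∀ x ∈ P, τ' (σ x) = σ x := fun x hx =>
    hτ'fix _ (a1 x hx) fun y hy h => b2 y hy x hx h
  have c3 : ∀ x ∈ B, σ (τ x) = τ x := fun x hx =>
    hσfix _ (hτP x hx) fun y hy h => a2 y hy x hx h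
  have c4 : ∀ x ∈ B, σ (τ' x) = τ' x := fun x hx =>
    hσfix _ (b1 x hx) fun y hy h => b2 x hx y hy h.symm
  have c5 : ∀ x ∈ B, τ' (τ x) = τ x := fun x hx =>
    hτ'fix _ (hτB.off x hx) fun y hy h => b3 y hy x hx h
  let γ₁ : E → E := τ ∘ σ ∘ τ ∘ σ
  let γ₂ : E → E := τ' ∘ σ ∘ τ' ∘ σ
  have hγ₁ : Auto G N γ₁ := hτ.comp (hσ.comp (hτ.comp hσ))
  have hγ₂ : Auto G N γ₂ := hτ'.comp (hσ.comp (hτ'.comp hσ))
  have key : ∀ k, γ₂ (γ₁ (w k)) = restr τ (P ∩ B) (w k) := by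
    intro k
    have hk1 : ∀ y ∈ P, σ y ≠ w k := fun y hy => a3 y hy k
    have hk2 : ∀ y ∈ B, τ' y ≠ w k := fun y hy => b4 y hy k
    set x := w k with hx
    show τ' (σ (τ' (σ (τ (σ (τ (σ x))))))) = _
    by_cases hxP : x ∈ P
    · rw [c1 x hxP, hσP.inv]
      by_cases hxB : x ∈ B
      · rw [restr_of_mem (u := P ∩ B) ⟨hxP, hxB⟩, c3 x hxB, c5 x hxB, c3 x hxB, c5 x hxB]
      · have h1 : ∀ y ∈ B, τ y ≠ x := fun y hy h => hτP y hy (h ▸ hxP)
        have h2 : τ x = x := hτfix x hxB h1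
        rw [h2, c2 x hxP, hσP.inv, hτ'fix x hxB hk2, restr_of_not (fun h => hxB h.2)
          (by rw [h2]; exact fun h => hxB h.2)]
    · have hσx : σ x = x := hσfix x hxP hk1
      by_cases hxB : x ∈ B
      · have h1 : τ x ∉ P ∩ B := fun h => hτB.off x hxB h.2
        rw [hσx, c3 x hxB, hτB.inv, hσx, c4 x hxB, hτB'.inv, restr_of_not (fun h => hxP h.1) h1]
      · by_cases hτx : τ x ∈ B
        · by_cases hτxP : τ x ∈ P
          · rw [restr_of_mem' (u := P ∩ B) ⟨hτxP, hτx⟩, hσx, c1 _ hτxP, hσP.inv, c4 _ hτx, hτB'.inv]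
          · have h3 : σ (τ x) = τ x := hσfix _ hτxP fun y hy h => a1 y hy (h ▸ hτx)
            have h4 : τ' x = x := hτ'fix x hxB hk2
            rw [hσx, h3, hτB.inv, hσx, h4, hσx, h4, restr_of_not (fun h => hxB h.2)
              (fun h => hτxP h.1)]
        · have h3 : τ x = x := hτB.fix x hxB hτx
          have h4 : τ' x = x := hτ'fix x hxB hk2
          rw [hσx, h3, hσx, h3, hσx, h4, hσx, h4, restr_of_not (fun h => hxB h.2)
              (by rw [h3]; exact fun h => hxB h.2)]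
  have : restr τ (P ∩ B) ∘ w = γ₂ ∘ (γ₁ ∘ w) := funext fun k => (key k).symm
  rw [this, hγ₂ s hs, hγ₁ s hs]

theorem swp_inter {G : Set Y} {N : St ar E} {P B : Set E} (hPf : P.Finite) (hBf : B.Finite)
    (hP : Swp G N P) (hB : Swp G N B) : Swp G N (P ∩ B) := by
  intro F hF
  obtain ⟨τ, hτ, hτB, hτa⟩ := hB (F ∪ P) (hF.union hPf)
  refine ⟨restr τ (P ∩ B), auto_restr_inter hPf hBf hP hB hτ hτB
    (fun x hx h => hτa x hx (Or.inr h)), hτB.restr Set.inter_subset_right, fun x hx => ?_⟩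
  rw [restr_of_mem hx]
  exact fun h => hτa x hx.2 (Or.inl h)

/-- Restrictions to exchangeable subsets. -/
theorem auto_restr {G : Set Y} {N : St ar E} {u B : Set E} (hBf : B.Finite) (huB : u ⊆ B)
    (hu : Swp G N u) (hB : Swp G N B) {τ : E → E} (hτ : Auto G N τ) (hτB : Disp τ B) :
    Auto G N (restr τ u) := by
  have := auto_restr_inter (hBf.subset huB) hBf hu hB hτ hτB
    (fun x hx h => hτB.off x hx (huB h))
  rwa [Set.inter_eq_left.mpr huB] at this

theorem restr_diff {τ : E → E} {B u : Set E} (h : Disp τ B) (hu : u ⊆ B) :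
    restr τ (B \ u) = restr τ u ∘ τ := by
  funext x
  show restr τ (B \ u) x = restr τ u (τ x)
  by_cases hx : x ∈ B
  · have h1 := h.off x hx
    by_cases hxu : x ∈ u
    · rw [restr_of_not (fun h' => h'.2 hxu) (fun h' => h1 h'.1),
        restr_of_mem' (by rw [h.inv]; exact hxu), h.inv]
    · rw [restr_of_mem (u := B \ u) ⟨hx, hxu⟩, restr_of_not (fun h' => h1 (hu h')) (by rwa [h.inv])]
  · by_cases hτx : τ x ∈ B
    · by_cases hxu : τ x ∈ u
      · rw [restr_of_not (fun h' => hx h'.1) (fun h' => h'.2 hxu), restr_of_mem hxu, h.inv]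
      · rw [restr_of_mem' (u := B \ u) ⟨hτx, hxu⟩, restr_of_not hxu (by rw [h.inv]; exact fun h' => hx (hu h'))]
    · have h3 := h.fix x hx hτx
      rw [restr_of_not (fun h' => hx h'.1) (fun h' => hτx h'.1), h3,
        restr_of_not (fun h' => hx (hu h')) (by rw [h3]; exact fun h' => hx (hu h'))]

theorem swp_diff {G : Set Y} {N : St ar E} {u B : Set E} (hBf : B.Finite) (huB : u ⊆ B)
    (hu : Swp G N u) (hB : Swp G N B) : Swp G N (B \ u) := by
  intro F hF
  obtain ⟨τ, hτ, hτB, hτa⟩ := hB F hF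
  refine ⟨restr τ (B \ u), ?_, hτB.restr Set.sdiff_subset, fun x hx => ?_⟩
  · rw [restr_diff hτB huB]
    exact (auto_restr hBf huB hu hB hτ hτB).comp hτ
  · rw [restr_of_mem hx]
    exact hτa x hx.1

theorem swp_union {G : Set Y} {N : St ar E} {u v B : Set E} (hBf : B.Finite) (huB : u ⊆ B)
    (hvB : v ⊆ B) (hu : Swp G N u) (hv : Swp G N v) (hB : Swp G N B) : Swp G N (u ∪ v) := by
  have h1 := swp_inter (hBf.subset Set.sdiff_subset) (hBf.subset Set.sdiff_subset)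
    (swp_diff hBf huB hu hB) (swp_diff hBf hvB hv hB)
  have h2 := swp_diff hBf (Set.inter_subset_left.trans Set.sdiff_subset) h1 hB
  have h3 : B \ ((B \ u) ∩ (B \ v)) = u ∪ v := by
    ext x
    simp only [Set.mem_sdiff, Set.mem_inter_iff, Set.mem_union]
    constructor
    · rintro ⟨h4, h5⟩
      by_contra hcon
      push Not at hcon
      exact h5 ⟨⟨h4, hcon.1⟩, h4, hcon.2⟩
    · rintro (h | h)
      · exact ⟨huB h, fun h' => h'.1.2 h⟩
      · exact ⟨hvB h, fun h' => h'.2.2 h⟩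
  rwa [h3] at h2

/-- `P` is the least exchangeable finite set containing `y`. -/
def IsBlk (G : Set Y) (N : St ar E) (y : E) (P : Finset E) : Prop :=
  y ∈ P ∧ Swp G N (P : Set E) ∧ ∀ Q : Finset E, y ∈ Q → Swp G N (Q : Set E) → P ⊆ Q

theorem exists_isBlk {G : Set Y} {N : St ar E} {y : E} {P : Finset E} (hy : y ∈ P)
    (hP : Swp G N (P : Set E)) : ∃ P₀, IsBlk G N y P₀ ∧ P₀ ⊆ P := by
  classical
  have hex : ∃ n, ∃ Q : Finset E, y ∈ Q ∧ Swp G N (Q : Set E) ∧ Q.card = n :=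
    ⟨_, P, hy, hP, rfl⟩
  obtain ⟨Q, hyQ, hQ, hQc⟩ := Nat.find_spec hex
  have hmin : ∀ Q' : Finset E, y ∈ Q' → Swp G N (Q' : Set E) → Q.card ≤ Q'.card := by
    intro Q' h1 h2
    rw [hQc]
    exact Nat.find_min' hex ⟨Q', h1, h2, rfl⟩
  have hleast : ∀ Q' : Finset E, y ∈ Q' → Swp G N (Q' : Set E) → Q ⊆ Q' := by
    intro Q' h1 h2
    have h3 : Swp G N ((Q ∩ Q' : Finset E) : Set E) := by
      rw [Finset.coe_inter]
      exact swp_inter Q.finite_toSet Q'.finite_toSet hQ h2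
    have h4 := hmin (Q ∩ Q') (Finset.mem_inter.mpr ⟨hyQ, h1⟩) h3
    have h5 := Finset.eq_of_subset_of_card_le Finset.inter_subset_left h4
    intro x hx
    rw [← h5] at hx
    exact (Finset.mem_inter.mp hx).2
  exact ⟨Q, ⟨hyQ, hQ, hleast⟩, hleast P hy hP⟩

theorem IsBlk.unique {G : Set Y} {N : St ar E} {y : E} {P P' : Finset E} (h : IsBlk G N y P)
    (h' : IsBlk G N y P') : P = P' :=
  Finset.Subset.antisymm (h.2.2 P' h'.1 h'.2.1) (h'.2.2 P h.1 h.2.1)

theorem IsBlk.of_mem {G : Set Y} {N : St ar E} {y z : E} {P : Finset E} (h : IsBlk G N y P)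
    (hz : z ∈ P) : IsBlk G N z P := by
  classical
  obtain ⟨Q, hQ, hQP⟩ := exists_isBlk hz h.2.1
  by_cases hy : y ∈ Q
  · have := h.2.2 Q hy hQ.2.1
    have heq : P = Q := Finset.Subset.antisymm this hQP
    rw [heq]
    exact hQ
  · exfalso
    have h1 : Swp G N ((P \ Q : Finset E) : Set E) := by
      rw [Finset.coe_sdiff]
      exact swp_diff P.finite_toSet (by exact_mod_cast hQP) hQ.2.1 h.2.1
    have h2 := h.2.2 (P \ Q) (Finset.mem_sdiff.mpr ⟨h.1, hy⟩) h1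
    exact (Finset.mem_sdiff.mp (h2 hz)).2 hQ.1

theorem IsBlk.eq_of_mem {G : Set Y} {N : St ar E} {y y' z : E} {P P' : Finset E}
    (h : IsBlk G N y P) (h' : IsBlk G N y' P') (hz : z ∈ P) (hz' : z ∈ P') : P = P' :=
  (h.of_mem hz).unique (h'.of_mem hz')

/-- Transport of exchangeability. -/
theorem Swp.iso {G : Set Y} {N : St ar E} {N' : St ar E'} (e : E ≃ E')
    (h : ∀ s ∈ G, ∀ w, N s w ↔ N' s (e ∘ w)) {P : Set E} (hP : Swp G N P) :
    Swp G N' (e '' P) := by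
  intro F hF
  obtain ⟨σ, h1, h2, h3⟩ := hP (e.symm '' F) (hF.image _)
  refine ⟨e ∘ σ ∘ e.symm, ?_, ⟨?_, ?_, ?_⟩, ?_⟩
  · intro s hs w
    have e1 : (e ∘ σ ∘ e.symm) ∘ w = e ∘ (σ ∘ (e.symm ∘ w)) := rfl
    have e2 : w = e ∘ (e.symm ∘ w) := by ext; simp
    rw [e1, ← h s hs, h1 s hs]
    conv_rhs => rw [e2]
    rw [← h s hs]
  · intro x
    show e (σ (e.symm (e (σ (e.symm x))))) = x
    rw [Equiv.symm_apply_apply, h2.inv, Equiv.apply_symm_apply]
  · rintro _ ⟨x, hx, rfl⟩ ⟨y, hy, hxy⟩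
    have h4 : e y = e (σ (e.symm (e x))) := hxy
    rw [Equiv.symm_apply_apply] at h4
    exact h2.off x hx (e.injective h4 ▸ hy)
  · intro x hx hx'
    show e (σ (e.symm x)) = x
    rw [h2.fix (e.symm x) (fun h => hx ⟨_, h, by simp⟩) (fun h => hx' ⟨_, h, rfl⟩),
      Equiv.apply_symm_apply]
  · rintro _ ⟨x, hx, rfl⟩ hF'
    refine h3 x hx ⟨_, hF', ?_⟩
    show e.symm (e (σ (e.symm (e x)))) = σ x
    rw [Equiv.symm_apply_apply, Equiv.symm_apply_apply]

theorem IsBlk.iso {G : Set Y} {N : St ar E} {N' : St ar E'} (e : E ≃ E')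
    (h : ∀ s ∈ G, ∀ w, N s w ↔ N' s (e ∘ w)) {y : E} {P : Finset E} (hP : IsBlk G N y P) :
    IsBlk G N' (e y) (P.map e.toEmbedding) := by
  have h' : ∀ s ∈ G, ∀ w, N' s w ↔ N s (e.symm ∘ w) := by
    intro s hs w
    rw [h s hs]
    have : e ∘ e.symm ∘ w = w := by ext; simp
    rw [this]
  refine ⟨by simpa using hP.1, ?_, ?_⟩
  · have := hP.2.1.iso e h
    rwa [show (e '' (P : Set E)) = ((P.map e.toEmbedding : Finset E') : Set E') by
      rw [Finset.coe_map]; rfl] at this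
  · intro Q hy hQ
    have h1 := hQ.iso e.symm h'
    rw [show (e.symm '' (Q : Set E')) = ((Q.map e.symm.toEmbedding : Finset E) : Set E) by
      rw [Finset.coe_map]; rfl] at h1
    have h2 := hP.2.2 (Q.map e.symm.toEmbedding) (by
      rw [Finset.mem_map]
      exact ⟨_, hy, by simp⟩) h1
    intro x hx
    rw [Finset.mem_map] at hx
    obtain ⟨z, hz, rfl⟩ := hx
    have h3 := h2 hz
    rw [Finset.mem_map] at h3
    obtain ⟨q, hq, hqz⟩ := h3
    have : q = e z := by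
      rw [← hqz]; simp
    show e z ∈ Q
    rw [← this]
    exact hq

/-- The exchange given by an injection. -/
noncomputable def swf (P : Finset E) (h : P → E) (x : E) : E :=
  open Classical in
  if hx : x ∈ P then h ⟨x, hx⟩ else if hy : ∃ y : P, h y = x then (hy.choose : E) else x

theorem swf_mem {P : Finset E} {h : P → E} (x : P) : swf P h x = h x := by
  unfold swf
  rw [dif_pos x.2]

theorem swf_disp {P : Finset E} {h : P → E} (hinj : Function.Injective h) (hP : ∀ x, h x ∉ P) :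
    Disp (swf P h) (P : Set E) where
  inv x := by
    by_cases hx : x ∈ P
    · rw [show swf P h x = h ⟨x, hx⟩ from swf_mem ⟨x, hx⟩]
      unfold swf
      rw [dif_neg (hP _), dif_pos ⟨_, rfl⟩]
      have := Exists.choose_spec (⟨⟨x, hx⟩, rfl⟩ : ∃ y : P, h y = h ⟨x, hx⟩)
      exact congrArg Subtype.val (hinj this)
    · by_cases hy : ∃ y : P, h y = x
      · have h1 : swf P h x = (hy.choose : E) := by
          unfold swf
          rw [dif_neg hx, dif_pos hy]
        rw [h1, swf_mem]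
        exact hy.choose_spec
      · have h1 : swf P h x = x := by
          unfold swf
          rw [dif_neg hx, dif_neg hy]
        rw [h1, h1]
  off x hx := by
    rw [show swf P h x = h ⟨x, hx⟩ from swf_mem ⟨x, hx⟩]
    exact hP _
  fix x hx hx' := by
    have hxP : x ∉ P := hx
    by_cases hy : ∃ y : P, h y = x
    · exfalso
      apply hx'
      have h1 : swf P h x = (hy.choose : E) := by
        unfold swf
        rw [dif_neg hxP, dif_pos hy]
      rw [h1]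
      exact hy.choose.2
    · unfold swf
      rw [dif_neg hxP, dif_neg hy]

theorem eq_swf {P : Finset E} {σ : E → E} (h : Disp σ (P : Set E)) :
    σ = swf P fun x => σ x := by
  funext x
  by_cases hx : x ∈ P
  · exact (swf_mem (h := fun x : P => σ x) ⟨x, hx⟩).symm
  · unfold swf
    rw [dif_neg hx]
    by_cases hy : ∃ y : P, σ y = x
    · rw [dif_pos hy]
      have h1 : σ (hy.choose : E) = x := hy.choose_spec
      have h2 := h.inv (hy.choose : E)
      rw [h1] at h2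
      exact h2
    · rw [dif_neg hy]
      exact h.fix' hx fun y hy' h' => hy ⟨⟨y, hy'⟩, h'⟩

theorem swp_iff {G : Set Y} {N : St ar E} {P : Finset E} : Swp G N (P : Set E) ↔
    ∀ F : Finset E, ∃ h : P → E, (Function.Injective h ∧ (∀ x, h x ∉ P) ∧ ∀ x, h x ∉ F) ∧
      Auto G N (swf P h) := by
  constructor
  · intro hs F
    obtain ⟨σ, h1, h2, h3⟩ := hs F F.finite_toSet
    refine ⟨fun x => σ x, ⟨fun x y hxy => Subtype.ext (h2.injective hxy),
      fun x => h2.off x x.2, fun x => h3 x x.2⟩, ?_⟩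
    rw [← eq_swf h2]
    exact h1
  · intro hs F hF
    obtain ⟨h, ⟨h1, h2, h3⟩, h4⟩ := hs hF.toFinset
    refine ⟨swf P h, h4, swf_disp h1 h2, fun x hx hxF => ?_⟩
    refine h3 ⟨x, hx⟩ ?_
    rw [Set.Finite.mem_toFinset, ← swf_mem (h := h) ⟨x, hx⟩]
    exact hxF

theorem mp_auto [Countable Y] (G : Set Y) (σ : ℕ → ℕ) : MP fun c : Sp ar => Auto G (toSt c) σ :=
  MP.all fun s => MP.all fun _ => MP.all fun _ => MP.iff (MP.atom s _) (MP.atom s _)

theorem mp_swp [Countable Y] (G : Set Y) (P : Finset ℕ) :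
    MP fun c : Sp ar => Swp G (toSt c) (P : Set ℕ) := by
  have : MP fun c : Sp ar => ∀ F : Finset ℕ, ∃ h : P → ℕ, (Function.Injective h ∧
      (∀ x, h x ∉ P) ∧ ∀ x, h x ∉ F) ∧ Auto G (toSt c) (swf P h) :=
    MP.all fun _ => MP.ex fun _ => MP.and (MP.const _) (mp_auto G _)
  exact this.congr fun c => swp_iff.symm

theorem mp_isBlk [Countable Y] (G : Set Y) (y : ℕ) (P : Finset ℕ) :
    MP fun c : Sp ar => IsBlk G (toSt c) y P :=
  MP.and (MP.const _) (MP.and (mp_swp G P)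
    (MP.all fun Q => MP.imp (MP.const _) (MP.imp (mp_swp G Q) (MP.const _))))

/-- The decoding property used for exchangeable sets. -/
def PhiB (G : Set Y) (lo hi : ℕ → ℕ) (N : St ar E) (t : ℕ) : Prop :=
  ∀ F : Finset E, ∃ y, y ∉ F ∧ ∃ P : Finset E, IsBlk G N y P ∧ lo t ≤ P.card ∧ P.card ≤ hi t

theorem PhiB.iso {G : Set Y} {lo hi : ℕ → ℕ} {N : St ar E} {N' : St ar E'} (e : E ≃ E')
    (h : ∀ s w, N s w ↔ N' s (e ∘ w)) {t : ℕ} (hΦ : PhiB G lo hi N t) : PhiB G lo hi N' t := by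
  intro F
  obtain ⟨y, hy, P, hP, h1, h2⟩ := hΦ (F.map e.symm.toEmbedding)
  refine ⟨e y, fun hF => hy ?_, P.map e.toEmbedding, hP.iso e (fun s _ w => h s w), ?_, ?_⟩
  · rw [Finset.mem_map]
    exact ⟨_, hF, by simp⟩
  · rw [Finset.card_map]; exact h1
  · rw [Finset.card_map]; exact h2

theorem mp_phiB [Countable Y] (G : Set Y) (lo hi : ℕ → ℕ) (t : ℕ) :
    MP fun c : Sp ar => PhiB G lo hi (toSt c) t :=
  MP.all fun _ => MP.ex fun _ => MP.and (MP.const _) (MP.ex fun _ =>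
    MP.and (mp_isBlk G _ _) (MP.const _))

/-- Decoding with exchangeable sets. -/
theorem wild_of_phiB [Countable Y] (K : HC ar) (G : Set Y) (lo hi : ℕ → ℕ)
    (hfam : ∀ S : Set ℕ, 0 ∈ S → ∃ (E : Type) (_ : Countable E) (_ : Infinite E) (N : St ar E),
      K.mem N ∧ ∀ t, PhiB G lo hi N t ↔ t ∈ S) : Wild {c : Sp ar | K.mem (toSt c)} := by
  refine wild_of_decode K 0 (fun {E} N _ t => PhiB G lo hi N t)
    (fun e N N' h _ t hΦ => PhiB.iso e h hΦ) (fun _ t => mp_phiB G lo hi t) ?_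
  intro S hS
  obtain ⟨E, h1, h2, N, h3, h4⟩ := hfam S hS
  exact ⟨E, h1, h2, N, Fin.elim0, h3, h4⟩

end Pool.Agent.Helper6.VU
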