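import Pool.Agent.Helper6.V6Types

/-!
# Infinitely many average types give perfectly many structures
-/

set_option autoImplicit false

namespace Pool.Agent.Helper6.VU

open Set Filter

variable {Y : Type} {ar : Y → ℕ} {D A : Type}

namespace ArrData

variable {K : HC ar} {M : St ar D} {s : Y} (dt : ArrData K D A M s)

/-- The elements used for `S`. -/
def X (NN : ℕ → ℕ) (S : Set ℕ) :
    Set ((D ⊕ (ℕ × ℕ) × A) ⊕ (ℕ × ℕ) × (Fin (ar s) ⊕ (ℕ × A))) :=
  {e | (∃ c, e = Sum.inl (Sum.inl (dt.dc c))) ∨ ∃ r q, r.1 ∈ S ∧ q ∈ dt.BB NN r ∧ e = Sum.inr (r, q)}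

/-- The structure for `S`. -/
noncomputable def N (NN : ℕ → ℕ) (S : Set ℕ) : St ar (dt.X NN S) := pull Subtype.val dt.M2

theorem X_live {NN : ℕ → ℕ} {S : Set ℕ} : dt.X NN S ⊆ live (dt.BB NN) := by
  rintro e (⟨c, rfl⟩ | ⟨r, q, -, hq, rfl⟩) r' q' h
  · simp at h
  · simp only [Sum.inr.injEq, Prod.mk.injEq] at h
    rw [← h.1, ← h.2]
    exact hq

theorem N_mem (hM : K.mem M) {NN : ℕ → ℕ} {S : Set ℕ} : K.mem (dt.N NN S) :=
  GC_mem K (B := dt.BB NN) (fun r => dt.T_disj NN r) (dt.M1_mem hM) dt.X_live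

variable {NN : ℕ → ℕ} {S : Set ℕ}

theorem liveT_val {n : ℕ} (w : Fin n → dt.X NN S) : LiveT (dt.BB NN) (Subtype.val ∘ w) :=
  fun c r a h => dt.X_live (w c).2 r a h

/-- The elements of a row. -/
def row (NN : ℕ → ℕ) (S : Set ℕ) (r : ℕ × ℕ) : Set (dt.X NN S) := {e | ∃ q, e.1 = Sum.inr (r, q)}

/-- The parameter part of a row. -/
def bpart (NN : ℕ → ℕ) (S : Set ℕ) (r : ℕ × ℕ) : Set (dt.X NN S) :=
  {e | ∃ c, e.1 = Sum.inr (r, Sum.inl c)}

/-- The part of a row with index `i`. -/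
def ipart (NN : ℕ → ℕ) (S : Set ℕ) (r : ℕ × ℕ) (i : ℕ) : Set (dt.X NN S) :=
  {e | ∃ a, e.1 = Sum.inr (r, Sum.inr (i, a))}

theorem X_inr {e : dt.X NN S} {r : ℕ × ℕ} {q : Fin (ar s) ⊕ (ℕ × A)} (h : e.1 = Sum.inr (r, q)) :
    r.1 ∈ S ∧ q ∈ dt.BB NN r := by
  rcases e.2 with ⟨c, hc⟩ | ⟨r', q', h1, h2, h3⟩
  · rw [h] at hc; simp at hc
  · rw [h] at h3
    simp only [Sum.inr.injEq, Prod.mk.injEq] at h3
    rw [h3.1, h3.2]
    exact ⟨h1, h2⟩

theorem BB_finite [Finite A] (r : ℕ × ℕ) : (dt.BB NN r).Finite := by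
  have : dt.BB NN r ⊆ (range (Sum.inl : Fin (ar s) → Fin (ar s) ⊕ (ℕ × A))) ∪
      ((fun q : ℕ × A => (Sum.inr q : Fin (ar s) ⊕ (ℕ × A))) '' (Set.Iio (NN r.1) ×ˢ univ)) := by
    rintro q (⟨c, -, rfl⟩ | ⟨i, a, hi, rfl⟩)
    · exact Or.inl ⟨c, rfl⟩
    · exact Or.inr ⟨(i, a), ⟨hi, trivial⟩, rfl⟩
  exact ((Set.finite_range _).union (((Set.finite_Iio _).prod Set.finite_univ).image _)).subset
    this

theorem row_finite [Finite A] (r : ℕ × ℕ) : (dt.row NN S r).Finite := by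
  have h1 : ((fun q => (Sum.inr (r, q) : (D ⊕ (ℕ × ℕ) × A) ⊕ (ℕ × ℕ) × (Fin (ar s) ⊕ (ℕ × A))))
      '' (dt.BB NN r)).Finite := (dt.BB_finite r).image _
  refine (h1.preimage (f := (Subtype.val : dt.X NN S → _)) Subtype.val_injective.injOn).subset ?_
  rintro e ⟨q, hq⟩
  exact ⟨q, (dt.X_inr hq).2, hq.symm⟩

/-- The exchange of two rows. -/
noncomputable def xr (t j j' : ℕ) : (ℕ × ℕ) → (ℕ × ℕ) :=
  open Classical in Equiv.swap (t, j) (t, j')

theorem xr_fst (t j j' : ℕ) (r : ℕ × ℕ) : (xr t j j' r).1 = r.1 := by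
  classical
  unfold xr
  by_cases h1 : r = (t, j)
  · rw [h1, Equiv.swap_apply_left]
  · by_cases h2 : r = (t, j')
    · rw [h2, Equiv.swap_apply_right]
    · rw [Equiv.swap_apply_of_ne_of_ne h1 h2]

theorem xr_inv (t j j' : ℕ) (r : ℕ × ℕ) : xr t j j' (xr t j j' r) = r := by
  unfold xr
  exact Equiv.swap_apply_self _ _ _

/-- The exchange of two rows on the structure. -/
noncomputable def sw (NN : ℕ → ℕ) (S : Set ℕ) (t j j' : ℕ) (e : dt.X NN S) : dt.X NN S :=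
  ⟨rmap (xr t j j') e.1, by
    rcases e.2 with ⟨c, hc⟩ | ⟨r, q, h1, h2, h3⟩
    · left; exact ⟨c, by rw [hc]; rfl⟩
    · right
      refine ⟨xr t j j' r, q, by rw [xr_fst]; exact h1, ?_, by rw [h3]; rfl⟩
      unfold BB at h2 ⊢
      simp only [Set.mem_ofPred_eq] at h2 ⊢
      rw [xr_fst]
      exact h2⟩

theorem sw_auto (hC : Comm K) (hM : K.mem M) (t j j' : ℕ) (G : Set Y) :
    Auto G (dt.N NN S) (dt.sw NN S t j j') := by
  intro s' _ w
  have h := GC_rmap (K := K) (U := fun _ : ℕ × ℕ => dt.T) (B := dt.BB NN) hC (dt.M1_mem hM)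
    (fun r => dt.T_disj NN r) (g₀ := fun _ _ => Sum.inl dt.d0) (s := s')
    (w := Subtype.val ∘ w) (dt.liveT_val w) (σ := xr t j j')
    (fun r _ r' _ h => by rw [← xr_inv t j j' r, h, xr_inv]) (fun _ _ => rfl)
    (fun r _ => by unfold BB; rw [xr_fst])
  exact h

theorem sw_val_inr {t j j' : ℕ} {e : dt.X NN S} {r : ℕ × ℕ} {q : Fin (ar s) ⊕ (ℕ × A)}
    (h : e.1 = Sum.inr (r, q)) : (dt.sw NN S t j j' e).1 = Sum.inr (xr t j j' r, q) := by
  show rmap _ e.1 = _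
  rw [h]
  rfl

theorem sw_disp {t j j' : ℕ} (hj : j ≠ j') :
    Disp (dt.sw NN S t j j') (dt.row NN S (t, j)) where
  inv e := by
    apply Subtype.ext
    show rmap _ (rmap _ e.1) = e.1
    rcases e.1 with d | ⟨r, q⟩
    · rfl
    · show Sum.inr (xr t j j' (xr t j j' r), q) = _
      rw [xr_inv]
  off := by
    rintro e ⟨q, hq⟩ ⟨q', hq'⟩
    rw [dt.sw_val_inr hq] at hq'
    simp only [Sum.inr.injEq, Prod.mk.injEq] at hq'
    have := hq'.1
    unfold xr at this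
    rw [Equiv.swap_apply_left] at this
    exact hj (Prod.ext_iff.mp this).2.symm
  fix := by
    intro e h1 h2
    apply Subtype.ext
    rcases he : e.1 with d | ⟨r, q⟩
    · show rmap _ e.1 = _
      rw [he]; rfl
    · rw [dt.sw_val_inr he]
      have h3 : r ≠ (t, j) := fun h => h1 ⟨q, by rw [he, h]⟩
      have h4 : r ≠ (t, j') := by
        intro h
        apply h2
        refine ⟨q, ?_⟩
        rw [dt.sw_val_inr he, h]
        unfold xr
        rw [Equiv.swap_apply_right]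
      unfold xr
      rw [Equiv.swap_apply_of_ne_of_ne h3 h4]

theorem row_swp [Finite A] (hC : Comm K) (hM : K.mem M) (t j : ℕ) (G : Set Y) :
    Swp G (dt.N NN S) (dt.row NN S (t, j)) := by
  intro F hF
  -- a row missing `F`
  have h1 : {j' | ∃ e ∈ F, ∃ q, e.1 = Sum.inr ((t, j'), q)}.Finite := by
    have h2 : (⋃ e ∈ F, {j' | ∃ q, e.1 = Sum.inr ((t, j'), q)}).Finite := by
      refine hF.biUnion fun e _ => Set.Subsingleton.finite ?_
      rintro j1 ⟨q1, h1⟩ j2 ⟨q2, h2⟩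
      rw [h1] at h2
      simp only [Sum.inr.injEq, Prod.mk.injEq, true_and] at h2
      exact h2.1
    refine h2.subset ?_
    rintro j' ⟨e, he, hq⟩
    exact Set.mem_iUnion₂.mpr ⟨e, he, hq⟩
  obtain ⟨j', hj'⟩ := (h1.union (Set.finite_singleton j)).exists_notMem
  have hjj : j ≠ j' := fun h => hj' (Or.inr h.symm)
  refine ⟨dt.sw NN S t j j', dt.sw_auto hC hM t j j' G, dt.sw_disp hjj, ?_⟩
  rintro e ⟨q, hq⟩ heF
  apply hj'
  left
  refine ⟨_, heF, q, ?_⟩
  rw [dt.sw_val_inr hq]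
  unfold xr
  rw [Equiv.swap_apply_left]

/-- The exchange of two indices in a row, on coordinates. -/
noncomputable def xi (i i' : ℕ) : Fin (ar s) ⊕ (ℕ × A) → Fin (ar s) ⊕ (ℕ × A) :=
  Sum.map id fun q => (open Classical in Equiv.swap i i' q.1, q.2)

theorem xi_inv (i i' : ℕ) (q : Fin (ar s) ⊕ (ℕ × A)) : xi (s := s) i i' (xi (s := s) i i' q) = q := by
  rcases q with c | ⟨k, a⟩
  · rfl
  · show Sum.inr (Equiv.swap i i' (Equiv.swap i i' k), a) = _
    rw [Equiv.swap_apply_self]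

theorem xi_mem {r : ℕ × ℕ} {i i' : ℕ} (hi : i < NN r.1) (hi' : i' < NN r.1)
    {q : Fin (ar s) ⊕ (ℕ × A)} (hq : q ∈ dt.BB NN r) : xi (s := s) i i' q ∈ dt.BB NN r := by
  classical
  rcases hq with ⟨c, hc, rfl⟩ | ⟨k, a, hk, rfl⟩
  · exact Or.inl ⟨c, hc, rfl⟩
  · refine Or.inr ⟨Equiv.swap i i' k, a, ?_, rfl⟩
    by_cases h1 : k = i
    · rw [h1, Equiv.swap_apply_left]; exact hi'
    · by_cases h2 : k = i'
      · rw [h2, Equiv.swap_apply_right]; exact hi
      · rw [Equiv.swap_apply_of_ne_of_ne h1 h2]; exact hk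

/-- The exchange of two indices in a row, on all elements. -/
noncomputable def xI (r : ℕ × ℕ) (i i' : ℕ) :
    (D ⊕ (ℕ × ℕ) × A) ⊕ (ℕ × ℕ) × (Fin (ar s) ⊕ (ℕ × A)) →
    (D ⊕ (ℕ × ℕ) × A) ⊕ (ℕ × ℕ) × (Fin (ar s) ⊕ (ℕ × A)) :=
  Sum.map id fun p => open Classical in if p.1 = r then (p.1, xi (s := s) i i' p.2) else p

theorem xI_inr_same {r : ℕ × ℕ} {i i' : ℕ} {q : Fin (ar s) ⊕ (ℕ × A)} :
    xI (D := D) r i i' (Sum.inr (r, q)) = Sum.inr (r, xi (s := s) i i' q) := by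
  simp [xI]

theorem xI_inr_ne {r r' : ℕ × ℕ} (h : r' ≠ r) {i i' : ℕ} {q : Fin (ar s) ⊕ (ℕ × A)} :
    xI (D := D) r i i' (Sum.inr (r', q)) = Sum.inr (r', q) := by
  simp [xI, h]

theorem xI_inv (r : ℕ × ℕ) (i i' : ℕ) (e : (D ⊕ (ℕ × ℕ) × A) ⊕ (ℕ × ℕ) × (Fin (ar s) ⊕ (ℕ × A))) :
    xI r i i' (xI r i i' e) = e := by
  rcases e with d | ⟨r', q⟩
  · rfl
  · by_cases h : r' = r
    · subst h
      rw [xI_inr_same, xI_inr_same, xi_inv]
    · rw [xI_inr_ne h, xI_inr_ne h]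

/-- The exchange of two indices in a row, on the structure. -/
noncomputable def si {r : ℕ × ℕ} {i i' : ℕ} (hi : i < NN r.1) (hi' : i' < NN r.1) :
    dt.X NN S ≃ dt.X NN S where
  toFun e := ⟨xI r i i' e.1, by
    rcases e.2 with ⟨c, hc⟩ | ⟨r', q, h1, h2, h3⟩
    · left; exact ⟨c, by rw [hc]; rfl⟩
    · right
      by_cases h : r' = r
      · subst h
        exact ⟨r', xi (s := s) i i' q, h1, dt.xi_mem hi hi' h2, by rw [h3, xI_inr_same]⟩
      · exact ⟨r', q, h1, h2, by rw [h3, xI_inr_ne h]⟩⟩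
  invFun e := ⟨xI r i i' e.1, by
    rcases e.2 with ⟨c, hc⟩ | ⟨r', q, h1, h2, h3⟩
    · left; exact ⟨c, by rw [hc]; rfl⟩
    · right
      by_cases h : r' = r
      · subst h
        exact ⟨r', xi (s := s) i i' q, h1, dt.xi_mem hi hi' h2, by rw [h3, xI_inr_same]⟩
      · exact ⟨r', q, h1, h2, by rw [h3, xI_inr_ne h]⟩⟩
  left_inv e := Subtype.ext (xI_inv r i i' e.1)
  right_inv e := Subtype.ext (xI_inv r i i' e.1)

theorem si_auto [Finite A] (hC : Comm K) (hM : K.mem M) {r : ℕ × ℕ} {i i' : ℕ} (hi : i < NN r.1)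
    (hi' : i' < NN r.1) (s' : Y) (w : Fin (ar s') → dt.X NN S) :
    dt.N NN S s' w ↔ dt.N NN S s' (dt.si (S := S) hi hi' ∘ w) := by
  classical
  show dt.M2 s' (Subtype.val ∘ w) ↔ dt.M2 s' (Subtype.val ∘ (dt.si (S := S) hi hi' ∘ w))
  have hval : Subtype.val ∘ (dt.si (S := S) hi hi' ∘ w) = xI r i i' ∘ (Subtype.val ∘ w) := rfl
  set w' := Subtype.val ∘ w with hw'
  rw [hval]
  have hlive : LiveT (dt.BB NN) w' := dt.liveT_val w
  have hlive' : LiveT (dt.BB NN) (xI r i i' ∘ w') := by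
    rw [← hval]; exact dt.liveT_val _
  obtain ⟨l, hnd, hlm⟩ : ∃ l : List (ℕ × ℕ), l.Nodup ∧ ∀ r', r' ∈ l ↔ r' ∈ rowsOf w' ∧ r' ≠ r := by
    have hf : {r' | r' ∈ rowsOf w' ∧ r' ≠ r}.Finite :=
      (finite_rowsOf w').subset fun x hx => hx.1
    exact ⟨hf.toFinset.toList, Finset.nodup_toList _, fun r => by simp⟩
  have hrl : r ∉ l := fun h => ((hlm r).mp h).2 rfl
  have hnd' : (r :: l).Nodup := List.nodup_cons.mpr ⟨hrl, hnd⟩
  have hr1 : rowsOf w' ⊆ {x | x ∈ r :: l} := by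
    intro x hx
    by_cases h : x = r
    · simp [h]
    · have := (hlm x).mpr ⟨hx, h⟩
      simp [this]
  have hr2 : rowsOf (xI r i i' ∘ w') ⊆ {x | x ∈ r :: l} := by
    rintro x ⟨c, q, hc⟩
    rcases hwc : w' c with d | ⟨r1, q1⟩
    · rw [Function.comp, hwc] at hc
      simp [xI] at hc
    · have hx : x = r1 := by
        rw [Function.comp, hwc] at hc
        by_cases h : r1 = r
        · subst h
          rw [xI_inr_same] at hc
          simp only [Sum.inr.injEq, Prod.mk.injEq] at hc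
          exact hc.1.symm
        · rw [xI_inr_ne h] at hc
          simp only [Sum.inr.injEq, Prod.mk.injEq] at hc
          exact hc.1.symm
      rw [hx]
      exact hr1 ⟨c, q1, hwc⟩
  unfold M2
  rw [GC_eval (B := dt.BB NN) hC (dt.M1_mem hM) (fun r => dt.T_disj NN r) hlive hnd' hr1
    (fun _ _ => Sum.inl dt.d0), GC_eval (B := dt.BB NN) hC (dt.M1_mem hM)
    (fun r => dt.T_disj NN r) hlive' hnd' hr2 (fun _ _ => Sum.inl dt.d0), NU_cons, NU_cons]
  show (∀ᶠ k in (Filter.hyperfilter ℕ : Filter ℕ), _) ↔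
    ∀ᶠ k in (Filter.hyperfilter ℕ : Filter ℕ), _
  refine ev_congr fun k => ?_
  show (∀ᶠ g' in nf (fun _ => dt.T) l (upd (fun _ _ => Sum.inl dt.d0) r (dt.tup k)), _) ↔
    ∀ᶠ g' in nf (fun _ => dt.T) l (upd (fun _ _ => Sum.inl dt.d0) r (dt.tup k)), _
  -- the automorphism of the first extension
  let σ : ℕ × ℕ → ℕ × ℕ := Equiv.swap (k, i) (k, i')
  have hσauto : ∀ v : Fin (ar s') → D ⊕ (ℕ × ℕ) × A, dt.M1 s' (rmap σ ∘ v) ↔ dt.M1 s' v := by
    intro v
    have hfst : ∀ r : ℕ × ℕ, (σ r).1 = r.1 := by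
      intro r
      by_cases h1 : r = (k, i)
      · rw [h1]; show (Equiv.swap (k, i) (k, i') (k, i)).1 = _; rw [Equiv.swap_apply_left]
      · by_cases h2 : r = (k, i')
        · rw [h2]; show (Equiv.swap (k, i) (k, i') (k, i')).1 = _; rw [Equiv.swap_apply_right]
        · show (Equiv.swap (k, i) (k, i') r).1 = _
          rw [Equiv.swap_apply_of_ne_of_ne h1 h2]
    exact GC_rmap (K := K) (U := fun r : ℕ × ℕ => dt.U r.1) (B := fun _ => univ) hC hM
      (fun r => dt.hU r.1) (fun _ _ _ _ => trivial) (σ := σ) (Equiv.injective _).injOn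
      (fun r _ => by rw [hfst]) (fun _ _ => rfl)
  have hev : ∀ᶠ g' in nf (fun _ => dt.T) l (upd (fun _ _ => Sum.inl dt.d0) r (dt.tup k)),
      ∀ c, ev g' (xI r i i' (w' c)) = rmap σ (ev g' (w' c)) := by
    refine Filter.eventually_all.mpr fun c => ?_
    rcases (w c).2 with ⟨c', hc'⟩ | ⟨r1, q1, -, hq1, hc'⟩
    · have : w' c = Sum.inl (Sum.inl (dt.dc c')) := hc'
      rw [this]
      exact Filter.Eventually.of_forall fun g' => rfl
    · have hwc : w' c = Sum.inr (r1, q1) := hc'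
      rw [hwc]
      by_cases h : r1 = r
      · subst h
        rw [xI_inr_same]
        refine (NU_off (U := fun _ => dt.T) hrl _).mono fun g' hg' => ?_
        rw [upd_same] at hg'
        show g' r1 (xi (s := s) i i' q1) = rmap σ (g' r1 q1)
        rw [hg']
        rcases q1 with c1 | ⟨i1, a1⟩
        · rfl
        · show Sum.inr ((k, Equiv.swap i i' i1), a1) =
            (Sum.inr (Equiv.swap (k, i) (k, i') (k, i1), a1) : D ⊕ (ℕ × ℕ) × A)
          congr 2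
          by_cases h1 : i1 = i
          · rw [h1, Equiv.swap_apply_left, Equiv.swap_apply_left]
          · by_cases h2 : i1 = i'
            · rw [h2, Equiv.swap_apply_right, Equiv.swap_apply_right]
            · rw [Equiv.swap_apply_of_ne_of_ne h1 h2, Equiv.swap_apply_of_ne_of_ne
                (by simp [h1]) (by simp [h2])]
      · rw [xI_inr_ne h]
        have hr1l : r1 ∈ l := (hlm r1).mpr ⟨⟨c, q1, hwc⟩, h⟩
        have h4 : ∀ᶠ g' in nf (fun _ => dt.T) l (upd (fun _ _ => Sum.inl dt.d0) r (dt.tup k)),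
            ∀ a : A, g' r1 q1 ≠ Sum.inr ((k, i), a) ∧ g' r1 q1 ≠ Sum.inr ((k, i'), a) :=
          Filter.eventually_all.mpr fun a =>
            (NU_avoid (B := dt.BB NN) (fun r _ => dt.T_disj NN r) hr1l hq1 _ _).and
              (NU_avoid (B := dt.BB NN) (fun r _ => dt.T_disj NN r) hr1l hq1 _ _)
        refine h4.mono fun g' hg' => ?_
        show g' r1 q1 = rmap σ (g' r1 q1)
        rcases hgq : g' r1 q1 with d | ⟨r2, a2⟩
        · rfl
        · rw [hgq] at hg'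
          have h5 : r2 ≠ (k, i) := fun h => (hg' a2).1 (by rw [h])
          have h6 : r2 ≠ (k, i') := fun h => (hg' a2).2 (by rw [h])
          show _ = Sum.inr (Equiv.swap (k, i) (k, i') r2, a2)
          rw [Equiv.swap_apply_of_ne_of_ne h5 h6]
  refine Filter.eventually_congr (hev.mono fun g' hg' => ?_)
  have : ev g' ∘ (xI r i i' ∘ w') = rmap σ ∘ (ev g' ∘ w') := funext hg'
  rw [this]
  exact (hσauto _).symm

end ArrData

end Pool.Agent.Helper6.VU
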