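import Pool.Agent.Helper6.V6Arr

/-!
# Finitely many average types
-/

set_option autoImplicit false

namespace Pool.Agent.Helper6.VU

open Set Filter

variable {Y : Type} {ar : Y → ℕ} {D A : Type}

namespace ArrData

variable {K : HC ar} {M : St ar D} {s : Y} (dt : ArrData K D A M s) {NN : ℕ → ℕ} {S : Set ℕ}

theorem si_val_same {r : ℕ × ℕ} {i i' : ℕ} (hi : i < NN r.1) (hi' : i' < NN r.1)
    {e : dt.X NN S} {q : Fin (ar s) ⊕ (ℕ × A)} (h : e.1 = Sum.inr (r, q)) :
    (dt.si (S := S) hi hi' e).1 = Sum.inr (r, xi (s := s) i i' q) := by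
  show xI r i i' e.1 = _
  rw [h, xI_inr_same]

theorem exists_blk [Finite A] (hC : Comm K) (hM : K.mem M) (G : Set Y) {r : ℕ × ℕ}
    {y : dt.X NN S} (hy : y ∈ dt.row NN S r) :
    ∃ P : Finset (dt.X NN S), IsBlk G (dt.N NN S) y P ∧ (P : Set (dt.X NN S)) ⊆ dt.row NN S r := by
  have hf := dt.row_finite (NN := NN) (S := S) r
  have h1 : Swp G (dt.N NN S) (hf.toFinset : Set (dt.X NN S)) := by
    rw [Set.Finite.coe_toFinset]
    exact dt.row_swp hC hM r.1 r.2 G
  obtain ⟨P, hP, hPs⟩ := exists_isBlk (y := y) (by rw [Set.Finite.mem_toFinset]; exact hy) h1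
  refine ⟨P, hP, fun x hx => ?_⟩
  have := hPs hx
  rwa [Set.Finite.mem_toFinset] at this

/-- A block fixed by exchanging indices. -/
theorem blk_si [Finite A] (hC : Comm K) (hM : K.mem M) {G : Set Y} {r : ℕ × ℕ} {i i' : ℕ}
    (hi : i < NN r.1) (hi' : i' < NN r.1) {y : dt.X NN S} {P : Finset (dt.X NN S)}
    (hP : IsBlk G (dt.N NN S) y P) (hy : dt.si (S := S) hi hi' y = y) {z : dt.X NN S}
    (hz : z ∈ P) : dt.si (S := S) hi hi' z ∈ P := by
  have h := hP.iso (dt.si (S := S) hi hi') (fun s' _ w => dt.si_auto hC hM hi hi' s' w)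
  rw [hy] at h
  have := hP.unique h
  rw [this]
  exact Finset.mem_map_of_mem _ hz

theorem blk_big_of_mixed [Finite A] (hC : Comm K) (hM : K.mem M) {G : Set Y} {r : ℕ × ℕ}
    {y : dt.X NN S} {P : Finset (dt.X NN S)} (hP : IsBlk G (dt.N NN S) y P) {i0 : ℕ}
    (hi0 : i0 < NN r.1)
    (hy : y ∈ dt.bpart NN S r) (hz : ∃ z ∈ P, z ∈ dt.ipart NN S r i0) :
    ∀ i, i < NN r.1 → ∃ z ∈ P, z ∈ dt.ipart NN S r i := by
  intro i hi
  obtain ⟨z, hzP, a, hza⟩ := hz
  obtain ⟨c, hc⟩ := hy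
  have h1 : dt.si (S := S) hi0 hi y = y := by
    apply Subtype.ext
    rw [dt.si_val_same hi0 hi hc, hc]
    rfl
  refine ⟨_, dt.blk_si hC hM hi0 hi hP h1 hzP, a, ?_⟩
  rw [dt.si_val_same hi0 hi hza]
  show Sum.inr (r, Sum.inr (Equiv.swap i0 i i0, a)) = _
  rw [Equiv.swap_apply_left]

theorem blk_big_of_two [Finite A] (hC : Comm K) (hM : K.mem M) {G : Set Y} {r : ℕ × ℕ}
    {y : dt.X NN S} {P : Finset (dt.X NN S)} (hP : IsBlk G (dt.N NN S) y P) {i0 i1 : ℕ}
    (hi1 : i1 < NN r.1) (hne : i0 ≠ i1)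
    (hy : y ∈ dt.ipart NN S r i0) (hz : ∃ z ∈ P, z ∈ dt.ipart NN S r i1) :
    ∀ i, i < NN r.1 → ∃ z ∈ P, z ∈ dt.ipart NN S r i := by
  intro i hi
  by_cases hii : i = i0
  · rw [hii]
    exact ⟨y, hP.1, hy⟩
  obtain ⟨z, hzP, a, hza⟩ := hz
  obtain ⟨a0, ha0⟩ := hy
  have h1 : dt.si (S := S) hi1 hi y = y := by
    apply Subtype.ext
    rw [dt.si_val_same hi1 hi ha0, ha0]
    show Sum.inr (r, Sum.inr (Equiv.swap i1 i i0, a0)) = _
    rw [Equiv.swap_apply_of_ne_of_ne hne (fun h => hii h.symm)]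
  refine ⟨_, dt.blk_si hC hM hi1 hi hP h1 hzP, a, ?_⟩
  rw [dt.si_val_same hi1 hi hza]
  show Sum.inr (r, Sum.inr (Equiv.swap i1 i i1, a)) = _
  rw [Equiv.swap_apply_left]

theorem card_of_meets {r : ℕ × ℕ} {P : Finset (dt.X NN S)}
    (h : ∀ i, i < NN r.1 → ∃ z ∈ P, z ∈ dt.ipart NN S r i) : NN r.1 ≤ P.card := by
  classical
  choose f hf1 a hf2 using h
  have : (Finset.univ : Finset (Fin (NN r.1))).card ≤ P.card := by
    refine Finset.card_le_card_of_injOn (fun i : Fin (NN r.1) => f i.1 i.2) (fun i _ => hf1 _ _) ?_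
    intro i _ j _ hij
    have h1 := hf2 i.1 i.2
    have h2 := hf2 j.1 j.2
    have h3 : f i.1 i.2 = f j.1 j.2 := hij
    rw [h3, h2] at h1
    simp only [Sum.inr.injEq, Prod.mk.injEq, true_and] at h1
    exact Fin.ext h1.1.symm
  rwa [Finset.card_univ, Fintype.card_fin] at this

theorem card_bpart {r : ℕ × ℕ} {P : Finset (dt.X NN S)}
    (h : (P : Set (dt.X NN S)) ⊆ dt.bpart NN S r) : P.card ≤ ar s := by
  classical
  have h' : ∀ x : P, ∃ c, x.1.1 = Sum.inr (r, Sum.inl c) := fun x => h x.2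
  choose f hf using h'
  have : Fintype.card P ≤ Fintype.card (Fin (ar s)) := by
    refine Fintype.card_le_of_injective f fun x y hxy => ?_
    apply Subtype.ext
    apply Subtype.ext
    rw [hf x, hf y, hxy]
  rwa [Fintype.card_coe, Fintype.card_fin] at this

theorem card_ipart [Fintype A] {r : ℕ × ℕ} {i : ℕ} {P : Finset (dt.X NN S)}
    (h : (P : Set (dt.X NN S)) ⊆ dt.ipart NN S r i) : P.card ≤ Fintype.card A := by
  classical
  have h' : ∀ x : P, ∃ a, x.1.1 = Sum.inr (r, Sum.inr (i, a)) := fun x => h x.2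
  choose f hf using h'
  have : Fintype.card P ≤ Fintype.card A := by
    refine Fintype.card_le_of_injective f fun x y hxy => ?_
    apply Subtype.ext
    apply Subtype.ext
    rw [hf x, hf y, hxy]
  rwa [Fintype.card_coe] at this

theorem card_row [Fintype A] {r : ℕ × ℕ} {P : Finset (dt.X NN S)}
    (h : (P : Set (dt.X NN S)) ⊆ dt.row NN S r) :
    P.card ≤ ar s + NN r.1 * Fintype.card A := by
  classical
  have h' : ∀ x : P, ∃ f : Fin (ar s) ⊕ (Fin (NN r.1) × A),
      x.1.1 = Sum.inr (r, Sum.map id (Prod.map Fin.val id) f) := by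
    intro x
    obtain ⟨q, hq⟩ := h x.2
    rcases (dt.X_inr hq).2 with ⟨c, -, rfl⟩ | ⟨i, a, hi, rfl⟩
    · exact ⟨Sum.inl c, hq⟩
    · exact ⟨Sum.inr (⟨i, hi⟩, a), hq⟩
  choose f hf using h'
  have : Fintype.card P ≤ Fintype.card (Fin (ar s) ⊕ (Fin (NN r.1) × A)) := by
    refine Fintype.card_le_of_injective f fun x y hxy => ?_
    apply Subtype.ext
    apply Subtype.ext
    rw [hf x, hf y, hxy]
  rwa [Fintype.card_coe, Fintype.card_sum, Fintype.card_prod, Fintype.card_fin,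
    Fintype.card_fin] at this

theorem row_cases {r : ℕ × ℕ} {y : dt.X NN S} (hy : y ∈ dt.row NN S r) :
    y ∈ dt.bpart NN S r ∨ ∃ i, i < NN r.1 ∧ y ∈ dt.ipart NN S r i := by
  obtain ⟨q, hq⟩ := hy
  rcases (dt.X_inr hq).2 with ⟨c, -, rfl⟩ | ⟨i, a, hi, rfl⟩
  · exact Or.inl ⟨c, hq⟩
  · exact Or.inr ⟨i, hi, a, hq⟩

/-- The blocks of the elements of the parameter part. -/
theorem blk_bpart [Finite A] (hC : Comm K) (hM : K.mem M) {G : Set Y} {r : ℕ × ℕ}
    {y : dt.X NN S} (hy : y ∈ dt.bpart NN S r) {P : Finset (dt.X NN S)}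
    (hP : IsBlk G (dt.N NN S) y P) (hPr : (P : Set (dt.X NN S)) ⊆ dt.row NN S r) :
    (P : Set (dt.X NN S)) ⊆ dt.bpart NN S r ∨ NN r.1 ≤ P.card := by
  by_cases h : (P : Set (dt.X NN S)) ⊆ dt.bpart NN S r
  · exact Or.inl h
  · right
    obtain ⟨z, hz, hzb⟩ := Set.not_subset.mp h
    rcases dt.row_cases (hPr hz) with h1 | ⟨i, hi, hzi⟩
    · exact absurd h1 hzb
    · exact dt.card_of_meets (dt.blk_big_of_mixed hC hM hP hi hy
        ⟨z, hz, hzi⟩)

theorem blk_card [Fintype A] (hC : Comm K) (hM : K.mem M) {G : Set Y} {r : ℕ × ℕ}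
    {y : dt.X NN S} {P : Finset (dt.X NN S)}
    (hP : IsBlk G (dt.N NN S) y P) (hPr : (P : Set (dt.X NN S)) ⊆ dt.row NN S r) :
    P.card ≤ ar s + Fintype.card A ∨ NN r.1 ≤ P.card := by
  by_cases h : ∃ z ∈ P, z ∈ dt.bpart NN S r
  · obtain ⟨z, hz, hzb⟩ := h
    rcases dt.blk_bpart hC hM hzb (hP.of_mem hz) hPr with h1 | h1
    · left
      have := dt.card_bpart h1
      omega
    · exact Or.inr h1
  · push Not at h
    rcases dt.row_cases (hPr hP.1) with h1 | ⟨i, hi, hyi⟩
    · exact absurd h1 (h y hP.1)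
    · by_cases h2 : (P : Set (dt.X NN S)) ⊆ dt.ipart NN S r i
      · left
        have := dt.card_ipart h2
        omega
      · right
        obtain ⟨z, hz, hzb⟩ := Set.not_subset.mp h2
        rcases dt.row_cases (hPr hz) with h3 | ⟨i', hi', hzi⟩
        · exact absurd h3 (h z hz)
        · have hne : i ≠ i' := fun h4 => hzb (h4 ▸ hzi)
          exact dt.card_of_meets (dt.blk_big_of_two hC hM hP hi' hne hyi ⟨z, hz, hzi⟩)

/-- The tuples used in the contradiction, in the structure. -/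
theorem wv_mem_X {r r' : ℕ × ℕ} {i : ℕ} (hr : r.1 ∈ S) (hr' : r'.1 ∈ S) (hi : i < NN r.1)
    (c : Fin (ar s)) : dt.wv r r' i c ∈ dt.X NN S := by
  unfold wv
  rcases h : dt.pt c with _ | a
  · by_cases h1 : dt.Cst c
    · simp only [h1, if_true]
      exact Or.inl ⟨c, rfl⟩
    · simp only [h1, if_false]
      exact Or.inr ⟨r', _, hr', Or.inl ⟨_, ⟨c, h, h1, rfl⟩, rfl⟩, rfl⟩
  · exact Or.inr ⟨r, _, hr, Or.inr ⟨i, a, hi, rfl⟩, rfl⟩

theorem swp_of_union {E : Type} {G : Set Y} {N : St ar E} {B : Finset E}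
    (hB : Swp G N (B : Set E)) {u : Set E} (huB : u ⊆ B)
    (hu : ∀ y ∈ u, ∃ P : Finset E, y ∈ P ∧ Swp G N (P : Set E) ∧ (P : Set E) ⊆ u) :
    Swp G N u := by
  classical
  have huf : u.Finite := B.finite_toSet.subset huB
  -- a maximal exchangeable subset
  have key : ∀ T : Finset E, (T : Set E) ⊆ u → ∃ Q : Finset E, T ⊆ Q ∧ Swp G N (Q : Set E) ∧
      (Q : Set E) ⊆ u := by
    intro T
    refine Finset.induction_on T ?_ ?_
    · intro _
      exact ⟨∅, le_refl _, by rw [Finset.coe_empty]; exact swp_empty G N, by simp⟩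
    · intro a T _ ih hT
      obtain ⟨Q, h1, h2, h3⟩ := ih fun x hx => hT (by
        rw [Finset.coe_insert]; exact Or.inr hx)
      obtain ⟨P, h4, h5, h6⟩ := hu a (hT (by rw [Finset.coe_insert]; exact Or.inl rfl))
      refine ⟨P ∪ Q, ?_, ?_, ?_⟩
      · intro x hx
        rcases Finset.mem_insert.mp hx with rfl | hx
        · exact Finset.mem_union_left _ h4
        · exact Finset.mem_union_right _ (h1 hx)
      · rw [Finset.coe_union]
        exact swp_union B.finite_toSet (h6.trans huB) (h3.trans huB) h5 h2 hB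
      · rw [Finset.coe_union]
        exact Set.union_subset h6 h3
  obtain ⟨Q, h1, h2, h3⟩ := key huf.toFinset (by rw [Set.Finite.coe_toFinset])
  have : (Q : Set E) = u := by
    refine Set.Subset.antisymm h3 fun x hx => h1 ?_
    rw [Set.Finite.mem_toFinset]
    exact hx
  rwa [this] at h2

theorem exists_big [Fintype A] (hC : Comm K) (hM : K.mem M) {G : Set Y} (hG : s ∈ G) {t j : ℕ}
    (ht : t ∈ S) (hNN : 0 < NN t) :
    ∃ y ∈ dt.row NN S (t, j), ∃ P : Finset (dt.X NN S), IsBlk G (dt.N NN S) y P ∧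
      (P : Set (dt.X NN S)) ⊆ dt.row NN S (t, j) ∧ NN t ≤ P.card := by
  classical
  by_contra hcon
  push Not at hcon
  have hf := dt.row_finite (NN := NN) (S := S) (t, j)
  have hB : Swp G (dt.N NN S) (hf.toFinset : Set (dt.X NN S)) := by
    rw [Set.Finite.coe_toFinset]
    exact dt.row_swp hC hM t j G
  have hbr : dt.bpart NN S (t, j) ⊆ dt.row NN S (t, j) := by
    rintro e ⟨c, hc⟩
    exact ⟨_, hc⟩
  have hu : Swp G (dt.N NN S) (dt.bpart NN S (t, j)) := by
    refine swp_of_union hB (by rw [Set.Finite.coe_toFinset]; exact hbr) fun y hy => ?_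
    obtain ⟨P, hP, hPr⟩ := dt.exists_blk hC hM G (hbr hy)
    have h1 := hcon y (hbr hy) P hP hPr
    rcases dt.blk_bpart hC hM hy hP hPr with h2 | h2
    · exact ⟨P, hP.1, hP.2.1, h2⟩
    · exact absurd h2 (not_le.mpr h1)
  have hjj : j ≠ j + 1 := by omega
  have hauto := auto_restr (G := G) (N := dt.N NN S) hf hbr hu (dt.row_swp hC hM t j G)
    (dt.sw_auto hC hM t j (j + 1) G) (dt.sw_disp hjj)
  let w : Fin (ar s) → dt.X NN S := fun c => ⟨dt.wv (t, j) (t, j) 0 c, dt.wv_mem_X ht ht hNN c⟩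
  have h1 := hauto s hG w
  have h2 : dt.N NN S s w ↔ dt.β := dt.M2_same (NN := NN) (r := (t, j)) hC hM hNN
  have h3 : dt.N NN S s (restr (dt.sw NN S t j (j + 1)) (dt.bpart NN S (t, j)) ∘ w) ↔ ¬ dt.β := by
    have h4 : Subtype.val ∘ (restr (dt.sw NN S t j (j + 1)) (dt.bpart NN S (t, j)) ∘ w) =
        dt.wv (t, j) (t, j + 1) 0 := by
      funext c
      show (restr (dt.sw NN S t j (j + 1)) (dt.bpart NN S (t, j)) (w c)).1 = _
      rcases hp : dt.pt c with _ | a
      · by_cases hc : dt.Cst c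
        · have hw : (w c).1 = Sum.inl (Sum.inl (dt.dc c)) := by
            show dt.wv (t, j) (t, j) 0 c = _
            unfold wv
            simp only [hp, hc, if_true]
          have hsw : (dt.sw NN S t j (j + 1) (w c)).1 = Sum.inl (Sum.inl (dt.dc c)) := by
            show rmap _ (w c).1 = _
            rw [hw]; rfl
          rw [restr_of_not (by rintro ⟨c', hc'⟩; rw [hw] at hc'; simp at hc')
            (by rintro ⟨c', hc'⟩; rw [hsw] at hc'; simp at hc'), hw]
          unfold wv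
          simp only [hp, hc, if_true]
        · have hw : (w c).1 = Sum.inr ((t, j), Sum.inl (dt.rp c)) := by
            show dt.wv (t, j) (t, j) 0 c = _
            unfold wv
            simp only [hp, hc, if_false]
          rw [restr_of_mem (show w c ∈ dt.bpart NN S (t, j) from ⟨_, hw⟩), dt.sw_val_inr hw]
          unfold wv xr
          simp only [hp, hc, if_false]
          rw [Equiv.swap_apply_left]
      · have hw : (w c).1 = Sum.inr ((t, j), Sum.inr (0, a)) := by
          show dt.wv (t, j) (t, j) 0 c = _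
          unfold wv
          simp only [hp]
        rw [restr_of_not (by rintro ⟨c', hc'⟩; rw [hw] at hc'; simp at hc')
          (by rintro ⟨c', hc'⟩; rw [dt.sw_val_inr hw] at hc'; simp at hc'), hw]
        unfold wv
        simp only [hp]
    show dt.M2 s (Subtype.val ∘ _) ↔ _
    rw [h4]
    exact dt.M2_cross (NN := NN) (r := (t, j)) (r' := (t, j + 1)) hC hM (by simp) hNN
  rw [h2, h3] at h1
  tauto

end ArrData

theorem types_finite_aux [Countable Y] (K : HC ar) (hK : ¬ Wild {c : Sp ar | K.mem (toSt c)})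
    (hC : Comm K) {M : St ar D} (hM : K.mem M) (s : Y) [Fintype A] [Nonempty A] [Nonempty D] :
    {p | ∃ U : Ultrafilter (A → D), Disj U univ ∧ typ M s U = p}.Finite := by
  classical
  by_contra hX
  obtain ⟨dt⟩ := exists_arrData (K := K) (M := M) (s := s) (A := A) hX
  apply hK
  set n := ar s with hn
  set p := Fintype.card A with hp
  have hp1 : 0 < p := Fintype.card_pos
  let NN : ℕ → ℕ := fun t => (n + p + 1) ^ (t + 1)
  have hNN0 : ∀ t, 0 < NN t := fun t => by positivity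
  have hNNge : ∀ t, n + p + 1 ≤ NN t := fun t => by
    show n + p + 1 ≤ (n + p + 1) ^ (t + 1)
    calc n + p + 1 = (n + p + 1) ^ 1 := (pow_one _).symm
      _ ≤ (n + p + 1) ^ (t + 1) := Nat.pow_le_pow_right (by omega) (by omega)
  have hNNstep : ∀ t t', t < t' → n + NN t * p < NN t' := by
    intro t t' htt
    have h1 : NN t * (n + p + 1) ≤ NN t' := by
      show (n + p + 1) ^ (t + 1) * (n + p + 1) ≤ (n + p + 1) ^ (t' + 1)
      rw [← pow_succ]
      exact Nat.pow_le_pow_right (by omega) (by omega)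
    have h2 : NN t * (n + p + 1) = NN t * n + NN t * p + NN t := by ring
    have h3 : n ≤ NN t * n := Nat.le_mul_of_pos_left n (hNN0 t)
    have h4 := hNN0 t
    omega
  refine wild_of_phiB K {s} NN (fun t => n + NN t * p) fun S h0 => ?_
  refine ⟨dt.X NN S, ?_, ?_, dt.N NN S, dt.N_mem hM, fun t => ⟨fun hΦ => ?_, fun ht => ?_⟩⟩
  · have : (dt.X NN S).Countable := by
      have h1 : dt.X NN S ⊆ (range fun c => (Sum.inl (Sum.inl (dt.dc c)) :
          (D ⊕ (ℕ × ℕ) × A) ⊕ (ℕ × ℕ) × (Fin (ar s) ⊕ (ℕ × A)))) ∪ range Sum.inr := by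
        rintro e (⟨c, rfl⟩ | ⟨r, q, -, -, rfl⟩)
        · exact Or.inl ⟨c, rfl⟩
        · exact Or.inr ⟨_, rfl⟩
      exact ((Set.countable_range _).union (Set.countable_range _)).mono h1
    exact this.to_subtype
  · obtain ⟨a⟩ := ‹Nonempty A›
    refine Infinite.of_injective (fun j : ℕ => (⟨Sum.inr ((0, j), Sum.inr (0, a)),
      Or.inr ⟨(0, j), _, h0, Or.inr ⟨0, a, hNN0 0, rfl⟩, rfl⟩⟩ : dt.X NN S)) ?_
    intro j j' h
    have h1 := congrArg Subtype.val h
    simpa using h1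
  · -- decoding
    have hcst : {e : dt.X NN S | ∃ c, e.1 = Sum.inl (Sum.inl (dt.dc c))}.Finite := by
      have h1 : (range fun c => (Sum.inl (Sum.inl (dt.dc c)) :
          (D ⊕ (ℕ × ℕ) × A) ⊕ (ℕ × ℕ) × (Fin (ar s) ⊕ (ℕ × A)))).Finite := Set.finite_range _
      refine (h1.preimage (f := (Subtype.val : dt.X NN S → _))
        Subtype.val_injective.injOn).subset ?_
      rintro e ⟨c, hc⟩
      exact ⟨c, hc.symm⟩
    obtain ⟨y, hy, P, hP, hlo, hhi⟩ := hΦ hcst.toFinset
    have hy' : ¬ ∃ c, y.1 = Sum.inl (Sum.inl (dt.dc c)) := by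
      intro h
      exact hy (by rw [Set.Finite.mem_toFinset]; exact h)
    obtain ⟨⟨t', j'⟩, q, ht', -, hyr⟩ : ∃ r q, r.1 ∈ S ∧ q ∈ dt.BB NN r ∧ y.1 = Sum.inr (r, q) := by
      rcases y.2 with h | h
      · exact absurd h hy'
      · exact h
    have hyrow : y ∈ dt.row NN S (t', j') := ⟨q, hyr⟩
    obtain ⟨P', hP', hPr'⟩ := dt.exists_blk hC hM {s} hyrow
    have hPP : P = P' := hP.unique hP'
    rw [← hPP] at hPr'
    have h1 := dt.blk_card hC hM hP hPr'
    have h2 := dt.card_row hPr'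
    have h3 : n + p + 1 ≤ NN t := hNNge t
    have h4 : NN t' ≤ P.card := by
      rcases h1 with h1 | h1
      · omega
      · exact h1
    have h5 : t = t' := by
      by_contra hne
      rcases Nat.lt_or_gt_of_ne hne with h | h
      · have := hNNstep t t' h
        have h7 : P.card ≤ n + NN t * p := hhi
        omega
      · have := hNNstep t' t h
        have h6 : P.card ≤ n + NN t' * p := h2
        have h7 : NN t ≤ P.card := hlo
        omega
    rw [h5]
    exact ht'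
  · intro F
    -- a row missing `F`
    have h1 : {j' | ∃ e ∈ F, ∃ q, e.1 = Sum.inr ((t, j'), q)}.Finite := by
      have h2 : (⋃ e ∈ F, {j' | ∃ q, e.1 = Sum.inr ((t, j'), q)}).Finite := by
        refine Set.Finite.biUnion F.finite_toSet fun e _ => Set.Subsingleton.finite ?_
        rintro j1 ⟨q1, h1⟩ j2 ⟨q2, h2⟩
        rw [h1] at h2
        simp only [Sum.inr.injEq, Prod.mk.injEq, true_and] at h2
        exact h2.1
      refine h2.subset ?_
      rintro j' ⟨e, he, hq⟩
      exact Set.mem_iUnion₂.mpr ⟨e, he, hq⟩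
    obtain ⟨j, hj⟩ := h1.exists_notMem
    obtain ⟨y, hy, P, hP, hPr, hc⟩ := dt.exists_big hC hM (G := {s}) rfl (j := j) ht (hNN0 t)
    refine ⟨y, fun hyF => hj ?_, P, hP, hc, dt.card_row hPr⟩
    obtain ⟨q, hq⟩ := hy
    exact ⟨y, hyF, q, hq⟩

/-- **Finitely many average types.** -/
theorem types_finite [Countable Y] (K : HC ar) (hK : ¬ Wild {c : Sp ar | K.mem (toSt c)})
    (hC : Comm K) {M : St ar D} (hM : K.mem M) (s : Y) [Finite A] :
    {p | ∃ U : Ultrafilter (A → D), Disj U univ ∧ typ M s U = p}.Finite := by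
  classical
  have := Fintype.ofFinite A
  rcases isEmpty_or_nonempty A with hA | hA
  · refine Set.Subsingleton.finite ?_
    rintro _ ⟨U, -, rfl⟩ _ ⟨V, -, rfl⟩
    have : U = V := by
      apply Ultrafilter.coe_injective
      have hu : ∀ W : Ultrafilter (A → D), (W : Filter (A → D)) = ⊤ := by
        intro W
        rw [eq_top_iff]
        intro T hT
        rw [Filter.mem_top]
        obtain ⟨x, hx⟩ := W.nonempty_of_mem hT
        rw [Set.eq_univ_iff_forall]
        intro y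
        rwa [Subsingleton.elim y x]
      rw [hu U, hu V]
    rw [this]
  · rcases isEmpty_or_nonempty D with hD | hD
    · refine Set.Finite.subset Set.finite_empty ?_
      rintro _ ⟨U, -, -⟩
      obtain ⟨x, -⟩ := U.nonempty_of_mem Filter.univ_mem
      obtain ⟨a⟩ := hA
      exact (hD.false (x a)).elim
    · exact types_finite_aux K hK hC hM s

end Pool.Agent.Helper6.VU
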