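import Pool.Agent.Helper6.V5Swap

/-!
# Infinitely many average types give perfectly many structures: preparations
-/

set_option autoImplicit false

namespace Pool.Agent.Helper6.VU

open Set Filter

variable {Y : Type} {ar : Y → ℕ} {D A : Type}

/-- The type of a row ultrafilter over `M`, for one symbol. -/
def typ (M : St ar D) (s : Y) (U : Ultrafilter (A → D)) : (Fin (ar s) → D ⊕ A) → Prop :=
  fun v => ∀ᶠ x in (U : Filter (A → D)), M s (ev1 x ∘ v)

theorem exists_sep {Λ : Type} {X : Set (Λ → Prop)} (hX : X.Infinite) :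
    ∃ (p : ℕ → (Λ → Prop)) (lam : ℕ → Λ), (∀ k, p k ∈ X) ∧
      ∀ k l, k < l → ¬ (p k (lam k) ↔ p l (lam k)) := by
  classical
  have step : ∀ Z : {Z : Set (Λ → Prop) // Z.Infinite ∧ Z ⊆ X},
      ∃ (Z' : {Z : Set (Λ → Prop) // Z.Infinite ∧ Z ⊆ X}) (p : Λ → Prop) (lam : Λ),
        Z'.1 ⊆ Z.1 ∧ p ∈ X ∧ p ∈ Z.1 ∧ ∀ q ∈ Z'.1, ¬ (p lam ↔ q lam) := by
    rintro ⟨Z, hZ, hZX⟩
    obtain ⟨f, hf, g, hg, hfg⟩ := hZ.nontrivial
    obtain ⟨lam, hlam⟩ : ∃ lam, ¬ (f lam ↔ g lam) := by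
      by_contra hcon
      push Not at hcon
      exact hfg (funext fun x => propext (hcon x))
    have hsplit : Z = {q ∈ Z | q lam ↔ f lam} ∪ {q ∈ Z | ¬ (q lam ↔ f lam)} := by
      ext q
      simp only [Set.mem_union, Set.mem_ofPred_eq]
      tauto
    rcases Set.infinite_union.mp (hsplit ▸ hZ) with h | h
    · refine ⟨⟨_, h, fun q hq => hZX hq.1⟩, g, lam, fun q hq => hq.1, hZX hg, hg, ?_⟩
      rintro q ⟨-, hq⟩ hcon
      exact hlam (hq.symm.trans hcon.symm)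
    · refine ⟨⟨_, h, fun q hq => hZX hq.1⟩, f, lam, fun q hq => hq.1, hZX hf, hf, ?_⟩
      rintro q ⟨-, hq⟩ hcon
      exact hq hcon.symm
  choose nx pp ll h1 h2 h3 h4 using step
  let Zs : ℕ → {Z : Set (Λ → Prop) // Z.Infinite ∧ Z ⊆ X} := fun n =>
    Nat.rec ⟨X, hX, le_refl _⟩ (fun _ Z => nx Z) n
  have hmono : ∀ k l, k ≤ l → (Zs l).1 ⊆ (Zs k).1 := by
    intro k l hkl
    induction hkl with
    | refl => exact le_refl _
    | step _ ih => exact (h1 _).trans ih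
  refine ⟨fun k => pp (Zs k), fun k => ll (Zs k), fun k => h2 _, fun k l hkl => ?_⟩
  exact h4 (Zs k) _ (hmono (k + 1) l hkl (h3 (Zs l)))

theorem ev_const_of_finite {α β : Type} [Finite β] (F : Ultrafilter α) (f : α → β) :
    ∃ b, ∀ᶠ x in (F : Filter α), f x = b := by
  by_contra hcon
  push Not at hcon
  have h1 : ∀ b, ∀ᶠ x in (F : Filter α), f x ≠ b := hcon
  have h2 : ∀ᶠ x in (F : Filter α), ∀ b, f x ≠ b := Filter.eventually_all.mpr h1
  obtain ⟨x, hx⟩ := h2.exists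
  exact hx _ rfl

theorem hyper_ne (k : ℕ) : ∀ᶠ l in (Filter.hyperfilter ℕ : Filter ℕ), l ≠ k := by
  have h : ∀ᶠ l in (Filter.cofinite : Filter ℕ), l ≠ k := by
    simp
  exact Filter.hyperfilter_le_cofinite h

theorem hyper_gt (k : ℕ) : ∀ᶠ l in (Filter.hyperfilter ℕ : Filter ℕ), k < l := by
  have h : ∀ᶠ l in (Filter.cofinite : Filter ℕ), k < l := by
    rw [Nat.cofinite_eq_atTop]
    exact Filter.eventually_gt_atTop k
  exact Filter.hyperfilter_le_cofinite h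

/-- The data obtained from infinitely many types. -/
structure ArrData (K : HC ar) (D A : Type) (M : St ar D) (s : Y) where
  U : ℕ → Ultrafilter (A → D)
  hU : ∀ k, Disj (U k) univ
  v : ℕ → (Fin (ar s) → D ⊕ A)
  d0 : D
  pt : Fin (ar s) → Option A
  β : Prop
  hpt : ∀ᶠ k in (Filter.hyperfilter ℕ : Filter ℕ), ∀ c,
    (∀ a, pt c = some a → v k c = Sum.inr a) ∧ (pt c = none → ∃ d, v k c = Sum.inl d)
  hβ : ∀ᶠ k in (Filter.hyperfilter ℕ : Filter ℕ), (typ M s (U k) (v k) ↔ β) ∧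
    ∀ l, k < l → (typ M s (U l) (v k) ↔ ¬ β)

theorem exists_arrData {K : HC ar} {M : St ar D} {s : Y} [Finite A] [Nonempty D]
    (hX : {p | ∃ U : Ultrafilter (A → D), Disj U univ ∧ typ M s U = p}.Infinite) :
    Nonempty (ArrData K D A M s) := by
  classical
  obtain ⟨p, lam, hp, hsep⟩ := exists_sep hX
  choose U hU hUp using hp
  have hpt1 : ∀ c : Fin (ar s), ∃ o : Option A, ∀ᶠ k in (Filter.hyperfilter ℕ : Filter ℕ),
      (Sum.elim (fun _ => none) some (lam k c) : Option A) = o := fun c =>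
    ev_const_of_finite _ fun k => (Sum.elim (fun _ => none) some (lam k c) : Option A)
  choose pt hpt using hpt1
  obtain ⟨β, hβ⟩ : ∃ β : Prop, ∀ᶠ k in (Filter.hyperfilter ℕ : Filter ℕ),
      (typ M s (U k) (lam k) ↔ β) := by
    rcases (Filter.hyperfilter ℕ).em fun k => typ M s (U k) (lam k) with h | h
    · exact ⟨True, h.mono fun k hk => ⟨fun _ => trivial, fun _ => hk⟩⟩
    · exact ⟨False, h.mono fun k hk => ⟨hk, fun h => absurd h id⟩⟩
  refine ⟨⟨U, hU, lam, Classical.arbitrary D, pt, β, ?_, ?_⟩⟩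
  · refine (Filter.eventually_all.mpr hpt).mono fun k hk c => ⟨fun a ha => ?_, fun hn => ?_⟩
    · have := hk c
      rw [ha] at this
      rcases h : lam k c with d | a'
      · rw [h] at this; simp at this
      · rw [h] at this
        simp only [Sum.elim_inr, Option.some.injEq] at this
        rw [this]
    · have := hk c
      rw [hn] at this
      rcases h : lam k c with d | a'
      · exact ⟨d, rfl⟩
      · rw [h] at this; simp at this
  · refine hβ.mono fun k hk => ⟨hk, fun l hkl => ?_⟩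
    have h1 := hsep k l hkl
    rw [hUp l]
    rw [hUp k] at hk
    tauto

namespace ArrData

variable {K : HC ar} {M : St ar D} {s : Y} (dt : ArrData K D A M s)

/-- The parameters. -/
def m (k : ℕ) (c : Fin (ar s)) : D := Sum.elim id (fun _ => dt.d0) (dt.v k c)

/-- Eventually constant parameters. -/
def Cst (c : Fin (ar s)) : Prop := ∃ d, ∀ᶠ k in (Filter.hyperfilter ℕ : Filter ℕ), dt.m k c = d

/-- The eventual value. -/
noncomputable def dc (c : Fin (ar s)) : D :=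
  open Classical in if h : dt.Cst c then h.choose else dt.d0

theorem dc_spec {c : Fin (ar s)} (h : dt.Cst c) :
    ∀ᶠ k in (Filter.hyperfilter ℕ : Filter ℕ), dt.m k c = dt.dc c := by
  unfold dc
  rw [dif_pos h]
  exact h.choose_spec

theorem esc_spec {c : Fin (ar s)} (h : ¬ dt.Cst c) (d : D) :
    ∀ᶠ k in (Filter.hyperfilter ℕ : Filter ℕ), dt.m k c ≠ d :=
  Ultrafilter.eventually_not.mpr fun h' => h ⟨d, h'⟩

/-- Eventual equality of parameters. -/
def sd : Setoid (Fin (ar s)) where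
  r c c' := ∀ᶠ k in (Filter.hyperfilter ℕ : Filter ℕ), dt.m k c = dt.m k c'
  iseqv := ⟨fun _ => Filter.Eventually.of_forall fun _ => rfl,
    fun h => h.mono fun _ h => h.symm,
    fun h h' => by filter_upwards [h, h'] with k h h' using h.trans h'⟩

/-- Representatives. -/
noncomputable def rp (c : Fin (ar s)) : Fin (ar s) :=
  (Quotient.mk dt.sd c).out

theorem rp_spec (c : Fin (ar s)) :
    ∀ᶠ k in (Filter.hyperfilter ℕ : Filter ℕ), dt.m k (dt.rp c) = dt.m k c :=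
  Quotient.mk_out (s := dt.sd) c

theorem rp_eq {c c' : Fin (ar s)}
    (h : ∀ᶠ k in (Filter.hyperfilter ℕ : Filter ℕ), dt.m k c = dt.m k c') : dt.rp c = dt.rp c' := by
  unfold rp
  have : Quotient.mk dt.sd c = Quotient.mk dt.sd c' := Quotient.sound h
  rw [this]

/-- The representatives of the escaping parameters. -/
def rps : Set (Fin (ar s)) := {c | ∃ c', dt.pt c' = none ∧ ¬ dt.Cst c' ∧ c = dt.rp c'}

theorem rps_esc {c : Fin (ar s)} (h : c ∈ dt.rps) (d : D) :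
    ∀ᶠ k in (Filter.hyperfilter ℕ : Filter ℕ), dt.m k c ≠ d := by
  obtain ⟨c', -, h1, rfl⟩ := h
  filter_upwards [dt.rp_spec c', dt.esc_spec h1 d] with k h2 h3
  rw [h2]
  exact h3

theorem rps_ne {c c' : Fin (ar s)} (h : c ∈ dt.rps) (h' : c' ∈ dt.rps) (hne : c ≠ c') :
    ∀ᶠ k in (Filter.hyperfilter ℕ : Filter ℕ), dt.m k c ≠ dt.m k c' := by
  obtain ⟨c1, -, -, rfl⟩ := h
  obtain ⟨c1', -, -, rfl⟩ := h'
  refine Ultrafilter.eventually_not.mpr fun hcon => hne (dt.rp_eq ?_)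
  filter_upwards [dt.rp_spec c1, dt.rp_spec c1', hcon] with k h1 h2 h3
  rw [← h1, ← h2, h3]

/-- The first extension. -/
noncomputable def M1 : St ar (D ⊕ (ℕ × ℕ) × A) :=
  GC (fun r : ℕ × ℕ => dt.U r.1) (fun _ _ => dt.d0) M

theorem M1_mem (hM : K.mem M) : K.mem dt.M1 := by
  have h := GC_mem (U := fun r : ℕ × ℕ => dt.U r.1) (B := fun _ => univ) K
    (g₀ := fun _ _ => dt.d0) (fun r => dt.hU r.1) hM (X := univ) (fun e _ r a _ => trivial)
  exact K.mem_pull (f := fun e : D ⊕ (ℕ × ℕ) × A => (⟨e, trivial⟩ : (univ : Set _)))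
    (fun e e' h => congrArg Subtype.val h) h

theorem M1_val (hC : Comm K) (hM : K.mem M) (k l i : ℕ) :
    dt.M1 s (fun c => Sum.elim Sum.inl (fun a => Sum.inr ((l, i), a)) (dt.v k c)) ↔
      typ M s (dt.U l) (dt.v k) := by
  unfold M1
  rw [GC_eval (B := fun _ => univ) (l := [(l, i)]) hC hM (fun r => dt.hU r.1)
    (fun _ _ _ _ => trivial) (by simp) (by
      rintro r ⟨c, a, hc⟩
      rcases h : dt.v k c with d | a'
      · simp [h] at hc
      · simp only [h, Sum.elim_inr, Sum.inr.injEq, Prod.mk.injEq] at hc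
        simp [← hc.1]) (fun _ _ => dt.d0), NU_cons]
  refine ev_congr fun x => ?_
  rw [NU_nil]
  have : (ev (upd (fun _ _ => dt.d0) (l, i) x) ∘ fun c =>
      (Sum.elim Sum.inl (fun a => Sum.inr ((l, i), a)) (dt.v k c) : D ⊕ (ℕ × ℕ) × A)) =
      ev1 x ∘ dt.v k := by
    funext c
    show ev _ (Sum.elim Sum.inl (fun a => Sum.inr ((l, i), a)) (dt.v k c)) = ev1 x (dt.v k c)
    rcases h : dt.v k c with d | a'
    · rfl
    · show upd (fun _ _ => dt.d0) (l, i) x (l, i) a' = x a'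
      rw [upd_same]
  rw [this]

/-- The coordinates of the second rows. -/
abbrev Cc (s : Y) (A : Type) : Type := Fin (ar s) ⊕ (ℕ × A)

/-- The patterns. -/
def tup (k : ℕ) : Fin (ar s) ⊕ (ℕ × A) → D ⊕ (ℕ × ℕ) × A :=
  Sum.elim (fun c => Sum.inl (dt.m k c)) fun q => Sum.inr ((k, q.1), q.2)

/-- The ultrafilter of the second rows. -/
noncomputable def T : Ultrafilter (Fin (ar s) ⊕ (ℕ × A) → D ⊕ (ℕ × ℕ) × A) :=
  (Filter.hyperfilter ℕ).map dt.tup

/-- Coordinates in use. -/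
def BB (NN : ℕ → ℕ) (r : ℕ × ℕ) : Set (Fin (ar s) ⊕ (ℕ × A)) :=
  {q | (∃ c ∈ dt.rps, q = Sum.inl c) ∨ ∃ i a, i < NN r.1 ∧ q = Sum.inr (i, a)}

theorem T_disj (NN : ℕ → ℕ) (r : ℕ × ℕ) : Disj dt.T (dt.BB NN r) := by
  constructor
  · rintro q (⟨c, hc, rfl⟩ | ⟨i, a, -, rfl⟩) d
    · show ∀ᶠ k in (Filter.hyperfilter ℕ : Filter ℕ), (Sum.inl (dt.m k c) :
        D ⊕ (ℕ × ℕ) × A) ≠ d
      rcases d with d | d
      · exact (dt.rps_esc hc d).mono fun k hk h => hk (by simpa using h)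
      · exact Filter.Eventually.of_forall fun k => by simp
    · show ∀ᶠ k in (Filter.hyperfilter ℕ : Filter ℕ), (Sum.inr ((k, i), a) :
        D ⊕ (ℕ × ℕ) × A) ≠ d
      rcases d with d | ⟨⟨k0, i0⟩, a0⟩
      · exact Filter.Eventually.of_forall fun k => by simp
      · refine (hyper_ne k0).mono fun k hk h => hk ?_
        simp only [Sum.inr.injEq, Prod.mk.injEq] at h
        exact h.1.1
  · rintro q (⟨c, hc, rfl⟩ | ⟨i, a, -, rfl⟩) q' (⟨c', hc', rfl⟩ | ⟨i', a', -, rfl⟩) hne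
    · refine (dt.rps_ne hc hc' fun h => hne (by rw [h])).mono fun k hk h => hk ?_
      exact Sum.inl_injective h
    · show ∀ᶠ k in (Filter.hyperfilter ℕ : Filter ℕ), dt.tup k _ ≠ dt.tup k _
      exact Filter.Eventually.of_forall fun k => by simp [tup]
    · show ∀ᶠ k in (Filter.hyperfilter ℕ : Filter ℕ), dt.tup k _ ≠ dt.tup k _
      exact Filter.Eventually.of_forall fun k => by simp [tup]
    · show ∀ᶠ k in (Filter.hyperfilter ℕ : Filter ℕ), dt.tup k _ ≠ dt.tup k _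
      refine Filter.Eventually.of_forall fun k h => hne ?_
      have h' : (Sum.inr ((k, i), a) : D ⊕ (ℕ × ℕ) × A) = Sum.inr ((k, i'), a') := h
      simp only [Sum.inr.injEq, Prod.mk.injEq, true_and] at h'
      rw [h'.1, h'.2]

/-- The second extension. -/
noncomputable def M2 : St ar ((D ⊕ (ℕ × ℕ) × A) ⊕ (ℕ × ℕ) × (Fin (ar s) ⊕ (ℕ × A))) :=
  GC (fun _ : ℕ × ℕ => dt.T) (fun _ _ => Sum.inl dt.d0) dt.M1

/-- The tuple with parameters from the row `r'` and the rest from the row `r`. -/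
noncomputable def wv (r r' : ℕ × ℕ) (i : ℕ) (c : Fin (ar s)) :
    (D ⊕ (ℕ × ℕ) × A) ⊕ (ℕ × ℕ) × (Fin (ar s) ⊕ (ℕ × A)) :=
  open Classical in
  match dt.pt c with
  | some a => Sum.inr (r, Sum.inr (i, a))
  | none => if dt.Cst c then Sum.inl (Sum.inl (dt.dc c)) else Sum.inr (r', Sum.inl (dt.rp c))

theorem wv_live {NN : ℕ → ℕ} {r r' : ℕ × ℕ} {i : ℕ} (hi : i < NN r.1) :
    LiveT (dt.BB NN) (dt.wv r r' i) := by
  intro c r'' q hc
  unfold wv at hc
  rcases h : dt.pt c with _ | a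
  · rw [h] at hc
    by_cases h1 : dt.Cst c
    · simp [h1] at hc
    · simp only [h1, if_false, Sum.inr.injEq, Prod.mk.injEq] at hc
      rw [← hc.2]
      exact Or.inl ⟨_, ⟨c, h, h1, rfl⟩, rfl⟩
  · rw [h] at hc
    simp only [Sum.inr.injEq, Prod.mk.injEq] at hc
    rw [← hc.1, ← hc.2]
    exact Or.inr ⟨i, a, hi, rfl⟩

theorem wv_rows {r r' : ℕ × ℕ} {i : ℕ} : rowsOf (dt.wv r r' i) ⊆ {r, r'} := by
  rintro r'' ⟨c, q, hc⟩
  unfold wv at hc
  rcases h : dt.pt c with _ | a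
  · rw [h] at hc
    by_cases h1 : dt.Cst c
    · simp [h1] at hc
    · simp only [h1, if_false, Sum.inr.injEq, Prod.mk.injEq] at hc
      right
      exact hc.1.symm
  · rw [h] at hc
    simp only [Sum.inr.injEq, Prod.mk.injEq] at hc
    left
    exact hc.1.symm

/-- Evaluation of `wv`. -/
theorem wv_ev {r r' : ℕ × ℕ} {i k l : ℕ} {g : (ℕ × ℕ) → (Fin (ar s) ⊕ (ℕ × A)) →
    D ⊕ (ℕ × ℕ) × A} (hg : g r = dt.tup l) (hg' : g r' = dt.tup k)
    (h1 : ∀ c, (∀ a, dt.pt c = some a → dt.v k c = Sum.inr a) ∧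
      (dt.pt c = none → ∃ d, dt.v k c = Sum.inl d))
    (h2 : ∀ c, dt.Cst c → dt.m k c = dt.dc c) (h3 : ∀ c, dt.m k (dt.rp c) = dt.m k c) :
    ev g ∘ dt.wv r r' i =
      fun c => Sum.elim Sum.inl (fun a => Sum.inr ((l, i), a)) (dt.v k c) := by
  funext c
  show ev g (dt.wv r r' i c) = _
  unfold wv
  rcases h : dt.pt c with _ | a
  · obtain ⟨d, hd⟩ := (h1 c).2 h
    have hm : dt.m k c = d := by simp [m, hd]
    by_cases h4 : dt.Cst c
    · simp only [h4, if_true, ev_inl, hd, Sum.elim_inl]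
      rw [← h2 c h4, hm]
    · simp only [h4, if_false, ev_inr, hd, Sum.elim_inl]
      rw [hg']
      show Sum.inl (dt.m k (dt.rp c)) = _
      rw [h3, hm]
  · rw [(h1 c).1 a h]
    simp only [ev_inr, Sum.elim_inr]
    rw [hg]
    rfl

theorem ev_good : ∀ᶠ k in (Filter.hyperfilter ℕ : Filter ℕ),
    (∀ c, (∀ a, dt.pt c = some a → dt.v k c = Sum.inr a) ∧
      (dt.pt c = none → ∃ d, dt.v k c = Sum.inl d)) ∧
    (∀ c, dt.Cst c → dt.m k c = dt.dc c) ∧ (∀ c, dt.m k (dt.rp c) = dt.m k c) := by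
  refine dt.hpt.and (Filter.Eventually.and ?_ ?_)
  · refine Filter.eventually_all.mpr fun c => ?_
    by_cases h : dt.Cst c
    · exact (dt.dc_spec h).mono fun k hk _ => hk
    · exact Filter.Eventually.of_forall fun k hk => absurd hk h
  · exact Filter.eventually_all.mpr fun c => dt.rp_spec c

theorem M2_same (hC : Comm K) (hM : K.mem M) {NN : ℕ → ℕ} {r : ℕ × ℕ} {i : ℕ}
    (hi : i < NN r.1) : dt.M2 s (dt.wv r r i) ↔ dt.β := by
  unfold M2
  rw [GC_eval (B := dt.BB NN) (l := [r]) hC (dt.M1_mem hM) (fun r => dt.T_disj NN r)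
    (dt.wv_live hi) (by simp) (by
      refine dt.wv_rows.trans ?_
      intro x hx
      simpa using hx) (fun _ _ => Sum.inl dt.d0), NU_cons]
  show (∀ᶠ k in (Filter.hyperfilter ℕ : Filter ℕ), _) ↔ _
  rw [← ev_const (Filter.hyperfilter ℕ) dt.β]
  refine Filter.eventually_congr ?_
  filter_upwards [dt.ev_good, dt.hβ] with k hk hk'
  show (∀ᶠ g' in nf (fun _ => dt.T) [] (upd (fun _ _ => Sum.inl dt.d0) r (dt.tup k)), _) ↔ _
  rw [NU_nil, dt.wv_ev (k := k) (l := k) (by rw [upd_same]) (by rw [upd_same]) hk.1 hk.2.1 hk.2.2,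
    dt.M1_val hC hM]
  exact hk'.1

theorem M2_cross (hC : Comm K) (hM : K.mem M) {NN : ℕ → ℕ} {r r' : ℕ × ℕ} (hr : r ≠ r') {i : ℕ}
    (hi : i < NN r.1) : dt.M2 s (dt.wv r r' i) ↔ ¬ dt.β := by
  unfold M2
  rw [GC_eval (B := dt.BB NN) (l := [r', r]) hC (dt.M1_mem hM) (fun r => dt.T_disj NN r)
    (dt.wv_live hi) (by simp [hr.symm]) (by
      refine dt.wv_rows.trans ?_
      intro x hx
      simp only [Set.mem_insert_iff, Set.mem_singleton_iff] at hx
      simp only [Set.mem_ofPred_eq, List.mem_cons, List.not_mem_nil, or_false]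
      tauto) (fun _ _ => Sum.inl dt.d0), NU_cons]
  show (∀ᶠ k in (Filter.hyperfilter ℕ : Filter ℕ), _) ↔ _
  rw [← ev_const (Filter.hyperfilter ℕ) (¬ dt.β)]
  refine Filter.eventually_congr ?_
  filter_upwards [dt.ev_good, dt.hβ] with k hk hk'
  show (∀ᶠ g' in nf (fun _ => dt.T) [r] (upd (fun _ _ => Sum.inl dt.d0) r' (dt.tup k)), _) ↔ _
  rw [NU_cons]
  show (∀ᶠ l in (Filter.hyperfilter ℕ : Filter ℕ), _) ↔ _
  rw [← ev_const (Filter.hyperfilter ℕ) (¬ dt.β)]
  refine Filter.eventually_congr ?_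
  filter_upwards [hyper_gt k] with l hl
  show (∀ᶠ g' in nf (fun _ => dt.T) [] (upd (upd (fun _ _ => Sum.inl dt.d0) r' (dt.tup k)) r
    (dt.tup l)), _) ↔ _
  rw [NU_nil, dt.wv_ev (k := k) (l := l) (by rw [upd_same])
    (by rw [upd_ne _ _ hr.symm, upd_same]) hk.1 hk.2.1 hk.2.2, dt.M1_val hC hM]
  exact hk'.2 l hl

end ArrData

end Pool.Agent.Helper6.VU
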