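import Pool.Agent.Helper6.V6ArrB

/-!
# Replacing parameters
-/

set_option autoImplicit false

namespace Pool.Agent.Helper6.VU

open Set Filter

variable {Y : Type} {ar : Y → ℕ} {D : Type}

/-- A finite hitting set: injective tuples off it have the type of a nonprincipal ultrafilter. -/
theorem exists_hit {E J : Type} [Finite J] (N : St ar E) (ι : D → E) (G : Finset Y)
    (F : Finset E) :
    ∃ E0 : Finset D, ∀ x : J → D, Function.Injective x → (∀ j, x j ∉ E0) →
      ∃ V : Ultrafilter (J → D), Disj V univ ∧ ∀ s ∈ G, ∀ v : Fin (ar s) → E ⊕ J,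
        (∀ c e, v c = Sum.inl e → e ∈ F) →
        (N s (Sum.elim id (ι ∘ x) ∘ v) ↔
          ∀ᶠ y in (V : Filter (J → D)), N s (Sum.elim id (ι ∘ y) ∘ v)) := by
  classical
  let TP : Type := (s : G) → (Fin (ar s) → F ⊕ J) → Prop
  let tp : (J → D) → TP := fun x s v => N s (Sum.elim (fun e : F => (e : E)) (ι ∘ x) ∘ v)
  let big : TP → Prop := fun p => ∀ E0 : Finset D, ∃ x : J → D, Function.Injective x ∧
    (∀ j, x j ∉ E0) ∧ tp x = p
  have hsmall : ∀ p : TP, ∃ E0 : Finset D, ¬ big p → ∀ x : J → D, Function.Injective x →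
      (∀ j, x j ∉ E0) → tp x ≠ p := by
    intro p
    by_cases hp : big p
    · exact ⟨∅, fun h => absurd hp h⟩
    · have hp' := hp
      simp only [big] at hp'
      push Not at hp'
      obtain ⟨E0, hE0⟩ := hp'
      exact ⟨E0, fun _ => hE0⟩
  choose Ep hEp using hsmall
  have : Fintype TP := Fintype.ofFinite TP
  refine ⟨Finset.univ.biUnion Ep, fun x hx hxE => ?_⟩
  have hbig : big (tp x) := by
    by_contra hcon
    exact hEp (tp x) hcon x hx (fun j hj => hxE j (Finset.mem_biUnion.mpr
      ⟨tp x, Finset.mem_univ _, hj⟩)) rfl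
  choose z hz1 hz2 hz3 using hbig
  refine ⟨(Ultrafilter.of (Filter.atTop : Filter (Finset D))).map z, ⟨?_, ?_⟩, ?_⟩
  · intro j _ d
    rw [ev_map]
    have h1 : ∀ᶠ S in (Filter.atTop : Filter (Finset D)), {d} ≤ S :=
      Filter.eventually_ge_atTop _
    have h2 : ∀ᶠ S in ((Ultrafilter.of (Filter.atTop : Filter (Finset D)) :
      Ultrafilter (Finset D)) : Filter (Finset D)), {d} ≤ S := Ultrafilter.of_le _ h1
    refine h2.mono fun S hS h => hz2 S j ?_
    rw [h]
    exact hS (Finset.mem_singleton_self d)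
  · intro j _ j' _ hne
    rw [ev_map]
    exact Filter.Eventually.of_forall fun S h => hne (hz1 S h)
  · intro s hs v hv
    have key : ∀ y : J → D, tp y = tp x → (N s (Sum.elim id (ι ∘ y) ∘ v) ↔
        N s (Sum.elim id (ι ∘ x) ∘ v)) := by
      intro y hy
      have h1 : ∀ c, ∃ u : F ⊕ J, Sum.map (fun e : F => (e : E)) id u = v c := by
        intro c
        rcases hvc : v c with e | j
        · exact ⟨Sum.inl ⟨e, hv c e hvc⟩, rfl⟩
        · exact ⟨Sum.inr j, rfl⟩
      choose u hu using h1
      have h2 : ∀ y : J → D, Sum.elim id (ι ∘ y) ∘ v = Sum.elim (fun e : F => (e : E)) (ι ∘ y) ∘ u := by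
        intro y
        funext c
        show Sum.elim id (ι ∘ y) (v c) = _
        rw [← hu c]
        show _ = Sum.elim (fun e : F => (e : E)) (ι ∘ y) (u c)
        rcases u c with e | j <;> rfl
      rw [h2, h2]
      have h3 := congrFun (congrFun hy ⟨s, hs⟩) u
      exact iff_of_eq h3
    rw [ev_map]
    have h4 : ∀ S, N s (Sum.elim id (ι ∘ z S) ∘ v) ↔ N s (Sum.elim id (ι ∘ x) ∘ v) :=
      fun S => key (z S) (hz3 S)
    rw [ev_congr h4, ev_const]

/-- Finitely many representatives for the types. -/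
theorem exists_reps [Countable Y] {K : HC ar} (hK : ¬ Wild {c : Sp ar | K.mem (toSt c)})
    (hC : Comm K) {M : St ar D} (hM : K.mem M) (G : Finset Y) {A : Type} {B : Set A}
    (hB : B.Finite) :
    ∃ (k : ℕ) (V : Fin k → Ultrafilter (A → D)), (∀ i, Disj (V i) B) ∧
      ∀ U : Ultrafilter (A → D), Disj U B → ∃ i, SameT (G : Set Y) M B U (V i) := by
  classical
  have : Finite B := hB
  let R : Ultrafilter (A → D) → Ultrafilter (B → D) := fun U => U.map fun x b => x b
  have hR : ∀ U, Disj U B → Disj (R U) univ := by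
    intro U hU
    exact ⟨fun b _ d => hU.1 b b.2 d,
      fun b _ b' _ hne => hU.2 b b.2 b' b'.2 fun h => hne (Subtype.ext h)⟩
  let TT : Type := (s : G) → ((Fin (ar s) → D ⊕ B) → Prop)
  let ty : Ultrafilter (A → D) → TT := fun U s => typ M s (R U)
  have hfin : {τ | ∃ U : Ultrafilter (A → D), Disj U B ∧ ty U = τ}.Finite := by
    have h1 : (Set.pi univ fun s : G =>
        {p | ∃ U : Ultrafilter (B → D), Disj U univ ∧ typ M s U = p}).Finite :=
      Set.Finite.pi fun s => types_finite K hK hC hM s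
    refine h1.subset ?_
    rintro τ ⟨U, hU, rfl⟩ s _
    exact ⟨R U, hR U hU, rfl⟩
  have : Finite {τ | ∃ U : Ultrafilter (A → D), Disj U B ∧ ty U = τ} := hfin
  obtain ⟨k, ⟨e⟩⟩ := Finite.exists_equiv_fin {τ | ∃ U : Ultrafilter (A → D), Disj U B ∧ ty U = τ}
  refine ⟨k, fun i => (e.symm i).2.choose, fun i => (e.symm i).2.choose_spec.1, fun U hU => ?_⟩
  refine ⟨e ⟨ty U, U, hU, rfl⟩, ?_⟩
  intro s hs v hv
  set i := e ⟨ty U, U, hU, rfl⟩ with hi
  have h1 : ty ((e.symm i).2.choose) = ty U := by
    rw [(e.symm i).2.choose_spec.2, hi, Equiv.symm_apply_apply]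
  have h2 := congrFun h1 ⟨s, hs⟩
  have h3 : ∀ c, ∃ u : D ⊕ B, Sum.map id (fun b : B => (b : A)) u = v c := by
    intro c
    rcases hvc : v c with d | a
    · exact ⟨Sum.inl d, rfl⟩
    · exact ⟨Sum.inr ⟨a, hv c a hvc⟩, rfl⟩
  choose u hu using h3
  have h4 := congrFun h2 u
  have h5 : ∀ W : Ultrafilter (A → D), typ M s (R W) u ↔
      ∀ᶠ x in (W : Filter (A → D)), M s (ev1 x ∘ v) := by
    intro W
    show (∀ᶠ x in (W : Filter (A → D)), M s (ev1 (fun b : B => x b) ∘ u)) ↔ _
    refine ev_congr fun x => ?_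
    have : ev1 (fun b : B => x b) ∘ u = ev1 x ∘ v := by
      funext c
      show ev1 (fun b : B => x b) (u c) = ev1 x (v c)
      rw [← hu c]
      rcases u c with d | b <;> rfl
    rw [this]
  have h6 : typ M s (R ((e.symm i).2.choose)) u ↔ typ M s (R U) u := iff_of_eq h4
  rw [h5, h5] at h6
  exact h6.symm

section PR

variable {K : HC ar} {M : St ar D}

/-- The substitution of some old elements in a tuple. -/
def sbs {n j : ℕ} {X : Type} (φ : Fin n → Option (Fin j)) (w : Fin n → D ⊕ X) (y : Fin j → D) :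
    Fin n → D ⊕ X :=
  fun c => match φ c with
    | none => w c
    | some i => Sum.inl (y i)

/-- **Parameter replacement.** -/
theorem param_replace [Countable Y] [Nonempty D] (hK : ¬ Wild {c : Sp ar | K.mem (toSt c)})
    (hC : Comm K) (hM : K.mem M) (G : Finset Y) (r : ℕ) (hr : ∀ s ∈ G, ar s ≤ r) :
    ∃ A₀ : Finset D, ∀ s ∈ G, ∀ v : Fin (ar s) → Option D,
      ∃ (j : ℕ) (_ : j ≤ r) (V : Ultrafilter (Fin j → D)) (φ : Fin (ar s) → Option (Fin j)),
        Disj V univ ∧ (∀ c d, v c = some d → φ c = none → d ∈ A₀) ∧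
        (∀ c, v c = none → φ c = none) ∧
        ∀ (ρ A : Type) (U : ρ → Ultrafilter (A → D)) (B : ρ → Set A) (g₀ : ρ → A → D)
          (w : Fin (ar s) → D ⊕ ρ × A), (∀ r, Disj (U r) (B r)) → LiveT B w →
          (∀ c d, w c = Sum.inl d ↔ v c = some d) →
          (GC U g₀ M s w ↔ ∀ᶠ y in (V : Filter (Fin j → D)), GC U g₀ M s (sbs φ w y)) := by
  classical
  obtain ⟨d0⟩ := ‹Nonempty D›
  -- representatives
  have hreps : ∀ j : ℕ, ∃ (k : ℕ) (V : Fin k → Ultrafilter (ℕ → D)),
      (∀ i, Disj (V i) (Set.Iio j)) ∧ ∀ U : Ultrafilter (ℕ → D), Disj U (Set.Iio j) →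
        ∃ i, SameT (G : Set Y) M (Set.Iio j) U (V i) :=
    fun j => exists_reps hK hC hM G (Set.finite_Iio j)
  choose kk VV hVV1 hVV2 using hreps
  let Q : Type := (j : Fin (r + 1)) × Fin (kk j)
  let UC : Q × ℕ → Ultrafilter (ℕ → D) := fun q => VV q.1.1 q.1.2
  let BC : Q × ℕ → Set ℕ := fun q => Set.Iio (q.1.1 : ℕ)
  have hBC : ∀ q, Disj (UC q) (BC q) := fun q => hVV1 q.1.1 q.1.2
  let MC : St ar (D ⊕ (Q × ℕ) × ℕ) := GC UC (fun _ _ => d0) M
  let Cf : Set (D ⊕ (Q × ℕ) × ℕ) := {e | ∃ q i a, i < r ∧ a < r ∧ e = Sum.inr ((q, i), a)}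
  have hCf : Cf.Finite := by
    have : Cf ⊆ (fun t : (Q × ℕ) × ℕ => (Sum.inr t : D ⊕ (Q × ℕ) × ℕ)) ''
        ((univ ×ˢ Set.Iio r) ×ˢ Set.Iio r) := by
      rintro e ⟨q, i, a, hi, ha, rfl⟩
      exact ⟨((q, i), a), ⟨⟨trivial, hi⟩, ha⟩, rfl⟩
    exact (((Set.finite_univ.prod (Set.finite_Iio r)).prod (Set.finite_Iio r)).image _).subset this
  -- hitting sets
  have hhit : ∀ (j : ℕ) (F : Finset D), ∃ E0 : Finset D, ∀ x : Fin j → D,
      Function.Injective x → (∀ i, x i ∉ E0) →
      ∃ V : Ultrafilter (Fin j → D), Disj V univ ∧ ∀ s ∈ G,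
        ∀ v : Fin (ar s) → (D ⊕ (Q × ℕ) × ℕ) ⊕ Fin j,
        (∀ c e, v c = Sum.inl e → e ∈ F.image Sum.inl ∪ hCf.toFinset) →
        (MC s (Sum.elim id (Sum.inl ∘ x) ∘ v) ↔
          ∀ᶠ y in (V : Filter (Fin j → D)), MC s (Sum.elim id (Sum.inl ∘ y) ∘ v)) :=
    fun j F => exists_hit MC Sum.inl G (F.image Sum.inl ∪ hCf.toFinset)
  choose EE hEE using hhit
  let ch : ℕ → Finset D := fun i =>
    Nat.rec ∅ (fun _ F => F ∪ (Finset.range (r + 1)).biUnion fun j => EE j F) i
  have hch : ∀ i, ch (i + 1) = ch i ∪ (Finset.range (r + 1)).biUnion fun j => EE j (ch i) :=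
    fun _ => rfl
  have hmono : ∀ i i', i ≤ i' → ch i ⊆ ch i' := by
    intro i i' h
    induction h with
    | refl => exact Finset.Subset.refl _
    | step _ ih => exact ih.trans (by rw [hch]; exact Finset.subset_union_left)
  refine ⟨ch (r + 1), fun s hs v => ?_⟩
  -- a level missed by the parameters
  let m : Finset D := (Finset.univ.filter fun c => (v c).isSome).image
    fun c => (v c).getD d0
  have hm : ∀ d, d ∈ m ↔ ∃ c, v c = some d := by
    intro d
    simp only [m, Finset.mem_image, Finset.mem_filter, Finset.mem_univ, true_and]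
    constructor
    · rintro ⟨c, h1, h2⟩
      obtain ⟨d', hd'⟩ := Option.isSome_iff_exists.mp h1
      rw [hd'] at h2
      exact ⟨c, by rw [hd', ← h2]; rfl⟩
    · rintro ⟨c, hc⟩
      exact ⟨c, by rw [hc]; rfl, by rw [hc]; rfl⟩
  have hmc : m.card ≤ r := by
    calc m.card ≤ (Finset.univ.filter fun c => (v c).isSome).card := Finset.card_image_le
      _ ≤ (Finset.univ : Finset (Fin (ar s))).card := Finset.card_filter_le _ _
      _ = ar s := by simp
      _ ≤ r := hr s hs
  obtain ⟨i, hir, hi⟩ : ∃ i, i ≤ r ∧ ∀ d ∈ m, d ∈ ch (i + 1) → d ∈ ch i := by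
    by_contra hcon
    push Not at hcon
    choose! f hf1 hf2 hf3 using hcon
    have : (Finset.range (r + 1)).card ≤ m.card := by
      refine Finset.card_le_card_of_injOn f (fun i hi => ?_) ?_
      · exact hf1 i (by simpa [Nat.lt_succ_iff] using hi)
      · intro i hi i' hi' h
        have hi1 : i ≤ r := by simpa [Nat.lt_succ_iff] using hi
        have hi1' : i' ≤ r := by simpa [Nat.lt_succ_iff] using hi'
        by_contra hne
        rcases Nat.lt_or_gt_of_ne hne with hlt | hlt
        · exact hf3 i' hi1' (h ▸ hmono (i + 1) i' hlt (hf2 i hi1))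
        · exact hf3 i hi1 (h ▸ hmono (i' + 1) i hlt (hf2 i' hi1'))
    rw [Finset.card_range] at this
    omega
  let m1 : Finset D := m \ ch i
  have hm1 : m1.card ≤ r := (Finset.card_le_card Finset.sdiff_subset).trans hmc
  let xe := m1.equivFin
  let x : Fin m1.card → D := fun c => (xe.symm c : D)
  have hxinj : Function.Injective x := fun a b h => xe.symm.injective (Subtype.ext h)
  have hxm : ∀ c, x c ∈ m ∧ x c ∉ ch i := fun c => by
    exact Finset.mem_sdiff.mp (xe.symm c).2
  have hxoff : ∀ c, x c ∉ EE m1.card (ch i) := by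
    intro c hc
    refine (hxm c).2 (hi _ (hxm c).1 ?_)
    rw [hch]
    refine Finset.mem_union_right _ (Finset.mem_biUnion.mpr ⟨m1.card, ?_, hc⟩)
    simpa [Nat.lt_succ_iff] using hm1
  obtain ⟨V, hV1, hV2⟩ := hEE m1.card (ch i) x hxinj hxoff
  let φ : Fin (ar s) → Option (Fin m1.card) := fun c =>
    match v c with
    | none => none
    | some d => if h : d ∈ m1 then some (xe ⟨d, h⟩) else none
  have hφ1 : ∀ c d, v c = some d → ∀ h : d ∈ m1, φ c = some (xe ⟨d, h⟩) := by
    intro c d hc h
    simp only [φ, hc, h, dif_pos]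
  have hφ2 : ∀ c d, v c = some d → d ∉ m1 → φ c = none := by
    intro c d hc h
    simp only [φ, hc, h, dif_neg, not_false_eq_true]
  have hφ3 : ∀ c, v c = none → φ c = none := by
    intro c hc
    simp only [φ, hc]
  refine ⟨m1.card, hm1, V, φ, hV1, ?_, hφ3, ?_⟩
  · intro c d hc hn
    have h1 : d ∉ m1 := by
      intro h
      rw [hφ1 c d hc h] at hn
      simp at hn
    have h2 : d ∈ m := (hm d).mpr ⟨c, hc⟩
    have h3 : d ∈ ch i := by
      by_contra h4
      exact h1 (Finset.mem_sdiff.mpr ⟨h2, h4⟩)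
    exact hmono i (r + 1) (by omega) h3
  · intro ρ A U B g₀ w hB hw hwv
    -- coordinates of the rows
    let Cr : ρ → Set A := fun t => {a | ∃ c, w c = Sum.inr (t, a)}
    have hCrB : ∀ t, Cr t ⊆ B t := fun t a ⟨c, hc⟩ => hw c t a hc
    have hCrf : ∀ t, (Cr t).Finite := by
      intro t
      have : Cr t ⊆ ⋃ c : Fin (ar s), {a | w c = Sum.inr (t, a)} := by
        rintro a ⟨c, hc⟩
        exact Set.mem_iUnion.mpr ⟨c, hc⟩
      refine (Set.finite_iUnion fun c => Set.Subsingleton.finite ?_).subset this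
      intro a ha a' ha'
      simp only [Set.mem_ofPred_eq] at ha ha'
      rw [ha] at ha'
      simpa using ha'
    have hCrc : ∀ t, (hCrf t).toFinset.card ≤ r := by
      intro t
      have h1 : ∀ a : (hCrf t).toFinset, ∃ c, w c = Sum.inr (t, a.1) := by
        intro a
        have := a.2
        rw [Set.Finite.mem_toFinset] at this
        exact this
      choose f hf using h1
      have h2 : Fintype.card (hCrf t).toFinset ≤ Fintype.card (Fin (ar s)) := by
        refine Fintype.card_le_of_injective f fun a a' h => ?_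
        have h3 := hf a
        rw [h, hf a'] at h3
        apply Subtype.ext
        simpa using h3.symm
      rw [Fintype.card_coe, Fintype.card_fin] at h2
      exact h2.trans (hr s hs)
    let jr : ρ → ℕ := fun t => (hCrf t).toFinset.card
    let te : (t : ρ) → (hCrf t).toFinset ≃ Fin (jr t) := fun t => (hCrf t).toFinset.equivFin
    -- the row, with numbered coordinates
    let W : ρ → Ultrafilter (ℕ → D) := fun t => (U t).map fun y n =>
      if h : n < jr t then y ((te t).symm ⟨n, h⟩ : A) else d0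
    have hW : ∀ t, Disj (W t) (Set.Iio (jr t)) := by
      intro t
      have hin : ∀ n : Fin (jr t), ((te t).symm n : A) ∈ B t := by
        intro n
        have := ((te t).symm n).2
        rw [Set.Finite.mem_toFinset] at this
        exact hCrB t this
      constructor
      · intro n hn d
        show ∀ᶠ y in (U t : Filter (A → D)), (if h : n < jr t then y ((te t).symm ⟨n, h⟩ : A)
          else d0) ≠ d
        have hn' : n < jr t := hn
        simp only [hn', dif_pos]
        exact (hB t).1 _ (hin _) d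
      · intro n hn n' hn' hne
        show ∀ᶠ y in (U t : Filter (A → D)), (if h : n < jr t then y ((te t).symm ⟨n, h⟩ : A)
          else d0) ≠ (if h : n' < jr t then y ((te t).symm ⟨n', h⟩ : A) else d0)
        have hn1 : n < jr t := hn
        have hn1' : n' < jr t := hn'
        simp only [hn1, hn1', dif_pos]
        refine (hB t).2 _ (hin _) _ (hin _) fun h => hne ?_
        have := (te t).symm.injective (Subtype.ext h)
        simpa using this
    have hWq : ∀ t, ∃ q : Q, (q.1 : ℕ) = jr t ∧
        SameT (G : Set Y) M (Set.Iio (jr t)) (W t) (VV q.1 q.2) := by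
      intro t
      obtain ⟨i, hi⟩ := hVV2 (jr t) (W t) (hW t)
      exact ⟨⟨⟨jr t, Nat.lt_succ_of_le (hCrc t)⟩, i⟩, rfl, hi⟩
    choose qq hqq1 hqq2 using hWq
    -- an index for each row
    let ix : ρ → ℕ := fun t => if h : ∃ c : Fin (ar s), ∃ a, w c = Sum.inr (t, a) then
      (h.choose : Fin (ar s)).1 else 0
    have hix : ∀ t ∈ rowsOf w, ∃ c : Fin (ar s), ix t = c.1 ∧ ∃ a, w c = Sum.inr (t, a) := by
      intro t ht
      have h : ∃ c : Fin (ar s), ∃ a, w c = Sum.inr (t, a) := ht
      refine ⟨h.choose, ?_, h.choose_spec⟩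
      simp only [ix, dif_pos h]
    let σ : ρ → Q × ℕ := fun t => (qq t, ix t)
    let θ : ρ → A → ℕ := fun t a => if h : a ∈ (hCrf t).toFinset then (te t ⟨a, h⟩ : ℕ) else 0
    have hθ1 : ∀ t a (h : a ∈ Cr t), θ t a = (te t ⟨a, by
        rw [Set.Finite.mem_toFinset]; exact h⟩ : ℕ) := by
      intro t a h
      have h' : a ∈ (hCrf t).toFinset := by rw [Set.Finite.mem_toFinset]; exact h
      simp only [θ, dif_pos h']
    have hθlt : ∀ t a, a ∈ Cr t → θ t a < jr t := by
      intro t a h
      rw [hθ1 t a h]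
      exact (te t _).2
    have hσ : Set.InjOn σ (rowsOf w) := by
      intro t ht t' ht' h
      have h1 : ix t = ix t' := congrArg Prod.snd h
      obtain ⟨c, hc, a, ha⟩ := hix t ht
      obtain ⟨c', hc', a', ha'⟩ := hix t' ht'
      have : c = c' := Fin.ext (by rw [← hc, ← hc', h1])
      rw [this, ha'] at ha
      simp only [Sum.inr.injEq, Prod.mk.injEq] at ha
      exact ha.1.symm
    have hθ : ∀ t, Set.InjOn (θ t) (Cr t) := by
      intro t a ha a' ha' h
      rw [hθ1 t a ha, hθ1 t a' ha'] at h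
      have := (te t).injective (Fin.ext h)
      exact congrArg Subtype.val this
    -- the transfer
    let tr : (Fin (ar s) → D ⊕ ρ × A) → (Fin (ar s) → D ⊕ (Q × ℕ) × ℕ) := fun w' c =>
      match w' c with
      | Sum.inl d => Sum.inl d
      | Sum.inr (t, a) => Sum.inr (σ t, θ t a)
    have htrans : ∀ w' : Fin (ar s) → D ⊕ ρ × A, (∀ c q, w' c = Sum.inr q → w c = Sum.inr q) →
        (GC U g₀ M s w' ↔ MC s (tr w')) := by
      intro w' hw'
      have hsub : rowsOf w' ⊆ rowsOf w := by
        rintro t ⟨c, a, hc⟩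
        exact ⟨c, a, hw' c _ hc⟩
      refine GC_transfer (G := (G : Set Y)) hC hM hB hBC hs
        (fun c t a hc => hw c t a (hw' c _ hc)) σ θ Cr hCrB
        (fun c t a hc => ⟨c, hw' c _ hc⟩) (hσ.mono hsub) (fun t _ => hθ t)
        (fun t _ a ha => ?_) (fun c d hc => ?_) (fun c t a hc => ?_) (fun t _ => ?_)
      · show θ t a < (qq t).1.1
        rw [hqq1 t]
        exact hθlt t a ha
      · simp only [tr, hc]
      · simp only [tr, hc]
      · intro s' hs' u hu
        -- relabel the coordinates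
        let u' : Fin (ar s') → D ⊕ ℕ := fun c => Sum.map id (θ t) (u c)
        have hu' : ∀ c a, u' c = Sum.inr a → a ∈ Set.Iio (jr t) := by
          intro c a hc
          rcases huc : u c with d | a'
          · simp [u', huc] at hc
          · simp only [u', huc, Sum.map_inr, Sum.inr.injEq] at hc
            rw [← hc]
            exact hθlt t a' (hu c a' huc)
        have h1 := hqq2 t s' hs' u' hu'
        have h2 : (∀ᶠ y in (W t : Filter (ℕ → D)), M s' (ev1 y ∘ u')) ↔
            ∀ᶠ y in (U t : Filter (A → D)), M s' (ev1 y ∘ u) := by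
          show (∀ᶠ y in (U t : Filter (A → D)), M s' (ev1 (fun n =>
            if h : n < jr t then y ((te t).symm ⟨n, h⟩ : A) else d0) ∘ u')) ↔ _
          refine ev_congr fun y => ?_
          have : ev1 (fun n => if h : n < jr t then y ((te t).symm ⟨n, h⟩ : A) else d0) ∘ u' =
              ev1 y ∘ u := by
            funext c
            show ev1 _ (Sum.map id (θ t) (u c)) = ev1 y (u c)
            rcases huc : u c with d | a
            · rfl
            · have ha := hu c a huc
              show (if h : θ t a < jr t then y ((te t).symm ⟨θ t a, h⟩ : A) else d0) = y a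
              rw [dif_pos (hθlt t a ha)]
              have : (⟨θ t a, hθlt t a ha⟩ : Fin (jr t)) = te t ⟨a, by
                  rw [Set.Finite.mem_toFinset]; exact ha⟩ := Fin.ext (hθ1 t a ha)
              rw [this, Equiv.symm_apply_apply]
          rw [this]
        have h3 : (∀ᶠ y in (VV (qq t).1 (qq t).2 : Filter (ℕ → D)), M s' (ev1 y ∘ u')) ↔
            ∀ᶠ y in ((UC (σ t)).map fun y a => y (θ t a) : Filter (A → D)), M s' (ev1 y ∘ u) := by
          show _ ↔ ∀ᶠ y in (VV (qq t).1 (qq t).2 : Filter (ℕ → D)),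
            M s' (ev1 (fun a => y (θ t a)) ∘ u)
          refine ev_congr fun y => ?_
          have : ev1 y ∘ u' = ev1 (fun a => y (θ t a)) ∘ u := by
            funext c
            show ev1 y (Sum.map id (θ t) (u c)) = ev1 (fun a => y (θ t a)) (u c)
            rcases u c with d | a <;> rfl
          rw [this]
        exact h2.symm.trans (h1.trans h3)
    -- the pattern used with the hitting set
    let vv : Fin (ar s) → (D ⊕ (Q × ℕ) × ℕ) ⊕ Fin m1.card := fun c =>
      match φ c with
      | none => Sum.inl (tr w c)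
      | some i => Sum.inr i
    have hvv : ∀ c e, vv c = Sum.inl e → e ∈ (ch i).image Sum.inl ∪ hCf.toFinset := by
      intro c e hc
      rcases hφc : φ c with _ | i'
      · simp only [vv, hφc, Sum.inl.injEq] at hc
        rw [← hc]
        rcases hwc : w c with d | ⟨t, a⟩
        · have hvc := (hwv c d).mp hwc
          have h1 : d ∉ m1 := by
            intro h
            rw [hφ1 c d hvc h] at hφc
            simp at hφc
          have h2 : d ∈ m := (hm d).mpr ⟨c, hvc⟩
          have h3 : d ∈ ch i := by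
            by_contra h4
            exact h1 (Finset.mem_sdiff.mpr ⟨h2, h4⟩)
          refine Finset.mem_union_left _ (Finset.mem_image.mpr ⟨d, h3, ?_⟩)
          simp only [tr, hwc]
        · refine Finset.mem_union_right _ ?_
          rw [Set.Finite.mem_toFinset]
          have ht : t ∈ rowsOf w := ⟨c, a, hwc⟩
          obtain ⟨c', hc', -⟩ := hix t ht
          refine ⟨qq t, ix t, θ t a, ?_, ?_, ?_⟩
          · rw [hc']
            exact lt_of_lt_of_le c'.2 (hr s hs)
          · exact lt_of_lt_of_le (hθlt t a ⟨c, hwc⟩) (hCrc t)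
          · simp only [tr, hwc, σ]
      · simp [vv, hφc] at hc
    have hkey := hV2 s hs vv hvv
    have h1 : Sum.elim id (Sum.inl ∘ x) ∘ vv = tr w := by
      funext c
      show Sum.elim id (Sum.inl ∘ x) (vv c) = tr w c
      rcases hφc : φ c with _ | i'
      · simp only [vv, hφc, Sum.elim_inl, id]
      · simp only [vv, hφc, Sum.elim_inr, Function.comp]
        rcases hvc : v c with _ | d
        · rw [hφ3 c hvc] at hφc
          simp at hφc
        · have hd : d ∈ m1 := by
            by_contra h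
            rw [hφ2 c d hvc h] at hφc
            simp at hφc
          rw [hφ1 c d hvc hd] at hφc
          simp only [Option.some.injEq] at hφc
          have hwc := (hwv c d).mpr hvc
          simp only [tr, hwc]
          rw [← hφc]
          show Sum.inl ((xe.symm (xe ⟨d, hd⟩) : m1) : D) = _
          rw [Equiv.symm_apply_apply]
    have h2 : ∀ y : Fin m1.card → D, Sum.elim id (Sum.inl ∘ y) ∘ vv = tr (sbs φ w y) := by
      intro y
      funext c
      show Sum.elim id (Sum.inl ∘ y) (vv c) = tr (sbs φ w y) c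
      rcases hφc : φ c with _ | i'
      · simp only [vv, hφc, Sum.elim_inl, id, tr, sbs]
      · simp only [vv, hφc, Sum.elim_inr, Function.comp, tr, sbs]
    rw [htrans w (fun c q h => h), ← h1, hkey]
    refine ev_congr fun y => ?_
    rw [h2 y, htrans]
    intro c q hc
    rcases hφc : φ c with _ | i'
    · simpa only [sbs, hφc] using hc
    · simp [sbs, hφc] at hc

end PR

end Pool.Agent.Helper6.VU
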