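import Pool.Agent.Helper6.V8Cop

/-!
# Indecomposable types have bounded size
-/

set_option autoImplicit false

namespace Pool.Agent.Helper6.VU

open Set Filter

variable {Y : Type} {ar : Y → ℕ} {D : Type}

/-- Number the coordinates. -/
def pad {j : ℕ} (d0 : D) (y : Fin j → D) (n : ℕ) : D := if h : n < j then y ⟨n, h⟩ else d0

theorem pad_lt {j : ℕ} (d0 : D) (y : Fin j → D) {n : ℕ} (h : n < j) : pad d0 y n = y ⟨n, h⟩ := by
  unfold pad; rw [dif_pos h]

theorem pad_disj {j : ℕ} (d0 : D) {V : Ultrafilter (Fin j → D)} (hV : Disj V univ) :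
    Disj (V.map (pad d0)) (Set.Iio j) := by
  constructor
  · intro n hn d
    show ∀ᶠ y in (V : Filter (Fin j → D)), pad d0 y n ≠ d
    have hn' : n < j := hn
    have : ∀ y : Fin j → D, pad d0 y n = y ⟨n, hn'⟩ := fun y => pad_lt d0 y hn'
    simp only [this]
    exact hV.1 _ trivial d
  · intro n hn n' hn' hne
    show ∀ᶠ y in (V : Filter (Fin j → D)), pad d0 y n ≠ pad d0 y n'
    have h1 : n < j := hn
    have h1' : n' < j := hn'
    have h2 : ∀ y : Fin j → D, pad d0 y n = y ⟨n, h1⟩ := fun y => pad_lt d0 y h1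
    have h2' : ∀ y : Fin j → D, pad d0 y n' = y ⟨n', h1'⟩ := fun y => pad_lt d0 y h1'
    simp only [h2, h2']
    exact hV.2 _ trivial _ trivial fun h => hne (by simpa using h)

/-- Two-row evaluation in the copies. -/
theorem gc_row_typ {K : HC ar} {M : St ar D} (hC : Comm K) (hM : K.mem M) {κ A : Type}
    {U : κ → Ultrafilter (A → D)} {B : κ → Set A} (hB : ∀ k, Disj (U k) (B k)) (d0 : D)
    (k : κ) (j : ℕ) {s : Y} (v : Fin (ar s) → D ⊕ A) (hv : ∀ c a, v c = Sum.inr a → a ∈ B k) :
    GC (fun r : κ × ℕ => U r.1) (fun _ _ => d0) M s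
      (fun c => Sum.map id (fun a => ((k, j), a)) (v c)) ↔
      ∀ᶠ x in (U k : Filter (A → D)), M s (ev1 x ∘ v) := by
  have hlive : LiveT (fun r : κ × ℕ => B r.1)
      (fun c => (Sum.map id (fun a => ((k, j), a)) (v c) : D ⊕ (κ × ℕ) × A)) := by
    intro c r a hc
    rcases hvc : v c with d | a'
    · simp [hvc] at hc
    · simp only [hvc, Sum.map_inr, Sum.inr.injEq, Prod.mk.injEq] at hc
      rw [← hc.1, ← hc.2]
      exact hv c a' hvc
  rw [GC_eval (B := fun r : κ × ℕ => B r.1) (l := [(k, j)]) hC hM (fun r => hB r.1) hlive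
    (by simp) (by
      rintro r ⟨c, a, hc⟩
      rcases hvc : v c with d | a'
      · simp [hvc] at hc
      · simp only [hvc, Sum.map_inr, Sum.inr.injEq, Prod.mk.injEq] at hc
        simp [← hc.1]) (fun _ _ => d0), NU_cons]
  refine ev_congr fun x => ?_
  rw [NU_nil]
  have : (ev (upd (fun _ _ => d0) (k, j) x) ∘ fun c =>
      (Sum.map id (fun a => ((k, j), a)) (v c) : D ⊕ (κ × ℕ) × A)) = ev1 x ∘ v := by
    funext c
    show ev _ (Sum.map id _ (v c)) = ev1 x (v c)
    rcases v c with d | a
    · rfl
    · show upd (fun _ _ => d0) (k, j) x (k, j) a = x a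
      rw [upd_same]
  rw [this]

/-- The tuple with the coordinates in `u` in another copy. -/
noncomputable def twoRow {κ A : Type} (k : κ) (j j' : ℕ) (u : Set A) {n : ℕ}
    (v : Fin n → D ⊕ A) (c : Fin n) : D ⊕ (κ × ℕ) × A :=
  open Classical in Sum.map id (fun a => (if a ∈ u then (k, j') else (k, j), a)) (v c)

theorem gc_two_typ {K : HC ar} {M : St ar D} (hC : Comm K) (hM : K.mem M) {κ A : Type}
    {U : κ → Ultrafilter (A → D)} {B : κ → Set A} (hB : ∀ k, Disj (U k) (B k)) (d0 : D)
    (k : κ) {j j' : ℕ} (hj : j ≠ j') (u : Set A) {s : Y} (v : Fin (ar s) → D ⊕ A)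
    (hv : ∀ c a, v c = Sum.inr a → a ∈ B k) :
    GC (fun r : κ × ℕ => U r.1) (fun _ _ => d0) M s (twoRow k j j' u v) ↔
      ∀ᶠ x in (U k : Filter (A → D)), ∀ᶠ y in (U k : Filter (A → D)),
        M s (ev1 (mix u x y) ∘ v) := by
  classical
  have hr : ∀ c r a, twoRow k j j' u v c = Sum.inr (r, a) →
      (r = (k, j') ∨ r = (k, j)) ∧ v c = Sum.inr a := by
    intro c r a hc
    unfold twoRow at hc
    rcases hvc : v c with d | a'
    · simp [hvc] at hc
    · simp only [hvc, Sum.map_inr, Sum.inr.injEq, Prod.mk.injEq] at hc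
      refine ⟨?_, by rw [hc.2]⟩
      rw [← hc.1]
      by_cases h : a' ∈ u
      · left; simp [h]
      · right; simp [h]
  have hlive : LiveT (fun r : κ × ℕ => B r.1) (twoRow k j j' u v) := by
    intro c r a hc
    obtain ⟨h1, h2⟩ := hr c r a hc
    rcases h1 with rfl | rfl
    · exact hv c a h2
    · exact hv c a h2
  rw [GC_eval (B := fun r : κ × ℕ => B r.1) (l := [(k, j'), (k, j)]) hC hM (fun r => hB r.1) hlive
    (by simp [hj.symm]) (by
      rintro r ⟨c, a, hc⟩
      have := (hr c r a hc).1
      simpa using this) (fun _ _ => d0), NU_cons]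
  refine ev_congr fun x => ?_
  rw [NU_cons]
  refine ev_congr fun y => ?_
  rw [NU_nil]
  have : ev (upd (upd (fun _ _ => d0) (k, j') x) (k, j) y) ∘ twoRow k j j' u v =
      ev1 (mix u x y) ∘ v := by
    funext c
    show ev _ (twoRow k j j' u v c) = ev1 (mix u x y) (v c)
    unfold twoRow
    rcases v c with d | a
    · rfl
    · by_cases h : a ∈ u
      · simp only [h, if_true, Sum.map_inr, ev_inr]
        rw [upd_ne _ _ (by simp [hj.symm]), upd_same]
        exact (mix_mem h).symm
      · simp only [h, if_false, Sum.map_inr, ev_inr]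
        rw [upd_same]
        exact (mix_not h).symm
  rw [this]

theorem indec_bounded_aux [Countable Y] [Nonempty D] {K : HC ar}
    (hK : ¬ Wild {c : Sp ar | K.mem (toSt c)}) (hC : Comm K) {M : St ar D} (hM : K.mem M)
    (G : Finset Y) (r : ℕ) (hr : ∀ s ∈ G, ar s ≤ r) (T : ℕ → Ultrafilter (ℕ → D)) (sz : ℕ → ℕ)
    (hsz : StrictMono sz) (hsz0 : r < sz 0) (hT : ∀ k, Disj (T k) (Set.Iio (sz k)))
    (hI : ∀ k, Indec (G : Set Y) M (T k) (Set.Iio (sz k))) : False := by
  classical
  obtain ⟨A₀, hPR⟩ := param_replace hK hC hM G r hr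
  obtain ⟨d0⟩ := ‹Nonempty D›
  have hreps : ∀ j : ℕ, ∃ (k : ℕ) (V : Fin k → Ultrafilter (ℕ → D)),
      (∀ i, Disj (V i) (Set.Iio j)) ∧ ∀ U : Ultrafilter (ℕ → D), Disj U (Set.Iio j) →
        ∃ i, SameT (G : Set Y) M (Set.Iio j) U (V i) :=
    fun j => exists_reps hK hC hM G (Set.finite_Iio j)
  choose kk VV hVV1 hVV2 using hreps
  let Q : Type := (j : Fin (r + 1)) × Fin (kk j)
  let κ : Type := ℕ ⊕ Q
  let U : κ → Ultrafilter (ℕ → D) := Sum.elim T fun q => VV q.1 q.2
  let B : κ → Set ℕ := Sum.elim (fun k => Set.Iio (sz k)) fun q => Set.Iio (q.1 : ℕ)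
  have hB : ∀ k, Disj (U k) (B k) := by
    rintro (k | q)
    · exact hT k
    · exact hVV1 q.1 q.2
  have hBf : ∀ k, (B k).Finite := by
    rintro (k | q)
    · exact Set.finite_Iio _
    · exact Set.finite_Iio _
  let xs : Set ℕ → Set κ := fun S => Sum.inl '' S ∪ Set.range Sum.inr
  let NN : (S : Set ℕ) → St ar (cpX (A₀ : Set D) (xs S) B) := fun S =>
    cpN U d0 M (A₀ : Set D) (xs S) B
  -- the main point: rows do not split
  have main : ∀ (S : Set ℕ) (k j : ℕ), k ∈ S →
      ∀ P : Finset (cpX (A₀ : Set D) (xs S) B), P.Nonempty →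
        (P : Set _) ⊆ cpRow (A₀ : Set D) (xs S) B (Sum.inl k) j →
        Swp (G : Set Y) (NN S) (P : Set _) →
        (P : Set _) = cpRow (A₀ : Set D) (xs S) B (Sum.inl k) j := by
    intro S k j hk P hPne hPr hPs
    by_contra hne
    let u : Set ℕ := {a | ∃ e ∈ P, e.1 = Sum.inr ((Sum.inl k, j), a)}
    have huB : u ⊆ Set.Iio (sz k) := by
      rintro a ⟨e, -, he⟩
      exact (cpX_inr he).2
    have hune : u.Nonempty := by
      obtain ⟨e, he⟩ := hPne
      obtain ⟨a, ha⟩ := hPr he
      exact ⟨a, e, he, ha⟩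
    have hne' : u ≠ Set.Iio (sz k) := by
      intro h
      apply hne
      refine Set.Subset.antisymm hPr ?_
      rintro e ⟨a, ha⟩
      have h1 : a ∈ u := by
        rw [h]
        exact (cpX_inr ha).2
      obtain ⟨e', he', hea⟩ := h1
      have : e = e' := Subtype.ext (by rw [ha, hea])
      rw [this]
      exact he'
    apply hI k u huB hune hne'
    intro s hs v hv
    obtain ⟨j0, hj0, V, φ, hV, hφ1, hφ2, hφ3⟩ := hPR s hs fun c => Sum.elim some (fun _ => none) (v c)
    -- the types of the new parameters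
    obtain ⟨i, hi⟩ := hVV2 j0 (V.map (pad d0)) (pad_disj d0 hV)
    let q : Q := ⟨⟨j0, Nat.lt_succ_of_le hj0⟩, i⟩
    let t : κ × ℕ := (Sum.inr q, 0)
    let GM : St ar (D ⊕ (κ × ℕ) × ℕ) := GC (fun r : κ × ℕ => U r.1) (fun _ _ => d0) M
    -- replacement for tuples in the rows of kind `k`
    have hrep : ∀ w : Fin (ar s) → D ⊕ (κ × ℕ) × ℕ, LiveT (fun r : κ × ℕ => B r.1) w →
        (∀ c d, w c = Sum.inl d ↔ (Sum.elim some (fun _ => none) (v c) : Option D) = some d) →
        t ∉ rowsOf w → (GM s w ↔ GM s (insRow φ w t fun i : Fin j0 => (i : ℕ))) := by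
      intro w hw hwv ht
      have hφ4 : GM s w ↔ ∀ᶠ y in (V : Filter (Fin j0 → D)), GM s (sbs φ w y) :=
        hφ3 (κ × ℕ) ℕ (fun r => U r.1) (fun r => B r.1) (fun _ _ => d0) w (fun r => hB r.1) hw hwv
      rw [hφ4]
      let U2 : κ × ℕ → Ultrafilter (ℕ → D) := fun r => if r = t then V.map (pad d0) else U r.1
      have hU2 : ∀ r, Disj (U2 r) (B r.1) := by
        intro r
        by_cases h : r = t
        · simp only [U2, h, if_true]
          exact pad_disj d0 hV
        · simp only [U2, h, if_false]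
          exact hB r.1
      have h1 := GC_addrow (U := U2) (B := fun r : κ × ℕ => B r.1) (g₀ := fun _ _ => d0)
        hC hM hU2 hw ht φ (fun i : Fin j0 => (i : ℕ)) (fun i => i.2)
      have h2 : U2 t = V.map (pad d0) := by simp [U2]
      rw [h2] at h1
      have h3 : (∀ᶠ z in ((V.map (pad d0) : Ultrafilter (ℕ → D)) : Filter (ℕ → D)),
          GC U2 (fun _ _ => d0) M s (sbs φ w (z ∘ fun i : Fin j0 => (i : ℕ)))) ↔
          ∀ᶠ y in (V : Filter (Fin j0 → D)), GM s (sbs φ w y) := by
        show (∀ᶠ y in (V : Filter (Fin j0 → D)),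
          GC U2 (fun _ _ => d0) M s (sbs φ w (pad d0 y ∘ fun i : Fin j0 => (i : ℕ)))) ↔ _
        refine ev_congr fun y => ?_
        have : pad d0 y ∘ (fun i : Fin j0 => (i : ℕ)) = y := by
          funext i
          exact pad_lt d0 y i.2
        rw [this]
        have hlive : LiveT (fun r : κ × ℕ => B r.1) (sbs φ w y) := by
          intro c r a hc
          rcases hφ : φ c with _ | i
          · simp only [sbs, hφ] at hc
            exact hw c r a hc
          · simp [sbs, hφ] at hc
        refine GC_congr_U (B := fun r : κ × ℕ => B r.1) hC hM hU2 (fun r => hB r.1) hlive ?_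
        rintro r ⟨c, a, hc⟩
        have : r ≠ t := by
          intro h
          rw [h] at hc
          rcases hφ : φ c with _ | i
          · simp only [sbs, hφ] at hc
            exact ht ⟨c, a, hc⟩
          · simp [sbs, hφ] at hc
        simp only [U2, this, if_false]
      have h4 : GC U2 (fun _ _ => d0) M s (insRow φ w t fun i : Fin j0 => (i : ℕ)) ↔
          GM s (insRow φ w t fun i : Fin j0 => (i : ℕ)) := by
        have hlive : LiveT (fun r : κ × ℕ => B r.1)
            (insRow φ w t fun i : Fin j0 => (i : ℕ)) := by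
          intro c r a hc
          rcases hφ : φ c with _ | i
          · simp only [insRow, hφ] at hc
            exact hw c r a hc
          · simp only [insRow, hφ, Sum.inr.injEq, Prod.mk.injEq] at hc
            rw [← hc.1, ← hc.2]
            exact i.2
        refine GC_transfer (U := U2) (V := fun r : κ × ℕ => U r.1) (B := fun r : κ × ℕ => B r.1)
          (B' := fun r : κ × ℕ => B r.1) (G := (G : Set Y)) hC hM hU2 (fun r => hB r.1) hs hlive
          (fun r => r) (fun _ a => a) (fun r : κ × ℕ => B r.1) (fun _ => le_refl _)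
          (fun c r a hc => hlive c r a hc) (Set.injOn_id _) (fun r _ => Set.injOn_id _)
          (fun r _ a ha => ha) (fun c d hc => hc) (fun c r a hc => hc) (fun r _ => ?_)
        by_cases h : r = t
        · rw [h]
          simp only [U2, if_true]
          exact hi
        · simp only [U2, h, if_false]
          exact fun _ _ _ _ => Iff.rfl
      rw [← h3, ← h1, h4]
    let w0 : Fin (ar s) → D ⊕ (κ × ℕ) × ℕ := fun c =>
      Sum.map id (fun a => (((Sum.inl k : κ), j), a)) (v c)
    let w1 : Fin (ar s) → D ⊕ (κ × ℕ) × ℕ := twoRow (Sum.inl k : κ) j (j + 1) u v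
    have hw0live : LiveT (fun r : κ × ℕ => B r.1) w0 := by
      intro c r a hc
      rcases hvc : v c with d | a'
      · simp [w0, hvc] at hc
      · simp only [w0, hvc, Sum.map_inr, Sum.inr.injEq, Prod.mk.injEq] at hc
        rw [← hc.1, ← hc.2]
        exact hv c a' hvc
    have hw1r : ∀ c r a, w1 c = Sum.inr (r, a) → r.1 = Sum.inl k ∧ v c = Sum.inr a := by
      intro c r a hc
      simp only [w1, twoRow] at hc
      rcases hvc : v c with d | a'
      · simp [hvc] at hc
      · simp only [hvc, Sum.map_inr, Sum.inr.injEq, Prod.mk.injEq] at hc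
        refine ⟨?_, by rw [hc.2]⟩
        rw [← hc.1]
        by_cases h : a' ∈ u
        · simp [h]
        · simp [h]
    have hw1live : LiveT (fun r : κ × ℕ => B r.1) w1 := by
      intro c r a hc
      obtain ⟨h1, h2⟩ := hw1r c r a hc
      show a ∈ B r.1
      rw [h1]
      exact hv c a h2
    have hw0v : ∀ c d, w0 c = Sum.inl d ↔
        (Sum.elim some (fun _ => none) (v c) : Option D) = some d := by
      intro c d
      rcases hvc : v c with d' | a'
      · simp [w0, hvc]
      · simp [w0, hvc]
    have hw1v : ∀ c d, w1 c = Sum.inl d ↔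
        (Sum.elim some (fun _ => none) (v c) : Option D) = some d := by
      intro c d
      rcases hvc : v c with d' | a'
      · simp [w1, twoRow, hvc]
      · simp [w1, twoRow, hvc]
    have ht0 : t ∉ rowsOf w0 := by
      rintro ⟨c, a, hc⟩
      rcases hvc : v c with d' | a'
      · simp [w0, hvc] at hc
      · simp [w0, hvc, t] at hc
    have ht1 : t ∉ rowsOf w1 := by
      rintro ⟨c, a, hc⟩
      have := (hw1r c _ a hc).1
      simp [t] at this
    have e0 : GM s w0 ↔ ∀ᶠ x in (T k : Filter (ℕ → D)), M s (ev1 x ∘ v) :=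
      gc_row_typ hC hM hB d0 (Sum.inl k : κ) j v hv
    have e1 : GM s w1 ↔ ∀ᶠ x in (T k : Filter (ℕ → D)), ∀ᶠ y in (T k : Filter (ℕ → D)),
        M s (ev1 (mix u x y) ∘ v) :=
      gc_two_typ hC hM hB d0 (Sum.inl k : κ) (by omega : j ≠ j + 1) u v hv
    rw [← e0, ← e1, hrep w0 hw0live hw0v ht0, hrep w1 hw1live hw1v ht1]
    -- the tuples in the small structure
    have hmem : ∀ c, insRow φ w0 t (fun i : Fin j0 => (i : ℕ)) c ∈ cpX (A₀ : Set D) (xs S) B := by
      intro c
      rcases hφ : φ c with _ | i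
      · simp only [insRow, hφ]
        rcases hvc : v c with d' | a'
        · left
          refine ⟨d', ?_, by simp [w0, hvc]⟩
          exact hφ1 c d' (by simp [hvc]) hφ
        · right
          exact ⟨Sum.inl k, j, a', Or.inl ⟨k, hk, rfl⟩, hv c a' hvc, by simp [w0, hvc]⟩
      · simp only [insRow, hφ]
        exact Or.inr ⟨Sum.inr q, 0, i, Or.inr ⟨q, rfl⟩, i.2, rfl⟩
    let z : Fin (ar s) → cpX (A₀ : Set D) (xs S) B := fun c =>
      ⟨insRow φ w0 t (fun i : Fin j0 => (i : ℕ)) c, hmem c⟩
    have hjj : j ≠ j + 1 := by omega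
    have hrf := cpRow_finite (P := (A₀ : Set D)) (x := xs S) hBf (Sum.inl k) j
    have hauto : Auto (G : Set Y) (NN S) (restr (cpSw (Sum.inl k : κ) j (j + 1)) (P : Set _)) :=
      auto_restr hrf hPr hPs (cpRow_swp hC hM hB (Sum.inl k) j _)
        (cpSw_auto hC hM hB (Sum.inl k) j (j + 1) _) (cpSw_disp hjj)
    have h1 := hauto s hs z
    have h2 : NN S s z ↔ GM s (insRow φ w0 t fun i : Fin j0 => (i : ℕ)) := Iff.rfl
    have h3 : Subtype.val ∘ (restr (cpSw (Sum.inl k : κ) j (j + 1)) (P : Set _) ∘ z) =
        insRow φ w1 t fun i : Fin j0 => (i : ℕ) := by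
      funext c
      show (restr (cpSw (Sum.inl k : κ) j (j + 1)) (P : Set _) (z c)).1 = _
      rcases hφ : φ c with _ | i
      · rcases hvc : v c with d' | a'
        · have hz : (z c).1 = Sum.inl d' := by
            show insRow φ w0 t _ c = _
            simp only [insRow, hφ, w0, hvc, Sum.map_inl, id]
          have hnP : ∀ e : cpX (A₀ : Set D) (xs S) B, e.1 = Sum.inl d' → e ∉ (P : Set _) := by
            intro e he heP
            obtain ⟨a, ha⟩ := hPr heP
            rw [he] at ha
            simp at ha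
          rw [restr_of_not (hnP _ hz) (hnP _ (cpSw_val_inl hz)), hz]
          simp only [insRow, hφ, w1, twoRow, hvc, Sum.map_inl, id]
        · have hz : (z c).1 = Sum.inr ((Sum.inl k, j), a') := by
            show insRow φ w0 t _ c = _
            simp only [insRow, hφ, w0, hvc, Sum.map_inr]
          have hnP : cpSw (Sum.inl k : κ) j (j + 1) (z c) ∉ (P : Set _) := by
            intro h
            obtain ⟨a, ha⟩ := hPr h
            rw [cpSw_val_inr hz, xk_left] at ha
            simp at ha
          by_cases hzP : z c ∈ (P : Set _)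
          · have hau : a' ∈ u := ⟨z c, hzP, hz⟩
            rw [restr_of_mem hzP, cpSw_val_inr hz, xk_left]
            simp only [insRow, hφ, w1, twoRow, hvc, Sum.map_inr, hau, if_true]
          · have hau : a' ∉ u := by
              rintro ⟨e, he, hea⟩
              have : z c = e := Subtype.ext (by rw [hz, hea])
              exact hzP (this ▸ he)
            rw [restr_of_not hzP hnP, hz]
            simp only [insRow, hφ, w1, twoRow, hvc, Sum.map_inr, hau, if_false]
      · have hz : (z c).1 = Sum.inr ((Sum.inr q, 0), (i : ℕ)) := by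
          show insRow φ w0 t _ c = _
          simp only [insRow, hφ, t]
        have hzP : z c ∉ (P : Set _) := by
          intro h
          obtain ⟨a, ha⟩ := hPr h
          rw [hz] at ha
          simp at ha
        have hzP' : cpSw (Sum.inl k : κ) j (j + 1) (z c) ∉ (P : Set _) := by
          intro h
          obtain ⟨a, ha⟩ := hPr h
          rw [cpSw_val_inr hz, xk_ne (by simp) (by simp)] at ha
          simp at ha
        rw [restr_of_not hzP hzP', hz]
        simp only [insRow, hφ, t]
    have h4 : NN S s (restr (cpSw (Sum.inl k : κ) j (j + 1)) (P : Set _) ∘ z) ↔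
        GM s (insRow φ w1 t fun i : Fin j0 => (i : ℕ)) := by
      show GM s (Subtype.val ∘ _) ↔ _
      rw [h3]
    rw [← h2, ← h4]
    exact h1.symm
  -- decoding
  apply hK
  refine wild_of_phiB K (G : Set Y) sz sz fun S h0 => ?_
  refine ⟨cpX (A₀ : Set D) (xs S) B, ?_, ?_, NN S, cpN_mem hM hB, fun t => ⟨fun hΦ => ?_,
    fun ht => ?_⟩⟩
  · have : (cpX (A₀ : Set D) (xs S) B).Countable := by
      have h1 : cpX (A₀ : Set D) (xs S) B ⊆ (Sum.inl '' (A₀ : Set D)) ∪ range Sum.inr := by
        rintro e (⟨d, hd, rfl⟩ | ⟨k, j, a, -, -, rfl⟩)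
        · exact Or.inl ⟨d, hd, rfl⟩
        · exact Or.inr ⟨_, rfl⟩
      exact ((A₀.countable_toSet.image _).union (Set.countable_range _)).mono h1
    exact this.to_subtype
  · refine Infinite.of_injective (fun j : ℕ => (⟨Sum.inr ((Sum.inl 0, j), 0),
      Or.inr ⟨Sum.inl 0, j, 0, Or.inl ⟨0, h0, rfl⟩, (by
        show (0 : ℕ) < sz 0
        omega), rfl⟩⟩ : cpX (A₀ : Set D) (xs S) B)) ?_
    intro j j' h
    have h1 := congrArg Subtype.val h
    simpa using h1
  · have hcst : {e : cpX (A₀ : Set D) (xs S) B | ∃ d ∈ A₀, e.1 = Sum.inl d}.Finite := by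
      have h1 : (Sum.inl '' (A₀ : Set D) : Set (D ⊕ (κ × ℕ) × ℕ)).Finite :=
        A₀.finite_toSet.image _
      refine (h1.preimage (f := (Subtype.val : cpX (A₀ : Set D) (xs S) B → _))
        Subtype.val_injective.injOn).subset ?_
      rintro e ⟨d, hd, he⟩
      exact ⟨d, hd, he.symm⟩
    obtain ⟨y, hy, P, hP, hlo, hhi⟩ := hΦ hcst.toFinset
    have hy' : ¬ ∃ d ∈ A₀, y.1 = Sum.inl d := by
      intro h
      exact hy (by rw [Set.Finite.mem_toFinset]; exact h)
    obtain ⟨k, j, a, hk, -, hya⟩ : ∃ k j a, k ∈ xs S ∧ a ∈ B k ∧ y.1 = Sum.inr ((k, j), a) := by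
      rcases y.2 with ⟨d, hd, h⟩ | h
      · exact absurd ⟨d, hd, h⟩ hy'
      · exact h
    have hrf := cpRow_finite (P := (A₀ : Set D)) (x := xs S) hBf k j
    have hrs : Swp (G : Set Y) (NN S) (hrf.toFinset : Set _) := by
      rw [Set.Finite.coe_toFinset]
      exact cpRow_swp hC hM hB k j _
    obtain ⟨P', hP', hPr'⟩ := exists_isBlk (y := y) (by
      rw [Set.Finite.mem_toFinset]
      exact ⟨a, hya⟩) hrs
    have hPP : P = P' := hP.unique hP'
    rw [← hPP] at hPr'
    have hPr : (P : Set _) ⊆ cpRow (A₀ : Set D) (xs S) B k j := by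
      intro e he
      have := hPr' he
      rwa [Set.Finite.mem_toFinset] at this
    have hcard : P.card ≤ (hBf k).toFinset.card := by
      have h' : ∀ e : P, ∃ a : (hBf k).toFinset, e.1.1 = Sum.inr ((k, j), a.1) := by
        intro e
        obtain ⟨a, ha⟩ := hPr e.2
        exact ⟨⟨a, by rw [Set.Finite.mem_toFinset]; exact (cpX_inr ha).2⟩, ha⟩
      choose f hf using h'
      have : Fintype.card P ≤ Fintype.card (hBf k).toFinset := by
        refine Fintype.card_le_of_injective f fun e e' h => ?_
        apply Subtype.ext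
        apply Subtype.ext
        rw [hf e, hf e', h]
      rwa [Fintype.card_coe, Fintype.card_coe] at this
    rcases k with k | q
    · have hkS : k ∈ S := by
        rcases hk with ⟨k', hk', h⟩ | ⟨q, h⟩
        · have : k' = k := Sum.inl_injective h
          rw [← this]; exact hk'
        · simp at h
      have hfull := main S k j hkS P ⟨y, hP.1⟩ hPr hP.2.1
      have hcard2 : sz k ≤ P.card := by
        have h1 : ∀ a : Fin (sz k), (⟨Sum.inr ((Sum.inl k, j), (a : ℕ)),
            Or.inr ⟨Sum.inl k, j, a, hk, a.2, rfl⟩⟩ : cpX (A₀ : Set D) (xs S) B) ∈ P := by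
          intro a
          have : (⟨Sum.inr ((Sum.inl k, j), (a : ℕ)),
            Or.inr ⟨Sum.inl k, j, a, hk, a.2, rfl⟩⟩ : cpX (A₀ : Set D) (xs S) B) ∈ (P : Set _) := by
            rw [hfull]
            exact ⟨a, rfl⟩
          exact this
        have h2 : Fintype.card (Fin (sz k)) ≤ Fintype.card P := by
          refine Fintype.card_le_of_injective (fun a : Fin (sz k) => (⟨_, h1 a⟩ : P)) ?_
          intro a a' h
          have h3 := congrArg (fun e : P => e.1.1) h
          simp only [Sum.inr.injEq, Prod.mk.injEq, true_and] at h3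
          exact Fin.ext h3
        rwa [Fintype.card_coe, Fintype.card_fin] at h2
      have hcard3 : (hBf (Sum.inl k)).toFinset.card = sz k := by
        have : (hBf (Sum.inl k)).toFinset = Finset.range (sz k) := by
          ext a
          rw [Set.Finite.mem_toFinset, Finset.mem_range]
          exact Iff.rfl
        rw [this, Finset.card_range]
      have : sz t = sz k := by omega
      rw [hsz.injective this]
      exact hkS
    · exfalso
      have hcard3 : (hBf (Sum.inr q)).toFinset.card ≤ r := by
        have : (hBf (Sum.inr q)).toFinset = Finset.range (q.1 : ℕ) := by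
          ext a
          rw [Set.Finite.mem_toFinset, Finset.mem_range]
          exact Iff.rfl
        rw [this, Finset.card_range]
        exact Nat.lt_succ_iff.mp q.1.2
      have h5 : sz 0 ≤ sz t := hsz.monotone (Nat.zero_le t)
      omega
  · intro F
    have htx : (Sum.inl t : κ) ∈ xs S := Or.inl ⟨t, ht, rfl⟩
    obtain ⟨j, hj⟩ := (cp_missing (F.finite_toSet) (Sum.inl t : κ)).exists_notMem
    have hszt : 0 < sz t := by
      have := hsz.monotone (Nat.zero_le t)
      omega
    let y : cpX (A₀ : Set D) (xs S) B := ⟨Sum.inr ((Sum.inl t, j), 0),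
      Or.inr ⟨Sum.inl t, j, 0, htx, hszt, rfl⟩⟩
    have hrf := cpRow_finite (P := (A₀ : Set D)) (x := xs S) hBf (Sum.inl t) j
    have hrs : Swp (G : Set Y) (NN S) (hrf.toFinset : Set _) := by
      rw [Set.Finite.coe_toFinset]
      exact cpRow_swp hC hM hB (Sum.inl t) j _
    obtain ⟨P, hP, hPr'⟩ := exists_isBlk (y := y) (by
      rw [Set.Finite.mem_toFinset]
      exact ⟨0, rfl⟩) hrs
    have hPr : (P : Set _) ⊆ cpRow (A₀ : Set D) (xs S) B (Sum.inl t) j := by
      intro e he
      have := hPr' he
      rwa [Set.Finite.mem_toFinset] at this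
    have hfull := main S t j ht P ⟨y, hP.1⟩ hPr hP.2.1
    have hcard : P.card = sz t := by
      apply le_antisymm
      · have h' : ∀ e : P, ∃ a : Fin (sz t), e.1.1 = Sum.inr ((Sum.inl t, j), (a : ℕ)) := by
          intro e
          obtain ⟨a, ha⟩ := hPr e.2
          exact ⟨⟨a, (cpX_inr ha).2⟩, ha⟩
        choose f hf using h'
        have : Fintype.card P ≤ Fintype.card (Fin (sz t)) := by
          refine Fintype.card_le_of_injective f fun e e' h => ?_
          apply Subtype.ext
          apply Subtype.ext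
          rw [hf e, hf e', h]
        rwa [Fintype.card_coe, Fintype.card_fin] at this
      · have h1 : ∀ a : Fin (sz t), (⟨Sum.inr ((Sum.inl t, j), (a : ℕ)),
            Or.inr ⟨Sum.inl t, j, a, htx, a.2, rfl⟩⟩ : cpX (A₀ : Set D) (xs S) B) ∈ P := by
          intro a
          have : (⟨Sum.inr ((Sum.inl t, j), (a : ℕ)),
            Or.inr ⟨Sum.inl t, j, a, htx, a.2, rfl⟩⟩ : cpX (A₀ : Set D) (xs S) B) ∈
              (P : Set _) := by
            rw [hfull]
            exact ⟨a, rfl⟩
          exact this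
        have h2 : Fintype.card (Fin (sz t)) ≤ Fintype.card P := by
          refine Fintype.card_le_of_injective (fun a : Fin (sz t) => (⟨_, h1 a⟩ : P)) ?_
          intro a a' h
          have h3 := congrArg (fun e : P => e.1.1) h
          simp only [Sum.inr.injEq, Prod.mk.injEq, true_and] at h3
          exact Fin.ext h3
        rwa [Fintype.card_coe, Fintype.card_fin] at h2
    exact ⟨y, fun hyF => hj ⟨y, hyF, 0, rfl⟩, P, hP, hcard.ge, hcard.le⟩

/-- **Indecomposable types have bounded size.** -/
theorem indec_bounded [Countable Y] {K : HC ar} (hK : ¬ Wild {c : Sp ar | K.mem (toSt c)})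
    (hC : Comm K) {M : St ar D} (hM : K.mem M) (G : Finset Y) :
    ∃ b : ℕ, ∀ (A : Type) (B : Set A) (V : Ultrafilter (A → D)), B.Finite → Disj V B →
      Indec (G : Set Y) M V B → B.ncard ≤ b := by
  classical
  rcases isEmpty_or_nonempty D with hD | hD
  · refine ⟨0, fun A B V hB hV hI => ?_⟩
    obtain ⟨x, -⟩ := V.nonempty_of_mem Filter.univ_mem
    have : B = ∅ := by
      rw [Set.eq_empty_iff_forall_notMem]
      intro a _
      exact hD.false (x a)
    rw [this, Set.ncard_empty]
  · by_contra hcon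
    push Not at hcon
    let r : ℕ := G.sup ar
    have hr : ∀ s ∈ G, ar s ≤ r := fun s hs => Finset.le_sup hs
    choose AA BB VV hf hd hi hb using hcon
    let bs : ℕ → ℕ := fun k => Nat.rec r (fun _ b => (BB b).ncard) k
    have hbs : ∀ k, bs (k + 1) = (BB (bs k)).ncard := fun _ => rfl
    let sz : ℕ → ℕ := fun k => (BB (bs k)).ncard
    have hszs : StrictMono sz := by
      refine strictMono_nat_of_lt_succ fun k => ?_
      show (BB (bs k)).ncard < (BB (bs (k + 1))).ncard
      rw [← hbs k]
      exact hb _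
    have hsz0 : r < sz 0 := hb r
    let d0 : D := Classical.arbitrary D
    have he : ∀ k, Nonempty (Fin (sz k) ≃ BB (bs k)) := by
      intro k
      have : Finite (BB (bs k)) := hf _
      have h1 : Nat.card (BB (bs k)) = sz k := (Nat.card_coe_set_eq _)
      exact ⟨(Finite.equivFinOfCardEq h1).symm⟩
    have hee : ∀ k, Fin (sz k) ≃ BB (bs k) := fun k => Classical.choice (he k)
    let pd : (k : ℕ) → (AA (bs k) → D) → ℕ → D := fun k y n =>
      if h : n < sz k then y ((hee k) ⟨n, h⟩ : AA (bs k)) else d0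
    let T : ℕ → Ultrafilter (ℕ → D) := fun k => (VV (bs k)).map (pd k)
    have hpad : ∀ k (y : AA (bs k) → D) n (h : n < sz k), pd k y n = y ((hee k) ⟨n, h⟩) := by
      intro k y n h
      simp only [pd, h, dif_pos]
    refine indec_bounded_aux (D := D) hK hC hM G r hr T sz hszs hsz0 (fun k => ?_) fun k => ?_
    · constructor
      · intro n hn d
        show ∀ᶠ y in (VV (bs k) : Filter (AA (bs k) → D)), pd k y n ≠ d
        refine ((hd (bs k)).1 _ ((hee k) ⟨n, hn⟩).2 d).mono fun y hy => ?_
        rw [hpad k y n hn]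
        exact hy
      · intro n hn n' hn' hne
        show ∀ᶠ y in (VV (bs k) : Filter (AA (bs k) → D)), pd k y n ≠ pd k y n'
        refine ((hd (bs k)).2 _ ((hee k) ⟨n, hn⟩).2 _ ((hee k) ⟨n', hn'⟩).2 fun h => hne ?_).mono
          fun y hy => ?_
        · have := (hee k).injective (Subtype.ext h)
          exact congrArg Fin.val this
        · rw [hpad k y n hn, hpad k y n' hn']
          exact hy
    · intro u hu hune hune' hsp
      -- transport to the original coordinates
      let u' : Set (AA (bs k)) := {a | ∃ n : Fin (sz k), (n : ℕ) ∈ u ∧ ((hee k) n : AA (bs k)) = a}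
      have hmem : ∀ n : Fin (sz k), ((hee k) n : AA (bs k)) ∈ u' ↔ (n : ℕ) ∈ u := by
        intro n
        constructor
        · rintro ⟨n', h1, h2⟩
          have := (hee k).injective (Subtype.ext h2)
          rwa [← this]
        · intro h
          exact ⟨n, h, rfl⟩
      refine hi (bs k) u' ?_ ?_ ?_ ?_
      · rintro a ⟨n, -, rfl⟩
        exact ((hee k) n).2
      · obtain ⟨n, hn⟩ := hune
        exact ⟨_, ⟨n, hu hn⟩, hn, rfl⟩
      · intro h
        apply hune'
        refine Set.Subset.antisymm hu fun n hn => ?_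
        have h1 : ((hee k) ⟨n, hn⟩ : AA (bs k)) ∈ u' := by
          rw [h]
          exact ((hee k) ⟨n, hn⟩).2
        exact (hmem ⟨n, hn⟩).mp h1
      · intro s hs v hv
        have h1 : ∀ c, ∃ q : D ⊕ Fin (sz k), Sum.map id (fun n => ((hee k) n : AA (bs k))) q = v c := by
          intro c
          rcases hvc : v c with d | a
          · exact ⟨Sum.inl d, rfl⟩
          · refine ⟨Sum.inr ((hee k).symm ⟨a, hv c a hvc⟩), ?_⟩
            simp
        choose q hq using h1
        let v' : Fin (ar s) → D ⊕ ℕ := fun c => Sum.map id Fin.val (q c)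
        have h2 := hsp s hs v' (by
          intro c a hc
          rcases hqc : q c with d | n
          · simp [v', hqc] at hc
          · simp only [v', hqc, Sum.map_inr, Sum.inr.injEq] at hc
            rw [← hc]
            exact n.2)
        have h3 : ∀ y : AA (bs k) → D, ev1 (pd k y) ∘ v' = ev1 y ∘ v := by
          intro y
          funext c
          show ev1 (pd k y) (Sum.map id Fin.val (q c)) = ev1 y (v c)
          rw [← hq c]
          rcases q c with d | n
          · rfl
          · show pd k y (n : ℕ) = _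
            rw [hpad k y n n.2]
            rfl
        have h4 : ∀ y z : AA (bs k) → D,
            ev1 (mix u (pd k y) (pd k z)) ∘ v' = ev1 (mix u' y z) ∘ v := by
          intro y z
          funext c
          show ev1 (mix u (pd k y) (pd k z)) (Sum.map id Fin.val (q c)) = ev1 (mix u' y z) (v c)
          rw [← hq c]
          rcases q c with d | n
          · rfl
          · show mix u (pd k y) (pd k z) (n : ℕ) = mix u' y z ((hee k) n)
            by_cases hn : (n : ℕ) ∈ u
            · rw [mix_mem hn, mix_mem ((hmem n).mpr hn), hpad k y n n.2]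
            · rw [mix_not hn, mix_not (fun h => hn ((hmem n).mp h)), hpad k z n n.2]
        have h5 : (∀ᶠ x in (T k : Filter (ℕ → D)), M s (ev1 x ∘ v')) ↔
            ∀ᶠ y in (VV (bs k) : Filter (AA (bs k) → D)), M s (ev1 y ∘ v) := by
          show (∀ᶠ y in (VV (bs k) : Filter (AA (bs k) → D)), M s (ev1 (pd k y) ∘ v')) ↔ _
          exact ev_congr fun y => by rw [h3 y]
        have h6 : (∀ᶠ x in (T k : Filter (ℕ → D)), ∀ᶠ y in (T k : Filter (ℕ → D)),
            M s (ev1 (mix u x y) ∘ v')) ↔
            ∀ᶠ y in (VV (bs k) : Filter (AA (bs k) → D)),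
              ∀ᶠ z in (VV (bs k) : Filter (AA (bs k) → D)), M s (ev1 (mix u' y z) ∘ v) := by
          show (∀ᶠ y in (VV (bs k) : Filter (AA (bs k) → D)),
              ∀ᶠ z in (VV (bs k) : Filter (AA (bs k) → D)),
                M s (ev1 (mix u (pd k y) (pd k z)) ∘ v')) ↔ _
          exact ev_congr fun y => ev_congr fun z => by rw [h4 y z]
        rw [h5, h6] at h2
        exact h2

end Pool.Agent.Helper6.VU
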