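import Pool.Agent.Helper6.V7Par

/-!
# Rows with infinitely many copies
-/

set_option autoImplicit false

namespace Pool.Agent.Helper6.VU

open Set Filter

variable {Y : Type} {ar : Y → ℕ} {D A ρ : Type}

theorem GC_congr_U {K : HC ar} {M : St ar D} {U U' : ρ → Ultrafilter (A → D)} {B : ρ → Set A}
    (hC : Comm K) (hM : K.mem M)
    (hB : ∀ r, Disj (U r) (B r)) (hB' : ∀ r, Disj (U' r) (B r)) {g₀ g₀' : ρ → A → D} {s : Y}
    {w : Fin (ar s) → D ⊕ ρ × A} (hw : LiveT B w) (h : ∀ r ∈ rowsOf w, U r = U' r) :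
    GC U g₀ M s w ↔ GC U' g₀' M s w := by
  classical
  obtain ⟨l, hnd, hlm⟩ : ∃ l : List ρ, l.Nodup ∧ ∀ r, r ∈ l ↔ r ∈ rowsOf w := by
    refine ⟨(finite_rowsOf w).toFinset.toList, Finset.nodup_toList _, fun r => by simp⟩
  rw [GC_eval hC hM hB hw hnd (fun r hr => (hlm r).mpr hr) g₀',
    GC_eval hC hM hB' hw hnd (fun r hr => (hlm r).mpr hr) g₀']
  have : nf U l g₀' = nf U' l g₀' :=
    congrArg (fun F : Ultrafilter (ρ → A → D) => (F : Filter (ρ → A → D)))
      (NU_congr_U (fun r hr => h r ((hlm r).mp hr)) g₀')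
  rw [this]

/-- Insert a row in place of some old elements. -/
def insRow {n j : ℕ} (φ : Fin n → Option (Fin j)) (w : Fin n → D ⊕ ρ × A) (t : ρ)
    (ι : Fin j → A) : Fin n → D ⊕ ρ × A :=
  fun c => match φ c with
    | none => w c
    | some i => Sum.inr (t, ι i)

theorem GC_addrow {K : HC ar} {M : St ar D} {U : ρ → Ultrafilter (A → D)} {B : ρ → Set A}
    (hC : Comm K) (hM : K.mem M)
    (hB : ∀ r, Disj (U r) (B r)) {g₀ : ρ → A → D} {s : Y} {j : ℕ}
    {w : Fin (ar s) → D ⊕ ρ × A} (hw : LiveT B w) {t : ρ} (ht : t ∉ rowsOf w)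
    (φ : Fin (ar s) → Option (Fin j)) (ι : Fin j → A) (hι : ∀ i, ι i ∈ B t) :
    GC U g₀ M s (insRow φ w t ι) ↔
      ∀ᶠ z in (U t : Filter (A → D)), GC U g₀ M s (sbs φ w (z ∘ ι)) := by
  classical
  obtain ⟨l, hnd, hlm⟩ : ∃ l : List ρ, l.Nodup ∧ ∀ r, r ∈ l ↔ r ∈ rowsOf w := by
    refine ⟨(finite_rowsOf w).toFinset.toList, Finset.nodup_toList _, fun r => by simp⟩
  have htl : t ∉ l := fun h => ht ((hlm t).mp h)
  have hlive : LiveT B (insRow φ w t ι) := by
    intro c r a hc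
    rcases hφ : φ c with _ | i
    · simp only [insRow, hφ] at hc
      exact hw c r a hc
    · simp only [insRow, hφ, Sum.inr.injEq, Prod.mk.injEq] at hc
      rw [← hc.1, ← hc.2]
      exact hι i
  have hrows : rowsOf (insRow φ w t ι) ⊆ {r | r ∈ t :: l} := by
    rintro r ⟨c, a, hc⟩
    rcases hφ : φ c with _ | i
    · simp only [insRow, hφ] at hc
      have : r ∈ l := (hlm r).mpr ⟨c, a, hc⟩
      simp [this]
    · simp only [insRow, hφ, Sum.inr.injEq, Prod.mk.injEq] at hc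
      simp [hc.1]
  rw [GC_eval hC hM hB hlive (List.nodup_cons.mpr ⟨htl, hnd⟩) hrows g₀, NU_cons]
  refine ev_congr fun z => ?_
  have hlive2 : LiveT B (sbs φ w (z ∘ ι)) := by
    intro c r a hc
    rcases hφ : φ c with _ | i
    · simp only [sbs, hφ] at hc
      exact hw c r a hc
    · simp [sbs, hφ] at hc
  have hrows2 : rowsOf (sbs φ w (z ∘ ι)) ⊆ {r | r ∈ l} := by
    rintro r ⟨c, a, hc⟩
    rcases hφ : φ c with _ | i
    · simp only [sbs, hφ] at hc
      exact (hlm r).mpr ⟨c, a, hc⟩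
    · simp [sbs, hφ] at hc
  rw [GC_eval hC hM hB hlive2 hnd hrows2 (upd g₀ t z)]
  have h1 := NU_off (U := U) htl (upd g₀ t z)
  refine Filter.eventually_congr (h1.mono fun g' hg' => ?_)
  rw [upd_same] at hg'
  have : ev g' ∘ insRow φ w t ι = ev g' ∘ sbs φ w (z ∘ ι) := by
    funext c
    show ev g' (insRow φ w t ι c) = ev g' (sbs φ w (z ∘ ι) c)
    rcases hφ : φ c with _ | i
    · simp only [insRow, sbs, hφ]
    · simp only [insRow, sbs, hφ, ev_inr, ev_inl, hg', Function.comp]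
  rw [this]

section Copies

variable {κ : Type} {P : Set D} {x : Set κ} {B : κ → Set A}

/-- The elements of `P` and of all the copies of the rows in `x`. -/
def cpX (P : Set D) (x : Set κ) (B : κ → Set A) : Set (D ⊕ (κ × ℕ) × A) :=
  {e | (∃ d ∈ P, e = Sum.inl d) ∨ ∃ k j a, k ∈ x ∧ a ∈ B k ∧ e = Sum.inr ((k, j), a)}

/-- The structure on `cpX`. -/
noncomputable def cpN (U : κ → Ultrafilter (A → D)) (d0 : D) (M : St ar D) (P : Set D)
    (x : Set κ) (B : κ → Set A) : St ar (cpX P x B) :=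
  pull Subtype.val (GC (fun r : κ × ℕ => U r.1) (fun _ _ => d0) M)

theorem cpX_live : cpX P x B ⊆ live fun r : κ × ℕ => B r.1 := by
  rintro e (⟨d, -, rfl⟩ | ⟨k, j, a, -, ha, rfl⟩) r a' h
  · simp at h
  · simp only [Sum.inr.injEq, Prod.mk.injEq] at h
    rw [← h.1, ← h.2]
    exact ha

theorem cpX_inr {e : cpX P x B} {k : κ} {j : ℕ} {a : A} (h : e.1 = Sum.inr ((k, j), a)) :
    k ∈ x ∧ a ∈ B k := by
  rcases e.2 with ⟨d, -, hd⟩ | ⟨k', j', a', h1, h2, h3⟩
  · rw [h] at hd; simp at hd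
  · rw [h] at h3
    simp only [Sum.inr.injEq, Prod.mk.injEq] at h3
    rw [h3.1.1, h3.2]
    exact ⟨h1, h2⟩

theorem cp_liveT {n : ℕ} (w : Fin n → cpX P x B) :
    LiveT (fun r : κ × ℕ => B r.1) (Subtype.val ∘ w) :=
  fun c r a h => cpX_live (w c).2 r a h

/-- A row. -/
def cpRow (P : Set D) (x : Set κ) (B : κ → Set A) (k : κ) (j : ℕ) : Set (cpX P x B) :=
  {e | ∃ a, e.1 = Sum.inr ((k, j), a)}

/-- The exchange of two copies. -/
noncomputable def xk (k : κ) (j j' : ℕ) : κ × ℕ → κ × ℕ :=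
  open Classical in Equiv.swap (k, j) (k, j')


theorem xk_left (k : κ) (j j' : ℕ) : xk k j j' (k, j) = (k, j') := by
  classical
  unfold xk
  exact Equiv.swap_apply_left _ _

theorem xk_right (k : κ) (j j' : ℕ) : xk k j j' (k, j') = (k, j) := by
  classical
  unfold xk
  exact Equiv.swap_apply_right _ _

theorem xk_ne {k : κ} {j j' : ℕ} {r : κ × ℕ} (h : r ≠ (k, j)) (h' : r ≠ (k, j')) :
    xk k j j' r = r := by
  classical
  unfold xk
  exact Equiv.swap_apply_of_ne_of_ne h h'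

theorem xk_inv (k : κ) (j j' : ℕ) (r : κ × ℕ) : xk k j j' (xk k j j' r) = r := by
  classical
  unfold xk
  exact Equiv.swap_apply_self _ _ _

theorem xk_fst (k : κ) (j j' : ℕ) (r : κ × ℕ) : (xk k j j' r).1 = r.1 := by
  by_cases h1 : r = (k, j)
  · rw [h1, xk_left]
  · by_cases h2 : r = (k, j')
    · rw [h2, xk_right]
    · rw [xk_ne h1 h2]

/-- The exchange of two copies on the structure. -/
noncomputable def cpSw (k : κ) (j j' : ℕ) (e : cpX P x B) : cpX P x B :=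
  ⟨rmap (xk k j j') e.1, by
    rcases e.2 with ⟨d, hd, hc⟩ | ⟨k', j1, a, h1, h2, h3⟩
    · left; exact ⟨d, hd, by rw [hc]; rfl⟩
    · right
      refine ⟨(xk k j j' (k', j1)).1, (xk k j j' (k', j1)).2, a, ?_, ?_, by rw [h3]; rfl⟩
      · rw [xk_fst]; exact h1
      · rw [xk_fst]; exact h2⟩

theorem cpSw_val_inr {k : κ} {j j' : ℕ} {e : cpX P x B} {r : κ × ℕ} {a : A}
    (h : e.1 = Sum.inr (r, a)) : (cpSw k j j' e).1 = Sum.inr (xk k j j' r, a) := by
  show rmap _ e.1 = _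
  rw [h]
  rfl

theorem cpSw_val_inl {k : κ} {j j' : ℕ} {e : cpX P x B} {d : D}
    (h : e.1 = Sum.inl d) : (cpSw k j j' e).1 = Sum.inl d := by
  show rmap _ e.1 = _
  rw [h]
  rfl

theorem cpSw_disp {k : κ} {j j' : ℕ} (hj : j ≠ j') :
    Disp (cpSw k j j') (cpRow P x B k j) where
  inv e := by
    apply Subtype.ext
    show rmap _ (rmap _ e.1) = e.1
    rcases e.1 with d | ⟨r, q⟩
    · rfl
    · show Sum.inr (xk k j j' (xk k j j' r), q) = _
      rw [xk_inv]
  off := by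
    rintro e ⟨q, hq⟩ ⟨q', hq'⟩
    rw [cpSw_val_inr hq] at hq'
    simp only [Sum.inr.injEq, Prod.mk.injEq] at hq'
    have := hq'.1
    rw [xk_left] at this
    exact hj (Prod.ext_iff.mp this).2.symm
  fix := by
    intro e h1 h2
    apply Subtype.ext
    rcases he : e.1 with d | ⟨r, q⟩
    · exact cpSw_val_inl he
    · rw [cpSw_val_inr he]
      have h3 : r ≠ (k, j) := fun h => h1 ⟨q, by rw [he, h]⟩
      have h4 : r ≠ (k, j') := by
        intro h
        apply h2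
        refine ⟨q, ?_⟩
        rw [cpSw_val_inr he, h, xk_right]
      rw [xk_ne h3 h4]

variable {K : HC ar} {M : St ar D} {U : κ → Ultrafilter (A → D)} {d0 : D}

theorem cpN_mem (hM : K.mem M) (hB : ∀ k, Disj (U k) (B k)) : K.mem (cpN U d0 M P x B) :=
  GC_mem K (B := fun r : κ × ℕ => B r.1) (fun r => hB r.1) hM cpX_live

theorem cpSw_auto (hC : Comm K) (hM : K.mem M) (hB : ∀ k, Disj (U k) (B k)) (k : κ) (j j' : ℕ)
    (G : Set Y) : Auto G (cpN U d0 M P x B) (cpSw k j j') := by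
  intro s' _ w
  exact GC_rmap (K := K) (U := fun r : κ × ℕ => U r.1) (B := fun r : κ × ℕ => B r.1) hC hM
    (fun r => hB r.1) (g₀ := fun _ _ => d0) (s := s')
    (w := Subtype.val ∘ w) (cp_liveT w) (σ := xk k j j')
    (fun r _ r' _ h => by rw [← xk_inv k j j' r, h, xk_inv])
    (fun r _ => by rw [xk_fst]) (fun r _ => by rw [xk_fst])

theorem cp_missing {F : Set (cpX P x B)} (hF : F.Finite) (k : κ) :
    {j' | ∃ e ∈ F, ∃ q, e.1 = Sum.inr ((k, j'), q)}.Finite := by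
  have h2 : (⋃ e ∈ F, {j' | ∃ q, e.1 = Sum.inr ((k, j'), q)}).Finite := by
    refine hF.biUnion fun e _ => Set.Subsingleton.finite ?_
    rintro j1 ⟨q1, h1⟩ j2 ⟨q2, h2⟩
    rw [h1] at h2
    simp only [Sum.inr.injEq, Prod.mk.injEq, true_and] at h2
    exact h2.1
  refine h2.subset ?_
  rintro j' ⟨e, he, hq⟩
  exact Set.mem_iUnion₂.mpr ⟨e, he, hq⟩

theorem cpRow_swp (hC : Comm K) (hM : K.mem M) (hB : ∀ k, Disj (U k) (B k)) (k : κ) (j : ℕ)
    (G : Set Y) : Swp G (cpN U d0 M P x B) (cpRow P x B k j) := by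
  intro F hF
  obtain ⟨j', hj'⟩ := ((cp_missing hF k).union (Set.finite_singleton j)).exists_notMem
  have hjj : j ≠ j' := fun h => hj' (Or.inr h.symm)
  refine ⟨cpSw k j j', cpSw_auto hC hM hB k j j' G, cpSw_disp hjj, ?_⟩
  rintro e ⟨q, hq⟩ heF
  apply hj'
  left
  refine ⟨_, heF, q, ?_⟩
  rw [cpSw_val_inr hq, xk_left]

theorem cpRow_finite (hBf : ∀ k, (B k).Finite) (k : κ) (j : ℕ) : (cpRow P x B k j).Finite := by
  have h1 : ((fun a => (Sum.inr ((k, j), a) : D ⊕ (κ × ℕ) × A)) '' (B k)).Finite :=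
    (hBf k).image _
  refine (h1.preimage (f := (Subtype.val : cpX P x B → _)) Subtype.val_injective.injOn).subset ?_
  rintro e ⟨a, ha⟩
  exact ⟨a, (cpX_inr ha).2, ha.symm⟩

end Copies

/-- Mixing two rows. -/
noncomputable def mix (u : Set A) (x y : A → D) (a : A) : D :=
  open Classical in if a ∈ u then x a else y a

theorem mix_mem {u : Set A} {x y : A → D} {a : A} (h : a ∈ u) : mix u x y a = x a := by
  unfold mix; rw [if_pos h]

theorem mix_not {u : Set A} {x y : A → D} {a : A} (h : a ∉ u) : mix u x y a = y a := by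
  unfold mix; rw [if_neg h]

/-- The type splits as a product. -/
def Splits (G : Set Y) (M : St ar D) (V : Ultrafilter (A → D)) (B u : Set A) : Prop :=
  ∀ s ∈ G, ∀ v : Fin (ar s) → D ⊕ A, (∀ c a, v c = Sum.inr a → a ∈ B) →
    ((∀ᶠ x in (V : Filter (A → D)), M s (ev1 x ∘ v)) ↔
      ∀ᶠ x in (V : Filter (A → D)), ∀ᶠ y in (V : Filter (A → D)), M s (ev1 (mix u x y) ∘ v))

/-- The type does not split. -/
def Indec (G : Set Y) (M : St ar D) (V : Ultrafilter (A → D)) (B : Set A) : Prop :=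
  ∀ u, u ⊆ B → u.Nonempty → u ≠ B → ¬ Splits G M V B u

end Pool.Agent.Helper6.VU
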