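import Pool.Agent.Helper6.V9Spl

/-!
# Free sets
-/

set_option autoImplicit false

namespace Pool.Agent.Helper6.VU

open Set Filter

variable {Y : Type} {ar : Y → ℕ} {D A : Type}

/-- The tuple `x` realises the type of `V` over the rest of the structure. -/
def Free (G : Set Y) (M : St ar D) (V : Ultrafilter (A → D)) (B : Set A) (x : A → D) : Prop :=
  Set.InjOn x B ∧ ∀ s ∈ G, ∀ v : Fin (ar s) → D ⊕ A, (∀ c a, v c = Sum.inr a → a ∈ B) →
    (∀ c d, v c = Sum.inl d → d ∉ x '' B) →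
    (M s (ev1 x ∘ v) ↔ ∀ᶠ y in (V : Filter (A → D)), M s (ev1 y ∘ v))

section Par

variable {Ω : Type} (W : Ultrafilter Ω) {n : ℕ} (m : Ω → Fin n → D)

/-- Eventually constant parameters. -/
def PCst (c : Fin n) : Prop := ∃ d, ∀ᶠ ω in (W : Filter Ω), m ω c = d

/-- The eventual value. -/
noncomputable def pdc (d0 : D) (c : Fin n) : D :=
  open Classical in if h : PCst W m c then h.choose else d0

theorem pdc_spec (d0 : D) {c : Fin n} (h : PCst W m c) :
    ∀ᶠ ω in (W : Filter Ω), m ω c = pdc W m d0 c := by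
  unfold pdc
  rw [dif_pos h]
  exact h.choose_spec

theorem pesc {c : Fin n} (h : ¬ PCst W m c) (d : D) :
    ∀ᶠ ω in (W : Filter Ω), m ω c ≠ d :=
  Ultrafilter.eventually_not.mpr fun h' => h ⟨d, h'⟩

/-- Eventual equality of parameters. -/
def psd : Setoid (Fin n) where
  r c c' := ∀ᶠ ω in (W : Filter Ω), m ω c = m ω c'
  iseqv := ⟨fun _ => Filter.Eventually.of_forall fun _ => rfl,
    fun h => h.mono fun _ h => h.symm,
    fun h h' => by filter_upwards [h, h'] with k h h' using h.trans h'⟩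

/-- Representatives. -/
noncomputable def prp (c : Fin n) : Fin n := (Quotient.mk (psd W m) c).out

theorem prp_spec (c : Fin n) : ∀ᶠ ω in (W : Filter Ω), m ω (prp W m c) = m ω c :=
  Quotient.mk_out (s := psd W m) c

theorem prp_eq {c c' : Fin n} (h : ∀ᶠ ω in (W : Filter Ω), m ω c = m ω c') :
    prp W m c = prp W m c' := by
  unfold prp
  have : Quotient.mk (psd W m) c = Quotient.mk (psd W m) c' := Quotient.sound h
  rw [this]

end Par

theorem free_step {K : HC ar} (hC : Comm K) {M : St ar D} (hM : K.mem M) {G : Finset Y}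
    {V : Ultrafilter (A → D)} {B : Set A} (hB : B.Finite) (hV : Disj V B)
    (hI : Indec (G : Set Y) M V B) {a₀ : A} (ha₀ : a₀ ∈ B) {Y0 : Set D}
    (hY0 : ∀ y : A → D, y a₀ ∈ Y0 → ¬ Free (G : Set Y) M V B y)
    (hev : ∀ᶠ y in (V : Filter (A → D)), y a₀ ∈ Y0) :
    ∃ (A' : Type) (B' : Set A') (V' : Ultrafilter (A' → D)) (a₀' : A'), B'.Finite ∧ Disj V' B' ∧
      Indec (G : Set Y) M V' B' ∧ a₀' ∈ B' ∧ (∀ᶠ y in (V' : Filter (A' → D)), y a₀' ∈ Y0) ∧
      B.ncard < B'.ncard := by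
  classical
  have hBfin : Finite B := hB
  obtain ⟨x0, -⟩ := V.nonempty_of_mem Filter.univ_mem
  let d0 : D := x0 a₀
  have hinj : ∀ᶠ y in (V : Filter (A → D)), Set.InjOn y B := by
    have h1 : ∀ᶠ y in (V : Filter (A → D)), ∀ a : B, ∀ a' : B, a ≠ a' → y a ≠ y a' := by
      rw [Filter.eventually_all]
      intro a
      rw [Filter.eventually_all]
      intro a'
      by_cases h : a = a'
      · exact Filter.Eventually.of_forall fun y hne => absurd h hne
      · exact (hV.2 a a.2 a' a'.2 fun h' => h (Subtype.ext h')).mono fun y hy _ => hy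
    refine h1.mono fun y hy a ha a' ha' h => ?_
    by_contra hne
    exact hy ⟨a, ha⟩ ⟨a', ha'⟩ (fun h' => hne (congrArg Subtype.val h')) h
  -- a fixed symbol
  let Qs : (s : Y) → (A → D) → (Fin (ar s) → D ⊕ A) → Prop := fun s y v =>
    (∀ c a, v c = Sum.inr a → a ∈ B) ∧ (∀ c d, v c = Sum.inl d → d ∉ y '' B) ∧
      ¬ (M s (ev1 y ∘ v) ↔ ∀ᶠ z in (V : Filter (A → D)), M s (ev1 z ∘ v))
  have hbad : ∀ᶠ y in (V : Filter (A → D)), ∃ s ∈ (G : Set Y), ∃ v, Qs s y v := by
    filter_upwards [hinj, hev] with y h1 h2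
    by_contra hcon
    push Not at hcon
    refine hY0 y h2 ⟨h1, fun s hs v hv hv' => ?_⟩
    by_contra h3
    exact hcon s hs v ⟨hv, hv', h3⟩
  rw [Ultrafilter.eventually_exists_mem_iff G.finite_toSet] at hbad
  obtain ⟨s, hs, hbad⟩ := hbad
  obtain ⟨g, hg⟩ := hbad.choice
  -- the pattern
  obtain ⟨pt, hpt⟩ := ev_const_of_finite V fun y => fun c : Fin (ar s) =>
    (Sum.elim (fun _ => none) (fun a => if h : a ∈ B then some ⟨a, h⟩ else none) (g y c) :
      Option B)
  have hpt' : ∀ᶠ y in (V : Filter (A → D)), ∀ c,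
      (∀ a, pt c = some a → g y c = Sum.inr (a : A)) ∧ (pt c = none → ∃ d, g y c = Sum.inl d) := by
    filter_upwards [hpt, hg] with y h1 h2 c
    have h3 := congrFun h1 c
    rcases hgc : g y c with d | a
    · rw [hgc] at h3
      refine ⟨fun a ha => ?_, fun _ => ⟨d, rfl⟩⟩
      rw [ha] at h3
      simp at h3
    · have ha := h2.1 c a hgc
      rw [hgc] at h3
      simp only [Sum.elim_inr, ha, dif_pos] at h3
      refine ⟨fun a' ha' => ?_, fun hn => ?_⟩
      · rw [ha'] at h3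
        simp only [Option.some.injEq] at h3
        rw [← h3]
      · rw [hn] at h3
        simp at h3
  obtain ⟨β, hβ⟩ : ∃ β : Prop, ∀ᶠ y in (V : Filter (A → D)), (M s (ev1 y ∘ g y) ↔ β) := by
    rcases V.em fun y => M s (ev1 y ∘ g y) with h | h
    · exact ⟨True, h.mono fun k hk => ⟨fun _ => trivial, fun _ => hk⟩⟩
    · exact ⟨False, h.mono fun k hk => ⟨hk, fun h => absurd h id⟩⟩
  let m : (A → D) → Fin (ar s) → D := fun y c => Sum.elim id (fun _ => d0) (g y c)
  let R : Set (Fin (ar s)) := {c | ∃ c', pt c' = none ∧ ¬ PCst V m c' ∧ c = prp V m c'}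
  let V' : Ultrafilter (A ⊕ Fin (ar s) → D) := V.map fun y => Sum.elim y (m y)
  let B' : Set (A ⊕ Fin (ar s)) := Sum.inl '' B ∪ Sum.inr '' R
  have hB'f : B'.Finite := (hB.image _).union ((Set.toFinite R).image _)
  have hResc : ∀ c ∈ R, ∀ d, ∀ᶠ y in (V : Filter (A → D)), m y c ≠ d := by
    rintro c ⟨c', -, h1, rfl⟩ d
    filter_upwards [prp_spec V m c', pesc V m h1 d] with y h2 h3
    rw [h2]
    exact h3
  have hRoff : ∀ c ∈ R, ∀ᶠ y in (V : Filter (A → D)), m y c ∉ y '' B := by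
    rintro c ⟨c', h0, h1, rfl⟩
    filter_upwards [prp_spec V m c', hpt', hg] with y h2 h3 h4
    rw [h2]
    obtain ⟨d, hd⟩ := (h3 c').2 h0
    have : m y c' = d := by simp [m, hd]
    rw [this]
    exact h4.2.1 c' d hd
  have hV' : Disj V' B' := by
    constructor
    · rintro q (⟨a, ha, rfl⟩ | ⟨c, hc, rfl⟩) d
      · show ∀ᶠ y in (V : Filter (A → D)), y a ≠ d
        exact hV.1 a ha d
      · show ∀ᶠ y in (V : Filter (A → D)), m y c ≠ d
        exact hResc c hc d
    · rintro q (⟨a, ha, rfl⟩ | ⟨c, hc, rfl⟩) q' (⟨a', ha', rfl⟩ | ⟨c', hc', rfl⟩) hne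
      · show ∀ᶠ y in (V : Filter (A → D)), y a ≠ y a'
        exact hV.2 a ha a' ha' fun h => hne (by rw [h])
      · show ∀ᶠ y in (V : Filter (A → D)), y a ≠ m y c'
        exact (hRoff c' hc').mono fun y hy h => hy ⟨a, ha, h⟩
      · show ∀ᶠ y in (V : Filter (A → D)), m y c ≠ y a'
        exact (hRoff c hc).mono fun y hy h => hy ⟨a', ha', h.symm⟩
      · show ∀ᶠ y in (V : Filter (A → D)), m y c ≠ m y c'
        obtain ⟨c1, -, -, rfl⟩ := hc
        obtain ⟨c1', -, -, rfl⟩ := hc'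
        refine Ultrafilter.eventually_not.mpr fun hcon => hne (congrArg Sum.inr (prp_eq V m ?_))
        filter_upwards [prp_spec V m c1, prp_spec V m c1', hcon] with y h1 h2 h3
        rw [← h1, ← h2, h3]
  -- the separating tuple
  let w : Fin (ar s) → D ⊕ (A ⊕ Fin (ar s)) := fun c =>
    match pt c with
    | some a => Sum.inr (Sum.inl (a : A))
    | none => if PCst V m c then Sum.inl (pdc V m d0 c) else Sum.inr (Sum.inr (prp V m c))
  have hwlive : ∀ c q, w c = Sum.inr q → q ∈ B' := by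
    intro c q hc
    rcases hp : pt c with _ | a
    · by_cases h1 : PCst V m c
      · simp [w, hp, h1] at hc
      · simp only [w, hp, h1, if_false, Sum.inr.injEq] at hc
        rw [← hc]
        exact Or.inr ⟨_, ⟨c, hp, h1, rfl⟩, rfl⟩
    · simp only [w, hp, Sum.inr.injEq] at hc
      rw [← hc]
      exact Or.inl ⟨_, a.2, rfl⟩
  have hweval : ∀ᶠ y in (V : Filter (A → D)), ∀ (z : A → D) (f : A ⊕ Fin (ar s) → D),
      (∀ a, f (Sum.inl a) = z a) → (∀ c ∈ R, f (Sum.inr c) = m y c) →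
      ev1 f ∘ w = ev1 z ∘ g y := by
    have h1 : ∀ᶠ y in (V : Filter (A → D)), ∀ c, (PCst V m c → m y c = pdc V m d0 c) ∧
        m y (prp V m c) = m y c := by
      refine Filter.eventually_all.mpr fun c => ?_
      by_cases h : PCst V m c
      · filter_upwards [pdc_spec V m d0 h, prp_spec V m c] with y h2 h3
        exact ⟨fun _ => h2, h3⟩
      · filter_upwards [prp_spec V m c] with y h3
        exact ⟨fun h2 => absurd h2 h, h3⟩
    filter_upwards [h1, hpt'] with y h1 h2 z f hf1 hf2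
    funext c
    show ev1 f (w c) = ev1 z (g y c)
    rcases hp : pt c with _ | a
    · obtain ⟨d, hd⟩ := (h2 c).2 hp
      have hm : m y c = d := by simp [m, hd]
      by_cases h3 : PCst V m c
      · simp only [w, hp, h3, if_true, hd]
        show pdc V m d0 c = d
        rw [← (h1 c).1 h3, hm]
      · simp only [w, hp, h3, if_false, hd]
        show f (Sum.inr (prp V m c)) = d
        rw [hf2 _ ⟨c, hp, h3, rfl⟩, (h1 c).2, hm]
    · simp only [w, hp, (h2 c).1 a hp]
      exact hf1 a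
  have hnot : ¬ Splits (G : Set Y) M V' B' (Sum.inr '' R) := by
    intro hsp
    have h1 := hsp s hs w hwlive
    have h2 : (∀ᶠ x in (V' : Filter _), M s (ev1 x ∘ w)) ↔ β := by
      show (∀ᶠ y in (V : Filter (A → D)), M s (ev1 (Sum.elim y (m y)) ∘ w)) ↔ β
      rw [← ev_const V β]
      refine Filter.eventually_congr ?_
      filter_upwards [hweval, hβ] with y h3 h4
      rw [h3 y (Sum.elim y (m y)) (fun _ => rfl) (fun _ _ => rfl)]
      exact h4
    have h3 : (∀ᶠ x in (V' : Filter _), ∀ᶠ x' in (V' : Filter _),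
        M s (ev1 (mix (Sum.inr '' R) x x') ∘ w)) ↔ ¬ β := by
      show (∀ᶠ y in (V : Filter (A → D)), ∀ᶠ z in (V : Filter (A → D)),
        M s (ev1 (mix (Sum.inr '' R) (Sum.elim y (m y)) (Sum.elim z (m z))) ∘ w)) ↔ ¬ β
      rw [← ev_const V (¬ β)]
      refine Filter.eventually_congr ?_
      filter_upwards [hweval, hβ, hg] with y h3 h4 h5
      have h6 : ∀ z : A → D, ev1 (mix (Sum.inr '' R) (Sum.elim y (m y)) (Sum.elim z (m z))) ∘ w =
          ev1 z ∘ g y := by
        intro z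
        refine h3 z _ (fun a => ?_) fun c hc => ?_
        · rw [mix_not (by rintro ⟨c, -, hc⟩; simp at hc)]
          rfl
        · rw [mix_mem (show (Sum.inr c : A ⊕ Fin (ar s)) ∈ Sum.inr '' R from ⟨c, hc, rfl⟩)]
          rfl
      simp only [h6]
      have h7 := h5.2.2
      rw [h4] at h7
      tauto
    rw [h2, h3] at h1
    tauto
  -- a minimal piece containing the base point
  have hex : ∃ n, ∃ B0 : Set (A ⊕ Fin (ar s)), B0 ⊆ B' ∧ Sum.inl a₀ ∈ B0 ∧
      Splits (G : Set Y) M V' B' B0 ∧ B0.ncard = n :=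
    ⟨_, B', le_refl _, Or.inl ⟨a₀, ha₀, rfl⟩, splits_self, rfl⟩
  obtain ⟨B0, hB0, haB0, hsp, hcard⟩ := Nat.find_spec hex
  have hmin : ∀ B1 : Set (A ⊕ Fin (ar s)), B1 ⊆ B' → Sum.inl a₀ ∈ B1 →
      Splits (G : Set Y) M V' B' B1 → B0.ncard ≤ B1.ncard := by
    intro B1 h1 h2 h3
    rw [hcard]
    exact Nat.find_min' hex ⟨B1, h1, h2, h3, rfl⟩
  have hB0f : B0.Finite := hB'f.subset hB0
  have hB0d : Disj V' B0 := hV'.mono hB0
  have hB0I : Indec (G : Set Y) M V' B0 := by
    intro u hu hune hune' hspu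
    by_cases h1 : Sum.inl a₀ ∈ u
    · have h2 := hmin u (hu.trans hB0) h1 (hsp.trans hC hM hV' hu hspu)
      have h3 := Set.ncard_lt_ncard (hu.ssubset_of_ne hune') hB0f
      omega
    · have h2 := hmin (B0 \ u) (Set.sdiff_subset.trans hB0) ⟨haB0, h1⟩
        (hsp.trans hC hM hV' Set.sdiff_subset (hspu.compl hC hM hB0d))
      have h3 : (B0 \ u).ncard < B0.ncard := by
        refine Set.ncard_lt_ncard (Set.sdiff_subset.ssubset_of_ne fun h => ?_) hB0f
        obtain ⟨x, hx⟩ := hune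
        have h4 := hu hx
        rw [← h] at h4
        exact h4.2 hx
      omega
  -- it contains the old coordinates
  have hsub : Sum.inl '' B ⊆ B0 := by
    have h1 := hsp.restrict (B1 := Sum.inl '' B) Set.subset_union_left
    have h2 : Splits (G : Set Y) M V B (Sum.inl ⁻¹' B0 ∩ B) := by
      intro s' hs' v hv
      let v' : Fin (ar s') → D ⊕ (A ⊕ Fin (ar s)) := fun c => Sum.map id Sum.inl (v c)
      have hv' : ∀ c q, v' c = Sum.inr q → q ∈ Sum.inl '' B := by
        intro c q hc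
        rcases hvc : v c with d | a
        · simp [v', hvc] at hc
        · simp only [v', hvc, Sum.map_inr, Sum.inr.injEq] at hc
          exact ⟨a, hv c a hvc, hc⟩
      have h3 := h1 s' hs' v' hv'
      have e1 : ∀ y : A → D, ev1 (Sum.elim y (m y)) ∘ v' = ev1 y ∘ v := by
        intro y
        funext c
        show ev1 _ (Sum.map id Sum.inl (v c)) = ev1 y (v c)
        rcases v c with d | a <;> rfl
      have e2 : ∀ y z : A → D, ev1 (mix (B0 ∩ Sum.inl '' B) (Sum.elim y (m y))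
          (Sum.elim z (m z))) ∘ v' = ev1 (mix (Sum.inl ⁻¹' B0 ∩ B) y z) ∘ v := by
        intro y z
        funext c
        show ev1 _ (Sum.map id Sum.inl (v c)) = ev1 _ (v c)
        rcases hvc : v c with d | a
        · rfl
        · show mix (B0 ∩ Sum.inl '' B) (Sum.elim y (m y)) (Sum.elim z (m z)) (Sum.inl a) =
            mix (Sum.inl ⁻¹' B0 ∩ B) y z a
          by_cases h : (Sum.inl a : A ⊕ Fin (ar s)) ∈ B0
          · rw [mix_mem (show (Sum.inl a : A ⊕ Fin (ar s)) ∈ B0 ∩ Sum.inl '' B from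
              ⟨h, a, hv c a hvc, rfl⟩), mix_mem (show a ∈ Sum.inl ⁻¹' B0 ∩ B from
              ⟨h, hv c a hvc⟩)]
            rfl
          · rw [mix_not (fun h' => h h'.1), mix_not (fun h' => h h'.1)]
            rfl
      have e3 : (∀ᶠ x in (V' : Filter _), M s' (ev1 x ∘ v')) ↔
          ∀ᶠ y in (V : Filter (A → D)), M s' (ev1 y ∘ v) := by
        show (∀ᶠ y in (V : Filter (A → D)), M s' (ev1 (Sum.elim y (m y)) ∘ v')) ↔ _
        exact ev_congr fun y => by rw [e1]
      have e4 : (∀ᶠ x in (V' : Filter _), ∀ᶠ x' in (V' : Filter _),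
          M s' (ev1 (mix (B0 ∩ Sum.inl '' B) x x') ∘ v')) ↔
          ∀ᶠ y in (V : Filter (A → D)), ∀ᶠ z in (V : Filter (A → D)),
            M s' (ev1 (mix (Sum.inl ⁻¹' B0 ∩ B) y z) ∘ v) := by
        show (∀ᶠ y in (V : Filter (A → D)), ∀ᶠ z in (V : Filter (A → D)),
          M s' (ev1 (mix (B0 ∩ Sum.inl '' B) (Sum.elim y (m y)) (Sum.elim z (m z))) ∘ v')) ↔ _
        exact ev_congr fun y => ev_congr fun z => by rw [e2]
      rw [e3, e4] at h3
      exact h3
    have h3 : Sum.inl ⁻¹' B0 ∩ B = B := by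
      by_contra hne
      exact hI _ Set.inter_subset_right ⟨a₀, haB0, ha₀⟩ hne h2
    rintro q ⟨a, ha, rfl⟩
    rw [← h3] at ha
    exact ha.1
  have hne : Sum.inl '' B ≠ B0 := by
    intro h
    apply hnot
    rw [← h] at hsp
    have h1 := hsp.compl hC hM hV'
    have h2 : B' \ Sum.inl '' B = Sum.inr '' R := by
      ext q
      constructor
      · rintro ⟨h3 | h3, h4⟩
        · exact absurd h3 h4
        · exact h3
      · rintro ⟨c, hc, rfl⟩
        refine ⟨Or.inr ⟨c, hc, rfl⟩, ?_⟩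
        rintro ⟨a, -, ha⟩
        simp at ha
    rwa [h2] at h1
  refine ⟨A ⊕ Fin (ar s), B0, V', Sum.inl a₀, hB0f, hB0d, hB0I, haB0, ?_, ?_⟩
  · show ∀ᶠ y in (V : Filter (A → D)), y a₀ ∈ Y0
    exact hev
  · have h1 := Set.ncard_lt_ncard (hsub.ssubset_of_ne hne) hB0f
    rwa [Set.ncard_image_of_injective _ Sum.inl_injective] at h1

/-- **All but finitely many elements are in free sets.** -/
theorem free_cofinite [Countable Y] {K : HC ar} (hK : ¬ Wild {c : Sp ar | K.mem (toSt c)})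
    (hC : Comm K) {M : St ar D} (hM : K.mem M) (G : Finset Y) :
    {d : D | ¬ ∃ (A : Type) (B : Set A) (V : Ultrafilter (A → D)) (x : A → D) (a : A),
      B.Finite ∧ Disj V B ∧ Indec (G : Set Y) M V B ∧ Free (G : Set Y) M V B x ∧ a ∈ B ∧
      x a = d}.Finite := by
  classical
  set Y0 : Set D := {d : D | ¬ ∃ (A : Type) (B : Set A) (V : Ultrafilter (A → D)) (x : A → D)
    (a : A), B.Finite ∧ Disj V B ∧ Indec (G : Set Y) M V B ∧ Free (G : Set Y) M V B x ∧ a ∈ B ∧
      x a = d} with hY0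
  by_contra hinf
  obtain ⟨b, hb⟩ := indec_bounded hK hC hM G
  let PP : ℕ → Prop := fun n => ∃ (A : Type) (B : Set A) (V : Ultrafilter (A → D)) (a₀ : A),
    B.Finite ∧ Disj V B ∧ Indec (G : Set Y) M V B ∧ a₀ ∈ B ∧
      (∀ᶠ y in (V : Filter (A → D)), y a₀ ∈ Y0) ∧ n ≤ B.ncard
  have hall : ∀ n, PP n := by
    intro n
    induction n with
    | zero =>
      have hne : NeBot (Filter.cofinite ⊓ 𝓟 Y0) := by
        rw [Filter.cofinite_inf_principal_neBot_iff]
        exact hinf
      let W : Ultrafilter D := Ultrafilter.of (Filter.cofinite ⊓ 𝓟 Y0)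
      have hW1 : ∀ᶠ d in (W : Filter D), d ∈ Y0 :=
        (Ultrafilter.of_le _ : (W : Filter D) ≤ _) (Filter.mem_inf_of_right
          (Filter.mem_principal_self _))
      have hW2 : ∀ e : D, ∀ᶠ d in (W : Filter D), d ≠ e := fun e =>
        (Ultrafilter.of_le _ : (W : Filter D) ≤ _) (Filter.mem_inf_of_left
          (by simp [Filter.mem_cofinite]))
      refine ⟨Unit, univ, W.map fun d _ => d, (), Set.finite_univ, ⟨fun _ _ d => ?_,
        fun a _ a' _ h => absurd rfl h⟩, ?_, trivial, ?_, Nat.zero_le _⟩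
      · exact hW2 d
      · intro u _ hu hu' _
        apply hu'
        obtain ⟨a, ha⟩ := hu
        exact Set.eq_univ_of_forall fun a' => ha
      · exact hW1
    | succ n ih =>
      obtain ⟨A, B, V, a₀, h1, h2, h3, h4, h5, h6⟩ := ih
      obtain ⟨A', B', V', a₀', h1', h2', h3', h4', h5', h6'⟩ := free_step (Y0 := Y0) hC hM h1 h2
        h3 h4 (fun y hy hf => hy ⟨A, B, V, y, a₀, h1, h2, h3, hf, h4, rfl⟩) h5
      exact ⟨A', B', V', a₀', h1', h2', h3', h4', h5', by omega⟩
  obtain ⟨A, B, V, a₀, h1, h2, h3, -, -, h6⟩ := hall (b + 1)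
  have := hb A B V h1 h2 h3
  omega

end Pool.Agent.Helper6.VU
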