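import Pool.Agent.Helper6.V8Bd

/-!
# Splitting of types
-/

set_option autoImplicit false

namespace Pool.Agent.Helper6.VU

open Set Filter

variable {Y : Type} {ar : Y → ℕ} {D A : Type} {K : HC ar} {M : St ar D} {G : Set Y}
  {V : Ultrafilter (A → D)} {B : Set A}

/-- Mixing three rows. -/
noncomputable def mix3 (u B0 : Set A) (x y z : A → D) (a : A) : D :=
  open Classical in if a ∈ u then x a else if a ∈ B0 then y a else z a

/-- The copy used by a coordinate. -/
noncomputable def col3 (u B0 : Set A) (a : A) : ℕ :=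
  open Classical in if a ∈ u then 0 else if a ∈ B0 then 1 else 2

/-- The tuple using three copies. -/
noncomputable def tup3 (u B0 : Set A) {n : ℕ} (v : Fin n → D ⊕ A) (c : Fin n) : D ⊕ ℕ × A :=
  Sum.map id (fun a => (col3 u B0 a, a)) (v c)

theorem tup3_inr {u B0 : Set A} {n : ℕ} {v : Fin n → D ⊕ A} {c : Fin n} {r : ℕ} {a : A}
    (h : tup3 u B0 v c = Sum.inr (r, a)) : v c = Sum.inr a ∧ r = col3 u B0 a := by
  unfold tup3 at h
  rcases hvc : v c with d | a'
  · simp [hvc] at h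
  · simp only [hvc, Sum.map_inr, Sum.inr.injEq, Prod.mk.injEq] at h
    exact ⟨by rw [h.2], by rw [← h.2]; exact h.1.symm⟩

theorem ev_tup3 (u B0 : Set A) {n : ℕ} (v : Fin n → D ⊕ A) (g : ℕ → A → D) :
    ev g ∘ tup3 u B0 v = ev1 (mix3 u B0 (g 0) (g 1) (g 2)) ∘ v := by
  classical
  funext c
  show ev g (tup3 u B0 v c) = ev1 _ (v c)
  unfold tup3
  rcases v c with d | a
  · rfl
  · show g (col3 u B0 a) a = mix3 u B0 (g 0) (g 1) (g 2) a
    unfold col3 mix3
    by_cases h1 : a ∈ u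
    · simp [h1]
    · by_cases h2 : a ∈ B0
      · simp [h1, h2]
      · simp [h1, h2]

theorem perm3 (hC : Comm K) (hM : K.mem M) (hV : Disj V B) (u B0 : Set A) {s : Y}
    {v : Fin (ar s) → D ⊕ A} (hv : ∀ c a, v c = Sum.inr a → a ∈ B) {l l' : List ℕ}
    (h : l.Perm l') (hnd : l.Nodup) (g : ℕ → A → D) :
    (∀ᶠ g' in nf (fun _ => V) l g, M s (ev1 (mix3 u B0 (g' 0) (g' 1) (g' 2)) ∘ v)) ↔
      ∀ᶠ g' in nf (fun _ => V) l' g, M s (ev1 (mix3 u B0 (g' 0) (g' 1) (g' 2)) ∘ v) := by
  have h1 := NU_perm (U := fun _ : ℕ => V) (B := fun _ => B) (w := tup3 u B0 v) hC hM h hnd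
    (fun _ _ => hV) (fun c r a hc _ => hv c a (tup3_inr hc).1) g
  simp only [ev_tup3] at h1
  exact h1

theorem NU3_eval (u B0 : Set A) {s : Y} {v : Fin (ar s) → D ⊕ A} {i j k : ℕ}
    (g : ℕ → A → D) :
    (∀ᶠ g' in nf (fun _ => V) [i, j, k] g, M s (ev1 (mix3 u B0 (g' 0) (g' 1) (g' 2)) ∘ v)) ↔
      ∀ᶠ x in (V : Filter (A → D)), ∀ᶠ y in (V : Filter (A → D)), ∀ᶠ z in (V : Filter (A → D)),
        M s (ev1 (mix3 u B0 (upd (upd (upd g i x) j y) k z 0) (upd (upd (upd g i x) j y) k z 1)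
          (upd (upd (upd g i x) j y) k z 2)) ∘ v) := by
  rw [NU_cons]
  refine ev_congr fun x => ?_
  rw [NU_cons]
  refine ev_congr fun y => ?_
  rw [NU_cons]
  refine ev_congr fun z => ?_
  rw [NU_nil]

theorem comm2 (hC : Comm K) (hM : K.mem M) (hV : Disj V B) (u : Set A) {s : Y}
    {v : Fin (ar s) → D ⊕ A} (hv : ∀ c a, v c = Sum.inr a → a ∈ B) :
    (∀ᶠ x in (V : Filter (A → D)), ∀ᶠ y in (V : Filter (A → D)), M s (ev1 (mix u x y) ∘ v)) ↔
      ∀ᶠ y in (V : Filter (A → D)), ∀ᶠ x in (V : Filter (A → D)), M s (ev1 (mix u x y) ∘ v) := by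
  classical
  have hmix : ∀ x y z : A → D, ev1 (mix3 u univ x y z) ∘ v = ev1 (mix u x y) ∘ v := by
    intro x y z
    funext c
    show ev1 _ (v c) = ev1 _ (v c)
    rcases v c with d | a
    · rfl
    · show mix3 u univ x y z a = mix u x y a
      unfold mix3 mix
      simp
  rcases isEmpty_or_nonempty (A → D) with hE | ⟨⟨g0⟩⟩
  · obtain ⟨x, -⟩ := V.nonempty_of_mem Filter.univ_mem
    exact (hE.false x).elim
  have h1 := perm3 hC hM hV u univ hv (l := [0, 1]) (l' := [1, 0]) (List.Perm.swap 1 0 [])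
    (by simp) (fun _ => g0)
  rw [NU_cons, NU_cons] at h1
  have e1 : ∀ x, (∀ᶠ g' in nf (fun _ => V) [1] (upd (fun _ => g0) 0 x),
      M s (ev1 (mix3 u univ (g' 0) (g' 1) (g' 2)) ∘ v)) ↔
      ∀ᶠ y in (V : Filter (A → D)), M s (ev1 (mix u x y) ∘ v) := by
    intro x
    rw [NU_cons]
    refine ev_congr fun y => ?_
    rw [NU_nil, hmix, upd_ne _ _ (by simp : (0 : ℕ) ≠ 1), upd_same, upd_same]
  have e2 : ∀ y, (∀ᶠ g' in nf (fun _ => V) [0] (upd (fun _ => g0) 1 y),
      M s (ev1 (mix3 u univ (g' 0) (g' 1) (g' 2)) ∘ v)) ↔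
      ∀ᶠ x in (V : Filter (A → D)), M s (ev1 (mix u x y) ∘ v) := by
    intro y
    rw [NU_cons]
    refine ev_congr fun x => ?_
    rw [NU_nil, hmix, upd_same, upd_ne _ _ (by simp : (1 : ℕ) ≠ 0), upd_same]
  rw [ev_congr e1, ev_congr e2] at h1
  exact h1

theorem Splits.compl (hC : Comm K) (hM : K.mem M) (hV : Disj V B) {u : Set A}
    (h : Splits G M V B u) : Splits G M V B (B \ u) := by
  classical
  intro s hs v hv
  rw [h s hs v hv, comm2 hC hM hV u hv]
  refine ev_congr fun y => ev_congr fun x => ?_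
  have : ev1 (mix u x y) ∘ v = ev1 (mix (B \ u) y x) ∘ v := by
    funext c
    show ev1 _ (v c) = ev1 _ (v c)
    rcases hvc : v c with d | a
    · rfl
    · show mix u x y a = mix (B \ u) y x a
      by_cases ha : a ∈ u
      · rw [mix_mem ha, mix_not (fun h => h.2 ha)]
      · rw [mix_not ha, mix_mem (show a ∈ B \ u from ⟨hv c a hvc, ha⟩)]
  rw [this]

theorem splits_self : Splits G M V B B := by
  intro s hs v hv
  refine ev_congr fun x => ?_
  have : ∀ y, ev1 (mix B x y) ∘ v = ev1 x ∘ v := by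
    intro y
    funext c
    show ev1 _ (v c) = ev1 _ (v c)
    rcases hvc : v c with d | a
    · rfl
    · exact mix_mem (hv c a hvc)
  simp only [this]
  exact (ev_const V _).symm

theorem Splits.restrict {u B1 : Set A} (h : Splits G M V B u) (hB : B1 ⊆ B) :
    Splits G M V B1 (u ∩ B1) := by
  intro s hs v hv
  rw [h s hs v fun c a hc => hB (hv c a hc)]
  refine ev_congr fun x => ev_congr fun y => ?_
  have : ev1 (mix u x y) ∘ v = ev1 (mix (u ∩ B1) x y) ∘ v := by
    funext c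
    show ev1 _ (v c) = ev1 _ (v c)
    rcases hvc : v c with d | a
    · rfl
    · show mix u x y a = mix (u ∩ B1) x y a
      by_cases ha : a ∈ u
      · rw [mix_mem ha, mix_mem (show a ∈ u ∩ B1 from ⟨ha, hv c a hvc⟩)]
      · rw [mix_not ha, mix_not (fun h => ha h.1)]
  rw [this]

/-- Plugging in a row. -/
noncomputable def plug (u : Set A) (x : A → D) {n : ℕ} (v : Fin n → D ⊕ A) (c : Fin n) : D ⊕ A :=
  open Classical in Sum.elim Sum.inl (fun a => if a ∈ u then Sum.inl (x a) else Sum.inr a) (v c)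

theorem plug_inr {u : Set A} {x : A → D} {n : ℕ} {v : Fin n → D ⊕ A} {c : Fin n} {a : A}
    (h : plug u x v c = Sum.inr a) : v c = Sum.inr a ∧ a ∉ u := by
  classical
  unfold plug at h
  rcases hvc : v c with d | a'
  · simp [hvc] at h
  · by_cases ha : a' ∈ u
    · simp [hvc, ha] at h
    · simp only [hvc, Sum.elim_inr, ha, if_false, Sum.inr.injEq] at h
      rw [← h]
      exact ⟨rfl, ha⟩

theorem ev1_plug (u : Set A) (x y : A → D) {n : ℕ} (v : Fin n → D ⊕ A) :
    ev1 y ∘ plug u x v = ev1 (mix u x y) ∘ v := by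
  classical
  funext c
  show ev1 y (plug u x v c) = ev1 _ (v c)
  unfold plug
  rcases v c with d | a
  · rfl
  · by_cases ha : a ∈ u
    · simp only [Sum.elim_inr, ha, if_true]
      exact (mix_mem ha).symm
    · simp only [Sum.elim_inr, ha, if_false]
      exact (mix_not ha).symm

theorem Splits.trans (hC : Comm K) (hM : K.mem M) (hV : Disj V B) {u B0 : Set A}
    (hu : u ⊆ B0) (h : Splits G M V B B0) (h' : Splits G M V B0 u) : Splits G M V B u := by
  classical
  intro s hs v hv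
  rcases isEmpty_or_nonempty (A → D) with hE | ⟨⟨g0⟩⟩
  · obtain ⟨x, -⟩ := V.nonempty_of_mem Filter.univ_mem
    exact (hE.false x).elim
  -- the right side
  have r1 : ∀ x, (∀ᶠ y in (V : Filter (A → D)), M s (ev1 (mix u x y) ∘ v)) ↔
      ∀ᶠ y in (V : Filter (A → D)), ∀ᶠ z in (V : Filter (A → D)),
        M s (ev1 (mix3 u B0 x y z) ∘ v) := by
    intro x
    have h1 := h s hs (plug u x v) (fun c a hc => hv c a (plug_inr hc).1)
    simp only [ev1_plug] at h1
    rw [h1]
    refine ev_congr fun y => ev_congr fun z => ?_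
    have : mix u x (mix B0 y z) = mix3 u B0 x y z := by
      funext a
      by_cases ha : a ∈ u
      · rw [mix_mem ha]; unfold mix3; simp [ha]
      · rw [mix_not ha]
        by_cases hb : a ∈ B0
        · rw [mix_mem hb]; unfold mix3; simp [ha, hb]
        · rw [mix_not hb]; unfold mix3; simp [ha, hb]
    rw [this]
  rw [ev_congr r1]
  -- the left side
  rw [h s hs v hv, comm2 hC hM hV B0 hv]
  have l1 : ∀ z, (∀ᶠ x in (V : Filter (A → D)), M s (ev1 (mix B0 x z) ∘ v)) ↔
      ∀ᶠ x in (V : Filter (A → D)), ∀ᶠ y in (V : Filter (A → D)),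
        M s (ev1 (mix3 u B0 x y z) ∘ v) := by
    intro z
    have h1 := h' s hs (plug B0ᶜ z v) (fun c a hc => by
      by_contra h2
      exact (plug_inr hc).2 h2)
    simp only [ev1_plug] at h1
    have e1 : ∀ x : A → D, mix B0ᶜ z x = mix B0 x z := by
      intro x
      funext a
      by_cases ha : a ∈ B0
      · rw [mix_mem ha, mix_not (show a ∉ B0ᶜ from fun h => h ha)]
      · rw [mix_not ha, mix_mem (show a ∈ B0ᶜ from ha)]
    have e2 : ∀ x y : A → D, mix B0 (mix u x y) z = mix3 u B0 x y z := by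
      intro x y
      funext a
      by_cases ha : a ∈ B0
      · rw [mix_mem ha]
        by_cases hb : a ∈ u
        · rw [mix_mem hb]; unfold mix3; simp [hb]
        · rw [mix_not hb]; unfold mix3; simp [ha, hb]
      · have hb : a ∉ u := fun h => ha (hu h)
        rw [mix_not ha]; unfold mix3; simp [ha, hb]
    simp only [e1, e2] at h1
    exact h1
  rw [ev_congr l1]
  have h3 := perm3 hC hM hV u B0 hv (l := [2, 0, 1]) (l' := [0, 1, 2]) (by decide) (by decide)
    (fun _ => g0)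
  rw [NU3_eval, NU3_eval] at h3
  have e3 : ∀ x y z : A → D, upd (upd (upd (fun _ => g0) 2 x) 0 y) 1 z 0 = y := by
    intro x y z
    rw [upd_ne _ _ (by decide), upd_same]
  have e4 : ∀ x y z : A → D, upd (upd (upd (fun _ => g0) 2 x) 0 y) 1 z 1 = z := by
    intro x y z
    rw [upd_same]
  have e5 : ∀ x y z : A → D, upd (upd (upd (fun _ => g0) 2 x) 0 y) 1 z 2 = x := by
    intro x y z
    rw [upd_ne _ _ (by decide), upd_ne _ _ (by decide), upd_same]
  have e6 : ∀ x y z : A → D, upd (upd (upd (fun _ => g0) 0 x) 1 y) 2 z 0 = x := by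
    intro x y z
    rw [upd_ne _ _ (by decide), upd_ne _ _ (by decide), upd_same]
  have e7 : ∀ x y z : A → D, upd (upd (upd (fun _ => g0) 0 x) 1 y) 2 z 1 = y := by
    intro x y z
    rw [upd_ne _ _ (by decide), upd_same]
  have e8 : ∀ x y z : A → D, upd (upd (upd (fun _ => g0) 0 x) 1 y) 2 z 2 = z := by
    intro x y z
    rw [upd_same]
  simp only [e3, e4, e5, e6, e7, e8] at h3
  exact h3

end Pool.Agent.Helper6.VU
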